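import Pool.Agent.ST14.Defs

/-!
Module EMB: a labelled poset that locally looks like a skew shape is a skew shape.
-/

set_option autoImplicit false

open Set

namespace Pool.Agent.ST14

namespace Emb

section
variable {P : Type} [Fintype P] [PartialOrder P] {ω : P → ℕ}

theorem cov_cases (hω : Function.Injective ω) {x y : P} (h : x ⋖ y) : WCov ω x y ∨ SCov ω x y := by
  rcases lt_trichotomy (ω x) (ω y) with h1 | h1 | h1
  · exact Or.inl ⟨h, h1⟩
  · exact (h.lt.ne (hω h1)).elim
  · exact Or.inr ⟨h, h1⟩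

theorem exists_cov_le {x y : P} (h : x < y) : ∃ c, x ⋖ c ∧ c ≤ y := by
  obtain ⟨c, hc, hc2⟩ := exists_covBy_le_of_lt h
  exact ⟨c, hc, hc2⟩

theorem exists_le_cov {x y : P} (h : x < y) : ∃ c, x ≤ c ∧ c ⋖ y := by
  obtain ⟨c, hc, hc2⟩ := exists_le_covBy_of_lt h
  exact ⟨c, hc, hc2⟩

theorem _root_.Pool.Agent.ST14.SCov.not_wcov {x y : P} (h : SCov ω x y) : ¬ WCov ω x y := fun h' => lt_asymm h.2 h'.2

/-- `(P, ω)`-partitions in terms of covers. -/
theorem isPP_iff (hω : Function.Injective ω) (f : P → ℕ) :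
    IsPP ω f ↔ (∀ x y, WCov ω x y → f x ≤ f y) ∧ ∀ x y, SCov ω x y → f x < f y := by
  constructor
  · rintro ⟨h1, h2⟩
    exact ⟨fun x y h => h1 x y h.1.lt, fun x y h => h2 x y h.1.lt h.2⟩
  · rintro ⟨h1, h2⟩
    have key : ∀ t s : P, s < t → f s ≤ f t ∧ (ω t < ω s → f s < f t) := by
      intro t s
      induction s using (wellFounded_gt (α := P)).induction with
      | _ s ih =>
        intro hst
        obtain ⟨c, hc, hct⟩ := exists_cov_le hst
        have hsc : f s ≤ f c ∧ (ω c < ω s → f s < f c) := by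
          rcases cov_cases hω hc with h | h
          · exact ⟨h1 s c h, fun h' => absurd h.2 (lt_asymm h')⟩
          · exact ⟨(h2 s c h).le, fun _ => h2 s c h⟩
        rcases hct.eq_or_lt with rfl | hlt
        · exact hsc
        · have ih' := ih c hc.lt hlt
          refine ⟨hsc.1.trans ih'.1, ?_⟩
          intro hω'
          rcases lt_or_ge (ω c) (ω s) with h3 | h3
          · exact (hsc.2 h3).trans_le ih'.1
          · exact hsc.1.trans_lt (ih'.2 (hω'.trans_le h3))
    exact ⟨fun s t h => (key t s h).1, fun s t h hω' => (key t s h).2 hω'⟩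

/-- An arrangement of the upper set `U` in the plane. -/
structure Arr (ω : P → ℕ) (U : Set P) (a b : ℕ → ℕ) (e : P → ℕ × ℕ) : Prop where
  anti_a : Antitone a
  anti_b : Antitone b
  le : ∀ i, a i ≤ b i
  fin : ∃ n, ∀ i, n ≤ i → b i = 0
  inj : InjOn e U
  range : ∀ i j, (∃ x ∈ U, e x = (i, j)) ↔ a i ≤ j ∧ j < b i
  east : ∀ x ∈ U, ∀ y ∈ U, WCov ω x y ↔ e y = ((e x).1, (e x).2 + 1)
  south : ∀ x ∈ U, ∀ y ∈ U, SCov ω x y ↔ e y = ((e x).1 + 1, (e x).2)

/-- The hypotheses on the right end `t` of a top row of the upper set `U`. -/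
structure Top (ω : P → ℕ) (U : Set P) (t : P) : Prop where
  upper : IsUpperSet U
  mem : t ∈ U
  no_e : ∀ y, ¬ WCov ω t y
  no_n : ∀ z ∈ U, ¬ SCov ω z t

variable {U : Set P} {t : P}

theorem Top.no_north (hω : Function.Injective ω) (h : LocSkew ω) (ht : Top ω U t) :
    ∀ x ∈ U, x ≤ t → ∀ z ∈ U, ¬ SCov ω z x := by
  intro x
  induction x using (wellFounded_gt (α := P)).induction with
  | _ x ih =>
    intro hx hxt z hz hzx
    rcases hxt.eq_or_lt with rfl | hlt
    · exact ht.no_n z hz hzx
    · obtain ⟨c, hc, hct⟩ := exists_cov_le hlt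
      have hcU : c ∈ U := ht.upper hc.le hx
      rcases cov_cases hω hc with hw | hs
      · obtain ⟨c', h1, h2⟩ := h.sw z x c hzx hw
        exact ih c hc.lt hcU hct c' (ht.upper h1.1.le hz) h2
      · exact ih c hc.lt hcU hct x hx hs

/-- Every cover inside the row is weak. -/
theorem Top.weak (hω : Function.Injective ω) (h : LocSkew ω) (ht : Top ω U t) {x c : P}
    (hx : x ∈ U) (hc : x ⋖ c) (hct : c ≤ t) : WCov ω x c := by
  rcases cov_cases hω hc with hw | hs
  · exact hw
  · exact (ht.no_north hω h c (ht.upper hc.le hx) hct x hx hs).elim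

theorem Top.exists_east (hω : Function.Injective ω) (h : LocSkew ω) (ht : Top ω U t) {x : P}
    (hx : x ∈ U) (hxt : x < t) : ∃ c, WCov ω x c ∧ c ∈ U ∧ c ≤ t := by
  obtain ⟨c, hc, hct⟩ := exists_cov_le hxt
  exact ⟨c, ht.weak hω h hx hc hct, ht.upper hc.le hx, hct⟩

theorem Top.east_mem (hω : Function.Injective ω) (h : LocSkew ω) (ht : Top ω U t) {x y : P}
    (hx : x ∈ U) (hxt : x ≤ t) (hxy : WCov ω x y) : y ≤ t := by
  rcases hxt.eq_or_lt with rfl | hlt
  · exact (ht.no_e y hxy).elim
  · obtain ⟨c, hc, _, hct⟩ := ht.exists_east hω h hx hlt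
    rw [h.w_upper x y c hxy hc]
    exact hct

theorem Top.chain (hω : Function.Injective ω) (h : LocSkew ω) (ht : Top ω U t) :
    ∀ x ∈ U, x ≤ t → ∀ y ∈ U, y ≤ t → y ≤ x ∨ x ≤ y := by
  intro x
  induction x using (wellFounded_gt (α := P)).induction with
  | _ x ih =>
    intro hx hxt y hy hyt
    rcases hxt.eq_or_lt with rfl | hlt
    · exact Or.inl hyt
    · obtain ⟨c, hc, hcU, hct⟩ := ht.exists_east hω h hx hlt
      rcases ih c hc.1.lt hcU hct y hy hyt with h1 | h1
      · rcases h1.eq_or_lt with rfl | h1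
        · exact Or.inr hc.1.le
        · obtain ⟨y', hy', hy'c⟩ := exists_le_cov h1
          have hw := ht.weak hω h (ht.upper hy' hy) hy'c hct
          rw [h.w_lower y' x c hw hc] at hy'
          exact Or.inl hy'
      · exact Or.inr (hc.1.le.trans h1)

/-- The rank in the row. -/
noncomputable def rk (U : Set P) (x : P) : ℕ := by
  classical exact (Finset.univ.filter fun y => y ∈ U ∧ y < x).card

theorem rk_lt {x y : P} (hx : x ∈ U) (hxy : x < y) : rk U x < rk U y := by
  classical
  unfold rk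
  apply Finset.card_lt_card
  rw [Finset.ssubset_iff_of_subset]
  · exact ⟨x, by simp [hx, hxy], by simp⟩
  · intro z hz
    simp only [Finset.mem_filter, Finset.mem_univ, true_and] at hz ⊢
    exact ⟨hz.1, hz.2.trans hxy⟩

theorem Top.rk_inj (hω : Function.Injective ω) (h : LocSkew ω) (ht : Top ω U t) {x y : P}
    (hx : x ∈ U) (hxt : x ≤ t) (hy : y ∈ U) (hyt : y ≤ t) (hr : rk U x = rk U y) : x = y := by
  rcases ht.chain hω h x hx hxt y hy hyt with h1 | h1
  · rcases h1.eq_or_lt with h1 | h1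
    · exact h1.symm
    · exact absurd (rk_lt hy h1) (by omega)
  · rcases h1.eq_or_lt with h1 | h1
    · exact h1
    · exact absurd (rk_lt hx h1) (by omega)

theorem Top.rk_east (hω : Function.Injective ω) (h : LocSkew ω) (ht : Top ω U t) {x y : P}
    (hx : x ∈ U) (hyt : y ≤ t) (hxy : WCov ω x y) : rk U y = rk U x + 1 := by
  classical
  unfold rk
  have : (Finset.univ.filter fun z => z ∈ U ∧ z < y) =
      insert x (Finset.univ.filter fun z => z ∈ U ∧ z < x) := by
    ext z
    simp only [Finset.mem_filter, Finset.mem_univ, true_and, Finset.mem_insert]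
    constructor
    · rintro ⟨hz, hzy⟩
      obtain ⟨c, hc, hcy⟩ := exists_le_cov hzy
      have hw := ht.weak hω h (ht.upper hc hz) hcy hyt
      have hcx : c = x := h.w_lower c x y hw hxy
      subst hcx
      rcases hc.eq_or_lt with h1 | h1
      · exact Or.inl h1
      · exact Or.inr ⟨hz, h1⟩
    · rintro (rfl | ⟨hz, hzx⟩)
      · exact ⟨hx, hxy.1.lt⟩
      · exact ⟨hz, hzx.trans hxy.1.lt⟩
  rw [this, Finset.card_insert_of_notMem (by simp)]

/-- Every smaller rank occurs. -/
theorem Top.rk_surj (hω : Function.Injective ω) (h : LocSkew ω) (ht : Top ω U t) :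
    ∀ k, k ≤ rk U t → ∃ x ∈ U, x ≤ t ∧ rk U x = k := by
  intro k hk
  obtain ⟨d, hd⟩ : ∃ d, k + d = rk U t := ⟨rk U t - k, by omega⟩
  clear hk
  induction d generalizing k with
  | zero => exact ⟨t, ht.mem, le_rfl, by omega⟩
  | succ d ih =>
    obtain ⟨x, hx, hxt, hr⟩ := ih (k + 1) (by omega)
    -- there is an element below `x`
    have hne : ∃ y, y ∈ U ∧ y < x := by
      classical
      unfold rk at hr
      have hpos : 0 < (Finset.univ.filter fun y => y ∈ U ∧ y < x).card := by omega
      obtain ⟨y, hy⟩ := Finset.card_pos.1 hpos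
      simp only [Finset.mem_filter, Finset.mem_univ, true_and] at hy
      exact ⟨y, hy⟩
    obtain ⟨y, hy, hyx⟩ := hne
    obtain ⟨c, hc, hcx⟩ := exists_le_cov hyx
    have hcU : c ∈ U := ht.upper hc hy
    have hw := ht.weak hω h hcU hcx hxt
    have h1 := ht.rk_east hω h hcU hxt hw
    exact ⟨c, hcU, hcx.le.trans hxt, by omega⟩

theorem Top.not_le_of_scov (hω : Function.Injective ω) (h : LocSkew ω) (ht : Top ω U t) {x y : P}
    (hx : x ∈ U) (hxy : SCov ω x y) : ¬ y ≤ t := fun hyt =>
  ht.no_north hω h y (ht.upper hxy.1.le hx) hyt x hx hxy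

theorem Top.rk_le (ht : Top ω U t) {x : P} (hx : x ∈ U) (hxt : x ≤ t) : rk U x ≤ rk U t := by
  rcases hxt.eq_or_lt with rfl | h1
  · exact le_rfl
  · exact (rk_lt hx h1).le

/-- Adding a row on the top. -/
theorem Top.step (hω : Function.Injective ω) (h : LocSkew ω) (ht : Top ω U t) {a' b' : ℕ → ℕ}
    {e' : P → ℕ × ℕ} (hA : Arr ω {x | x ∈ U ∧ ¬ x ≤ t} a' b' e') (s q : ℕ) (hs : a' 0 ≤ s)
    (hsq : s + q = b' 0) (hq : q ≤ rk U t + 1)
    (hS : ∀ x ∈ U, x ≤ t → ∀ y, SCov ω x y → (e' y).1 = 0 ∧ (e' y).2 = s + rk U x)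
    (hS' : ∀ x ∈ U, x ≤ t → rk U x < q → ∃ y, SCov ω x y) :
    ∃ a b e, Arr ω U a b e ∧ (e t).1 = 0 ∧ (e t).2 + 1 = b 0 := by
  classical
  let e : P → ℕ × ℕ := fun x => if x ≤ t then (0, s + rk U x) else ((e' x).1 + 1, (e' x).2)
  have e1 : ∀ x, x ≤ t → e x = (0, s + rk U x) := fun x hx => if_pos hx
  have e2 : ∀ x, ¬ x ≤ t → e x = ((e' x).1 + 1, (e' x).2) := fun x hx => if_neg hx
  have key1 : ∀ x ∈ U, x ≤ t → ∀ y ∈ U, y ≤ t → (WCov ω x y ↔ rk U y = rk U x + 1) := by
    intro x hx hxt y hy hyt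
    constructor
    · intro hxy
      exact ht.rk_east hω h hx hyt hxy
    · intro hr
      have hlt : x < t := by
        refine lt_of_le_of_ne hxt ?_
        rintro rfl
        have := ht.rk_le hy hyt
        omega
      obtain ⟨c, hc, hcU, hct⟩ := ht.exists_east hω h hx hlt
      have h1 := ht.rk_east hω h hx hct hc
      rw [ht.rk_inj hω h hy hyt hcU hct (by omega)]
      exact hc
  refine ⟨fun i => Nat.casesOn i s a', fun i => Nat.casesOn i (s + rk U t + 1) b', e, ?_, ?_, ?_⟩
  · refine ⟨?_, ?_, ?_, ?_, ?_, ?_, ?_, ?_⟩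
    · refine antitone_nat_of_succ_le ?_
      intro n
      cases n with
      | zero => exact hs
      | succ n => exact hA.anti_a (Nat.le_succ n)
    · refine antitone_nat_of_succ_le ?_
      intro n
      cases n with
      | zero => change b' 0 ≤ s + rk U t + 1; omega
      | succ n => exact hA.anti_b (Nat.le_succ n)
    · intro i
      cases i with
      | zero => change s ≤ s + rk U t + 1; omega
      | succ n => exact hA.le n
    · obtain ⟨n, hn⟩ := hA.fin
      refine ⟨n + 1, ?_⟩
      intro i hi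
      cases i with
      | zero => omega
      | succ i => exact hn i (by omega)
    · intro x hx y hy hxy
      by_cases hxt : x ≤ t <;> by_cases hyt : y ≤ t
      · rw [e1 x hxt, e1 y hyt, Prod.mk.injEq] at hxy
        exact ht.rk_inj hω h hx hxt hy hyt (by omega)
      · rw [e1 x hxt, e2 y hyt, Prod.mk.injEq] at hxy
        omega
      · rw [e2 x hxt, e1 y hyt, Prod.mk.injEq] at hxy
        omega
      · rw [e2 x hxt, e2 y hyt, Prod.mk.injEq] at hxy
        exact hA.inj ⟨hx, hxt⟩ ⟨hy, hyt⟩ (Prod.ext (by omega) hxy.2)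
    · intro i j
      cases i with
      | zero =>
        change (∃ x ∈ U, e x = (0, j)) ↔ s ≤ j ∧ j < s + rk U t + 1
        constructor
        · rintro ⟨x, hx, hxe⟩
          by_cases hxt : x ≤ t
          · rw [e1 x hxt, Prod.mk.injEq] at hxe
            have := ht.rk_le hx hxt
            omega
          · rw [e2 x hxt, Prod.mk.injEq] at hxe
            omega
        · rintro ⟨h1, h2⟩
          obtain ⟨x, hx, hxt, hr⟩ := ht.rk_surj hω h (j - s) (by omega)
          exact ⟨x, hx, by rw [e1 x hxt, Prod.mk.injEq]; omega⟩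
      | succ i =>
        change (∃ x ∈ U, e x = (i + 1, j)) ↔ a' i ≤ j ∧ j < b' i
        rw [← hA.range i j]
        constructor
        · rintro ⟨x, hx, hxe⟩
          by_cases hxt : x ≤ t
          · rw [e1 x hxt, Prod.mk.injEq] at hxe
            omega
          · rw [e2 x hxt, Prod.mk.injEq] at hxe
            exact ⟨x, ⟨hx, hxt⟩, Prod.ext (by omega) hxe.2⟩
        · rintro ⟨x, ⟨hx, hxt⟩, hxe⟩
          exact ⟨x, hx, by rw [e2 x hxt, hxe]⟩
    · intro x hx y hy
      by_cases hxt : x ≤ t <;> by_cases hyt : y ≤ t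
      · rw [e1 x hxt, e1 y hyt, Prod.mk.injEq, key1 x hx hxt y hy hyt]
        simp only [true_and]
        omega
      · rw [e1 x hxt, e2 y hyt, Prod.mk.injEq]
        constructor
        · intro hxy
          exact (hyt (ht.east_mem hω h hx hxt hxy)).elim
        · intro h1
          omega
      · rw [e2 x hxt, e1 y hyt, Prod.mk.injEq]
        constructor
        · intro hxy
          exact (hxt (hxy.1.le.trans hyt)).elim
        · intro h1
          simp only at h1
          omega
      · rw [e2 x hxt, e2 y hyt, Prod.mk.injEq, hA.east x ⟨hx, hxt⟩ y ⟨hy, hyt⟩, Prod.ext_iff]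
        simp only
        omega
    · intro x hx y hy
      by_cases hxt : x ≤ t <;> by_cases hyt : y ≤ t
      · rw [e1 x hxt, e1 y hyt, Prod.mk.injEq]
        constructor
        · intro hxy
          exact (ht.not_le_of_scov hω h hx hxy hyt).elim
        · intro h1
          simp only at h1
          omega
      · rw [e1 x hxt, e2 y hyt, Prod.mk.injEq]
        constructor
        · intro hxy
          obtain ⟨h1, h2⟩ := hS x hx hxt y hxy
          simp only
          omega
        · intro h1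
          simp only at h1
          have h2 := (hA.range 0 (s + rk U x)).1 ⟨y, ⟨hy, hyt⟩, Prod.ext (by omega) h1.2⟩
          obtain ⟨y', hy'⟩ := hS' x hx hxt (by omega)
          obtain ⟨h3, h4⟩ := hS x hx hxt y' hy'
          have h5 : y = y' := hA.inj ⟨hy, hyt⟩
            ⟨ht.upper hy'.1.le hx, ht.not_le_of_scov hω h hx hy'⟩ (Prod.ext (by omega) (by omega))
          rw [h5]
          exact hy'
      · rw [e2 x hxt, e1 y hyt, Prod.mk.injEq]
        constructor
        · intro hxy
          exact (hxt (hxy.1.le.trans hyt)).elim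
        · intro h1
          simp only at h1
          omega
      · rw [e2 x hxt, e2 y hyt, Prod.mk.injEq, hA.south x ⟨hx, hxt⟩ y ⟨hy, hyt⟩, Prod.ext_iff]
        simp only
        omega
  · rw [e1 t le_rfl]
  · rw [e1 t le_rfl]
    rfl

theorem exists_arr (hω : Function.Injective ω) (h : LocSkew ω) : ∀ (n : ℕ) (U : Set P) (t : P),
    U.ncard = n → Top ω U t → ∃ a b e, Arr ω U a b e ∧ (e t).1 = 0 ∧ (e t).2 + 1 = b 0 := by
  intro n
  induction n using Nat.strong_induction_on with
  | _ n ih =>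
    intro U t hn ht
    have hsub : {x | x ∈ U ∧ ¬ x ≤ t} ⊂ U := by
      rw [Set.ssubset_iff_of_subset (fun x hx => hx.1)]
      exact ⟨t, ht.mem, fun h' => h'.2 le_rfl⟩
    have hcard : ({x | x ∈ U ∧ ¬ x ≤ t} : Set P).ncard < n := by
      rw [← hn]
      exact Set.ncard_lt_ncard hsub (Set.toFinite U)
    have hup : IsUpperSet {x | x ∈ U ∧ ¬ x ≤ t} := by
      intro x y hxy hx
      exact ⟨ht.upper hxy hx.1, fun hyt => hx.2 (hxy.trans hyt)⟩
    by_cases hall : ∃ x ∈ U, x ≤ t ∧ ∃ y, SCov ω x y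
    · -- the last element of the row with a lower neighbour
      obtain ⟨m, ⟨hmU, hmt, t', hmt'⟩, hmax⟩ := Set.exists_max_image
        {x | x ∈ U ∧ x ≤ t ∧ ∃ y, SCov ω x y} (rk U) (Set.toFinite _)
        (by obtain ⟨x, hx, hxt, hy⟩ := hall; exact ⟨x, hx, hxt, hy⟩)
      have ht'U : t' ∈ U := ht.upper hmt'.1.le hmU
      have ht't : ¬ t' ≤ t := ht.not_le_of_scov hω h hmU hmt'
      have hrm := ht.rk_le hmU hmt
      have hTop : Top ω {x | x ∈ U ∧ ¬ x ≤ t} t' := by
        refine ⟨hup, ⟨ht'U, ht't⟩, ?_, ?_⟩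
        · intro y hy
          obtain ⟨c, h1, h2⟩ := h.sw m t' y hmt' hy
          have hct := ht.east_mem hω h hmU hmt h1
          have h3 := hmax c ⟨ht.upper h1.1.le hmU, hct, y, h2⟩
          have h4 := ht.rk_east hω h hmU hct h1
          omega
        · intro z hz hzt
          rw [h.s_lower z m t' hzt hmt'] at hz
          exact hz.2 hmt
      obtain ⟨a', b', e', hA, he1, he2⟩ := ih _ hcard _ t' rfl hTop
      have key : ∀ d, ∀ x ∈ U, x ≤ t → rk U x + d = rk U m →
          ∃ y, SCov ω x y ∧ (e' y).1 = 0 ∧ (e' y).2 + d + 1 = b' 0 := by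
        intro d
        induction d with
        | zero =>
          intro x hx hxt hr
          rw [ht.rk_inj hω h hx hxt hmU hmt (by omega)]
          exact ⟨t', hmt', he1, by omega⟩
        | succ d ihd =>
          intro x hx hxt hr
          have hlt : x < t := by
            refine lt_of_le_of_ne hxt ?_
            rintro rfl
            omega
          obtain ⟨c, hc, hcU, hct⟩ := ht.exists_east hω h hx hlt
          have h1 := ht.rk_east hω h hx hct hc
          obtain ⟨yc, hyc, h2, h3⟩ := ihd c hcU hct (by omega)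
          obtain ⟨y, hy, hyw⟩ := h.ws x c yc hc hyc
          have hyU : y ∈ U ∧ ¬ y ≤ t :=
            ⟨ht.upper hy.1.le hx, ht.not_le_of_scov hω h hx hy⟩
          have hycU : yc ∈ U ∧ ¬ yc ≤ t :=
            ⟨ht.upper hyc.1.le hcU, ht.not_le_of_scov hω h hcU hyc⟩
          have h4 := (hA.east y hyU yc hycU).1 hyw
          rw [h4] at h2 h3
          simp only at h2 h3
          exact ⟨y, hy, h2, by omega⟩
      obtain ⟨x0, hx0, hx0t, hr0⟩ := ht.rk_surj hω h 0 (Nat.zero_le _)
      obtain ⟨y0, hy0, h5, h6⟩ := key (rk U m) x0 hx0 hx0t (by omega)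
      have h7 := (hA.range 0 (e' y0).2).1 ⟨y0, ⟨ht.upper hy0.1.le hx0,
        ht.not_le_of_scov hω h hx0 hy0⟩, Prod.ext h5 rfl⟩
      refine ht.step hω h hA (e' y0).2 (rk U m + 1) h7.1 (by omega) (by omega) ?_ ?_
      · intro x hx hxt y hxy
        have h8 := hmax x ⟨hx, hxt, y, hxy⟩
        obtain ⟨y', hy', h9, h10⟩ := key (rk U m - rk U x) x hx hxt (by omega)
        rw [h.s_upper x y y' hxy hy']
        exact ⟨h9, by omega⟩
      · intro x hx hxt hr
        obtain ⟨y', hy', _⟩ := key (rk U m - rk U x) x hx hxt (by omega)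
        exact ⟨y', hy'⟩
    · push Not at hall
      rcases Set.eq_empty_or_nonempty {x | x ∈ U ∧ ¬ x ≤ t} with hempty | hne
      · have hA : Arr ω {x | x ∈ U ∧ ¬ x ≤ t} (fun _ => 0) (fun _ => 0) (fun _ => (0, 0)) := by
          rw [hempty]
          refine ⟨fun _ _ _ => le_rfl, fun _ _ _ => le_rfl, fun _ => le_rfl, ⟨0, fun _ _ => rfl⟩,
            fun x hx => hx.elim, ?_, fun x hx => hx.elim, fun x hx => hx.elim⟩
          intro i j
          simp
        refine ht.step hω h hA 0 0 le_rfl rfl (Nat.zero_le _) ?_ ?_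
        · intro x hx hxt y hxy
          exact (hall x hx hxt y hxy).elim
        · intro x hx hxt hr
          omega
      · obtain ⟨t', ht', hmax⟩ := Set.exists_max_image {x | x ∈ U ∧ ¬ x ≤ t} ω
          (Set.toFinite _) hne
        have hTop : Top ω {x | x ∈ U ∧ ¬ x ≤ t} t' := by
          refine ⟨hup, ht', ?_, ?_⟩
          · intro y hy
            exact absurd (hmax y (hup hy.1.le ht')) (not_le.2 hy.2)
          · intro z hz hzt
            exact absurd (hmax z hz) (not_le.2 hzt.2)
        obtain ⟨a', b', e', hA, he1, he2⟩ := ih _ hcard _ t' rfl hTop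
        refine ht.step hω h hA (b' 0) 0 (hA.le 0) rfl (Nat.zero_le _) ?_ ?_
        · intro x hx hxt y hxy
          exact (hall x hx hxt y hxy).elim
        · intro x hx hxt hr
          omega

theorem exists_arr_univ (hω : Function.Injective ω) (h : LocSkew ω) :
    ∃ a b e, Arr ω (Set.univ : Set P) a b e := by
  rcases isEmpty_or_nonempty P with hP | hP
  · refine ⟨fun _ => 0, fun _ => 0, fun _ => (0, 0), fun _ _ _ => le_rfl, fun _ _ _ => le_rfl,
      fun _ => le_rfl, ⟨0, fun _ _ => rfl⟩, fun x => (hP.false x).elim, ?_,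
      fun x => (hP.false x).elim, fun x => (hP.false x).elim⟩
    intro i j
    simp
  · obtain ⟨t, -, hmax⟩ := Set.exists_max_image (Set.univ : Set P) ω (Set.toFinite _)
      Set.univ_nonempty
    obtain ⟨a, b, e, hA, _⟩ := exists_arr hω h _ Set.univ t rfl ⟨isUpperSet_univ, trivial,
      fun y hy => absurd (hmax y trivial) (not_le.2 hy.2),
      fun z _ hz => absurd (hmax z trivial) (not_le.2 hz.2)⟩
    exact ⟨a, b, e, hA⟩

/-- The Young diagram with the rows `b`. -/
noncomputable def yd (b : ℕ → ℕ) (hb : Antitone b) (hfin : ∃ n, ∀ i, n ≤ i → b i = 0) : YoungDiagram where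
  cells := ((Finset.range hfin.choose ×ˢ Finset.range (b 0)).filter fun p => p.2 < b p.1)
  isLowerSet := by
    intro p q hqp hp
    simp only [Finset.coe_filter, Finset.mem_product, Finset.mem_range, Set.mem_ofPred_eq] at hp ⊢
    have h1 : q.1 ≤ p.1 := hqp.1
    have h2 : q.2 ≤ p.2 := hqp.2
    have h3 : b p.1 ≤ b q.1 := hb h1
    omega

theorem mem_yd (b : ℕ → ℕ) (hb : Antitone b) (hfin : ∃ n, ∀ i, n ≤ i → b i = 0) (i j : ℕ) :
    (i, j) ∈ (yd b hb hfin).cells ↔ j < b i := by
  simp only [yd, Finset.mem_filter, Finset.mem_product, Finset.mem_range]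
  constructor
  · exact fun h => h.2
  · intro h
    refine ⟨⟨?_, h.trans_le (hb (Nat.zero_le i))⟩, h⟩
    by_contra hn
    rw [hfin.choose_spec i (not_lt.1 hn)] at h
    omega

end

theorem main : EMB_Stmt := by
  intro P _ _ ω hω h
  obtain ⟨a, b, e, hA⟩ := exists_arr_univ hω h
  have hfa : ∃ n, ∀ i, n ≤ i → a i = 0 := by
    obtain ⟨n, hn⟩ := hA.fin
    exact ⟨n, fun i hi => Nat.le_zero.1 ((hA.le i).trans (hn i hi).le)⟩
  have hcell : ∀ x : P, e x ∈ (yd b hA.anti_b hA.fin).cells \ (yd a hA.anti_a hfa).cells := by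
    intro x
    have h1 := (hA.range (e x).1 (e x).2).1 ⟨x, trivial, rfl⟩
    rw [Finset.mem_sdiff]
    refine ⟨(mem_yd _ _ _ (e x).1 (e x).2).2 h1.2, ?_⟩
    intro h2
    have := (mem_yd _ _ _ (e x).1 (e x).2).1 h2
    omega
  let E : P ≃ ↥((yd b hA.anti_b hA.fin).cells \ (yd a hA.anti_a hfa).cells) :=
    Equiv.ofBijective (fun x => ⟨e x, hcell x⟩) (by
      constructor
      · intro x y hxy
        exact hA.inj trivial trivial (congrArg Subtype.val hxy)
      · rintro ⟨⟨i, j⟩, hij⟩
        have hij' := Finset.mem_sdiff.1 hij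
        have h1 := (mem_yd _ _ _ i j).1 hij'.1
        have h2 : a i ≤ j := by
          by_contra hn
          exact hij'.2 ((mem_yd _ _ _ i j).2 (not_le.1 hn))
        obtain ⟨x, _, hx⟩ := (hA.range i j).2 ⟨h2, h1⟩
        exact ⟨x, Subtype.ext hx⟩)
  have hE : ∀ x, (E x).1 = e x := fun x => rfl
  refine ⟨yd b hA.anti_b hA.fin, yd a hA.anti_a hfa, E, ?_, ?_⟩
  · intro p hp
    have h1 := (mem_yd _ _ _ p.1 p.2).1 hp
    exact (mem_yd _ _ _ p.1 p.2).2 (h1.trans_le (hA.le p.1))
  intro f
  rw [isPP_iff hω]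
  constructor
  · rintro ⟨h1, h2⟩
    constructor
    · intro s t hr hc
      rw [hE, hE] at hr hc
      obtain ⟨d, hd⟩ : ∃ d, (e t).2 = (e s).2 + d := ⟨(e t).2 - (e s).2, by omega⟩
      clear hc
      induction d generalizing t with
      | zero =>
        rw [hA.inj trivial trivial (Prod.ext hr (by omega) : e s = e t)]
      | succ d ih =>
        have hs := (hA.range (e s).1 (e s).2).1 ⟨s, trivial, rfl⟩
        have ht := (hA.range (e t).1 (e t).2).1 ⟨t, trivial, rfl⟩
        rw [← hr] at ht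
        obtain ⟨x, _, hx⟩ := (hA.range (e s).1 ((e s).2 + d)).2 ⟨by omega, by omega⟩
        have h3 := ih x (by rw [hx]) (by rw [hx])
        have h4 : WCov ω x t := (hA.east x trivial t trivial).2
          (Prod.ext (by rw [hx]; exact hr.symm) (by rw [hx]; exact hd))
        exact h3.trans (h1 x t h4)
    · intro s t hc hr
      rw [hE, hE] at hr hc
      obtain ⟨d, hd⟩ : ∃ d, (e t).1 = (e s).1 + (d + 1) := ⟨(e t).1 - (e s).1 - 1, by omega⟩
      clear hr
      induction d generalizing t with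
      | zero =>
        exact h2 s t ((hA.south s trivial t trivial).2 (Prod.ext hd hc.symm))
      | succ d ih =>
        have hs := (hA.range (e s).1 (e s).2).1 ⟨s, trivial, rfl⟩
        have ht := (hA.range (e t).1 (e t).2).1 ⟨t, trivial, rfl⟩
        rw [← hc] at ht
        have hb1 : b (e t).1 ≤ b ((e s).1 + (d + 1)) := hA.anti_b (by omega)
        have ha1 : a ((e s).1 + (d + 1)) ≤ a (e s).1 := hA.anti_a (by omega)
        obtain ⟨x, _, hx⟩ := (hA.range ((e s).1 + (d + 1)) (e s).2).2 ⟨by omega, by omega⟩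
        have h3 := ih x (by rw [hx]) (by rw [hx])
        have h4 : SCov ω x t := (hA.south x trivial t trivial).2
          (Prod.ext (by rw [hx]; exact hd) (by rw [hx]; exact hc.symm))
        exact h3.trans (h2 x t h4)
  · rintro ⟨h1, h2⟩
    constructor
    · intro x y hxy
      have h3 := (hA.east x trivial y trivial).1 hxy
      exact h1 x y (by rw [hE, hE, h3]) (by rw [hE, hE, h3]; exact Nat.lt_succ_self _)
    · intro x y hxy
      have h3 := (hA.south x trivial y trivial).1 hxy
      exact h2 x y (by rw [hE, hE, h3]) (by rw [hE, hE, h3]; exact Nat.lt_succ_self _)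

end Emb

end Pool.Agent.ST14
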