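import Mathlib

/-!
Stanley's conjecture on the symmetric generating functions of labelled posets: basic definitions.
-/

set_option autoImplicit false

namespace Pool.Agent.ST14

variable {P : Type} [PartialOrder P]

/-- `f` is a `(P, ω)`-partition. -/
def IsPP (ω : P → ℕ) (f : P → ℕ) : Prop :=
  (∀ s t : P, s < t → f s ≤ f t) ∧ ∀ s t : P, s < t → ω t < ω s → f s < f t

/-- Weak cover. -/
def WCov (ω : P → ℕ) (x y : P) : Prop := x ⋖ y ∧ ω x < ω y

/-- Strict cover. -/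
def SCov (ω : P → ℕ) (x y : P) : Prop := x ⋖ y ∧ ω y < ω x

/-- Locally, `(P, ω)` looks like a skew shape. -/
structure LocSkew (ω : P → ℕ) : Prop where
  w_lower : ∀ x x' y : P, WCov ω x y → WCov ω x' y → x = x'
  w_upper : ∀ x y y' : P, WCov ω x y → WCov ω x y' → y = y'
  s_lower : ∀ x x' y : P, SCov ω x y → SCov ω x' y → x = x'
  s_upper : ∀ x y y' : P, SCov ω x y → SCov ω x y' → y = y'
  ws : ∀ x b y : P, WCov ω x b → SCov ω b y → ∃ c, SCov ω x c ∧ WCov ω c y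
  sw : ∀ x b y : P, SCov ω x b → WCov ω b y → ∃ c, WCov ω x c ∧ SCov ω c y

/-- `f` is a semistandard filling of the skew shape `lam / mu`, in terms of `e`. -/
def IsSST {lam mu : YoungDiagram} (e : P ≃ ↥(lam.cells \ mu.cells)) (f : P → ℕ) : Prop :=
  (∀ s t : P, (e s).1.1 = (e t).1.1 → (e s).1.2 < (e t).1.2 → f s ≤ f t) ∧
    ∀ s t : P, (e s).1.2 = (e t).1.2 → (e s).1.1 < (e t).1.1 → f s < f t

/-- Module EMB. -/
def EMB_Stmt : Prop := ∀ (P : Type) [Fintype P] [PartialOrder P] (ω : P → ℕ),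
  Function.Injective ω → LocSkew ω → ∃ (lam mu : YoungDiagram) (e : P ≃ ↥(lam.cells \ mu.cells)),
    mu ≤ lam ∧ ∀ f : P → ℕ, IsPP ω f ↔ IsSST e f

/-- Module IF. -/
def IF_Stmt : Prop := ∀ (P : Type) [Fintype P] (lam mu : YoungDiagram)
  (e : P ≃ ↥(lam.cells \ mu.cells)), mu ≤ lam → ∀ (α : ℕ → ℕ) (σ : Equiv.Perm ℕ),
    Nat.card {f : P → ℕ // IsSST e f ∧ ∀ i : ℕ, Nat.card {x : P // f x = i} = α i} =
    Nat.card {f : P → ℕ // IsSST e f ∧ ∀ i : ℕ, Nat.card {x : P // f x = i} = α (σ i)}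

end Pool.Agent.ST14
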