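import Pool.Agent.ST14.FinStmts

/-!
Module FIN_51: no extras in a union of regions without `b, y_b, b', y'`.
-/

set_option autoImplicit false

namespace Pool.Agent.ST14

open scoped Classical

namespace F51

variable {P : Type} [Fintype P] [PartialOrder P]

theorem not_min {ω : P → ℕ} {u : P} (hu : u ∈ AA ω) : ¬ IsMin u := by
  obtain ⟨x, y, z, h1, h2, h3, _⟩ := (Finset.mem_filter.1 hu).2
  intro hm
  exact (lt_of_le_of_lt h1 (lt_of_lt_of_le h2 h3)).not_ge (hm (h1.trans (h2.le.trans h3)))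

theorem conn_symm {Q : Finset P} {x y : P} (h : Conn Q x y) : Conn Q y x := by
  induction h with
  | refl => exact Relation.ReflTransGen.refl
  | tail _ h2 ih => exact Relation.ReflTransGen.head ⟨h2.2.1, h2.1, h2.2.2.symm⟩ ih

theorem conn_closed {Q G : Finset P} (h : ∀ a ∈ Q, ∀ b ∈ Q, a ⋖ b → (a ∈ G ↔ b ∈ G)) {x y : P}
    (hxy : Conn Q x y) (hx : x ∈ G) : y ∈ G := by
  induction hxy with
  | refl => exact hx
  | tail _ h2 ih =>
    rcases h2.2.2 with h3 | h3
    · exact (h _ h2.1 _ h2.2.1 h3).1 ih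
    · exact (h _ h2.2.1 _ h2.1 h3).2 ih

end F51

open F51 in
theorem fin51 (hN : FinNet) (hL : FinLink) (hF : FreeStmt) (h7 : St7) :
    Fin51 := by
  intro P _ _ ω hω G hG hM hS i M hX
  obtain ⟨N, S, hNS⟩ := h7 P ω hω
  have hωt : Mini (tr ω) := k5c P ω hω
  obtain ⟨n1, n2, n3, n4, n5, n6, n7, n8, n9⟩ := hN P ω hω
  obtain ⟨t1, t2, t3, t4, t5, t6, t7, t8, t9⟩ := hN P (tr ω) hωt
  have hRW : ∀ x u : P, RS (tr ω) x u ↔ RW ω x u := by
    intro x u
    simp only [RS, RW, sCov_tr]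
  -- a cover inside `A` does not leave `G`
  have hcov : ∀ a ∈ AA ω, ∀ b ∈ AA ω, a ⋖ b → (a ∈ G ↔ b ∈ G) := by
    intro a ha b hb hab
    have hamin := not_min ha
    rcases lt_trichotomy (ω a) (ω b) with h1 | h1 | h1
    · have hw : WCov ω a b := ⟨hab, h1⟩
      have hr : RW ω a b := (hRW a b).1 (t7 a b ((sCov_tr ω a b).2 hw) (fun h => hamin h.1))
      by_cases hs : ∃ x, Splitter ω x a b
      · obtain ⟨x, hx⟩ := hs
        exact iff_of_false (hS x a b hx).1 (hS x a b hx).2
      · refine hG a b (Or.inr ⟨hr, fun y hy => hamin (hL P ω hω a b y hy).1.1, ?_⟩)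
        exact fun x hx => hs ⟨x, hx⟩
    · exact absurd (hω.inj h1) hab.1.ne
    · have hs : SCov ω a b := ⟨hab, h1⟩
      have hr : RS ω a b := n7 a b hs (fun h => hamin h.1)
      by_cases hm : ∃ x, Merger ω x a b
      · obtain ⟨x, hx⟩ := hm
        exact iff_of_false (hM x a b hx).1 (hM x a b hx).2
      · refine (hG b a (Or.inl ⟨hr, ?_, fun x hx => hm ⟨x, hx⟩⟩)).symm
        intro y hy
        have h3 : Merger (tr ω) a b y := by
          obtain ⟨s1, s2, s3⟩ := hy
          refine ⟨(wCov_tr ω a b).2 s1, (sCov_tr ω b y).2 s2, ?_⟩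
          rintro ⟨c, c1, c2⟩
          exact s3 ⟨c, (sCov_tr ω a c).1 c1, (wCov_tr ω c y).1 c2⟩
        exact hamin (hL P (tr ω) hωt a b y h3).1.1
  -- components starting in `G` stay in `G`
  have hcomp : ∀ q, q ∈ G → ∀ y ∈ comp (AA ω) q, y ∈ G := by
    intro q hq y hy
    exact conn_closed hcov (Finset.mem_filter.1 hy).2 hq
  -- `S x_b ∈ G` implies `x_b ∈ G`
  have hcb : ∀ x b y, Merger ω x b y → ∀ c, RS ω x c → c ∈ G → x ∈ G := by
    intro x b y hm c hc hcG
    have hl := hL P ω hω x b y hm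
    refine (hG c x (Or.inl ⟨hc, ?_, ?_⟩)).1 hcG
    · intro y' hy'
      exact (hS x c y' hy').1 hcG
    · intro x' hx'
      exact (hL P ω hω x' x c hx').1.2.2.1 hl.1.1
  have hSG : ∀ x, x ∈ CC ω → RS ω x (S x) := fun x hx => ((n9 N S hNS x (S x)).2).2 ⟨hx, rfl⟩
  have hfree : ∀ q ∈ AA ω, q ∈ G → (∀ x b y, Merger ω x b y → x ∈ CC ω → S x ∉ comp (AA ω) q) →
      M ∉ comp (AA ω) q ∧ S i ∉ comp (AA ω) q := by
    intro q hqA hqG hno
    have hB : comp (AA ω) q ∈ comps (AA ω) := Finset.mem_image_of_mem _ hqA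
    refine hF P ω hω N S hNS (comp (AA ω) q) hB ?_ ?_ i M hX.1 ?_
    · intro x b' y' hs hb
      exact (hS x b' y' hs).1 (hcomp q hqG b' hb)
    · intro x b y hm
      exact ⟨fun hy => (hM x b y hm).2 (hcomp q hqG y hy), hno x b y hm⟩
    · intro hi
      have h8 := n8 i M hX
      have hMA : M ∈ AA ω := by
        obtain ⟨z, _, hz⟩ := h8.2.2.1
        exact (n1 z M hz).2.2
      exact h8.1 (((n9 N S hNS i M).1).2 ⟨hMA, hi⟩)
  have h8 := n8 i M hX
  obtain ⟨z, hzA, hz⟩ := h8.2.2.1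
  have hMA : M ∈ AA ω := (n1 z M hz).2.2
  constructor
  · intro hMG
    have hself : M ∈ comp (AA ω) M := Finset.mem_filter.2 ⟨hMA, Relation.ReflTransGen.refl⟩
    refine (hfree M hMA hMG ?_).1 hself
    intro x b y hm hxC hcB
    have hc := hSG x hxC
    set c := S x with hcdef
    have hcG : c ∈ G := hcomp M hMG c hcB
    have hl := hL P ω hω x b y hm
    have hxG := hcb x b y hm c hc hcG
    have hxmin : IsMin x := hl.1.1
    obtain ⟨c', hc', _, hc'2⟩ := hl.2.2.2.1
    have hcc : c' = c := n5 x c' c hc' hc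
    subst hcc
    have hcmax : IsMax c := by
      rcases hc'2 with ⟨y', hy'⟩ | h
      · exact absurd hcG (hS x c y' hy').1
      · exact h
    have hcA : c ∈ AA ω := (n1 x c hc).2.2
    -- `c` is isolated in `A`
    have hiso : ∀ a ∈ AA ω, ¬ a ⋖ c := by
      intro a ha hac
      have hamin := not_min ha
      rcases lt_trichotomy (ω a) (ω c) with h1 | h1 | h1
      · have hw : WCov ω a c := ⟨hac, h1⟩
        obtain ⟨n, hn⟩ := n2 a ha
        by_cases hcor : ∃ g, WCov ω n g ∧ SCov ω g c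
        · obtain ⟨g, hg1, hg2⟩ := hcor
          have hgmin : ¬ IsMin g := fun h => (hg1.1.1).not_ge (h hg1.1.1.le)
          have hgr : RS ω g c := n7 g c hg2 (fun h => hgmin h.1)
          have hgx : g = x := n4 g x c hgr hc
          exact hgmin (hgx ▸ hxmin)
        · exact (hS n a c ⟨(n1 n a hn).1, hw, hcor⟩).2 hcG
      · exact absurd (hω.inj h1) hac.1.ne
      · have hr : RS ω a c := n7 a c ⟨hac, h1⟩ (fun h => hamin h.1)
        exact hamin ((n4 a x c hr hc) ▸ hxmin)
    have hMc : M = c := by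
      have hcM : Conn (AA ω) c M := conn_symm (Finset.mem_filter.1 hcB).2
      have : ∀ y, Conn (AA ω) c y → y = c := by
        intro y hy
        induction hy with
        | refl => rfl
        | tail _ h2 ih =>
          exfalso
          rw [ih] at h2
          rcases h2.2.2 with h3 | h3
          · exact (h3.1).not_ge (hcmax h3.1.le)
          · exact hiso _ h2.2.1 h3
      exact this M hcM
    have hzx : z = x := n4 z x c (hMc ▸ hz) hc
    exact not_min hzA (hzx ▸ hxmin)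
  · intro hx q hq hqG
    obtain ⟨hiC, hqS⟩ := (n9 N S hNS i q).2.1 hq
    have hqA : q ∈ AA ω := (n1 i q hq).2.2
    have hself : q ∈ comp (AA ω) q := Finset.mem_filter.2 ⟨hqA, Relation.ReflTransGen.refl⟩
    refine (hfree q hqA hqG ?_).2 (hqS ▸ hself)
    intro x b y hm hxC hcB
    exact hx x b y hm (hcb x b y hm (S x) (hSG x hxC) (hcomp q hqG _ hcB))

end Pool.Agent.ST14
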