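import Pool.Agent.Lib_helper92.SPE.K5

/-!
Covers of the reversed poset (the modules K5b, K5d are in `Pool.Agent.Lib_helper92.SPE.K5`).
-/

set_option autoImplicit false

namespace Pool.Agent.ST14

variable {P : Type} [Fintype P] [PartialOrder P]

theorem wCov_rv (ω : P → ℕ) (x y : Pᵒᵈ) :
    WCov (rv ω) x y ↔ WCov ω (OrderDual.ofDual y) (OrderDual.ofDual x) := k5_wcov ω x y

theorem sCov_rv (ω : P → ℕ) (x y : Pᵒᵈ) :
    SCov (rv ω) x y ↔ SCov ω (OrderDual.ofDual y) (OrderDual.ofDual x) := k5_scov ω x y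

end Pool.Agent.ST14
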