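import Pool.Agent.ST14.KapStmts

/-!
K6: top coefficients.
-/

set_option autoImplicit false

namespace Pool.Agent.ST14

open scoped Classical

section

variable {P : Type} [PartialOrder P]

theorem K6_mem_idl {Q I : Finset P} :
    I ∈ idl Q ↔ I ⊆ Q ∧ ∀ x ∈ Q, ∀ y ∈ I, x ≤ y → x ∈ I := by
  unfold idl
  rw [Finset.mem_filter, Finset.mem_powerset]

theorem K6_cons (ω : P → ℕ) (Q : Finset P) (a : ℕ) (w : List ℕ) :
    kap ω Q (a :: w) =
      ∑ I ∈ (idl Q).filter (fun I => I.card = a ∧ WeakOnly ω I), kap ω (Q \ I) w := rfl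

theorem K6_nil (ω : P → ℕ) (Q : Finset P) : kap ω Q [] = if Q = ∅ then 1 else 0 := rfl

/-- words of length one -/
theorem K6_single (ω : P → ℕ) (Q : Finset P) (a : ℕ) :
    kap ω Q [a] = if Q.card = a ∧ WeakOnly ω Q then 1 else 0 := by
  rw [K6_cons]
  have h1 : ∀ I ∈ (idl Q).filter (fun I => I.card = a ∧ WeakOnly ω I), I ≠ Q →
      kap ω (Q \ I) [] = 0 := by
    intro I hI hne
    rw [K6_nil, if_neg]
    intro h
    rw [Finset.mem_filter, K6_mem_idl] at hI
    exact hne (Finset.Subset.antisymm hI.1.1 (Finset.sdiff_eq_empty_iff_subset.1 h))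
  by_cases h : Q.card = a ∧ WeakOnly ω Q
  · rw [if_pos h, Finset.sum_eq_single Q h1]
    · rw [Finset.sdiff_self, K6_nil, if_pos rfl]
    · intro h2
      exfalso
      apply h2
      rw [Finset.mem_filter, K6_mem_idl]
      exact ⟨⟨Finset.Subset.refl _, fun x hx _ _ _ => hx⟩, h⟩
  · rw [if_neg h]
    refine Finset.sum_eq_zero fun I hI => h1 I hI ?_
    rintro rfl
    rw [Finset.mem_filter] at hI
    exact h hI.2

/-- linear extensions exist -/
theorem K6_lin (ω : P → ℕ) : ∀ (n : ℕ) (Q : Finset P), Q.card = n →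
    0 < kap ω Q (List.replicate n 1) := by
  intro n
  induction n with
  | zero =>
    intro Q hQ
    rw [Finset.card_eq_zero] at hQ
    rw [List.replicate_zero, K6_nil, if_pos hQ]
    exact one_pos
  | succ n ih =>
    intro Q hQ
    have hne : Q.Nonempty := by
      rw [← Finset.card_pos]
      omega
    obtain ⟨m, hm, hmin⟩ := Q.exists_minimal hne
    rw [List.replicate_succ, K6_cons]
    have hmem : {m} ∈ (idl Q).filter (fun I => I.card = 1 ∧ WeakOnly ω I) := by
      rw [Finset.mem_filter, K6_mem_idl]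
      refine ⟨⟨Finset.singleton_subset_iff.2 hm, ?_⟩, Finset.card_singleton m, ?_⟩
      · intro x hx y hy hxy
        rw [Finset.mem_singleton] at hy ⊢
        subst hy
        exact le_antisymm hxy (hmin hx hxy)
      · intro x hx y hy hxy
        rw [Finset.mem_singleton] at hx hy
        subst hx
        subst hy
        exact absurd hxy (lt_irrefl _)
    refine lt_of_lt_of_le (ih (Q \ {m}) ?_)
      (Finset.single_le_sum (f := fun I => kap ω (Q \ I) (List.replicate n 1))
        (fun _ _ => Nat.zero_le _) hmem)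
    rw [Finset.card_sdiff_of_subset (Finset.singleton_subset_iff.2 hm), Finset.card_singleton, hQ]
    rfl

end

section

variable {P : Type} [Fintype P] [PartialOrder P]

theorem K6_mem_W1 {ω : P → ℕ} {u : P} : u ∈ W1 ω ↔ ∀ x, ¬ LL ω x u := by
  unfold W1
  simp

theorem K6_mem_W2 {ω : P → ℕ} {x : P} : x ∈ W2 ω ↔ ∀ u, ¬ LL ω x u := by
  unfold W2
  simp

theorem K6_sdiff_W1 (ω : P → ℕ) : Finset.univ \ W1 ω = AA ω := by
  ext u
  unfold AA
  rw [Finset.mem_sdiff, K6_mem_W1, Finset.mem_filter]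
  simp

theorem K6_sdiff_CC (ω : P → ℕ) : Finset.univ \ CC ω = W2 ω := by
  ext u
  unfold CC
  rw [Finset.mem_sdiff, K6_mem_W2, Finset.mem_filter]
  simp

theorem K6_W1_idl (ω : P → ℕ) : W1 ω ∈ idl (Finset.univ : Finset P) := by
  rw [K6_mem_idl]
  refine ⟨Finset.subset_univ _, fun x _ y hy hxy => ?_⟩
  rw [K6_mem_W1] at hy ⊢
  rintro z ⟨a, c, h1, h2, h3, h4⟩
  exact hy z ⟨a, c, h1, h2, h3.trans hxy, h4⟩

theorem K6_W1_weak {ω : P → ℕ} (hω : Function.Injective ω) : WeakOnly ω (W1 ω) := by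
  intro x _ y hy hxy
  rw [K6_mem_W1] at hy
  have h1 : ¬ ω y < ω x := fun h => hy x ⟨x, y, le_rfl, hxy, le_rfl, h⟩
  exact lt_of_le_of_ne (not_lt.1 h1) fun h => hxy.ne (hω h)

theorem K6_W2_weak {ω : P → ℕ} (hω : Function.Injective ω) : WeakOnly ω (W2 ω) := by
  intro x hx y _ hxy
  rw [K6_mem_W2] at hx
  have h1 : ¬ ω y < ω x := fun h => hx y ⟨x, y, le_rfl, hxy, le_rfl, h⟩
  exact lt_of_le_of_ne (not_lt.1 h1) fun h => hxy.ne (hω h)

theorem K6_CC_idl (ω : P → ℕ) : CC ω ∈ idl (Finset.univ : Finset P) := by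
  rw [K6_mem_idl]
  refine ⟨Finset.subset_univ _, fun x _ y hy hxy => ?_⟩
  unfold CC at hy ⊢
  rw [Finset.mem_filter] at hy ⊢
  obtain ⟨-, u, a, c, h1, h2, h3, h4⟩ := hy
  exact ⟨Finset.mem_univ _, u, a, c, hxy.trans h1, h2, h3, h4⟩

/-- weak-only ideals are inside `W1` -/
theorem K6_sub_W1 {ω : P → ℕ} {I : Finset P} (hI : I ∈ idl (Finset.univ : Finset P))
    (hw : WeakOnly ω I) : I ⊆ W1 ω := by
  rw [K6_mem_idl] at hI
  intro u hu
  rw [K6_mem_W1]
  rintro x ⟨y, z, h1, h2, h3, h4⟩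
  have hz : z ∈ I := hI.2 z (Finset.mem_univ _) u hu h3
  have hy : y ∈ I := hI.2 y (Finset.mem_univ _) z hz h2.le
  exact absurd (hw y hy z hz h2) (not_lt.2 h4.le)

/-- weak-only filters are inside `W2` -/
theorem K6_sub_W2 {ω : P → ℕ} {I : Finset P} (hI : I ∈ idl (Finset.univ : Finset P))
    (hw : WeakOnly ω (Finset.univ \ I)) : Finset.univ \ I ⊆ W2 ω := by
  rw [K6_mem_idl] at hI
  intro x hx
  rw [K6_mem_W2]
  rintro u ⟨y, z, h1, h2, h3, h4⟩
  rw [Finset.mem_sdiff] at hx
  have hy : y ∉ I := fun h => hx.2 (hI.2 x (Finset.mem_univ _) y h h1)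
  have hz : z ∉ I := fun h => hy (hI.2 y (Finset.mem_univ _) z h h2.le)
  exact absurd (hw y (Finset.mem_sdiff.2 ⟨Finset.mem_univ _, hy⟩) z
    (Finset.mem_sdiff.2 ⟨Finset.mem_univ _, hz⟩) h2) (not_lt.2 h4.le)

/-- the coefficient of the largest first block -/
theorem K6_first {ω : P → ℕ} (hω : Function.Injective ω) (w : List ℕ) :
    kap ω Finset.univ ((W1 ω).card :: w) = kap ω (AA ω) w := by
  rw [K6_cons, Finset.sum_eq_single (W1 ω), K6_sdiff_W1]
  · intro I hI hne
    exfalso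
    rw [Finset.mem_filter] at hI
    exact hne (Finset.eq_of_subset_of_card_le (K6_sub_W1 hI.1 hI.2.2) hI.2.1.ge)
  · intro h
    exfalso
    apply h
    rw [Finset.mem_filter]
    exact ⟨K6_W1_idl ω, rfl, K6_W1_weak hω⟩

/-- the coefficient of the largest last block -/
theorem K6_last (h1 : K1_Stmt) {ω : P → ℕ} (hω : Function.Injective ω) (w : List ℕ) :
    kap ω Finset.univ (w ++ [(W2 ω).card]) = kap ω (CC ω) w := by
  rw [h1, Finset.sum_eq_single (CC ω), K6_single, K6_sdiff_CC, if_pos ⟨rfl, K6_W2_weak hω⟩,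
    mul_one]
  · intro I hI hne
    rw [K6_single]
    by_cases h : (Finset.univ \ I).card = (W2 ω).card ∧ WeakOnly ω (Finset.univ \ I)
    · exfalso
      have h2 := Finset.eq_of_subset_of_card_le (K6_sub_W2 hI h.2) h.1.ge
      apply hne
      rw [← K6_sdiff_CC] at h2
      ext x
      have h3 := Finset.ext_iff.1 h2 x
      rw [Finset.mem_sdiff, Finset.mem_sdiff] at h3
      have h4 := Finset.mem_univ x
      tauto
    · rw [if_neg h, mul_zero]
  · intro h
    exact absurd (K6_CC_idl ω) h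

/-- K6, with the deconcatenation formula as a hypothesis -/
theorem K6 (h1 : K1_Stmt) : ∀ (P : Type) [Fintype P] [PartialOrder P] (ω : P → ℕ),
    Function.Injective ω → SymW ω Finset.univ →
      SymW ω (AA ω) ∧ SymW ω (CC ω) ∧ (W1 ω).card = (W2 ω).card := by
  intro P _ _ ω hω hS
  refine ⟨?_, ?_, le_antisymm ?_ ?_⟩
  · intro w w' hw
    rw [← K6_first hω, ← K6_first hω]
    exact hS _ _ (hw.cons _)
  · intro w w' hw
    rw [← K6_last h1 hω, ← K6_last h1 hω]
    exact hS _ _ (hw.append_right _)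
  · -- the word `l, 1, ..., 1`
    have h2 : 0 < kap ω Finset.univ ((W1 ω).card :: List.replicate (AA ω).card 1) := by
      rw [K6_first hω]
      exact K6_lin ω _ _ rfl
    have h3 : ((W1 ω).card :: List.replicate (AA ω).card 1).Perm
        (List.replicate (AA ω).card 1 ++ [(W1 ω).card]) :=
      (List.perm_append_singleton _ _).symm
    rw [hS _ _ h3, h1] at h2
    obtain ⟨I, hI, h4⟩ := Finset.exists_ne_zero_of_sum_ne_zero h2.ne'
    rw [K6_single] at h4
    by_cases h : (Finset.univ \ I).card = (W1 ω).card ∧ WeakOnly ω (Finset.univ \ I)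
    · rw [← h.1]
      exact Finset.card_le_card (K6_sub_W2 hI h.2)
    · rw [if_neg h, mul_zero] at h4
      exact absurd rfl h4
  · have h2 : 0 < kap ω Finset.univ (List.replicate (CC ω).card 1 ++ [(W2 ω).card]) := by
      rw [K6_last h1 hω]
      exact K6_lin ω _ _ rfl
    have h3 : ((W2 ω).card :: List.replicate (CC ω).card 1).Perm
        (List.replicate (CC ω).card 1 ++ [(W2 ω).card]) :=
      (List.perm_append_singleton _ _).symm
    rw [← hS _ _ h3, K6_cons] at h2
    obtain ⟨I, hI, -⟩ := Finset.exists_ne_zero_of_sum_ne_zero h2.ne'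
    rw [Finset.mem_filter] at hI
    rw [← hI.2.1]
    exact Finset.card_le_card (K6_sub_W1 hI.1 hI.2.2)

end

end Pool.Agent.ST14
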