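import Pool.Agent.ST14.KapStmts

/-!
Module statements: items (1) - (8) of the structure theorem (team store 49bc13_structure.md).
-/

set_option autoImplicit false

namespace Pool.Agent.ST14

open scoped Classical

/-- (1) and its dual. -/
def St1 : Prop := ∀ (P : Type) [Fintype P] [PartialOrder P] (ω : P → ℕ), Mini ω →
  (∀ u : P, ¬ IsMax u → LocSkewOn ω (Finset.univ.filter fun z => z ≤ u) ∧
    (∀ x, SCov ω x u → ∀ z, LL ω z u ↔ z ≤ x) ∧ ((∀ x, ¬ SCov ω x u) → ∀ z, ¬ LL ω z u)) ∧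
  (∀ x : P, ¬ IsMin x → LocSkewOn ω (Finset.univ.filter fun z => x ≤ z) ∧
    (∀ u, SCov ω x u → ∀ z, LL ω x z ↔ u ≤ z) ∧ ((∀ u, ¬ SCov ω x u) → ∀ z, ¬ LL ω x z))

/-- (2) squares. -/
def St2 : Prop := ∀ (P : Type) [Fintype P] [PartialOrder P] (ω : P → ℕ), Mini ω →
  ∀ x b y : P, ¬ (IsMin x ∧ IsMax y) →
    (WCov ω x b → SCov ω b y → ∃ c, SCov ω x c ∧ WCov ω c y) ∧
    (SCov ω x b → WCov ω b y → ∃ c, WCov ω x c ∧ SCov ω c y)

/-- (3) Hall. -/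
def St3 : Prop := ∀ (P : Type) [Fintype P] [PartialOrder P] (ω : P → ℕ), Mini ω →
  ∀ J ∈ idl (Finset.univ : Finset P), ((AA ω).filter fun u => TT ω u ⊆ J).card ≤ J.card

/-- (4) tight. -/
def St4 : Prop := ∀ (P : Type) [Fintype P] [PartialOrder P] (ω : P → ℕ), Mini ω →
  ∀ U ∈ idl (AA ω), WeakOnly ω U → (TS ω U).card = U.card

/-- (5). -/
def St5 : Prop := ∀ (P : Type) [Fintype P] [PartialOrder P] (ω : P → ℕ), Mini ω →
  (∀ i u u' : P, IsMin i → ¬ IsMax u → ¬ IsMax u' → SCov ω i u → SCov ω i u' → u = u') ∧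
  (∀ i u u' : P, IsMin i → ¬ IsMax u → ¬ IsMax u' → WCov ω i u → WCov ω i u' → u = u') ∧
  (∀ M x x' : P, IsMax M → ¬ IsMin x → ¬ IsMin x' → SCov ω x M → SCov ω x' M → x = x') ∧
  (∀ M x x' : P, IsMax M → ¬ IsMin x → ¬ IsMin x' → WCov ω x M → WCov ω x' M → x = x')

/-- (6) and its dual; the transposed statements are the same for `tr ω`. -/
def St6 : Prop := ∀ (P : Type) [Fintype P] [PartialOrder P] (ω : P → ℕ), Mini ω →
  (∀ u ∈ AA ω, ∃ x, SCov ω x u) ∧ (∀ x ∈ CC ω, ∃ u, SCov ω x u)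

/-- The matching `N : A → C`, `S : C → A` of (7) and the description of the extra strict covers.
For the weak covers `W : B → D`, `E : D → B` this is used for `tr ω`. -/
structure Net {P : Type} [Fintype P] [PartialOrder P] (ω : P → ℕ) (N S : P → P) : Prop where
  N_cov : ∀ u ∈ AA ω, SCov ω (N u) u
  S_cov : ∀ x ∈ CC ω, SCov ω x (S x)
  SN : ∀ u ∈ AA ω, S (N u) = u
  NS : ∀ x ∈ CC ω, N (S x) = x
  extra : ∀ x u, SCov ω x u → x = N u ∨ (IsMin x ∧ IsMax u ∧ N u ∈ AA ω ∧ S x ∈ CC ω)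

/-- (7) matching. -/
def St7 : Prop := ∀ (P : Type) [Fintype P] [PartialOrder P] (ω : P → ℕ), Mini ω →
  ∃ N S : P → P, Net ω N S

/-- (8) mergers and splitters. `b` has strict lower and weak upper covers (merger), resp. weak lower
and strict upper covers (splitter). -/
def St8 : Prop := ∀ (P : Type) [Fintype P] [PartialOrder P] (ω : P → ℕ), Mini ω →
  (∀ x b y : P, WCov ω x b → SCov ω b y → (¬ ∃ c, SCov ω x c ∧ WCov ω c y) →
    IsMin x ∧ IsMax y ∧ (∃ z, SCov ω z b ∧ ∀ t, ¬ WCov ω t z) ∧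
      (∃ z, WCov ω b z ∧ ∀ t, ¬ SCov ω z t)) ∧
  (∀ x b y : P, SCov ω x b → WCov ω b y → (¬ ∃ c, WCov ω x c ∧ SCov ω c y) →
    IsMin x ∧ IsMax y ∧ (∃ z, WCov ω z b ∧ ∀ t, ¬ SCov ω t z) ∧
      (∃ z, SCov ω b z ∧ ∀ t, ¬ WCov ω z t))

end Pool.Agent.ST14
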