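import Pool.Agent.ST14.Kap3
import Pool.Agent.ST14.K6
import Pool.Agent.ST14.StrStmts

/-!
Item (1) of the structure theorem: below a non-maximal element (above a non-minimal element) a
minimal symmetric poset is locally skew; the sets `T(u)` are principal ideals or empty.
-/

set_option autoImplicit false

namespace Pool.Agent.ST14

open scoped Classical

section gen

variable {P : Type} [PartialOrder P]

theorem LocSkewOn.mono {ω : P → ℕ} {Q R : Finset P} (h : LocSkewOn ω Q) (hR : R ⊆ Q) :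
    LocSkewOn ω R where
  w_lower := fun x hx x' hx' y hy => h.w_lower x (hR hx) x' (hR hx') y (hR hy)
  w_upper := fun x hx y hy y' hy' => h.w_upper x (hR hx) y (hR hy) y' (hR hy')
  s_lower := fun x hx x' hx' y hy => h.s_lower x (hR hx) x' (hR hx') y (hR hy)
  s_upper := fun x hx y hy y' hy' => h.s_upper x (hR hx) y (hR hy) y' (hR hy')
  ws := fun x hx b hb y hy => h.ws x (hR hx) b (hR hb) y (hR hy)
  sw := fun x hx b hb y hy => h.sw x (hR hx) b (hR hb) y (hR hy)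

theorem cov_cases {ω : P → ℕ} (hω : Function.Injective ω) {x y : P} (h : x ⋖ y) :
    WCov ω x y ∨ SCov ω x y := by
  rcases lt_trichotomy (ω x) (ω y) with h1 | h1 | h1
  · exact Or.inl ⟨h, h1⟩
  · exact absurd (hω h1) h.lt.ne
  · exact Or.inr ⟨h, h1⟩

theorem LL_of_sCov {ω : P → ℕ} {x p q u : P} (h1 : x ≤ p) (h2 : SCov ω p q) (h3 : q ≤ u) :
    LL ω x u := ⟨p, q, h1, h2.1.lt, h3, h2.2⟩

theorem LL.mono {ω : P → ℕ} {x u x' u' : P} (h : LL ω x u) (hx : x' ≤ x) (hu : u ≤ u') :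
    LL ω x' u' := by
  obtain ⟨y, z, h1, h2, h3, h4⟩ := h
  exact ⟨y, z, hx.trans h1, h2, h3.trans hu, h4⟩

theorem LL.lt {ω : P → ℕ} {x u : P} (h : LL ω x u) : x < u := by
  obtain ⟨y, z, h1, h2, h3, _⟩ := h
  exact lt_of_le_of_lt h1 (lt_of_lt_of_le h2 h3)

end gen

variable {P : Type} [Fintype P] [PartialOrder P]

/-- a lower cover of `u` above `x` -/
theorem exists_lower_cov {x u : P} (h : x < u) : ∃ w, x ≤ w ∧ w ⋖ u := by
  have hs : {w : P | x ≤ w ∧ w < u}.Finite := Set.toFinite _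
  obtain ⟨w, hw⟩ := hs.exists_maximal ⟨x, le_refl x, h⟩
  refine ⟨w, hw.prop.1, hw.prop.2, fun c hwc hcu => ?_⟩
  exact absurd (hw.le_of_ge ⟨hw.prop.1.trans hwc.le, hcu⟩ hwc.le) (not_le_of_gt hwc)

/-- an upper cover of `x` below `u` -/
theorem exists_upper_cov {x u : P} (h : x < u) : ∃ w, x ⋖ w ∧ w ≤ u := by
  have hs : {w : P | x < w ∧ w ≤ u}.Finite := Set.toFinite _
  obtain ⟨w, hw⟩ := hs.exists_minimal ⟨u, h, le_refl u⟩
  refine ⟨w, ⟨hw.prop.1, fun c hxc hcw => ?_⟩, hw.prop.2⟩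
  exact absurd (hw.le_of_le ⟨hxc, hcw.le.trans hw.prop.2⟩ hcw.le) (not_le_of_gt hcw)

/-- a strict step contains a strict cover -/
theorem exists_sCov {ω : P → ℕ} (hω : Function.Injective ω) {y z : P} (h : y < z)
    (hs : ω z < ω y) : ∃ p q, y ≤ p ∧ SCov ω p q ∧ q ≤ z := by
  induction z using (wellFounded_lt (α := P)).induction with
  | _ z ih =>
    obtain ⟨w, hyw, hwz⟩ := exists_lower_cov h
    rcases cov_cases hω hwz with h1 | h1
    · have h2 : ω w < ω y := lt_trans h1.2 hs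
      have h3 : y < w := lt_of_le_of_ne hyw (by rintro rfl; exact lt_irrefl _ h2)
      obtain ⟨p, q, hp, hpq, hq⟩ := ih w hwz.lt h3 h2
      exact ⟨p, q, hp, hpq, hq.trans hwz.le⟩
    · exact ⟨w, z, hyw, h1, le_refl z⟩

theorem LL_iff {ω : P → ℕ} (hω : Function.Injective ω) {x u : P} :
    LL ω x u ↔ ∃ p q, x ≤ p ∧ SCov ω p q ∧ q ≤ u := by
  constructor
  · rintro ⟨y, z, h1, h2, h3, h4⟩
    obtain ⟨p, q, hp, hpq, hq⟩ := exists_sCov hω h2 h4
    exact ⟨p, q, h1.trans hp, hpq, hq.trans h3⟩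
  · rintro ⟨p, q, h1, h2, h3⟩
    exact LL_of_sCov h1 h2 h3

theorem mem_CC {ω : P → ℕ} {x : P} : x ∈ CC ω ↔ ∃ u, LL ω x u := by
  unfold CC
  rw [Finset.mem_filter]
  exact ⟨fun h => h.2, fun h => ⟨Finset.mem_univ _, h⟩⟩

theorem mem_AA {ω : P → ℕ} {u : P} : u ∈ AA ω ↔ ∃ x, LL ω x u := by
  unfold AA
  rw [Finset.mem_filter]
  exact ⟨fun h => h.2, fun h => ⟨Finset.mem_univ _, h⟩⟩

theorem CC_ne_univ (ω : P → ℕ) (x : P) : CC ω ≠ Finset.univ := by
  intro h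
  obtain ⟨m, hm⟩ := (Set.toFinite (Set.univ : Set P)).exists_maximal ⟨x, trivial⟩
  have h1 : m ∈ CC ω := by rw [h]; exact Finset.mem_univ m
  obtain ⟨u, hu⟩ := mem_CC.1 h1
  exact absurd (hm.le_of_ge trivial hu.lt.le) (not_le_of_gt hu.lt)

theorem AA_ne_univ (ω : P → ℕ) (x : P) : AA ω ≠ Finset.univ := by
  intro h
  obtain ⟨m, hm⟩ := (Set.toFinite (Set.univ : Set P)).exists_minimal ⟨x, trivial⟩
  have h1 : m ∈ AA ω := by rw [h]; exact Finset.mem_univ m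
  obtain ⟨u, hu⟩ := mem_AA.1 h1
  exact absurd (hm.le_of_le trivial hu.lt.le) (not_le_of_gt hu.lt)

theorem CC_cvx (ω : P → ℕ) : Cvx (CC ω) := by
  intro x _ z hz y _ hyz
  obtain ⟨u, hu⟩ := mem_CC.1 hz
  exact mem_CC.2 ⟨u, hu.mono hyz (le_refl u)⟩

theorem AA_cvx (ω : P → ℕ) : Cvx (AA ω) := by
  intro x hx z _ y hxy _
  obtain ⟨u, hu⟩ := mem_AA.1 hx
  exact mem_AA.2 ⟨u, hu.mono (le_refl u) hxy⟩

theorem Mini.locCC {ω : P → ℕ} (h : Mini ω) (x : P) : LocSkewOn ω (CC ω) :=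
  h.min _ (CC_ne_univ ω x) (CC_cvx ω) (K6 k1 P ω h.inj h.sym).2.1

theorem Mini.locAA {ω : P → ℕ} (h : Mini ω) (x : P) : LocSkewOn ω (AA ω) :=
  h.min _ (AA_ne_univ ω x) (AA_cvx ω) (K6 k1 P ω h.inj h.sym).1

theorem locSkewOn_congr {ω ω' : P → ℕ} (hw : ∀ x y, WCov ω x y ↔ WCov ω' x y)
    (hs : ∀ x y, SCov ω x y ↔ SCov ω' x y) {Q : Finset P} (h : LocSkewOn ω Q) :
    LocSkewOn ω' Q where
  w_lower := by simpa only [hw] using h.w_lower
  w_upper := by simpa only [hw] using h.w_upper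
  s_lower := by simpa only [hs] using h.s_lower
  s_upper := by simpa only [hs] using h.s_upper
  ws := by simpa only [hs, hw] using h.ws
  sw := by simpa only [hs, hw] using h.sw

theorem locSkewOn_tr_iff {ω : P → ℕ} {Q : Finset P} : LocSkewOn (tr ω) Q ↔ LocSkewOn ω Q := by
  refine ⟨fun h => ?_, locSkewOn_of_tr⟩
  refine locSkewOn_congr (fun x y => ?_) (fun x y => ?_) (locSkewOn_of_tr h)
  · rw [wCov_tr, sCov_tr]
  · rw [sCov_tr, wCov_tr]

/-- `P_{<= u}` is locally skew for `u` not maximal -/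
theorem Mini.loc_le {ω : P → ℕ} (h : Mini ω) {u : P} (hu : ¬ IsMax u) :
    LocSkewOn ω (Finset.univ.filter fun z => z ≤ u) := by
  rw [not_isMax_iff] at hu
  obtain ⟨v, hv⟩ := hu
  obtain ⟨w, hw, _⟩ := exists_upper_cov hv
  rcases cov_cases h.inj hw with h1 | h1
  · have h2 : LocSkewOn (tr ω) (CC (tr ω)) := (k5c P ω h).locCC u
    refine locSkewOn_tr_iff.1 (h2.mono ?_)
    intro z hz
    rw [Finset.mem_filter] at hz
    exact mem_CC.2 ⟨w, LL_of_sCov hz.2 ((sCov_tr ω u w).2 h1) (le_refl w)⟩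
  · refine (h.locCC u).mono ?_
    intro z hz
    rw [Finset.mem_filter] at hz
    exact mem_CC.2 ⟨w, LL_of_sCov hz.2 h1 (le_refl w)⟩

/-- `P_{>= x}` is locally skew for `x` not minimal -/
theorem Mini.loc_ge {ω : P → ℕ} (h : Mini ω) {x : P} (hx : ¬ IsMin x) :
    LocSkewOn ω (Finset.univ.filter fun z => x ≤ z) := by
  rw [not_isMin_iff] at hx
  obtain ⟨v, hv⟩ := hx
  obtain ⟨w, _, hw⟩ := exists_lower_cov hv
  rcases cov_cases h.inj hw with h1 | h1
  · have h2 : LocSkewOn (tr ω) (AA (tr ω)) := (k5c P ω h).locAA x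
    refine locSkewOn_tr_iff.1 (h2.mono ?_)
    intro z hz
    rw [Finset.mem_filter] at hz
    exact mem_AA.2 ⟨w, LL_of_sCov (le_refl w) ((sCov_tr ω w x).2 h1) hz.2⟩
  · refine (h.locAA x).mono ?_
    intro z hz
    rw [Finset.mem_filter] at hz
    exact mem_AA.2 ⟨w, LL_of_sCov (le_refl w) h1 hz.2⟩

/-- the key fact: in a locally skew ideal `z << u` implies that `u` has a strict lower cover
above `z` -/
theorem exists_sLower {ω : P → ℕ} (hω : Function.Injective ω) {u₀ : P}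
    (h : LocSkewOn ω (Finset.univ.filter fun z => z ≤ u₀)) (z : P) :
    ∀ u, u ≤ u₀ → LL ω z u → ∃ c, SCov ω c u ∧ z ≤ c := by
  have mem : ∀ t, t ≤ u₀ → t ∈ (Finset.univ.filter fun z => z ≤ u₀) := fun t ht =>
    Finset.mem_filter.2 ⟨Finset.mem_univ t, ht⟩
  intro u
  induction u using (wellFounded_lt (α := P)).induction with
  | _ u ih =>
    intro hu hz
    obtain ⟨p, q, hp, hpq, hq⟩ := (LL_iff hω).1 hz
    rcases eq_or_lt_of_le hq with rfl | hlt
    · exact ⟨p, hpq, hp⟩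
    · obtain ⟨w, hqw, hwu⟩ := exists_lower_cov hlt
      rcases cov_cases hω hwu with h1 | h1
      · have hw0 : w ≤ u₀ := hwu.le.trans hu
        obtain ⟨n, hn, hzn⟩ := ih w hwu.lt hw0 ((LL_iff hω).2 ⟨p, q, hp, hpq, hqw⟩)
        obtain ⟨c, hnc, hcu⟩ := h.sw n (mem n (hn.1.le.trans hw0)) w (mem w hw0) u (mem u hu) hn h1
        exact ⟨c, hcu, hzn.trans hnc.1.le⟩
      · exact ⟨w, h1, hp.trans (hpq.1.le.trans hqw)⟩

/-- dual form -/
theorem exists_sUpper {ω : P → ℕ} (hω : Function.Injective ω) {x₀ : P}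
    (h : LocSkewOn ω (Finset.univ.filter fun z => x₀ ≤ z)) (z : P) :
    ∀ x, x₀ ≤ x → LL ω x z → ∃ c, SCov ω x c ∧ c ≤ z := by
  have mem : ∀ t, x₀ ≤ t → t ∈ (Finset.univ.filter fun z => x₀ ≤ z) := fun t ht =>
    Finset.mem_filter.2 ⟨Finset.mem_univ t, ht⟩
  intro x
  induction x using (wellFounded_gt (α := P)).induction with
  | _ x ih =>
    intro hx hz
    obtain ⟨p, q, hp, hpq, hq⟩ := (LL_iff hω).1 hz
    rcases eq_or_lt_of_le hp with rfl | hlt
    · exact ⟨q, hpq, hq⟩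
    · obtain ⟨w, hxw, hwp⟩ := exists_upper_cov hlt
      rcases cov_cases hω hxw with h1 | h1
      · have hw0 : x₀ ≤ w := hx.trans hxw.le
        obtain ⟨n, hn, hnz⟩ := ih w hxw.lt hw0 ((LL_iff hω).2 ⟨p, q, hwp, hpq, hq⟩)
        obtain ⟨c, hxc, hcn⟩ := h.ws x (mem x hx) w (mem w hw0) n (mem n (hw0.trans hn.1.le)) h1 hn
        exact ⟨c, hxc, hcn.1.le.trans hnz⟩
      · exact ⟨w, h1, hwp.trans (hpq.1.le.trans hq)⟩

/-- **(1)** -/
theorem st1 : St1 := by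
  intro P _ _ ω h
  refine ⟨fun u hu => ?_, fun x hx => ?_⟩
  · have hl := h.loc_le hu
    have mem : ∀ t, t ≤ u → t ∈ (Finset.univ.filter fun z => z ≤ u) := fun t ht =>
      Finset.mem_filter.2 ⟨Finset.mem_univ t, ht⟩
    refine ⟨hl, fun x hx z => ⟨fun hz => ?_, fun hz => LL_of_sCov hz hx (le_refl u)⟩,
      fun hno z hz => ?_⟩
    · obtain ⟨c, hc, hzc⟩ := exists_sLower h.inj hl z u (le_refl u) hz
      rw [hl.s_lower x (mem x hx.1.le) c (mem c hc.1.le) u (mem u (le_refl u)) hx hc]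
      exact hzc
    · obtain ⟨c, hc, _⟩ := exists_sLower h.inj hl z u (le_refl u) hz
      exact hno c hc
  · have hl := h.loc_ge hx
    have mem : ∀ t, x ≤ t → t ∈ (Finset.univ.filter fun z => x ≤ z) := fun t ht =>
      Finset.mem_filter.2 ⟨Finset.mem_univ t, ht⟩
    refine ⟨hl, fun u hu z => ⟨fun hz => ?_, fun hz => LL_of_sCov (le_refl x) hu hz⟩,
      fun hno z hz => ?_⟩
    · obtain ⟨c, hc, hcz⟩ := exists_sUpper h.inj hl z x (le_refl x) hz
      rw [hl.s_upper x (mem x (le_refl x)) u (mem u hu.1.le) c (mem c hc.1.le) hu hc]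
      exact hcz
    · obtain ⟨c, hc, _⟩ := exists_sUpper h.inj hl z x (le_refl x) hz
      exact hno c hc

end Pool.Agent.ST14
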