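import Pool.Agent.ST14.FinStmts
import Pool.Agent.ST14.St1
import Pool.Agent.ST14.K5rev

/-!
Module FIN_52: for a strict extra cover `i s M` the cell `S i` has an eastern neighbour.
-/

set_option autoImplicit false

namespace Pool.Agent.ST14

open scoped Classical

namespace Fin52Aux

variable {P : Type} [Fintype P] [PartialOrder P] {ω : P → ℕ}

/-- A step north or east inside `A`, by a cover which is not a splitter cover `b' w y'`. -/
def Stp (ω : P → ℕ) (e f : P) : Prop :=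
  e ∈ AA ω ∧ f ∈ AA ω ∧ (SCov ω f e ∨ (WCov ω e f ∧ ∀ x, ¬ Splitter ω x e f))

theorem AA_not_min {u : P} (hu : u ∈ AA ω) : ¬ IsMin u := by
  obtain ⟨x, hx⟩ := mem_AA.1 hu
  intro hm
  exact absurd (hm hx.lt.le) (not_le_of_gt hx.lt)

theorem AA_up {u v : P} (hu : u ∈ AA ω) (h : u ≤ v) : v ∈ AA ω := by
  obtain ⟨x, hx⟩ := mem_AA.1 hu
  exact mem_AA.2 ⟨x, hx.mono le_rfl h⟩

/-- `E0` steps are `Stp` steps in one of the two directions. -/
theorem stp_of_E0 (hω : Function.Injective ω) {e f : P} (h : E0 ω (AA ω) e f) :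
    Stp ω e f ∨ Stp ω f e := by
  obtain ⟨⟨he, hf, hc⟩, h1, h2⟩ := h
  rcases hc with hc | hc
  · rcases cov_cases hω hc with h3 | h3
    · exact Or.inl ⟨he, hf, Or.inr ⟨h3, fun x hx => h1 ⟨x, hx⟩⟩⟩
    · exact Or.inr ⟨hf, he, Or.inl h3⟩
  · rcases cov_cases hω hc with h3 | h3
    · exact Or.inr ⟨hf, he, Or.inr ⟨h3, fun x hx => h2 ⟨x, hx⟩⟩⟩
    · exact Or.inl ⟨he, hf, Or.inl h3⟩

theorem E0_symm {Q : Finset P} {e f : P} (h : E0 ω Q e f) : E0 ω Q f e :=
  ⟨⟨h.1.2.1, h.1.1, h.1.2.2.symm⟩, h.2.2, h.2.1⟩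

/-- If the steps have the diamond property and `q` is an end, every cell of the `E0` component of
`q` flows to `q`. -/
theorem flow (hω : Function.Injective ω)
    (hd : ∀ a b c : P, Stp ω a b → Stp ω a c → b = c ∨ ∃ d, Stp ω b d ∧ Stp ω c d)
    {q : P} (hq : ∀ f, ¬ Stp ω q f) {e : P} (h : E0c ω (AA ω) q e) :
    Relation.ReflTransGen (Stp ω) e q := by
  have hj : Relation.Join (Relation.ReflTransGen (Stp ω)) q e := by
    have hequiv : Equivalence (Relation.Join (Relation.ReflTransGen (Stp ω))) := by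
      refine Relation.equivalence_join_reflTransGen fun a b c h1 h2 => ?_
      rcases hd a b c h1 h2 with h3 | ⟨d, h3, h4⟩
      · exact ⟨b, Relation.ReflGen.refl, h3 ▸ Relation.ReflTransGen.refl⟩
      · exact ⟨d, Relation.ReflGen.single h3, Relation.ReflTransGen.single h4⟩
    induction h with
    | refl => exact hequiv.refl q
    | tail _ h2 ih =>
      refine hequiv.trans ih ?_
      rcases stp_of_E0 hω h2 with h3 | h3
      · exact ⟨_, Relation.ReflTransGen.single h3, Relation.ReflTransGen.refl⟩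
      · exact ⟨_, Relation.ReflTransGen.refl, Relation.ReflTransGen.single h3⟩
  obtain ⟨d, h1, h2⟩ := hj
  rcases Relation.ReflTransGen.cases_head h1 with h3 | ⟨f, h3, -⟩
  · rw [← h3] at h2
    exact h2
  · exact absurd h3 (hq f)

end Fin52Aux

open Fin52Aux in
theorem fin52 (hN : FinNet) (hT : FinTr) (hR : FinRv) (hL : FinLink) (hQ : QStmt)
    (hF : FreeStmt) (h2 : St2) : Fin52 := by
  intro P _ _ ω hm i M q hX hiq
  by_contra hno
  have hno' : ∀ u, ¬ RW ω q u := fun u hu => hno ⟨u, hu⟩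
  have hω := hm.inj
  have hmt : Mini (tr ω) := k5c P ω hm
  have hmr : Mini (rv ω) := K5d k1 P ω hm
  obtain ⟨n1, n2, n3, n4, n5, n6, n7, n8, n9⟩ := hN P ω hm
  obtain ⟨t1, t2, t3, t4, t5, t6, t7, t8, -⟩ := hN P (tr ω) hmt
  obtain ⟨d1, d2, -, -, d5, d6, -⟩ := hT P ω
  obtain ⟨r1, r2, r3, r4, -⟩ := hR P ω hm
  -- regular weak covers
  have wlow : ∀ x x' u, RW ω x u → RW ω x' u → x = x' := fun x x' u h h' =>
    t4 x x' u ((d1 x u).2 h) ((d1 x' u).2 h')
  have wup : ∀ x u u', RW ω x u → RW ω x u' → u = u' := fun x u u' h h' =>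
    t5 x u u' ((d1 x u).2 h) ((d1 x u').2 h')
  have wreg : ∀ x u, WCov ω x u → ¬ (IsMin x ∧ IsMax u) → RW ω x u := fun x u h h' =>
    (d1 x u).1 (t7 x u ((sCov_tr ω x u).2 h) h')
  -- the splitter
  have spl : ∀ x b' y', Splitter ω x b' y' → IsMin x ∧ IsMax y' ∧ ¬ IsMin b' ∧ ¬ IsMax b' ∧
      RS ω x b' ∧ RW ω b' y' := by
    intro x b' y' h
    obtain ⟨⟨h3, h4, h5, h6, h7, h8⟩, -⟩ := hL P (tr ω) hmt x b' y' ((d5 x b' y').2 h)
    exact ⟨h3, h4, h5, h6, (d2 x b').1 h7, (d1 b' y').1 h8⟩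
  -- the matching
  obtain ⟨N, S, hNet⟩ : ∃ N S : P → P, Net ω N S := by
    haveI : Nonempty P := ⟨q⟩
    choose! N hNs using n2
    choose! S hSs using n3
    refine ⟨N, S, fun u hu => (n1 _ _ (hNs u hu)).1, fun x hx => (n1 _ _ (hSs x hx)).1,
      fun u hu => ?_, fun x hx => ?_, fun x u hxu => ?_⟩
    · exact n5 _ _ _ (hSs _ (n1 _ _ (hNs u hu)).2.1) (hNs u hu)
    · exact n4 _ _ _ (hNs _ (n1 _ _ (hSs x hx)).2.2) (hSs x hx)
    · rcases n6 x u hxu with h | h
      · exact Or.inl (n4 _ _ _ h (hNs u (n1 _ _ h).2.2))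
      · obtain ⟨-, h3, ⟨z, hz, h4⟩, v, hv, h5⟩ := n8 x u h
        refine Or.inr ⟨h.2.1, h3, ?_, ?_⟩
        · rw [n4 _ _ _ (hNs u (n1 _ _ h4).2.2) h4]
          exact hz
        · rw [n5 _ _ _ (hSs x (n1 _ _ h5).2.1) h5]
          exact hv
  -- `q` is neither minimal nor maximal
  obtain ⟨hXr, hMmax, ⟨zM, -, hzM⟩, v, hv, hiv⟩ := n8 i M hX
  have hvq : v = q := n5 _ _ _ hiv hiq
  have hqC : q ∈ CC ω := hvq ▸ hv
  have hqA : q ∈ AA ω := (n1 _ _ hiq).2.2
  obtain ⟨s, hqs⟩ := n3 q hqC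
  have hqmax : ¬ IsMax q := by
    intro h
    have h3 := (n1 _ _ hqs).1.1.lt
    exact absurd (h h3.le) (not_le_of_gt h3)
  -- regular covers inside `A`
  have sregA : ∀ x u, SCov ω x u → x ∈ AA ω → RS ω x u := fun x u h hx =>
    n7 x u h fun h' => AA_not_min hx h'.1
  have wregA : ∀ x u, WCov ω x u → x ∈ AA ω → RW ω x u := fun x u h hx =>
    wreg x u h fun h' => AA_not_min hx h'.1
  -- `q` is an end
  have hqend : ∀ f, ¬ Stp ω q f := by
    rintro f ⟨-, hf, h | ⟨h, -⟩⟩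
    · have h3 := n4 _ _ _ (sregA f q h hf) hiq
      rw [h3] at hf
      exact AA_not_min hf hX.2.1
    · exact hno' f (wregA q f h hqA)
  -- the diamond property
  have hdia : ∀ a b c : P, Stp ω a b → Stp ω a c → b = c ∨ ∃ d, Stp ω b d ∧ Stp ω c d := by
    have key : ∀ a b c : P, a ∈ AA ω → b ∈ AA ω → c ∈ AA ω → SCov ω b a → WCov ω a c →
        (∀ x, ¬ Splitter ω x a c) → ∃ d, Stp ω b d ∧ Stp ω c d := by
      intro a b c ha hb hc h3 h4 h5
      obtain ⟨g, hg1, hg2⟩ : ∃ g, WCov ω b g ∧ SCov ω g c := by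
        by_contra hcon
        exact h5 b ⟨h3, h4, hcon⟩
      have hg : g ∈ AA ω := AA_up hb hg1.1.le
      refine ⟨g, ⟨hb, hg, Or.inr ⟨hg1, fun x hx => ?_⟩⟩, ⟨hc, hg, Or.inl hg2⟩⟩
      have h6 := (spl x b g hx).2.1
      exact absurd (h6 hg2.1.le) (not_le_of_gt hg2.1.lt)
    rintro a b c ⟨ha, hb, h3⟩ ⟨-, hc, h4⟩
    rcases h3 with h3 | ⟨h3, h3'⟩
    · rcases h4 with h4 | ⟨h4, h4'⟩
      · exact Or.inl (n4 _ _ _ (sregA _ _ h3 hb) (sregA _ _ h4 hc))
      · exact Or.inr (key a b c ha hb hc h3 h4 h4')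
    · rcases h4 with h4 | ⟨h4, h4'⟩
      · obtain ⟨d, h5, h6⟩ := key a c b ha hc hb h4 h3 h3'
        exact Or.inr ⟨d, h6, h5⟩
      · exact Or.inl (wup _ _ _ (wregA _ _ h3 ha) (wregA _ _ h4 ha))
  have hflow : ∀ e, E0c ω (AA ω) q e → Relation.ReflTransGen (Stp ω) e q := fun e he =>
    flow hω hdia hqend he
  -- no `b'`
  have nb' : ∀ x b' y', Splitter ω x b' y' → ¬ E0c ω (AA ω) q b' := by
    intro x b' y' h he
    obtain ⟨h3, h4, h5, h6, h7, h8⟩ := spl x b' y' h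
    rcases Relation.ReflTransGen.cases_head (hflow b' he) with h9 | ⟨f, ⟨hb, hf, h9⟩, -⟩
    · rw [h9] at h8
      exact hno' y' h8
    · rcases h9 with h9 | ⟨h9, h10⟩
      · have h11 := n4 _ _ _ (sregA f b' h9 hf) h7
        rw [h11] at hf
        exact AA_not_min hf h3
      · have h11 := wup _ _ _ (wregA b' f h9 hb) h8
        rw [h11] at h10
        exact h10 x h
  -- no `y_b`
  have ny : ∀ x b y, Merger ω x b y → ¬ E0c ω (AA ω) q y := by
    intro x b y h he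
    obtain ⟨⟨-, -, -, -, -, hby⟩, -, -, ⟨c, hxc, -, -⟩, -, -⟩ := hL P ω hm x b y h
    have hxC : x ∈ CC ω := (n1 _ _ hxc).2.1
    have hSx : S x = c := ((n9 N S hNet x c).2.1 hxc).2.symm
    have hcA : c ∈ AA ω := (n1 _ _ hxc).2.2
    have hyA : y ∈ AA ω := (n1 _ _ hby).2.2
    have h3 := (hQ P ω hm N S hNet ∅ (AA ω) Reach.start).2 x b y h hxC
    rw [Finset.sdiff_empty, hSx] at h3
    obtain ⟨x', b', y', h4, -, -, h5⟩ := h3 hcA hyA
    exact nb' x' b' y' h4 (Relation.ReflTransGen.trans he h5)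
  -- isolated cells
  have iso : ∀ c, (∀ f, ¬ E0 ω (AA ω) c f) → IsMax c → ¬ E0c ω (AA ω) q c := by
    intro c hc hmax he
    rcases Relation.ReflTransGen.cases_tail he with h3 | ⟨f, -, h3⟩
    · rw [h3] at hmax
      exact hqmax hmax
    · exact hc f (E0_symm h3)
  -- no `c_b`
  have nc : ∀ x b y c, Merger ω x b y → RS ω x c → ¬ E0c ω (AA ω) q c := by
    intro x b y c h hxc
    obtain ⟨⟨hxmin, -⟩, -, -, ⟨c', hxc', -, h3⟩, -, -⟩ := hL P ω hm x b y h
    have hcc : c' = c := n5 _ _ _ hxc' hxc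
    rw [hcc] at h3
    rcases h3 with ⟨y', h3⟩ | h3
    · exact nb' x c y' h3
    · refine iso c ?_ h3
      rintro f ⟨⟨hcA, hf, h4⟩, h5, h6⟩
      have h7 : f ⋖ c := by
        rcases h4 with h4 | h4
        · exact absurd (h3 h4.le) (not_le_of_gt h4.lt)
        · exact h4
      rcases cov_cases hω h7 with h8 | h8
      · obtain ⟨z, hz⟩ := n2 f hf
        obtain ⟨g, hg1, hg2⟩ : ∃ g, WCov ω z g ∧ SCov ω g c := by
          by_contra hcon
          exact h6 ⟨z, (n1 _ _ hz).1, h8, hcon⟩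
        have h9 : RS ω g c := n7 g c hg2 fun h' =>
          absurd (h'.1 hg1.1.le) (not_le_of_gt hg1.1.lt)
        have h10 := n4 _ _ _ h9 hxc
        rw [h10] at hg1
        exact absurd (hxmin hg1.1.le) (not_le_of_gt hg1.1.lt)
      · have h10 := n4 _ _ _ (sregA f c h8 hf) hxc
        rw [h10] at hf
        exact AA_not_min hf hxmin
  -- no `y'`
  have ny' : ∀ x b' y', Splitter ω x b' y' → ¬ E0c ω (AA ω) q y' := by
    intro x b' y' h
    obtain ⟨h3, h4, h5, h6, h7, h8⟩ := spl x b' y' h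
    obtain ⟨-, -, -, ⟨c, hc, -, h9⟩, -, -⟩ := hL Pᵒᵈ (rv ω) hmr _ _ _ ((r3 x b' y').2 h)
    have hc' : RS ω (OrderDual.ofDual c) y' := (r1 (OrderDual.ofDual c) y').1 hc
    rcases h9 with ⟨w, h9⟩ | h9
    · have h10 : Merger ω (OrderDual.ofDual w) (OrderDual.ofDual c) y' :=
        (r4 (OrderDual.ofDual w) (OrderDual.ofDual c) y').1 h9
      exact ny _ _ _ h10
    · have hcmin : IsMin (OrderDual.ofDual c) := h9.ofDual
      refine iso y' ?_ h4
      rintro f ⟨⟨hyA, hf, h10⟩, h11, h12⟩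
      have h13 : f ⋖ y' := by
        rcases h10 with h10 | h10
        · exact absurd (h4 h10.le) (not_le_of_gt h10.lt)
        · exact h10
      rcases cov_cases hω h13 with h14 | h14
      · have h15 := wlow _ _ _ (wregA f y' h14 hf) h8
        rw [h15] at h12
        exact h12 ⟨x, h⟩
      · have h15 := n4 _ _ _ (sregA f y' h14 hf) hc'
        rw [h15] at hf
        exact AA_not_min hf hcmin
  -- the component of `q`
  have hcomp : ∀ z, Conn (AA ω) q z → E0c ω (AA ω) q z := by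
    intro z hz
    induction hz with
    | refl => exact Relation.ReflTransGen.refl
    | @tail e f _ h4 ih =>
      refine Relation.ReflTransGen.tail ih ⟨h4, ?_, ?_⟩
      · rintro ⟨x, hx⟩
        exact nb' x e f hx ih
      · rintro ⟨x, hx⟩
        exact ny' x f e hx ih
  have hin : ∀ z, z ∈ comp (AA ω) q → E0c ω (AA ω) q z := by
    intro z hz
    unfold comp at hz
    rw [Finset.mem_filter] at hz
    exact hcomp z hz.2
  have hqin : q ∈ comp (AA ω) q := by
    unfold comp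
    rw [Finset.mem_filter]
    exact ⟨hqA, Relation.ReflTransGen.refl⟩
  have hfree := hF P ω hm N S hNet (comp (AA ω) q) (Finset.mem_image.2 ⟨q, hqA, rfl⟩)
    (fun x b' y' h hb => nb' x b' y' h (hin _ hb))
    (fun x b y h => ⟨fun hy => ny x b y h (hin _ hy), fun hx hs => by
      obtain ⟨c, hc⟩ := n3 x hx
      have h3 : S x = c := ((n9 N S hNet x c).2.1 hc).2.symm
      rw [h3] at hs
      exact nc x b y c h hc (hin _ hs)⟩)
    i M hX.1 (fun h => hXr ((n9 N S hNet i M).1.2 ⟨(n1 _ _ hzM).2.2, h⟩))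
  have hSi : S i = q := ((n9 N S hNet i q).2.1 hiq).2.symm
  rw [hSi] at hfree
  exact hfree.2 hqin

end Pool.Agent.ST14
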