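import Pool.Agent.ST14.Kap2

/-!
Words in the convolution ring, the subalgebra of the `h`, the letters `e`, transposition.
-/

set_option autoImplicit false

namespace Pool.Agent.ST14

open scoped Classical

variable {P : Type} [PartialOrder P] {R : Type} [CommRing R]

theorem hh_apply (ω : P → ℕ) (a : ℕ) (I : Finset P) :
    hh R ω a I = if I.card = a ∧ WeakOnly ω I then 1 else 0 := rfl

theorem ee_apply (ω : P → ℕ) (a : ℕ) (I : Finset P) :
    ee R ω a I = if I.card = a ∧ StrictOnly ω I then 1 else 0 := rfl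

/-- Evaluation of words. -/
theorem kap_prod (ω : P → ℕ) (w : List ℕ) (Q : Finset P) :
    (w.map (hh R ω)).prod Q = (kap ω Q w : R) := by
  induction w generalizing Q with
  | nil =>
    rw [List.map_nil, List.prod_nil, Conv.one_apply, kap_nil]
    split_ifs <;> simp
  | cons a w ih =>
    rw [List.map_cons, List.prod_cons, Conv.mul_apply, kap_cons', Nat.cast_sum]
    apply Finset.sum_congr rfl
    intro I _
    rw [ih, Nat.cast_mul, hh_apply]
    split_ifs <;> simp

/-- The subalgebra generated by the letters `h`. -/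
noncomputable def HH (R : Type) [CommRing R] (ω : P → ℕ) : Subalgebra R (Conv P R) :=
  Algebra.adjoin R (Set.range (hh R ω))

theorem hh_mem (ω : P → ℕ) (a : ℕ) : hh R ω a ∈ HH R ω :=
  Algebra.subset_adjoin ⟨a, rfl⟩

theorem word_mem (ω : P → ℕ) (w : List ℕ) : (w.map (hh R ω)).prod ∈ HH R ω := by
  apply Subalgebra.list_prod_mem
  intro x hx
  rw [List.mem_map] at hx
  obtain ⟨a, _, rfl⟩ := hx
  exact hh_mem ω a

theorem exists_word {ω : P → ℕ} (l : List (Conv P R)) (hl : ∀ y ∈ l, y ∈ Set.range (hh R ω)) :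
    ∃ w : List ℕ, w.map (hh R ω) = l := by
  induction l with
  | nil => exact ⟨[], rfl⟩
  | cons a l ih =>
    obtain ⟨b, hb⟩ := hl a (by simp)
    obtain ⟨w, hw'⟩ := ih (fun x hx => hl x (by simp [hx]))
    exact ⟨b :: w, by rw [List.map_cons, hb, hw']⟩

/-- Induction for the elements of `HH`. -/
theorem HH_induction {ω : P → ℕ} {p : Conv P R → Prop}
    (hw : ∀ w : List ℕ, p (w.map (hh R ω)).prod) (h0 : p 0)
    (hadd : ∀ x y, p x → p y → p (x + y)) (hsmul : ∀ (c : R) x, p x → p (c • x))
    (x : Conv P R) (hx : x ∈ HH R ω) : p x := by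
  unfold HH at hx
  rw [← Subalgebra.mem_toSubmodule, Algebra.adjoin_eq_span] at hx
  induction hx using Submodule.span_induction with
  | mem y hy =>
    obtain ⟨l, hl, rfl⟩ := Submonoid.exists_list_of_mem_closure hy
    have h1 : ∃ w : List ℕ, w.map (hh R ω) = l := exists_word l hl
    obtain ⟨w, rfl⟩ := h1
    exact hw w
  | zero => exact h0
  | add y z _ _ hy hz => exact hadd y z hy hz
  | smul c y _ hy => exact hsmul c y hy

theorem symAt_aux {ω : P → ℕ} {Q : Finset P} (h : SymW ω Q) :
    ∀ A ∈ HH R ω, ∀ F ∈ HH R ω, ∀ G ∈ HH R ω, ∀ B ∈ HH R ω,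
      (A * F * G * B) Q = (A * G * F * B) Q := by
  refine HH_induction (p := fun (A : Conv P R) => ∀ F ∈ HH R ω, ∀ G ∈ HH R ω, ∀ B ∈ HH R ω,
      (A * F * G * B) Q = (A * G * F * B) Q) ?_ ?_ ?_ ?_
  · intro wa
    refine HH_induction (p := fun (F : Conv P R) => ∀ G ∈ HH R ω, ∀ B ∈ HH R ω,
      ((wa.map (hh R ω)).prod * F * G * B) Q = ((wa.map (hh R ω)).prod * G * F * B) Q) ?_ ?_ ?_ ?_
    · intro wf
      refine HH_induction (p := fun (G : Conv P R) => ∀ B ∈ HH R ω,
        ((wa.map (hh R ω)).prod * (wf.map (hh R ω)).prod * G * B) Q =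
          ((wa.map (hh R ω)).prod * G * (wf.map (hh R ω)).prod * B) Q) ?_ ?_ ?_ ?_
      · intro wg
        refine HH_induction (p := fun (B : Conv P R) => ((wa.map (hh R ω)).prod * (wf.map (hh R ω)).prod *
          (wg.map (hh R ω)).prod * B) Q = ((wa.map (hh R ω)).prod * (wg.map (hh R ω)).prod *
          (wf.map (hh R ω)).prod * B) Q) ?_ ?_ ?_ ?_
        · intro wb
          rw [← List.prod_append, ← List.prod_append, ← List.prod_append, ← List.prod_append,
            ← List.prod_append, ← List.prod_append, ← List.map_append, ← List.map_append,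
            ← List.map_append, ← List.map_append, ← List.map_append, ← List.map_append,
            kap_prod, kap_prod]
          congr 1
          exact k7 P ω Q h wa wf wg wb
        · simp only [mul_zero]
        · intro x y hx hy
          simp only [mul_add, Conv.add_apply]
          rw [hx, hy]
        · intro c x hx
          simp only [mul_smul_comm, Conv.smul_apply]
          rw [hx]
      · intro B _
        simp only [mul_zero, zero_mul]
      · intro x y hx hy B hB
        simp only [mul_add, add_mul, Conv.add_apply]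
        rw [hx B hB, hy B hB]
      · intro c x hx B hB
        simp only [mul_smul_comm, smul_mul_assoc, Conv.smul_apply]
        rw [hx B hB]
    · intro G _ B _
      simp only [mul_zero, zero_mul]
    · intro x y hx hy G hG B hB
      simp only [mul_add, add_mul, Conv.add_apply]
      rw [hx G hG B hB, hy G hG B hB]
    · intro c x hx G hG B hB
      simp only [mul_smul_comm, smul_mul_assoc, Conv.smul_apply]
      rw [hx G hG B hB]
  · intro F _ G _ B _
    simp only [zero_mul]
  · intro x y hx hy F hF G hG B hB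
    simp only [add_mul, Conv.add_apply]
    rw [hx F hF G hG B hB, hy F hF G hG B hB]
  · intro c x hx F hF G hG B hB
    simp only [smul_mul_assoc, Conv.smul_apply]
    rw [hx F hF G hG B hB]

/-- All products commute at a symmetric `Q`. -/
theorem symAt {ω : P → ℕ} {Q : Finset P} (h : SymW ω Q) {A F G B : Conv P R}
    (hA : A ∈ HH R ω) (hF : F ∈ HH R ω) (hG : G ∈ HH R ω) (hB : B ∈ HH R ω) :
    (A * F * G * B) Q = (A * G * F * B) Q := symAt_aux h A hA F hF G hG B hB

theorem symAt2 {ω : P → ℕ} {Q : Finset P} (h : SymW ω Q) {F G B : Conv P R}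
    (hF : F ∈ HH R ω) (hG : G ∈ HH R ω) (hB : B ∈ HH R ω) :
    (F * G * B) Q = (G * F * B) Q := by
  have := symAt h (A := (1 : Conv P R)) (one_mem _) hF hG hB
  simpa only [one_mul] using this

theorem WeakOnly.mono {ω : P → ℕ} {I J : Finset P} (h : WeakOnly ω J) (hIJ : I ⊆ J) :
    WeakOnly ω I := fun x hx y hy hxy => h x (hIJ hx) y (hIJ hy) hxy

theorem StrictOnly.mono {ω : P → ℕ} {I J : Finset P} (h : StrictOnly ω J) (hIJ : I ⊆ J) :
    StrictOnly ω I := fun x hx y hy hxy => h x (hIJ hx) y (hIJ hy) hxy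

theorem hh_zero (ω : P → ℕ) : hh R ω 0 = 1 := by
  ext Q
  rw [hh_apply, Conv.one_apply]
  by_cases h : Q = ∅
  · rw [if_pos h, if_pos]
    subst h
    exact ⟨rfl, fun x hx => absurd hx (Finset.notMem_empty x)⟩
  · rw [if_neg h, if_neg]
    intro h1
    exact h (Finset.card_eq_zero.1 h1.1)

theorem ee_zero (ω : P → ℕ) : ee R ω 0 = 1 := by
  ext Q
  rw [ee_apply, Conv.one_apply]
  by_cases h : Q = ∅
  · rw [if_pos h, if_pos]
    subst h
    exact ⟨rfl, fun x hx => absurd hx (Finset.notMem_empty x)⟩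
  · rw [if_neg h, if_neg]
    intro h1
    exact h (Finset.card_eq_zero.1 h1.1)

/-- The splittings of `Q` into a strict-only ideal and a weak-only complement. -/
noncomputable def splits (ω : P → ℕ) (Q : Finset P) : Finset (Finset P) :=
  (idl Q).filter fun I => StrictOnly ω I ∧ WeakOnly ω (Q \ I)

theorem toggle_out {ω : P → ℕ} {Q I : Finset P} {u : P} (hu : u ∈ Q)
    (hmin : ∀ x ∈ Q, x ≠ u → ω u < ω x) (hI : I ∈ splits ω Q) (huI : u ∈ I) :
    I.erase u ∈ splits ω Q := by
  unfold splits at *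
  rw [Finset.mem_filter, mem_idl] at *
  obtain ⟨⟨h1, h2⟩, h3, h4⟩ := hI
  refine ⟨⟨(Finset.erase_subset _ _).trans h1, ?_⟩, h3.mono (Finset.erase_subset _ _), ?_⟩
  · intro x hx y hy hxy
    rw [Finset.mem_erase] at *
    refine ⟨?_, h2 x hx y hy.2 hxy⟩
    rintro rfl
    have h5 : x < y := lt_of_le_of_ne hxy (Ne.symm hy.1)
    have h6 := h3 x huI y hy.2 h5
    have h7 := hmin y (h1 hy.2) hy.1
    omega
  · intro x hx y hy hxy
    rw [Finset.mem_sdiff, Finset.mem_erase] at *
    by_cases hxu : x = u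
    · subst hxu
      exact hmin y hy.1 (fun h => by rw [h] at hxy; exact lt_irrefl _ hxy)
    · by_cases hyu : y = u
      · subst hyu
        have h5 : x ∈ I := h2 x hx.1 y huI hxy.le
        exact absurd ⟨hxu, h5⟩ hx.2
      · apply h4 x (Finset.mem_sdiff.2 ⟨hx.1, fun h => hx.2 ⟨hxu, h⟩⟩) y
          (Finset.mem_sdiff.2 ⟨hy.1, fun h => hy.2 ⟨hyu, h⟩⟩) hxy

theorem toggle_in {ω : P → ℕ} {Q I : Finset P} {u : P} (hu : u ∈ Q)
    (hmin : ∀ x ∈ Q, x ≠ u → ω u < ω x) (hI : I ∈ splits ω Q) (huI : u ∉ I) :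
    insert u I ∈ splits ω Q := by
  unfold splits at *
  rw [Finset.mem_filter, mem_idl] at *
  obtain ⟨⟨h1, h2⟩, h3, h4⟩ := hI
  refine ⟨⟨Finset.insert_subset hu h1, ?_⟩, ?_, h4.mono (Finset.sdiff_subset_sdiff
    (Finset.Subset.refl _) (Finset.subset_insert _ _))⟩
  · intro x hx y hy hxy
    rw [Finset.mem_insert] at *
    rcases hy with hy | hy
    · subst hy
      by_cases hxy' : x = y
      · exact Or.inl hxy'
      · right
        by_contra hxI
        have h5 : x < y := lt_of_le_of_ne hxy hxy'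
        have h6 := h4 x (Finset.mem_sdiff.2 ⟨hx, hxI⟩) y (Finset.mem_sdiff.2 ⟨hu, huI⟩) h5
        have h7 := hmin x hx hxy'
        omega
    · exact Or.inr (h2 x hx y hy hxy)
  · intro x hx y hy hxy
    rw [Finset.mem_insert] at *
    rcases hy with hy | hy
    · subst hy
      have hxy' : x ≠ y := ne_of_lt hxy
      apply hmin x _ hxy'
      rcases hx with hx | hx
      · exact absurd hx hxy'
      · exact h1 hx
    · rcases hx with hx | hx
      · subst hx
        exact absurd (h2 x hu y hy hxy.le) huI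
      · exact h3 x hx y hy hxy

theorem splits_sum {ω : P → ℕ} (hω : Function.Injective ω) {Q : Finset P} (hQ : Q.Nonempty) :
    ∑ I ∈ splits ω Q, (-1 : R) ^ I.card = 0 := by
  obtain ⟨u, hu, hmin'⟩ := Finset.exists_min_image Q ω hQ
  have hmin : ∀ x ∈ Q, x ≠ u → ω u < ω x := by
    intro x hx hxu
    exact lt_of_le_of_ne (hmin' x hx) (fun h => hxu (hω h).symm)
  refine Finset.sum_involution (fun I _ => if u ∈ I then I.erase u else insert u I) ?_ ?_ ?_ ?_
  · intro I hI
    split_ifs with h
    · rw [Finset.card_erase_of_mem h]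
      have h1 : 0 < I.card := Finset.card_pos.2 ⟨u, h⟩
      obtain ⟨m, hm⟩ : ∃ m, I.card = m + 1 := ⟨I.card - 1, by omega⟩
      rw [hm, Nat.add_sub_cancel, pow_succ]
      ring
    · rw [Finset.card_insert_of_notMem h, pow_succ]
      ring
  · intro I hI _
    split_ifs with h
    · intro h1
      rw [← h1] at h
      simp at h
    · intro h1
      apply h
      rw [← h1]
      simp
  · intro I hI
    split_ifs with h
    · exact toggle_out hu hmin hI h
    · exact toggle_in hu hmin hI h
  · intro I hI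
    by_cases h : u ∈ I
    · simp only [if_pos h]
      rw [if_neg (by simp), Finset.insert_erase h]
    · simp only [if_neg h]
      rw [if_pos (by simp), Finset.erase_insert h]

/-- The relation between the letters `e` and `h`. -/
theorem he_rel {ω : P → ℕ} (hω : Function.Injective ω) {n : ℕ} (hn : 0 < n) :
    ∑ i ∈ Finset.range (n + 1), (-1 : R) ^ i • (ee R ω i * hh R ω (n - i)) = 0 := by
  ext Q
  rw [Conv.sum_apply, Conv.zero_apply]
  simp only [Conv.smul_apply, Conv.mul_apply, ee_apply, hh_apply]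
  by_cases hQ : Q.card = n
  · have hQ' : Q.Nonempty := Finset.card_pos.1 (by omega)
    refine Eq.trans ?_ (splits_sum (R := R) hω hQ')
    rw [splits, Finset.sum_filter]
    simp only [Finset.mul_sum]
    rw [Finset.sum_comm]
    apply Finset.sum_congr rfl
    intro I hI
    have hIQ := subset_of_mem_idl hI
    have hc := Finset.card_le_card hIQ
    have hc2 := Finset.card_sdiff_of_subset hIQ
    rw [Finset.sum_eq_single I.card]
    · have h0 : (Q \ I).card = n - I.card := by omega
      by_cases h1 : StrictOnly ω I <;> by_cases h2 : WeakOnly ω (Q \ I) <;> simp [h1, h2, h0]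
    · intro i _ hi
      rw [if_neg (fun h => hi h.1.symm)]
      ring
    · intro h
      rw [Finset.mem_range] at h
      omega
  · apply Finset.sum_eq_zero
    intro i hi
    rw [Finset.sum_eq_zero, mul_zero]
    intro I hI
    have hIQ := subset_of_mem_idl hI
    have hc := Finset.card_le_card hIQ
    have hc2 := Finset.card_sdiff_of_subset hIQ
    rw [Finset.mem_range] at hi
    by_cases h1 : I.card = i
    · rw [if_neg (c := (Q \ I).card = n - i ∧ _) (fun h => by omega), mul_zero]
    · rw [if_neg (fun h => h1 h.1), zero_mul]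

theorem ee_mem {ω : P → ℕ} (hω : Function.Injective ω) (n : ℕ) : ee R ω n ∈ HH R ω := by
  induction n using Nat.strong_induction_on with
  | _ n ih =>
    rcases Nat.eq_zero_or_pos n with h | h
    · rw [h, ee_zero]
      exact one_mem _
    · have h1 := he_rel (R := R) hω h
      rw [Finset.sum_range_succ, Nat.sub_self, hh_zero, mul_one] at h1
      have h2 : (-1 : R) ^ n • ee R ω n =
          -∑ i ∈ Finset.range n, (-1 : R) ^ i • (ee R ω i * hh R ω (n - i)) := by
        rw [eq_neg_iff_add_eq_zero, add_comm]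
        exact h1
      have h3 : ee R ω n = (-1 : R) ^ n • ((-1 : R) ^ n • ee R ω n) := by
        rw [smul_smul, ← mul_pow]
        simp
      rw [h3, h2]
      apply Subalgebra.smul_mem
      apply Subalgebra.neg_mem
      apply Subalgebra.sum_mem
      intro i hi
      apply Subalgebra.smul_mem
      exact Subalgebra.mul_mem _ (ih i (Finset.mem_range.1 hi)) (hh_mem ω _)

section fin

variable [Fintype P]

theorem tr_lt_iff (ω : P → ℕ) (x y : P) : tr ω x < tr ω y ↔ ω y < ω x := by
  unfold tr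
  have h1 : ω x ≤ Finset.univ.sup ω := Finset.le_sup (Finset.mem_univ x)
  have h2 : ω y ≤ Finset.univ.sup ω := Finset.le_sup (Finset.mem_univ y)
  omega

theorem tr_injective {ω : P → ℕ} (hω : Function.Injective ω) : Function.Injective (tr ω) := by
  intro x y h
  apply hω
  have h1 := tr_lt_iff ω x y
  have h2 := tr_lt_iff ω y x
  omega

theorem weakOnly_tr (ω : P → ℕ) (I : Finset P) : WeakOnly (tr ω) I ↔ StrictOnly ω I := by
  unfold WeakOnly StrictOnly
  simp only [tr_lt_iff]

theorem strictOnly_tr (ω : P → ℕ) (I : Finset P) : StrictOnly (tr ω) I ↔ WeakOnly ω I := by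
  unfold WeakOnly StrictOnly
  simp only [tr_lt_iff]

theorem hh_tr (ω : P → ℕ) (a : ℕ) : hh R (tr ω) a = ee R ω a := by
  ext I
  rw [hh_apply, ee_apply]
  simp only [weakOnly_tr]

theorem ee_tr (ω : P → ℕ) (a : ℕ) : ee R (tr ω) a = hh R ω a := by
  ext I
  rw [hh_apply, ee_apply]
  simp only [strictOnly_tr]

theorem HH_tr_le {ω : P → ℕ} (hω : Function.Injective ω) : HH R (tr ω) ≤ HH R ω := by
  unfold HH
  apply Algebra.adjoin_le
  rintro _ ⟨a, rfl⟩
  rw [hh_tr]
  exact ee_mem hω a

theorem kap_tr_perm {ω : P → ℕ} (hω : Function.Injective ω) {Q : Finset P} (h : SymW ω Q)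
    {w w' : List ℕ} (hw : w.Perm w') : ∀ A ∈ HH ℤ ω,
    (A * (w.map (ee ℤ ω)).prod) Q = (A * (w'.map (ee ℤ ω)).prod) Q := by
  have hmem : ∀ l : List ℕ, (l.map (ee ℤ ω)).prod ∈ HH ℤ ω := by
    intro l
    apply Subalgebra.list_prod_mem
    intro x hx
    rw [List.mem_map] at hx
    obtain ⟨a, _, rfl⟩ := hx
    exact ee_mem hω a
  induction hw with
  | nil => intro A _; rfl
  | cons a _ ih =>
    intro A hA
    rw [List.map_cons, List.map_cons, List.prod_cons, List.prod_cons, ← mul_assoc, ← mul_assoc]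
    exact ih _ (Subalgebra.mul_mem _ hA (ee_mem hω a))
  | swap a b l =>
    intro A hA
    rw [List.map_cons, List.map_cons, List.map_cons, List.map_cons, List.prod_cons,
      List.prod_cons, List.prod_cons, List.prod_cons, ← mul_assoc, ← mul_assoc, ← mul_assoc,
      ← mul_assoc]
    exact symAt h hA (ee_mem hω b) (ee_mem hω a) (hmem l)
  | trans _ _ ih1 ih2 =>
    intro A hA
    rw [ih1 A hA, ih2 A hA]

theorem symW_tr {ω : P → ℕ} (hω : Function.Injective ω) {Q : Finset P} (h : SymW ω Q) :
    SymW (tr ω) Q := by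
  intro w w' hw
  have h1 := kap_tr_perm hω h hw 1 (one_mem _)
  rw [one_mul, one_mul] at h1
  have h2 : ∀ l : List ℕ, (l.map (ee ℤ ω)).prod Q = (kap (tr ω) Q l : ℤ) := by
    intro l
    rw [← kap_prod (R := ℤ)]
    have h3 : hh ℤ (tr ω) = ee ℤ ω := funext fun a => hh_tr ω a
    rw [h3]
  rw [h2, h2] at h1
  exact_mod_cast h1

theorem k5a : K5a_Stmt := fun _ _ _ _ hω _ h => symW_tr hω h

theorem wCov_tr (ω : P → ℕ) (x y : P) : WCov (tr ω) x y ↔ SCov ω x y := by
  unfold WCov SCov
  rw [tr_lt_iff]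

theorem sCov_tr (ω : P → ℕ) (x y : P) : SCov (tr ω) x y ↔ WCov ω x y := by
  unfold WCov SCov
  rw [tr_lt_iff]

/-- Double transposition is harmless for the symmetry. -/
theorem weakOnly_tr_tr (ω : P → ℕ) (I : Finset P) : WeakOnly (tr (tr ω)) I ↔ WeakOnly ω I := by
  rw [weakOnly_tr, strictOnly_tr]

/-- `kap` depends only on the weak-only sets. -/
theorem kap_congr {ω ω' : P → ℕ} (h : ∀ x y, x < y → (ω x < ω y ↔ ω' x < ω' y)) (Q : Finset P)
    (w : List ℕ) : kap ω Q w = kap ω' Q w := by
  have h1 : ∀ I : Finset P, WeakOnly ω I ↔ WeakOnly ω' I := by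
    intro I
    constructor
    · intro hI x hx y hy hxy
      exact (h x y hxy).1 (hI x hx y hy hxy)
    · intro hI x hx y hy hxy
      exact (h x y hxy).2 (hI x hx y hy hxy)
  induction w generalizing Q with
  | nil => rw [kap_nil, kap_nil]
  | cons a w ih =>
    rw [kap_cons, kap_cons]
    simp only [h1]
    apply Finset.sum_congr rfl
    intro I _
    rw [ih]

theorem symW_of_tr {ω : P → ℕ} (hω : Function.Injective ω) {Q : Finset P}
    (h : SymW (tr ω) Q) : SymW ω Q := by
  have h1 := symW_tr (tr_injective hω) h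
  intro w w' hw
  have h2 := h1 w w' hw
  have h3 : ∀ l : List ℕ, kap (tr (tr ω)) Q l = kap ω Q l := fun l =>
    kap_congr (fun x y _ => (tr_lt_iff (tr ω) x y).trans (tr_lt_iff ω y x)) Q l
  rwa [h3, h3] at h2

theorem locSkewOn_of_tr {ω : P → ℕ} {Q : Finset P} (h : LocSkewOn ω Q) :
    LocSkewOn (tr ω) Q where
  w_lower x hx x' hx' y hy h1 h2 := by
    rw [wCov_tr] at h1 h2
    exact h.s_lower x hx x' hx' y hy h1 h2
  w_upper x hx y hy y' hy' h1 h2 := by
    rw [wCov_tr] at h1 h2
    exact h.s_upper x hx y hy y' hy' h1 h2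
  s_lower x hx x' hx' y hy h1 h2 := by
    rw [sCov_tr] at h1 h2
    exact h.w_lower x hx x' hx' y hy h1 h2
  s_upper x hx y hy y' hy' h1 h2 := by
    rw [sCov_tr] at h1 h2
    exact h.w_upper x hx y hy y' hy' h1 h2
  ws x hx b hb y hy h1 h2 := by
    rw [wCov_tr] at h1
    rw [sCov_tr] at h2
    obtain ⟨c, h3, h4⟩ := h.sw x hx b hb y hy h1 h2
    exact ⟨c, (sCov_tr ω x c).2 h3, (wCov_tr ω c y).2 h4⟩
  sw x hx b hb y hy h1 h2 := by
    rw [sCov_tr] at h1
    rw [wCov_tr] at h2
    obtain ⟨c, h3, h4⟩ := h.ws x hx b hb y hy h1 h2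
    exact ⟨c, (wCov_tr ω x c).2 h3, (sCov_tr ω c y).2 h4⟩

theorem k5c : K5c_Stmt := by
  intro P _ _ ω h
  refine ⟨tr_injective h.inj, symW_tr h.inj h.sym, ?_⟩
  intro Q hQ hc hs
  exact locSkewOn_of_tr (h.min Q hQ hc (symW_of_tr h.inj hs))

end fin

end Pool.Agent.ST14
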