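import Pool.Agent.ST14.FinStmts
import Pool.Agent.ST14.Kap3

/-!
Module FIN_Coef (helper34): the coefficient of `(STAR)` at the level `|R| - (m - 1)`.
-/

set_option autoImplicit false

namespace Pool.Agent.ST14

open scoped Classical

section fin

variable {P : Type} [Fintype P] [PartialOrder P]

theorem finCoef_Tr_sub (ω : P → ℕ) (r : P) : Tr ω r ⊆ factR ω := Finset.filter_subset _ _

/-- The sources whose tree is disjoint from `X`: if `|R \ X| = m - 1` there is at most one. -/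
theorem finCoef_count (hF : FinFor) {ω : P → ℕ} (h : Mini ω)
    (hxw : ∀ i M, XW ω i M → i ∉ factR ω) {m : ℕ} (hm2 : 2 ≤ m)
    (hm : ∀ r, Src ω r → m ≤ (Tr ω r).card + 1) {X : Finset P} (hX : X ⊆ factR ω)
    (hc : (factR ω \ X).card = m - 1) (hI : Finset.univ \ X ∈ idl (Finset.univ : Finset P)) :
    frc ω (factR ω) ≤ frc ω X + 1 ∧
      (frc ω X + 1 ≤ frc ω (factR ω) → ∃ r, Src ω r ∧ Tr ω r = factR ω \ X) := by
  obtain ⟨f1, f2, f3, f4, f5, f6⟩ := hF P ω h hxw
  have hsub : ∀ r, ¬ (∃ e ∈ X, e ∈ Tr ω r) → Tr ω r ⊆ factR ω \ X := by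
    intro r hr e he
    rw [Finset.mem_sdiff]
    exact ⟨finCoef_Tr_sub ω r he, fun heX => hr ⟨e, heX, he⟩⟩
  have hcard : ((Finset.univ.filter fun r => Src ω r) \
      (Finset.univ.filter fun r => Src ω r ∧ ∃ e ∈ X, e ∈ Tr ω r)).card ≤ 1 := by
    rw [Finset.card_le_one]
    intro r hr r' hr'
    rw [Finset.mem_sdiff, Finset.mem_filter, Finset.mem_filter] at hr hr'
    by_contra hne
    have h1 : Src ω r := hr.1.2
    have h1' : Src ω r' := hr'.1.2
    have h2 := hsub r (fun he => hr.2 ⟨Finset.mem_univ _, h1, he⟩)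
    have h2' := hsub r' (fun he => hr'.2 ⟨Finset.mem_univ _, h1', he⟩)
    have hdis : Disjoint (Tr ω r) (Tr ω r') := by
      rw [Finset.disjoint_left]
      intro e he he'
      exact hne (f3 e r r' h1 h1' he he')
    have h3 := Finset.card_le_card (Finset.union_subset h2 h2')
    rw [Finset.card_union_of_disjoint hdis, hc] at h3
    have h4 := hm r h1
    have h4' := hm r' h1'
    omega
  have hle := f5 X hX hI
  have hS : (Finset.univ.filter fun r => Src ω r ∧ ∃ e ∈ X, e ∈ Tr ω r) ⊆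
      (Finset.univ.filter fun r => Src ω r) := by
    intro r hr
    rw [Finset.mem_filter] at hr ⊢
    exact ⟨hr.1, hr.2.1⟩
  have hsum := Finset.card_sdiff_add_card_eq_card hS
  rw [f1] at hsum
  refine ⟨by omega, fun hlt => ?_⟩
  have hpos : 0 < ((Finset.univ.filter fun r => Src ω r) \
      (Finset.univ.filter fun r => Src ω r ∧ ∃ e ∈ X, e ∈ Tr ω r)).card := by omega
  obtain ⟨r, hr⟩ := Finset.card_pos.1 hpos
  rw [Finset.mem_sdiff, Finset.mem_filter, Finset.mem_filter] at hr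
  have h1 : Src ω r := hr.1.2
  refine ⟨r, h1, ?_⟩
  apply Finset.eq_of_subset_of_card_le (hsub r (fun he => hr.2 ⟨Finset.mem_univ _, h1, he⟩))
  rw [hc]
  have := hm r h1
  omega

/-- The complements at the level `|R| - (m - 1)` with `frc R - 1` free elements. -/
theorem finCoef_fltc (hF : FinFor) {ω : P → ℕ} (h : Mini ω)
    (hxw : ∀ i M, XW ω i M → i ∉ factR ω) {m : ℕ} (hm2 : 2 ≤ m)
    (hm : ∀ r, Src ω r → m ≤ (Tr ω r).card + 1)
    (hx : ∀ r, Src ω r → (Tr ω r).card + 1 = m → ∀ i M, XS ω i M → M ∉ Tr ω r)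
    (hpos : 1 ≤ frc ω (factR ω)) (hmR : m - 1 ≤ (factR ω).card) :
    fltc ω ((factR ω).card - (m - 1)) (frc ω (factR ω) - 1) =
      (Finset.univ.filter (fun r => Src ω r ∧ (Tr ω r).card + 1 = m)).image
        (fun r => Finset.univ \ (factR ω \ Tr ω r)) := by
  obtain ⟨f1, f2, f3, f4, f5, f6⟩ := hF P ω h hxw
  ext I
  unfold fltc
  rw [Finset.mem_filter, Finset.mem_image]
  constructor
  · rintro ⟨g1, g2, g3, g4⟩
    have hdd : Finset.univ \ (Finset.univ \ I) = I :=
      Finset.sdiff_sdiff_eq_self (Finset.subset_univ I)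
    have hc : (factR ω \ (Finset.univ \ I)).card = m - 1 := by
      rw [Finset.card_sdiff_of_subset g3, g2]
      omega
    obtain ⟨r, hr1, hr2⟩ := (finCoef_count hF h hxw hm2 hm g3 hc (by rwa [hdd])).2 (by omega)
    refine ⟨r, ?_, ?_⟩
    · rw [Finset.mem_filter]
      refine ⟨Finset.mem_univ _, hr1, ?_⟩
      rw [hr2, hc]
      omega
    · rw [hr2, Finset.sdiff_sdiff_eq_self g3, hdd]
  · rintro ⟨r, hr, rfl⟩
    rw [Finset.mem_filter] at hr
    obtain ⟨-, hr1, hr2⟩ := hr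
    obtain ⟨k1, k2, k3, k4⟩ := f6 r hr1 (hx r hr1 hr2)
    have hdd : Finset.univ \ (Finset.univ \ (factR ω \ Tr ω r)) = factR ω \ Tr ω r :=
      Finset.sdiff_sdiff_eq_self (Finset.subset_univ _)
    refine ⟨k1, ?_, ?_, ?_⟩
    · rw [hdd, Finset.card_sdiff_of_subset (finCoef_Tr_sub ω r)]
      omega
    · rw [hdd]
      exact Finset.sdiff_subset
    · rw [hdd]
      omega

theorem finCoef_inj (hF : FinFor) {ω : P → ℕ} (h : Mini ω)
    (hxw : ∀ i M, XW ω i M → i ∉ factR ω) {r r' : P} (hr : Src ω r) (hr' : Src ω r')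
    (he : Finset.univ \ (factR ω \ Tr ω r) = Finset.univ \ (factR ω \ Tr ω r')) : r = r' := by
  obtain ⟨f1, f2, f3, f4, f5, f6⟩ := hF P ω h hxw
  have h1 : factR ω \ Tr ω r = factR ω \ Tr ω r' := by
    have := congrArg (fun A => Finset.univ \ A) he
    rwa [Finset.sdiff_sdiff_eq_self (Finset.subset_univ _),
      Finset.sdiff_sdiff_eq_self (Finset.subset_univ _)] at this
  have h2 : Tr ω r = Tr ω r' := by
    have := congrArg (fun A => factR ω \ A) h1
    rwa [Finset.sdiff_sdiff_eq_self (finCoef_Tr_sub ω r),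
      Finset.sdiff_sdiff_eq_self (finCoef_Tr_sub ω r')] at this
  exact f3 r r r' hr hr' (f4 r hr) (h2 ▸ f4 r hr)

theorem finCoef_sum (hF : FinFor) {ω : P → ℕ} (h : Mini ω)
    (hxw : ∀ i M, XW ω i M → i ∉ factR ω) {m : ℕ} (hm2 : 2 ≤ m)
    (hm : ∀ r, Src ω r → m ≤ (Tr ω r).card + 1)
    (hx : ∀ r, Src ω r → (Tr ω r).card + 1 = m → ∀ i M, XS ω i M → M ∉ Tr ω r)
    (hpos : 1 ≤ frc ω (factR ω)) (hmR : m - 1 ≤ (factR ω).card) (G : Finset P → ℤ) :
    ∑ I ∈ fltc ω ((factR ω).card - (m - 1)) (frc ω (factR ω) - 1), G I =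
      ∑ r ∈ Finset.univ.filter (fun r => Src ω r ∧ (Tr ω r).card + 1 = m),
        G (Finset.univ \ (factR ω \ Tr ω r)) := by
  rw [finCoef_fltc hF h hxw hm2 hm hx hpos hmR, Finset.sum_image]
  intro r hr r' hr' he
  rw [Finset.mem_coe, Finset.mem_filter] at hr hr'
  exact finCoef_inj hF h hxw hr.2.1 hr'.2.1 he

/-- The lower bound for the number of free elements. -/
theorem finCoef_low (hF : FinFor) {ω : P → ℕ} (h : Mini ω)
    (hxw : ∀ i M, XW ω i M → i ∉ factR ω) {m : ℕ} (hm2 : 2 ≤ m)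
    (hm : ∀ r, Src ω r → m ≤ (Tr ω r).card + 1) (hmR : m - 1 ≤ (factR ω).card) :
    ∀ I ∈ idl (Finset.univ : Finset P), (Finset.univ \ I).card = (factR ω).card - (m - 1) →
      Finset.univ \ I ⊆ factR ω → frc ω (factR ω) - 1 ≤ frc ω (Finset.univ \ I) := by
  intro I g1 g2 g3
  have hdd : Finset.univ \ (Finset.univ \ I) = I :=
    Finset.sdiff_sdiff_eq_self (Finset.subset_univ I)
  have hc : (factR ω \ (Finset.univ \ I)).card = m - 1 := by
    rw [Finset.card_sdiff_of_subset g3, g2]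
    omega
  have := (finCoef_count hF h hxw hm2 hm g3 hc (by rwa [hdd])).1
  omega

end fin

theorem finCoef (hF : FinFor) (hT : FinTr) (h2 : St2) : FinCoef := by
  intro P _ _ ω h hxw hxs m hm2 hm hm' hx hx' F hFF
  have h' : Mini (tr ω) := k5c P ω h
  obtain ⟨t1, t2, t3, t4, -⟩ := hT P ω
  have hxw' : ∀ i M, XW (tr ω) i M → i ∉ factR (tr ω) := fun i M hi => hxs i M ((t4 i M).1 hi)
  have hx'' : ∀ r, Src (tr ω) r → (Tr (tr ω) r).card + 1 = m →
      ∀ i M, XS (tr ω) i M → M ∉ Tr (tr ω) r :=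
    fun r hr hr' i M hi => hx' r hr hr' i M ((t3 i M).1 hi)
  obtain ⟨l1, l2, l3⟩ := starTop_level h2 h
  obtain ⟨f1, f2, f3, f4, f5, f6⟩ := hF P ω h hxw
  obtain ⟨f1', f2', f3', f4', f5', f6'⟩ := hF P (tr ω) h' hxw'
  rcases Nat.eq_zero_or_pos (frc ω (factR ω)) with h0 | hpos
  · have e1 : (Finset.univ.filter fun r => Src ω r) = ∅ := by
      rw [← Finset.card_eq_zero, f1, h0]
    have e2 : (Finset.univ.filter fun r => Src (tr ω) r) = ∅ := by
      rw [← Finset.card_eq_zero, f1', ← l2, h0]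
    rw [Finset.filter_and, Finset.filter_and, e1, e2, Finset.empty_inter, Finset.empty_inter,
      Finset.sum_empty, Finset.sum_empty]
  · have hpos' : 1 ≤ frc (tr ω) (factR (tr ω)) := by rw [← l2]; exact hpos
    have hmR : m - 1 ≤ (factR ω).card := by
      rw [← f1] at hpos
      obtain ⟨r, hr⟩ := Finset.card_pos.1 hpos
      rw [Finset.mem_filter] at hr
      have h3 := hm r hr.2
      have h4 := Finset.card_le_card (finCoef_Tr_sub ω r)
      omega
    have hmR' : m - 1 ≤ (factR (tr ω)).card := by rw [← l1]; exact hmR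
    have hlow' := finCoef_low hF h' hxw' hm2 hm' hmR'
    rw [← l1, ← l2] at hlow'
    have hst := starTop h ((factR ω).card - (m - 1)) (frc ω (factR ω) - 1)
      (finCoef_low hF h hxw hm2 hm hmR) hlow' F hFF
    have s1 := finCoef_sum hF h hxw hm2 hm hx hpos hmR
      (fun I => (-1) ^ (BS ω (Finset.univ \ I)).card * F I)
    have s2 := finCoef_sum hF h' hxw' hm2 hm' hx'' hpos' hmR'
      (fun I => (-1) ^ (TpS ω (Finset.univ \ I)).card * F I)
    rw [← l1, ← l2] at s2
    rw [s1, s2] at hst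
    have hdd : ∀ X : Finset P, Finset.univ \ (Finset.univ \ X) = X := fun X =>
      Finset.sdiff_sdiff_eq_self (Finset.subset_univ _)
    simp only [hdd] at hst
    rw [hst]
    refine Finset.sum_congr rfl fun r _ => ?_
    rw [TpW_tr]

end Pool.Agent.ST14
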