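import Pool.Agent.ST14.RimDefs

/-!
Module statements for sections 1 - 4 of 49bc13_h58.md.
-/

set_option autoImplicit false

namespace Pool.Agent.ST14

open scoped Classical

/-- Values of `psi`: cut lemma (compare `sgm_value`). -/
def PsiVal : Prop := ∀ (P : Type) [PartialOrder P] (ω : P → ℕ), Function.Injective ω →
  ∀ (n : ℕ), psi ω n ∈ HH ℤ ω ∧ ∀ J : Finset P, Skw ω J →
    psi ω n J = if J.card = n ∧ J.Nonempty ∧ (∀ x ∈ J, ∀ y ∈ J, Conn J x y) ∧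
      (∀ x e, ¬ NW ω J x e) then (-1) ^ strc ω J else 0

/-- Elementary geometry of the rims. -/
def RimGeo : Prop := ∀ (P : Type) [PartialOrder P] (ω : P → ℕ), Function.Injective ω →
  ∀ Q : Finset P, Skw ω Q → ∀ T ∈ comps Q,
    (Skw ω T ∧ T ⊆ Q ∧ T.Nonempty ∧ T ∈ idl Q ∧ Q \ T ∈ idl Q) ∧
    (nwrim ω T ∈ idl Q ∧ (nwrim ω T).Nonempty ∧ Skw ω (nwrim ω T) ∧ Skw ω (Q \ nwrim ω T) ∧
      (∀ x ∈ nwrim ω T, ∀ y ∈ nwrim ω T, Conn (nwrim ω T) x y) ∧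
      (∀ x e, ¬ NW ω (nwrim ω T) x e)) ∧
    (Q \ serim ω T ∈ idl Q ∧ (serim ω T).Nonempty ∧ Skw ω (serim ω T) ∧ Skw ω (Q \ serim ω T) ∧
      (∀ x ∈ serim ω T, ∀ y ∈ serim ω T, Conn (serim ω T) x y) ∧
      (∀ x e, ¬ NW ω (serim ω T) x e)) ∧
    (comps (Q \ nwrim ω T) = (comps Q).erase T ∪ comps (T \ nwrim ω T)) ∧
    (comps (Q \ serim ω T) = (comps Q).erase T ∪ comps (T \ serim ω T)) ∧
    (∀ T' ∈ comps (T \ nwrim ω T), (nwrim ω T').card < (nwrim ω T).card) ∧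
    (∀ T' ∈ comps (T \ serim ω T), (serim ω T').card < (serim ω T).card)

/-- Stripping a longest rim with `psi`, from the left (on an ideal `K` of `Q`) and from the right
(on a filter `K` of `Q`). Take `K = Q` for `Q` itself. -/
def Strip : Prop := ∀ (P : Type) [PartialOrder P] (ω : P → ℕ), Function.Injective ω →
  ∀ Q : Finset P, Skw ω Q → ∀ L : ℕ, 0 < L →
    ((∀ T ∈ comps Q, (nwrim ω T).card ≤ L) → ∀ K ∈ idl Q, ∀ F : Conv P ℤ,
      (psi ω L * F) K =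
        ∑ T ∈ (comps Q).filter (fun T => (nwrim ω T).card = L ∧ nwrim ω T ⊆ K),
          (-1) ^ strc ω (nwrim ω T) * F (K \ nwrim ω T)) ∧
    ((∀ T ∈ comps Q, (serim ω T).card ≤ L) → ∀ K, K ⊆ Q → Q \ K ∈ idl Q → ∀ F : Conv P ℤ,
      (F * psi ω L) K =
        ∑ T ∈ (comps Q).filter (fun T => (serim ω T).card = L ∧ serim ω T ⊆ K),
          (-1) ^ strc ω (serim ω T) * F (K \ serim ω T))

/-- The partition `lam`. -/
def LamStmt : Prop := ∀ (P : Type) [PartialOrder P] (ω : P → ℕ), Function.Injective ω →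
  ∀ Q : Finset P, Skw ω Q →
    IsLam ω Q (lam ω Q) ∧ (∀ l, IsLam ω Q l → l = lam ω Q) ∧
    (lam ω Q).Pairwise (· ≥ ·) ∧ (∀ a ∈ lam ω Q, 0 < a) ∧ (lam ω Q).sum = Q.card ∧
    (∀ T ∈ comps Q, (lam ω Q).Perm ((nwrim ω T).card :: lam ω (Q \ nwrim ω T))) ∧
    (∀ L l, lam ω Q = L :: l → (∀ T ∈ comps Q, (nwrim ω T).card ≤ L) ∧
      ((comps Q).filter (fun T => (nwrim ω T).card = L)).card = (lam ω Q).count L ∧
      ∀ T ∈ comps Q, (nwrim ω T).card = L → lam ω (Q \ nwrim ω T) = l)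

/-- The sign `eps`. -/
def EpsStmt : Prop := ∀ (P : Type) [PartialOrder P] (ω : P → ℕ), Function.Injective ω →
  ∀ Q : Finset P, Skw ω Q → ∀ T ∈ comps Q,
    eps ω Q = (-1) ^ strc ω (nwrim ω T) * eps ω (Q \ nwrim ω T)

/-- The top monomial. `<` on lists is the lexicographic order. -/
def TopStmt : Prop := ∀ (P : Type) [PartialOrder P] (ω : P → ℕ), Function.Injective ω →
  ∀ Q : Finset P, Skw ω Q →
    (∀ μ : List ℕ, (∀ a ∈ μ, 0 < a) → lam ω Q < μ → psiW ω μ Q = 0) ∧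
    psiW ω (lam ω Q) Q = eps ω Q * (mlt (lam ω Q) : ℤ) ∧ 0 < mlt (lam ω Q)

/-- Skew shapes are symmetric. -/
def SymSkw : Prop := ∀ (P : Type) [PartialOrder P] (ω : P → ℕ), Function.Injective ω →
  ∀ Q : Finset P, Skw ω Q → SymW ω Q

/-- The two rims. -/
def SEStmt : Prop := ∀ (P : Type) [PartialOrder P] (ω : P → ℕ), Function.Injective ω →
  ∀ Q : Finset P, Skw ω Q → ∀ T ∈ comps Q,
    (serim ω T).card = (nwrim ω T).card ∧
    ((-1 : ℤ) ^ strc ω (serim ω T) = (-1) ^ strc ω (nwrim ω T)) ∧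
    (∀ F ∈ HH ℤ ω, F (Q \ serim ω T) = F (Q \ nwrim ω T)) ∧
    lam ω (Q \ serim ω T) = lam ω (Q \ nwrim ω T) ∧
    eps ω (Q \ serim ω T) = eps ω (Q \ nwrim ω T)

/-- The depth is the same in the `A`-order and in the `C`-order. -/
def DepthStmt : Prop := ∀ (P : Type) [Fintype P] [PartialOrder P] (ω : P → ℕ), Mini ω →
  ∀ N S : P → P, Net ω N S → ∀ V ∈ good ω N, ∀ W ∈ good ω N, V ⊆ W →
    Skw ω (W \ V) ∧ Skw ω ((W \ V).image N) ∧
    (∀ e ∈ W \ V, ∀ w, NW ω (W \ V) w e → NW ω ((W \ V).image N) (N w) (N e)) ∧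
    (∀ e ∈ W \ V, ∀ z, NW ω ((W \ V).image N) z (N e) → ∃ w, z = N w ∧ NW ω (W \ V) w e) ∧
    eps ω ((W \ V).image N) = eps ω (W \ V)

/-- Theorem RP. -/
def RPStmt : Prop := ∀ (P : Type) [Fintype P] [PartialOrder P] (ω : P → ℕ), Mini ω →
  ∀ N S : P → P, Net ω N S → ∀ V W : Finset P, Reach ω N S V W →
    V ∈ good ω N ∧ W ∈ good ω N ∧ V ⊆ W ∧ lam ω ((W \ V).image N) = lam ω (W \ V)

/-- The STAR facts (F1 of the note; the others by `tr` and `rv`). -/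
def FactStmt : Prop := ∀ (P : Type) [Fintype P] [PartialOrder P] (ω : P → ℕ), Mini ω →
  ∀ x b y : P, Merger ω x b y → (∃ c, SCov ω x c) ∧
    ((∀ b' y', ¬ Splitter ω x b' y') → ∀ c d, SCov ω x c → ¬ SCov ω c d)

/-- Theorem Q. -/
def QStmt : Prop := ∀ (P : Type) [Fintype P] [PartialOrder P] (ω : P → ℕ), Mini ω →
  ∀ N S : P → P, Net ω N S → ∀ V W : Finset P, Reach ω N S V W →
    (∀ x b' y', Splitter ω x b' y' → b' ∈ W \ V → y' ∈ W \ V →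
      ∃ x₂ b y, Merger ω x₂ b y ∧ S x₂ ∈ W \ V ∧ y ∈ W \ V ∧ E0c ω (W \ V) b' y) ∧
    (∀ x₂ b y, Merger ω x₂ b y → x₂ ∈ CC ω → S x₂ ∈ W \ V → y ∈ W \ V →
      ∃ x b' y', Splitter ω x b' y' ∧ b' ∈ W \ V ∧ y' ∈ W \ V ∧ E0c ω (W \ V) y b')

/-- Free components have no extras. -/
def FreeStmt : Prop := ∀ (P : Type) [Fintype P] [PartialOrder P] (ω : P → ℕ), Mini ω →
  ∀ N S : P → P, Net ω N S → ∀ B ∈ comps (AA ω),
    (∀ x b' y', Splitter ω x b' y' → b' ∉ B) →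
    (∀ x b y, Merger ω x b y → y ∉ B ∧ (x ∈ CC ω → S x ∉ B)) →
    ∀ i M, SCov ω i M → i ≠ N M → M ∉ B ∧ S i ∉ B

end Pool.Agent.ST14
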