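import Pool.Agent.ST14.Dom
import Pool.Agent.ST14.RimStmts

/-!
Section 5.3: in a minimal symmetric poset which is not locally skew, no union of components is
locally skew.
-/

set_option autoImplicit false

namespace Pool.Agent.ST14

open scoped Classical

/-- No union of components is locally skew. -/
theorem no_comp (hS : SymSkw) (P : Type) [Fintype P] [PartialOrder P] (ω : P → ℕ) (hM : Mini ω)
    (hP : ¬ LocSkew ω) (G : Finset P) (hne : G.Nonempty)
    (hG : ∀ x ∈ G, ∀ y, y ∉ G → ¬ x ≤ y ∧ ¬ y ≤ x) : ¬ LocSkewOn ω G := by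
  intro hL
  have hcvx : Cvx G := by
    intro x hx z hz y hxy hyz
    by_contra hy
    exact (hG x hx y hy).1 hxy
  have hsymG : SymW ω G := hS P ω hM.inj G ⟨hcvx, hL⟩
  have hsym := dom_sdiff P ω Finset.univ G (Finset.subset_univ _)
    (fun x hx y hy => hG x hx y (Finset.mem_sdiff.1 hy).2) hM.sym hsymG
  have hcvx2 : Cvx (Finset.univ \ G) := by
    intro x hx z hz y hxy hyz
    rw [Finset.mem_sdiff] at *
    refine ⟨Finset.mem_univ _, fun hy => ?_⟩
    exact (hG y hy x hx.2).2 hxy
  have hneq : Finset.univ \ G ≠ Finset.univ := by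
    intro h
    obtain ⟨x, hx⟩ := hne
    have : x ∈ Finset.univ \ G := by
      rw [h]
      exact Finset.mem_univ _
    exact (Finset.mem_sdiff.1 this).2 hx
  have hL2 := hM.min _ hneq hcvx2 hsym
  have key : ∀ x y : P, x ≤ y → (x ∈ G ↔ y ∈ G) := by
    intro x y hxy
    constructor
    · intro hx
      by_contra hy
      exact (hG x hx y hy).1 hxy
    · intro hy
      by_contra hx
      exact (hG y hy x hx).2 hxy
  have keyn : ∀ x y : P, x ≤ y → (x ∈ Finset.univ \ G ↔ y ∈ Finset.univ \ G) := by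
    intro x y hxy
    rw [Finset.mem_sdiff, Finset.mem_sdiff, key x y hxy]
    simp
  have hmem : ∀ x : P, x ∉ G → x ∈ Finset.univ \ G := fun x hx =>
    Finset.mem_sdiff.2 ⟨Finset.mem_univ _, hx⟩
  apply hP
  constructor
  · intro x x' y h1 h2
    by_cases hy : y ∈ G
    · exact hL.w_lower x ((key x y h1.1.le).2 hy) x' ((key x' y h2.1.le).2 hy) y hy h1 h2
    · have hy := hmem y hy
      exact hL2.w_lower x ((keyn x y h1.1.le).2 hy) x' ((keyn x' y h2.1.le).2 hy) y hy h1 h2
  · intro x y y' h1 h2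
    by_cases hx : x ∈ G
    · exact hL.w_upper x hx y ((key x y h1.1.le).1 hx) y' ((key x y' h2.1.le).1 hx) h1 h2
    · have hx := hmem x hx
      exact hL2.w_upper x hx y ((keyn x y h1.1.le).1 hx) y' ((keyn x y' h2.1.le).1 hx) h1 h2
  · intro x x' y h1 h2
    by_cases hy : y ∈ G
    · exact hL.s_lower x ((key x y h1.1.le).2 hy) x' ((key x' y h2.1.le).2 hy) y hy h1 h2
    · have hy := hmem y hy
      exact hL2.s_lower x ((keyn x y h1.1.le).2 hy) x' ((keyn x' y h2.1.le).2 hy) y hy h1 h2
  · intro x y y' h1 h2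
    by_cases hx : x ∈ G
    · exact hL.s_upper x hx y ((key x y h1.1.le).1 hx) y' ((key x y' h2.1.le).1 hx) h1 h2
    · have hx := hmem x hx
      exact hL2.s_upper x hx y ((keyn x y h1.1.le).1 hx) y' ((keyn x y' h2.1.le).1 hx) h1 h2
  · intro x b y h1 h2
    by_cases hx : x ∈ G
    · have hb := (key x b h1.1.le).1 hx
      exact hL.ws x hx b hb y ((key b y h2.1.le).1 hb) h1 h2
    · have hx := hmem x hx
      have hb := (keyn x b h1.1.le).1 hx
      exact hL2.ws x hx b hb y ((keyn b y h2.1.le).1 hb) h1 h2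
  · intro x b y h1 h2
    by_cases hx : x ∈ G
    · have hb := (key x b h1.1.le).1 hx
      exact hL.sw x hx b hb y ((key b y h2.1.le).1 hb) h1 h2
    · have hx := hmem x hx
      have hb := (keyn x b h1.1.le).1 hx
      exact hL2.sw x hx b hb y ((keyn b y h2.1.le).1 hb) h1 h2

end Pool.Agent.ST14
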