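import Pool.Agent.ST14.FinStmts
import Pool.Agent.ST14.NoComp
import Pool.Agent.ST14.St1

/-!
Module FinEnd (helper89): the region of a source ends in some `x_b` or `y_b`.
-/

set_option autoImplicit false

namespace Pool.Agent.ST14

open scoped Classical

section finEndAux

variable {P : Type} [Fintype P] [PartialOrder P]

/-- an element with a strict lower cover is in `A` -/
theorem FinEnd_mem_AA {ω : P → ℕ} {x u : P} (h : SCov ω x u) : u ∈ AA ω :=
  mem_AA.2 ⟨x, LL_of_sCov le_rfl h le_rfl⟩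

theorem FinEnd_not_min {ω : P → ℕ} {u : P} (h : u ∈ AA ω) : ¬ IsMin u := by
  obtain ⟨x, hx⟩ := mem_AA.1 h
  exact fun hm => hm.not_lt hx.lt

/-- A set which is closed under covers in both directions is a union of components. -/
theorem FinEnd_closed {G : Finset P} (h : ∀ x y : P, x ⋖ y → (x ∈ G ↔ y ∈ G)) :
    ∀ x ∈ G, ∀ y, y ∉ G → ¬ x ≤ y ∧ ¬ y ≤ x := by
  letI : LocallyFiniteOrder P := Fintype.toLocallyFiniteOrder
  have key : ∀ x y : P, x ≤ y → (x ∈ G ↔ y ∈ G) := by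
    intro x y hxy
    have h1 := le_iff_reflTransGen_covBy.1 hxy
    induction h1 with
    | refl => exact Iff.rfl
    | tail h2 h3 ih => exact (ih (le_iff_reflTransGen_covBy.2 h2)).trans (h _ _ h3)
  intro x hx y hy
  exact ⟨fun hxy => hy ((key x y hxy).1 hx), fun hyx => hy ((key y x hyx).2 hx)⟩

end finEndAux

theorem finEnd (hN : FinNet) (hT : FinTr) (hL : FinLink) (hG : FinReg) (h51 : Fin51)
    (hQ : QStmt) (hS : SymSkw) (h7 : St7) : FinEnd := by
  intro P _ _ ω hM hP r hr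
  by_contra hcon
  rw [not_or] at hcon
  obtain ⟨hX, hY⟩ := hcon
  have hMt : Mini (tr ω) := k5c P ω hM
  obtain ⟨t1, t2, t3, t4, t5, t6, t7, -, -, -, -, -, -, -, -⟩ := hT P ω
  obtain ⟨-, hreg⟩ := hG P ω hM
  obtain ⟨g1, g2, g3, -, -, -, -, -⟩ := hreg r hr
  obtain ⟨n1, -, -, n4, n5, n6, n7, -, -⟩ := hN P ω hM
  obtain ⟨m1, -, -, m4, m5, m6, m7, -, -⟩ := hN P (tr ω) hMt
  set G := Rg ω r with hGdef
  have hrG : r ∈ G := by
    rw [hGdef, Rg, Finset.mem_filter]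
    exact ⟨Finset.mem_univ _, Relation.ReflTransGen.refl⟩
  -- `x_b`, `y_b` are not in `G`
  have hXG : ∀ x b y, Merger ω x b y → x ∉ G := fun x b y h hx => hX ⟨x, hx, b, y, h⟩
  have hYG : ∀ x b y, Merger ω x b y → y ∉ G := fun x b y h hy => hY ⟨y, hy, x, b, h⟩
  -- facts on mergers and splitters
  have hmer : ∀ x b y, Merger ω x b y → IsMin x ∧ IsMax y ∧ ¬ IsMin b ∧ ¬ IsMax b :=
    fun x b y h => ⟨(hL P ω hM x b y h).1.1, (hL P ω hM x b y h).1.2.1,
      (hL P ω hM x b y h).1.2.2.1, (hL P ω hM x b y h).1.2.2.2.1⟩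
  have hspl : ∀ x b y, Splitter ω x b y → IsMin x ∧ IsMax y ∧ ¬ IsMin b ∧ ¬ IsMax b := by
    intro x b y h
    have h' := (hL P (tr ω) hMt x b y ((t5 x b y).2 h)).1
    exact ⟨h'.1, h'.2.1, h'.2.2.1, h'.2.2.2.1⟩
  have hsplA : ∀ x b y, Splitter ω x b y → b ∈ AA ω ∧ y ∈ AA ω := by
    intro x b y h
    obtain ⟨-, -, -, -, ⟨d, hd, -⟩, -⟩ := hL P (tr ω) hMt x b y ((t5 x b y).2 h)
    exact ⟨FinEnd_mem_AA h.1, FinEnd_mem_AA ((t2 d y).1 hd).1⟩
  -- weak covers
  have hw : ∀ x u, WCov ω x u → RW ω x u ∨ XW ω x u := by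
    intro x u h
    rcases m6 x u ((sCov_tr ω x u).2 h) with h1 | h1
    · exact Or.inl ((t1 x u).1 h1)
    · exact Or.inr ((t3 x u).1 h1)
  -- no splitter `b'` in `G`
  have hBG : ∀ x b y, Splitter ω x b y → b ∉ G := by
    intro x b' y' h hb
    obtain ⟨N, S, hNS⟩ := h7 P ω hM
    obtain ⟨hb'A, hy'A⟩ := hsplA x b' y' h
    obtain ⟨x₂, b, y, hme, -, -, hE⟩ := (hQ P ω hM N S hNS ∅ (AA ω) Reach.start).1 x b' y' h
      (by rw [Finset.sdiff_empty]; exact hb'A) (by rw [Finset.sdiff_empty]; exact hy'A)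
    rw [Finset.sdiff_empty] at hE
    have hstep : ∀ v w, E0 ω (AA ω) v w → v ∈ G → w ∈ G := by
      rintro v w ⟨⟨hvA, hwA, hvw⟩, hs1, hs2⟩ hv
      have hvm := FinEnd_not_min hvA
      have hwm := FinEnd_not_min hwA
      rcases hvw with hvw | hvw
      · rcases cov_cases hM.inj hvw with hc | hc
        · rcases hw v w hc with h1 | h1
          · refine (g1 v w (Or.inr ⟨h1, ?_, ?_⟩)).1 hv
            · exact fun y₁ hy₁ => hvm (hmer _ _ _ hy₁).1
            · exact fun x₁ hx₁ => hs1 ⟨x₁, hx₁⟩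
          · exact absurd h1.2.1 hvm
        · rcases n6 v w hc with h1 | h1
          · refine (g1 w v (Or.inl ⟨h1, ?_, ?_⟩)).2 hv
            · exact fun y₁ hy₁ => hvm (hspl _ _ _ hy₁).1
            · exact fun x₁ hx₁ => g2 _ _ _ hx₁ hv
          · exact absurd h1.2.1 hvm
      · rcases cov_cases hM.inj hvw with hc | hc
        · rcases hw w v hc with h1 | h1
          · refine (g1 w v (Or.inr ⟨h1, ?_, ?_⟩)).2 hv
            · exact fun y₁ hy₁ => hwm (hmer _ _ _ hy₁).1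
            · exact fun x₁ hx₁ => hs2 ⟨x₁, hx₁⟩
          · exact absurd h1.2.1 hwm
        · rcases n6 w v hc with h1 | h1
          · refine (g1 v w (Or.inl ⟨h1, ?_, ?_⟩)).1 hv
            · exact fun y₁ hy₁ => hwm (hspl _ _ _ hy₁).1
            · exact fun x₁ hx₁ => hYG _ _ _ hx₁ hv
          · exact absurd h1.2.1 hwm
    have hall : ∀ w, E0c ω (AA ω) b' w → w ∈ G := by
      intro w hw'
      induction hw' with
      | refl => exact hb
      | tail _ h2 ih => exact hstep _ _ h2 ih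
    exact hYG x₂ b y hme (hall y hE)
  -- no extras at `G`
  have hxs : ∀ i M, XS ω i M → i ∉ G ∧ M ∉ G := by
    intro i M h
    obtain ⟨hMG, h2⟩ := h51 P ω hM G g1 (fun x b y h => ⟨g2 x b y h, hYG x b y h⟩)
      (fun x b y h => ⟨hBG x b y h, (g3 x b y h).2⟩) i M h
    refine ⟨fun hi => ?_, hMG⟩
    obtain ⟨-, -, -, -, -, -, -, n8, -⟩ := hN P ω hM
    obtain ⟨-, -, -, q, -, hq⟩ := n8 i M h
    have hqG := h2 hXG q hq
    refine hqG ((g1 q i (Or.inl ⟨hq, ?_, ?_⟩)).2 hi)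
    · exact fun y₁ hy₁ => (g3 _ _ _ hy₁).1 hi
    · exact fun x₁ hx₁ => g2 _ _ _ hx₁ hi
  have hxw : ∀ i M, XW ω i M → i ∉ G ∧ M ∉ G := by
    intro i M h
    obtain ⟨hMG, h2⟩ := h51 P (tr ω) hMt G
      (fun a b hab => (g1 b a ((t7 a b).1 hab)).symm)
      (fun x b y h => ⟨hBG x b y ((t5 x b y).1 h), (g3 x b y ((t5 x b y).1 h)).2⟩)
      (fun x b y h => ⟨g2 x b y ((t6 x b y).1 h), hYG x b y ((t6 x b y).1 h)⟩)
      i M ((t3 i M).2 h)
    refine ⟨fun hi => ?_, hMG⟩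
    obtain ⟨-, -, -, -, -, -, -, n8, -⟩ := hN P (tr ω) hMt
    obtain ⟨-, -, -, q, -, hq⟩ := n8 i M ((t3 i M).2 h)
    have hqG := h2 (fun x b y h => (g3 x b y ((t5 x b y).1 h)).1) q hq
    refine hqG ((g1 i q (Or.inr ⟨(t1 i q).1 hq, ?_, ?_⟩)).1 hi)
    · exact fun y₁ hy₁ => hXG _ _ _ hy₁ hi
    · exact fun x₁ hx₁ => hBG _ _ _ hx₁ hi
  -- `G` is closed under covers
  have hcl : ∀ x y : P, x ⋖ y → (x ∈ G ↔ y ∈ G) := by
    intro x y hxy
    rcases cov_cases hM.inj hxy with hc | hc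
    · rcases hw x y hc with h1 | h1
      · constructor
        · intro hx
          refine (g1 x y (Or.inr ⟨h1, ?_, ?_⟩)).1 hx
          · exact fun y₁ hy₁ => hXG _ _ _ hy₁ hx
          · exact fun x₁ hx₁ => hBG _ _ _ hx₁ hx
        · intro hy
          refine (g1 x y (Or.inr ⟨h1, ?_, ?_⟩)).2 hy
          · exact fun y₁ hy₁ => g2 _ _ _ hy₁ hy
          · exact fun x₁ hx₁ => (g3 _ _ _ hx₁).2 hy
      · exact ⟨fun hx => absurd hx (hxw x y h1).1, fun hy => absurd hy (hxw x y h1).2⟩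
    · rcases n6 x y hc with h1 | h1
      · constructor
        · intro hx
          refine (g1 y x (Or.inl ⟨h1, ?_, ?_⟩)).2 hx
          · exact fun y₁ hy₁ => (g3 _ _ _ hy₁).1 hx
          · exact fun x₁ hx₁ => g2 _ _ _ hx₁ hx
        · intro hy
          refine (g1 y x (Or.inl ⟨h1, ?_, ?_⟩)).1 hy
          · exact fun y₁ hy₁ => hBG _ _ _ hy₁ hy
          · exact fun x₁ hx₁ => hYG _ _ _ hx₁ hy
      · exact ⟨fun hx => absurd hx (hxs x y h1).1, fun hy => absurd hy (hxs x y h1).2⟩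
  -- regular covers at `G`
  have hrs : ∀ x u, x ∈ G → SCov ω x u → RS ω x u := by
    intro x u hx h
    rcases n6 x u h with h1 | h1
    · exact h1
    · exact absurd hx (hxs x u h1).1
  have hrw : ∀ x u, x ∈ G → WCov ω x u → RS (tr ω) x u := by
    intro x u hx h
    rcases hw x u h with h1 | h1
    · exact (t1 x u).2 h1
    · exact absurd hx (hxw x u h1).1
  have hloc : LocSkewOn ω G := by
    constructor
    · intro x hx x' hx' y hy h1 h2
      exact m4 x x' y (hrw x y hx h1) (hrw x' y hx' h2)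
    · intro x hx y hy y' hy' h1 h2
      exact m5 x y y' (hrw x y hx h1) (hrw x y' hx h2)
    · intro x hx x' hx' y hy h1 h2
      exact n4 x x' y (hrs x y hx h1) (hrs x' y hx' h2)
    · intro x hx y hy y' hy' h1 h2
      exact n5 x y y' (hrs x y hx h1) (hrs x y' hx h2)
    · intro x hx b hb y hy h1 h2
      by_contra h3
      exact g2 x b y ⟨h1, h2, h3⟩ hb
    · intro x hx b hb y hy h1 h2
      by_contra h3
      exact hBG x b y ⟨h1, h2, h3⟩ hb
  exact no_comp hS P ω hM hP G ⟨r, hrG⟩ (FinEnd_closed hcl) hloc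

end Pool.Agent.ST14
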