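import Pool.Agent.ST14.FinStmts

/-!
Module F: the forest of `factR ω` (section 5 of 49bc13_h58.md).
-/

set_option autoImplicit false

namespace Pool.Agent.ST14

open scoped Classical

section fin

variable {P : Type} [Fintype P] [PartialOrder P]

theorem ff_mem_Tr {ω : P → ℕ} {r e : P} :
    e ∈ Tr ω r ↔ e ∈ factR ω ∧ Relation.ReflTransGen (Fl ω) e r := by
  unfold Tr
  rw [Finset.mem_filter]

/-- The facts on regular covers which are used for the forest. -/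
structure FFdat (ω : P → ℕ) : Prop where
  rs_cov : ∀ x u, RS ω x u → SCov ω x u
  rw_cov : ∀ x u, RW ω x u → WCov ω x u
  rs_uniq : ∀ x u u', RS ω x u → RS ω x u' → u = u'
  rw_uniq : ∀ x x' u, RW ω x u → RW ω x' u → x = x'
  rw_uniq' : ∀ x u u', RW ω x u → RW ω x u' → u = u'
  rs_ex : ∀ x u, SCov ω x u → ∃ u', RS ω x u'
  rw_ex : ∀ x u, WCov ω x u → ∃ x', RW ω x' u
  rs_or : ∀ x u, SCov ω x u → RS ω x u ∨ XS ω x u
  rw_or : ∀ x u, WCov ω x u → RW ω x u ∨ XW ω x u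
  rw_reg : ∀ x u, WCov ω x u → ¬ IsMax u → RW ω x u
  cov : ∀ x y : P, x ⋖ y → WCov ω x y ∨ SCov ω x y

theorem ff_dat (hN : FinNet) (hT : FinTr) {ω : P → ℕ} (h : Mini ω) : FFdat ω := by
  obtain ⟨n1, n2, n3, n4, n5, n6, n7, _⟩ := hN P ω h
  obtain ⟨m1, m2, m3, m4, m5, m6, m7, _⟩ := hN P (tr ω) (k5c P ω h)
  obtain ⟨t1, _, t3, _⟩ := hT P ω
  refine ⟨fun x u hx => (n1 x u hx).1, fun x u hx => ?_, n5, fun x x' u hx hx' => ?_,
    fun x u u' hx hx' => ?_, fun x u hx => ?_, fun x u hx => ?_, n6, fun x u hx => ?_,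
    fun x u hx hu => ?_, fun x y hxy => ?_⟩
  · exact (sCov_tr ω x u).1 (m1 x u ((t1 x u).2 hx)).1
  · exact m4 x x' u ((t1 x u).2 hx) ((t1 x' u).2 hx')
  · exact m5 x u u' ((t1 x u).2 hx) ((t1 x u').2 hx')
  · apply n3
    unfold CC
    rw [Finset.mem_filter]
    exact ⟨Finset.mem_univ x, u, x, u, le_rfl, hx.1.lt, le_rfl, hx.2⟩
  · have hm : u ∈ AA (tr ω) := by
      unfold AA
      rw [Finset.mem_filter]
      refine ⟨Finset.mem_univ u, x, x, u, le_rfl, hx.1.lt, le_rfl, ?_⟩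
      exact (tr_lt_iff ω u x).2 hx.2
    obtain ⟨x', hx'⟩ := m2 u hm
    exact ⟨x', (t1 x' u).1 hx'⟩
  · rcases m6 x u ((sCov_tr ω x u).2 hx) with h1 | h1
    · exact Or.inl ((t1 x u).1 h1)
    · exact Or.inr ((t3 x u).1 h1)
  · exact (t1 x u).1 (m7 x u ((sCov_tr ω x u).2 hx) (fun hh => hu hh.2))
  · have hne : ω x ≠ ω y := fun he => hxy.lt.ne (h.inj he)
    rcases lt_or_gt_of_ne hne with h1 | h1
    · exact Or.inl ⟨hxy, h1⟩
    · exact Or.inr ⟨hxy, h1⟩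

variable {ω : P → ℕ}

theorem ff_det (hd : FFdat ω) : Relator.RightUnique (Fl ω) := by
  intro e a b ha hb
  obtain ⟨he, haR, ha⟩ := ha
  obtain ⟨_, hbR, hb⟩ := hb
  rcases ha with ha | ha <;> rcases hb with hb | hb
  · exact hd.rs_uniq e a b ha hb
  · exact absurd (hd.rs_cov e a ha) (fact_mem_R.1 hbR b e a le_rfl (hd.rw_cov b e hb))
  · exact absurd (hd.rs_cov e b hb) (fact_mem_R.1 haR a e b le_rfl (hd.rw_cov a e ha))
  · exact hd.rw_uniq a b e ha hb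

theorem ff_lt (hd : FFdat ω) {e e' : P} (h : Fl ω e e') : ω e' < ω e := by
  obtain ⟨_, _, h | h⟩ := h
  · exact (hd.rs_cov e e' h).2
  · exact (hd.rw_cov e' e h).2

theorem ff_src_no (hd : FFdat ω) {r : P} (hr : Src ω r) (e : P) : ¬ Fl ω r e := by
  rintro ⟨_, _, h | h⟩
  · exact hr.1 e (hd.rs_cov r e h)
  · exact hr.2 e (hd.rw_cov e r h)

/-- The elements of `R` without strict upper cover and without weak lower cover in `R`. -/
theorem ff_src_of (hd : FFdat ω) (hRR : Finset.univ \ factR ω = Intr ω ∪ Xm ω) {e : P}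
    (h1 : ∀ u, ¬ SCov ω e u) (h2 : ∀ z ∈ factR ω, ¬ WCov ω z e) : Src ω e := by
  refine ⟨h1, fun z hz => ?_⟩
  obtain ⟨w, hw⟩ := hd.rw_ex z e hz
  have hwR : w ∉ factR ω := fun hh => h2 w hh (hd.rw_cov w e hw)
  have hw2 : w ∈ Intr ω ∪ Xm ω := by
    rw [← hRR, Finset.mem_sdiff]
    exact ⟨Finset.mem_univ w, hwR⟩
  rw [Finset.mem_union] at hw2
  rcases hw2 with hw2 | hw2
  · unfold Intr at hw2
    rw [Finset.mem_filter] at hw2
    obtain ⟨_, q, _, _, ⟨g, _, hg1, hg2⟩, _⟩ := hw2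
    have hgm : ¬ IsMax g := fun hm => (hg2.1.lt).not_ge (hm hg2.1.le)
    have := hd.rw_uniq' w e g hw (hd.rw_reg w g hg1 hgm)
    rw [this] at h1
    exact h1 q hg2
  · unfold Xm at hw2
    rw [Finset.mem_filter] at hw2
    obtain ⟨_, b, y, hb, hy, _⟩ := hw2
    have hgm : ¬ IsMax b := fun hm => (hy.1.lt).not_ge (hm hy.1.le)
    have := hd.rw_uniq' w e b hw (hd.rw_reg w b hb hgm)
    rw [this] at h1
    exact h1 y hy

theorem ff_step (hd : FFdat ω) (hRR : Finset.univ \ factR ω = Intr ω ∪ Xm ω) {e : P}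
    (he : e ∈ factR ω) : Src ω e ∨ ∃ e', Fl ω e e' := by
  by_cases h1 : ∃ u, SCov ω e u
  · obtain ⟨u, hu⟩ := h1
    obtain ⟨u', hu'⟩ := hd.rs_ex e u hu
    exact Or.inr ⟨u', he, fact_R_up he (hd.rs_cov e u' hu').1.le, Or.inl hu'⟩
  by_cases h2 : ∃ z ∈ factR ω, RW ω z e
  · obtain ⟨z, hz, hze⟩ := h2
    exact Or.inr ⟨z, he, hz, Or.inr hze⟩
  left
  refine ⟨fun u hu => h1 ⟨u, hu⟩, fun z hz => ?_⟩
  obtain ⟨w, hw⟩ := hd.rw_ex z e hz
  have hwR : w ∉ factR ω := fun hh => h2 ⟨w, hh, hw⟩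
  have hw2 : w ∈ Intr ω ∪ Xm ω := by
    rw [← hRR, Finset.mem_sdiff]
    exact ⟨Finset.mem_univ w, hwR⟩
  rw [Finset.mem_union] at hw2
  rcases hw2 with hw2 | hw2
  · unfold Intr at hw2
    rw [Finset.mem_filter] at hw2
    obtain ⟨_, q, _, _, ⟨g, _, hg1, hg2⟩, _⟩ := hw2
    have hgm : ¬ IsMax g := fun hm => (hg2.1.lt).not_ge (hm hg2.1.le)
    have := hd.rw_uniq' w e g hw (hd.rw_reg w g hg1 hgm)
    rw [this] at h1
    exact h1 ⟨q, hg2⟩
  · unfold Xm at hw2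
    rw [Finset.mem_filter] at hw2
    obtain ⟨_, b, y, hb, hy, _⟩ := hw2
    have hgm : ¬ IsMax b := fun hm => (hy.1.lt).not_ge (hm hy.1.le)
    have := hd.rw_uniq' w e b hw (hd.rw_reg w b hb hgm)
    rw [this] at h1
    exact h1 ⟨y, hy⟩

theorem ff_root (hd : FFdat ω) (hRR : Finset.univ \ factR ω = Intr ω ∪ Xm ω) :
    ∀ n (e : P), ω e = n → e ∈ factR ω → ∃ r, Src ω r ∧ e ∈ Tr ω r := by
  intro n
  induction n using Nat.strong_induction_on with
  | _ n ih =>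
    intro e hn he
    rcases ff_step hd hRR he with h1 | ⟨e', h1⟩
    · exact ⟨e, h1, ff_mem_Tr.2 ⟨he, Relation.ReflTransGen.refl⟩⟩
    · obtain ⟨r, hr, hr2⟩ := ih (ω e') (hn ▸ ff_lt hd h1) e' rfl h1.2.1
      exact ⟨r, hr, ff_mem_Tr.2 ⟨he, Relation.ReflTransGen.head h1 (ff_mem_Tr.1 hr2).2⟩⟩

theorem ff_src_end (hd : FFdat ω) {r e : P} (hr : Src ω r)
    (h : Relation.ReflTransGen (Fl ω) r e) : r = e := by
  rcases Relation.ReflTransGen.cases_head h with h1 | ⟨c, h1, _⟩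
  · exact h1
  · exact absurd h1 (ff_src_no hd hr c)

theorem ff_uniq (hd : FFdat ω) {e r r' : P} (hr : Src ω r) (hr' : Src ω r') (h : e ∈ Tr ω r)
    (h' : e ∈ Tr ω r') : r = r' := by
  rcases Relation.ReflTransGen.total_of_right_unique (ff_det hd) (ff_mem_Tr.1 h).2
    (ff_mem_Tr.1 h').2 with h1 | h1
  · exact ff_src_end hd hr h1
  · exact (ff_src_end hd hr' h1).symm

/-- Trees are closed under the flow. -/
theorem ff_fwd (hd : FFdat ω) {e u r : P} (hr : Src ω r) (h : e ∈ Tr ω r) (hu : Fl ω e u) :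
    u ∈ Tr ω r := by
  rcases Relation.ReflTransGen.cases_head (ff_mem_Tr.1 h).2 with h1 | ⟨c, h1, h2⟩
  · rw [h1] at hu
    exact absurd hu (ff_src_no hd hr u)
  · have := ff_det hd h1 hu
    rw [this] at h2
    exact ff_mem_Tr.2 ⟨hu.2.1, h2⟩

theorem ff_bwd {e u r : P} (h : u ∈ Tr ω r) (hu : Fl ω e u) : e ∈ Tr ω r :=
  ff_mem_Tr.2 ⟨hu.1, Relation.ReflTransGen.head hu (ff_mem_Tr.1 h).2⟩

theorem ff_mem_BS {X : Finset P} {x : P} : x ∈ BS ω X ↔ x ∈ X ∧ ∃ y ∈ X, SCov ω x y := by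
  unfold BS
  rw [Finset.mem_filter]

theorem ff_mem_TpW {X : Finset P} {y : P} : y ∈ TpW ω X ↔ y ∈ X ∧ ∃ x ∈ X, WCov ω x y := by
  unfold TpW
  rw [Finset.mem_filter]

/-- The number of free elements, as a cardinality. -/
theorem ff_frc {X : Finset P} (hX : Finset.univ \ X ∈ idl (Finset.univ : Finset P))
    (hXR : X ⊆ factR ω) : frc ω X = (X \ (BS ω X ∪ TpW ω X)).card := by
  have hdj := (fact_disj_iff (ω := ω) hX).2 hXR
  have h1 : BS ω X ⊆ X := fun x hx => (ff_mem_BS.1 hx).1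
  have h2 : TpW ω X ⊆ X := fun x hx => (ff_mem_TpW.1 hx).1
  unfold frc
  rw [Finset.card_sdiff_of_subset (Finset.union_subset h1 h2), Finset.card_union_of_disjoint
    hdj.symm]
  omega

theorem ff_up {X : Finset P} (hX : Finset.univ \ X ∈ idl (Finset.univ : Finset P)) {x y : P}
    (hx : x ∈ X) (hxy : x ≤ y) : y ∈ X := by
  by_contra hy
  have := (mem_idl.1 hX).2 x (Finset.mem_univ x) y (Finset.mem_sdiff.2 ⟨Finset.mem_univ y, hy⟩) hxy
  exact (Finset.mem_sdiff.1 this).2 hx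

theorem ff_idl_of {X : Finset P} (hX : ∀ x ∈ X, ∀ y, x ⋖ y → y ∈ X) :
    Finset.univ \ X ∈ idl (Finset.univ : Finset P) := by
  have key : ∀ (y : P), y ∉ X → ∀ x, x ≤ y → x ∉ X := by
    intro y hy x hxy hx
    have hwf := Finite.to_wellFoundedGT (α := P)
    induction x using (wellFounded_gt (α := P)).induction with
    | _ x ih =>
      rcases hxy.eq_or_lt with h1 | h1
      · exact hy (h1 ▸ hx)
      · obtain ⟨z, hz1, hz2⟩ := exists_cov_between h1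
        exact ih z hz1.lt hz2 (hX x hx z hz1)
  rw [mem_idl]
  refine ⟨Finset.subset_univ _, fun x _ y hy hxy => ?_⟩
  rw [Finset.mem_sdiff] at hy ⊢
  exact ⟨Finset.mem_univ x, key y hy.2 x hxy⟩

theorem ff_free_R (hd : FFdat ω) (hRR : Finset.univ \ factR ω = Intr ω ∪ Xm ω)
    (hsr : ∀ r, Src ω r → r ∈ factR ω) :
    factR ω \ (BS ω (factR ω) ∪ TpW ω (factR ω)) = Finset.univ.filter fun r => Src ω r := by
  ext e
  rw [Finset.mem_sdiff, Finset.mem_union, Finset.mem_filter, ff_mem_BS, ff_mem_TpW]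
  constructor
  · rintro ⟨he, h1⟩
    refine ⟨Finset.mem_univ e, ff_src_of hd hRR (fun u hu => h1 (Or.inl ⟨he, u, ?_, hu⟩))
      (fun z hz hze => h1 (Or.inr ⟨he, z, hz, hze⟩))⟩
    exact fact_R_up he hu.1.le
  · rintro ⟨_, h1⟩
    refine ⟨hsr e h1, ?_⟩
    rintro (⟨_, u, _, hu⟩ | ⟨_, z, _, hz⟩)
    · exact h1.1 u hu
    · exact h1.2 z hz

end fin

theorem finFor (hN : FinNet) (hT : FinTr) (hRR : FinRR) : FinFor := by
  intro P _ _ ω h hX
  have hd := ff_dat hN hT h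
  obtain ⟨r1, _, _, _, r5, _⟩ := hRR P ω h
  refine ⟨?_, fun e he => ff_root hd r1 (ω e) e rfl he, fun e r r' hr hr' h1 h2 =>
    ff_uniq hd hr hr' h1 h2, fun r hr => ff_mem_Tr.2 ⟨r5 r hr, Relation.ReflTransGen.refl⟩, ?_, ?_⟩
  · rw [← ff_free_R hd r1 r5, ff_frc (fact_sdiff_R_idl ω) (Finset.Subset.refl _)]
  · intro X hXR hXi
    rw [ff_frc hXi hXR]
    have key : ∀ r, Src ω r → (∃ e ∈ X, e ∈ Tr ω r) →
        ∃ e, e ∈ X \ (BS ω X ∪ TpW ω X) ∧ e ∈ Tr ω r := by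
      rintro r hr ⟨e₀, he₀, he₀r⟩
      obtain ⟨e, he, hmin⟩ := Finset.exists_min_image (X ∩ Tr ω r) ω
        ⟨e₀, Finset.mem_inter.2 ⟨he₀, he₀r⟩⟩
      rw [Finset.mem_inter] at he
      refine ⟨e, ?_, he.2⟩
      rw [Finset.mem_sdiff, Finset.mem_union, ff_mem_BS, ff_mem_TpW]
      refine ⟨he.1, ?_⟩
      rintro (⟨_, u, _, hu⟩ | ⟨_, z, hz, hze⟩)
      · obtain ⟨u', hu'⟩ := hd.rs_ex e u hu
        have hle := (hd.rs_cov e u' hu').1.le
        have hfl : Fl ω e u' := ⟨hXR he.1, fact_R_up (hXR he.1) hle, Or.inl hu'⟩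
        have := hmin u' (Finset.mem_inter.2 ⟨ff_up hXi he.1 hle, ff_fwd hd hr he.2 hfl⟩)
        have h3 := ff_lt hd hfl
        omega
      · rcases hd.rw_or z e hze with h1 | h1
        · have hfl : Fl ω e z := ⟨hXR he.1, hXR hz, Or.inr h1⟩
          have := hmin z (Finset.mem_inter.2 ⟨hz, ff_fwd hd hr he.2 hfl⟩)
          have h3 := ff_lt hd hfl
          omega
        · exact hX z e h1 (hXR hz)
    choose! g hg1 hg2 using key
    apply Finset.card_le_card_of_injOn g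
    · intro r hr
      have hr' := (Finset.mem_filter.1 (Finset.mem_coe.1 hr)).2
      exact Finset.mem_coe.2 (hg1 r hr'.1 hr'.2)
    · intro r hr r' hr' hgg
      have h1 := (Finset.mem_filter.1 (Finset.mem_coe.1 hr)).2
      have h2 := (Finset.mem_filter.1 (Finset.mem_coe.1 hr')).2
      apply ff_uniq hd h1.1 h2.1 (hg2 r h1.1 h1.2)
      rw [hgg]
      exact hg2 r' h2.1 h2.2
  · intro r hr hM
    have hXR : factR ω \ Tr ω r ⊆ factR ω := Finset.sdiff_subset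
    have hcov : ∀ x ∈ factR ω \ Tr ω r, ∀ y, x ⋖ y → y ∈ factR ω \ Tr ω r := by
      intro x hx y hxy
      rw [Finset.mem_sdiff] at hx ⊢
      refine ⟨fact_R_up hx.1 hxy.le, fun hy => hx.2 ?_⟩
      rcases hd.cov x y hxy with h1 | h1
      · rcases hd.rw_or x y h1 with h2 | h2
        · exact ff_fwd hd hr hy ⟨fact_R_up hx.1 hxy.le, hx.1, Or.inr h2⟩
        · exact absurd hx.1 (hX x y h2)
      · rcases hd.rs_or x y h1 with h2 | h2
        · exact ff_bwd hy ⟨hx.1, fact_R_up hx.1 hxy.le, Or.inl h2⟩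
        · exact absurd hy (hM x y h2)
    have hXi := ff_idl_of hcov
    have hBS : BS ω (factR ω \ Tr ω r) = BS ω (factR ω) \ Tr ω r := by
      ext e
      rw [Finset.mem_sdiff, ff_mem_BS, ff_mem_BS, Finset.mem_sdiff]
      constructor
      · rintro ⟨⟨h1, h2⟩, u, hu, hu2⟩
        exact ⟨⟨h1, u, (Finset.mem_sdiff.1 hu).1, hu2⟩, h2⟩
      · rintro ⟨⟨h1, u, hu, hu2⟩, h2⟩
        exact ⟨⟨h1, h2⟩, u, hcov e (Finset.mem_sdiff.2 ⟨h1, h2⟩) u hu2.1, hu2⟩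
    have hTW : TpW ω (factR ω \ Tr ω r) = TpW ω (factR ω) \ Tr ω r := by
      ext e
      rw [Finset.mem_sdiff, ff_mem_TpW, ff_mem_TpW, Finset.mem_sdiff]
      constructor
      · rintro ⟨⟨h1, h2⟩, u, hu, hu2⟩
        exact ⟨⟨h1, u, (Finset.mem_sdiff.1 hu).1, hu2⟩, h2⟩
      · rintro ⟨⟨h1, u, hu, hu2⟩, h2⟩
        refine ⟨⟨h1, h2⟩, u, Finset.mem_sdiff.2 ⟨hu, fun h3 => h2 ?_⟩, hu2⟩
        rcases hd.rw_or u e hu2 with h4 | h4
        · exact ff_bwd h3 ⟨h1, hu, Or.inr h4⟩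
        · exact absurd hu (hX u e h4)
    refine ⟨hXi, ?_, hBS, hTW⟩
    rw [ff_frc hXi hXR, ff_frc (fact_sdiff_R_idl ω) (Finset.Subset.refl _), hBS, hTW]
    have e1 : (factR ω \ Tr ω r) \ (BS ω (factR ω) \ Tr ω r ∪ TpW ω (factR ω) \ Tr ω r) =
        (factR ω \ (BS ω (factR ω) ∪ TpW ω (factR ω))).erase r := by
      rw [ff_free_R hd r1 r5]
      have e2 := ff_free_R hd r1 r5
      ext e
      rw [Finset.mem_erase, Finset.mem_sdiff, Finset.mem_union, Finset.mem_sdiff, Finset.mem_sdiff,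
        Finset.mem_sdiff]
      have e3 : e ∈ factR ω \ (BS ω (factR ω) ∪ TpW ω (factR ω)) ↔
        e ∈ Finset.univ.filter fun r => Src ω r := by rw [e2]
      rw [Finset.mem_sdiff, Finset.mem_union] at e3
      constructor
      · rintro ⟨⟨h1, h2⟩, h3⟩
        have h4 : ¬ (e ∈ BS ω (factR ω) ∨ e ∈ TpW ω (factR ω)) := by
          rintro (h5 | h5)
          · exact h3 (Or.inl ⟨h5, h2⟩)
          · exact h3 (Or.inr ⟨h5, h2⟩)
        refine ⟨fun h5 => h2 ?_, e3.1 ⟨h1, h4⟩⟩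
        rw [h5]
        exact ff_mem_Tr.2 ⟨r5 r hr, Relation.ReflTransGen.refl⟩
      · rintro ⟨h1, h2⟩
        have h3 := (Finset.mem_filter.1 h2).2
        obtain ⟨h4, h5⟩ := e3.2 h2
        refine ⟨⟨h4, fun h6 => h1 (ff_src_end hd h3 (ff_mem_Tr.1 h6).2)⟩, ?_⟩
        rintro (h6 | h6)
        · exact h5 (Or.inl h6.1)
        · exact h5 (Or.inr h6.1)
    rw [e1, Finset.card_erase_of_mem]
    · have hpos : 0 < (factR ω \ (BS ω (factR ω) ∪ TpW ω (factR ω))).card := by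
        rw [ff_free_R hd r1 r5, Finset.card_pos]
        exact ⟨r, Finset.mem_filter.2 ⟨Finset.mem_univ r, hr⟩⟩
      omega
    · rw [ff_free_R hd r1 r5]
      exact Finset.mem_filter.2 ⟨Finset.mem_univ r, hr⟩

end Pool.Agent.ST14
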