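import Pool.Agent.ST14.RimStmts

/-!
Module ST_PsiVal: the values of `psi n` on convex locally skew sets (cut lemma).
-/

set_option autoImplicit false

namespace Pool.Agent.ST14

open scoped Classical

section psival

variable {P : Type} [PartialOrder P]

theorem PsiVal_exists_cov {J : Finset P} (hJ : Cvx J) {x y : P} (hx : x ∈ J) (hy : y ∈ J)
    (hxy : x < y) : ∃ z ∈ J, x ⋖ z ∧ z ≤ y := by
  have hne : (J.filter fun z => x < z ∧ z ≤ y).Nonempty :=
    ⟨y, Finset.mem_filter.2 ⟨hy, hxy, le_rfl⟩⟩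
  obtain ⟨z, hz, hmin⟩ := Finset.exists_minimal hne
  rw [Finset.mem_filter] at hz
  refine ⟨z, hz.1, ⟨hz.2.1, ?_⟩, hz.2.2⟩
  intro c hxc hcz
  have hc : c ∈ J.filter fun z => x < z ∧ z ≤ y :=
    Finset.mem_filter.2 ⟨hJ x hx z hz.1 c hxc.le hcz.le, hxc, hcz.le.trans hz.2.2⟩
  exact absurd (hmin hc hcz.le) hcz.not_ge

theorem PsiVal_strictOnly_iff {ω : P → ℕ} (hω : Function.Injective ω) {I : Finset P}
    (hI : Cvx I) : StrictOnly ω I ↔ ∀ x ∈ I, ∀ y ∈ I, ¬ WCov ω x y := by
  constructor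
  · intro h x hx y hy hxy
    have := h x hx y hy hxy.1.lt
    exact absurd hxy.2 (by omega)
  · intro h x hx y hy hxy
    have key : ∀ a : ↥I, a.1 < y → ω y < ω a.1 := by
      intro a
      induction a using (wellFounded_gt (α := ↥I)).induction with
      | _ a ih =>
        intro hay
        obtain ⟨z, hz, haz, hzy⟩ := PsiVal_exists_cov hI a.2 hy hay
        have h1 : ω z < ω a.1 := by
          rcases lt_trichotomy (ω a.1) (ω z) with h2 | h2 | h2
          · exact absurd ⟨haz, h2⟩ (h a.1 a.2 z hz)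
          · exact absurd (hω h2) haz.lt.ne
          · exact h2
        rcases eq_or_lt_of_le hzy with h2 | h2
        · rw [← h2]
          exact h1
        · exact (ih ⟨z, hz⟩ haz.lt h2).trans h1
    exact key ⟨x, hx⟩ hxy

theorem PsiVal_weakOnly_iff {ω : P → ℕ} (hω : Function.Injective ω) {I : Finset P}
    (hI : Cvx I) : WeakOnly ω I ↔ ∀ x ∈ I, ∀ y ∈ I, ¬ SCov ω x y := by
  constructor
  · intro h x hx y hy hxy
    have := h x hx y hy hxy.1.lt
    exact absurd hxy.2 (by omega)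
  · intro h x hx y hy hxy
    have key : ∀ a : ↥I, a.1 < y → ω a.1 < ω y := by
      intro a
      induction a using (wellFounded_gt (α := ↥I)).induction with
      | _ a ih =>
        intro hay
        obtain ⟨z, hz, haz, hzy⟩ := PsiVal_exists_cov hI a.2 hy hay
        have h1 : ω a.1 < ω z := by
          rcases lt_trichotomy (ω a.1) (ω z) with h2 | h2 | h2
          · exact h2
          · exact absurd (hω h2) haz.lt.ne
          · exact absurd ⟨haz, h2⟩ (h a.1 a.2 z hz)
        rcases eq_or_lt_of_le hzy with h2 | h2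
        · rw [← h2]
          exact h1
        · exact h1.trans (ih ⟨z, hz⟩ haz.lt h2)
    exact key ⟨x, hx⟩ hxy

theorem PsiVal_cvx_idl {X I : Finset P} (hX : Cvx X) (hI : I ∈ idl X) : Cvx I := by
  rw [mem_idl] at hI
  intro x hx z hz y hxy hyz
  exact hI.2 y (hX x (hI.1 hx) z (hI.1 hz) y hxy hyz) z hz hyz

theorem PsiVal_cvx_sdiff {X I : Finset P} (hX : Cvx X) (hI : I ∈ idl X) : Cvx (X \ I) := by
  rw [mem_idl] at hI
  intro x hx z hz y hxy hyz
  rw [Finset.mem_sdiff] at *
  have hy := hX x hx.1 z hz.1 y hxy hyz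
  exact ⟨hy, fun h => hx.2 (hI.2 x hx.1 y h hxy)⟩

theorem PsiVal_mem_splits_iff {ω : P → ℕ} (hω : Function.Injective ω) {X : Finset P}
    (hX : Cvx X) {I : Finset P} :
    I ∈ splits ω X ↔ I ⊆ X ∧ BS ω X ⊆ I ∧ Disjoint (TpW ω X) I := by
  unfold splits
  rw [Finset.mem_filter]
  constructor
  · rintro ⟨hI, h1, h2⟩
    rw [PsiVal_strictOnly_iff hω (PsiVal_cvx_idl hX hI)] at h1
    rw [PsiVal_weakOnly_iff hω (PsiVal_cvx_sdiff hX hI)] at h2
    rw [mem_idl] at hI
    refine ⟨hI.1, ?_, ?_⟩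
    · intro x hx
      unfold BS at hx
      rw [Finset.mem_filter] at hx
      obtain ⟨hxX, y, hy, hxy⟩ := hx
      by_contra hxI
      have hyI : y ∉ I := fun h => hxI (hI.2 x hxX y h hxy.1.lt.le)
      exact h2 x (Finset.mem_sdiff.2 ⟨hxX, hxI⟩) y (Finset.mem_sdiff.2 ⟨hy, hyI⟩) hxy
    · rw [Finset.disjoint_left]
      intro y hy hyI
      unfold TpW at hy
      rw [Finset.mem_filter] at hy
      obtain ⟨hyX, x, hx, hxy⟩ := hy
      exact h1 x (hI.2 x hx y hyI hxy.1.lt.le) y hyI hxy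
  · rintro ⟨h1, h2, h3⟩
    rw [Finset.disjoint_left] at h3
    have hcov : ∀ x ∈ X, ∀ y ∈ I, x ⋖ y → x ∈ I := by
      intro x hx y hy hxy
      rcases lt_trichotomy (ω x) (ω y) with h4 | h4 | h4
      · exfalso
        apply h3 _ hy
        unfold TpW
        rw [Finset.mem_filter]
        exact ⟨h1 hy, x, hx, hxy, h4⟩
      · exact absurd (hω h4) hxy.lt.ne
      · apply h2
        unfold BS
        rw [Finset.mem_filter]
        exact ⟨hx, y, h1 hy, hxy, h4⟩
    have hI : I ∈ idl X := by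
      rw [mem_idl]
      refine ⟨h1, ?_⟩
      intro x hx y hy hxy
      have key : ∀ a : ↥X, a.1 ≤ y → a.1 ∈ I := by
        intro a
        induction a using (wellFounded_gt (α := ↥X)).induction with
        | _ a ih =>
          intro hay
          rcases eq_or_lt_of_le hay with h4 | h4
          · rw [h4]
            exact hy
          · obtain ⟨z, hz, haz, hzy⟩ := PsiVal_exists_cov hX a.2 (h1 hy) h4
            exact hcov a.1 a.2 z (ih ⟨z, hz⟩ haz.lt hzy) haz
      exact key ⟨x, hx⟩ hxy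
    refine ⟨hI, ?_, ?_⟩
    · rw [PsiVal_strictOnly_iff hω (PsiVal_cvx_idl hX hI)]
      intro x hx y hy hxy
      apply h3 _ hy
      unfold TpW
      rw [Finset.mem_filter]
      exact ⟨h1 hy, x, h1 hx, hxy⟩
    · rw [PsiVal_weakOnly_iff hω (PsiVal_cvx_sdiff hX hI)]
      intro x hx y hy hxy
      rw [Finset.mem_sdiff] at hx hy
      apply hx.2
      apply h2
      unfold BS
      rw [Finset.mem_filter]
      exact ⟨hx.1, y, hy.1, hxy⟩

/-- `psi` as a signed sum over the splittings. -/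
theorem PsiVal_apply (ω : P → ℕ) (n : ℕ) (X : Finset P) :
    psi ω n X = if X.card = n then
      ∑ I ∈ splits ω X, (-1 : ℤ) ^ I.card * ((X \ I).card : ℤ) else 0 := by
  unfold psi
  rw [Conv.sum_apply]
  have hsm : ∀ j : ℕ, (((-1 : ℤ) ^ (n - j) * (j : ℤ)) • (ee ℤ ω (n - j) * hh ℤ ω j)) X =
      ((-1 : ℤ) ^ (n - j) * (j : ℤ)) * (ee ℤ ω (n - j) * hh ℤ ω j) X := by
    intro j
    exact Conv.smul_apply _ _ _
  simp only [hsm, Conv.mul_apply, ee_apply, hh_apply]
  split_ifs with hX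
  · rw [splits, Finset.sum_filter]
    simp only [Finset.mul_sum]
    rw [Finset.sum_comm]
    apply Finset.sum_congr rfl
    intro I hI
    have hIQ := subset_of_mem_idl hI
    have hc := Finset.card_le_card hIQ
    have hc2 := Finset.card_sdiff_of_subset hIQ
    rw [Finset.sum_eq_single (X \ I).card]
    · have h0 : I.card = n - (X \ I).card := by omega
      by_cases h1 : StrictOnly ω I <;> by_cases h2 : WeakOnly ω (X \ I) <;>
        simp [h1, h2, ← h0]
    · intro i _ hi
      rw [if_neg (c := (X \ I).card = i ∧ _) (fun h => hi h.1.symm)]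
      ring
    · intro h
      rw [Finset.mem_range] at h
      omega
  · apply Finset.sum_eq_zero
    intro i hi
    rw [Finset.sum_eq_zero, mul_zero]
    intro I hI
    have hIQ := subset_of_mem_idl hI
    have hc := Finset.card_le_card hIQ
    have hc2 := Finset.card_sdiff_of_subset hIQ
    rw [Finset.mem_range] at hi
    by_cases h1 : (X \ I).card = i
    · rw [if_neg (fun h => by omega), zero_mul]
    · rw [if_neg (c := (X \ I).card = i ∧ _) (fun h => h1 h.1), mul_zero]

/-- The free elements. -/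
noncomputable def PsiVal_free (ω : P → ℕ) (X : Finset P) : Finset P := (X \ BS ω X) \ TpW ω X

theorem PsiVal_free_nonempty (ω : P → ℕ) (X : Finset P) (hX : X.Nonempty) :
    (PsiVal_free ω X).Nonempty := by
  obtain ⟨u, hu, hmin⟩ := Finset.exists_min_image X ω hX
  refine ⟨u, ?_⟩
  unfold PsiVal_free BS TpW
  rw [Finset.mem_sdiff, Finset.mem_sdiff, Finset.mem_filter, Finset.mem_filter]
  refine ⟨⟨hu, ?_⟩, ?_⟩
  · rintro ⟨_, y, hy, hxy⟩
    have := hmin y hy
    have := hxy.2
    omega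
  · rintro ⟨_, y, hy, hxy⟩
    have := hmin y hy
    have := hxy.2
    omega

omit [PartialOrder P] in
/-- Signed sums over the subsets. -/
theorem PsiVal_sum_powerset (F : Finset P) (c : ℤ) :
    ∑ K ∈ F.powerset, (-1 : ℤ) ^ K.card * (c - (K.card : ℤ)) =
      if F.card = 0 then c else if F.card = 1 then 1 else 0 := by
  induction F using Finset.induction_on generalizing c with
  | empty => simp
  | insert a F ha ih =>
    rw [Finset.sum_powerset_insert ha]
    have h1 : ∀ K ∈ F.powerset, (-1 : ℤ) ^ (insert a K).card * (c - ((insert a K).card : ℤ)) =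
        -((-1 : ℤ) ^ K.card * ((c - 1) - (K.card : ℤ))) := by
      intro K hK
      rw [Finset.mem_powerset] at hK
      rw [Finset.card_insert_of_notMem (fun h => ha (hK h)), pow_succ]
      push_cast
      ring
    rw [Finset.sum_congr rfl h1, Finset.sum_neg_distrib, ih c, ih (c - 1),
      Finset.card_insert_of_notMem ha]
    by_cases h0 : F.card = 0
    · simp [h0]
    · by_cases h1 : F.card = 1
      · simp [h1]
      · simp [h0, h1]

/-- The value on a convex set. -/
theorem PsiVal_value {ω : P → ℕ} (hω : Function.Injective ω) {X : Finset P} (hX : Cvx X)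
    (n : ℕ) : psi ω n X = if X.card = n ∧ Disjoint (TpW ω X) (BS ω X) ∧
      (PsiVal_free ω X).card = 1 then (-1 : ℤ) ^ (BS ω X).card else 0 := by
  rw [PsiVal_apply]
  by_cases hn : X.card = n
  swap
  · rw [if_neg hn, if_neg (fun h => hn h.1)]
  rw [if_pos hn]
  by_cases hd : Disjoint (TpW ω X) (BS ω X)
  swap
  · rw [if_neg (fun h => hd h.2.1)]
    have h1 : splits ω X = ∅ := by
      rw [Finset.eq_empty_iff_forall_notMem]
      intro I hI
      rw [PsiVal_mem_splits_iff hω hX] at hI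
      apply hd
      exact hI.2.2.mono_right hI.2.1
    rw [h1, Finset.sum_empty]
  have hBX : BS ω X ⊆ X := Finset.filter_subset _ _
  have hFX : PsiVal_free ω X ⊆ X := by
    unfold PsiVal_free
    exact Finset.sdiff_subset.trans Finset.sdiff_subset
  have hFB : Disjoint (BS ω X) (PsiVal_free ω X) := by
    rw [Finset.disjoint_left]
    intro x hx hxF
    unfold PsiVal_free at hxF
    rw [Finset.mem_sdiff, Finset.mem_sdiff] at hxF
    exact hxF.1.2 hx
  have h1 : splits ω X = (PsiVal_free ω X).powerset.image (fun J => BS ω X ∪ J) := by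
    ext I
    rw [PsiVal_mem_splits_iff hω hX, Finset.mem_image]
    constructor
    · rintro ⟨h1, h2, h3⟩
      refine ⟨I \ BS ω X, ?_, Finset.union_sdiff_of_subset h2⟩
      rw [Finset.mem_powerset]
      intro x hx
      rw [Finset.mem_sdiff] at hx
      unfold PsiVal_free
      rw [Finset.mem_sdiff, Finset.mem_sdiff]
      exact ⟨⟨h1 hx.1, hx.2⟩, fun h => Finset.disjoint_left.1 h3 h hx.1⟩
    · rintro ⟨J, hJ, rfl⟩
      rw [Finset.mem_powerset] at hJ
      refine ⟨Finset.union_subset hBX (hJ.trans hFX), Finset.subset_union_left, ?_⟩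
      rw [Finset.disjoint_union_right]
      refine ⟨hd, ?_⟩
      rw [Finset.disjoint_left]
      intro x hx hxJ
      have := hJ hxJ
      unfold PsiVal_free at this
      exact (Finset.mem_sdiff.1 this).2 hx
  have hdis : ∀ J ∈ (PsiVal_free ω X).powerset, Disjoint (BS ω X) J := by
    intro J hJ
    rw [Finset.mem_powerset] at hJ
    exact hFB.mono_right hJ
  have hinj : Set.InjOn (fun J => BS ω X ∪ J) ((PsiVal_free ω X).powerset : Set (Finset P)) := by
    intro J hJ J' hJ' h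
    have hJ2 := hdis J (Finset.mem_coe.1 hJ)
    have hJ2' := hdis J' (Finset.mem_coe.1 hJ')
    have h4 : ∀ K : Finset P, Disjoint (BS ω X) K → (BS ω X ∪ K) \ BS ω X = K := by
      intro K hK
      rw [Finset.union_sdiff_left, Finset.sdiff_eq_self_iff_disjoint]
      exact hK.symm
    have h5 : BS ω X ∪ J = BS ω X ∪ J' := h
    rw [← h4 J hJ2, ← h4 J' hJ2', h5]
  rw [h1, Finset.sum_image hinj]
  have h2 : ∀ J ∈ (PsiVal_free ω X).powerset,
      (-1 : ℤ) ^ (BS ω X ∪ J).card * ((X \ (BS ω X ∪ J)).card : ℤ) =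
      (-1 : ℤ) ^ (BS ω X).card * ((-1 : ℤ) ^ J.card *
        (((n : ℤ) - (BS ω X).card) - (J.card : ℤ))) := by
    intro J hJ
    have hJd := hdis J hJ
    rw [Finset.mem_powerset] at hJ
    have hsub : BS ω X ∪ J ⊆ X := Finset.union_subset hBX (hJ.trans hFX)
    have hc := Finset.card_le_card hsub
    rw [Finset.card_sdiff_of_subset hsub, Nat.cast_sub hc, Finset.card_union_of_disjoint hJd,
      pow_add, hn]
    push_cast
    ring
  rw [Finset.sum_congr rfl h2, ← Finset.mul_sum, PsiVal_sum_powerset]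
  by_cases hX0 : X.Nonempty
  · have h3 := PsiVal_free_nonempty ω X hX0
    have h4 : (PsiVal_free ω X).card ≠ 0 := by
      rw [Ne, Finset.card_eq_zero]
      exact h3.ne_empty
    rw [if_neg h4]
    by_cases h5 : (PsiVal_free ω X).card = 1
    · rw [if_pos h5, if_pos ⟨hn, hd, h5⟩, mul_one]
    · rw [if_neg h5, if_neg (fun h => h5 h.2.2), mul_zero]
  · rw [Finset.not_nonempty_iff_eq_empty] at hX0
    subst hX0
    have h6 : PsiVal_free ω (∅ : Finset P) = ∅ := by
      rw [← Finset.subset_empty]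
      exact hFX
    have h7 : BS ω (∅ : Finset P) = ∅ := by
      rw [← Finset.subset_empty]
      exact hBX
    rw [Finset.card_empty] at hn
    rw [h6, h7]
    simp [← hn]

/-- The parent relation. -/
def PsiVal_par (ω : P → ℕ) (J : Finset P) (e f : P) : Prop :=
  e ∈ J ∧ f ∈ J ∧ (SCov ω e f ∨ WCov ω f e)

theorem PsiVal_par_lt {ω : P → ℕ} {J : Finset P} {e f : P} (h : PsiVal_par ω J e f) :
    ω f < ω e := by
  rcases h.2.2 with h | h
  · exact h.2
  · exact h.2

theorem PsiVal_par_adj {ω : P → ℕ} {J : Finset P} {e f : P} (h : PsiVal_par ω J e f) :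
    Adj J e f := by
  refine ⟨h.1, h.2.1, ?_⟩
  rcases h.2.2 with h | h
  · exact Or.inl h.1
  · exact Or.inr h.1

theorem PsiVal_adj_par {ω : P → ℕ} (hω : Function.Injective ω) {J : Finset P} {e f : P}
    (h : Adj J e f) : PsiVal_par ω J e f ∨ PsiVal_par ω J f e := by
  obtain ⟨he, hf, h⟩ := h
  rcases h with h | h
  · rcases lt_trichotomy (ω e) (ω f) with h2 | h2 | h2
    · exact Or.inr ⟨hf, he, Or.inr ⟨h, h2⟩⟩
    · exact absurd (hω h2) h.lt.ne
    · exact Or.inl ⟨he, hf, Or.inl ⟨h, h2⟩⟩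
  · rcases lt_trichotomy (ω f) (ω e) with h2 | h2 | h2
    · exact Or.inl ⟨he, hf, Or.inr ⟨h, h2⟩⟩
    · exact absurd (hω h2) h.lt.ne
    · exact Or.inr ⟨hf, he, Or.inl ⟨h, h2⟩⟩

theorem PsiVal_mem_free_iff {ω : P → ℕ} {J : Finset P} {e : P} :
    e ∈ PsiVal_free ω J ↔ e ∈ J ∧ ∀ f, ¬ PsiVal_par ω J e f := by
  unfold PsiVal_free BS TpW
  rw [Finset.mem_sdiff, Finset.mem_sdiff, Finset.mem_filter, Finset.mem_filter]
  constructor
  · rintro ⟨⟨he, h1⟩, h2⟩
    refine ⟨he, ?_⟩
    rintro f ⟨_, hf, h | h⟩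
    · exact h1 ⟨he, f, hf, h⟩
    · exact h2 ⟨he, f, hf, h⟩
  · rintro ⟨he, h⟩
    refine ⟨⟨he, ?_⟩, ?_⟩
    · rintro ⟨_, f, hf, h1⟩
      exact h f ⟨he, hf, Or.inl h1⟩
    · rintro ⟨_, f, hf, h1⟩
      exact h f ⟨he, hf, Or.inr h1⟩

/-- Every element is connected to a free element. -/
theorem PsiVal_exists_root (ω : P → ℕ) (J : Finset P) :
    ∀ n : ℕ, ∀ e ∈ J, ω e = n → ∃ r ∈ PsiVal_free ω J, Conn J e r ∧ Conn J r e := by
  intro n
  induction n using Nat.strong_induction_on with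
  | _ n ih =>
    intro e he hn
    by_cases h : e ∈ PsiVal_free ω J
    · exact ⟨e, h, Relation.ReflTransGen.refl, Relation.ReflTransGen.refl⟩
    · rw [PsiVal_mem_free_iff] at h
      push Not at h
      obtain ⟨f, hf⟩ := h he
      have hlt := PsiVal_par_lt hf
      obtain ⟨r, hr, h1, h2⟩ := ih (ω f) (by omega) f hf.2.1 rfl
      have hadj := PsiVal_par_adj hf
      refine ⟨r, hr, Relation.ReflTransGen.head hadj h1, Relation.ReflTransGen.tail h2 ?_⟩
      exact ⟨hadj.2.1, hadj.1, hadj.2.2.symm⟩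

theorem PsiVal_par_unique {ω : P → ℕ} {J : Finset P} (hJ : LocSkewOn ω J)
    (hd : Disjoint (TpW ω J) (BS ω J)) {e f g : P} (h : PsiVal_par ω J e f)
    (h' : PsiVal_par ω J e g) : f = g := by
  have hBS : ∀ f, f ∈ J → SCov ω e f → e ∈ BS ω J := fun f hf h1 => by
    unfold BS
    exact Finset.mem_filter.2 ⟨h.1, f, hf, h1⟩
  have hTW : ∀ f, f ∈ J → WCov ω f e → e ∈ TpW ω J := fun f hf h1 => by
    unfold TpW
    exact Finset.mem_filter.2 ⟨h.1, f, hf, h1⟩
  rcases h.2.2 with h1 | h1 <;> rcases h'.2.2 with h2 | h2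
  · exact hJ.s_upper e h.1 f h.2.1 g h'.2.1 h1 h2
  · exact absurd (hBS f h.2.1 h1) (Finset.disjoint_left.1 hd (hTW g h'.2.1 h2))
  · exact absurd (hBS g h'.2.1 h2) (Finset.disjoint_left.1 hd (hTW f h.2.1 h1))
  · exact hJ.w_lower f h.2.1 g h'.2.1 e h.1 h1 h2

theorem PsiVal_root_transport {ω : P → ℕ} (hω : Function.Injective ω) {J : Finset P}
    (hJ : LocSkewOn ω J) (hd : Disjoint (TpW ω J) (BS ω J)) {r : P}
    (hr : r ∈ PsiVal_free ω J) {x y : P} (hxy : Conn J x y)
    (hx : Relation.ReflTransGen (PsiVal_par ω J) x r) :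
    Relation.ReflTransGen (PsiVal_par ω J) y r := by
  induction hxy with
  | refl => exact hx
  | @tail b c _ hbc ih =>
    rcases PsiVal_adj_par hω hbc with h | h
    · -- `c` is the parent of `b`
      rcases Relation.ReflTransGen.cases_head ih with h1 | ⟨z, h1, h2⟩
      · rw [h1] at h
        exact absurd h ((PsiVal_mem_free_iff.1 hr).2 c)
      · rw [PsiVal_par_unique hJ hd h h1]
        exact h2
    · exact Relation.ReflTransGen.head h ih

theorem PsiVal_no_nw_iff {ω : P → ℕ} {J : Finset P} (hJ : Skw ω J) :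
    Disjoint (TpW ω J) (BS ω J) ↔ ∀ x e, ¬ NW ω J x e := by
  constructor
  · rintro hd x e ⟨hx, he, ⟨g, hg, h1, h2⟩, _⟩
    have h3 : g ∈ TpW ω J := by
      unfold TpW
      exact Finset.mem_filter.2 ⟨hg, x, hx, h1⟩
    have h4 : g ∈ BS ω J := by
      unfold BS
      exact Finset.mem_filter.2 ⟨hg, e, he, h2⟩
    exact Finset.disjoint_left.1 hd h3 h4
  · intro h
    rw [Finset.disjoint_left]
    intro b hb hb'
    unfold TpW at hb
    unfold BS at hb'
    rw [Finset.mem_filter] at hb hb'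
    obtain ⟨hbJ, x, hx, hxb⟩ := hb
    obtain ⟨_, y, hy, hby⟩ := hb'
    obtain ⟨c, hxc, hcy⟩ := hJ.loc.ws x hx b hbJ y hy hxb hby
    have hc : c ∈ J := hJ.cvx x hx y hy c hxc.1.lt.le hcy.1.lt.le
    exact h x y ⟨hx, hy, ⟨b, hbJ, hxb, hby⟩, c, hc, hxc, hcy⟩

theorem PsiVal_card_BS {ω : P → ℕ} {J : Finset P} (hJ : LocSkewOn ω J) :
    (BS ω J).card = strc ω J := by
  unfold strc
  have h : BS ω J = ((J ×ˢ J).filter fun p => SCov ω p.1 p.2).image Prod.fst := by
    ext x
    unfold BS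
    rw [Finset.mem_filter, Finset.mem_image]
    constructor
    · rintro ⟨hx, y, hy, hxy⟩
      exact ⟨(x, y), Finset.mem_filter.2 ⟨Finset.mem_product.2 ⟨hx, hy⟩, hxy⟩, rfl⟩
    · rintro ⟨⟨a, y⟩, hp, rfl⟩
      rw [Finset.mem_filter, Finset.mem_product] at hp
      exact ⟨hp.1.1, y, hp.1.2, hp.2⟩
  rw [h, Finset.card_image_of_injOn]
  rintro ⟨a, y⟩ hp ⟨b, z⟩ hq hab
  rw [Finset.mem_coe, Finset.mem_filter, Finset.mem_product] at hp hq
  dsimp only at hp hq hab
  subst hab
  rw [hJ.s_upper a hp.1.1 y hp.1.2 z hq.1.2 hp.2 hq.2]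

/-- **Module ST_PsiVal.** -/
theorem psiVal : PsiVal := by
  intro P _ ω hω n
  refine ⟨?_, ?_⟩
  · unfold psi
    apply Subalgebra.sum_mem
    intro i _
    exact Subalgebra.smul_mem _ (Subalgebra.mul_mem _ (ee_mem hω _) (hh_mem ω _)) _
  · intro J hJ
    rw [PsiVal_value hω hJ.cvx, PsiVal_card_BS hJ.loc]
    by_cases hn : J.card = n
    swap
    · rw [if_neg (fun h => hn h.1), if_neg (fun h => hn h.1)]
    by_cases hnw : ∀ x e, ¬ NW ω J x e
    swap
    · rw [if_neg (fun h => hnw ((PsiVal_no_nw_iff hJ).1 h.2.1)),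
        if_neg (fun h => hnw h.2.2.2)]
    have hd : Disjoint (TpW ω J) (BS ω J) := (PsiVal_no_nw_iff hJ).2 hnw
    have hiff : (PsiVal_free ω J).card = 1 ↔ J.Nonempty ∧ ∀ x ∈ J, ∀ y ∈ J, Conn J x y := by
      constructor
      · intro h
        obtain ⟨r, hr⟩ := Finset.card_eq_one.1 h
        have hrJ : r ∈ J := (PsiVal_mem_free_iff.1 (by rw [hr]; exact Finset.mem_singleton_self r)).1
        refine ⟨⟨r, hrJ⟩, ?_⟩
        intro x hx y hy
        obtain ⟨r1, hr1, h1, _⟩ := PsiVal_exists_root ω J (ω x) x hx rfl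
        obtain ⟨r2, hr2, _, h2⟩ := PsiVal_exists_root ω J (ω y) y hy rfl
        rw [hr, Finset.mem_singleton] at hr1 hr2
        subst hr1
        subst hr2
        exact Relation.ReflTransGen.trans h1 h2
      · rintro ⟨hne, hconn⟩
        rw [Finset.card_eq_one]
        obtain ⟨r, hr⟩ := PsiVal_free_nonempty ω J hne
        refine ⟨r, ?_⟩
        rw [Finset.eq_singleton_iff_unique_mem]
        refine ⟨hr, ?_⟩
        intro s hs
        have h1 := PsiVal_root_transport hω hJ.loc hd hr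
          (hconn r (PsiVal_mem_free_iff.1 hr).1 s (PsiVal_mem_free_iff.1 hs).1)
          Relation.ReflTransGen.refl
        rcases Relation.ReflTransGen.cases_head h1 with h2 | ⟨z, h2, _⟩
        · exact h2
        · exact absurd h2 ((PsiVal_mem_free_iff.1 hs).2 z)
    by_cases hf : (PsiVal_free ω J).card = 1
    · rw [if_pos ⟨hn, hd, hf⟩, if_pos ⟨hn, (hiff.1 hf).1, (hiff.1 hf).2, hnw⟩]
    · rw [if_neg (fun h => hf h.2.2), if_neg (fun h => hf (hiff.2 ⟨h.2.1, h.2.2.1⟩))]

end psival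

end Pool.Agent.ST14
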