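import Pool.Agent.ST14.Fact

/-!
(STAR) at a level `n`: the leading coefficient at `t = -1`.
-/

set_option autoImplicit false

namespace Pool.Agent.ST14

open scoped Classical

section fin

variable {P : Type} [Fintype P] [PartialOrder P]

/-- The number of free elements of `X` (if `X` is ws-free). -/
noncomputable def frc (ω : P → ℕ) (X : Finset P) : ℕ :=
  X.card - (BS ω X).card - (TpW ω X).card

/-- The complements of the filters `X ⊆ R` with `n` elements and `c` free elements. -/
noncomputable def fltc (ω : P → ℕ) (n c : ℕ) : Finset (Finset P) :=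
  (idl (Finset.univ : Finset P)).filter
    (fun I => (Finset.univ \ I).card = n ∧ Finset.univ \ I ⊆ factR ω ∧ frc ω (Finset.univ \ I) = c)

theorem starTop_sgm {ω : P → ℕ} (hω : Function.Injective ω) (t : ℤ) (n : ℕ) {I : Finset P}
    (hI : I ∈ idl (Finset.univ : Finset P)) : sgm ℤ ω t n (Finset.univ \ I) =
      if (Finset.univ \ I).card = n ∧ Finset.univ \ I ⊆ factR ω then
        t ^ (BS ω (Finset.univ \ I)).card * (1 + t) ^ frc ω (Finset.univ \ I) else 0 := by
  have hcv : Cvx (Finset.univ : Finset P) := fun x _ z _ y _ _ => Finset.mem_univ y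
  have hd := fact_disj_iff (ω := ω) (X := Finset.univ \ I)
    (by rwa [Finset.sdiff_sdiff_eq_self (Finset.subset_univ I)])
  rw [sgm_value hω (hcv.sdiff hI)]
  by_cases h1 : (Finset.univ \ I).card = n ∧ Finset.univ \ I ⊆ factR ω
  · rw [if_pos h1, if_pos ⟨h1.1, hd.2 h1.2⟩]
    unfold frc
    rw [h1.1]
  · rw [if_neg h1, if_neg (fun h2 => h1 ⟨h2.1, hd.1 h2.2⟩)]

theorem starTop_sgm' {ω : P → ℕ} (hω : Function.Injective ω) (t : ℤ) (n : ℕ) {I : Finset P}
    (hI : I ∈ idl (Finset.univ : Finset P)) : sgm' ℤ ω t n (Finset.univ \ I) =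
      if (Finset.univ \ I).card = n ∧ Finset.univ \ I ⊆ factR (tr ω) then
        t ^ (TpS ω (Finset.univ \ I)).card * (1 + t) ^ frc (tr ω) (Finset.univ \ I) else 0 := by
  have hcv : Cvx (Finset.univ : Finset P) := fun x _ z _ y _ _ => Finset.mem_univ y
  have hd := fact_disj_iff (ω := tr ω) (X := Finset.univ \ I)
    (by rwa [Finset.sdiff_sdiff_eq_self (Finset.subset_univ I)])
  rw [TpW_tr, BS_tr] at hd
  rw [sgm'_value hω (hcv.sdiff hI)]
  by_cases h1 : (Finset.univ \ I).card = n ∧ Finset.univ \ I ⊆ factR (tr ω)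
  · rw [if_pos h1, if_pos ⟨h1.1, hd.2 h1.2⟩]
    unfold frc
    rw [h1.1, TpW_tr, BS_tr, Nat.sub_right_comm]
  · rw [if_neg h1, if_neg (fun h2 => h1 ⟨h2.1, hd.1 h2.2⟩)]

/-- The polynomial of one side. -/
noncomputable def starPol (F : Finset P → ℤ) (R : Finset P) (g f : Finset P → ℕ) (n c : ℕ) :
    Polynomial ℤ :=
  ∑ I ∈ (idl (Finset.univ : Finset P)).filter
      (fun I => (Finset.univ \ I).card = n ∧ Finset.univ \ I ⊆ R),
    Polynomial.C (F I) * (Polynomial.X ^ g (Finset.univ \ I) *
      (1 + Polynomial.X) ^ (f (Finset.univ \ I) - c))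

theorem starPol_eval (F : Finset P → ℤ) (R : Finset P) (g f : Finset P → ℕ) (n c : ℕ)
    (hc : ∀ I ∈ idl (Finset.univ : Finset P), (Finset.univ \ I).card = n → Finset.univ \ I ⊆ R →
      c ≤ f (Finset.univ \ I)) (t : ℤ) :
    (1 + t) ^ c * (starPol F R g f n c).eval t =
      ∑ I ∈ idl (Finset.univ : Finset P), F I *
        (if (Finset.univ \ I).card = n ∧ Finset.univ \ I ⊆ R then
          t ^ g (Finset.univ \ I) * (1 + t) ^ f (Finset.univ \ I) else 0) := by
  unfold starPol
  rw [Polynomial.eval_finsetSum, Finset.mul_sum, Finset.sum_filter]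
  apply Finset.sum_congr rfl
  intro I hI
  by_cases h1 : (Finset.univ \ I).card = n ∧ Finset.univ \ I ⊆ R
  · rw [if_pos h1, if_pos h1]
    have h2 := hc I hI h1.1 h1.2
    obtain ⟨d, hd⟩ := Nat.exists_eq_add_of_le h2
    simp only [Polynomial.eval_mul, Polynomial.eval_C, Polynomial.eval_pow, Polynomial.eval_X,
      Polynomial.eval_add, Polynomial.eval_one]
    rw [hd, Nat.add_sub_cancel_left, pow_add]
    ring
  · rw [if_neg h1, if_neg h1, mul_zero]

theorem starPol_neg_one (F : Finset P → ℤ) (R : Finset P) (g f : Finset P → ℕ) (n c : ℕ)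
    (hc : ∀ I ∈ idl (Finset.univ : Finset P), (Finset.univ \ I).card = n → Finset.univ \ I ⊆ R →
      c ≤ f (Finset.univ \ I)) :
    (starPol F R g f n c).eval (-1) = ∑ I ∈ (idl (Finset.univ : Finset P)).filter
      (fun I => (Finset.univ \ I).card = n ∧ Finset.univ \ I ⊆ R ∧ f (Finset.univ \ I) = c),
      (-1) ^ g (Finset.univ \ I) * F I := by
  unfold starPol
  rw [Polynomial.eval_finsetSum, Finset.sum_filter, Finset.sum_filter]
  apply Finset.sum_congr rfl
  intro I hI
  by_cases h1 : (Finset.univ \ I).card = n ∧ Finset.univ \ I ⊆ R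
  · rw [if_pos h1]
    have h2 := hc I hI h1.1 h1.2
    simp only [Polynomial.eval_mul, Polynomial.eval_C, Polynomial.eval_pow, Polynomial.eval_X,
      Polynomial.eval_add, Polynomial.eval_one, add_neg_cancel]
    by_cases h3 : f (Finset.univ \ I) = c
    · rw [if_pos ⟨h1.1, h1.2, h3⟩, h3, Nat.sub_self, pow_zero]
      ring
    · rw [if_neg (fun h4 => h3 h4.2.2), zero_pow (by omega)]
      ring
  · rw [if_neg h1, if_neg (fun h4 => h1 ⟨h4.1, h4.2.1⟩)]

/-- **(STAR) at the level `n`, leading coefficient at `t = -1`.** -/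
theorem starTop {ω : P → ℕ} (h : Mini ω) (n c : ℕ)
    (h1 : ∀ I ∈ idl (Finset.univ : Finset P), (Finset.univ \ I).card = n →
      Finset.univ \ I ⊆ factR ω → c ≤ frc ω (Finset.univ \ I))
    (h2 : ∀ I ∈ idl (Finset.univ : Finset P), (Finset.univ \ I).card = n →
      Finset.univ \ I ⊆ factR (tr ω) → c ≤ frc (tr ω) (Finset.univ \ I))
    (F : Conv P ℤ) (hF : F ∈ HH ℤ ω) :
    ∑ I ∈ fltc ω n c, (-1) ^ (BS ω (Finset.univ \ I)).card * F I =
      ∑ I ∈ fltc (tr ω) n c, (-1) ^ (TpS ω (Finset.univ \ I)).card * F I := by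
  have key : starPol F (factR ω) (fun X => (BS ω X).card) (frc ω) n c =
      starPol F (factR (tr ω)) (fun X => (TpS ω X).card) (frc (tr ω)) n c := by
    have hne : ((1 : Polynomial ℤ) + Polynomial.X) ^ c ≠ 0 := by
      apply pow_ne_zero
      rw [add_comm]
      exact Polynomial.X_add_C_ne_zero (1 : ℤ)
    apply mul_left_cancel₀ hne
    apply Polynomial.funext
    intro t
    have h3 := star h.inj h.sym t n hF (one_mem (HH ℤ ω))
    rw [mul_one, mul_one, Conv.mul_apply, Conv.mul_apply] at h3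
    have e1 := starPol_eval F (factR ω) (fun X => (BS ω X).card) (frc ω) n c h1 t
    have e2 := starPol_eval F (factR (tr ω)) (fun X => (TpS ω X).card) (frc (tr ω)) n c h2 t
    simp only [Polynomial.eval_mul, Polynomial.eval_pow, Polynomial.eval_add,
      Polynomial.eval_one, Polynomial.eval_X]
    rw [e1, e2]
    calc _ = ∑ I ∈ idl (Finset.univ : Finset P), F I * sgm ℤ ω t n (Finset.univ \ I) := by
          apply Finset.sum_congr rfl
          intro I hI
          rw [starTop_sgm h.inj t n hI]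
      _ = _ := h3
      _ = _ := by
          apply Finset.sum_congr rfl
          intro I hI
          rw [starTop_sgm' h.inj t n hI]
  have e1 := starPol_neg_one F (factR ω) (fun X => (BS ω X).card) (frc ω) n c h1
  have e2 := starPol_neg_one F (factR (tr ω)) (fun X => (TpS ω X).card) (frc (tr ω)) n c h2
  unfold fltc
  rw [← e1, ← e2, key]

theorem starTop_W (h2 : St2) {ω : P → ℕ} (h : Mini ω) (t : ℚ) :
    factW ω t 1 (factR ω) = factW (tr ω) 1 t (factR (tr ω)) := by
  have h3 := fact_star h t (Finset.univ \ factR ω).card (factR ω).card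
  have hc : (Finset.univ \ factR ω).card = (Finset.univ \ factR (tr ω)).card := by
    rw [Finset.card_sdiff_of_subset (Finset.subset_univ _),
      Finset.card_sdiff_of_subset (Finset.subset_univ _), fact_card h]
  rw [fact_top] at h3
  rw [fact_card h, fact_top, hc, fact_kap_congr (tr ω) ω, ← hc, fact_base_eq h2 h, ← hc] at h3
  have h4 := KM.kap_ones_pos ω _ (Finset.univ \ factR (tr ω)) rfl
  rw [← hc] at h4
  have h5 : (kap ω (Finset.univ \ factR (tr ω))
      (List.replicate (Finset.univ \ factR ω).card 1) : ℚ) ≠ 0 := by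
    exact_mod_cast h4.ne'
  exact mul_left_cancel₀ h5 h3

/-- The level `|R|`: the numbers of free elements and the signs agree. -/
theorem starTop_level (h2 : St2) {ω : P → ℕ} (h : Mini ω) :
    (factR ω).card = (factR (tr ω)).card ∧ frc ω (factR ω) = frc (tr ω) (factR (tr ω)) ∧
      (BS ω (factR ω)).card = (TpS ω (factR (tr ω))).card := by
  refine ⟨fact_card h, ?_⟩
  have hf : ∀ (ω' : P → ℕ) (u v : ℚ), factW ω' u v (factR ω') =
      u ^ (BS ω' (factR ω')).card * v ^ (TpW ω' (factR ω')).card *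
        (u + v) ^ frc ω' (factR ω') := fun ω' u v => rfl
  have h1 : frc ω (factR ω) = frc (tr ω) (factR (tr ω)) := by
    have h3 := starTop_W h2 h 1
    rw [hf, hf] at h3
    simp only [one_pow, one_mul] at h3
    have h4 : ((2 : ℕ) : ℚ) ^ frc ω (factR ω) = ((2 : ℕ) : ℚ) ^ frc (tr ω) (factR (tr ω)) := by
      have h5 : (1 : ℚ) + 1 = ((2 : ℕ) : ℚ) := by norm_num
      rw [← h5]
      exact h3
    have h6 : 2 ^ frc ω (factR ω) = 2 ^ frc (tr ω) (factR (tr ω)) := by exact_mod_cast h4
    exact Nat.pow_right_injective le_rfl h6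
  refine ⟨h1, ?_⟩
  have h3 := starTop_W h2 h 2
  rw [hf, hf, h1, TpW_tr, add_comm (1 : ℚ) 2] at h3
  simp only [one_pow, one_mul, mul_one] at h3
  have h4 : ((2 : ℚ) + 1) ^ frc (tr ω) (factR (tr ω)) ≠ 0 := by positivity
  have h5 := mul_right_cancel₀ h4 h3
  have h6 : 2 ^ (BS ω (factR ω)).card = 2 ^ (TpS ω (factR (tr ω))).card := by exact_mod_cast h5
  exact Nat.pow_right_injective le_rfl h6

end fin

end Pool.Agent.ST14
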