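import Pool.Agent.ST14.EndCount
import Pool.Agent.ST14.PsiVal
import Pool.Agent.ST14.StarTop

/-!
Transposition of the data of the final count: `NW`, rims, components do not see the exchange of
weak and strict; number of strict covers of a ribbon.
-/

set_option autoImplicit false

namespace Pool.Agent.ST14

open scoped Classical

section et

variable {P : Type} [Fintype P] [PartialOrder P] {ω : P → ℕ}

theorem et_NW (Q : Finset P) (x e : P) : NW (tr ω) Q x e ↔ NW ω Q x e := by
  unfold NW
  simp only [wCov_tr, sCov_tr]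
  tauto

theorem et_serim (T : Finset P) : serim (tr ω) T = serim ω T := by
  unfold serim
  ext x
  simp only [Finset.mem_filter, et_NW]

theorem et_nwrim (T : Finset P) : nwrim (tr ω) T = nwrim ω T := by
  unfold nwrim
  ext x
  simp only [Finset.mem_filter, et_NW]

theorem et_skw {Q : Finset P} (h : Skw (tr ω) Q) : Skw ω Q := by
  obtain ⟨h1, h2⟩ := h
  refine ⟨h1, ?_⟩
  obtain ⟨a1, a2, a3, a4, a5, a6⟩ := h2
  simp only [wCov_tr, sCov_tr] at a1 a2 a3 a4 a5 a6
  exact ⟨a3, a4, a1, a2, a6, a5⟩

/-- In a ribbon the number of strict covers and the number of weak covers add up to the number of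
elements minus one. -/
theorem et_ribbon (hω : Function.Injective ω) {J : Finset P} (hJ : Skw ω J) (hne : J.Nonempty)
    (hc : ∀ x ∈ J, ∀ y ∈ J, Conn J x y) (hnw : ∀ x e, ¬ NW ω J x e) :
    strc ω J + (TpW ω J).card + 1 = J.card := by
  have h1 := (psiVal P ω hω J.card).2 J hJ
  rw [if_pos ⟨rfl, hne, hc, hnw⟩, PsiVal_value hω hJ.cvx] at h1
  have h2 : J.card = J.card ∧ Disjoint (TpW ω J) (BS ω J) ∧ (PsiVal_free ω J).card = 1 := by
    by_contra hcon
    rw [if_neg hcon] at h1
    exact (pow_ne_zero _ (by norm_num)) h1.symm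
  obtain ⟨-, h3, h4⟩ := h2
  have h5 : BS ω J ⊆ J := by unfold BS; exact Finset.filter_subset _ _
  have h6 : TpW ω J ⊆ J \ BS ω J := by
    intro x hx
    rw [Finset.mem_sdiff]
    refine ⟨?_, Finset.disjoint_left.1 h3 hx⟩
    unfold TpW at hx
    exact (Finset.mem_filter.1 hx).1
  have h7 := Finset.card_sdiff_of_subset h5
  have h8 := Finset.card_sdiff_of_subset h6
  unfold PsiVal_free at h4
  have h9 := Finset.card_le_card h5
  have h10 := Finset.card_le_card h6
  rw [PsiVal_card_BS hJ.loc] at h7 h9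
  omega

/-- The bookkeeping of the transposed side. -/
theorem et_count (hω : Function.Injective ω) {J : Finset P} (hJ : Skw ω J) (hne : J.Nonempty)
    (hc : ∀ x ∈ J, ∀ y ∈ J, Conn J x y) (hnw : ∀ x e, ¬ NW ω J x e) {X R : Finset P}
    (hXR : Disjoint (TpS ω X) (BW ω X)) (hRR : Disjoint (TpS ω R) (BW ω R))
    (hcard : X.card + J.card = R.card + 1)
    (hfr : frc (tr ω) X + 1 = frc (tr ω) R)
    (hb : (BS (tr ω) X).card + strc (tr ω) J = (BS (tr ω) R).card + 1) :
    (TpS ω X).card + strc ω J = (TpS ω R).card := by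
  have h1 := et_ribbon hω hJ hne hc hnw
  have h2 : (TpW ω J).card = strc (tr ω) J := by
    have h : TpW ω J = ((J ×ˢ J).filter fun p => SCov (tr ω) p.1 p.2).image Prod.snd := by
      ext x
      unfold TpW
      rw [Finset.mem_filter, Finset.mem_image]
      constructor
      · rintro ⟨hx, y, hy, hxy⟩
        exact ⟨(y, x), Finset.mem_filter.2 ⟨Finset.mem_product.2 ⟨hy, hx⟩,
          (sCov_tr ω y x).2 hxy⟩, rfl⟩
      · rintro ⟨⟨a, y⟩, hp, rfl⟩
        rw [Finset.mem_filter, Finset.mem_product] at hp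
        exact ⟨hp.1.2, a, hp.1.1, (sCov_tr ω a y).1 hp.2⟩
    unfold strc
    rw [h, Finset.card_image_of_injOn]
    rintro ⟨a, y⟩ hp ⟨b, z⟩ hq hab
    rw [Finset.mem_coe, Finset.mem_filter, Finset.mem_product] at hp hq
    dsimp only at hp hq hab
    subst hab
    rw [hJ.loc.w_lower a hp.1.1 b hq.1.1 y hp.1.2 ((sCov_tr ω a y).1 hp.2)
      ((sCov_tr ω b y).1 hq.2)]
  unfold frc at hfr
  rw [TpW_tr, TpW_tr] at hfr
  have hs : ∀ Z : Finset P, Disjoint (TpS ω Z) (BW ω Z) →
      (BS (tr ω) Z).card + (TpS ω Z).card ≤ Z.card := by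
    intro Z hZ
    rw [BS_tr, add_comm, ← Finset.card_union_of_disjoint hZ]
    apply Finset.card_le_card
    apply Finset.union_subset
    · unfold TpS; exact Finset.filter_subset _ _
    · unfold BW; exact Finset.filter_subset _ _
  have h3 := hs X hXR
  have h4 := hs R hRR
  omega

end et

end Pool.Agent.ST14
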