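import Pool.Agent.ST14.FinStmts
import Pool.Agent.ST14.EndTr

/-!
Module `FIN_Key`: the contradiction (section 6 of 49bc13_h58.md), the final count of the regions of
sources of type `x_b` and minimal length.
-/

set_option autoImplicit false

namespace Pool.Agent.ST14

open scoped Classical

section key

variable {P : Type} [Fintype P] [PartialOrder P] {ω : P → ℕ}

theorem finKey_not_tr (h : ¬ LocSkew ω) : ¬ LocSkew (tr ω) := by
  intro hL
  apply h
  obtain ⟨a1, a2, a3, a4, a5, a6⟩ := hL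
  simp only [wCov_tr, sCov_tr] at a1 a2 a3 a4 a5 a6
  exact ⟨a3, a4, a1, a2, a6, a5⟩

/-- A weak extra starts a `ws` chain. -/
theorem finKey_XW (hN : FinNet) (hT : FinTr) (h52 : Fin52) (hM : Mini ω) :
    ∀ i M, XW ω i M → i ∉ factR ω := by
  intro i M hi hR
  obtain ⟨t1, t2, t3, -⟩ := hT P ω
  have hX : XS (tr ω) i M := (t3 i M).2 hi
  obtain ⟨-, -, -, -, -, -, -, hN8, -⟩ := hN P (tr ω) (k5c P ω hM)
  obtain ⟨-, -, -, v, -, hv⟩ := hN8 i M hX
  obtain ⟨u, hu⟩ := h52 P (tr ω) (k5c P ω hM) i M v hX hv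
  exact fact_mem_R.1 hR i v u le_rfl ((t1 i v).1 hv).1 ((t2 v u).1 hu).1

/-- The complement of `factR ω \ Tr ω r` is `Qr ω r`. -/
theorem finKey_compl (hRR : Finset.univ \ factR ω = Intr ω ∪ Xm ω) (r : P) :
    Finset.univ \ (factR ω \ Tr ω r) = Qr ω r ∧ Finset.univ \ Qr ω r = factR ω \ Tr ω r ∧
      Tr ω r = factR ω ∩ Qr ω r := by
  have hsub : Tr ω r ⊆ factR ω := by unfold Tr; exact Finset.filter_subset _ _
  have h1 : Finset.univ \ (factR ω \ Tr ω r) = Qr ω r := by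
    unfold Qr
    rw [← hRR]
    ext e
    simp only [Finset.mem_sdiff, Finset.mem_univ, true_and, Finset.mem_union, not_and, not_not]
    constructor
    · intro h
      by_cases h2 : e ∈ factR ω
      · exact Or.inr (h h2)
      · exact Or.inl h2
    · rintro (h | h) h2
      · exact absurd h2 h
      · exact h
  refine ⟨h1, ?_, ?_⟩
  · rw [← h1, Finset.sdiff_sdiff_eq_self (Finset.subset_univ _)]
  · rw [← h1]
    ext e
    simp only [Finset.mem_sdiff, Finset.mem_univ, true_and, Finset.mem_inter, not_and, not_not]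
    constructor
    · exact fun h => ⟨hsub h, fun _ => h⟩
    · exact fun h => h.2 h.1

/-- One side of the count. -/
structure FinKeySide (ω : P → ℕ) (m : ℕ) (r : P) : Prop where
  src : Src ω r
  tx : ∃ x ∈ Rg ω r, ∃ b y, Merger ω x b y
  len : (serim ω (Rg ω r)).card = m
  noS : ∀ i M, XS ω i M → M ∉ Tr ω r
  skw : Skw ω (Qr ω r)
  cmp : Rg ω r ∈ comps (Qr ω r)
  rest : ∃ x ∈ Xm ω, Qr ω r \ serim ω (Rg ω r) = Intr ω ∪ (Xm ω).erase x
  cR : (BS ω (factR ω \ Tr ω r)).card + strc ω (serim ω (Rg ω r)) = (BS ω (factR ω)).card + 1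
  cL : (TpW ω (factR ω \ Tr ω r)).card + strc (tr ω) (serim ω (Rg ω r)) = (TpW ω (factR ω)).card

theorem finKey_side (hEnd : FinEnd) (hFor : FinFor) (hTree : FinTree) (hQr : FinQr)
    (hM : Mini ω) (hLS : ¬ LocSkew ω) (hXW : ∀ i M, XW ω i M → i ∉ factR ω) {m : ℕ}
    (hm : ∀ r, Src ω r → m ≤ lG ω r) :
    (∀ r, Src ω r → m ≤ (Tr ω r).card + 1) ∧
    (∀ r, Src ω r → (Tr ω r).card + 1 = m → FinKeySide ω m r) ∧
    (∀ r, Src ω r → TypeX ω r → lG ω r = m → (Tr ω r).card + 1 = m ∧ 2 ≤ m) := by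
  obtain ⟨f1, f2, f3, f4, f5, f6⟩ := hFor P ω hM hXW
  have hX : ∀ r, Src ω r → ∀ x ∈ Rg ω r, ∀ b y, Merger ω x b y → (Tr ω r).card + 1 = lG ω r := by
    intro r hr x hx b y hb
    obtain ⟨h1, h2⟩ := (hTree P ω hM r hr).1 x hx b y hb
    rw [h1]
    exact Finset.card_erase_add_one h2
  refine ⟨?_, ?_, ?_⟩
  · intro r hr
    have h1 := hm r hr
    rcases hEnd P ω hM hLS r hr with ⟨x, hx, b, y, hb⟩ | hY
    · have := hX r hr x hx b y hb
      omega
    · have := (hTree P ω hM r hr).2 hY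
      omega
  · intro r hr hc
    have h1 := hm r hr
    have hTX : TypeX ω r := by
      rcases hEnd P ω hM hLS r hr with h | hY
      · exact h
      · have := (hTree P ω hM r hr).2 hY
        omega
    obtain ⟨x, hx, b, y, hb⟩ := hTX
    obtain ⟨g1, g2⟩ := (hTree P ω hM r hr).1 x hx b y hb
    obtain ⟨q1, q2, q3, q4, q5, q6, q7, q8⟩ := hQr P ω hM hXW r hr x hx b y hb
    have hTR : ∀ e ∈ Tr ω r, e ∈ Rg ω r := by
      intro e he
      rw [g1] at he
      exact (Finset.mem_sdiff.1 (Finset.mem_of_mem_erase he)).1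
    have hS : ∀ i M, XS ω i M → M ∉ Tr ω r := fun i M hi hMT => q1 i M hi (hTR M hMT)
    obtain ⟨-, -, k3, k4⟩ := f6 r hr hS
    refine ⟨hr, ⟨x, hx, b, y, hb⟩, ?_, hS, q3, q4, ?_, ?_, ?_⟩
    · rw [q5]
      have := hX r hr x hx b y hb
      unfold lG at this
      omega
    · exact ⟨x, Finset.mem_filter.2 ⟨Finset.mem_univ _, b, y, hb⟩, q6⟩
    · rw [k3, q7]
      have := Finset.card_sdiff_add_card_inter (BS ω (factR ω)) (Tr ω r)
      omega
    · rw [k4, q8]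
      exact Finset.card_sdiff_add_card_inter _ _
  · rintro r hr ⟨x, hx, b, y, hb⟩ hl
    have h1 := hX r hr x hx b y hb
    have h2 := Finset.card_pos.2 ⟨r, f4 r hr⟩
    omega

/-- `lam` and `eps` of the rest. -/
theorem finKey_rest (hL : LamStmt) (hE : EpsStmt) (hω : Function.Injective ω) {I X X' : Finset P}
    (hc : X.card = X'.card) (hd : Disjoint I X) (hd' : Disjoint I X')
    (hs : Skw ω (I ∪ X)) (hs' : Skw ω (I ∪ X'))
    (hi : ∀ x ∈ X, ∀ z ∈ I ∪ X, ¬ x < z ∧ ¬ z < x)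
    (hi' : ∀ x ∈ X', ∀ z ∈ I ∪ X', ¬ x < z ∧ ¬ z < x) {x x' : P} (hx : x ∈ X) (hx' : x' ∈ X') :
    lam ω (I ∪ X.erase x) = lam ω (I ∪ X'.erase x') ∧
      eps ω (I ∪ X.erase x) = eps ω (I ∪ X'.erase x') := by
  have hsk : ∀ {X : Finset P} {x : P}, Disjoint I X → Skw ω (I ∪ X) →
      (∀ x ∈ X, ∀ z ∈ I ∪ X, ¬ x < z ∧ ¬ z < x) → x ∈ X → Skw ω (I ∪ X.erase x) := by
    intro X x hd hs hi hx
    refine ec_skw_sub hs (Finset.union_subset_union_right (Finset.erase_subset _ _)) ?_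
    intro a ha b hb y hy hay hyb
    by_cases hyx : y = x
    · subst hyx
      exfalso
      have ha' : a ∈ I ∪ X := Finset.union_subset_union_right (Finset.erase_subset _ _) ha
      have hne : a ≠ y := by
        rintro rfl
        rcases Finset.mem_union.1 ha with h | h
        · exact Finset.disjoint_left.1 hd h hx
        · exact (Finset.mem_erase.1 h).1 rfl
      exact (hi y hx a ha').2 (lt_of_le_of_ne hay hne)
    · rcases Finset.mem_union.1 hy with h | h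
      · exact Finset.mem_union_left _ h
      · exact Finset.mem_union_right _ (Finset.mem_erase.2 ⟨hyx, h⟩)
  refine ec_isol hL hE hω I (X.card - 1) (X.erase x) (X'.erase x') (Finset.card_erase_of_mem hx)
    (by rw [Finset.card_erase_of_mem hx', hc]) (hd.mono_right (Finset.erase_subset _ _))
    (hd'.mono_right (Finset.erase_subset _ _)) (hsk hd hs hi hx) (hsk hd' hs' hi' hx') ?_ ?_
  · intro z hz y hy
    exact hi z (Finset.mem_of_mem_erase hz) y
      (Finset.union_subset_union_right (Finset.erase_subset _ _) hy)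
  · intro z hz y hy
    exact hi' z (Finset.mem_of_mem_erase hz) y
      (Finset.union_subset_union_right (Finset.erase_subset _ _) hy)

end key

theorem finKey (h2 : St2) (hP : PsiVal) (hL : LamStmt) (hE : EpsStmt) (hTop : TopStmt)
    (hSE : SEStmt) (hN : FinNet) (hT : FinTr) (h52 : Fin52) (hEnd : FinEnd) (hRR : FinRR)
    (hFor : FinFor) (hTree : FinTree) (hQr : FinQr) (hC : FinCoef) : FinKey := by
  intro P _ _ ω hM hLS m hm1 hm2 hex
  have hM' := k5c P ω hM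
  have hLS' := finKey_not_tr hLS
  have hXW := finKey_XW hN hT h52 hM
  have hXW' := finKey_XW hN hT h52 hM'
  obtain ⟨t1, t2, t3, t4, t5, t6, t7, t8, t9, t10, t11, t12, t13, t14, t15⟩ := hT P ω
  obtain ⟨a1, a2, a3⟩ := finKey_side hEnd hFor hTree hQr hM hLS hXW hm1
  obtain ⟨b1, b2, b3⟩ := finKey_side hEnd hFor hTree hQr hM' hLS' hXW' hm2
  obtain ⟨r1, r2, r3, r4, r5, r6⟩ := hRR P ω hM
  obtain ⟨s1, s2, s3, s4, s5, s6⟩ := hRR P (tr ω) hM'
  rw [t9] at s1 s2 s3 s4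
  have s3' : Skw ω (Intr ω ∪ Xm (tr ω)) := et_skw s3
  obtain ⟨-, -, f3, f4, -, -⟩ := hFor P ω hM hXW
  obtain ⟨-, -, g3, g4, -, -⟩ := hFor P (tr ω) hM' hXW'
  have hm : 2 ≤ m := by
    rcases hex with ⟨r, h1, h2, h3⟩ | ⟨r, h1, h2, h3⟩
    · exact (a3 r h1 h2 h3).2
    · exact (b3 r h1 h2 h3).2
  obtain ⟨-, -, lv⟩ := starTop_level h2 hM
  have s1' : Finset.univ \ factR (tr ω) = Intr (tr ω) ∪ Xm (tr ω) := by rw [t9]; exact s1
  have cA : ∀ r, Finset.univ \ (factR ω \ Tr ω r) = Qr ω r ∧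
      Finset.univ \ Qr ω r = factR ω \ Tr ω r ∧ Tr ω r = factR ω ∩ Qr ω r :=
    fun r => finKey_compl r1 r
  have cB : ∀ r, Finset.univ \ (factR (tr ω) \ Tr (tr ω) r) = Qr (tr ω) r ∧
      Finset.univ \ Qr (tr ω) r = factR (tr ω) \ Tr (tr ω) r ∧
      Tr (tr ω) r = factR (tr ω) ∩ Qr (tr ω) r := fun r => finKey_compl s1' r
  set A : Finset P := Finset.univ.filter (fun r => Src ω r ∧ (Tr ω r).card + 1 = m) with hA
  set B : Finset P := Finset.univ.filter (fun r => Src (tr ω) r ∧ (Tr (tr ω) r).card + 1 = m)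
    with hB
  have hAm : ∀ r, r ∈ A ↔ Src ω r ∧ (Tr ω r).card + 1 = m := fun r => by
    rw [hA, Finset.mem_filter]
    exact ⟨fun h => h.2, fun h => ⟨Finset.mem_univ _, h⟩⟩
  have hBm : ∀ r, r ∈ B ↔ Src (tr ω) r ∧ (Tr (tr ω) r).card + 1 = m := fun r => by
    rw [hB, Finset.mem_filter]
    exact ⟨fun h => h.2, fun h => ⟨Finset.mem_univ _, h⟩⟩
  have hinjA : ∀ r ∈ A, ∀ r' ∈ A, Qr ω r = Qr ω r' → r = r' := by
    intro r hr r' hr' h
    have h1 := f4 r ((hAm r).1 hr).1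
    have h3 := h1
    rw [(cA r).2.2, h, ← (cA r').2.2] at h3
    exact f3 r r r' ((hAm r).1 hr).1 ((hAm r').1 hr').1 h1 h3
  have hinjB : ∀ r ∈ B, ∀ r' ∈ B, Qr (tr ω) r = Qr (tr ω) r' → r = r' := by
    intro r hr r' hr' h
    have h1 := g4 r ((hBm r).1 hr).1
    have h3 := h1
    rw [(cB r).2.2, h, ← (cB r').2.2] at h3
    exact g3 r r r' ((hBm r).1 hr).1 ((hBm r').1 hr').1 h1 h3
  -- a reference for the rest
  have hne : (Xm ω).Nonempty := by
    rcases hex with ⟨r, -, ⟨x, -, b, y, hb⟩, -⟩ | ⟨r, -, ⟨x, -, b, y, hb⟩, -⟩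
    · exact ⟨x, Finset.mem_filter.2 ⟨Finset.mem_univ _, b, y, hb⟩⟩
    · have h1 : (Xm (tr ω)).Nonempty := ⟨x, Finset.mem_filter.2 ⟨Finset.mem_univ _, b, y, hb⟩⟩
      rw [← Finset.card_pos, ← r6] at h1
      exact Finset.card_pos.1 h1
  obtain ⟨x₀, hx₀⟩ := hne
  have restA : ∀ x ∈ Xm ω, lam ω (Intr ω ∪ (Xm ω).erase x) = lam ω (Intr ω ∪ (Xm ω).erase x₀) ∧
      eps ω (Intr ω ∪ (Xm ω).erase x) = eps ω (Intr ω ∪ (Xm ω).erase x₀) := fun x hx =>
    finKey_rest hL hE hM.inj rfl r2 r2 r3 r3 r4 r4 hx hx₀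
  have restB : ∀ x ∈ Xm (tr ω),
      lam ω (Intr ω ∪ (Xm (tr ω)).erase x) = lam ω (Intr ω ∪ (Xm ω).erase x₀) ∧
      eps ω (Intr ω ∪ (Xm (tr ω)).erase x) = eps ω (Intr ω ∪ (Xm ω).erase x₀) := fun x hx =>
    finKey_rest hL hE hM.inj r6.symm s2 r2 s3' r3 s4 r4 hx hx₀
  have key := ec_count (XR := A.image (Qr ω)) (XL := B.image (Qr (tr ω)))
    hP hL hE hTop hSE hM.inj (fun Y => (BS ω (Finset.univ \ Y)).card)
    (fun Y => (TpW (tr ω) (Finset.univ \ Y)).card) (a := m)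
    (Λ := lam ω (Intr ω ∪ (Xm ω).erase x₀)) (e := eps ω (Intr ω ∪ (Xm ω).erase x₀))
    (by unfold eps; exact pow_ne_zero _ (by norm_num)) (β := (BS ω (factR ω)).card)
    (by
      intro F hF
      rw [Finset.sum_image hinjA, Finset.sum_image hinjB]
      have h1 := hC P ω hM hXW (fun i M hi => hXW' i M ((t4 i M).2 hi)) m hm a1 b1
        (fun r hr hc => (a2 r hr hc).noS)
        (fun r hr hc i M hi => (b2 r hr hc).noS i M ((t3 i M).2 hi)) F hF
      rw [← hA, ← hB] at h1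
      rw [Finset.sum_congr rfl (g := fun r => (-1 : ℤ) ^ (BS ω (factR ω \ Tr ω r)).card *
          F (Finset.univ \ (factR ω \ Tr ω r))) (fun r _ => by rw [(cA r).1, (cA r).2.1]), h1]
      exact Finset.sum_congr rfl fun r _ => by rw [(cB r).1, (cB r).2.1])
    (by
      intro Y hY
      obtain ⟨r, hr, rfl⟩ := Finset.mem_image.1 hY
      have hside := a2 r ((hAm r).1 hr).1 ((hAm r).1 hr).2
      obtain ⟨x, hx, hx2⟩ := hside.rest
      refine ⟨hside.skw, Rg ω r, hside.cmp, hside.len, ?_, ?_, ?_⟩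
      · rw [hx2]; exact (restA x hx).1
      · rw [hx2]; exact (restA x hx).2
      · rw [(cA r).2.1]; exact hside.cR)
    (by
      intro Y hY
      obtain ⟨r, hr, rfl⟩ := Finset.mem_image.1 hY
      have hside := b2 r ((hBm r).1 hr).1 ((hBm r).1 hr).2
      obtain ⟨x, hx, hx2⟩ := hside.rest
      have hlen := hside.len
      have hcL := hside.cL
      rw [et_serim] at hx2 hlen hcL
      rw [t13, TpW_tr ω (factR (tr ω)), ← lv] at hcL
      rw [t9] at hx2
      refine ⟨et_skw hside.skw, Rg (tr ω) r, hside.cmp, hlen, ?_, ?_, ?_⟩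
      · rw [hx2]; exact (restB x hx).1
      · rw [hx2]; exact (restB x hx).2
      · rw [(cB r).2.1]; exact hcL)
  obtain ⟨k1, k2⟩ := key
  rw [Finset.image_eq_empty] at k1 k2
  rcases hex with ⟨r, e1, e2, e3⟩ | ⟨r, e1, e2, e3⟩
  · have := (hAm r).2 ⟨e1, (a3 r e1 e2 e3).1⟩
    rw [k1] at this
    exact absurd this (Finset.notMem_empty _)
  · have := (hBm r).2 ⟨e1, (b3 r e1 e2 e3).1⟩
    rw [k2] at this
    exact absurd this (Finset.notMem_empty _)

end Pool.Agent.ST14
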