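import Pool.Agent.ST14.FinStmts

/-!
`FinLen`: reversal and regions.
-/

set_option autoImplicit false

namespace Pool.Agent.ST14

open scoped Classical

section fin

variable {P : Type} [Fintype P] [PartialOrder P]

omit [Fintype P] [PartialOrder P] in
theorem finLen_reach {r : P → P → Prop} {s : Pᵒᵈ → Pᵒᵈ → Prop}
    (h : ∀ a b : P, s (OrderDual.toDual a) (OrderDual.toDual b) ↔ r a b) {a b : P} :
    Relation.ReflTransGen s (OrderDual.toDual a) (OrderDual.toDual b) ↔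
      Relation.ReflTransGen r a b := by
  constructor
  · intro h1
    have key : ∀ c : Pᵒᵈ, Relation.ReflTransGen s (OrderDual.toDual a) c →
        Relation.ReflTransGen r a (OrderDual.ofDual c) := by
      intro c hc
      induction hc with
      | refl => exact Relation.ReflTransGen.refl
      | tail _ h3 ih => exact ih.tail ((h _ _).1 h3)
    exact key _ h1
  · intro h1
    induction h1 with
    | refl => exact Relation.ReflTransGen.refl
    | tail _ h3 ih => exact ih.tail ((h _ _).2 h3)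

/-- Unique partners. -/
theorem finLen_unique (hN : FinNet) {ω : P → ℕ} (h : Mini ω) :
    (∀ x e e', NW ω Finset.univ x e → NW ω Finset.univ x e' → e = e') ∧
    (∀ x x' e, NW ω Finset.univ x e → NW ω Finset.univ x' e → x = x') := by
  have hn := hN P ω h
  have hnt := hN P (tr ω) (k5c P ω h)
  obtain ⟨_, _, _, n4, n5, _, n7, _⟩ := hn
  obtain ⟨_, _, _, t4, t5, _, t7, _⟩ := hnt
  have rw1 : ∀ x g e, WCov ω x g → SCov ω g e → RS (tr ω) x g ∧ RS ω g e := by
    intro x g e hxg hge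
    refine ⟨t7 x g ((sCov_tr ω x g).2 hxg) ?_, n7 g e hge ?_⟩
    · rintro ⟨_, hM⟩
      exact absurd (hM hge.1.le) (not_le_of_gt hge.1.lt)
    · rintro ⟨hm, _⟩
      exact absurd (hm hxg.1.le) (not_le_of_gt hxg.1.lt)
  refine ⟨?_, ?_⟩
  · rintro x e e' ⟨_, _, ⟨g, _, hg1, hg2⟩, _⟩ ⟨_, _, ⟨g', _, hg1', hg2'⟩, _⟩
    obtain ⟨a1, a2⟩ := rw1 x g e hg1 hg2
    obtain ⟨a1', a2'⟩ := rw1 x g' e' hg1' hg2'
    have h1 := t5 x g g' a1 a1'
    subst h1
    exact n5 g e e' a2 a2'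
  · rintro x x' e ⟨_, _, ⟨g, _, hg1, hg2⟩, _⟩ ⟨_, _, ⟨g', _, hg1', hg2'⟩, _⟩
    obtain ⟨a1, a2⟩ := rw1 x g e hg1 hg2
    obtain ⟨a1', a2'⟩ := rw1 x' g' e hg1' hg2'
    have h1 := n4 g g' e a2 a2'
    subst h1
    exact t4 x x' g a1 a1'

/-- The cells of `G` with a SE neighbour and the cells of `G` with a NW neighbour. -/
theorem finLen_card (hN : FinNet) {ω : P → ℕ} (h : Mini ω) (G : Finset P)
    (hG : ∀ x e, NW ω Finset.univ x e → (x ∈ G ↔ e ∈ G)) :
    (G.filter fun e => ∃ x, NW ω Finset.univ x e).card =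
      (G.filter fun x => ∃ e, NW ω Finset.univ x e).card := by
  obtain ⟨u1, u2⟩ := finLen_unique hN h
  symm
  apply Finset.card_bij (fun x hx => Classical.choose (Finset.mem_filter.1 hx).2)
  · intro x hx
    have h1 := Classical.choose_spec (Finset.mem_filter.1 hx).2
    rw [Finset.mem_filter]
    exact ⟨(hG _ _ h1).1 (Finset.mem_filter.1 hx).1, x, h1⟩
  · intro x hx x' hx' hxx
    have h1 := Classical.choose_spec (Finset.mem_filter.1 hx).2
    have h2 := Classical.choose_spec (Finset.mem_filter.1 hx').2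
    rw [← hxx] at h2
    exact u2 _ _ _ h1 h2
  · intro e he
    rw [Finset.mem_filter] at he
    obtain ⟨heG, x, hx⟩ := he
    have hxm : x ∈ G.filter fun x => ∃ e, NW ω Finset.univ x e := by
      rw [Finset.mem_filter]
      exact ⟨(hG _ _ hx).2 heG, e, hx⟩
    refine ⟨x, hxm, ?_⟩
    exact u1 _ _ _ (Classical.choose_spec (Finset.mem_filter.1 hxm).2) hx

theorem finLen_gen (hN : FinNet) (hG : FinReg) {ω₁ : P → ℕ} {ω₂ : Pᵒᵈ → ℕ}
    (h : Mini ω₁)
    (ha : ∀ a b : P, NEs ω₂ (OrderDual.toDual a) (OrderDual.toDual b) ↔ NEs ω₁ a b)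
    (hb : ∀ x e : P, NW ω₂ Finset.univ (OrderDual.toDual e) (OrderDual.toDual x) ↔
      NW ω₁ Finset.univ x e)
    (hc : ∀ x b y : P, Merger ω₂ (OrderDual.toDual y) (OrderDual.toDual b) (OrderDual.toDual x) ↔
      Merger ω₁ x b y) {r : P} (hs : Src ω₁ r) :
    lG ω₂ (OrderDual.toDual r) = lG ω₁ r ∧
      (TypeX ω₂ (OrderDual.toDual r) ↔ TypeY ω₁ r) := by
  have hRg : ∀ e : P, OrderDual.toDual e ∈ Rg ω₂ (OrderDual.toDual r) ↔ e ∈ Rg ω₁ r := by
    intro e
    unfold Rg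
    rw [Finset.mem_filter, Finset.mem_filter, finLen_reach ha]
    simp
  have hI : ∀ e : P, OrderDual.toDual e ∈ Intr ω₂ ↔ ∃ x, NW ω₁ Finset.univ x e := by
    intro e
    unfold Intr
    rw [Finset.mem_filter]
    constructor
    · rintro ⟨_, x, hx⟩
      exact ⟨OrderDual.ofDual x, (hb (OrderDual.ofDual x) e).1 hx⟩
    · rintro ⟨x, hx⟩
      exact ⟨Finset.mem_univ _, OrderDual.toDual x, (hb x e).2 hx⟩
  have hI' : ∀ e : P, e ∈ Intr ω₁ ↔ ∃ x, NW ω₁ Finset.univ e x := by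
    intro e
    unfold Intr
    rw [Finset.mem_filter]
    exact ⟨fun hh => hh.2, fun hh => ⟨Finset.mem_univ _, hh⟩⟩
  refine ⟨?_, ?_⟩
  · have hcl : ∀ x e, NW ω₁ Finset.univ x e → (x ∈ Rg ω₁ r ↔ e ∈ Rg ω₁ r) := by
      intro x e hx
      have h1 := ((hG P ω₁ h).2 r hs).2.2.2.2.2.2.1 x e hx
      exact ⟨fun h2 => (h1 (Or.inl h2)).2.1, fun h2 => (h1 (Or.inr h2)).1⟩
    have hcard := finLen_card hN h (Rg ω₁ r) hcl
    have e1 : lG ω₂ (OrderDual.toDual r) =
        (Rg ω₁ r \ (Rg ω₁ r).filter fun e => ∃ x, NW ω₁ Finset.univ x e).card := by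
      unfold lG
      symm
      apply Finset.card_bij (fun (x : P) _ => OrderDual.toDual x)
      · intro x hx
        rw [Finset.mem_sdiff, Finset.mem_filter] at hx
        rw [Finset.mem_sdiff]
        exact ⟨(hRg x).2 hx.1, fun hh => hx.2 ⟨hx.1, (hI x).1 hh⟩⟩
      · intro x _ y _ hxy
        exact hxy
      · intro y hy
        rw [Finset.mem_sdiff] at hy
        refine ⟨OrderDual.ofDual y, ?_, rfl⟩
        rw [Finset.mem_sdiff, Finset.mem_filter]
        exact ⟨(hRg (OrderDual.ofDual y)).1 hy.1,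
          fun hh => hy.2 ((hI (OrderDual.ofDual y)).2 hh.2)⟩
    have e2 : lG ω₁ r =
        (Rg ω₁ r \ (Rg ω₁ r).filter fun x => ∃ e, NW ω₁ Finset.univ x e).card := by
      unfold lG
      congr 1
      ext x
      rw [Finset.mem_sdiff, Finset.mem_sdiff, Finset.mem_filter, hI']
      tauto
    rw [e1, e2, Finset.card_sdiff_of_subset (Finset.filter_subset _ _),
      Finset.card_sdiff_of_subset (Finset.filter_subset _ _), hcard]
  · unfold TypeX TypeY
    constructor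
    · rintro ⟨e, he, b, y, hm⟩
      exact ⟨OrderDual.ofDual e, (hRg (OrderDual.ofDual e)).1 he, OrderDual.ofDual y,
        OrderDual.ofDual b, (hc (OrderDual.ofDual y) (OrderDual.ofDual b)
          (OrderDual.ofDual e)).1 hm⟩
    · rintro ⟨e, he, x, b, hm⟩
      exact ⟨OrderDual.toDual e, (hRg e).2 he, OrderDual.toDual b, OrderDual.toDual x,
        (hc x b e).2 hm⟩

/-- **E**: reversal and regions. -/
theorem finLen (hN : FinNet) (hT : FinTr) (hR : FinRv) (hG : FinReg) : FinLen := by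
  intro P _ _ ω h r
  obtain ⟨_, _, r3, r4, r5, r6, _, _⟩ := hR P ω h
  obtain ⟨_, _, _, _, _, s6, s7, s8, _⟩ := hT Pᵒᵈ (rv ω)
  obtain ⟨_, _, _, _, t5, _, t7, t8, _⟩ := hT P ω
  refine ⟨fun hs => ?_, fun hs => ?_⟩
  · apply finLen_gen hN hG (ω₁ := ω) (ω₂ := tr (rv ω)) h _ _ _ hs
    · intro a b
      rw [s7, r5]
    · intro x e
      rw [s8, r6]
    · intro x b y
      obtain ⟨_, _, _, _, m5, _⟩ := hT Pᵒᵈ (rv ω)
      rw [m5, r4]
  · apply finLen_gen hN hG (ω₁ := tr ω) (ω₂ := rv ω) (k5c P ω h) _ _ _ hs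
    · intro a b
      rw [r5, t7]
    · intro x e
      rw [t8, r6]
    · intro x b y
      rw [t5, r3]

end fin

end Pool.Agent.ST14
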