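import Pool.Agent.ST14.St1

/-!
Item (2) of the structure theorem: squares.
-/

set_option autoImplicit false

namespace Pool.Agent.ST14

open scoped Classical

/-- **(2)** -/
theorem st2 : St2 := by
  intro P _ _ ω h x b y hxy
  rw [not_and_or] at hxy
  have key : ∃ Q : Finset P, LocSkewOn ω Q ∧ (x ⋖ b → b ⋖ y → x ∈ Q ∧ b ∈ Q ∧ y ∈ Q) := by
    rcases hxy with hx | hy
    · refine ⟨_, h.loc_ge hx, fun h1 h2 => ?_⟩
      simp only [Finset.mem_filter, Finset.mem_univ, true_and]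
      exact ⟨le_refl x, h1.le, h1.le.trans h2.le⟩
    · refine ⟨_, h.loc_le hy, fun h1 h2 => ?_⟩
      simp only [Finset.mem_filter, Finset.mem_univ, true_and]
      exact ⟨h1.le.trans h2.le, h2.le, le_refl y⟩
  obtain ⟨Q, hQ, hm⟩ := key
  refine ⟨fun h1 h2 => ?_, fun h1 h2 => ?_⟩
  · obtain ⟨m1, m2, m3⟩ := hm h1.1 h2.1
    exact hQ.ws x m1 b m2 y m3 h1 h2
  · obtain ⟨m1, m2, m3⟩ := hm h1.1 h2.1
    exact hQ.sw x m1 b m2 y m3 h1 h2

end Pool.Agent.ST14
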