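import Pool.Agent.ST14.StrStmts

/-!
Items (5) and (6) of the structure theorem.
-/

set_option autoImplicit false

namespace Pool.Agent.ST14

open scoped Classical

section St5

theorem St5_mem_idl {P : Type} [PartialOrder P] {Q I : Finset P} :
    I ∈ idl Q ↔ I ⊆ Q ∧ ∀ x ∈ Q, ∀ y ∈ I, x ≤ y → x ∈ I := by
  unfold idl
  rw [Finset.mem_filter, Finset.mem_powerset]

variable {P : Type} [Fintype P] [PartialOrder P]

omit [PartialOrder P] in
theorem St5_tr_lt (ω : P → ℕ) (x y : P) : tr ω x < tr ω y ↔ ω y < ω x := by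
  unfold tr
  have hx : ω x ≤ Finset.univ.sup ω := Finset.le_sup (Finset.mem_univ x)
  have hy : ω y ≤ Finset.univ.sup ω := Finset.le_sup (Finset.mem_univ y)
  omega

theorem St5_tr_scov (ω : P → ℕ) (x y : P) : SCov (tr ω) x y ↔ WCov ω x y := by
  unfold SCov WCov
  rw [St5_tr_lt]

omit [PartialOrder P] in
theorem St5_rv_lt (ω : P → ℕ) (x y : P) :
    rv ω (OrderDual.toDual x) < rv ω (OrderDual.toDual y) ↔ ω y < ω x := by
  unfold rv
  rw [OrderDual.ofDual_toDual, OrderDual.ofDual_toDual]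
  have hx : ω x ≤ Finset.univ.sup ω := Finset.le_sup (Finset.mem_univ x)
  have hy : ω y ≤ Finset.univ.sup ω := Finset.le_sup (Finset.mem_univ y)
  omega

theorem St5_rv_scov (ω : P → ℕ) (x y : P) :
    SCov (rv ω) (OrderDual.toDual y) (OrderDual.toDual x) ↔ SCov ω x y := by
  unfold SCov
  rw [toDual_covBy_toDual_iff, St5_rv_lt]

theorem St5_rv_wcov (ω : P → ℕ) (x y : P) :
    WCov (rv ω) (OrderDual.toDual y) (OrderDual.toDual x) ↔ WCov ω x y := by
  unfold WCov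
  rw [toDual_covBy_toDual_iff, St5_rv_lt]

theorem St5_rv_LL (ω : P → ℕ) {x u : P} (h : LL ω x u) :
    LL (rv ω) (OrderDual.toDual u) (OrderDual.toDual x) := by
  obtain ⟨y, z, h1, h2, h3, h4⟩ := h
  exact ⟨OrderDual.toDual z, OrderDual.toDual y, OrderDual.toDual_le_toDual.2 h3,
    OrderDual.toDual_lt_toDual.2 h2, OrderDual.toDual_le_toDual.2 h1, (St5_rv_lt ω y z).2 h4⟩

theorem St5_mem_AA {ω : P → ℕ} {u : P} : u ∈ AA ω ↔ ∃ x, LL ω x u := by
  unfold AA
  rw [Finset.mem_filter]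
  exact ⟨fun h => h.2, fun h => ⟨Finset.mem_univ _, h⟩⟩

theorem St5_mem_CC {ω : P → ℕ} {x : P} : x ∈ CC ω ↔ ∃ u, LL ω x u := by
  unfold CC
  rw [Finset.mem_filter]
  exact ⟨fun h => h.2, fun h => ⟨Finset.mem_univ _, h⟩⟩

/-- Two different elements of `A` cannot both have `T` inside the same single minimal element. -/
theorem St5_hall (h3 : St3) {ω : P → ℕ} (hm : Mini ω) {i u u' : P} (hi : IsMin i)
    (hu : u ∈ AA ω) (hu' : u' ∈ AA ω) (hT : ∀ z, LL ω z u → z = i) (hT' : ∀ z, LL ω z u' → z = i) :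
    u = u' := by
  by_contra hne
  have hJ : ({i} : Finset P) ∈ idl Finset.univ := by
    rw [St5_mem_idl]
    refine ⟨Finset.subset_univ _, fun x _ y hy hxy => ?_⟩
    rw [Finset.mem_singleton] at hy ⊢
    subst hy
    exact le_antisymm hxy (hi hxy)
  have h4 := h3 P ω hm {i} hJ
  have h5 : ({u, u'} : Finset P) ⊆ (AA ω).filter fun u => TT ω u ⊆ {i} := by
    have hsub : ∀ v, (∀ z, LL ω z v → z = i) → TT ω v ⊆ {i} := by
      intro v hv z hz
      unfold TT at hz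
      rw [Finset.mem_filter] at hz
      rw [Finset.mem_singleton]
      exact hv z hz.2
    intro v hv
    rw [Finset.mem_insert, Finset.mem_singleton] at hv
    rw [Finset.mem_filter]
    rcases hv with rfl | rfl
    · exact ⟨hu, hsub _ hT⟩
    · exact ⟨hu', hsub _ hT'⟩
  have h6 := Finset.card_le_card h5
  rw [Finset.card_pair hne] at h6
  rw [Finset.card_singleton] at h4
  omega

theorem St5_base (h1 : St1) (h3 : St3) {ω : P → ℕ} (hm : Mini ω) {i u u' : P} (hi : IsMin i)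
    (hu : ¬ IsMax u) (hu' : ¬ IsMax u') (h : SCov ω i u) (h' : SCov ω i u') : u = u' := by
  have key : ∀ v, ¬ IsMax v → SCov ω i v → v ∈ AA ω ∧ ∀ z, LL ω z v → z = i := by
    intro v hv hc
    have h2 := ((h1 P ω hm).1 v hv).2.1 i hc
    refine ⟨St5_mem_AA.2 ⟨i, (h2 i).2 le_rfl⟩, fun z hz => ?_⟩
    have h4 := (h2 z).1 hz
    exact le_antisymm h4 (hi h4)
  exact St5_hall h3 hm hi (key u hu h).1 (key u' hu' h').1 (key u hu h).2 (key u' hu' h').2

theorem St5_base_dual (h1 : St1) (h3 : St3) (hd : K5d_Stmt) {ω : P → ℕ} (hm : Mini ω)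
    {M x x' : P} (hM : IsMax M) (hx : ¬ IsMin x) (hx' : ¬ IsMin x') (h : SCov ω x M)
    (h' : SCov ω x' M) : x = x' := by
  have h4 := St5_base h1 h3 (hd P ω hm) (i := OrderDual.toDual M) (u := OrderDual.toDual x)
    (u' := OrderDual.toDual x') (isMin_toDual_iff.2 hM) (fun h5 => hx (isMax_toDual_iff.1 h5))
    (fun h5 => hx' (isMax_toDual_iff.1 h5)) ((St5_rv_scov ω x M).2 h) ((St5_rv_scov ω x' M).2 h')
  exact OrderDual.toDual.injective h4

/-- Item (5). -/
theorem st5 (h1 : St1) (h3 : St3) (hc : K5c_Stmt) (hd : K5d_Stmt) : St5 := by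
  intro P _ _ ω hm
  refine ⟨?_, ?_, ?_, ?_⟩
  · intro i u u' hi hu hu' h h'
    exact St5_base h1 h3 hm hi hu hu' h h'
  · intro i u u' hi hu hu' h h'
    exact St5_base h1 h3 (hc P ω hm) hi hu hu' ((St5_tr_scov ω i u).2 h)
      ((St5_tr_scov ω i u').2 h')
  · intro M x x' hM hx hx' h h'
    exact St5_base_dual h1 h3 hd hm hM hx hx' h h'
  · intro M x x' hM hx hx' h h'
    exact St5_base_dual h1 h3 hd (hc P ω hm) hM hx hx' ((St5_tr_scov ω x M).2 h)
      ((St5_tr_scov ω x' M).2 h')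

/-- If `x << u` and `u` has no strict lower cover then `x << w` for a weak lower cover `w`. -/
theorem St6_step {ω : P → ℕ} (hω : Function.Injective ω) {x u : P} (h : LL ω x u)
    (hu : ∀ x, ¬ SCov ω x u) : ∃ w, WCov ω w u ∧ LL ω x w := by
  obtain ⟨y, z, h1, h2, h3, h4⟩ := h
  have hlt : ∀ w : P, w ⋖ u → WCov ω w u := by
    intro w hw
    refine ⟨hw, lt_of_le_of_ne (not_lt.1 fun h5 => hu w ⟨hw, h5⟩) fun h5 => hw.lt.ne (hω h5)⟩
  rcases h3.lt_or_eq with h5 | h5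
  · obtain ⟨w, h6, h7⟩ := exists_le_covBy_of_lt h5
    exact ⟨w, hlt w h7, y, z, h1, h2, h6, h4⟩
  · subst h5
    obtain ⟨w, h6, h7⟩ := exists_le_covBy_of_lt h2
    have h8 := hlt w h7
    have h9 : ω w < ω y := h8.2.trans h4
    have h10 : y < w := lt_of_le_of_ne h6 fun h => by
      rw [h] at h9
      exact lt_irrefl _ h9
    exact ⟨w, h8, y, w, h1, h10, le_rfl, h9⟩

theorem St6_base (h1 : St1) (h2 : St2) (h3 : St3) (hc : K5c_Stmt) (hd : K5d_Stmt) {ω : P → ℕ}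
    (hm : Mini ω) {u : P} (hu : u ∈ AA ω) : ∃ x, SCov ω x u := by
  by_contra hcon
  push Not at hcon
  obtain ⟨x, hx⟩ := St5_mem_AA.1 hu
  by_cases hmax : IsMax u
  · obtain ⟨w, hw, hxw⟩ := St6_step hm.inj hx hcon
    have hminAA : ∀ v, (∃ x, LL ω x v) → ¬ IsMin v := by
      rintro v ⟨x, y, z, h4, h5, h6, h7⟩ hv
      have h8 : y < v := h5.trans_le h6
      exact absurd (hv h8.le) (not_le_of_gt h8)
    have hTu : ∀ z, LL ω z u → LL ω z w := by
      intro z hz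
      obtain ⟨w', hw', hzw'⟩ := St6_step hm.inj hz hcon
      have h5 := (st5 h1 h3 hc hd P ω hm).2.2.2 u w w' hmax (hminAA w ⟨x, hxw⟩)
        (hminAA w' ⟨z, hzw'⟩) hw hw'
      rw [h5]
      exact hzw'
    have hwmax : ¬ IsMax w := fun h => absurd (h hw.1.lt.le) (not_le_of_gt hw.1.lt)
    have hN : ∃ n, SCov ω n w := by
      by_contra hcon2
      push Not at hcon2
      exact ((h1 P ω hm).1 w hwmax).2.2 hcon2 x hxw
    obtain ⟨n, hn⟩ := hN
    have hTw := ((h1 P ω hm).1 w hwmax).2.1 n hn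
    have hnmin : IsMin n := by
      by_contra hnm
      obtain ⟨c, -, hcu⟩ := (h2 P ω hm n w u fun h => hnm h.1).2 hn hw
      exact hcon c hcu
    have hTw' : ∀ z, LL ω z w → z = n := by
      intro z hz
      have h4 := (hTw z).1 hz
      exact le_antisymm h4 (hnmin h4)
    have h5 := St5_hall h3 hm hnmin hu (St5_mem_AA.2 ⟨x, hxw⟩) (fun z hz => hTw' z (hTu z hz)) hTw'
    exact hw.1.lt.ne h5.symm
  · exact ((h1 P ω hm).1 u hmax).2.2 hcon x hx

/-- Item (6). -/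
theorem st6 (h1 : St1) (h2 : St2) (h3 : St3) (hc : K5c_Stmt) (hd : K5d_Stmt) : St6 := by
  intro P _ _ ω hm
  refine ⟨fun u hu => St6_base h1 h2 h3 hc hd hm hu, ?_⟩
  intro x hx
  obtain ⟨u, hu⟩ := St5_mem_CC.1 hx
  obtain ⟨v, hv⟩ := St6_base h1 h2 h3 hc hd (hd P ω hm) (u := OrderDual.toDual x)
    (St5_mem_AA.2 ⟨OrderDual.toDual u, St5_rv_LL ω hu⟩)
  exact ⟨OrderDual.ofDual v, (St5_rv_scov ω x (OrderDual.ofDual v)).1 hv⟩

end St5

end Pool.Agent.ST14
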