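import Pool.Agent.ST14.KapStmts

/-!
Ideals of finite subsets, associativity of the convolution, deconcatenation.
-/

set_option autoImplicit false

namespace Pool.Agent.ST14

open scoped Classical

variable {P : Type} [PartialOrder P]

theorem mem_idl {Q I : Finset P} :
    I ∈ idl Q ↔ I ⊆ Q ∧ ∀ x ∈ Q, ∀ y ∈ I, x ≤ y → x ∈ I := by
  unfold idl
  rw [Finset.mem_filter, Finset.mem_powerset]

theorem empty_mem_idl (Q : Finset P) : (∅ : Finset P) ∈ idl Q := by
  rw [mem_idl]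
  exact ⟨Finset.empty_subset _, fun x _ y hy => absurd hy (Finset.notMem_empty y)⟩

theorem self_mem_idl (Q : Finset P) : Q ∈ idl Q := by
  rw [mem_idl]
  exact ⟨Finset.Subset.refl _, fun x hx _ _ _ => hx⟩

theorem subset_of_mem_idl {Q I : Finset P} (h : I ∈ idl Q) : I ⊆ Q := (mem_idl.1 h).1

theorem idl_trans {Q K I : Finset P} (hK : K ∈ idl Q) (hI : I ∈ idl K) : I ∈ idl Q := by
  rw [mem_idl] at *
  exact ⟨hI.1.trans hK.1, fun x hx y hy hxy => hI.2 x (hK.2 x hx y (hI.1 hy) hxy) y hy hxy⟩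

theorem sdiff_mem_idl {Q K I : Finset P} (hK : K ∈ idl Q) (hI : I ∈ idl Q) :
    K \ I ∈ idl (Q \ I) := by
  rw [mem_idl] at *
  refine ⟨Finset.sdiff_subset_sdiff hK.1 (Finset.Subset.refl _), ?_⟩
  intro x hx y hy hxy
  rw [Finset.mem_sdiff] at *
  exact ⟨hK.2 x hx.1 y hy.1 hxy, hx.2⟩

theorem mem_idl_of_sub {Q K I : Finset P} (hI : I ∈ idl Q) (hK : K ∈ idl Q) (h : I ⊆ K) :
    I ∈ idl K := by
  rw [mem_idl] at *
  exact ⟨h, fun x hx y hy hxy => hI.2 x (hK.1 hx) y hy hxy⟩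

theorem union_mem_idl {Q I J : Finset P} (hI : I ∈ idl Q) (hJ : J ∈ idl (Q \ I)) :
    I ∪ J ∈ idl Q := by
  rw [mem_idl] at *
  refine ⟨Finset.union_subset hI.1 (hJ.1.trans Finset.sdiff_subset), ?_⟩
  intro x hx y hy hxy
  rw [Finset.mem_union] at *
  rcases hy with hy | hy
  · exact Or.inl (hI.2 x hx y hy hxy)
  · by_cases h : x ∈ I
    · exact Or.inl h
    · exact Or.inr (hJ.2 x (Finset.mem_sdiff.2 ⟨hx, h⟩) y hy hxy)

theorem sum_assoc {M : Type} [AddCommMonoid M] (Q : Finset P)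
    (F : Finset P → Finset P → Finset P → M) :
    ∑ I ∈ idl Q, ∑ J ∈ idl (Q \ I), F I J ((Q \ I) \ J) =
      ∑ K ∈ idl Q, ∑ I ∈ idl K, F I (K \ I) (Q \ K) := by
  rw [Finset.sum_sigma', Finset.sum_sigma']
  refine Finset.sum_bij' (i := fun p _ => ⟨p.1 ∪ p.2, p.1⟩) (j := fun p _ => ⟨p.2, p.1 \ p.2⟩)
    ?_ ?_ ?_ ?_ ?_
  · rintro ⟨I, J⟩ h
    rw [Finset.mem_sigma] at h ⊢
    refine ⟨union_mem_idl h.1 h.2, ?_⟩
    exact mem_idl_of_sub h.1 (union_mem_idl h.1 h.2) Finset.subset_union_left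
  · rintro ⟨K, I⟩ h
    rw [Finset.mem_sigma] at h ⊢
    exact ⟨idl_trans h.1 h.2, sdiff_mem_idl h.1 (idl_trans h.1 h.2)⟩
  · rintro ⟨I, J⟩ h
    rw [Finset.mem_sigma] at h
    have h2 : Disjoint J I := by
      rw [Finset.disjoint_left]
      intro x hx hx'
      exact (Finset.mem_sdiff.1 (subset_of_mem_idl h.2 hx)).2 hx'
    have h3 : (I ∪ J) \ I = J := by
      rw [Finset.union_sdiff_left, Finset.sdiff_eq_self_of_disjoint h2]
    simp only [h3]
  · rintro ⟨K, I⟩ h
    rw [Finset.mem_sigma] at h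
    have h3 : I ∪ K \ I = K := Finset.union_sdiff_of_subset (subset_of_mem_idl h.2)
    simp only [h3]
  · rintro ⟨I, J⟩ h
    rw [Finset.mem_sigma] at h
    have h2 : Disjoint J I := by
      rw [Finset.disjoint_left]
      intro x hx hx'
      exact (Finset.mem_sdiff.1 (subset_of_mem_idl h.2 hx)).2 hx'
    have h3 : (I ∪ J) \ I = J := by
      rw [Finset.union_sdiff_left, Finset.sdiff_eq_self_of_disjoint h2]
    simp only [h3]
    rw [Finset.sdiff_sdiff_left']
    congr 1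
    ext x
    simp only [Finset.mem_sdiff, Finset.mem_union, Finset.mem_inter]
    tauto

theorem kap_nil (ω : P → ℕ) (Q : Finset P) : kap ω Q [] = if Q = ∅ then 1 else 0 := by
  rw [kap]

theorem kap_cons (ω : P → ℕ) (Q : Finset P) (a : ℕ) (w : List ℕ) :
    kap ω Q (a :: w) = ∑ I ∈ (idl Q).filter (fun I => I.card = a ∧ WeakOnly ω I),
      kap ω (Q \ I) w := by
  rw [kap]

theorem kap_cons' (ω : P → ℕ) (Q : Finset P) (a : ℕ) (w : List ℕ) :
    kap ω Q (a :: w) = ∑ I ∈ idl Q, (if I.card = a ∧ WeakOnly ω I then 1 else 0) *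
      kap ω (Q \ I) w := by
  rw [kap_cons, Finset.sum_filter]
  apply Finset.sum_congr rfl
  intro I _
  split_ifs
  · rw [one_mul]
  · rw [zero_mul]

theorem kap_append (ω : P → ℕ) (Q : Finset P) (w w' : List ℕ) :
    kap ω Q (w ++ w') = ∑ I ∈ idl Q, kap ω I w * kap ω (Q \ I) w' := by
  induction w generalizing Q with
  | nil =>
    rw [List.nil_append, Finset.sum_eq_single ∅]
    · rw [kap_nil, if_pos rfl, one_mul, Finset.sdiff_empty]
    · intro I _ hI
      rw [kap_nil, if_neg hI, zero_mul]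
    · intro h
      exact absurd (empty_mem_idl Q) h
  | cons a w ih =>
    rw [List.cons_append, kap_cons']
    have h1 : ∀ I ∈ idl Q, (if I.card = a ∧ WeakOnly ω I then (1 : ℕ) else 0) *
        kap ω (Q \ I) (w ++ w') = ∑ J ∈ idl (Q \ I), (if I.card = a ∧ WeakOnly ω I then 1 else 0) *
        (kap ω J w * kap ω ((Q \ I) \ J) w') := by
      intro I _
      rw [ih, Finset.mul_sum]
    rw [Finset.sum_congr rfl h1, sum_assoc Q (fun I J K =>
      (if I.card = a ∧ WeakOnly ω I then 1 else 0) * (kap ω J w * kap ω K w'))]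
    apply Finset.sum_congr rfl
    intro K _
    rw [kap_cons', Finset.sum_mul]
    apply Finset.sum_congr rfl
    intro I _
    rw [mul_assoc]

theorem k1 : K1_Stmt := fun _ _ ω Q w w' => kap_append ω Q w w'

theorem k7 : K7_Stmt := by
  intro P _ ω Q h a f g b
  apply h
  apply List.Perm.append_right
  rw [List.append_assoc, List.append_assoc]
  apply List.Perm.append_left
  exact List.perm_append_comm

end Pool.Agent.ST14
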