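import Pool.Agent.ST14.StrStmts
import Pool.Agent.ST14.Kap1
import Pool.Agent.Lib_helper92.SPE.K5
import Pool.Agent.ST14.K6

/-!
Item (7) of the structure theorem: the matching `N : A → C`, `S : C → A`.
-/

set_option autoImplicit false

namespace Pool.Agent.ST14

open scoped Classical

namespace M7

section basic

variable {P : Type} [PartialOrder P]

theorem LL_mono {ω : P → ℕ} {z x u v : P} (hz : z ≤ x) (h : LL ω x u) (hu : u ≤ v) :
    LL ω z v := by
  obtain ⟨y, y', h1, h2, h3, h4⟩ := h
  exact ⟨y, y', hz.trans h1, h2, h3.trans hu, h4⟩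

theorem LL_lt {ω : P → ℕ} {x u : P} (h : LL ω x u) : x < u := by
  obtain ⟨y, y', h1, h2, h3, -⟩ := h
  exact h1.trans_lt (h2.trans_le h3)

theorem LL_of_scov {ω : P → ℕ} {x u : P} (h : SCov ω x u) : LL ω x u :=
  ⟨x, u, le_rfl, h.1.lt, le_rfl, h.2⟩

end basic

section fin

variable {P : Type} [Fintype P] [PartialOrder P]

theorem mem_AA {ω : P → ℕ} {u : P} : u ∈ AA ω ↔ ∃ x, LL ω x u := by
  unfold AA
  rw [Finset.mem_filter]
  exact ⟨fun h => h.2, fun h => ⟨Finset.mem_univ _, h⟩⟩

theorem mem_CC {ω : P → ℕ} {x : P} : x ∈ CC ω ↔ ∃ u, LL ω x u := by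
  unfold CC
  rw [Finset.mem_filter]
  exact ⟨fun h => h.2, fun h => ⟨Finset.mem_univ _, h⟩⟩

theorem mem_TS {ω : P → ℕ} {U : Finset P} {x : P} : x ∈ TS ω U ↔ ∃ u ∈ U, LL ω x u := by
  unfold TS
  rw [Finset.mem_filter]
  exact ⟨fun h => h.2, fun h => ⟨Finset.mem_univ _, h⟩⟩

theorem mem_TT {ω : P → ℕ} {u x : P} : x ∈ TT ω u ↔ LL ω x u := by
  unfold TT
  rw [Finset.mem_filter]
  exact ⟨fun h => h.2, fun h => ⟨Finset.mem_univ _, h⟩⟩

theorem AA_up {ω : P → ℕ} {u v : P} (h : u ∈ AA ω) (huv : u ≤ v) : v ∈ AA ω := by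
  rw [mem_AA] at h ⊢
  obtain ⟨x, hx⟩ := h
  exact ⟨x, LL_mono le_rfl hx huv⟩

theorem not_min_of_AA {ω : P → ℕ} {u : P} (h : u ∈ AA ω) : ¬ IsMin u := by
  rw [mem_AA] at h
  obtain ⟨x, hx⟩ := h
  exact fun hm => (not_isMin_of_lt (LL_lt hx)) hm

/-- The last strict step of a chain is either a strict cover of the top or below a lower cover. -/
theorem LL_cases {ω : P → ℕ} (hω : Function.Injective ω) {x u : P} (h : LL ω x u) :
    (∃ y, SCov ω y u ∧ x ≤ y) ∨ ∃ w, w ⋖ u ∧ LL ω x w := by
  obtain ⟨y, z, h1, h2, h3, h4⟩ := h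
  rcases h3.lt_or_eq with h5 | h5
  · obtain ⟨w, hw1, hw2⟩ := exists_le_covBy_of_lt h5
    exact Or.inr ⟨w, hw2, y, z, h1, h2, hw1, h4⟩
  · subst h5
    obtain ⟨w, hw1, hw2⟩ := exists_le_covBy_of_lt h2
    rcases hw1.lt_or_eq with h6 | h6
    · rcases lt_or_ge (ω w) (ω y) with h7 | h7
      · exact Or.inr ⟨w, hw2, y, w, h1, h6, le_rfl, h7⟩
      · exact Or.inl ⟨w, ⟨hw2, h4.trans_le h7⟩, h1.trans hw1⟩
    · subst h6
      exact Or.inl ⟨y, ⟨hw2, h4⟩, h1⟩

theorem cov_cases {ω : P → ℕ} (hω : Function.Injective ω) {x y : P} (h : x ⋖ y) :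
    WCov ω x y ∨ SCov ω x y := by
  rcases lt_trichotomy (ω x) (ω y) with h1 | h1 | h1
  · exact Or.inl ⟨h, h1⟩
  · exact absurd (hω h1) h.lt.ne
  · exact Or.inr ⟨h, h1⟩

variable (hA1 : St1) (hA2 : St2) (hA3 : St3) (hA4 : St4) (hA5 : St5) (hA6 : St6)

include hA3 in
theorem hall {ω : P → ℕ} (hM : Mini ω) {J K : Finset P} (hJ : ∀ x ∈ J, IsMin x)
    (hK : ∀ u ∈ K, u ∈ AA ω ∧ ∀ z, LL ω z u → z ∈ J) : K.card ≤ J.card := by
  refine le_trans (Finset.card_le_card ?_) (hA3 P ω hM J ?_)
  · intro u hu
    rw [Finset.mem_filter]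
    exact ⟨(hK u hu).1, fun z hz => (hK u hu).2 z (mem_TT.1 hz)⟩
  · rw [mem_idl]
    refine ⟨Finset.subset_univ _, fun x _ y hy hxy => ?_⟩
    have := (hJ y hy).eq_of_le hxy
    rwa [this]

include hA1 in
theorem sl_unique {ω : P → ℕ} (hM : Mini ω) {u x x' : P} (hu : ¬ IsMax u) (h : SCov ω x u)
    (h' : SCov ω x' u) : x = x' := by
  have := ((hA1 P ω hM).1 u hu).1
  refine this.s_lower x ?_ x' ?_ u ?_ h h'
  · simpa using h.1.le
  · simpa using h'.1.le
  · simp

include hA1 in
theorem su_unique {ω : P → ℕ} (hM : Mini ω) {x u u' : P} (hx : ¬ IsMin x) (h : SCov ω x u)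
    (h' : SCov ω x u') : u = u' := by
  have := ((hA1 P ω hM).2 x hx).1
  refine this.s_upper x ?_ u ?_ u' ?_ h h'
  · simp
  · simpa using h.1.le
  · simpa using h'.1.le

include hA1 in
theorem LL_iff {ω : P → ℕ} (hM : Mini ω) {u x : P} (hu : ¬ IsMax u) (h : SCov ω x u) (z : P) :
    LL ω z u ↔ z ≤ x := ((hA1 P ω hM).1 u hu).2.1 x h z

/-- Data attached to an element of `A` which is maximal and all of whose strict lower covers are
minimal. -/
structure Prm (ω : P → ℕ) (M i : P) : Prop where
  cov : SCov ω i M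
  min : IsMin i
  uniq : ∀ x, SCov ω x M → x = i
  alt : (∀ z, LL ω z M → z = i) ∨ ∃ w n, w ∈ AA ω ∧ w < M ∧ n ≠ i ∧ IsMin n ∧
    (∀ z, LL ω z w ↔ z = n) ∧ ∀ z, LL ω z M → z = i ∨ z = n

include hA1 hA2 hA3 hA4 hA5 hA6 in
theorem prm {ω : P → ℕ} (hM : Mini ω) {M : P} (hA : M ∈ AA ω) (hmax : IsMax M)
    (hmin : ∀ x, SCov ω x M → IsMin x) : ∃ i, Prm ω M i := by
  obtain ⟨i, hi⟩ := (hA6 P ω hM).1 M hA
  set U : Finset P := (AA ω).filter fun z => z ≤ M with hU
  have hUidl : U ∈ idl (AA ω) := by
    rw [mem_idl]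
    refine ⟨Finset.filter_subset _ _, fun x hx y hy hxy => ?_⟩
    rw [hU, Finset.mem_filter] at hy ⊢
    exact ⟨hx, hxy.trans hy.2⟩
  have hMU : M ∈ U := by
    rw [hU, Finset.mem_filter]
    exact ⟨hA, le_rfl⟩
  -- elements of `A` strictly below `M` are below a weak lower cover in `A`
  have hbelow : ∀ z ∈ AA ω, z < M → ∃ y, z ≤ y ∧ y ∈ AA ω ∧ WCov ω y M := by
    intro z hz hzM
    obtain ⟨y, hy1, hy2⟩ := exists_le_covBy_of_lt hzM
    rcases cov_cases hM.inj hy2 with h | h
    · exact ⟨y, hy1, AA_up hz hy1, h⟩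
    · have := hmin y h
      exact absurd this (not_min_of_AA (AA_up hz hy1))
  by_cases hw : ∃ w ∈ AA ω, WCov ω w M
  · obtain ⟨w, hwA, hwM⟩ := hw
    have hwmax : ¬ IsMax w := fun h => (not_isMax_of_lt hwM.1.lt) h
    obtain ⟨n, hn⟩ := (hA6 P ω hM).1 w hwA
    have hnmin : IsMin n := by
      by_contra hcon
      obtain ⟨c, hc1, hc2⟩ := (hA2 P ω hM n w M (fun h => hcon h.1)).2 hn hwM
      exact (not_isMin_of_lt hc1.1.lt) (hmin c hc2)
    have hTw : ∀ z, LL ω z w ↔ z = n := by
      intro z
      rw [LL_iff hA1 hM hwmax hn]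
      exact ⟨fun h => hnmin.eq_of_le h, fun h => h.le⟩
    have hni : ∀ x, SCov ω x M → x ≠ n := by
      intro x hx hxn
      subst hxn
      exact hx.1.2 hn.1.lt hwM.1.lt
    -- `U = {w, M}`
    have hUeq : U = {w, M} := by
      ext z
      rw [hU, Finset.mem_filter, Finset.mem_insert, Finset.mem_singleton]
      constructor
      · rintro ⟨hz1, hz2⟩
        rcases hz2.lt_or_eq with h | h
        · obtain ⟨y, hy1, hy2, hy3⟩ := hbelow z hz1 h
          have hyw : y = w := (hA5 P ω hM).2.2.2 M y w hmax (not_min_of_AA hy2)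
            (not_min_of_AA hwA) hy3 hwM
          subst hyw
          rcases hy1.lt_or_eq with h2 | h2
          · exfalso
            obtain ⟨y', hy'1, hy'2⟩ := exists_le_covBy_of_lt h2
            have hy'A := AA_up hz1 hy'1
            rcases cov_cases hM.inj hy'2 with h3 | h3
            · -- weak lower cover of `w` in `A`
              have h4 : ({y', y} : Finset P).card ≤ ({n} : Finset P).card := by
                refine hall hA3 hM (fun x hx => ?_) (fun u hu => ?_)
                · rw [Finset.mem_singleton] at hx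
                  rw [hx]
                  exact hnmin
                · rw [Finset.mem_insert, Finset.mem_singleton] at hu
                  rcases hu with rfl | rfl
                  · exact ⟨hy'A, fun x hx => by
                      rw [Finset.mem_singleton]
                      exact (hTw x).1 (LL_mono le_rfl hx hy'2.le)⟩
                  · exact ⟨hwA, fun x hx => by
                      rw [Finset.mem_singleton]
                      exact (hTw x).1 hx⟩
              rw [Finset.card_pair hy'2.lt.ne, Finset.card_singleton] at h4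
              omega
            · have := sl_unique hA1 hM hwmax h3 hn
              subst this
              exact not_min_of_AA hy'A hnmin
          · exact Or.inl h2
        · exact Or.inr h
      · rintro (rfl | rfl)
        · exact ⟨hwA, hwM.1.le⟩
        · exact ⟨hA, le_rfl⟩
    have hweak : WeakOnly ω U := by
      intro x hx y hy hxy
      rw [hUeq, Finset.mem_insert, Finset.mem_singleton] at hx hy
      rcases hx with rfl | rfl <;> rcases hy with rfl | rfl
      · exact absurd hxy (lt_irrefl _)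
      · exact hwM.2
      · exact absurd hxy (not_lt_of_gt hwM.1.lt)
      · exact absurd hxy (lt_irrefl _)
    have htight := hA4 P ω hM U hUidl hweak
    have hcU : U.card = 2 := by rw [hUeq, Finset.card_pair hwM.1.lt.ne]
    rw [hcU] at htight
    have hin : ∀ x, SCov ω x M → x ∈ TS ω U := fun x hx => mem_TS.2 ⟨M, hMU, LL_of_scov hx⟩
    have hnin : n ∈ TS ω U := mem_TS.2 ⟨M, hMU, LL_mono le_rfl (LL_of_scov hn) hwM.1.le⟩
    have hTS : ∀ x, x ∈ TS ω U → x = i ∨ x = n := by
      have hsub : ({i, n} : Finset P) ⊆ TS ω U := by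
        intro x hx
        rw [Finset.mem_insert, Finset.mem_singleton] at hx
        rcases hx with rfl | rfl
        · exact hin _ hi
        · exact hnin
      have heq := Finset.eq_of_subset_of_card_le hsub (by
        rw [htight, Finset.card_pair (hni i hi)])
      intro x hx
      rw [← heq, Finset.mem_insert, Finset.mem_singleton] at hx
      exact hx
    refine ⟨i, hi, hmin i hi, fun x hx => ?_, Or.inr ⟨w, n, hwA, hwM.1.lt, (hni i hi).symm, hnmin,
      hTw, fun z hz => hTS z (mem_TS.2 ⟨M, hMU, hz⟩)⟩⟩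
    exact (hTS x (hin x hx)).resolve_right (hni x hx)
  · have hUeq : U = {M} := by
      ext z
      rw [hU, Finset.mem_filter, Finset.mem_singleton]
      constructor
      · rintro ⟨hz1, hz2⟩
        rcases hz2.lt_or_eq with h | h
        · obtain ⟨y, -, hy2, hy3⟩ := hbelow z hz1 h
          exact absurd ⟨y, hy2, hy3⟩ hw
        · exact h
      · rintro rfl
        exact ⟨hA, le_rfl⟩
    have hweak : WeakOnly ω U := by
      intro x hx y hy hxy
      rw [hUeq, Finset.mem_singleton] at hx hy
      subst hx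
      subst hy
      exact absurd hxy (lt_irrefl _)
    have htight := hA4 P ω hM U hUidl hweak
    have hcU : U.card = 1 := by rw [hUeq, Finset.card_singleton]
    rw [hcU] at htight
    have hin : ∀ x, SCov ω x M → x ∈ TS ω U := fun x hx => mem_TS.2 ⟨M, hMU, LL_of_scov hx⟩
    obtain ⟨j, hj⟩ := Finset.card_eq_one.1 htight
    have hij : i = j := by
      have := hin i hi
      rwa [hj, Finset.mem_singleton] at this
    subst hij
    refine ⟨i, hi, hmin i hi, fun x hx => ?_, Or.inl fun z hz => ?_⟩
    · have := hin x hx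
      rwa [hj, Finset.mem_singleton] at this
    · have : z ∈ TS ω U := mem_TS.2 ⟨M, hMU, hz⟩
      rwa [hj, Finset.mem_singleton] at this

include hA1 hA3 in
/-- The strict upper covers of the partner of `M` are maximal. -/
theorem prm_up {ω : P → ℕ} (hM : Mini ω) {M i : P} (hA : M ∈ AA ω) (hmax : IsMax M)
    (h : Prm ω M i) {u : P} (hu : SCov ω i u) : IsMax u := by
  by_contra hcon
  have hTu : ∀ z, LL ω z u ↔ z = i := by
    intro z
    rw [LL_iff hA1 hM hcon hu]
    exact ⟨fun h' => h.min.eq_of_le h', fun h' => h'.le⟩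
  have huA : u ∈ AA ω := mem_AA.2 ⟨i, LL_of_scov hu⟩
  have huM : u ≠ M := fun h' => hcon (h' ▸ hmax)
  rcases h.alt with h1 | ⟨w, n, hwA, hwM, hni, hnmin, hTw, hTM⟩
  · have h4 : ({u, M} : Finset P).card ≤ ({i} : Finset P).card := by
      refine hall hA3 hM (fun x hx => ?_) (fun v hv => ?_)
      · rw [Finset.mem_singleton] at hx
        rw [hx]
        exact h.min
      · rw [Finset.mem_insert, Finset.mem_singleton] at hv
        rcases hv with rfl | rfl
        · exact ⟨huA, fun x hx => by
            rw [Finset.mem_singleton]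
            exact (hTu x).1 hx⟩
        · exact ⟨hA, fun x hx => by
            rw [Finset.mem_singleton]
            exact h1 x hx⟩
    rw [Finset.card_pair huM, Finset.card_singleton] at h4
    omega
  · have huw : u ≠ w := by
      rintro rfl
      have := (hTw i).1 (LL_of_scov hu)
      exact hni this.symm
    have h4 : ({u, w, M} : Finset P).card ≤ ({i, n} : Finset P).card := by
      refine hall hA3 hM (fun x hx => ?_) (fun v hv => ?_)
      · rw [Finset.mem_insert, Finset.mem_singleton] at hx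
        rcases hx with rfl | rfl
        · exact h.min
        · exact hnmin
      · rw [Finset.mem_insert, Finset.mem_insert, Finset.mem_singleton] at hv
        rcases hv with rfl | rfl | rfl
        · exact ⟨huA, fun x hx => by
            rw [Finset.mem_insert, Finset.mem_singleton]
            exact Or.inl ((hTu x).1 hx)⟩
        · exact ⟨hwA, fun x hx => by
            rw [Finset.mem_insert, Finset.mem_singleton]
            exact Or.inr ((hTw x).1 hx)⟩
        · exact ⟨hA, fun x hx => by
            rw [Finset.mem_insert, Finset.mem_singleton]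
            exact hTM x hx⟩
    have h5 : ({u, w, M} : Finset P).card = 3 := by
      rw [Finset.card_insert_of_notMem, Finset.card_pair hwM.ne]
      rw [Finset.mem_insert, Finset.mem_singleton]
      push Not
      exact ⟨huw, huM⟩
    have h6 : ({i, n} : Finset P).card ≤ 2 := Finset.card_le_two
    omega

include hA3 in
/-- Different `M` have different partners. -/
theorem prm_inj {ω : P → ℕ} (hM : Mini ω) {M M' i : P} (hA : M ∈ AA ω) (hmax : IsMax M)
    (h : Prm ω M i) (hA' : M' ∈ AA ω) (hmax' : IsMax M') (h' : Prm ω M' i) : M = M' := by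
  by_contra hne
  rcases h.alt with h1 | ⟨w, n, hwA, hwM, hni, hnmin, hTw, hTM⟩ <;>
  rcases h'.alt with h1' | ⟨w', n', hwA', hwM', hni', hnmin', hTw', hTM'⟩
  · have h4 : ({M, M'} : Finset P).card ≤ ({i} : Finset P).card := by
      refine hall hA3 hM (fun x hx => ?_) (fun v hv => ?_)
      · rw [Finset.mem_singleton] at hx
        rw [hx]
        exact h.min
      · rw [Finset.mem_insert, Finset.mem_singleton] at hv
        rcases hv with rfl | rfl
        · exact ⟨hA, fun x hx => Finset.mem_singleton.2 (h1 x hx)⟩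
        · exact ⟨hA', fun x hx => Finset.mem_singleton.2 (h1' x hx)⟩
    rw [Finset.card_pair hne, Finset.card_singleton] at h4
    omega
  · have hw'M : w' ≠ M := fun h' => (not_isMax_of_lt hwM') (h' ▸ hmax)
    have h4 : ({M, w', M'} : Finset P).card ≤ ({i, n'} : Finset P).card := by
      refine hall hA3 hM (fun x hx => ?_) (fun v hv => ?_)
      · rw [Finset.mem_insert, Finset.mem_singleton] at hx
        rcases hx with rfl | rfl
        · exact h.min
        · exact hnmin'
      · rw [Finset.mem_insert, Finset.mem_insert, Finset.mem_singleton] at hv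
        rcases hv with rfl | rfl | rfl
        · exact ⟨hA, fun x hx => Finset.mem_insert.2 (Or.inl (h1 x hx))⟩
        · exact ⟨hwA', fun x hx => by
            rw [Finset.mem_insert, Finset.mem_singleton]
            exact Or.inr ((hTw' x).1 hx)⟩
        · exact ⟨hA', fun x hx => by
            rw [Finset.mem_insert, Finset.mem_singleton]
            exact hTM' x hx⟩
    have h5 : ({M, w', M'} : Finset P).card = 3 := by
      rw [Finset.card_insert_of_notMem, Finset.card_pair hwM'.ne]
      rw [Finset.mem_insert, Finset.mem_singleton]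
      push Not
      exact ⟨hw'M.symm, hne⟩
    have h6 : ({i, n'} : Finset P).card ≤ 2 := Finset.card_le_two
    omega
  · have hwM2 : w ≠ M' := fun h' => (not_isMax_of_lt hwM) (h' ▸ hmax')
    have h4 : ({M', w, M} : Finset P).card ≤ ({i, n} : Finset P).card := by
      refine hall hA3 hM (fun x hx => ?_) (fun v hv => ?_)
      · rw [Finset.mem_insert, Finset.mem_singleton] at hx
        rcases hx with rfl | rfl
        · exact h.min
        · exact hnmin
      · rw [Finset.mem_insert, Finset.mem_insert, Finset.mem_singleton] at hv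
        rcases hv with rfl | rfl | rfl
        · exact ⟨hA', fun x hx => Finset.mem_insert.2 (Or.inl (h1' x hx))⟩
        · exact ⟨hwA, fun x hx => by
            rw [Finset.mem_insert, Finset.mem_singleton]
            exact Or.inr ((hTw x).1 hx)⟩
        · exact ⟨hA, fun x hx => by
            rw [Finset.mem_insert, Finset.mem_singleton]
            exact hTM x hx⟩
    have h5 : ({M', w, M} : Finset P).card = 3 := by
      rw [Finset.card_insert_of_notMem, Finset.card_pair hwM.ne]
      rw [Finset.mem_insert, Finset.mem_singleton]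
      push Not
      exact ⟨hwM2.symm, Ne.symm hne⟩
    have h6 : ({i, n} : Finset P).card ≤ 2 := Finset.card_le_two
    omega
  · have hw'M : w' ≠ M := fun h' => (not_isMax_of_lt hwM') (h' ▸ hmax)
    have hwM2 : w ≠ M' := fun h' => (not_isMax_of_lt hwM) (h' ▸ hmax')
    by_cases hww : w = w'
    · subst hww
      have hnn : n = n' := by
        have := (hTw n).2 rfl
        exact (hTw' n).1 this
      subst hnn
      have h4 : ({M, w, M'} : Finset P).card ≤ ({i, n} : Finset P).card := by
        refine hall hA3 hM (fun x hx => ?_) (fun v hv => ?_)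
        · rw [Finset.mem_insert, Finset.mem_singleton] at hx
          rcases hx with rfl | rfl
          · exact h.min
          · exact hnmin'
        · rw [Finset.mem_insert, Finset.mem_insert, Finset.mem_singleton] at hv
          rcases hv with rfl | rfl | rfl
          · exact ⟨hA, fun x hx => by
              rw [Finset.mem_insert, Finset.mem_singleton]
              exact hTM x hx⟩
          · exact ⟨hwA', fun x hx => by
              rw [Finset.mem_insert, Finset.mem_singleton]
              exact Or.inr ((hTw' x).1 hx)⟩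
          · exact ⟨hA', fun x hx => by
              rw [Finset.mem_insert, Finset.mem_singleton]
              exact hTM' x hx⟩
      have h5 : ({M, w, M'} : Finset P).card = 3 := by
        rw [Finset.card_insert_of_notMem, Finset.card_pair hwM'.ne]
        rw [Finset.mem_insert, Finset.mem_singleton]
        push Not
        exact ⟨hw'M.symm, hne⟩
      have h6 : ({i, n} : Finset P).card ≤ 2 := Finset.card_le_two
      omega
    · have h4 : ({M, w, w', M'} : Finset P).card ≤ ({i, n, n'} : Finset P).card := by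
        refine hall hA3 hM (fun x hx => ?_) (fun v hv => ?_)
        · rw [Finset.mem_insert, Finset.mem_insert, Finset.mem_singleton] at hx
          rcases hx with rfl | rfl | rfl
          · exact h.min
          · exact hnmin
          · exact hnmin'
        · rw [Finset.mem_insert, Finset.mem_insert, Finset.mem_insert,
            Finset.mem_singleton] at hv
          rcases hv with rfl | rfl | rfl | rfl
          · exact ⟨hA, fun x hx => by
              rw [Finset.mem_insert, Finset.mem_insert, Finset.mem_singleton]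
              have := hTM x hx
              tauto⟩
          · exact ⟨hwA, fun x hx => by
              rw [Finset.mem_insert, Finset.mem_insert, Finset.mem_singleton]
              exact Or.inr (Or.inl ((hTw x).1 hx))⟩
          · exact ⟨hwA', fun x hx => by
              rw [Finset.mem_insert, Finset.mem_insert, Finset.mem_singleton]
              exact Or.inr (Or.inr ((hTw' x).1 hx))⟩
          · exact ⟨hA', fun x hx => by
              rw [Finset.mem_insert, Finset.mem_insert, Finset.mem_singleton]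
              have := hTM' x hx
              tauto⟩
      have h5 : ({M, w, w', M'} : Finset P).card = 4 := by
        rw [Finset.card_insert_of_notMem, Finset.card_insert_of_notMem,
          Finset.card_pair hwM'.ne]
        · rw [Finset.mem_insert, Finset.mem_singleton]
          push Not
          exact ⟨hww, hwM2⟩
        · rw [Finset.mem_insert, Finset.mem_insert, Finset.mem_singleton]
          push Not
          exact ⟨hwM.ne', hw'M.symm, hne⟩
      have h6 : ({i, n, n'} : Finset P).card ≤ 3 := Finset.card_le_three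
      omega

/-- The matching relation. -/
def R (ω : P → ℕ) (x u : P) : Prop :=
  SCov ω x u ∧ (¬ (IsMin x ∧ IsMax u) ∨ ∀ y, SCov ω y u → IsMin y)

include hA1 hA2 hA3 hA4 hA5 hA6 in
theorem R_left {ω : P → ℕ} (hM : Mini ω) {x x' u : P} (h : R ω x u) (h' : R ω x' u) :
    x = x' := by
  have hA : u ∈ AA ω := mem_AA.2 ⟨x, LL_of_scov h.1⟩
  by_cases hu : IsMax u
  · by_cases hall' : ∀ y, SCov ω y u → IsMin y
    · obtain ⟨i, hi⟩ := prm hA1 hA2 hA3 hA4 hA5 hA6 hM hA hu hall'
      rw [hi.uniq x h.1, hi.uniq x' h'.1]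
    · have h1 := h.2.resolve_right hall'
      have h2 := h'.2.resolve_right hall'
      exact (hA5 P ω hM).2.2.1 u x x' hu (fun h3 => h1 ⟨h3, hu⟩) (fun h3 => h2 ⟨h3, hu⟩) h.1 h'.1
  · exact sl_unique hA1 hM hu h.1 h'.1

include hA6 in
theorem R_exists {ω : P → ℕ} (hM : Mini ω) {u : P} (hA : u ∈ AA ω) : ∃ x, R ω x u := by
  by_cases hu : IsMax u
  · by_cases hall' : ∀ y, SCov ω y u → IsMin y
    · obtain ⟨x, hx⟩ := (hA6 P ω hM).1 u hA
      exact ⟨x, hx, Or.inr hall'⟩
    · push Not at hall'
      obtain ⟨y, hy1, hy2⟩ := hall'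
      exact ⟨y, hy1, Or.inl fun h => hy2 h.1⟩
  · obtain ⟨x, hx⟩ := (hA6 P ω hM).1 u hA
    exact ⟨x, hx, Or.inl fun h => hu h.2⟩

include hA1 hA2 hA3 hA4 hA5 hA6 in
theorem R_right {ω : P → ℕ} (hM : Mini ω) {x u u' : P} (h : R ω x u) (h' : R ω x u') :
    u = u' := by
  by_cases hx : IsMin x
  · have hA : u ∈ AA ω := mem_AA.2 ⟨x, LL_of_scov h.1⟩
    have hA' : u' ∈ AA ω := mem_AA.2 ⟨x, LL_of_scov h'.1⟩
    -- if one of them is maximal, both are
    have key : ∀ v, R ω x v → IsMax v → Prm ω v x := by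
      intro v hv hvmax
      have h1 : ∀ y, SCov ω y v → IsMin y := hv.2.resolve_left (fun h2 => h2 ⟨hx, hvmax⟩)
      obtain ⟨i, hi⟩ := prm hA1 hA2 hA3 hA4 hA5 hA6 hM (mem_AA.2 ⟨x, LL_of_scov hv.1⟩) hvmax h1
      have := hi.uniq x hv.1
      rwa [this]
    by_cases hu : IsMax u
    · have h1 := key u h hu
      have hu' := prm_up hA1 hA3 hM hA hu h1 h'.1
      exact prm_inj hA3 hM hA hu h1 hA' hu' (key u' h' hu')
    · by_cases hu' : IsMax u'
      · have h1 := key u' h' hu'
        exact absurd (prm_up hA1 hA3 hM hA' hu' h1 h.1) hu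
      · exact (hA5 P ω hM).1 x u u' hx hu hu' h.1 h'.1
  · exact su_unique hA1 hM hx h.1 h'.1

include hA1 hA2 hA3 hA4 hA5 hA6 in
/-- Extra strict covers: the partner of the top lies in `A`. -/
theorem extra_top {ω : P → ℕ} (hM : Mini ω) {M n i : P} (hmax : IsMax M) (hn : SCov ω n M)
    (hnmin : ¬ IsMin n) (hi : SCov ω i M) (himin : IsMin i) : n ∈ AA ω := by
  by_contra hnA
  have hnA' : ∀ x, ¬ LL ω x n := fun x hx => hnA (mem_AA.2 ⟨x, hx⟩)
  have hMA : M ∈ AA ω := mem_AA.2 ⟨n, LL_of_scov hn⟩
  have hbelow_n : ∀ z, z ≤ n → z ∉ AA ω := fun z hz hzA => hnA (AA_up hzA hz)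
  have claim : ∀ z, LL ω z M → z ∉ AA ω := by
    intro z hz hzA
    rcases LL_cases hM.inj hz with ⟨y, hy1, hy2⟩ | ⟨w, hw1, hw2⟩
    · by_cases hy : IsMin y
      · have := hy.eq_of_le hy2
        subst this
        exact not_min_of_AA hzA hy
      · have := (hA5 P ω hM).2.2.1 M y n hmax hy hnmin hy1 hn
        subst this
        exact hbelow_n z hy2 hzA
    · have hwmax : ¬ IsMax w := fun h => (not_isMax_of_lt hw1.lt) h
      have hwA : w ∈ AA ω := mem_AA.2 ⟨z, hw2⟩
      rcases cov_cases hM.inj hw1 with h1 | h1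
      · obtain ⟨x', hx'⟩ := (hA6 P ω hM).1 w hwA
        have hzx : z ≤ x' := (LL_iff hA1 hM hwmax hx' z).1 hw2
        by_cases hx'm : IsMin x'
        · have := hx'm.eq_of_le hzx
          subst this
          exact not_min_of_AA hzA hx'm
        · obtain ⟨c, hc1, hc2⟩ := (hA2 P ω hM x' w M (fun h => hx'm h.1)).2 hx' h1
          have hcm : ¬ IsMin c := fun h => (not_isMin_of_lt hc1.1.lt) h
          have := (hA5 P ω hM).2.2.1 M c n hmax hcm hnmin hc2 hn
          subst this
          exact hbelow_n z (hzx.trans hc1.1.le) hzA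
      · have hwm : ¬ IsMin w := not_min_of_AA hwA
        have := (hA5 P ω hM).2.2.1 M w n hmax hwm hnmin h1 hn
        subst this
        exact hnA' z hw2
  set U : Finset P := (AA ω).filter fun z => z ≤ M with hU
  have hUidl : U ∈ idl (AA ω) := by
    rw [mem_idl]
    refine ⟨Finset.filter_subset _ _, fun x hx y hy hxy => ?_⟩
    rw [hU, Finset.mem_filter] at hy ⊢
    exact ⟨hx, hxy.trans hy.2⟩
  have hMU : M ∈ U := by
    rw [hU, Finset.mem_filter]
    exact ⟨hMA, le_rfl⟩
  have hweak : WeakOnly ω U := by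
    intro x hx y hy hxy
    rw [hU, Finset.mem_filter] at hx hy
    by_contra hcon
    have h1 : ω y < ω x := lt_of_le_of_ne (not_lt.1 hcon) fun h => hxy.ne' (hM.inj h)
    exact claim x ⟨x, y, le_rfl, hxy, hy.2, h1⟩ hx.1
  have htight := hA4 P ω hM U hUidl hweak
  -- the partners
  have hex : ∀ u : P, ∃ x, u ∈ AA ω → R ω x u := by
    intro u
    by_cases hu : u ∈ AA ω
    · obtain ⟨x, hx⟩ := R_exists hA6 hM hu
      exact ⟨x, fun _ => hx⟩
    · exact ⟨u, fun h => absurd h hu⟩
  choose ν hν using hex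
  have hinj : Set.InjOn ν (U : Set P) := by
    intro u hu u' hu' huu
    rw [Finset.mem_coe, hU, Finset.mem_filter] at hu hu'
    have h1 := hν u hu.1
    have h2 := hν u' hu'.1
    rw [huu] at h1
    exact R_right hA1 hA2 hA3 hA4 hA5 hA6 hM h1 h2
  have himg : U.image ν ⊆ TS ω U := by
    intro x hx
    rw [Finset.mem_image] at hx
    obtain ⟨u, hu, rfl⟩ := hx
    have hu' := hu
    rw [hU, Finset.mem_filter] at hu'
    exact mem_TS.2 ⟨u, hu, LL_of_scov (hν u hu'.1).1⟩
  have heq := Finset.eq_of_subset_of_card_le himg (by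
    rw [htight, Finset.card_image_of_injOn hinj])
  have hiTS : i ∈ TS ω U := mem_TS.2 ⟨M, hMU, LL_of_scov hi⟩
  rw [← heq, Finset.mem_image] at hiTS
  obtain ⟨u, hu, hui⟩ := hiTS
  rw [hU, Finset.mem_filter] at hu
  have hR := hν u hu.1
  rw [hui] at hR
  rcases hu.2.lt_or_eq with h | h
  · exact hi.1.2 hR.1.1.lt h
  · subst h
    rcases hR.2 with h1 | h1
    · exact h1 ⟨himin, hmax⟩
    · exact hnmin (h1 n hn)

/-! ### Duality -/

theorem LL_rv {ω : P → ℕ} (x y : P) :
    LL (rv ω) (OrderDual.toDual x) (OrderDual.toDual y) ↔ LL ω y x := by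
  constructor
  · rintro ⟨a, b, h1, h2, h3, h4⟩
    refine ⟨OrderDual.ofDual b, OrderDual.ofDual a, h3, h2, h1, ?_⟩
    exact (Pool.Agent.ST14.rv_lt ω b a).1 h4
  · rintro ⟨a, b, h1, h2, h3, h4⟩
    exact ⟨OrderDual.toDual b, OrderDual.toDual a, h3, h2, h1, (Pool.Agent.ST14.rv_lt ω (OrderDual.toDual a) (OrderDual.toDual b)).2 h4⟩

theorem AA_rv {ω : P → ℕ} (x : P) : OrderDual.toDual x ∈ AA (rv ω) ↔ x ∈ CC ω := by
  rw [mem_AA, mem_CC]
  constructor
  · rintro ⟨y, hy⟩
    exact ⟨OrderDual.ofDual y, (LL_rv _ _).1 hy⟩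
  · rintro ⟨y, hy⟩
    exact ⟨OrderDual.toDual y, (LL_rv _ _).2 hy⟩

theorem scov_rv {ω : P → ℕ} (x y : P) :
    SCov (rv ω) (OrderDual.toDual x) (OrderDual.toDual y) ↔ SCov ω y x :=
  k5_scov ω (OrderDual.toDual x) (OrderDual.toDual y)

theorem card_AA_CC {ω : P → ℕ} (hM : Mini ω) : (AA ω).card = (CC ω).card := by
  have h := (K6 k1 P ω hM.inj hM.sym).2.2
  have h1 := Finset.card_sdiff_add_card_eq_card (Finset.subset_univ (W1 ω))
  have h2 := Finset.card_sdiff_add_card_eq_card (Finset.subset_univ (CC ω))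
  rw [K6_sdiff_W1] at h1
  rw [K6_sdiff_CC] at h2
  omega

include hA1 hA2 hA3 hA4 hA5 hA6 in
theorem R_surj {ω : P → ℕ} (hM : Mini ω) {x : P} (hx : x ∈ CC ω) : ∃ u, R ω x u := by
  have hex : ∀ u : P, ∃ x, u ∈ AA ω → R ω x u := by
    intro u
    by_cases hu : u ∈ AA ω
    · obtain ⟨x, hx⟩ := R_exists hA6 hM hu
      exact ⟨x, fun _ => hx⟩
    · exact ⟨u, fun h => absurd h hu⟩
  choose ν hν using hex
  have hinj : Set.InjOn ν (AA ω : Set P) := by
    intro u hu u' hu' huu
    rw [Finset.mem_coe] at hu hu'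
    have h1 := hν u hu
    have h2 := hν u' hu'
    rw [huu] at h1
    exact R_right hA1 hA2 hA3 hA4 hA5 hA6 hM h1 h2
  have himg : (AA ω).image ν ⊆ CC ω := by
    intro x hx
    rw [Finset.mem_image] at hx
    obtain ⟨u, hu, rfl⟩ := hx
    exact mem_CC.2 ⟨u, LL_of_scov (hν u hu).1⟩
  have heq := Finset.eq_of_subset_of_card_le himg (by
    rw [Finset.card_image_of_injOn hinj, card_AA_CC hM])
  rw [← heq, Finset.mem_image] at hx
  obtain ⟨u, hu, rfl⟩ := hx
  exact ⟨u, hν u hu⟩

end fin

end M7

open M7 in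
theorem st7 (h1 : St1) (h2 : St2) (h3 : St3) (h4 : St4) (h5 : St5) (h6 : St6) : St7 := by
  intro P _ _ ω hM
  have hN : ∀ u : P, ∃ x, u ∈ AA ω → R ω x u := by
    intro u
    by_cases hu : u ∈ AA ω
    · obtain ⟨x, hx⟩ := R_exists h6 hM hu
      exact ⟨x, fun _ => hx⟩
    · exact ⟨u, fun h => absurd h hu⟩
  have hS : ∀ x : P, ∃ u, x ∈ CC ω → R ω x u := by
    intro x
    by_cases hx : x ∈ CC ω
    · obtain ⟨u, hu⟩ := R_surj h1 h2 h3 h4 h5 h6 hM hx
      exact ⟨u, fun _ => hu⟩
    · exact ⟨x, fun h => absurd h hx⟩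
  choose N hN using hN
  choose S hS using hS
  have R_A : ∀ {x u}, R ω x u → u ∈ AA ω := fun h => mem_AA.2 ⟨_, LL_of_scov h.1⟩
  have R_C : ∀ {x u}, R ω x u → x ∈ CC ω := fun h => mem_CC.2 ⟨_, LL_of_scov h.1⟩
  refine ⟨N, S, fun u hu => (hN u hu).1, fun x hx => (hS x hx).1, fun u hu => ?_, fun x hx => ?_,
    fun x u hxu => ?_⟩
  · have a := hN u hu
    exact R_right h1 h2 h3 h4 h5 h6 hM (hS _ (R_C a)) a
  · have a := hS x hx
    exact R_left h1 h2 h3 h4 h5 h6 hM (hN _ (R_A a)) a
  · by_cases hR : R ω x u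
    · exact Or.inl (R_left h1 h2 h3 h4 h5 h6 hM hR (hN u (R_A hR)))
    · right
      have hR' := hR
      unfold R at hR'
      push Not at hR'
      obtain ⟨⟨hxmin, humax⟩, y, hy1, hy2⟩ := hR' hxu
      have huA : u ∈ AA ω := mem_AA.2 ⟨x, LL_of_scov hxu⟩
      have hxC : x ∈ CC ω := mem_CC.2 ⟨u, LL_of_scov hxu⟩
      refine ⟨hxmin, humax, ?_, ?_⟩
      · have hNu := hN u huA
        have hNm : ¬ IsMin (N u) := by
          rcases hNu.2 with h | h
          · exact fun h' => h ⟨h', humax⟩
          · exact absurd (h y hy1) hy2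
        exact extra_top h1 h2 h3 h4 h5 h6 hM humax hNu.1 hNm hxu hxmin
      · have hSx := hS x hxC
        have hMr : Mini (rv ω) := K5d k1 P ω hM
        have hxmax' : IsMax (OrderDual.toDual x) := hxmin.toDual
        have humin' : IsMin (OrderDual.toDual u) := humax.toDual
        have hSm : ¬ IsMax (S x) := by
          intro hSmax
          by_cases hup : ∀ v, SCov ω x v → IsMax v
          · obtain ⟨i, hi⟩ := prm h1 h2 h3 h4 h5 h6 hMr ((AA_rv x).2 hxC) hxmax' (fun v hv => by
              have : SCov ω x (OrderDual.ofDual v) := (scov_rv (OrderDual.ofDual v) x).1 hv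
              exact (hup _ this).toDual)
            have e1 := hi.uniq (OrderDual.toDual u) ((scov_rv u x).2 hxu)
            have e2 := hi.uniq (OrderDual.toDual (S x)) ((scov_rv (S x) x).2 hSx.1)
            have e3 : u = S x := OrderDual.toDual.injective (e1.trans e2.symm)
            rw [← e3] at hSx
            exact hR hSx
          · push Not at hup
            obtain ⟨v, hv1, hv2⟩ := hup
            have : R ω x v := ⟨hv1, Or.inl fun h => hv2 h.2⟩
            have e := R_right h1 h2 h3 h4 h5 h6 hM this hSx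
            exact hv2 (e ▸ hSmax)
        have := extra_top h1 h2 h3 h4 h5 h6 hMr hxmax' ((scov_rv (S x) x).2 hSx.1)
          (fun h => hSm h.ofDual) ((scov_rv u x).2 hxu) humin'
        exact (AA_rv _).1 this

end Pool.Agent.ST14
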