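import Pool.Agent.ST14.StrStmts
import Pool.Agent.Lib_helper92.SPE.K5
import Pool.Agent.ST14.Kap3

/-!
Item (8) of the structure theorem: mergers and splitters.
-/

set_option autoImplicit false

namespace Pool.Agent.ST14

open scoped Classical

section basic

variable {P : Type} [PartialOrder P] {ω : P → ℕ}

theorem st8_LL_right {x u v : P} (h : LL ω x u) (huv : u ≤ v) : LL ω x v := by
  obtain ⟨p, q, h1, h2, h3, h4⟩ := h
  exact ⟨p, q, h1, h2, h3.trans huv, h4⟩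

theorem st8_LL_left {x y u : P} (h : LL ω y u) (hxy : x ≤ y) : LL ω x u := by
  obtain ⟨p, q, h1, h2, h3, h4⟩ := h
  exact ⟨p, q, hxy.trans h1, h2, h3, h4⟩

theorem st8_LL_of_SCov {x u : P} (h : SCov ω x u) : LL ω x u :=
  ⟨x, u, le_rfl, h.1.lt, le_rfl, h.2⟩

theorem st8_not_LL_of_isMin {x u : P} (hu : IsMin u) : ¬ LL ω x u := by
  rintro ⟨p, q, -, h2, h3, -⟩
  exact (hu.not_lt (lt_of_lt_of_le h2 h3))

variable [Fintype P]

theorem st8_mem_AA {u : P} : u ∈ AA ω ↔ ∃ x, LL ω x u := by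
  unfold AA
  rw [Finset.mem_filter]
  exact ⟨fun h => h.2, fun h => ⟨Finset.mem_univ _, h⟩⟩

theorem st8_AA_up {u v : P} (hu : u ∈ AA ω) (huv : u ≤ v) : v ∈ AA ω := by
  obtain ⟨x, hx⟩ := st8_mem_AA.1 hu
  exact st8_mem_AA.2 ⟨x, st8_LL_right hx huv⟩

/-- the last step of a chain with a strict cover -/
theorem st8_LL_last (hω : Function.Injective ω) {z y : P} (h : LL ω z y) :
    ∃ v, (SCov ω v y ∧ z ≤ v) ∨ (WCov ω v y ∧ LL ω z v) := by
  obtain ⟨p, q, h1, h2, h3, h4⟩ := h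
  rcases h3.eq_or_lt with rfl | h3
  · obtain ⟨v, hv1, hv2⟩ := exists_le_covBy_of_lt h2
    refine ⟨v, ?_⟩
    rcases lt_trichotomy (ω v) (ω q) with h5 | h5 | h5
    · right
      refine ⟨⟨hv2, h5⟩, p, v, h1, lt_of_le_of_ne hv1 ?_, le_rfl, h5.trans h4⟩
      rintro rfl
      exact lt_asymm h5 h4
    · exact absurd (hω h5) hv2.lt.ne
    · exact Or.inl ⟨⟨hv2, h5⟩, h1.trans hv1⟩
  · obtain ⟨v, hv1, hv2⟩ := exists_le_covBy_of_lt h3
    refine ⟨v, ?_⟩
    rcases lt_trichotomy (ω v) (ω y) with h5 | h5 | h5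
    · exact Or.inr ⟨⟨hv2, h5⟩, p, q, h1, h2, hv1, h4⟩
    · exact absurd (hω h5) hv2.lt.ne
    · exact Or.inl ⟨⟨hv2, h5⟩, h1.trans (h2.le.trans hv1)⟩

end basic

section main

variable {P : Type} [Fintype P] [PartialOrder P] {ω : P → ℕ}

theorem st8_first (h1 : St1) (h2 : St2) (h4 : St4) (h5 : St5) (h6 : St6) (h7 : St7)
    (hM : Mini ω) {x b y : P} (hxb : WCov ω x b) (hby : SCov ω b y)
    (hno : ¬ ∃ c, SCov ω x c ∧ WCov ω c y) :
    IsMin x ∧ IsMax y ∧ ∃ z, SCov ω z b ∧ ∀ t, ¬ WCov ω t z := by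
  have hω := hM.inj
  obtain ⟨hxm, hym⟩ : IsMin x ∧ IsMax y := by
    by_contra hcon
    exact hno ((h2 P ω hM x b y hcon).1 hxb hby)
  obtain ⟨N, S, hN⟩ := h7 P ω hM
  have hbM : ¬ IsMax b := fun h => h.not_lt hby.1.lt
  have hbm : ¬ IsMin b := fun h => h.not_lt hxb.1.lt
  have hL := ((h1 P ω hM).1 b hbM).1
  have hU := ((h1 P ω hM).2 b hbm).1
  have huW : ∀ t, WCov ω t b → t = x := fun t ht =>
    hL.w_lower t (by simp [ht.1.lt.le]) x (by simp [hxb.1.lt.le]) b (by simp) ht hxb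
  have huS : ∀ v, SCov ω b v → v = y := fun v hv =>
    hU.s_upper b (by simp) v (by simp [hv.1.lt.le]) y (by simp [hby.1.lt.le]) hv hby
  have hNy : b = N y := by
    rcases hN.extra b y hby with h | ⟨h, -⟩
    · exact h
    · exact absurd h hbm
  have hyA : y ∈ AA ω := st8_mem_AA.2 ⟨b, st8_LL_of_SCov hby⟩
  have hbA : b ∈ AA ω := by
    by_contra hbA
    have hbW : ∀ z, z ≤ b → z ∉ AA ω := fun z hz hzA => hbA (st8_AA_up hzA hz)
    have hmW : ∀ z, IsMin z → z ∉ AA ω := by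
      intro z hz hzA
      obtain ⟨t, ht⟩ := st8_mem_AA.1 hzA
      exact st8_not_LL_of_isMin hz ht
    have hT : ∀ z, LL ω z y → z ∉ AA ω := by
      intro z hz
      obtain ⟨v, ⟨hv, hzv⟩ | ⟨hv, hzv⟩⟩ := st8_LL_last hω hz
      · rcases hN.extra v y hv with h | ⟨h, -⟩
        · rw [← hNy] at h
          exact hbW z (h ▸ hzv)
        · rw [h.eq_of_le hzv]
          exact hmW v h
      · have hvA : v ∈ AA ω := st8_mem_AA.2 ⟨z, hzv⟩
        have hvM : ¬ IsMax v := fun h => h.not_lt hv.1.lt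
        obtain ⟨n, hn⟩ := (h6 P ω hM).1 v hvA
        have hzn : z ≤ n := (((h1 P ω hM).1 v hvM).2.1 n hn z).1 hzv
        by_cases hnm : IsMin n
        · rw [hnm.eq_of_le hzn]
          exact hmW n hnm
        · obtain ⟨c, hc1, hc2⟩ := (h2 P ω hM n v y (fun h => hnm h.1)).2 hn hv
          rcases hN.extra c y hc2 with h | ⟨h, -⟩
          · rw [← hNy] at h
            exact hbW z (hzn.trans (h ▸ hc1.1.lt.le))
          · exact absurd hc1.1.lt h.not_lt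
    set U : Finset P := (AA ω).filter (fun u => u ≤ y) with hUdef
    have hmemU : ∀ {u}, u ∈ U ↔ u ∈ AA ω ∧ u ≤ y := by
      intro u
      rw [hUdef, Finset.mem_filter]
    have hUi : U ∈ idl (AA ω) := by
      exact mem_idl.2 ⟨Finset.filter_subset _ _, fun u hu v hv huv =>
        hmemU.2 ⟨hu, huv.trans (hmemU.1 hv).2⟩⟩
    have hUw : WeakOnly ω U := by
      intro u hu v hv huv
      by_contra hcon
      have hlt : ω v < ω u := lt_of_le_of_ne (not_lt.1 hcon) (fun h => huv.ne' (hω h))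
      exact hT u ⟨u, v, le_rfl, huv, (hmemU.1 hv).2, hlt⟩ (hmemU.1 hu).1
    have hcard := h4 P ω hM U hUi hUw
    have hsub : U.image N ⊆ TS ω U := by
      intro t ht
      obtain ⟨u, hu, rfl⟩ := Finset.mem_image.1 ht
      unfold TS
      rw [Finset.mem_filter]
      exact ⟨Finset.mem_univ _, u, hu, st8_LL_of_SCov (hN.N_cov u (hmemU.1 hu).1)⟩
    have hinj : Set.InjOn N U := by
      intro u hu v hv huv
      rw [← hN.SN u (hmemU.1 (Finset.mem_coe.1 hu)).1, huv, hN.SN v (hmemU.1 (Finset.mem_coe.1 hv)).1]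
    have heq : U.image N = TS ω U := by
      refine Finset.eq_of_subset_of_card_le hsub ?_
      rw [Finset.card_image_of_injOn hinj, hcard]
    have hx : x ∈ TS ω U := by
      unfold TS
      rw [Finset.mem_filter]
      exact ⟨Finset.mem_univ _, y, hmemU.2 ⟨hyA, le_rfl⟩, b, y, hxb.1.lt.le, hby.1.lt, le_rfl,
        hby.2⟩
    rw [← heq, Finset.mem_image] at hx
    obtain ⟨u, hu, hux⟩ := hx
    obtain ⟨huA, huy⟩ := hmemU.1 hu
    have hxu : SCov ω x u := hux ▸ hN.N_cov u huA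
    have hune : u ≠ y := by
      rintro rfl
      rw [← hNy] at hux
      exact hxb.1.lt.ne' hux
    obtain ⟨v, huv, hvy⟩ := exists_covBy_le_of_lt (lt_of_le_of_ne huy hune)
    have hvU : v ∈ U := hmemU.2 ⟨st8_AA_up huA huv.lt.le, hvy⟩
    have huvw : WCov ω u v := ⟨huv, hUw u hu v hvU huv.lt⟩
    rcases hvy.eq_or_lt with rfl | hvy
    · exact hno ⟨u, hxu, huvw⟩
    · have hvM : ¬ IsMax v := fun h => h.not_lt hvy
      obtain ⟨c, hc1, hc2⟩ := (h2 P ω hM x u v (fun h => hvM h.2)).2 hxu huvw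
      have hcM : ¬ IsMax c := fun h => h.not_lt hc2.1.lt
      have hcb : b = c := (h5 P ω hM).2.1 x b c hxm hbM hcM hxb hc1
      rw [← hcb] at hc2
      exact hvy.ne (huS v hc2)
  obtain ⟨z, hz⟩ := (h6 P ω hM).1 b hbA
  refine ⟨hxm, hym, z, hz, fun t ht => ?_⟩
  obtain ⟨c, hc1, hc2⟩ := (h2 P ω hM t z b (fun h => hbM h.2)).1 ht hz
  rw [huW c hc2] at hc1
  exact hxm.not_lt hc1.1.lt

theorem st8_ws (h1 : St1) (h2 : St2) (h4 : St4) (h5 : St5) (h6 : St6) (h7 : St7)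
    (hM : Mini ω) {x b y : P} (hxb : WCov ω x b) (hby : SCov ω b y)
    (hno : ¬ ∃ c, SCov ω x c ∧ WCov ω c y) :
    IsMin x ∧ IsMax y ∧ (∃ z, SCov ω z b ∧ ∀ t, ¬ WCov ω t z) ∧
      (∃ z, WCov ω b z ∧ ∀ t, ¬ SCov ω z t) := by
  obtain ⟨a1, a2, a3⟩ := st8_first h1 h2 h4 h5 h6 h7 hM hxb hby hno
  refine ⟨a1, a2, a3, ?_⟩
  have hM' : Mini (tr (rv ω)) := k5c _ _ (K5d k1 _ _ hM)
  obtain ⟨-, -, z, hz1, hz2⟩ := st8_first h1 h2 h4 h5 h6 h7 hM' (x := OrderDual.toDual y)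
    (b := OrderDual.toDual b) (y := OrderDual.toDual x)
    (by rw [wCov_tr, k5_scov]; exact hby) (by rw [sCov_tr, k5_wcov]; exact hxb) (by
      rintro ⟨c, hc1, hc2⟩
      rw [sCov_tr, k5_wcov] at hc1
      rw [wCov_tr, k5_scov] at hc2
      exact hno ⟨OrderDual.ofDual c, hc2, hc1⟩)
  rw [sCov_tr, k5_wcov] at hz1
  refine ⟨OrderDual.ofDual z, hz1, fun t ht => hz2 (OrderDual.toDual t) ?_⟩
  rw [wCov_tr, k5_scov]
  exact ht

end main

/-- (8) mergers and splitters. -/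
theorem st8 (h1 : St1) (h2 : St2) (_h3 : St3) (h4 : St4) (h5 : St5) (h6 : St6) (h7 : St7) :
    St8 := by
  intro P _ _ ω hM
  refine ⟨fun x b y hxb hby hno => st8_ws h1 h2 h4 h5 h6 h7 hM hxb hby hno, ?_⟩
  intro x b y hxb hby hno
  obtain ⟨a1, a2, ⟨z, hz1, hz2⟩, z', hz1', hz2'⟩ := st8_ws h1 h2 h4 h5 h6 h7 (k5c _ _ hM)
    (x := x) (b := b) (y := y) (by rw [wCov_tr]; exact hxb) (by rw [sCov_tr]; exact hby) (by
      rintro ⟨c, hc1, hc2⟩
      rw [sCov_tr] at hc1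
      rw [wCov_tr] at hc2
      exact hno ⟨c, hc1, hc2⟩)
  rw [sCov_tr] at hz1
  rw [wCov_tr] at hz1'
  refine ⟨a1, a2, ⟨z, hz1, fun t ht => hz2 t ?_⟩, z', hz1', fun t ht => hz2' t ?_⟩
  · rw [wCov_tr]; exact ht
  · rw [sCov_tr]; exact ht

end Pool.Agent.ST14
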