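import Pool.Agent.ST14.StrStmts

/-!
Module statements: items (9), (10) of the structure theorem (team store 49bc13_structure.md).
-/

set_option autoImplicit false

namespace Pool.Agent.ST14

open scoped Classical

/-- A merger: a ws chain of covers without corner; `x = x_b`, `y = y_b`. -/
def Merger {P : Type} [PartialOrder P] (ω : P → ℕ) (x b y : P) : Prop :=
  WCov ω x b ∧ SCov ω b y ∧ ¬ ∃ c, SCov ω x c ∧ WCov ω c y

/-- A splitter: an sw chain of covers without corner. -/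
def Splitter {P : Type} [PartialOrder P] (ω : P → ℕ) (x b y : P) : Prop :=
  SCov ω x b ∧ WCov ω b y ∧ ¬ ∃ c, WCov ω x c ∧ SCov ω c y

/-- The good ideals of `A`. -/
noncomputable def good {P : Type} [Fintype P] [PartialOrder P] (ω : P → ℕ) (N : P → P) :
    Finset (Finset P) := (idl (AA ω)).filter fun U => TS ω U = U.image N

/-- (9), the identity (**). -/
def St9 : Prop := ∀ (P : Type) [Fintype P] [PartialOrder P] (ω : P → ℕ), Mini ω →
  ∀ N S : P → P, Net ω N S → ∀ w v : List ℕ,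
    ∑ U ∈ good ω N, kap ω (U.image N) w * kap ω (AA ω \ U) v =
      ∑ U ∈ idl (AA ω), kap ω U w * kap ω (AA ω \ U) v

/-- (9), the description of the good ideals. -/
def St9g : Prop := ∀ (P : Type) [Fintype P] [PartialOrder P] (ω : P → ℕ), Mini ω →
  ∀ N S : P → P, Net ω N S → ∀ U ∈ idl (AA ω), (U ∈ good ω N ↔
    (∀ x b y, Merger ω x b y → y ∈ U → x ∈ CC ω ∧ S x ∈ U) ∧
    (∀ i M, SCov ω i M → i ≠ N M → M ∈ U → S i ∈ U))

/-- Comparison of two convex sets. -/
def KapMono : Prop := ∀ (P : Type) [PartialOrder P] (ω : P → ℕ) (Q Q' : Finset P) (φ : P → P),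
  Cvx Q → Cvx Q' → Set.BijOn φ (Q' : Set P) (Q : Set P) →
  (∀ x ∈ Q', ∀ x' ∈ Q', x < x' → φ x < φ x' ∧ (ω x' < ω x → LL ω (φ x) (φ x'))) →
  (∀ w : List ℕ, kap ω Q w ≤ kap ω Q' w) ∧
    ((∃ x ∈ Q', ∃ x' ∈ Q', φ x < φ x' ∧ ¬ x < x') →
      kap ω Q (List.replicate Q.card 1) < kap ω Q' (List.replicate Q.card 1))

/-- (10) both kinds exist. -/
def St10 : Prop := ∀ (P : Type) [Fintype P] [PartialOrder P] (ω : P → ℕ), Mini ω →
  ¬ LocSkew ω → (∃ x b y, Merger ω x b y) ∧ (∃ x b y, Splitter ω x b y)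

end Pool.Agent.ST14
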