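import Pool.Agent.ST14.St3
import Pool.Agent.ST14.StrStmts2

/-!
Item (9) of the structure theorem: the identity (**) and the description of the good ideals.
-/

set_option autoImplicit false

namespace Pool.Agent.ST14

open scoped Classical

variable {P : Type} [Fintype P] [PartialOrder P]

/-- an ideal is the union of its parts in `W1` and in `U_J` -/
theorem st9_card_ideal (ω : P → ℕ) {J : Finset P} (hJ : J ∈ idl (Finset.univ : Finset P)) :
    J.card = (W1 ω ∩ J).card + (UJ ω J ∩ J).card := by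
  rw [← Finset.card_union_of_disjoint]
  · congr 1
    ext u
    rw [Finset.mem_union, Finset.mem_inter, Finset.mem_inter]
    constructor
    · intro hu
      rcases W1_union_AA ω u with h | h
      · exact Or.inl ⟨h, hu⟩
      · exact Or.inr ⟨mem_UJ.2 ⟨h, TT_sub_of_mem hJ hu⟩, hu⟩
    · rintro (h | h)
      · exact h.2
      · exact h.2
  · rw [Finset.disjoint_left]
    intro u h1 h2
    rw [Finset.mem_inter] at h1 h2
    exact W1_not_AA h1.1 (mem_UJ.1 h2.1).1

/-- the layer above an ideal `J` has the size of `W1` if and only if `U_J` has the size of `J` -/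
theorem st9_tight_iff (ω : P → ℕ) {J : Finset P} (hJ : J ∈ idl (Finset.univ : Finset P)) :
    (LJ ω J).card = (W1 ω).card ↔ (UJ ω J).card = J.card := by
  have h1 := LJ_card ω J
  have h2 : (W1 ω).card = (W1 ω \ J).card + (W1 ω ∩ J).card := by
    rw [Finset.card_sdiff_add_card_inter]
  have h3 : (UJ ω J).card = (UJ ω J \ J).card + (UJ ω J ∩ J).card := by
    rw [Finset.card_sdiff_add_card_inter]
  have h4 := st9_card_ideal ω hJ
  omega

theorem Net.injOn {ω : P → ℕ} {N S : P → P} (hn : Net ω N S) :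
    Set.InjOn N (AA ω : Set P) := by
  intro u hu u' hu' he
  rw [← hn.SN u hu, ← hn.SN u' hu', he]

theorem Net.image_sub {ω : P → ℕ} {N S : P → P} (hn : Net ω N S) {U : Finset P}
    (hU : U ⊆ AA ω) : U.image N ⊆ TS ω U := by
  intro x hx
  obtain ⟨u, hu, rfl⟩ := Finset.mem_image.1 hx
  exact mem_TS.2 ⟨u, hu, LL_of_sCov le_rfl (hn.N_cov u (hU hu)) le_rfl⟩

theorem Net.card_image {ω : P → ℕ} {N S : P → P} (hn : Net ω N S) {U : Finset P}
    (hU : U ⊆ AA ω) : (U.image N).card = U.card :=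
  Finset.card_image_of_injOn (hn.injOn.mono (by exact_mod_cast hU))

theorem mem_good {ω : P → ℕ} {N : P → P} {U : Finset P} :
    U ∈ good ω N ↔ U ∈ idl (AA ω) ∧ TS ω U = U.image N := by
  unfold good
  rw [Finset.mem_filter]

/-- the tight ideals -/
noncomputable def tightA (ω : P → ℕ) : Finset (Finset P) :=
  (idl (Finset.univ : Finset P)).filter fun J => (LJ ω J).card = (W1 ω).card

theorem mem_tightA {ω : P → ℕ} {J : Finset P} :
    J ∈ tightA ω ↔ J ∈ idl (Finset.univ : Finset P) ∧ (LJ ω J).card = (W1 ω).card := by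
  unfold tightA
  rw [Finset.mem_filter]

/-- a tight ideal `J` is the image of `U_J` -/
theorem st9_image {ω : P → ℕ} {N S : P → P} (hn : Net ω N S) {J : Finset P}
    (hJ : J ∈ tightA ω) : (UJ ω J).image N = J ∧ TS ω (UJ ω J) = J := by
  obtain ⟨h1, h2⟩ := mem_tightA.1 hJ
  have h3 := (st9_tight_iff ω h1).1 h2
  have h4 : UJ ω J ⊆ AA ω := fun u hu => (mem_UJ.1 hu).1
  have h5 : TS ω (UJ ω J) ⊆ J := by
    intro x hx
    obtain ⟨u, hu, hxu⟩ := mem_TS.1 hx
    exact (mem_UJ.1 hu).2 (mem_TT.2 hxu)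
  have h6 := hn.image_sub h4
  have h7 := hn.card_image h4
  have h8 : (UJ ω J).image N = J :=
    Finset.eq_of_subset_of_card_le (h6.trans h5) (by omega)
  refine ⟨h8, Finset.Subset.antisymm h5 ?_⟩
  rw [h8] at h6
  exact h6

theorem st9_good_of_tight {ω : P → ℕ} {N S : P → P} (hn : Net ω N S) {J : Finset P}
    (hJ : J ∈ tightA ω) : UJ ω J ∈ good ω N := by
  obtain ⟨h1, h2⟩ := st9_image hn hJ
  exact mem_good.2 ⟨UJ_idl ω J, by rw [h1, h2]⟩

theorem st9_tight_of_good {ω : P → ℕ} (hω : Function.Injective ω) (hs : SymW ω Finset.univ)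
    {N S : P → P} (hn : Net ω N S) {U : Finset P} (hU : U ∈ good ω N) :
    U.image N ∈ tightA ω ∧ UJ ω (U.image N) = U := by
  obtain ⟨h1, h2⟩ := mem_good.1 hU
  have h3 : U ⊆ AA ω := subset_of_mem_idl h1
  have hJ : U.image N ∈ idl (Finset.univ : Finset P) := by
    rw [← h2]
    exact TS_idl ω U
  have h4 : U ⊆ UJ ω (U.image N) := by
    intro u hu
    rw [mem_UJ, ← h2]
    exact ⟨h3 hu, TT_sub_TS hu⟩
  have h5 := hall hω hs hJ
  have h6 := hn.card_image h3
  have h7 : U = UJ ω (U.image N) := Finset.eq_of_subset_of_card_le h4 (by omega)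
  refine ⟨mem_tightA.2 ⟨hJ, (st9_tight_iff ω hJ).2 ?_⟩, h7.symm⟩
  rw [← h7, h6]

/-- (9), the identity (**) -/
theorem st9 : St9 := by
  intro P _ _ ω h N S hn w v
  have h1 : kap ω Finset.univ (w ++ (W1 ω).card :: v) =
      kap ω Finset.univ ((W1 ω).card :: (w ++ v)) := h.sym _ _ List.perm_middle
  rw [K6_first h.inj, kap_append, kap_append] at h1
  rw [← h1]
  have h2 : ∑ J ∈ idl (Finset.univ : Finset P), kap ω J w *
      kap ω (Finset.univ \ J) ((W1 ω).card :: v) =
      ∑ J ∈ tightA ω, kap ω J w * kap ω (AA ω \ UJ ω J) v := by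
    unfold tightA
    rw [Finset.sum_filter]
    apply Finset.sum_congr rfl
    intro J hJ
    rw [kap_second h.inj h.sym hJ]
    split_ifs
    · rfl
    · rw [mul_zero]
  rw [h2]
  symm
  refine Finset.sum_bij' (i := fun J _ => UJ ω J) (j := fun U _ => U.image N) ?_ ?_ ?_ ?_ ?_
  · intro J hJ
    exact st9_good_of_tight hn hJ
  · intro U hU
    exact (st9_tight_of_good h.inj h.sym hn hU).1
  · intro J hJ
    exact (st9_image hn hJ).1
  · intro U hU
    exact (st9_tight_of_good h.inj h.sym hn hU).2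
  · intro J hJ
    rw [(st9_image hn hJ).1]

/-- the first cover of a chain with a strict step -/
theorem st9_first {ω : P → ℕ} (hω : Function.Injective ω) {z u : P} (h : LL ω z u) :
    ∃ t, t ≤ u ∧ (SCov ω z t ∨ (WCov ω z t ∧ LL ω t u)) := by
  obtain ⟨p, q, hp, hpq, hq⟩ := (LL_iff hω).1 h
  rcases eq_or_lt_of_le hp with rfl | hlt
  · exact ⟨q, hq, Or.inl hpq⟩
  · obtain ⟨t, ht, htp⟩ := exists_upper_cov hlt
    refine ⟨t, (htp.trans hpq.1.le).trans hq, ?_⟩
    rcases cov_cases hω ht with h1 | h1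
    · exact Or.inr ⟨h1, LL_of_sCov htp hpq hq⟩
    · exact Or.inl h1

/-- for `z` not minimal, `z << u` gives `S z ≤ u` -/
theorem st9_S_le (h1 : St1) {ω : P → ℕ} (h : Mini ω) {N S : P → P} (hn : Net ω N S) {z u : P}
    (hz : ¬ IsMin z) (hzu : LL ω z u) : S z ≤ u := by
  have hC : z ∈ CC ω := mem_CC.2 ⟨u, hzu⟩
  exact (((h1 P ω h).2 z hz).2.1 (S z) (hn.S_cov z hC) u).1 hzu

/-- (9), the description of the good ideals -/
theorem st9g (h1 : St1) : St9g := by
  intro P _ _ ω h N S hn U hU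
  have hUA : U ⊆ AA ω := subset_of_mem_idl hU
  have hSA : ∀ z ∈ CC ω, S z ∈ AA ω := fun z hz =>
    mem_AA.2 ⟨z, LL_of_sCov le_rfl (hn.S_cov z hz) le_rfl⟩
  have hdown : ∀ z u, z ∈ CC ω → u ∈ U → S z ≤ u → S z ∈ U := fun z u hz hu hle =>
    (mem_idl.1 hU).2 (S z) (hSA z hz) u hu hle
  -- reformulation
  have key : U ∈ good ω N ↔ ∀ u ∈ U, ∀ z, LL ω z u → S z ∈ U := by
    rw [mem_good]
    constructor
    · rintro ⟨-, h2⟩ u hu z hz
      have h3 : z ∈ U.image N := by
        rw [← h2]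
        exact mem_TS.2 ⟨u, hu, hz⟩
      obtain ⟨u', hu', rfl⟩ := Finset.mem_image.1 h3
      rw [hn.SN u' (hUA hu')]
      exact hu'
    · intro h2
      refine ⟨hU, Finset.Subset.antisymm ?_ (hn.image_sub hUA)⟩
      intro z hz
      obtain ⟨u, hu, hzu⟩ := mem_TS.1 hz
      refine Finset.mem_image.2 ⟨S z, h2 u hu z hzu, ?_⟩
      exact hn.NS z (mem_CC.2 ⟨u, hzu⟩)
  rw [key]
  constructor
  · intro h2
    refine ⟨?_, ?_⟩
    · rintro x b y ⟨hxb, hby, -⟩ hy
      have hxy : LL ω x y := LL_of_sCov hxb.1.le hby le_rfl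
      exact ⟨mem_CC.2 ⟨y, hxy⟩, h2 y hy x hxy⟩
    · intro i M hiM _ hM
      exact h2 M hM i (LL_of_sCov le_rfl hiM le_rfl)
  · rintro ⟨h2, h3⟩ u hu z hzu
    have hzC : z ∈ CC ω := mem_CC.2 ⟨u, hzu⟩
    by_cases hmin : IsMin z
    · obtain ⟨t, htu, ht⟩ := st9_first h.inj hzu
      rcases ht with ht | ⟨ht, htu'⟩
      · -- the first cover is strict
        have htA : t ∈ AA ω := mem_AA.2 ⟨z, LL_of_sCov le_rfl ht le_rfl⟩
        by_cases hzN : z = N t
        · have h4 : S z = t := by rw [hzN, hn.SN t htA]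
          rw [h4]
          exact (mem_idl.1 hU).2 t htA u hu htu
        · rcases hn.extra z t ht with h4 | ⟨-, hmax, -, -⟩
          · exact absurd h4 hzN
          · have htu2 : t = u := le_antisymm htu (hmax htu)
            exact h3 z t ht hzN (htu2 ▸ hu)
      · -- the first cover is weak
        have htmin : ¬ IsMin t := fun hm => absurd (hm ht.1.le) (not_le_of_gt ht.1.lt)
        have htC : t ∈ CC ω := mem_CC.2 ⟨u, htu'⟩
        have hSt := st9_S_le h1 h hn htmin htu'
        have hcov := hn.S_cov t htC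
        have hStU : S t ∈ U := hdown t u htC hu hSt
        by_cases hc : ∃ c, SCov ω z c ∧ WCov ω c (S t)
        · obtain ⟨c, hzc, hcS⟩ := hc
          have hcA : c ∈ AA ω := mem_AA.2 ⟨z, LL_of_sCov le_rfl hzc le_rfl⟩
          rcases hn.extra z c hzc with h4 | ⟨-, hmax, -, -⟩
          · have h5 : S z = c := by rw [h4, hn.SN c hcA]
            apply hdown z u hzC hu
            rw [h5]
            exact hcS.1.le.trans hSt
          · exact absurd (hmax hcS.1.le) (not_le_of_gt hcS.1.lt)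
        · exact (h2 z t (S t) ⟨ht, hcov, hc⟩ hStU).2
    · exact hdown z u hzC hu (st9_S_le h1 h hn hmin hzu)

/-- (9), with item (1) supplied -/
theorem st9g' : St9g := st9g st1

end Pool.Agent.ST14
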