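import Pool.Agent.ST14.RimStmts
import Pool.Agent.ST14.St2
import Pool.Agent.ST14.St5
import Pool.Agent.ST14.St7
import Pool.Agent.ST14.St8
import Pool.Agent.ST14.St9

/-!
Theorem Q (section 3 of 49bc13_h58.md).
-/

set_option autoImplicit false

namespace Pool.Agent.ST14

open scoped Classical

namespace TQ

/-! ### The structure statements, closed -/

theorem c3 : St3 := st3

theorem c5 : St5 := st5 st1 c3 k5c (K5d k1)

theorem c6 : St6 := st6 st1 st2 c3 k5c (K5d k1)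

theorem c7 : St7 := st7 st1 st2 c3 st4 c5 c6

theorem c8 : St8 := st8 st1 st2 c3 st4 c5 c6 c7

/-! ### Abstract path argument -/

section abs

variable {P : Type}

theorem core (ρ : Finset P) (E A B : P → P → Prop) (Om : P → ℕ)
    (hE : ∀ u v, E u v → Om u = Om v) (hA : ∀ u v, A u v → Om u < Om v)
    (hB : ∀ u v, B u v → Om u < Om v)
    (tA : ∀ u ∈ ρ, ∀ v ∈ ρ,
      Relation.ReflTransGen (fun u v => u ∈ ρ ∧ v ∈ ρ ∧ (E u v ∨ A u v)) u v ∨
      Relation.ReflTransGen (fun u v => u ∈ ρ ∧ v ∈ ρ ∧ (E u v ∨ A u v)) v u)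
    (tB : ∀ u ∈ ρ, ∀ v ∈ ρ,
      Relation.ReflTransGen (fun u v => u ∈ ρ ∧ v ∈ ρ ∧ (E u v ∨ B u v)) u v ∨
      Relation.ReflTransGen (fun u v => u ∈ ρ ∧ v ∈ ρ ∧ (E u v ∨ B u v)) v u)
    (A0 : ∀ u v w, A u v → ¬ E u w) (B1 : ∀ u v w, B u v → ¬ E w v)
    (AU : ∀ u v w, A u v → A u w → v = w) (hAB : ∀ u v, A u v → B u v → False)
    {x y : P} (hx : x ∈ ρ) (hy : y ∈ ρ) (h : A x y) : False := by
  have mA : ∀ u v, Relation.ReflTransGen (fun u v => u ∈ ρ ∧ v ∈ ρ ∧ (E u v ∨ A u v)) u v →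
      Om u ≤ Om v := by
    intro u v huv
    induction huv with
    | refl => exact le_rfl
    | tail _ h2 ih =>
      rcases h2.2.2 with h3 | h3
      · exact ih.trans (hE _ _ h3).le
      · exact ih.trans (hA _ _ h3).le
  have mB : ∀ u v, Relation.ReflTransGen (fun u v => u ∈ ρ ∧ v ∈ ρ ∧ (E u v ∨ B u v)) u v →
      Om u ≤ Om v := by
    intro u v huv
    induction huv with
    | refl => exact le_rfl
    | tail _ h2 ih =>
      rcases h2.2.2 with h3 | h3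
      · exact ih.trans (hE _ _ h3).le
      · exact ih.trans (hB _ _ h3).le
  have hxy := hA x y h
  rcases tB x hx y hy with h1 | h1
  swap
  · exact absurd (mB _ _ h1) (by omega)
  rcases h1.cases_head with h2 | ⟨z, hz, hzy⟩
  · subst h2; omega
  have hz2 : B x z := by
    rcases hz.2.2 with h3 | h3
    · exact absurd h3 (A0 x y z h)
    · exact h3
  have hxz := hB x z hz2
  have hzy' := mB _ _ hzy
  rcases tA x hx z hz.2.1 with h1 | h1
  swap
  · exact absurd (mA _ _ h1) (by omega)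
  rcases h1.cases_head with h2 | ⟨w, hw, hwz⟩
  · subst h2; omega
  have hw2 : A x w := by
    rcases hw.2.2 with h3 | h3
    · exact absurd h3 (A0 x y w h)
    · exact h3
  have : y = w := AU x y w h hw2
  subst this
  have hyz := mA _ _ hwz
  rcases Relation.ReflTransGen.cases_tail hwz with h2 | ⟨w, hw1, hw3⟩
  · subst h2; exact hAB _ _ h hz2
  · rcases hw3.2.2 with h3 | h3
    · exact B1 x z w hz2 h3
    · have h4 := hA _ _ h3
      have h5 := mA _ _ hw1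
      omega

end abs

/-! ### Ribbons -/

section rib

variable {P : Type} [PartialOrder P] {ω : P → ℕ}

/-- an up-step -/
def Up (ω : P → ℕ) (x y : P) : Prop := WCov ω x y ∨ SCov ω y x

theorem out_uniq {J : Finset P} (hJ : Skw ω J) (hnw : ∀ x e, ¬ NW ω J x e) {y z w : P}
    (hy : y ∈ J) (hz : z ∈ J) (hw : w ∈ J) (h1 : Up ω y z) (h2 : Up ω y w) : z = w := by
  have key : ∀ z w : P, z ∈ J → w ∈ J → WCov ω y z → SCov ω w y → False := by
    intro z w hz hw h1 h2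
    obtain ⟨c, hc1, hc2⟩ := hJ.loc.sw w hw y hy z hz h2 h1
    have hc : c ∈ J := hJ.cvx w hw z hz c hc1.1.le hc2.1.le
    exact hnw w z ⟨hw, hz, ⟨c, hc, hc1, hc2⟩, ⟨y, hy, h2, h1⟩⟩
  rcases h1 with h1 | h1 <;> rcases h2 with h2 | h2
  · exact hJ.loc.w_upper y hy z hz w hw h1 h2
  · exact (key z w hz hw h1 h2).elim
  · exact (key w z hw hz h2 h1).elim
  · exact hJ.loc.s_lower z hz w hw y hy h1 h2

theorem in_uniq {J : Finset P} (hJ : Skw ω J) (hnw : ∀ x e, ¬ NW ω J x e) {y z w : P}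
    (hy : y ∈ J) (hz : z ∈ J) (hw : w ∈ J) (h1 : Up ω z y) (h2 : Up ω w y) : z = w := by
  have key : ∀ z w : P, z ∈ J → w ∈ J → WCov ω z y → SCov ω y w → False := by
    intro z w hz hw h1 h2
    obtain ⟨c, hc1, hc2⟩ := hJ.loc.ws z hz y hy w hw h1 h2
    have hc : c ∈ J := hJ.cvx z hz w hw c hc1.1.le hc2.1.le
    exact hnw z w ⟨hz, hw, ⟨y, hy, h1, h2⟩, ⟨c, hc, hc1, hc2⟩⟩
  rcases h1 with h1 | h1 <;> rcases h2 with h2 | h2
  · exact hJ.loc.w_lower z hz w hw y hy h1 h2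
  · exact (key z w hz hw h1 h2).elim
  · exact (key w z hw hz h2 h1).elim
  · exact hJ.loc.s_upper y hy z hz w hw h1 h2

/-- In a ribbon any two elements are connected by a directed path. -/
theorem total {J : Finset P} (hω : Function.Injective ω) (hJ : Skw ω J)
    (hnw : ∀ x e, ¬ NW ω J x e) (hc : ∀ x ∈ J, ∀ y ∈ J, Conn J x y) {x y : P} (hx : x ∈ J)
    (hy : y ∈ J) :
    Relation.ReflTransGen (fun u v => u ∈ J ∧ v ∈ J ∧ Up ω u v) x y ∨
    Relation.ReflTransGen (fun u v => u ∈ J ∧ v ∈ J ∧ Up ω u v) y x := by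
  have h := hc x hx y hy
  clear hy
  induction h with
  | refl => exact Or.inl Relation.ReflTransGen.refl
  | @tail y z _ hyz ih =>
    obtain ⟨hyJ, hzJ, hyz⟩ := hyz
    have hor : Up ω y z ∨ Up ω z y := by
      rcases hyz with h1 | h1
      · rcases cov_cases hω h1 with h2 | h2
        · exact Or.inl (Or.inl h2)
        · exact Or.inr (Or.inr h2)
      · rcases cov_cases hω h1 with h2 | h2
        · exact Or.inr (Or.inl h2)
        · exact Or.inl (Or.inr h2)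
    rcases ih with ih | ih
    · rcases hor with h1 | h1
      · exact Or.inl (ih.tail ⟨hyJ, hzJ, h1⟩)
      · rcases Relation.ReflTransGen.cases_tail ih with h2 | ⟨w, hw1, hw2⟩
        · subst h2
          exact Or.inr (Relation.ReflTransGen.single ⟨hzJ, hyJ, h1⟩)
        · have : w = z := in_uniq hJ hnw hyJ hw2.1 hzJ hw2.2.2 h1
          subst this
          exact Or.inl hw1
    · rcases hor with h1 | h1
      · rcases Relation.ReflTransGen.cases_head ih with h2 | ⟨w, hw1, hw2⟩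
        · subst h2
          exact Or.inl (Relation.ReflTransGen.single ⟨hyJ, hzJ, h1⟩)
        · have : w = z := out_uniq hJ hnw hyJ hw1.2.1 hzJ hw1.2.2 h1
          subst this
          exact Or.inr hw2
      · exact Or.inr (Relation.ReflTransGen.head ⟨hzJ, hyJ, h1⟩ ih)

/-! ### Components -/

theorem adj_symm {Q : Finset P} {x y : P} (h : Adj Q x y) : Adj Q y x :=
  ⟨h.2.1, h.1, h.2.2.symm⟩

theorem conn_symm {Q : Finset P} {x y : P} (h : Conn Q x y) : Conn Q y x := by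
  induction h with
  | refl => exact Relation.ReflTransGen.refl
  | tail _ h2 ih => exact Relation.ReflTransGen.head (adj_symm h2) ih

theorem mem_comp {Q : Finset P} {x y : P} : y ∈ comp Q x ↔ y ∈ Q ∧ Conn Q x y := by
  unfold comp
  rw [Finset.mem_filter]

theorem comp_mem {Q : Finset P} {x : P} (hx : x ∈ Q) : comp Q x ∈ comps Q :=
  Finset.mem_image.2 ⟨x, hx, rfl⟩

theorem self_mem_comp {Q : Finset P} {x : P} (hx : x ∈ Q) : x ∈ comp Q x :=
  mem_comp.2 ⟨hx, Relation.ReflTransGen.refl⟩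

theorem comps_sub {Q T : Finset P} (hT : T ∈ comps Q) : T ⊆ Q := by
  obtain ⟨x, _, rfl⟩ := Finset.mem_image.1 hT
  intro y hy
  exact (mem_comp.1 hy).1

theorem conn_mem {Q T : Finset P} (hT : T ∈ comps Q) {e f : P} (he : e ∈ T)
    (hf : f ∈ Q) (h : Conn Q e f) : f ∈ T := by
  obtain ⟨x, _, rfl⟩ := Finset.mem_image.1 hT
  exact mem_comp.2 ⟨hf, (mem_comp.1 he).2.trans h⟩

theorem adj_mem {Q T : Finset P} (hT : T ∈ comps Q) {e f : P} (he : e ∈ T) (h : Adj Q e f) :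
    f ∈ T :=
  conn_mem hT he h.2.1 (Relation.ReflTransGen.single h)

theorem comps_eq {Q T T' : Finset P} (hT : T ∈ comps Q) (hT' : T' ∈ comps Q) {e : P}
    (he : e ∈ T) (he' : e ∈ T') : T = T' := by
  obtain ⟨x, _, rfl⟩ := Finset.mem_image.1 hT
  obtain ⟨x', _, rfl⟩ := Finset.mem_image.1 hT'
  have h1 := (mem_comp.1 he).2
  have h2 := (mem_comp.1 he').2
  ext y
  rw [mem_comp, mem_comp]
  constructor
  · rintro ⟨a, b⟩
    exact ⟨a, h2.trans ((conn_symm h1).trans b)⟩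
  · rintro ⟨a, b⟩
    exact ⟨a, h1.trans ((conn_symm h2).trans b)⟩

theorem nw_mono {Q R : Finset P} (h : R ⊆ Q) {x e : P} (hx : NW ω R x e) : NW ω Q x e := by
  obtain ⟨h1, h2, ⟨g, hg, h3, h4⟩, f, hf, h5, h6⟩ := hx
  exact ⟨h h1, h h2, ⟨g, h hg, h3, h4⟩, f, h hf, h5, h6⟩

theorem nw_comp {Q T : Finset P} (hT : T ∈ comps Q) {x e : P} (hx : NW ω Q x e)
    (he : x ∈ T ∨ e ∈ T) : NW ω T x e := by
  obtain ⟨h1, h2, ⟨g, hg, h3, h4⟩, f, hf, h5, h6⟩ := hx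
  have a1 : Adj Q x g := ⟨h1, hg, Or.inl h3.1⟩
  have a2 : Adj Q g e := ⟨hg, h2, Or.inl h4.1⟩
  have a3 : Adj Q x f := ⟨h1, hf, Or.inl h5.1⟩
  rcases he with he | he
  · have b1 := adj_mem hT he a1
    exact ⟨he, adj_mem hT b1 a2, ⟨g, b1, h3, h4⟩, f, adj_mem hT he a3, h5, h6⟩
  · have b1 := adj_mem hT he (adj_symm a2)
    have b2 := adj_mem hT b1 (adj_symm a1)
    exact ⟨b2, he, ⟨g, b1, h3, h4⟩, f, adj_mem hT b2 a3, h5, h6⟩

end rib

/-! ### Links -/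

section lnk

variable {P : Type} [Fintype P] [PartialOrder P] {ω : P → ℕ} {N S : P → P}

/-- `E_0` up-step in `Q` -/
def EU (ω : P → ℕ) (Q : Finset P) (u v : P) : Prop :=
  u ∈ Q ∧ v ∈ Q ∧ ((WCov ω u v ∧ ¬ ∃ x, Splitter ω x u v) ∨ SCov ω v u)

/-- `A`-link -/
def LA (ω : P → ℕ) (Q : Finset P) (u v : P) : Prop :=
  u ∈ Q ∧ v ∈ Q ∧ ∃ x, Splitter ω x u v

/-- `C`-link -/
def LC (ω : P → ℕ) (S : P → P) (Q : Finset P) (u v : P) : Prop :=
  u ∈ Q ∧ v ∈ Q ∧ ∃ x b, Merger ω x b v ∧ x ∈ CC ω ∧ S x = u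

theorem nmin {e : P} (h : e ∈ AA ω) : ¬ IsMin e := by
  obtain ⟨x, hx⟩ := mem_AA.1 h
  exact fun hm => absurd (hm hx.lt.le) (not_le_of_gt hx.lt)

theorem nmin' {x y : P} (h : x < y) : ¬ IsMin y := fun hm => absurd (hm h.le) (not_le_of_gt h)

theorem nmax' {x y : P} (h : x < y) : ¬ IsMax x := fun hm => absurd (hm h.le) (not_le_of_gt h)

theorem AA_sCov {x u : P} (h : SCov ω x u) : u ∈ AA ω := mem_AA.2 ⟨x, LL_of_sCov le_rfl h le_rfl⟩

theorem CC_sCov {x u : P} (h : SCov ω x u) : x ∈ CC ω := mem_CC.2 ⟨u, LL_of_sCov le_rfl h le_rfl⟩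

theorem AA_up {u v : P} (h : u ∈ AA ω) (huv : u ≤ v) : v ∈ AA ω := by
  obtain ⟨x, hx⟩ := mem_AA.1 h
  exact mem_AA.2 ⟨x, hx.mono le_rfl huv⟩

theorem ws_irr {x y : P} (h1 : WCov ω x y) (h2 : SCov ω x y) : False := by
  have := h1.2; have := h2.2; omega

/-- a strict cover whose lower element is not minimal -/
theorem N_of (hn : Net ω N S) {x u : P} (h : SCov ω x u) (hx : ¬ IsMin x) : x = N u := by
  rcases hn.extra x u h with h1 | h1
  · exact h1
  · exact absurd h1.1 hx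

/-- a strict cover whose upper element is not maximal -/
theorem N_of' (hn : Net ω N S) {x u : P} (h : SCov ω x u) (hx : ¬ IsMax u) : x = N u := by
  rcases hn.extra x u h with h1 | h1
  · exact h1
  · exact absurd h1.2.1 hx

theorem split_mm (hm : Mini ω) {x b y : P} (h : Splitter ω x b y) : IsMin x ∧ IsMax y :=
  ⟨((c8 P ω hm).2 x b y h.1 h.2.1 h.2.2).1, ((c8 P ω hm).2 x b y h.1 h.2.1 h.2.2).2.1⟩

theorem merge_mm (hm : Mini ω) {x b y : P} (h : Merger ω x b y) : IsMin x ∧ IsMax y :=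
  ⟨((c8 P ω hm).1 x b y h.1 h.2.1 h.2.2).1, ((c8 P ω hm).1 x b y h.1 h.2.1 h.2.2).2.1⟩

theorem merge_b_AA (hm : Mini ω) {x b y : P} (h : Merger ω x b y) : b ∈ AA ω := by
  obtain ⟨-, -, ⟨z, hz, -⟩, -⟩ := (c8 P ω hm).1 x b y h.1 h.2.1 h.2.2
  exact AA_sCov hz

theorem merge_N (hn : Net ω N S) {x b y : P} (h : Merger ω x b y) : b = N y :=
  N_of hn h.2.1 (nmin' h.1.1.lt)

theorem split_N (hn : Net ω N S) {x b y : P} (h : Splitter ω x b y) : x = N b :=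
  N_of' hn h.1 (nmax' h.2.1.1.lt)

/-- covers of `A` and covers of `C` -/
theorem scov_up (hn : Net ω N S) {e f : P} (he : e ∈ AA ω) (h : SCov ω e f) :
    SCov ω (N e) (N f) := by
  have h1 : e = N f := N_of hn h (nmin he)
  rw [← h1]
  exact hn.N_cov e he

theorem wcov_up (hn : Net ω N S) {e f : P} (he : e ∈ AA ω) (h : WCov ω e f)
    (hs : ¬ ∃ x, Splitter ω x e f) : WCov ω (N e) (N f) := by
  by_cases hc : ∃ c, WCov ω (N e) c ∧ SCov ω c f
  · obtain ⟨c, h1, h2⟩ := hc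
    rw [← N_of hn h2 (nmin' h1.1.lt)]
    exact h1
  · exact absurd ⟨N e, hn.N_cov e he, h, hc⟩ hs

theorem scov_down (hn : Net ω N S) {u v : P} (hu : u ∈ AA ω) (hv : v ∈ AA ω)
    (h : SCov ω (N u) (N v)) : SCov ω u v := by
  have h1 : N u = N (N v) := N_of' hn h (nmax' (hn.N_cov v hv).1.lt)
  have h2 : N v ∈ AA ω := AA_sCov h
  have h3 : u = N v := by rw [← hn.SN u hu, h1, hn.SN _ h2]
  rw [h3]
  exact hn.N_cov v hv

theorem wcov_down (hn : Net ω N S) {u v : P} (hu : u ∈ AA ω) (hv : v ∈ AA ω)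
    (h : WCov ω (N u) (N v)) :
    (WCov ω u v ∧ ¬ ∃ x, Splitter ω x u v) ∨ Merger ω (N u) (N v) v := by
  have h0 := hn.N_cov v hv
  by_cases hc : ∃ c, SCov ω (N u) c ∧ WCov ω c v
  · obtain ⟨c, h1, h2⟩ := hc
    have h3 : N u = N c := N_of' hn h1 (nmax' h2.1.lt)
    have h4 : u = c := by rw [← hn.SN u hu, h3, hn.SN _ (AA_sCov h1)]
    rw [← h4] at h2
    refine Or.inl ⟨h2, ?_⟩
    rintro ⟨x, hx⟩
    have h5 : x = N u := N_of' hn hx.1 (nmax' hx.2.1.1.lt)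
    rw [h5] at hx
    exact hx.2.2 ⟨N v, h, h0⟩
  · exact Or.inr ⟨h, h0, hc⟩

theorem N_CC (hn : Net ω N S) {u : P} (hu : u ∈ AA ω) : N u ∈ CC ω := CC_sCov (hn.N_cov u hu)

theorem up_down (hn : Net ω N S) {Q : Finset P} (hQ : Q ⊆ AA ω) {u v : P} (hu : u ∈ Q)
    (hv : v ∈ Q) (h : Up ω (N u) (N v)) : EU ω Q u v ∨ LC ω S Q u v := by
  rcases h with h | h
  · rcases wcov_down hn (hQ hu) (hQ hv) h with h1 | h1
    · exact Or.inl ⟨hu, hv, Or.inl h1⟩
    · exact Or.inr ⟨hu, hv, N u, N v, h1, N_CC hn (hQ hu), hn.SN u (hQ hu)⟩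
  · exact Or.inl ⟨hu, hv, Or.inr (scov_down hn (hQ hv) (hQ hu) h)⟩

theorem up_A {Q : Finset P} {u v : P} (hu : u ∈ Q) (hv : v ∈ Q) (h : Up ω u v) :
    EU ω Q u v ∨ LA ω Q u v := by
  rcases h with h | h
  · by_cases hs : ∃ x, Splitter ω x u v
    · exact Or.inr ⟨hu, hv, hs⟩
    · exact Or.inl ⟨hu, hv, Or.inl ⟨h, hs⟩⟩
  · exact Or.inl ⟨hu, hv, Or.inr h⟩

theorem EU_up {Q : Finset P} {u v : P} (h : EU ω Q u v) : Up ω u v := by
  rcases h.2.2 with h1 | h1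
  · exact Or.inl h1.1
  · exact Or.inr h1

theorem EU_N (hn : Net ω N S) {Q : Finset P} (hQ : Q ⊆ AA ω) {u v : P} (h : EU ω Q u v) :
    Up ω (N u) (N v) := by
  rcases h.2.2 with h1 | h1
  · exact Or.inl (wcov_up hn (hQ h.1) h1.1 h1.2)
  · exact Or.inr (scov_up hn (hQ h.2.1) h1)

theorem LC_N (hn : Net ω N S) {Q : Finset P} {u v : P} (h : LC ω S Q u v) :
    WCov ω (N u) (N v) := by
  obtain ⟨_, _, x, b, h1, h2, h3⟩ := h
  rw [← h3, hn.NS x h2, ← merge_N hn h1]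
  exact h1.1

theorem up_adj {Q : Finset P} {u v : P} (hu : u ∈ Q) (hv : v ∈ Q) (h : Up ω u v) :
    Adj Q u v := by
  rcases h with h | h
  · exact ⟨hu, hv, Or.inl h.1⟩
  · exact ⟨hu, hv, Or.inr h.1⟩

theorem EU_E0 {Q : Finset P} {u v : P} (h : EU ω Q u v) : E0 ω Q u v := by
  refine ⟨up_adj h.1 h.2.1 (EU_up h), ?_, ?_⟩
  · rintro ⟨x, hx⟩
    rcases h.2.2 with h1 | h1
    · exact h1.2 ⟨x, hx⟩
    · exact absurd (h1.1.lt.trans hx.2.1.1.lt) (lt_irrefl _)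
  · rintro ⟨x, hx⟩
    rcases h.2.2 with h1 | h1
    · exact absurd (h1.1.1.lt.trans hx.2.1.1.lt) (lt_irrefl _)
    · exact ws_irr hx.2.1 h1

theorem E0_symm {Q : Finset P} {u v : P} (h : E0 ω Q u v) : E0 ω Q v u :=
  ⟨adj_symm h.1, h.2.2, h.2.1⟩

theorem E0_EU (hω : Function.Injective ω) {Q : Finset P} {u v : P} (h : E0 ω Q u v) :
    EU ω Q u v ∨ EU ω Q v u := by
  obtain ⟨⟨hu, hv, h1⟩, h2, h3⟩ := h
  rcases h1 with h1 | h1
  · rcases cov_cases hω h1 with h4 | h4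
    · exact Or.inl ⟨hu, hv, Or.inl ⟨h4, h2⟩⟩
    · exact Or.inr ⟨hv, hu, Or.inr h4⟩
  · rcases cov_cases hω h1 with h4 | h4
    · exact Or.inr ⟨hv, hu, Or.inl ⟨h4, h3⟩⟩
    · exact Or.inl ⟨hu, hv, Or.inr h4⟩

theorem E0c_symm {Q : Finset P} {u v : P} (h : E0c ω Q u v) : E0c ω Q v u := by
  induction h with
  | refl => exact Relation.ReflTransGen.refl
  | tail _ h2 ih => exact Relation.ReflTransGen.head (E0_symm h2) ih

theorem E0_mono {Q R : Finset P} (h : R ⊆ Q) {u v : P} (hu : E0 ω R u v) : E0 ω Q u v :=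
  ⟨⟨h hu.1.1, h hu.1.2.1, hu.1.2.2⟩, hu.2⟩

theorem E0c_mono {Q R : Finset P} (h : R ⊆ Q) {u v : P} (hu : E0c ω R u v) : E0c ω Q u v :=
  Relation.ReflTransGen.mono (fun _ _ => E0_mono h) _ _ hu

/-! #### Local facts on the four kinds of cells -/

/-- `b'` has no `E_0` up-step -/
theorem b'_out (hm : Mini ω) (hn : Net ω N S) {Q : Finset P} (hQ : Q ⊆ AA ω) {x b y w : P}
    (h : Splitter ω x b y) : ¬ EU ω Q b w := by
  rintro ⟨h1, h2, h3 | h3⟩
  · have hb : ¬ IsMin b := nmin' h.1.1.lt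
    have hl := hm.loc_ge hb
    have : w = y := hl.w_upper b (by simp) w (by simp [h3.1.1.le]) y (by simp [h.2.1.1.le]) h3.1
      h.2.1
    subst this
    exact h3.2 ⟨x, h⟩
  · have h4 : w = N b := N_of hn h3 (nmin (hQ h2))
    have h5 := split_N hn h
    rw [← h5] at h4
    subst h4
    exact nmin (hQ h2) (split_mm hm h).1

/-- `c_b` has no `E_0` up-step -/
theorem c_out (hm : Mini ω) (hn : Net ω N S) {Q : Finset P} (hQ : Q ⊆ AA ω) {x b y w : P}
    (h : Merger ω x b y) (hx : x ∈ CC ω) : ¬ EU ω Q (S x) w := by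
  rintro ⟨h1, h2, h3 | h3⟩
  · have h4 := wcov_up hn (hQ h1) h3.1 h3.2
    rw [hn.NS x hx] at h4
    have h5 : N w = b := (c5 P ω hm).2.1 x (N w) b (merge_mm hm h).1
      (nmax' (hn.N_cov w (hQ h2)).1.lt) (nmax' h.2.1.1.lt) h4 h.1
    have h6 : w = y := by
      rw [← hn.SN w (hQ h2), h5, merge_N hn h, hn.SN y (AA_sCov h.2.1)]
    subst h6
    exact h.2.2 ⟨S x, hn.S_cov x hx, h3.1⟩
  · have h4 : w = N (S x) := N_of hn h3 (nmin (hQ h2))
    rw [hn.NS x hx] at h4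
    subst h4
    exact nmin (hQ h2) (merge_mm hm h).1

/-- `y'` has no `E_0` in-step -/
theorem y'_in (hm : Mini ω) {Q : Finset P} (hQ : Q ⊆ AA ω) {x b y w : P}
    (h : Splitter ω x b y) : ¬ EU ω Q w y := by
  rintro ⟨h1, h2, h3 | h3⟩
  · have : w = b := (c5 P ω hm).2.2.2 y w b (split_mm hm h).2 (nmin (hQ h1)) (nmin' h.1.1.lt)
      h3.1 h.2.1
    subst this
    exact h3.2 ⟨x, h⟩
  · exact nmax' h3.1.lt (split_mm hm h).2

/-- `y_b` has no `E_0` in-step -/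
theorem y_in (hm : Mini ω) (hn : Net ω N S) {Q : Finset P} (hQ : Q ⊆ AA ω) {x b y w : P}
    (h : Merger ω x b y) : ¬ EU ω Q w y := by
  rintro ⟨h1, h2, h3 | h3⟩
  · have h4 := wcov_up hn (hQ h1) h3.1 h3.2
    rw [← merge_N hn h] at h4
    have hl := hm.loc_le (nmax' h.2.1.1.lt)
    have h5 : N w = x := hl.w_lower (N w) (by simp [h4.1.le]) x (by simp [h.1.1.le]) b (by simp)
      h4 h.1
    exact h.2.2 ⟨w, by rw [← h5]; exact hn.N_cov w (hQ h1), h3.1⟩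
  · exact nmax' h3.1.lt (merge_mm hm h).2

theorem LA_out {Q : Finset P} (hm : Mini ω) (hn : Net ω N S) (hQ : Q ⊆ AA ω) {u v w : P}
    (h : LA ω Q u v) : ¬ EU ω Q u w := by
  obtain ⟨_, _, x, hx⟩ := h
  exact b'_out hm hn hQ hx

theorem LC_out {Q : Finset P} (hm : Mini ω) (hn : Net ω N S) (hQ : Q ⊆ AA ω) {u v w : P}
    (h : LC ω S Q u v) : ¬ EU ω Q u w := by
  obtain ⟨_, _, x, b, h1, h2, rfl⟩ := h
  exact c_out hm hn hQ h1 h2

theorem LA_in {Q : Finset P} (hm : Mini ω) (hQ : Q ⊆ AA ω) {u v w : P}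
    (h : LA ω Q u v) : ¬ EU ω Q w v := by
  obtain ⟨_, _, x, hx⟩ := h
  exact y'_in hm hQ hx

theorem LC_in {Q : Finset P} (hm : Mini ω) (hn : Net ω N S) (hQ : Q ⊆ AA ω) {u v w : P}
    (h : LC ω S Q u v) : ¬ EU ω Q w v := by
  obtain ⟨_, _, x, b, h1, h2, rfl⟩ := h
  exact y_in hm hn hQ h1

theorem LA_uniq {Q : Finset P} (hm : Mini ω) {u v w : P} (h : LA ω Q u v) (h' : LA ω Q u w) :
    v = w := by
  obtain ⟨_, _, x, hx⟩ := h
  obtain ⟨_, _, x', hx'⟩ := h'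
  have hl := hm.loc_ge (nmin' hx.1.1.lt)
  exact hl.w_upper u (by simp) v (by simp [hx.2.1.1.le]) w (by simp [hx'.2.1.1.le]) hx.2.1 hx'.2.1

theorem LC_uniq {Q : Finset P} (hm : Mini ω) (hn : Net ω N S) {u v w : P}
    (h : LC ω S Q u v) (h' : LC ω S Q u w) : v = w := by
  obtain ⟨_, _, x, b, h1, h2, h3⟩ := h
  obtain ⟨_, _, x', b', h1', h2', h3'⟩ := h'
  have h4 : x = x' := by rw [← hn.NS x h2, h3, ← h3', hn.NS x' h2']
  subst h4
  have h5 : b = b' := (c5 P ω hm).2.1 x b b' (merge_mm hm h1).1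
      (nmax' h1.2.1.1.lt) (nmax' h1'.2.1.1.lt) h1.1 h1'.1
  rw [← hn.SN v (AA_sCov h1.2.1), ← hn.SN w (AA_sCov h1'.2.1), ← merge_N hn h1,
    ← merge_N hn h1', h5]

theorem LA_LC {Q : Finset P} (hn : Net ω N S) {u v : P} (h : LA ω Q u v)
    (h' : LC ω S Q u v) : False := by
  obtain ⟨_, _, x, hx⟩ := h
  obtain ⟨_, _, x', b', h1, h2, h3⟩ := h'
  exact h1.2.2 ⟨u, by rw [← h3]; exact hn.S_cov x' h2, hx.2.1⟩

/-! #### No north-west neighbours -/

theorem b'_nw (hm : Mini ω) (hn : Net ω N S) {Q : Finset P} (hQ : Q ⊆ AA ω) {x b y z : P}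
    (h : Splitter ω x b y) : ¬ NW ω Q z b := by
  rintro ⟨_, _, ⟨g, hg, h1, h2⟩, _⟩
  have h4 : g = N b := N_of hn h2 (nmin (hQ hg))
  rw [← split_N hn h] at h4
  subst h4
  exact nmin (hQ hg) (split_mm hm h).1

theorem y'_nw (hm : Mini ω) (hn : Net ω N S) {Q : Finset P} (hQ : Q ⊆ AA ω) {x b y z : P}
    (h : Splitter ω x b y) : ¬ NW ω Q z y := by
  rintro ⟨hz, _, _, f, hf, h1, h2⟩
  have h3 : f = b := (c5 P ω hm).2.2.2 y f b (split_mm hm h).2 (nmin (hQ hf)) (nmin' h.1.1.lt)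
      h2 h.2.1
  subst h3
  have h4 : z = N f := N_of hn h1 (nmin (hQ hz))
  rw [← split_N hn h] at h4
  subst h4
  exact nmin (hQ hz) (split_mm hm h).1

theorem c_nw (hm : Mini ω) (hn : Net ω N S) {Q : Finset P} (hQ : Q ⊆ AA ω) {x b y z : P}
    (h : Merger ω x b y) (hx : x ∈ CC ω) : ¬ NW ω Q z (S x) := by
  rintro ⟨_, _, ⟨g, hg, h1, h2⟩, _⟩
  have h4 : g = N (S x) := N_of hn h2 (nmin (hQ hg))
  rw [hn.NS x hx] at h4
  subst h4
  exact nmin (hQ hg) (merge_mm hm h).1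

theorem y_nw (hm : Mini ω) (hn : Net ω N S) {Q : Finset P} (hQ : Q ⊆ AA ω) {x b y z : P}
    (h : Merger ω x b y) : ¬ NW ω Q z y := by
  rintro ⟨hz, _, ⟨g, hg, h1, h2⟩, _⟩
  have h4 : g = N y := N_of hn h2 (nmin (hQ hg))
  rw [← merge_N hn h] at h4
  subst h4
  have hl := hm.loc_le (nmax' h2.1.lt)
  have h5 : z = x := hl.w_lower z (by simp [h1.1.le]) x (by simp [h.1.1.le]) g (by simp)
      h1 h.1
  subst h5
  exact nmin (hQ hz) (merge_mm hm h).1

/-- `c_b` has no south-east neighbour -/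
theorem c_se (hm : Mini ω) (hn : Net ω N S) {Q : Finset P} (hQ : Q ⊆ AA ω) {x b y z : P}
    (h : Merger ω x b y) (hx : x ∈ CC ω) : ¬ NW ω Q (S x) z := by
  rintro ⟨hc, hz, ⟨g, hg, h1, h2⟩, _⟩
  refine c_out hm hn hQ (Q := Q) h hx (w := g) ⟨hc, hg, Or.inl ⟨h1, ?_⟩⟩
  rintro ⟨x', hx'⟩
  exact nmax' h2.1.lt (split_mm hm hx').2

/-! #### The potential -/

/-- the largest label in the `E_0`-component -/
noncomputable def Om (ω : P → ℕ) (e : P) : ℕ :=
  (Finset.univ.filter fun f => E0c ω (AA ω) e f).sup ω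

theorem Om_congr {e f : P} (h : E0c ω (AA ω) e f) : Om ω e = Om ω f := by
  unfold Om
  congr 1
  ext g
  rw [Finset.mem_filter, Finset.mem_filter]
  constructor
  · rintro ⟨_, h1⟩
    exact ⟨Finset.mem_univ _, (E0c_symm h).trans h1⟩
  · rintro ⟨_, h1⟩
    exact ⟨Finset.mem_univ _, h.trans h1⟩

theorem le_Om (e : P) : ω e ≤ Om ω e :=
  Finset.le_sup (f := ω) (Finset.mem_filter.2 ⟨Finset.mem_univ e, Relation.ReflTransGen.refl⟩)

theorem EU_Om {Q : Finset P} (hQ : Q ⊆ AA ω) {u v : P} (h : EU ω Q u v) : Om ω u = Om ω v :=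
  Om_congr (Relation.ReflTransGen.single (E0_mono hQ (EU_E0 h)))

theorem diamond (hm : Mini ω) (hn : Net ω N S) {e f g : P} (h1 : EU ω (AA ω) e f)
    (h2 : EU ω (AA ω) e g) : f = g ∨ ∃ c, EU ω (AA ω) f c ∧ EU ω (AA ω) g c := by
  have key : ∀ f g : P, f ∈ AA ω → g ∈ AA ω → WCov ω e f → (¬ ∃ x, Splitter ω x e f) →
      SCov ω g e → ∃ c, EU ω (AA ω) f c ∧ EU ω (AA ω) g c := by
    intro f g hf hg a1 a2 a3
    by_cases hc : ∃ c, WCov ω g c ∧ SCov ω c f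
    · obtain ⟨c, c1, c2⟩ := hc
      have hcA : c ∈ AA ω := AA_up hg c1.1.le
      refine ⟨c, ⟨hf, hcA, Or.inr c2⟩, ⟨hg, hcA, Or.inl ⟨c1, ?_⟩⟩⟩
      rintro ⟨x', hx'⟩
      exact nmax' c2.1.lt (split_mm hm hx').2
    · exact absurd ⟨g, a3, a1, hc⟩ a2
  rcases h1.2.2 with a | a <;> rcases h2.2.2 with b | b
  · have hl := hm.loc_ge (nmin h1.1)
    exact Or.inl (hl.w_upper e (by simp) f (by simp [a.1.1.le]) g (by simp [b.1.1.le]) a.1 b.1)
  · exact Or.inr (key f g h1.2.1 h2.2.1 a.1 a.2 b)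
  · obtain ⟨c, c1, c2⟩ := key g f h2.2.1 h1.2.1 b.1 b.2 a
    exact Or.inr ⟨c, c2, c1⟩
  · left
    rw [N_of hn a (nmin h1.2.1), N_of hn b (nmin h2.2.1)]

theorem conf (hm : Mini ω) (hn : Net ω N S) {t : P} (ht : ∀ w, ¬ EU ω (AA ω) t w) {e : P}
    (he : Relation.ReflTransGen (EU ω (AA ω)) e t) :
    ∀ f, EU ω (AA ω) e f → Relation.ReflTransGen (EU ω (AA ω)) f t := by
  induction he using Relation.ReflTransGen.head_induction_on with
  | refl => intro f hf; exact absurd hf (ht f)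
  | @head a c h1 h2 ih =>
    intro f hf
    rcases diamond hm hn h1 hf with h3 | ⟨d, h3, h4⟩
    · subst h3; exact h2
    · exact Relation.ReflTransGen.head h4 (ih d h3)

theorem to_top (hm : Mini ω) (hn : Net ω N S) {t : P} (ht : ∀ w, ¬ EU ω (AA ω) t w) {e : P}
    (he : E0c ω (AA ω) t e) : Relation.ReflTransGen (EU ω (AA ω)) e t := by
  induction he with
  | refl => exact Relation.ReflTransGen.refl
  | @tail a b _ h2 ih =>
    rcases E0_EU hm.inj h2 with h3 | h3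
    · exact conf hm hn ht ih b h3
    · exact Relation.ReflTransGen.head h3 ih

theorem EU_lt {Q : Finset P} {u v : P} (h : EU ω Q u v) : ω u < ω v := by
  rcases h.2.2 with h1 | h1
  · exact h1.1.2
  · exact h1.2

theorem Om_top (hm : Mini ω) (hn : Net ω N S) {t : P} (ht : ∀ w, ¬ EU ω (AA ω) t w) :
    Om ω t = ω t := by
  apply le_antisymm
  · apply Finset.sup_le
    intro e he
    have h1 := to_top hm hn ht (Finset.mem_filter.1 he).2
    clear he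
    induction h1 using Relation.ReflTransGen.head_induction_on with
    | refl => exact le_rfl
    | head h1 _ ih => exact (EU_lt h1).le.trans ih
  · exact le_Om t

theorem LA_Om (hm : Mini ω) (hn : Net ω N S) {Q : Finset P} {u v : P}
    (h : LA ω Q u v) : Om ω u < Om ω v := by
  obtain ⟨_, _, x, hx⟩ := h
  rw [Om_top hm hn (t := u) fun w => b'_out hm hn subset_rfl hx]
  exact lt_of_lt_of_le hx.2.1.2 (le_Om v)

theorem LC_Om (hm : Mini ω) (hn : Net ω N S) {Q : Finset P} {u v : P}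
    (h : LC ω S Q u v) : Om ω u < Om ω v := by
  obtain ⟨_, _, x, b, h1, h2, rfl⟩ := h
  rw [Om_top hm hn (t := S x) fun w => c_out hm hn subset_rfl h1 h2]
  have h3 : Om ω v = Om ω b := EU_Om (Q := AA ω) subset_rfl
    ⟨AA_sCov h1.2.1, merge_b_AA hm h1, Or.inr h1.2.1⟩
  rw [h3]
  exact lt_of_lt_of_le ((hn.S_cov x h2).2.trans h1.1.2) (le_Om b)

end lnk

/-! ### The proof -/

section main

variable {P : Type} [Fintype P] [PartialOrder P] {ω : P → ℕ} {N S : P → P}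

/-- the two statements for `(V, W)` -/
def QQ (ω : P → ℕ) (S : P → P) (Q : Finset P) : Prop :=
  (∀ x b' y', Splitter ω x b' y' → b' ∈ Q → y' ∈ Q →
      ∃ x₂ b y, Merger ω x₂ b y ∧ S x₂ ∈ Q ∧ y ∈ Q ∧ E0c ω Q b' y) ∧
    (∀ x₂ b y, Merger ω x₂ b y → x₂ ∈ CC ω → S x₂ ∈ Q → y ∈ Q →
      ∃ x b' y', Splitter ω x b' y' ∧ b' ∈ Q ∧ y' ∈ Q ∧ E0c ω Q y b')

theorem len (hL : LamStmt) (hω : Function.Injective ω) {Q : Finset P} (hQ : Skw ω Q) {L : ℕ}
    {l : List ℕ} (hl : lam ω Q = L :: l) :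
    (∀ T ∈ comps Q, (nwrim ω T).card ≤ L) ∧ ∃ T ∈ comps Q, (nwrim ω T).card = L := by
  obtain ⟨_, _, _, _, _, _, h⟩ := hL P ω hω Q hQ
  obtain ⟨h1, h2, _⟩ := h L l hl
  refine ⟨h1, ?_⟩
  have h3 : 0 < ((comps Q).filter (fun T => (nwrim ω T).card = L)).card := by
    rw [h2, hl, List.count_cons_self]
    exact Nat.succ_pos _
  obtain ⟨T, hT⟩ := Finset.card_pos.1 h3
  rw [Finset.mem_filter] at hT
  exact ⟨T, hT.1, hT.2⟩

theorem mem_nwrim {T : Finset P} {e : P} : e ∈ nwrim ω T ↔ e ∈ T ∧ ∀ x, ¬ NW ω T x e := by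
  simp only [nwrim, Finset.mem_filter]

theorem mem_serim {T : Finset P} {x : P} : x ∈ serim ω T ↔ x ∈ T ∧ ∀ e, ¬ NW ω T x e := by
  simp only [serim, Finset.mem_filter]

theorem E0c_conn {Q : Finset P} {u v : P} (h : E0c ω Q u v) : Conn Q u v :=
  Relation.ReflTransGen.mono (fun _ _ h => h.1) _ _ h

theorem E0c_connN (hω : Function.Injective ω) (hn : Net ω N S) {Q : Finset P} (hQ : Q ⊆ AA ω)
    {u v : P} (h : E0c ω Q u v) : Conn (Q.image N) (N u) (N v) := by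
  refine Relation.ReflTransGen.lift N (fun a b hab => ?_) _ _ h
  rcases E0_EU hω hab with h1 | h1
  · exact up_adj (Finset.mem_image_of_mem _ h1.1) (Finset.mem_image_of_mem _ h1.2.1)
      (EU_N hn hQ h1)
  · exact adj_symm (up_adj (Finset.mem_image_of_mem _ h1.1) (Finset.mem_image_of_mem _ h1.2.1)
      (EU_N hn hQ h1))

theorem main_step (hRP : RPStmt) (hD : DepthStmt) (hG : RimGeo) (hL : LamStmt) (hSE : SEStmt)
    (hm : Mini ω) (hn : Net ω N S) (n : ℕ)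
    (IH : ∀ V W : Finset P, Reach ω N S V W → (W \ V).card < n → QQ ω S (W \ V))
    (V W : Finset P) (hR : Reach ω N S V W) (hcard : (W \ V).card = n) : QQ ω S (W \ V) := by
  obtain ⟨hVg, hWg, hVW, hlam⟩ := hRP P ω hm N S hn V W hR
  obtain ⟨hQs, hKs, hD1, hD2, -⟩ := hD P ω hm N S hn V hVg W hWg hVW
  have hWi := (mem_good.1 hWg).1
  have hQA : W \ V ⊆ AA ω := fun u hu => subset_of_mem_idl hWi (Finset.mem_sdiff.1 hu).1
  have hIH : ∀ V' W' : Finset P, Reach ω N S V' W' → (W' \ V') ⊂ (W \ V) →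
      QQ ω S (W' \ V') := fun V' W' h1 h2 => IH V' W' h1 (by
        rw [← hcard]; exact Finset.card_lt_card h2)
  clear IH hcard
  by_cases hne : (W \ V).Nonempty
  swap
  · rw [Finset.not_nonempty_iff_eq_empty] at hne
    rw [hne]
    exact ⟨fun _ _ _ _ h => absurd h (Finset.notMem_empty _),
      fun _ _ _ _ _ h => absurd h (Finset.notMem_empty _)⟩
  obtain ⟨L, l, hl⟩ : ∃ L l, lam ω (W \ V) = L :: l := by
    cases h : lam ω (W \ V) with
    | nil =>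
      have h1 := (hL P ω hm.inj _ hQs).2.2.2.2.1
      rw [h, List.sum_nil] at h1
      exact absurd (Finset.card_pos.2 hne) (by omega)
    | cons a b => exact ⟨a, b, rfl⟩
  obtain ⟨mxA, exA⟩ := len hL hm.inj hQs hl
  obtain ⟨mxC, exC⟩ := len hL hm.inj hKs (hlam.trans hl)
  -- abbreviations
  have memK : ∀ z ∈ (W \ V).image N, S z ∈ W \ V ∧ N (S z) = z := by
    intro z hz
    obtain ⟨u, hu, rfl⟩ := Finset.mem_image.1 hz
    rw [hn.SN u (hQA hu)]
    exact ⟨hu, rfl⟩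
  have NK : ∀ u ∈ W \ V, N u ∈ (W \ V).image N := fun u hu => Finset.mem_image_of_mem _ hu
  have Ninj : ∀ u ∈ W \ V, ∀ v ∈ W \ V, N u = N v → u = v := fun u hu v hv h => by
    rw [← hn.SN u (hQA hu), h, hn.SN v (hQA hv)]
  -- the two steps
  have stepL : ∀ σ ∈ comps ((W \ V).image N), (nwrim ω σ).card = L →
      Reach ω N S (V ∪ (nwrim ω σ).image S) W := fun σ hσ h1 =>
    Reach.left V W σ hR hσ fun σ' hσ' => by rw [h1]; exact mxC σ' hσ'
  have stepR : ∀ τ ∈ comps (W \ V), (nwrim ω τ).card = L →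
      Reach ω N S V (W \ serim ω τ) := fun τ hτ h1 =>
    Reach.right V W τ hR hτ fun τ' hτ' => by
      rw [(hSE P ω hm.inj _ hQs τ hτ).1, (hSE P ω hm.inj _ hQs τ' hτ').1, h1]
      exact mxA τ' hτ'
  have subL : ∀ σ ∈ comps ((W \ V).image N),
      W \ (V ∪ (nwrim ω σ).image S) ⊂ W \ V := by
    intro σ hσ
    obtain ⟨_, ⟨_, ⟨z, hz⟩, _⟩, _⟩ := hG P ω hm.inj _ hKs σ hσ
    have hzK := comps_sub hσ (mem_nwrim.1 hz).1
    rw [Finset.ssubset_iff_of_subset]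
    · refine ⟨S z, (memK z hzK).1, ?_⟩
      rw [Finset.mem_sdiff, Finset.mem_union]
      rintro ⟨_, h2⟩
      exact h2 (Or.inr (Finset.mem_image_of_mem _ hz))
    · intro u hu
      rw [Finset.mem_sdiff, Finset.mem_union] at hu
      exact Finset.mem_sdiff.2 ⟨hu.1, fun h => hu.2 (Or.inl h)⟩
  have subR : ∀ τ ∈ comps (W \ V), (W \ serim ω τ) \ V ⊂ W \ V := by
    intro τ hτ
    obtain ⟨_, _, ⟨_, ⟨z, hz⟩, _⟩, _⟩ := hG P ω hm.inj _ hQs τ hτ
    have hzK := comps_sub hτ (mem_serim.1 hz).1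
    rw [Finset.ssubset_iff_of_subset]
    · refine ⟨z, hzK, ?_⟩
      rw [Finset.mem_sdiff, Finset.mem_sdiff]
      rintro ⟨⟨_, h2⟩, _⟩
      exact h2 hz
    · intro u hu
      rw [Finset.mem_sdiff, Finset.mem_sdiff] at hu
      exact Finset.mem_sdiff.2 ⟨hu.1.1, hu.2⟩
  -- rims
  have rimC : ∀ σ ∈ comps ((W \ V).image N), ∀ u ∈ W \ V, N u ∈ σ → (∀ w, ¬ NW ω (W \ V) w u) →
      N u ∈ nwrim ω σ := by
    intro σ hσ u hu hus hnw
    refine mem_nwrim.2 ⟨hus, fun z hz => ?_⟩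
    obtain ⟨w, _, hw⟩ := hD2 u hu z (nw_mono (comps_sub hσ) hz)
    exact hnw w hw
  have rimA : ∀ τ ∈ comps (W \ V), ∀ u ∈ τ, (∀ w, ¬ NW ω (W \ V) w u) → u ∈ nwrim ω τ := by
    intro τ hτ u hu hnw
    exact mem_nwrim.2 ⟨hu, fun z hz => hnw z (nw_mono (comps_sub hτ) hz)⟩
  have rimCA : ∀ σ ∈ comps ((W \ V).image N), ∀ τ ∈ comps (W \ V), ∀ u ∈ τ,
      N u ∈ nwrim ω σ → u ∈ nwrim ω τ := by
    intro σ hσ τ hτ u hu hr
    refine mem_nwrim.2 ⟨hu, fun x hx => ?_⟩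
    have h1 := hD1 u (comps_sub hτ hu) x (nw_mono (comps_sub hτ) hx)
    exact (mem_nwrim.1 hr).2 _ (nw_comp hσ h1 (Or.inr (mem_nwrim.1 hr).1))
  have rimAC : ∀ σ ∈ comps ((W \ V).image N), ∀ τ ∈ comps (W \ V), ∀ u ∈ nwrim ω τ,
      N u ∈ σ → N u ∈ nwrim ω σ := by
    intro σ hσ τ hτ u hu hr
    obtain ⟨h0, h1⟩ := mem_nwrim.1 hu
    refine mem_nwrim.2 ⟨hr, fun z hz => ?_⟩
    obtain ⟨w, _, hw⟩ := hD2 u (comps_sub hτ h0) z (nw_mono (comps_sub hσ) hz)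
    exact h1 w (nw_comp hτ hw (Or.inr h0))
  -- (L)
  have L1 : ∀ τ ∈ comps (W \ V), (nwrim ω τ).card = L → ∀ c y, LC ω S (W \ V) c y → c ∈ τ →
      y ∈ τ := by
    intro τ hτ hτL c y hcy hc
    by_contra hy
    obtain ⟨hcQ, hyQ, x, b, h1, h2, h3⟩ := hcy
    obtain ⟨_, hg, _, _⟩ := hRP P ω hm N S hn _ _ (stepR τ hτ hτL)
    have hyW : y ∈ W \ serim ω τ := Finset.mem_sdiff.2 ⟨(Finset.mem_sdiff.1 hyQ).1,
      fun h => hy (mem_serim.1 h).1⟩
    have h4 := (((st9g st1 P ω hm N S hn _ (mem_good.1 hg).1).1 hg).1 x b y h1 hyW).2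
    refine (Finset.mem_sdiff.1 h4).2 ?_
    rw [mem_serim, h3]
    refine ⟨hc, fun e he => ?_⟩
    rw [← h3] at he
    exact c_se hm hn hQA h1 h2 (nw_mono (comps_sub hτ) he)
  have L2 : ∀ σ ∈ comps ((W \ V).image N), (nwrim ω σ).card = L → ∀ b y, LA ω (W \ V) b y →
      N y ∈ σ → N b ∈ nwrim ω σ := by
    intro σ hσ hσL b y hby hy
    obtain ⟨hbQ, hyQ, x, hx⟩ := hby
    obtain ⟨hg, _, _, _⟩ := hRP P ω hm N S hn _ _ (stepL σ hσ hσL)
    have h1 : N y ∈ nwrim ω σ := rimC σ hσ y hyQ hy fun w => y'_nw hm hn hQA hx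
    have h2 : y ∈ V ∪ (nwrim ω σ).image S := by
      rw [Finset.mem_union]
      refine Or.inr (Finset.mem_image.2 ⟨N y, h1, hn.SN y (hQA hyQ)⟩)
    have h3 : b ∈ V ∪ (nwrim ω σ).image S :=
      (mem_idl.1 (mem_good.1 hg).1).2 b (hQA hbQ) y h2 hx.2.1.1.le
    rw [Finset.mem_union] at h3
    rcases h3 with h3 | h3
    · exact absurd h3 (Finset.mem_sdiff.1 hbQ).2
    · obtain ⟨z, hz, rfl⟩ := Finset.mem_image.1 h3
      rw [(memK z (comps_sub hσ (mem_nwrim.1 hz).1)).2]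
      exact hz
  -- totality
  have totA : ∀ τ ∈ comps (W \ V), ∀ u ∈ nwrim ω τ, ∀ v ∈ nwrim ω τ,
      Relation.ReflTransGen (fun u v => u ∈ nwrim ω τ ∧ v ∈ nwrim ω τ ∧
        (EU ω (W \ V) u v ∨ LA ω (W \ V) u v)) u v ∨
      Relation.ReflTransGen (fun u v => u ∈ nwrim ω τ ∧ v ∈ nwrim ω τ ∧
        (EU ω (W \ V) u v ∨ LA ω (W \ V) u v)) v u := by
    intro τ hτ u hu v hv
    obtain ⟨_, ⟨_, _, h1, _, h2, h3⟩, _⟩ := hG P ω hm.inj _ hQs τ hτ
    have h4 : ∀ a b, (a ∈ nwrim ω τ ∧ b ∈ nwrim ω τ ∧ Up ω a b) → (a ∈ nwrim ω τ ∧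
        b ∈ nwrim ω τ ∧ (EU ω (W \ V) a b ∨ LA ω (W \ V) a b)) := fun a b h =>
      ⟨h.1, h.2.1, up_A (comps_sub hτ (mem_nwrim.1 h.1).1) (comps_sub hτ (mem_nwrim.1 h.2.1).1)
        h.2.2⟩
    rcases total hm.inj h1 h3 h2 hu hv with h | h
    · exact Or.inl (Relation.ReflTransGen.mono h4 _ _ h)
    · exact Or.inr (Relation.ReflTransGen.mono h4 _ _ h)
  have totC : ∀ σ ∈ comps ((W \ V).image N), ∀ u ∈ W \ V, N u ∈ nwrim ω σ → ∀ v ∈ W \ V,
      N v ∈ nwrim ω σ →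
      Relation.ReflTransGen (fun u v => (u ∈ W \ V ∧ N u ∈ nwrim ω σ) ∧
        (v ∈ W \ V ∧ N v ∈ nwrim ω σ) ∧ (EU ω (W \ V) u v ∨ LC ω S (W \ V) u v)) u v ∨
      Relation.ReflTransGen (fun u v => (u ∈ W \ V ∧ N u ∈ nwrim ω σ) ∧
        (v ∈ W \ V ∧ N v ∈ nwrim ω σ) ∧ (EU ω (W \ V) u v ∨ LC ω S (W \ V) u v)) v u := by
    intro σ hσ u hu hNu v hv hNv
    obtain ⟨_, ⟨_, _, h1, _, h2, h3⟩, _⟩ := hG P ω hm.inj _ hKs σ hσ
    have h4 : ∀ a b, (a ∈ nwrim ω σ ∧ b ∈ nwrim ω σ ∧ Up ω a b) →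
        ((S a ∈ W \ V ∧ N (S a) ∈ nwrim ω σ) ∧ (S b ∈ W \ V ∧ N (S b) ∈ nwrim ω σ) ∧
          (EU ω (W \ V) (S a) (S b) ∨ LC ω S (W \ V) (S a) (S b))) := by
      rintro a b ⟨ha, hb, hab⟩
      obtain ⟨a1, a2⟩ := memK a (comps_sub hσ (mem_nwrim.1 ha).1)
      obtain ⟨b1, b2⟩ := memK b (comps_sub hσ (mem_nwrim.1 hb).1)
      refine ⟨⟨a1, by rw [a2]; exact ha⟩, ⟨b1, by rw [b2]; exact hb⟩, ?_⟩
      exact up_down hn hQA a1 b1 (by rw [a2, b2]; exact hab)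
    have hSu := hn.SN u (hQA hu)
    have hSv := hn.SN v (hQA hv)
    rcases total hm.inj h1 h3 h2 hNu hNv with h | h
    · have h5 : Relation.ReflTransGen (fun u v => (u ∈ W \ V ∧ N u ∈ nwrim ω σ) ∧
          (v ∈ W \ V ∧ N v ∈ nwrim ω σ) ∧ (EU ω (W \ V) u v ∨ LC ω S (W \ V) u v))
          (S (N u)) (S (N v)) :=
        Relation.ReflTransGen.lift S (fun a b hab => h4 a b hab) _ _ h
      rw [hSu, hSv] at h5
      exact Or.inl h5
    · have h5 : Relation.ReflTransGen (fun u v => (u ∈ W \ V ∧ N u ∈ nwrim ω σ) ∧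
          (v ∈ W \ V ∧ N v ∈ nwrim ω σ) ∧ (EU ω (W \ V) u v ∨ LC ω S (W \ V) u v))
          (S (N v)) (S (N u)) :=
        Relation.ReflTransGen.lift S (fun a b hab => h4 a b hab) _ _ h
      rw [hSu, hSv] at h5
      exact Or.inr h5
  -- the final contradiction
  have fin : ∀ σ ∈ comps ((W \ V).image N), ∀ τ ∈ comps (W \ V),
      (∀ u ∈ W \ V, u ∈ nwrim ω τ ↔ N u ∈ nwrim ω σ) → ∀ x ∈ nwrim ω τ, ∀ y ∈ nwrim ω τ,
      (LA ω (W \ V) x y ∨ LC ω S (W \ V) x y) → False := by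
    intro σ hσ τ hτ hiff x hx y hy hxy
    have hQ' : ∀ u ∈ nwrim ω τ, u ∈ W \ V := fun u hu => comps_sub hτ (mem_nwrim.1 hu).1
    have tC : ∀ u ∈ nwrim ω τ, ∀ v ∈ nwrim ω τ,
      Relation.ReflTransGen (fun u v => u ∈ nwrim ω τ ∧ v ∈ nwrim ω τ ∧
        (EU ω (W \ V) u v ∨ LC ω S (W \ V) u v)) u v ∨
      Relation.ReflTransGen (fun u v => u ∈ nwrim ω τ ∧ v ∈ nwrim ω τ ∧
        (EU ω (W \ V) u v ∨ LC ω S (W \ V) u v)) v u := by
      intro u hu v hv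
      have h4 : ∀ a b, ((a ∈ W \ V ∧ N a ∈ nwrim ω σ) ∧
        (b ∈ W \ V ∧ N b ∈ nwrim ω σ) ∧ (EU ω (W \ V) a b ∨ LC ω S (W \ V) a b)) →
        (a ∈ nwrim ω τ ∧ b ∈ nwrim ω τ ∧ (EU ω (W \ V) a b ∨ LC ω S (W \ V) a b)) :=
        fun a b h => ⟨(hiff a h.1.1).2 h.1.2, (hiff b h.2.1.1).2 h.2.1.2, h.2.2⟩
      rcases totC σ hσ u (hQ' u hu) ((hiff u (hQ' u hu)).1 hu) v (hQ' v hv)
        ((hiff v (hQ' v hv)).1 hv) with h | h
      · exact Or.inl (Relation.ReflTransGen.mono h4 _ _ h)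
      · exact Or.inr (Relation.ReflTransGen.mono h4 _ _ h)
    rcases hxy with h | h
    · exact core (nwrim ω τ) (EU ω (W \ V)) (LA ω (W \ V)) (LC ω S (W \ V)) (Om ω)
        (fun u v => EU_Om hQA) (fun u v => LA_Om hm hn) (fun u v => LC_Om hm hn)
        (totA τ hτ) tC (fun u v w => LA_out hm hn hQA) (fun u v w => LC_in hm hn hQA)
        (fun u v w => LA_uniq hm) (fun u v => LA_LC hn) hx hy h
    · exact core (nwrim ω τ) (EU ω (W \ V)) (LC ω S (W \ V)) (LA ω (W \ V)) (Om ω)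
        (fun u v => EU_Om hQA) (fun u v => LC_Om hm hn) (fun u v => LA_Om hm hn)
        tC (totA τ hτ) (fun u v w => LC_out hm hn hQA) (fun u v w => LA_in hm hQA)
        (fun u v w => LC_uniq hm hn) (fun u v h1 h2 => LA_LC hn h2 h1) hx hy h
  -- survival of elements
  have survL : ∀ σ ∈ comps ((W \ V).image N), ∀ σ0 ∈ comps ((W \ V).image N), σ ≠ σ0 →
      ∀ u ∈ W \ V, N u ∈ σ → u ∈ W \ (V ∪ (nwrim ω σ0).image S) := by
    intro σ hσ σ0 hσ0 hne u hu hus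
    rw [Finset.mem_sdiff, Finset.mem_union]
    refine ⟨(Finset.mem_sdiff.1 hu).1, ?_⟩
    rintro (h | h)
    · exact (Finset.mem_sdiff.1 hu).2 h
    · obtain ⟨z, hz, rfl⟩ := Finset.mem_image.1 h
      have hz0 := (mem_nwrim.1 hz).1
      rw [(memK z (comps_sub hσ0 hz0)).2] at hus
      exact hne (comps_eq hσ hσ0 hus hz0)
  have survR : ∀ τ ∈ comps (W \ V), ∀ τ0 ∈ comps (W \ V), τ ≠ τ0 →
      ∀ u ∈ τ, u ∈ (W \ serim ω τ0) \ V := by
    intro τ hτ τ0 hτ0 hne u hu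
    have h1 := Finset.mem_sdiff.1 (comps_sub hτ hu)
    rw [Finset.mem_sdiff, Finset.mem_sdiff]
    refine ⟨⟨h1.1, fun h => ?_⟩, h1.2⟩
    exact hne (comps_eq hτ hτ0 hu (mem_serim.1 h).1)
  refine ⟨?_, ?_⟩
  · -- (a)
    intro x b' y' hs hb hy
    have hLA : LA ω (W \ V) b' y' := ⟨hb, hy, x, hs⟩
    have hτ : comp (W \ V) b' ∈ comps (W \ V) := comp_mem hb
    have hσ : comp ((W \ V).image N) (N b') ∈ comps ((W \ V).image N) := comp_mem (NK b' hb)
    have hbτ : b' ∈ comp (W \ V) b' := self_mem_comp hb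
    have hbσ : N b' ∈ comp ((W \ V).image N) (N b') := self_mem_comp (NK b' hb)
    have hyτ : y' ∈ comp (W \ V) b' := adj_mem hτ hbτ (up_adj hb hy (Or.inl hs.2.1))
    generalize comp (W \ V) b' = τ at hτ hbτ hyτ
    generalize comp ((W \ V).image N) (N b') = σ at hσ hbσ
    by_cases hσL : (nwrim ω σ).card = L
    swap
    · obtain ⟨σ0, hσ0, h0⟩ := exC
      have hne : σ ≠ σ0 := fun h => hσL (by rw [h]; exact h0)
      have hR' := stepL σ0 hσ0 h0
      have hss := subL σ0 hσ0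
      have hb2 := survL σ hσ σ0 hσ0 hne b' hb hbσ
      obtain ⟨hg, _, _, _⟩ := hRP P ω hm N S hn _ _ hR'
      have hy2 : y' ∈ W \ (V ∪ (nwrim ω σ0).image S) := by
        refine Finset.mem_sdiff.2 ⟨(Finset.mem_sdiff.1 hy).1, fun h => ?_⟩
        exact (Finset.mem_sdiff.1 hb2).2
          ((mem_idl.1 (mem_good.1 hg).1).2 b' (hQA hb) y' h hs.2.1.1.le)
      obtain ⟨x₂, b, y, h1, h2, h3, h4⟩ := (hIH _ _ hR' hss).1 x b' y' hs hb2 hy2
      exact ⟨x₂, b, y, h1, hss.1 h2, hss.1 h3, E0c_mono hss.1 h4⟩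
    by_cases hτL : (nwrim ω τ).card = L
    swap
    · obtain ⟨τ0, hτ0, h0⟩ := exA
      have hne : τ ≠ τ0 := fun h => hτL (by rw [h]; exact h0)
      have hR' := stepR τ0 hτ0 h0
      have hss := subR τ0 hτ0
      obtain ⟨x₂, b, y, h1, h2, h3, h4⟩ := (hIH _ _ hR' hss).1 x b' y' hs
        (survR τ hτ τ0 hτ0 hne b' hbτ) (survR τ hτ τ0 hτ0 hne y' hyτ)
      exact ⟨x₂, b, y, h1, hss.1 h2, hss.1 h3, E0c_mono hss.1 h4⟩
    by_contra hno
    have hbJ : N b' ∈ nwrim ω σ := rimC σ hσ b' hb hbσ fun w => b'_nw hm hn hQA hs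
    have c1 : ∀ u ∈ W \ V, N u ∈ nwrim ω σ → u ∈ τ := by
      intro u hu hNu
      rcases totC σ hσ u hu hNu b' hb hbJ with h | h
      · have key : E0c ω (W \ V) b' u := by
          clear hNu hu
          induction h using Relation.ReflTransGen.head_induction_on with
          | refl => exact Relation.ReflTransGen.refl
          | @head a c h1 _ ih =>
            rcases h1.2.2 with h2 | h2
            · exact ih.tail (E0_symm (EU_E0 h2))
            · exfalso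
              obtain ⟨k1, k2, x₂, b, k3, k4, k5⟩ := h2
              exact hno ⟨x₂, b, c, k3, by rw [k5]; exact k1, k2, ih⟩
        exact conn_mem hτ hbτ hu (E0c_conn key)
      · clear hNu hu
        induction h with
        | refl => exact hbτ
        | @tail a c _ h1 ih =>
          rcases h1.2.2 with h2 | h2
          · exact adj_mem hτ ih (EU_E0 h2).1
          · exact L1 τ hτ hτL a c h2 ih
    have c2 : ∀ u ∈ W \ V, N u ∈ nwrim ω σ → u ∈ nwrim ω τ := fun u hu h =>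
      rimCA σ hσ τ hτ u (c1 u hu h) h
    have c3 : (nwrim ω σ).image S = nwrim ω τ := by
      apply Finset.eq_of_subset_of_card_le
      · intro u hu
        obtain ⟨z, hz, rfl⟩ := Finset.mem_image.1 hu
        obtain ⟨k1, k2⟩ := memK z (comps_sub hσ (mem_nwrim.1 hz).1)
        exact c2 _ k1 (by rw [k2]; exact hz)
      · rw [Finset.card_image_of_injOn, hσL, hτL]
        intro z hz z' hz' he
        rw [← (memK z (comps_sub hσ (mem_nwrim.1 hz).1)).2,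
          ← (memK z' (comps_sub hσ (mem_nwrim.1 hz').1)).2]
        exact congrArg N he
    have c4 : ∀ u ∈ W \ V, u ∈ nwrim ω τ ↔ N u ∈ nwrim ω σ := by
      intro u hu
      refine ⟨fun h => ?_, c2 u hu⟩
      rw [← c3] at h
      obtain ⟨z, hz, rfl⟩ := Finset.mem_image.1 h
      rw [(memK z (comps_sub hσ (mem_nwrim.1 hz).1)).2]
      exact hz
    exact fin σ hσ τ hτ c4 b' ((c4 b' hb).2 hbJ) y'
      (rimA τ hτ y' hyτ fun w => y'_nw hm hn hQA hs) (Or.inl hLA)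
  · -- (b)
    intro x₂ b y hs hxC hc hy
    have hLC : LC ω S (W \ V) (S x₂) y := ⟨hc, hy, x₂, b, hs, hxC, rfl⟩
    have hτ : comp (W \ V) y ∈ comps (W \ V) := comp_mem hy
    have hσ : comp ((W \ V).image N) (N y) ∈ comps ((W \ V).image N) := comp_mem (NK y hy)
    have hyτ : y ∈ comp (W \ V) y := self_mem_comp hy
    have hyσ : N y ∈ comp ((W \ V).image N) (N y) := self_mem_comp (NK y hy)
    have hcσ : N (S x₂) ∈ comp ((W \ V).image N) (N y) := adj_mem hσ hyσ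
      (adj_symm (up_adj (NK _ hc) (NK y hy) (Or.inl (LC_N hn hLC))))
    generalize comp (W \ V) y = τ at hτ hyτ
    generalize comp ((W \ V).image N) (N y) = σ at hσ hyσ hcσ
    by_cases hσL : (nwrim ω σ).card = L
    swap
    · obtain ⟨σ0, hσ0, h0⟩ := exC
      have hne : σ ≠ σ0 := fun h => hσL (by rw [h]; exact h0)
      have hR' := stepL σ0 hσ0 h0
      have hss := subL σ0 hσ0
      obtain ⟨x, b', y', h1, h2, h3, h4⟩ := (hIH _ _ hR' hss).2 x₂ b y hs hxC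
        (survL σ hσ σ0 hσ0 hne _ hc hcσ) (survL σ hσ σ0 hσ0 hne y hy hyσ)
      exact ⟨x, b', y', h1, hss.1 h2, hss.1 h3, E0c_mono hss.1 h4⟩
    by_cases hτL : (nwrim ω τ).card = L
    swap
    · obtain ⟨τ0, hτ0, h0⟩ := exA
      have hne : τ ≠ τ0 := fun h => hτL (by rw [h]; exact h0)
      have hR' := stepR τ0 hτ0 h0
      have hss := subR τ0 hτ0
      have hy2 := survR τ hτ τ0 hτ0 hne y hyτ
      obtain ⟨_, hg, _, _⟩ := hRP P ω hm N S hn _ _ hR'
      have hc2 : S x₂ ∈ (W \ serim ω τ0) \ V := by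
        refine Finset.mem_sdiff.2 ⟨?_, (Finset.mem_sdiff.1 hc).2⟩
        exact (((st9g st1 P ω hm N S hn _ (mem_good.1 hg).1).1 hg).1 x₂ b y hs
          (Finset.mem_sdiff.1 hy2).1).2
      obtain ⟨x, b', y', h1, h2, h3, h4⟩ := (hIH _ _ hR' hss).2 x₂ b y hs hxC hc2 hy2
      exact ⟨x, b', y', h1, hss.1 h2, hss.1 h3, E0c_mono hss.1 h4⟩
    by_contra hno
    have hyR : y ∈ nwrim ω τ := rimA τ hτ y hyτ fun w => y_nw hm hn hQA hs
    have c1 : ∀ u ∈ nwrim ω τ, N u ∈ σ := by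
      intro u hu
      rcases totA τ hτ y hyR u hu with h | h
      · have key : E0c ω (W \ V) y u := by
          clear hu
          induction h with
          | refl => exact Relation.ReflTransGen.refl
          | @tail a c _ h1 ih =>
            rcases h1.2.2 with h2 | h2
            · exact ih.tail (EU_E0 h2)
            · exfalso
              obtain ⟨k1, k2, x, k3⟩ := h2
              exact hno ⟨x, a, c, k3, k1, k2, ih⟩
        exact conn_mem hσ hyσ (NK u (comps_sub hτ (mem_nwrim.1 hu).1))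
          (E0c_connN hm.inj hn hQA key)
      · clear hu
        induction h using Relation.ReflTransGen.head_induction_on with
        | refl => exact hyσ
        | @head a c h1 _ ih =>
          rcases h1.2.2 with h2 | h2
          · exact adj_mem hσ ih (adj_symm (up_adj (NK a h2.1) (NK c h2.2.1) (EU_N hn hQA h2)))
          · exact (mem_nwrim.1 (L2 σ hσ hσL a c h2 ih)).1
    have c2 : ∀ u ∈ nwrim ω τ, N u ∈ nwrim ω σ := fun u hu => rimAC σ hσ τ hτ u hu (c1 u hu)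
    have c3 : (nwrim ω τ).image N = nwrim ω σ := by
      apply Finset.eq_of_subset_of_card_le
      · intro z hz
        obtain ⟨u, hu, rfl⟩ := Finset.mem_image.1 hz
        exact c2 u hu
      · rw [Finset.card_image_of_injOn, hσL, hτL]
        intro u hu v hv he
        exact Ninj u (comps_sub hτ (mem_nwrim.1 hu).1) v (comps_sub hτ (mem_nwrim.1 hv).1) he
    have c4 : ∀ u ∈ W \ V, u ∈ nwrim ω τ ↔ N u ∈ nwrim ω σ := by
      intro u hu
      refine ⟨c2 u, fun h => ?_⟩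
      rw [← c3] at h
      obtain ⟨v, hv, he⟩ := Finset.mem_image.1 h
      rw [← Ninj v (comps_sub hτ (mem_nwrim.1 hv).1) u hu he]
      exact hv
    have hcR : S x₂ ∈ nwrim ω τ := (c4 _ hc).2
      (rimC σ hσ _ hc hcσ fun w => c_nw hm hn hQA hs hxC)
    exact fin σ hσ τ hτ c4 (S x₂) hcR y hyR (Or.inr hLC)

end main

end TQ

open TQ in
/-- **Theorem Q.** -/
theorem qStmt (hRP : RPStmt) (hD : DepthStmt) (hG : RimGeo) (hL : LamStmt) (hSE : SEStmt) :
    QStmt := by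
  intro P _ _ ω hm N S hn V W hR
  have key : ∀ n : ℕ, ∀ V W : Finset P, Reach ω N S V W → (W \ V).card = n →
      QQ ω S (W \ V) := by
    intro n
    induction n using Nat.strong_induction_on with
    | _ n ih =>
      exact main_step hRP hD hG hL hSE hm hn n fun V' W' h1 h2 => ih _ h2 V' W' h1 rfl
  exact key _ V W hR rfl

end Pool.Agent.ST14
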