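import Pool.Agent.ST14.FinStmts
import Pool.Agent.ST14.ThmQ

/-!
Module `FinLink` (sections 5 and 6 of 49bc13_h58.md): the links at a merger.
-/

set_option autoImplicit false

namespace Pool.Agent.ST14

open scoped Classical

namespace FL

variable {P : Type} [Fintype P] [PartialOrder P] {ω : P → ℕ}

theorem nmax {a b : P} (h : a < b) : ¬ IsMax a := fun h1 => h1.not_lt h

theorem nmin {a b : P} (h : a < b) : ¬ IsMin b := fun h1 => h1.not_lt h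

theorem wl (h : Mini ω) {b x x' : P} (hb : ¬ IsMax b) (h1 : WCov ω x b) (h2 : WCov ω x' b) :
    x = x' := by
  have h3 := h.loc_le hb
  exact h3.w_lower x (by simpa using h1.1.le) x' (by simpa using h2.1.le) b (by simp) h1 h2

theorem sl (h : Mini ω) {b x x' : P} (hb : ¬ IsMax b) (h1 : SCov ω x b) (h2 : SCov ω x' b) :
    x = x' := by
  have h3 := h.loc_le hb
  exact h3.s_lower x (by simpa using h1.1.le) x' (by simpa using h2.1.le) b (by simp) h1 h2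

theorem wu (h : Mini ω) {b x x' : P} (hb : ¬ IsMin b) (h1 : WCov ω b x) (h2 : WCov ω b x') :
    x = x' := by
  have h3 := h.loc_ge hb
  exact h3.w_upper b (by simp) x (by simpa using h1.1.le) x' (by simpa using h2.1.le) h1 h2

theorem su (h : Mini ω) {b x x' : P} (hb : ¬ IsMin b) (h1 : SCov ω b x) (h2 : SCov ω b x') :
    x = x' := by
  have h3 := h.loc_ge hb
  exact h3.s_upper b (by simp) x (by simpa using h1.1.le) x' (by simpa using h2.1.le) h1 h2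

/-- a strict cover with non-maximal top is regular -/
theorem rs_nmax (h : Mini ω) {x u : P} (hu : ¬ IsMax u) (h1 : SCov ω x u) : RS ω x u := by
  refine ⟨h1, fun h2 => ?_⟩
  obtain ⟨h3, z, h4, h5⟩ := h2
  have h6 := sl h hu h1 h4
  subst h6
  exact h5 h3

theorem rw_nmax (h : Mini ω) {x u : P} (hu : ¬ IsMax u) (h1 : WCov ω x u) : RW ω x u := by
  refine ⟨h1, fun h2 => ?_⟩
  obtain ⟨h3, z, h4, h5⟩ := h2
  have h6 := wl h hu h1 h4
  subst h6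
  exact h5 h3

theorem rs_nmin {x u : P} (hx : ¬ IsMin x) (h1 : SCov ω x u) : RS ω x u :=
  ⟨h1, fun h2 => hx h2.1⟩

theorem rw_nmin {x u : P} (hx : ¬ IsMin x) (h1 : WCov ω x u) : RW ω x u :=
  ⟨h1, fun h2 => hx h2.1⟩

theorem mem_Intr {x : P} : x ∈ Intr ω ↔ ∃ e, (∃ g, WCov ω x g ∧ SCov ω g e) ∧
    ∃ f, SCov ω x f ∧ WCov ω f e := by
  simp only [Intr, NW, Finset.mem_filter, Finset.mem_univ, true_and]

/-- `S x_b` -/
theorem link (hF : FactStmt) (hN : FinNet) (h : Mini ω) {x b y : P} (hm : Merger ω x b y) :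
    ∃ c, RS ω x c ∧ c ∉ Intr ω ∧ ((∃ y', Splitter ω x c y') ∨ IsMax c) := by
  obtain ⟨hn1, hn2, hn3, hn4, hn5, hn6, hn7, hn8, hn9⟩ := hN P ω h
  obtain ⟨hx1, hy1, -, -⟩ := (TQ.c8 P ω h).1 x b y hm.1 hm.2.1 hm.2.2
  obtain ⟨⟨c0, hc0⟩, hf⟩ := hF P ω h x b y hm
  have hxC : x ∈ CC ω := by
    simp only [CC, Finset.mem_filter, Finset.mem_univ, true_and]
    exact ⟨c0, x, c0, le_rfl, hc0.1.lt, le_rfl, hc0.2⟩
  by_cases hsp : ∃ b' y', Splitter ω x b' y'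
  · obtain ⟨b', y', hs⟩ := hsp
    obtain ⟨_, hy2, -, -⟩ := (TQ.c8 P ω h).2 x b' y' hs.1 hs.2.1 hs.2.2
    refine ⟨b', rs_nmax h (nmax hs.2.1.1.lt) hs.1, ?_, Or.inl ⟨y', hs⟩⟩
    intro h1
    obtain ⟨e, ⟨g, h2, h3⟩, _⟩ := mem_Intr.1 h1
    have h4 := wu h (nmin hs.1.1.lt) hs.2.1 h2
    subst h4
    exact hy2.not_lt h3.1.lt
  · have hsp' : ∀ b' y', ¬ Splitter ω x b' y' := fun b' y' h1 => hsp ⟨b', y', h1⟩
    obtain ⟨c, hc⟩ := hn3 x hxC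
    have h1 := hf hsp' c
    refine ⟨c, hc, ?_, Or.inr ?_⟩
    · intro h2
      obtain ⟨e, _, f, h3, _⟩ := mem_Intr.1 h2
      exact h1 f hc.1 h3
    · by_contra h2
      rw [not_isMax_iff] at h2
      obtain ⟨v, hv⟩ := h2
      obtain ⟨u, hu1, hu2⟩ := exists_upper_cov hv
      rcases cov_cases h.inj hu1 with h3 | h3
      · by_cases h4 : ∃ g, WCov ω x g ∧ SCov ω g u
        · obtain ⟨g, h5, h6⟩ := h4
          have h7 : b = g := (TQ.c5 P ω h).2.1 x b g hx1 (nmax hm.2.1.1.lt) (nmax h6.1.lt) hm.1 h5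
          subst h7
          have h8 := su h (nmin hm.1.1.lt) hm.2.1 h6
          subst h8
          exact hm.2.2 ⟨c, hc.1, h3⟩
        · exact hsp' c u ⟨hc.1, h3, h4⟩
      · exact h1 u hc.1 h3

end FL

/-- **L** -/
theorem finLink (hF : FactStmt) (hN : FinNet) (hT : FinTr) (hR : FinRv) : FinLink := by
  intro P _ _ ω h x b y hm
  obtain ⟨hx1, hy1, ⟨z1, hz1, hz1'⟩, ⟨z2, hz2, hz2'⟩⟩ :=
    (TQ.c8 P ω h).1 x b y hm.1 hm.2.1 hm.2.2
  have hbm : ¬ IsMin b := FL.nmin hm.1.1.lt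
  have hbM : ¬ IsMax b := FL.nmax hm.2.1.1.lt
  refine ⟨⟨hx1, hy1, hbm, hbM, FL.rw_nmax h hbM hm.1, FL.rs_nmin hbm hm.2.1⟩,
    ⟨⟨z1, FL.rs_nmax h hbM hz1⟩, ⟨z2, FL.rw_nmin hbm hz2⟩⟩, ⟨?_, ?_, ?_⟩,
    FL.link hF hN h hm, ?_, ?_, ?_, ?_⟩
  · intro b₂ y₂ h1
    have h2 : b₂ = b := (TQ.c5 P ω h).2.1 x b₂ b hx1 (FL.nmax h1.2.1.1.lt) hbM h1.1 hm.1
    subst h2
    exact ⟨rfl, FL.su h hbm h1.2.1 hm.2.1⟩
  · intro x₂ y₂ h1
    exact ⟨FL.wl h hbM h1.1 hm.1, FL.su h hbm h1.2.1 hm.2.1⟩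
  · intro x₂ b₂ h1
    have h2 : b₂ = b := (TQ.c5 P ω h).2.2.1 y b₂ b hy1 (FL.nmin h1.1.1.lt) hbm h1.2.1 hm.2.1
    subst h2
    exact ⟨FL.wl h hbM h1.1 hm.1, rfl⟩
  · -- `W y_b`, from the case of `tr (rv ω)`
    have hrv : Mini (rv ω) := K5d k1 P ω h
    have htr : Mini (tr (rv ω)) := k5c _ (rv ω) hrv
    obtain ⟨-, r2, r3, r4, -, -, -, -⟩ := hR P ω h
    obtain ⟨t1, -, -, -, t5, t6, -⟩ := hT _ (rv ω)
    have hm2 : Merger (tr (rv ω)) (OrderDual.toDual y) (OrderDual.toDual b)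
        (OrderDual.toDual x) := (t5 _ _ _).2 ((r4 x b y).2 hm)
    obtain ⟨d, hd1, -, hd3⟩ := FL.link hF hN htr hm2
    refine ⟨OrderDual.ofDual d, ?_, ?_⟩
    · exact (r2 (OrderDual.ofDual d) y).1 ((t1 _ _).1 hd1)
    · rcases hd3 with ⟨y', hd4⟩ | hd4
      · left
        exact ⟨OrderDual.ofDual y', (r3 (OrderDual.ofDual y') (OrderDual.ofDual d) y).1
          ((t6 _ _ _).1 hd4)⟩
      · right
        intro w hw
        exact hd4 (b := OrderDual.toDual w) hw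
  · intro h1
    obtain ⟨e, ⟨g, h2, h3⟩, f, h4, h5⟩ := FL.mem_Intr.1 h1
    have h6 : b = g := (TQ.c5 P ω h).2.1 x b g hx1 hbM (FL.nmax h3.1.lt) hm.1 h2
    subst h6
    have h7 := FL.su h hbm hm.2.1 h3
    subst h7
    exact hm.2.2 ⟨f, h4, h5⟩
  · intro h1
    obtain ⟨e, ⟨g, h2, h3⟩, _⟩ := FL.mem_Intr.1 h1
    have h6 := FL.wu h hbm hz2 h2
    subst h6
    exact hz2' e h3
  · intro h1
    obtain ⟨e, ⟨g, h2, h3⟩, _⟩ := FL.mem_Intr.1 h1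
    exact hy1.not_lt h2.1.lt

end Pool.Agent.ST14
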