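import Pool.Agent.ST14.FinStmts
import Pool.Agent.ST14.K5rev
import Pool.Agent.ST14.Kap1
import Pool.Agent.ST14.Kap3

/-!
Module FIN_Main: the theorem for minimal symmetric labelled posets from `FinKey`, `FinLen`,
`FinEnd` and `FinRv`.
-/

set_option autoImplicit false

namespace Pool.Agent.ST14

open scoped Classical

section

variable {P : Type} [Fintype P] [PartialOrder P]

/-- An element with the smallest label is a source. -/
theorem fm_exists_src [Nonempty P] (ω : P → ℕ) : ∃ r, Src ω r := by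
  obtain ⟨r, -, hr⟩ := Finset.exists_min_image (Finset.univ : Finset P) ω Finset.univ_nonempty
  refine ⟨r, ?_, ?_⟩
  · intro u hu
    exact absurd hu.2 (not_lt.2 (hr u (Finset.mem_univ u)))
  · intro z hz
    exact absurd hz.2 (not_lt.2 (hr z (Finset.mem_univ z)))

/-- A locally skew transpose gives a locally skew poset. -/
theorem fm_of_tr {ω : P → ℕ} (h : LocSkew (tr ω)) : LocSkew ω := by
  refine ⟨?_, ?_, ?_, ?_, ?_, ?_⟩
  · intro x x' y h1 h2
    exact h.s_lower x x' y ((sCov_tr ω x y).2 h1) ((sCov_tr ω x' y).2 h2)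
  · intro x y y' h1 h2
    exact h.s_upper x y y' ((sCov_tr ω x y).2 h1) ((sCov_tr ω x y').2 h2)
  · intro x x' y h1 h2
    exact h.w_lower x x' y ((wCov_tr ω x y).2 h1) ((wCov_tr ω x' y).2 h2)
  · intro x y y' h1 h2
    exact h.w_upper x y y' ((wCov_tr ω x y).2 h1) ((wCov_tr ω x y').2 h2)
  · intro x b y h1 h2
    obtain ⟨c, h3, h4⟩ := h.sw x b y ((sCov_tr ω x b).2 h1) ((wCov_tr ω b y).2 h2)
    exact ⟨c, (wCov_tr ω x c).1 h3, (sCov_tr ω c y).1 h4⟩
  · intro x b y h1 h2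
    obtain ⟨c, h3, h4⟩ := h.ws x b y ((wCov_tr ω x b).2 h1) ((sCov_tr ω b y).2 h2)
    exact ⟨c, (sCov_tr ω x c).1 h3, (wCov_tr ω c y).1 h4⟩

/-- A locally skew reversal gives a locally skew poset. -/
theorem fm_of_rv {ω : P → ℕ} (h : LocSkew (rv ω)) : LocSkew ω := by
  have hw : ∀ x y : P, WCov ω x y → WCov (rv ω) (OrderDual.toDual y) (OrderDual.toDual x) :=
    fun x y h1 => (wCov_rv ω _ _).2 h1
  have hs : ∀ x y : P, SCov ω x y → SCov (rv ω) (OrderDual.toDual y) (OrderDual.toDual x) :=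
    fun x y h1 => (sCov_rv ω _ _).2 h1
  refine ⟨?_, ?_, ?_, ?_, ?_, ?_⟩
  · intro x x' y h1 h2
    exact OrderDual.toDual.injective (h.w_upper _ _ _ (hw _ _ h1) (hw _ _ h2))
  · intro x y y' h1 h2
    exact OrderDual.toDual.injective (h.w_lower _ _ _ (hw _ _ h1) (hw _ _ h2))
  · intro x x' y h1 h2
    exact OrderDual.toDual.injective (h.s_upper _ _ _ (hs _ _ h1) (hs _ _ h2))
  · intro x y y' h1 h2
    exact OrderDual.toDual.injective (h.s_lower _ _ _ (hs _ _ h1) (hs _ _ h2))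
  · intro x b y h1 h2
    obtain ⟨c, h3, h4⟩ := h.sw _ _ _ (hs _ _ h2) (hw _ _ h1)
    exact ⟨OrderDual.ofDual c, (sCov_rv ω c (OrderDual.toDual x)).1 h4,
      (wCov_rv ω (OrderDual.toDual y) c).1 h3⟩
  · intro x b y h1 h2
    obtain ⟨c, h3, h4⟩ := h.ws _ _ _ (hw _ _ h2) (hs _ _ h1)
    exact ⟨OrderDual.ofDual c, (wCov_rv ω c (OrderDual.toDual x)).1 h4,
      (sCov_rv ω (OrderDual.toDual y) c).1 h3⟩

end

/-- **Module FIN_Main.** A minimal symmetric labelled poset is locally skew. -/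
theorem finMain (hK : FinKey) (hLn : FinLen) (hE : FinEnd) (hR : FinRv) : FinMain := by
  intro P _ _ ω hM
  by_contra hns
  have hne : Nonempty P := by
    by_contra hemp
    apply hns
    rw [not_nonempty_iff] at hemp
    exact ⟨fun x => (hemp.false x).elim, fun x => (hemp.false x).elim,
      fun x => (hemp.false x).elim, fun x => (hemp.false x).elim,
      fun x => (hemp.false x).elim, fun x => (hemp.false x).elim⟩
  have hMt : Mini (tr ω) := k5c P ω hM
  have hnst : ¬ LocSkew (tr ω) := fun h => hns (fm_of_tr h)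
  have hMr : Mini (rv ω) := K5d k1 P ω hM
  have hnsr : ¬ LocSkew (rv ω) := fun h => hns (fm_of_rv h)
  -- the smallest length
  have hex : ∃ n : ℕ, (∃ r, Src ω r ∧ lG ω r = n) ∨ ∃ r, Src (tr ω) r ∧ lG (tr ω) r = n := by
    obtain ⟨r, hr⟩ := fm_exists_src ω
    exact ⟨lG ω r, Or.inl ⟨r, hr, rfl⟩⟩
  have hmin : ∀ n, ((∃ r, Src ω r ∧ lG ω r = n) ∨ ∃ r, Src (tr ω) r ∧ lG (tr ω) r = n) →
      Nat.find hex ≤ n := fun n hn => Nat.find_min' hex hn
  have hspec := Nat.find_spec hex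
  set m := Nat.find hex with hm
  have h1 : ∀ r, Src ω r → m ≤ lG ω r := fun r hr => hmin _ (Or.inl ⟨r, hr, rfl⟩)
  have h2 : ∀ r, Src (tr ω) r → m ≤ lG (tr ω) r := fun r hr => hmin _ (Or.inr ⟨r, hr, rfl⟩)
  -- the same for the reversal
  have h3 : ∀ r, Src (rv ω) r → m ≤ lG (rv ω) r := by
    intro r hr
    have hr' : Src (tr ω) (OrderDual.ofDual r) := ((hR P ω hM).2.2.2.2.2.2.1 _).1 hr
    have := ((hLn P ω hM (OrderDual.ofDual r)).2 hr').1
    rw [OrderDual.toDual_ofDual] at this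
    rw [this]
    exact h2 _ hr'
  have h4 : ∀ r, Src (tr (rv ω)) r → m ≤ lG (tr (rv ω)) r := by
    intro r hr
    have hr' : Src ω (OrderDual.ofDual r) := ((hR P ω hM).2.2.2.2.2.2.2 _).1 hr
    have := ((hLn P ω hM (OrderDual.ofDual r)).1 hr').1
    rw [OrderDual.toDual_ofDual] at this
    rw [this]
    exact h1 _ hr'
  rcases hspec with ⟨r, hr, hrm⟩ | ⟨r, hr, hrm⟩
  · rcases hE P ω hM hns r hr with hX | hY
    · exact hK P ω hM hns m h1 h2 (Or.inl ⟨r, hr, hX, hrm⟩)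
    · have hL := (hLn P ω hM r).1 hr
      refine hK Pᵒᵈ (rv ω) hMr hnsr m h3 h4 (Or.inr ⟨OrderDual.toDual r, ?_, ?_, ?_⟩)
      · exact ((hR P ω hM).2.2.2.2.2.2.2 r).2 hr
      · exact hL.2.2 hY
      · rw [hL.1, hrm]
  · rcases hE P (tr ω) hMt hnst r hr with hX | hY
    · exact hK P ω hM hns m h1 h2 (Or.inr ⟨r, hr, hX, hrm⟩)
    · have hL := (hLn P ω hM r).2 hr
      refine hK Pᵒᵈ (rv ω) hMr hnsr m h3 h4 (Or.inl ⟨OrderDual.toDual r, ?_, ?_, ?_⟩)
      · exact ((hR P ω hM).2.2.2.2.2.2.1 r).2 hr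
      · exact hL.2.2 hY
      · rw [hL.1, hrm]

end Pool.Agent.ST14
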