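import Pool.Agent.ST14.FinStmts
import Pool.Agent.ST14.ThmQ

set_option autoImplicit false

namespace Pool.Agent.ST14

open scoped Classical

theorem finNetB (h7 : St7) : FinNet := by
  intro P _ _ ω h
  obtain ⟨N, S, hN⟩ := h7 P ω h
  have mA : ∀ u x, SCov ω x u → u ∈ AA ω := fun u x hx =>
    Finset.mem_filter.2 ⟨Finset.mem_univ _, x, LL_of_sCov le_rfl hx le_rfl⟩
  have mC : ∀ x u, SCov ω x u → x ∈ CC ω := fun x u hx =>
    Finset.mem_filter.2 ⟨Finset.mem_univ _, u, LL_of_sCov le_rfl hx le_rfl⟩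
  -- facts for any net
  have key : ∀ N S : P → P, Net ω N S → ∀ x u, (RS ω x u ↔ u ∈ AA ω ∧ x = N u) ∧
      (RS ω x u ↔ x ∈ CC ω ∧ u = S x) := by
    intro N S hN x u
    have nmin : ∀ v, N v ∈ AA ω → ¬ IsMin (N v) := by
      intro v hv hm
      have := (hN.N_cov _ hv).1.lt
      exact absurd (hm this.le) (not_le_of_gt this)
    have h1 : RS ω x u ↔ u ∈ AA ω ∧ x = N u := by
      constructor
      · rintro ⟨hx, hno⟩
        have hu := mA u x hx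
        refine ⟨hu, ?_⟩
        rcases hN.extra x u hx with h2 | ⟨h2, -, h3, -⟩
        · exact h2
        · exact absurd ⟨h2, N u, hN.N_cov u hu, nmin u h3⟩ hno
      · rintro ⟨hu, rfl⟩
        refine ⟨hN.N_cov u hu, ?_⟩
        rintro ⟨hm, z, hz, hzm⟩
        rcases hN.extra z u hz with h2 | ⟨h2, -⟩
        · exact hzm (h2 ▸ hm)
        · exact hzm h2
    refine ⟨h1, h1.trans ?_⟩
    constructor
    · rintro ⟨hu, rfl⟩
      exact ⟨mC _ u (hN.N_cov u hu), (hN.SN u hu).symm⟩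
    · rintro ⟨hx, rfl⟩
      exact ⟨mA _ x (hN.S_cov x hx), (hN.NS x hx).symm⟩
  have k := key N S hN
  have nmin : ∀ v, N v ∈ AA ω → ¬ IsMin (N v) := by
    intro v hv hm
    have := (hN.N_cov _ hv).1.lt
    exact absurd (hm this.le) (not_le_of_gt this)
  refine ⟨?_, ?_, ?_, ?_, ?_, ?_, ?_, ?_, key⟩
  · intro x u hx
    exact ⟨hx.1, mC x u hx.1, mA u x hx.1⟩
  · intro u hu
    exact ⟨N u, (k _ u).1.2 ⟨hu, rfl⟩⟩
  · intro x hx
    exact ⟨S x, (k x _).2.2 ⟨hx, rfl⟩⟩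
  · intro x x' u h1 h2
    rw [((k x u).1.1 h1).2, ((k x' u).1.1 h2).2]
  · intro x u u' h1 h2
    rw [((k x u).2.1 h1).2, ((k x u').2.1 h2).2]
  · intro x u hx
    by_cases h1 : RS ω x u
    · exact Or.inl h1
    · right
      unfold RS at h1
      push Not at h1
      obtain ⟨h2, h3⟩ := h1 hx
      exact ⟨hx, h2, h3⟩
  · intro x u hx hno
    refine (k x u).1.2 ⟨mA u x hx, ?_⟩
    rcases hN.extra x u hx with h2 | ⟨h2, h3, -⟩
    · exact h2
    · exact absurd ⟨h2, h3⟩ hno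
  · rintro i M ⟨h1, h2, z, hz, hzm⟩
    have hno : ¬ RS ω i M := fun hh => hh.2 ⟨h2, z, hz, hzm⟩
    refine ⟨hno, ?_⟩
    rcases hN.extra i M h1 with h3 | ⟨-, h4, h5, h6⟩
    · exact absurd ((k i M).1.2 ⟨mA M i h1, h3⟩) hno
    · refine ⟨h4, ⟨N M, h5, (k _ M).1.2 ⟨mA M i h1, rfl⟩⟩, S i, h6, (k i _).2.2 ⟨mC i M h1, rfl⟩⟩

end Pool.Agent.ST14
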