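import Pool.Agent.ST14.FinStmts

/-!
The ideal `Q_r` for a region from a source to `x = x_b` (section 6 of 49bc13_h58.md).
-/

set_option autoImplicit false

namespace Pool.Agent.ST14

open scoped Classical

/-- A set of pairs in which the second entry is determined by the first one. -/
theorem finQr_card_fst {P : Type} (J : Finset P) (C : P → P → Prop)
    (hu : ∀ p ∈ J, ∀ q ∈ J, ∀ q' ∈ J, C p q → C p q' → q = q') :
    ((J ×ˢ J).filter fun p => C p.1 p.2).card = (J.filter fun p => ∃ q ∈ J, C p q).card := by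
  apply Finset.card_bij (fun p _ => p.1)
  · intro p hp
    rw [Finset.mem_filter, Finset.mem_product] at hp
    rw [Finset.mem_filter]
    exact ⟨hp.1.1, p.2, hp.1.2, hp.2⟩
  · intro p hp q hq hpq
    rw [Finset.mem_filter, Finset.mem_product] at hp hq
    have h1 : C p.1 q.2 := by
      have := hq.2
      rw [← hpq] at this
      exact this
    exact Prod.ext hpq (hu p.1 hp.1.1 p.2 hp.1.2 q.2 hq.1.2 hp.2 h1)
  · intro p hp
    rw [Finset.mem_filter] at hp
    obtain ⟨hp1, q, hq, hpq⟩ := hp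
    refine ⟨(p, q), ?_, rfl⟩
    rw [Finset.mem_filter, Finset.mem_product]
    exact ⟨⟨hp1, hq⟩, hpq⟩

/-- A set of pairs in which the first entry is determined by the second one. -/
theorem finQr_card_snd {P : Type} (J : Finset P) (C : P → P → Prop)
    (hu : ∀ p ∈ J, ∀ p' ∈ J, ∀ q ∈ J, C p q → C p' q → p = p') :
    ((J ×ˢ J).filter fun p => C p.1 p.2).card = (J.filter fun q => ∃ p ∈ J, C p q).card := by
  apply Finset.card_bij (fun p _ => p.2)
  · intro p hp
    rw [Finset.mem_filter, Finset.mem_product] at hp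
    rw [Finset.mem_filter]
    exact ⟨hp.1.2, p.1, hp.1.1, hp.2⟩
  · intro p hp q hq hpq
    rw [Finset.mem_filter, Finset.mem_product] at hp hq
    have h1 : C q.1 p.2 := by
      have := hq.2
      have hpq' : p.2 = q.2 := hpq
      rw [← hpq'] at this
      exact this
    exact Prod.ext (hu p.1 hp.1.1 q.1 hq.1.1 p.2 hp.1.2 hp.2 h1) hpq
  · intro q hq
    rw [Finset.mem_filter] at hq
    obtain ⟨hq1, p, hp, hpq⟩ := hq
    refine ⟨(p, q), ?_, rfl⟩
    rw [Finset.mem_filter, Finset.mem_product]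
    exact ⟨⟨hp, hq1⟩, hpq⟩

theorem finQr_conn_mono {P : Type} [PartialOrder P] {T Q : Finset P} (h : T ⊆ Q) {a c : P}
    (hc : Conn T a c) : Conn Q a c := by
  induction hc with
  | refl => exact Relation.ReflTransGen.refl
  | tail _ h' ih => exact Relation.ReflTransGen.tail ih ⟨h h'.1, h h'.2.1, h'.2.2⟩

theorem finQr_mem_serim {P : Type} [PartialOrder P] (ω : P → ℕ) (T : Finset P) (x : P) :
    x ∈ serim ω T ↔ x ∈ T ∧ ∀ e, ¬ NW ω T x e := by
  unfold serim
  rw [Finset.mem_filter]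

/-- Q. -/
theorem finQr (hN : FinNet) (hT : FinTr) (hL : FinLink) (hG : FinReg) (h51 : Fin51) (hRR : FinRR)
    (hTr : FinTree) (hF : FinFor) : FinQr := by
  intro P _ _ ω hM hxw r hr x hx b y hm
  have hMt : Mini (tr ω) := k5c P ω hM
  -- the facts for `ω`
  obtain ⟨n1, -, -, n4, n5, n6, -, n8, -⟩ := hN P ω hM
  obtain ⟨-, -, -, m4, m5, m6, -, -, -⟩ := hN P (tr ω) hMt
  obtain ⟨t1, -, t3, -, t5, t6, t7, -, t9, -⟩ := hT P ω
  -- weak covers
  have wcov : ∀ a c, WCov ω a c → RW ω a c ∨ XW ω a c := fun a c h => by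
    have := m6 a c ((sCov_tr ω a c).2 h)
    rwa [t1, t3] at this
  have wlow : ∀ a a' c, RW ω a c → RW ω a' c → a = a' := fun a a' c h h' =>
    m4 a a' c ((t1 a c).2 h) ((t1 a' c).2 h')
  have wup : ∀ a c c', RW ω a c → RW ω a c' → c = c' := fun a c c' h h' =>
    m5 a c c' ((t1 a c).2 h) ((t1 a c').2 h')
  -- the region
  obtain ⟨-, g⟩ := hG P ω hM
  obtain ⟨g1, g2, g3, -, g5, -, g7, g8⟩ := g r hr
  have mprop : ∀ x b y, Merger ω x b y → IsMin x ∧ IsMax y ∧ ¬ IsMin b ∧ ¬ IsMax b :=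
    fun x b y h => ⟨(hL P ω hM x b y h).1.1, (hL P ω hM x b y h).1.2.1,
      (hL P ω hM x b y h).1.2.2.1, (hL P ω hM x b y h).1.2.2.2.1⟩
  have sprop : ∀ x b y, Splitter ω x b y → IsMin x ∧ IsMax y ∧ ¬ IsMin b ∧ ¬ IsMax b := by
    intro x b y h
    have h' := hL P (tr ω) hMt x b y ((t5 x b y).2 h)
    exact ⟨h'.1.1, h'.1.2.1, h'.1.2.2.1, h'.1.2.2.2.1⟩
  have ends := (hG P ω hM).1
  -- ends of regions
  have hxend : ∀ f, ¬ NEs ω x f := (ends x).2 (Or.inr (Or.inl ⟨b, y, hm⟩))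
  have hxmin : IsMin x := (mprop x b y hm).1
  have hxnmax : ¬ IsMax x := fun h => h.not_lt hm.1.1.lt
  have g2' : ∀ x b y, Merger ω x b y → b ∉ Rg ω r ∧ y ∉ Rg ω r := by
    intro x2 b2 y2 h2
    refine ⟨g2 x2 b2 y2 h2, fun hy => ?_⟩
    have h3 := g5 y2 hy x hx ((ends y2).2 (Or.inr (Or.inr (Or.inl ⟨x2, b2, h2⟩)))) hxend
    exact hxnmax (h3 ▸ (mprop x2 b2 y2 h2).2.1)
  have g3' : ∀ x b y, Splitter ω x b y → b ∉ Rg ω r := by
    intro x2 b2 y2 h2 hb
    have h3 := g5 b2 hb x hx ((ends b2).2 (Or.inr (Or.inr (Or.inr ⟨x2, y2, h2⟩)))) hxend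
    exact (sprop x2 b2 y2 h2).2.2.1 (h3 ▸ hxmin)
  -- no extras
  have e1 : ∀ i M, XS ω i M → M ∉ Rg ω r := fun i M h =>
    (h51 P ω hM (Rg ω r) g1 g2' (fun x2 b2 y2 h2 => ⟨g3' x2 b2 y2 h2, (g3 x2 b2 y2 h2).2⟩)
      i M h).1
  have e2 : ∀ i M, XW ω i M → M ∉ Rg ω r := by
    intro i M h
    refine (h51 P (tr ω) hMt (Rg ω r) ?_ ?_ ?_ i M ((t3 i M).2 h)).1
    · intro a c hac
      exact (g1 c a ((t7 a c).1 hac)).symm
    · intro x2 b2 y2 h2
      have h2' := (t5 x2 b2 y2).1 h2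
      exact ⟨g3' x2 b2 y2 h2', (g3 x2 b2 y2 h2').2⟩
    · intro x2 b2 y2 h2
      exact g2' x2 b2 y2 ((t6 x2 b2 y2).1 h2)
  -- the tree
  obtain ⟨hTeq, hxR⟩ := (hTr P ω hM r hr).1 x hx b y hm
  obtain ⟨hcompl, hdisj, -, -, -, -⟩ := hRR P ω hM
  have hTsub : Tr ω r ⊆ Rg ω r := by
    rw [hTeq]
    exact (Finset.erase_subset _ _).trans Finset.sdiff_subset
  have hTR : Tr ω r ⊆ factR ω := Finset.filter_subset _ _
  have hnR : ∀ e, e ∉ factR ω ↔ e ∈ Intr ω ∨ e ∈ Xm ω := by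
    intro e
    rw [← Finset.mem_union, ← hcompl, Finset.mem_sdiff]
    simp
  have hxXm : x ∈ Xm ω := by
    unfold Xm
    rw [Finset.mem_filter]
    exact ⟨Finset.mem_univ _, b, y, hm⟩
  have hXmmin : ∀ e ∈ Xm ω, IsMin e ∧ ¬ IsMax e := by
    intro e he
    unfold Xm at he
    rw [Finset.mem_filter] at he
    obtain ⟨-, b2, y2, h2⟩ := he
    exact ⟨(mprop e b2 y2 h2).1, fun h => h.not_lt h2.1.1.lt⟩
  have hIntrmax : ∀ e ∈ Intr ω, ¬ IsMax e := by
    intro e he h
    unfold Intr at he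
    rw [Finset.mem_filter] at he
    obtain ⟨-, e', -, -, ⟨g, -, hg, -⟩, -⟩ := he
    exact h.not_lt hg.1.lt
  have hQ : Finset.univ \ (factR ω \ Tr ω r) = Qr ω r := by
    unfold Qr
    rw [← hcompl]
    ext e
    simp only [Finset.mem_sdiff, Finset.mem_union, Finset.mem_univ, true_and]
    tauto
  have hQmem : ∀ e, e ∈ Qr ω r ↔ e ∈ Intr ω ∨ e ∈ Xm ω ∨ e ∈ Tr ω r := by
    intro e
    unfold Qr
    simp only [Finset.mem_union]
    tauto
  have hQidl : Qr ω r ∈ idl (Finset.univ : Finset P) := by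
    rw [← hQ]
    exact ((hF P ω hM hxw).2.2.2.2.2 r hr (fun i M h hM' => e1 i M h (hTsub hM'))).1
  have hQcvx : Cvx (Qr ω r) := by
    intro a _ c hc d _ hdc
    exact (mem_idl.1 hQidl).2 d (Finset.mem_univ _) c hc hdc
  -- `b` and `b'` are not in `Q_r`
  have hbQ : ∀ x b y, Merger ω x b y → b ∉ Qr ω r := by
    intro x2 b2 y2 h2 hb
    rcases (hQmem b2).1 hb with h | h | h
    · exact (hL P ω hM x2 b2 y2 h2).2.2.2.2.2.2.1 h
    · exact (mprop x2 b2 y2 h2).2.2.1 (hXmmin b2 h).1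
    · exact g2 x2 b2 y2 h2 (hTsub h)
  have hbQ' : ∀ x b y, Splitter ω x b y → b ∉ Qr ω r := by
    intro x2 b2 y2 h2 hb
    rcases (hQmem b2).1 hb with h | h | h
    · have h3 := (hL P (tr ω) hMt x2 b2 y2 ((t5 x2 b2 y2).2 h2)).2.2.2.2.2.2.1
      rw [t9] at h3
      exact h3 h
    · exact (sprop x2 b2 y2 h2).2.2.1 (hXmmin b2 h).1
    · exact g3' x2 b2 y2 h2 (hTsub h)
  -- tops of extras are not in `Q_r`
  have hmaxQ : ∀ M ∈ Qr ω r, IsMax M → M ∈ Rg ω r := by
    intro M hMQ hMm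
    rcases (hQmem M).1 hMQ with h | h | h
    · exact absurd hMm (hIntrmax M h)
    · exact absurd hMm (hXmmin M h).2
    · exact hTsub h
  have xsmax : ∀ i M, XS ω i M → IsMax M := fun i M h => (n8 i M h).2.1
  have xwmax : ∀ i M, XW ω i M → IsMax M := by
    intro i M h
    exact ((hN P (tr ω) hMt).2.2.2.2.2.2.2.1 i M ((t3 i M).2 h)).2.1
  have sreg : ∀ a, ∀ c ∈ Qr ω r, SCov ω a c → RS ω a c := by
    intro a c hc h
    rcases n6 a c h with h' | h'
    · exact h'
    · exact absurd (hmaxQ c hc (xsmax a c h')) (e1 a c h')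
  have wreg : ∀ a, ∀ c ∈ Qr ω r, WCov ω a c → RW ω a c := by
    intro a c hc h
    rcases wcov a c h with h' | h'
    · exact h'
    · exact absurd (hmaxQ c hc (xwmax a c h')) (e2 a c h')
  have hskw : Skw ω (Qr ω r) := by
    refine ⟨hQcvx, ?_, ?_, ?_, ?_, ?_, ?_⟩
    · intro a _ a' _ c hc h h'
      exact wlow a a' c (wreg a c hc h) (wreg a' c hc h')
    · intro a _ c hc c' hc' h h'
      exact wup a c c' (wreg a c hc h) (wreg a c' hc' h')
    · intro a _ a' _ c hc h h'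
      exact n4 a a' c (sreg a c hc h) (sreg a' c hc h')
    · intro a _ c hc c' hc' h h'
      exact n5 a c c' (sreg a c hc h) (sreg a c' hc' h')
    · intro a _ c hc d _ h h'
      by_contra hno
      exact hbQ a c d ⟨h, h', hno⟩ hc
    · intro a _ c hc d _ h h'
      by_contra hno
      exact hbQ' a c d ⟨h, h', hno⟩ hc
  -- the region is a component
  have hRsub : Rg ω r ⊆ Qr ω r := by
    intro e he
    rw [hQmem]
    by_cases h1 : e ∈ Intr ω
    · exact Or.inl h1
    · by_cases h2 : e = x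
      · rw [h2]
        exact Or.inr (Or.inl hxXm)
      · refine Or.inr (Or.inr ?_)
        rw [hTeq, Finset.mem_erase, Finset.mem_sdiff]
        exact ⟨h2, he, h1⟩
  have hrr : r ∈ Rg ω r := by
    unfold Rg
    rw [Finset.mem_filter]
    exact ⟨Finset.mem_univ _, Relation.ReflTransGen.refl⟩
  -- regular covers with both ends in `Q_r` are steps
  have stepS : ∀ a c, a ∈ Qr ω r → c ∈ Qr ω r → SCov ω a c → NEs ω c a := by
    intro a c ha hc h
    refine Or.inl ⟨sreg a c hc h, fun y2 h2 => hbQ' a c y2 h2 hc, fun x2 h2 => hbQ x2 a c h2 ha⟩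
  have stepW : ∀ a c, a ∈ Qr ω r → c ∈ Qr ω r → WCov ω a c → NEs ω a c := by
    intro a c ha hc h
    refine Or.inr ⟨wreg a c hc h, fun y2 h2 => hbQ a c y2 h2 hc, fun x2 h2 => hbQ' x2 a c h2 ha⟩
  have stepAdj : ∀ a c, Adj (Qr ω r) a c → (a ∈ Rg ω r → c ∈ Rg ω r) := by
    rintro a c ⟨ha, hc, h | h⟩ haR
    · rcases cov_cases hM.inj h with h' | h'
      · exact (g1 a c (stepW a c ha hc h')).1 haR
      · exact (g1 c a (stepS a c ha hc h')).2 haR
    · rcases cov_cases hM.inj h with h' | h'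
      · exact (g1 c a (stepW c a hc ha h')).2 haR
      · exact (g1 a c (stepS c a hc ha h')).1 haR
  have hcomp : Rg ω r ∈ comps (Qr ω r) := by
    unfold comps
    rw [Finset.mem_image]
    refine ⟨r, hRsub hrr, ?_⟩
    unfold comp
    ext e
    rw [Finset.mem_filter]
    constructor
    · rintro ⟨-, h⟩
      induction h with
      | refl => exact hrr
      | tail _ hac ih => exact stepAdj _ _ hac ih
    · intro he
      refine ⟨hRsub he, ?_⟩
      exact finQr_conn_mono hRsub (g8 r hrr e he)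
  -- the rim
  have hrim : serim ω (Rg ω r) = Rg ω r \ Intr ω := by
    ext e
    rw [finQr_mem_serim, Finset.mem_sdiff]
    unfold Intr
    rw [Finset.mem_filter]
    constructor
    · rintro ⟨he, h⟩
      refine ⟨he, ?_⟩
      rintro ⟨-, e', h'⟩
      exact h e' (g7 e e' h' (Or.inl he))
    · rintro ⟨he, h⟩
      refine ⟨he, fun e' h' => h ⟨Finset.mem_univ _, e', ?_⟩⟩
      obtain ⟨-, -, ⟨g, -, hg⟩, f, -, hf⟩ := h'
      exact ⟨Finset.mem_univ _, Finset.mem_univ _, ⟨g, Finset.mem_univ _, hg⟩, f,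
        Finset.mem_univ _, hf⟩
  have hJ : Rg ω r \ Intr ω = insert x (Tr ω r) := by
    rw [hTeq, Finset.insert_erase hxR]
  have hxT : x ∉ Tr ω r := by
    rw [hTeq]
    exact Finset.notMem_erase _ _
  have hxnR : x ∉ factR ω := (hnR x).2 (Or.inr hxXm)
  have hJR : insert x (Tr ω r) ⊆ Rg ω r := by
    rw [← hJ]
    exact Finset.sdiff_subset
  have hJQ : insert x (Tr ω r) ⊆ Qr ω r := hJR.trans hRsub
  have hcomplJ : Qr ω r \ (Rg ω r \ Intr ω) = Intr ω ∪ (Xm ω).erase x := by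
    ext e
    rw [Finset.mem_sdiff, hQmem, Finset.mem_union, Finset.mem_erase, hJ, Finset.mem_insert]
    have k1 : e ∈ Tr ω r → e ∉ Intr ω ∧ e ∉ Xm ω := by
      intro he
      have := mt (hnR e).2 (not_not_intro (hTR he))
      tauto
    have k2 : e ∈ Intr ω → e ≠ x := by
      rintro he rfl
      exact (Finset.mem_sdiff.1 hxR).2 he
    tauto
  -- the strict cover of `x`
  obtain ⟨c, hc, hcI, hc'⟩ := (hL P ω hM x b y hm).2.2.2.1
  have hcmax : IsMax c := by
    rcases hc' with ⟨y', h'⟩ | h'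
    · exact absurd hx (g3 x c y' h').1
    · exact h'
  have hcR : c ∈ Rg ω r := by
    refine (g1 c x (Or.inl ⟨hc, ?_, ?_⟩)).2 hx
    · intro y' h'
      exact (g3 x c y' h').1 hx
    · intro x2 h2
      exact (mprop x2 x c h2).2.2.1 hxmin
  have hcx : c ≠ x := (n1 x c hc).1.1.lt.ne'
  have hcT : c ∈ Tr ω r := by
    rw [hTeq, Finset.mem_erase, Finset.mem_sdiff]
    exact ⟨hcx, hcR, hcI⟩
  -- strict covers
  have hs : strc ω (insert x (Tr ω r)) = (BS ω (factR ω) ∩ Tr ω r).card + 1 := by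
    unfold strc
    rw [finQr_card_fst (insert x (Tr ω r)) (SCov ω)
      (fun p _ q hq q' hq' h h' => n5 p q q' (sreg p q (hJQ hq) h) (sreg p q' (hJQ hq') h'))]
    have : (insert x (Tr ω r)).filter (fun p => ∃ q ∈ insert x (Tr ω r), SCov ω p q) =
        insert x (BS ω (factR ω) ∩ Tr ω r) := by
      ext e
      rw [Finset.mem_filter, Finset.mem_insert, Finset.mem_insert, Finset.mem_inter]
      unfold BS
      rw [Finset.mem_filter]
      constructor
      · rintro ⟨rfl | he, q, hq, hq'⟩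
        · exact Or.inl rfl
        · refine Or.inr ⟨⟨hTR he, q, ?_, hq'⟩, he⟩
          exact fact_R_up (hTR he) hq'.1.lt.le
      · rintro (rfl | ⟨⟨heR, q, hq, hq'⟩, he⟩)
        · exact ⟨Or.inl rfl, c, Finset.mem_insert_of_mem hcT, (n1 e c hc).1⟩
        · refine ⟨Or.inr he, ?_⟩
          have h3 : ∃ q', RS ω e q' := by
            rcases n6 e q hq' with h' | h'
            · exact ⟨q, h'⟩
            · obtain ⟨v, -, hv⟩ := (n8 e q h').2.2.2
              exact ⟨v, hv⟩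
          obtain ⟨q', hq''⟩ := h3
          have h4 : q' ∈ Rg ω r := by
            refine (g1 q' e (Or.inl ⟨hq'', ?_, ?_⟩)).2 (hTsub he)
            · intro y' h'
              exact (g3 e q' y' h').1 (hTsub he)
            · intro x2 h2
              exact g2 x2 e q' h2 (hTsub he)
          have h5 : q' ∈ factR ω := fact_R_up heR (n1 e q' hq'').1.1.lt.le
          have h6 : q' ∉ Intr ω := fun h => (hnR q').2 (Or.inl h) h5
          refine ⟨q', ?_, (n1 e q' hq'').1⟩
          rw [← hJ, Finset.mem_sdiff]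
          exact ⟨h4, h6⟩
    rw [this, Finset.card_insert_of_notMem]
    intro h
    exact hxT (Finset.mem_inter.1 h).2
  -- weak covers
  have hw : strc (tr ω) (insert x (Tr ω r)) = (TpW ω (factR ω) ∩ Tr ω r).card := by
    unfold strc
    rw [finQr_card_snd (insert x (Tr ω r)) (SCov (tr ω))
      (fun p _ p' _ q hq h h' => wlow p p' q (wreg p q (hJQ hq) ((sCov_tr ω p q).1 h))
        (wreg p' q (hJQ hq) ((sCov_tr ω p' q).1 h')))]
    congr 1
    ext f
    rw [Finset.mem_filter, Finset.mem_inter]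
    unfold TpW
    rw [Finset.mem_filter]
    constructor
    · rintro ⟨hf, e, he, hef⟩
      rw [sCov_tr] at hef
      have hfx : f ≠ x := by
        rintro rfl
        exact hxmin.not_lt hef.1.lt
      have hfT : f ∈ Tr ω r := Finset.mem_of_mem_insert_of_ne hf hfx
      have hex : e ≠ x := by
        rintro rfl
        have h1 : RW ω e f := wreg e f (hJQ hf) hef
        have h2 : RW ω e b := (hL P ω hM e b y hm).1.2.2.2.2.1
        have h3 := wup e f b h1 h2
        rw [h3] at hfT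
        exact g2 e b y hm (hTsub hfT)
      have heT : e ∈ Tr ω r := Finset.mem_of_mem_insert_of_ne he hex
      exact ⟨⟨hTR hfT, e, hTR heT, hef⟩, hfT⟩
    · rintro ⟨⟨hfR, e, heR, hef⟩, hfT⟩
      refine ⟨Finset.mem_insert_of_mem hfT, e, ?_, (sCov_tr ω e f).2 hef⟩
      have h1 : RW ω e f := wreg e f (hJQ (Finset.mem_insert_of_mem hfT)) hef
      have h2 : e ∈ Rg ω r := by
        refine (g1 e f (Or.inr ⟨h1, ?_, ?_⟩)).2 (hTsub hfT)
        · intro y2 h2
          exact g2 e f y2 h2 (hTsub hfT)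
        · intro x2 h2
          exact (g3 x2 e f h2).2 (hTsub hfT)
      have h3 : e ∉ Intr ω := fun h => (hnR e).2 (Or.inl h) heR
      rw [← hJ, Finset.mem_sdiff]
      exact ⟨h2, h3⟩
  refine ⟨e1, e2, hskw, hcomp, hrim, ?_, ?_, ?_⟩
  · rw [hrim, hcomplJ]
  · rw [hrim, hJ, hs]
  · rw [hrim, hJ, hw]

end Pool.Agent.ST14
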