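import Pool.Agent.ST14.FinStmts

/-!
Module R of sections 5 and 6: the complement of `R`.
-/

set_option autoImplicit false

namespace Pool.Agent.ST14

open scoped Classical

section frr

variable {P : Type} [Fintype P] [PartialOrder P]

theorem frr_mem_Intr {ω : P → ℕ} {x : P} : x ∈ Intr ω ↔
    ∃ e, (∃ g, WCov ω x g ∧ SCov ω g e) ∧ ∃ f, SCov ω x f ∧ WCov ω f e := by
  unfold Intr NW
  simp only [Finset.mem_filter, Finset.mem_univ, true_and]

theorem frr_mem_Xm {ω : P → ℕ} {x : P} : x ∈ Xm ω ↔ ∃ b y, Merger ω x b y := by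
  unfold Xm
  simp only [Finset.mem_filter, Finset.mem_univ, true_and]

omit [Fintype P] in
theorem frr_not_max {x y : P} (h : x ⋖ y) : ¬ IsMax x := fun hm => absurd (hm h.le) h.lt.not_ge

omit [Fintype P] in
theorem frr_not_min {x y : P} (h : x ⋖ y) : ¬ IsMin y := fun hm => absurd (hm h.le) h.lt.not_ge

/-- A ws chain whose top is not maximal gives a south-east neighbour. -/
theorem frr_intr_of_chain (h2 : St2) {ω : P → ℕ} (h : Mini ω) {x p q : P} (h1 : WCov ω x p)
    (h3 : SCov ω p q) (hq : ¬ (IsMin x ∧ IsMax q)) : x ∈ Intr ω := by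
  obtain ⟨c, hc1, hc2⟩ := (h2 P ω h x p q hq).1 h1 h3
  exact frr_mem_Intr.2 ⟨q, ⟨p, h1, h3⟩, c, hc1, hc2⟩

/-- `Intr` is closed under lower covers. -/
theorem frr_step (h2 : St2) {ω : P → ℕ} (h : Mini ω) {x e : P} (hxe : x ⋖ e) (he : e ∈ Intr ω) :
    x ∈ Intr ω := by
  obtain ⟨q, ⟨g, hg1, hg2⟩, f, hf1, hf2⟩ := frr_mem_Intr.1 he
  rcases cov_cases h.inj hxe with h3 | h3
  · exact frr_intr_of_chain h2 h h3 hf1 (fun hh => frr_not_max hf2.1 hh.2)
  · obtain ⟨c, hc1, hc2⟩ := (h2 P ω h x e g (fun hh => frr_not_max hg2.1 hh.2)).2 h3 hg1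
    exact frr_intr_of_chain h2 h hc1 hc2 (fun hh => frr_not_max hg2.1 hh.2)

/-- `Intr` is an ideal. -/
theorem frr_down (h2 : St2) {ω : P → ℕ} (h : Mini ω) {e : P} (he : e ∈ Intr ω) :
    ∀ (n : ℕ) (x : P), (Finset.univ.filter fun z : P => x < z).card ≤ n → x ≤ e → x ∈ Intr ω := by
  intro n
  induction n with
  | zero =>
    intro x hx hxe
    rcases eq_or_lt_of_le hxe with h1 | h1
    · rw [h1]; exact he
    · exfalso
      have : e ∈ Finset.univ.filter fun z : P => x < z := by simp [h1]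
      rw [Nat.le_zero, Finset.card_eq_zero] at hx
      rw [hx] at this
      exact absurd this (Finset.notMem_empty e)
  | succ n ih =>
    intro x hx hxe
    rcases eq_or_lt_of_le hxe with h1 | h1
    · rw [h1]; exact he
    · obtain ⟨z, hxz, hze⟩ := exists_cov_between h1
      refine frr_step h2 h hxz (ih z ?_ hze)
      have hlt : (Finset.univ.filter fun w : P => z < w).card <
          (Finset.univ.filter fun w : P => x < w).card := by
        apply Finset.card_lt_card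
        refine ⟨fun w hw => ?_, fun hsub => ?_⟩
        · simp only [Finset.mem_filter, Finset.mem_univ, true_and] at hw ⊢
          exact hxz.lt.trans hw
        · have : z ∈ Finset.univ.filter fun w : P => z < w :=
            hsub (by simp only [Finset.mem_filter, Finset.mem_univ, true_and]; exact hxz.lt)
          simp only [Finset.mem_filter, Finset.mem_univ, true_and] at this
          exact absurd this (lt_irrefl z)
      omega

theorem frr_compl (hL : FinLink) (h2 : St2) {ω : P → ℕ} (h : Mini ω) :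
    Finset.univ \ factR ω = Intr ω ∪ Xm ω := by
  ext e
  simp only [Finset.mem_sdiff, Finset.mem_univ, true_and, Finset.mem_union]
  constructor
  · intro he
    rw [fact_mem_R] at he
    push Not at he
    obtain ⟨g, b, y, hg, h1, h3⟩ := he
    by_cases hc : ∃ c, SCov ω g c ∧ WCov ω c y
    · left
      obtain ⟨c, hc1, hc2⟩ := hc
      exact frr_down h2 h (frr_mem_Intr.2 ⟨y, ⟨b, h1, h3⟩, c, hc1, hc2⟩) _ e le_rfl hg
    · right
      have hm : Merger ω g b y := ⟨h1, h3, hc⟩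
      have hmin := (hL P ω h g b y hm).1.1
      have : e = g := le_antisymm hg (hmin hg)
      rw [this]
      exact frr_mem_Xm.2 ⟨b, y, hm⟩
  · rintro (he | he) hR
    · obtain ⟨q, ⟨g, hg1, hg2⟩, _⟩ := frr_mem_Intr.1 he
      exact fact_mem_R.1 hR e g q le_rfl hg1 hg2
    · obtain ⟨b, y, hm⟩ := frr_mem_Xm.1 he
      exact fact_mem_R.1 hR e b y le_rfl hm.1 hm.2.1

theorem frr_disj (hL : FinLink) {ω : P → ℕ} (h : Mini ω) : Disjoint (Intr ω) (Xm ω) := by
  rw [Finset.disjoint_left]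
  intro x hx hx'
  obtain ⟨b, y, hm⟩ := frr_mem_Xm.1 hx'
  exact (hL P ω h x b y hm).2.2.2.2.2.1 hx

theorem frr_isol (hL : FinLink) (h2 : St2) {ω : P → ℕ} (h : Mini ω) {x z : P} (hx : x ∈ Xm ω)
    (hz : z ∈ Intr ω ∪ Xm ω) : ¬ x < z ∧ ¬ z < x := by
  obtain ⟨b, y, hm⟩ := frr_mem_Xm.1 hx
  have hmin := (hL P ω h x b y hm).1.1
  refine ⟨fun hxz => ?_, fun hzx => absurd (hmin hzx.le) hzx.not_ge⟩
  rcases Finset.mem_union.1 hz with hz | hz
  · exact (hL P ω h x b y hm).2.2.2.2.2.1 (frr_down h2 h hz _ x le_rfl hxz.le)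
  · obtain ⟨b', y', hm'⟩ := frr_mem_Xm.1 hz
    exact absurd ((hL P ω h z b' y' hm').1.1 hxz.le) hxz.not_ge

/-- Elements of `Intr ∪ Xm` above another element are not maximal. -/
theorem frr_top (hL : FinLink) {ω : P → ℕ} (h : Mini ω) {x y : P} (hxy : x ⋖ y)
    (hy : y ∈ Intr ω ∪ Xm ω) : ¬ IsMax y := by
  rcases Finset.mem_union.1 hy with hy | hy
  · obtain ⟨q, ⟨g, hg1, hg2⟩, _⟩ := frr_mem_Intr.1 hy
    exact frr_not_max hg1.1
  · obtain ⟨b', y', hm'⟩ := frr_mem_Xm.1 hy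
    exact fun _ => absurd (hL P ω h y b' y' hm').1.1 (frr_not_min hxy)

theorem frr_skw (hN : FinNet) (hL : FinLink) (h2 : St2) {ω : P → ℕ} (h : Mini ω) :
    Skw ω (Intr ω ∪ Xm ω) := by
  have htr := k5c P ω h
  obtain ⟨-, -, -, hsl, hsu, -, hreg, -⟩ := hN P ω h
  obtain ⟨-, -, -, hwl, hwu, -, hregw, -⟩ := hN P (tr ω) htr
  have hS : ∀ x y, y ∈ Intr ω ∪ Xm ω → SCov ω x y → RS ω x y := fun x y hy hxy =>
    hreg x y hxy (fun hh => frr_top hL h hxy.1 hy hh.2)
  have hW : ∀ x y, y ∈ Intr ω ∪ Xm ω → WCov ω x y → RS (tr ω) x y := fun x y hy hxy =>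
    hregw x y ((sCov_tr ω x y).2 hxy) (fun hh => frr_top hL h hxy.1 hy hh.2)
  refine ⟨?_, ⟨?_, ?_, ?_, ?_, ?_, ?_⟩⟩
  · intro x _ z hz y _ hyz
    rw [← frr_compl hL h2 h] at hz ⊢
    exact (mem_idl.1 (fact_sdiff_R_idl ω)).2 y (Finset.mem_univ y) z hz hyz
  · intro x _ x' _ y hy h1 h3
    exact hwl x x' y (hW x y hy h1) (hW x' y hy h3)
  · intro x _ y hy y' hy' h1 h3
    exact hwu x y y' (hW x y hy h1) (hW x y' hy' h3)
  · intro x _ x' _ y hy h1 h3
    exact hsl x x' y (hS x y hy h1) (hS x' y hy h3)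
  · intro x _ y hy y' hy' h1 h3
    exact hsu x y y' (hS x y hy h1) (hS x y' hy' h3)
  · intro x _ b _ y hy h1 h3
    exact (h2 P ω h x b y (fun hh => frr_top hL h h3.1 hy hh.2)).1 h1 h3
  · intro x _ b _ y hy h1 h3
    exact (h2 P ω h x b y (fun hh => frr_top hL h h3.1 hy hh.2)).2 h1 h3

theorem frr_src (hL : FinLink) (h2 : St2) {ω : P → ℕ} (h : Mini ω) {r : P} (hr : Src ω r) :
    r ∈ factR ω := by
  by_contra hn
  have h1 : r ∈ Intr ω ∪ Xm ω := by
    rw [← frr_compl hL h2 h]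
    exact Finset.mem_sdiff.2 ⟨Finset.mem_univ r, hn⟩
  rcases Finset.mem_union.1 h1 with h3 | h3
  · obtain ⟨q, _, f, hf1, _⟩ := frr_mem_Intr.1 h3
    exact hr.1 f hf1
  · obtain ⟨b, y, hm⟩ := frr_mem_Xm.1 h3
    obtain ⟨c, hc, _⟩ := (hL P ω h r b y hm).2.2.2.1
    exact hr.1 c hc.1

end frr

/-- **R**: the complement of `R`. -/
theorem finRR (hN : FinNet) (hT : FinTr) (hL : FinLink) (h2 : St2) : FinRR := by
  intro P _ _ ω h
  refine ⟨frr_compl hL h2 h, frr_disj hL h, frr_skw hN hL h2 h,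
    fun x hx z hz => frr_isol hL h2 h hx hz, fun r hr => frr_src hL h2 h hr, ?_⟩
  have htr := k5c P ω h
  have hI : Intr (tr ω) = Intr ω := (hT P ω).2.2.2.2.2.2.2.2.1
  have e1 := congrArg Finset.card (frr_compl hL h2 h)
  have e2 := congrArg Finset.card (frr_compl hL h2 htr)
  rw [Finset.card_union_of_disjoint (frr_disj hL h), Finset.card_univ_sdiff] at e1
  rw [Finset.card_union_of_disjoint (frr_disj hL htr), Finset.card_univ_sdiff, hI,
    ← fact_card h] at e2
  omega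

end Pool.Agent.ST14
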