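import Pool.Agent.ST14.FinStmts

/-!
Regions of sources: local confluence of the steps to the north-east.
-/

set_option autoImplicit false

namespace Pool.Agent.ST14

open scoped Classical

section finreg

variable {P : Type} [Fintype P] [PartialOrder P]

/-- The facts on regular covers that are used. -/
structure RegD (ω : P → ℕ) : Prop where
  s_cov : ∀ x u, RS ω x u → SCov ω x u
  w_cov : ∀ x u, RW ω x u → WCov ω x u
  s_low : ∀ x x' u, RS ω x u → RS ω x' u → x = x'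
  s_upp : ∀ x u u', RS ω x u → RS ω x u' → u = u'
  w_low : ∀ x x' u, RW ω x u → RW ω x' u → x = x'
  w_upp : ∀ x u u', RW ω x u → RW ω x u' → u = u'
  s_ex : ∀ z e, SCov ω z e → ∃ x, RS ω x e
  w_ex : ∀ e u, WCov ω e u → ∃ v, RW ω e v
  s_reg : ∀ x u, SCov ω x u → ¬ (IsMin x ∧ IsMax u) → RS ω x u
  w_reg : ∀ x u, WCov ω x u → ¬ (IsMin x ∧ IsMax u) → RW ω x u
  mer : ∀ x b y, Merger ω x b y → IsMin x ∧ IsMax y ∧ RW ω x b ∧ RS ω b y
  spl : ∀ x b y, Splitter ω x b y → IsMin x ∧ IsMax y ∧ RS ω x b ∧ RW ω b y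

theorem regD (hN : FinNet) (hT : FinTr) (hL : FinLink) {ω : P → ℕ} (h : Mini ω) : RegD ω := by
  obtain ⟨n1, n2, n3, n4, n5, n6, n7, n8, n9⟩ := hN P ω h
  have htr := k5c P ω h
  obtain ⟨m1, m2, m3, m4, m5, m6, m7, m8, m9⟩ := hN P (tr ω) htr
  obtain ⟨t1, t2, t3, t4, t5, t6, t7, -⟩ := hT P ω
  constructor
  · exact fun x u hh => (n1 x u hh).1
  · intro x u hh
    have := (m1 x u ((t1 x u).2 hh)).1
    rwa [sCov_tr] at this
  · exact n4
  · exact n5
  · exact fun x x' u h1 h2 => m4 x x' u ((t1 x u).2 h1) ((t1 x' u).2 h2)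
  · exact fun x u u' h1 h2 => m5 x u u' ((t1 x u).2 h1) ((t1 x u').2 h2)
  · intro z e hh
    apply n2
    unfold AA
    rw [Finset.mem_filter]
    exact ⟨Finset.mem_univ _, z, z, e, le_rfl, hh.1.lt, le_rfl, hh.2⟩
  · intro e u hh
    have h1 : e ∈ CC (tr ω) := by
      rw [← sCov_tr] at hh
      unfold CC
      rw [Finset.mem_filter]
      exact ⟨Finset.mem_univ _, u, e, u, le_rfl, hh.1.lt, le_rfl, hh.2⟩
    obtain ⟨v, hv⟩ := m3 e h1
    exact ⟨v, (t1 e v).1 hv⟩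
  · exact n7
  · intro x u h1 h2
    rw [← sCov_tr] at h1
    exact (t1 x u).1 (m7 x u h1 h2)
  · intro x b y hh
    obtain ⟨⟨l1, l2, l3, l4, l5, l6⟩, -⟩ := hL P ω h x b y hh
    exact ⟨l1, l2, l5, l6⟩
  · intro x b y hh
    obtain ⟨⟨l1, l2, l3, l4, l5, l6⟩, -⟩ := hL P (tr ω) htr x b y ((t5 x b y).2 hh)
    exact ⟨l1, l2, (t2 x b).1 l5, (t1 b y).1 l6⟩

/-- All covers of a square are uncut. -/
theorem reg_sq {ω : P → ℕ} (d : RegD ω) {x g f e : P} (h1 : WCov ω x g) (h2 : SCov ω g e)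
    (h3 : SCov ω x f) (h4 : WCov ω f e) :
    NEs ω x g ∧ NEs ω e g ∧ NEs ω f x ∧ NEs ω f e := by
  have gmax : ¬ IsMax g := fun hh => absurd (hh h2.1.le) (not_le_of_gt h2.1.lt)
  have gmin : ¬ IsMin g := fun hh => absurd (hh h1.1.le) (not_le_of_gt h1.1.lt)
  have fmax : ¬ IsMax f := fun hh => absurd (hh h4.1.le) (not_le_of_gt h4.1.lt)
  have fmin : ¬ IsMin f := fun hh => absurd (hh h3.1.le) (not_le_of_gt h3.1.lt)
  have r1 : RW ω x g := d.w_reg x g h1 fun hh => gmax hh.2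
  have r2 : RS ω g e := d.s_reg g e h2 fun hh => gmin hh.1
  have r3 : RS ω x f := d.s_reg x f h3 fun hh => fmax hh.2
  have r4 : RW ω f e := d.w_reg f e h4 fun hh => fmin hh.1
  have nm : ¬ Merger ω x g e := fun hh => hh.2.2 ⟨f, h3, h4⟩
  have ns : ¬ Splitter ω x f e := fun hh => hh.2.2 ⟨g, h1, h2⟩
  refine ⟨Or.inr ⟨r1, ?_, ?_⟩, Or.inl ⟨r2, ?_, ?_⟩, Or.inl ⟨r3, ?_, ?_⟩, Or.inr ⟨r4, ?_, ?_⟩⟩
  · intro y hy
    have := d.s_upp g y e (d.mer _ _ _ hy).2.2.2 r2
    rw [this] at hy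
    exact nm hy
  · intro z hz
    exact gmax (d.spl _ _ _ hz).2.1
  · intro y hy
    exact gmin (d.spl _ _ _ hy).1
  · intro z hz
    have := d.w_low z x g (d.mer _ _ _ hz).2.2.1 r1
    rw [this] at hz
    exact nm hz
  · intro y hy
    have := d.w_upp f y e (d.spl _ _ _ hy).2.2.2 r4
    rw [this] at hy
    exact ns hy
  · intro z hz
    exact fmax (d.mer _ _ _ hz).2.1
  · intro y hy
    exact fmin (d.mer _ _ _ hy).1
  · intro z hz
    have := d.s_low z x f (d.spl _ _ _ hz).2.2.1 r3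
    rw [this] at hz
    exact ns hz

/-- Local confluence. -/
theorem reg_conf {ω : P → ℕ} (d : RegD ω) {a b c : P} (h1 : NEs ω a b) (h2 : NEs ω a c) :
    ∃ g, Relation.ReflGen (NEs ω) b g ∧ Relation.ReflTransGen (NEs ω) c g := by
  have key : ∀ b c, (RS ω b a ∧ (∀ y, ¬ Splitter ω b a y) ∧ ∀ x, ¬ Merger ω x b a) →
      (RW ω a c ∧ (∀ y, ¬ Merger ω a c y) ∧ ∀ x, ¬ Splitter ω x a c) →
      ∃ g, NEs ω b g ∧ NEs ω c g := by
    intro b c k1 k2
    have e1 := d.s_cov _ _ k1.1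
    have e2 := d.w_cov _ _ k2.1
    have : ∃ g, WCov ω b g ∧ SCov ω g c := by
      by_contra hh
      exact k1.2.1 c ⟨e1, e2, hh⟩
    obtain ⟨g, e3, e4⟩ := this
    have h := reg_sq d e3 e4 e1 e2
    exact ⟨g, h.1, h.2.1⟩
  rcases h1 with h1 | h1
  · rcases h2 with h2 | h2
    · have := d.s_low b c a h1.1 h2.1
      rw [this]
      exact ⟨c, Relation.ReflGen.refl, Relation.ReflTransGen.refl⟩
    · obtain ⟨g, g1, g2⟩ := key b c h1 h2
      exact ⟨g, Relation.ReflGen.single g1, Relation.ReflTransGen.single g2⟩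
  · rcases h2 with h2 | h2
    · obtain ⟨g, g1, g2⟩ := key c b h2 h1
      exact ⟨g, Relation.ReflGen.single g2, Relation.ReflTransGen.single g1⟩
    · have := d.w_upp a b c h1.1 h2.1
      rw [this]
      exact ⟨c, Relation.ReflGen.refl, Relation.ReflTransGen.refl⟩

/-- `ω` increases along a step. -/
theorem reg_lt {ω : P → ℕ} (d : RegD ω) {a b : P} (h : NEs ω a b) : ω a < ω b := by
  rcases h with h | h
  · exact (d.s_cov _ _ h.1).2
  · exact (d.w_cov _ _ h.1).2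

theorem reg_end {ω : P → ℕ} (d : RegD ω) (e : P) : (∀ f, ¬ NEs ω e f) ↔
    ((∀ u, ¬ WCov ω e u) ∧ ∀ z, ¬ SCov ω z e) ∨ (∃ b y, Merger ω e b y) ∨
      (∃ x b, Merger ω x b e) ∨ ∃ x y, Splitter ω x e y := by
  constructor
  · intro h
    by_cases h1 : ∃ x, RS ω x e
    · obtain ⟨x, hx⟩ := h1
      by_cases h2 : ∃ y, Splitter ω x e y
      · obtain ⟨y, hy⟩ := h2
        exact Or.inr (Or.inr (Or.inr ⟨x, y, hy⟩))
      · by_cases h3 : ∃ z, Merger ω z x e
        · obtain ⟨z, hz⟩ := h3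
          exact Or.inr (Or.inr (Or.inl ⟨z, x, hz⟩))
        · exact absurd (Or.inl ⟨hx, fun y hy => h2 ⟨y, hy⟩, fun z hz => h3 ⟨z, hz⟩⟩) (h x)
    · by_cases h4 : ∃ u, RW ω e u
      · obtain ⟨u, hu⟩ := h4
        by_cases h2 : ∃ y, Merger ω e u y
        · obtain ⟨y, hy⟩ := h2
          exact Or.inr (Or.inl ⟨u, y, hy⟩)
        · by_cases h3 : ∃ z, Splitter ω z e u
          · obtain ⟨z, hz⟩ := h3
            exact Or.inr (Or.inr (Or.inr ⟨z, u, hz⟩))
          · exact absurd (Or.inr ⟨hu, fun y hy => h2 ⟨y, hy⟩, fun z hz => h3 ⟨z, hz⟩⟩) (h u)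
      · left
        exact ⟨fun u hu => h4 (d.w_ex e u hu), fun z hz => h1 (d.s_ex z e hz)⟩
  · rintro (h | ⟨b, y, h⟩ | ⟨x, b, h⟩ | ⟨x, y, h⟩) f hf
    · rcases hf with hf | hf
      · exact h.2 f (d.s_cov _ _ hf.1)
      · exact h.1 f (d.w_cov _ _ hf.1)
    · obtain ⟨m1, m2, m3, m4⟩ := d.mer _ _ _ h
      rcases hf with hf | hf
      · have := d.s_cov _ _ hf.1
        exact absurd (m1 this.1.le) (not_le_of_gt this.1.lt)
      · have := d.w_upp e f b hf.1 m3
        rw [this] at hf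
        exact hf.2.1 y h
    · obtain ⟨m1, m2, m3, m4⟩ := d.mer _ _ _ h
      rcases hf with hf | hf
      · have := d.s_low f b e hf.1 m4
        rw [this] at hf
        exact hf.2.2 x h
      · have := d.w_cov _ _ hf.1
        exact absurd (m2 this.1.le) (not_le_of_gt this.1.lt)
    · obtain ⟨m1, m2, m3, m4⟩ := d.spl _ _ _ h
      rcases hf with hf | hf
      · have := d.s_low f x e hf.1 m3
        rw [this] at hf
        exact hf.2.1 y h
      · have := d.w_upp e f y hf.1 m4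
        rw [this] at hf
        exact hf.2.2 x h

theorem reg_mem {ω : P → ℕ} {r e : P} : e ∈ Rg ω r ↔ Relation.ReflTransGen (NEs ω) r e := by
  unfold Rg
  rw [Finset.mem_filter]
  exact ⟨fun h => h.2, fun h => ⟨Finset.mem_univ _, h⟩⟩

end finreg

theorem finReg (hN : FinNet) (hT : FinTr) (hL : FinLink) (_h2 : St2) : FinReg := by
  intro P _ _ ω h
  have d := regD hN hT hL h
  have htr := k5c P ω h
  have d' := regD hN hT hL htr
  obtain ⟨t1, t2, t3, t4, t5, t6, t7, -⟩ := hT P ω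
  refine ⟨?_, ?_⟩
  · intro e
    rw [reg_end d e]
    unfold Src
    simp only [sCov_tr, wCov_tr]
  intro r hr
  -- no step into `r`
  have hin : ∀ f, ¬ NEs ω f r := by
    intro f hf
    rcases hf with hf | hf
    · exact hr.1 f (d.s_cov _ _ hf.1)
    · exact hr.2 f (d.w_cov _ _ hf.1)
  have flip : ∀ a b, Relation.ReflTransGen (NEs ω) a b ↔
      Relation.ReflTransGen (NEs (tr ω)) b a := by
    intro a b
    have e : NEs (tr ω) = Function.swap (NEs ω) := by
      funext x y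
      exact propext (t7 x y)
    rw [e, Relation.reflTransGen_swap]
  have hsw : ∀ e, e ∈ Rg ω r → e ≠ r → ∃ f ∈ Rg ω r, NEs ω f e := by
    intro e he hne
    rw [reg_mem] at he
    rcases Relation.ReflTransGen.cases_tail he with h1 | ⟨f, h1, h2⟩
    · exact absurd h1 hne
    · exact ⟨f, reg_mem.2 h1, h2⟩
  have hclosed : ∀ a b, NEs ω a b → (a ∈ Rg ω r ↔ b ∈ Rg ω r) := by
    intro a b hab
    constructor
    · intro ha
      rw [reg_mem] at ha ⊢
      exact ha.tail hab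
    · intro hb
      rw [reg_mem] at hb ⊢
      have c1 : Relation.ReflTransGen (NEs (tr ω)) b r := (flip r b).1 hb
      have c2 : Relation.ReflTransGen (NEs (tr ω)) b a :=
        Relation.ReflTransGen.single ((t7 b a).2 hab)
      obtain ⟨g, g1, g2⟩ := Relation.church_rosser (fun _ _ _ x1 x2 => reg_conf d' x1 x2) c1 c2
      have g3 : g = r := by
        rcases Relation.ReflTransGen.cases_head g1 with h1 | ⟨f, h1, _⟩
        · exact h1.symm
        · exact absurd ((t7 r f).1 h1) (hin f)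
      rw [g3] at g2
      exact (flip r a).2 g2
  have hswend : ∀ e, (∀ f, ¬ NEs ω f e) → e ∈ Rg ω r → e = r := by
    intro e h1 h2
    by_contra hne
    obtain ⟨f, _, hf⟩ := hsw e h2 hne
    exact h1 f hf
  have hend' : ∀ e, ((∃ b y, Splitter ω e b y) ∨ (∃ x b, Splitter ω x b e) ∨
      ∃ x y, Merger ω x e y) → ∀ f, ¬ NEs ω f e := by
    intro e he f hf
    refine (reg_end d' e).2 (Or.inr ?_) f ((t7 e f).2 hf)
    rcases he with ⟨b, y, h1⟩ | ⟨x, b, h1⟩ | ⟨x, y, h1⟩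
    · exact Or.inl ⟨b, y, (t5 _ _ _).2 h1⟩
    · exact Or.inr (Or.inl ⟨x, b, (t5 _ _ _).2 h1⟩)
    · exact Or.inr (Or.inr ⟨x, y, (t6 _ _ _).2 h1⟩)
  refine ⟨hclosed, ?_, ?_, ?_, ?_, hsw, ?_, ?_⟩
  · intro x b y hm hb
    have := hswend b (hend' b (Or.inr (Or.inr ⟨x, y, hm⟩))) hb
    rw [this] at hm
    exact hr.2 x hm.1
  · intro x b y hm
    refine ⟨fun hx => ?_, fun hy => ?_⟩
    · have := hswend x (hend' x (Or.inl ⟨b, y, hm⟩)) hx
      rw [this] at hm
      exact hr.1 b hm.1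
    · have := hswend y (hend' y (Or.inr (Or.inl ⟨x, b, hm⟩))) hy
      rw [this] at hm
      exact hr.2 b hm.2.1
  · have hne : (Rg ω r).Nonempty := ⟨r, reg_mem.2 Relation.ReflTransGen.refl⟩
    obtain ⟨e, he, hmax⟩ := Finset.exists_max_image (Rg ω r) ω hne
    refine ⟨e, he, fun f hf => ?_⟩
    have := hmax f ((hclosed e f hf).1 he)
    exact absurd (reg_lt d hf) (not_lt.2 this)
  · intro e he e' he' h1 h2
    rw [reg_mem] at he he'
    obtain ⟨g, g1, g2⟩ := Relation.church_rosser (fun _ _ _ x1 x2 => reg_conf d x1 x2) he he'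
    have e1 : e = g := by
      rcases Relation.ReflTransGen.cases_head g1 with k | ⟨f, k, _⟩
      · exact k
      · exact absurd k (h1 f)
    have e2 : e' = g := by
      rcases Relation.ReflTransGen.cases_head g2 with k | ⟨f, k, _⟩
      · exact k
      · exact absurd k (h2 f)
    rw [e1, e2]
  · rintro x e ⟨_, _, ⟨g, _, h1, h2⟩, f, _, h3, h4⟩ hxe
    obtain ⟨s1, s2, s3, s4⟩ := reg_sq d h1 h2 h3 h4
    have a1 := hclosed _ _ s1
    have a2 := hclosed _ _ s2
    have a3 := hclosed _ _ s3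
    have a4 := hclosed _ _ s4
    have hx : x ∈ Rg ω r := by
      rcases hxe with hh | hh
      · exact hh
      · exact a1.2 (a2.1 hh)
    exact ⟨hx, a2.2 (a1.1 hx), ⟨g, a1.1 hx, h1, h2⟩, f, a3.2 hx, h3, h4⟩
  · have hr' : r ∈ Rg ω r := reg_mem.2 Relation.ReflTransGen.refl
    have hstep : ∀ a b, a ∈ Rg ω r → NEs ω a b → Adj (Rg ω r) a b ∧ Adj (Rg ω r) b a := by
      intro a b ha hab
      have hb := (hclosed a b hab).1 ha
      rcases hab with hab | hab
      · have := (d.s_cov _ _ hab.1).1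
        exact ⟨⟨ha, hb, Or.inr this⟩, ⟨hb, ha, Or.inl this⟩⟩
      · have := (d.w_cov _ _ hab.1).1
        exact ⟨⟨ha, hb, Or.inl this⟩, ⟨hb, ha, Or.inr this⟩⟩
    have hc : ∀ e, Relation.ReflTransGen (NEs ω) r e →
        Conn (Rg ω r) r e ∧ Conn (Rg ω r) e r := by
      intro e he
      induction he with
      | refl => exact ⟨Relation.ReflTransGen.refl, Relation.ReflTransGen.refl⟩
      | tail h1 h2 ih =>
        have := hstep _ _ (reg_mem.2 h1) h2
        exact ⟨ih.1.tail this.1, Relation.ReflTransGen.head this.2 ih.2⟩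
    intro x hx y hy
    exact (hc x (reg_mem.1 hx)).2.trans (hc y (reg_mem.1 hy)).1

end Pool.Agent.ST14
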