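import Pool.Agent.ST14.FinStmts
import Pool.Agent.ST14.K5rev
import Pool.Agent.ST14.Kap3

/-!
Module D2: reversal.
-/

set_option autoImplicit false

namespace Pool.Agent.ST14

open scoped Classical

section

variable {P : Type} [Fintype P] [PartialOrder P]

theorem rs_rv_aux (h : FinNet) (ω : P → ℕ) (hM : Mini ω) (x u : P) :
    RS ω x u ↔ SCov ω x u ∧ ¬ (IsMax u ∧ ∃ z, SCov ω x z ∧ ¬ IsMax z) := by
  obtain ⟨h1, -, -, -, h5, h6, h7, h8, -⟩ := h P ω hM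
  constructor
  · intro hRS
    refine ⟨(h1 x u hRS).1, ?_⟩
    rintro ⟨hu, z, hz, hzM⟩
    have hRz : RS ω x z := h7 x z hz (fun hh => hzM hh.2)
    have := h5 x u z hRS hRz
    exact hzM (this ▸ hu)
  · rintro ⟨hS, hn⟩
    rcases h6 x u hS with hRS | hXS
    · exact hRS
    · exfalso
      obtain ⟨-, hu, -, v, hv, hRv⟩ := h8 x u hXS
      refine hn ⟨hu, v, (h1 x v hRv).1, ?_⟩
      intro hvM
      rw [CC, Finset.mem_filter] at hv
      obtain ⟨-, w, y, z, hvy, hyz, hzw, -⟩ := hv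
      exact absurd (hvy.trans_lt hyz) (hvM.not_lt)

theorem rs_rv (h : FinNet) (ω : P → ℕ) (hM : Mini ω) (x u : P) :
    RS (rv ω) (OrderDual.toDual u) (OrderDual.toDual x) ↔ RS ω x u := by
  rw [rs_rv_aux h ω hM x u]
  unfold RS
  rw [sCov_rv, OrderDual.ofDual_toDual, OrderDual.ofDual_toDual, isMin_toDual_iff]
  refine and_congr_right fun _ => not_congr (and_congr_right fun _ => ?_)
  constructor
  · rintro ⟨z, hz, hz'⟩
    rw [sCov_rv] at hz
    exact ⟨OrderDual.ofDual z, hz, fun hM' => hz' (isMax_ofDual_iff.1 hM')⟩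
  · rintro ⟨z, hz, hz'⟩
    refine ⟨OrderDual.toDual z, ?_, fun hM' => hz' (isMin_toDual_iff.1 hM')⟩
    rw [sCov_rv]
    exact hz

theorem rw_tr (ω : P → ℕ) (x u : P) : RS (tr ω) x u ↔ RW ω x u := by
  unfold RS RW
  simp only [sCov_tr]

theorem rw_rv (h : FinNet) (ω : P → ℕ) (hM : Mini ω) (x u : P) :
    RW (rv ω) (OrderDual.toDual u) (OrderDual.toDual x) ↔ RW ω x u := by
  rw [← rw_tr ω x u, ← rs_rv h (tr ω) (k5c P ω hM) x u]
  have key : ∀ a b : Pᵒᵈ, SCov (rv (tr ω)) a b ↔ WCov (rv ω) a b := by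
    intro a b
    rw [sCov_rv, wCov_rv, sCov_tr]
  unfold RS RW
  simp only [key]

theorem merger_rv (ω : P → ℕ) (x b y : P) :
    Merger (rv ω) (OrderDual.toDual y) (OrderDual.toDual b) (OrderDual.toDual x) ↔
      Splitter ω x b y := by
  unfold Merger Splitter
  simp only [wCov_rv, sCov_rv, OrderDual.ofDual_toDual]
  constructor
  · rintro ⟨h1, h2, h3⟩
    exact ⟨h2, h1, fun ⟨c, hc1, hc2⟩ => h3 ⟨OrderDual.toDual c, hc2, hc1⟩⟩
  · rintro ⟨h1, h2, h3⟩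
    exact ⟨h2, h1, fun ⟨c, hc1, hc2⟩ => h3 ⟨OrderDual.ofDual c, hc2, hc1⟩⟩

theorem splitter_rv (ω : P → ℕ) (x b y : P) :
    Splitter (rv ω) (OrderDual.toDual y) (OrderDual.toDual b) (OrderDual.toDual x) ↔
      Merger ω x b y := by
  unfold Merger Splitter
  simp only [wCov_rv, sCov_rv, OrderDual.ofDual_toDual]
  constructor
  · rintro ⟨h1, h2, h3⟩
    exact ⟨h2, h1, fun ⟨c, hc1, hc2⟩ => h3 ⟨OrderDual.toDual c, hc2, hc1⟩⟩
  · rintro ⟨h1, h2, h3⟩
    exact ⟨h2, h1, fun ⟨c, hc1, hc2⟩ => h3 ⟨OrderDual.ofDual c, hc2, hc1⟩⟩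

theorem nes_rv (h : FinNet) (ω : P → ℕ) (hM : Mini ω) (a b : P) :
    NEs (rv ω) (OrderDual.toDual b) (OrderDual.toDual a) ↔ NEs ω a b := by
  unfold NEs
  rw [rs_rv h ω hM, rw_rv h ω hM]
  refine or_congr (and_congr_right fun _ => ?_) (and_congr_right fun _ => ?_)
  · constructor
    · rintro ⟨h1, h2⟩
      exact ⟨fun y hy => h2 (OrderDual.toDual y) ((merger_rv ω b a y).2 hy),
        fun x hx => h1 (OrderDual.toDual x) ((splitter_rv ω x b a).2 hx)⟩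
    · rintro ⟨h1, h2⟩
      exact ⟨fun y hy => h2 (OrderDual.ofDual y)
          ((splitter_rv ω (OrderDual.ofDual y) b a).1 hy),
        fun x hx => h1 (OrderDual.ofDual x) ((merger_rv ω b a (OrderDual.ofDual x)).1 hx)⟩
  · constructor
    · rintro ⟨h1, h2⟩
      exact ⟨fun y hy => h2 (OrderDual.toDual y) ((splitter_rv ω a b y).2 hy),
        fun x hx => h1 (OrderDual.toDual x) ((merger_rv ω x a b).2 hx)⟩
    · rintro ⟨h1, h2⟩
      exact ⟨fun y hy => h2 (OrderDual.ofDual y)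
          ((merger_rv ω (OrderDual.ofDual y) a b).1 hy),
        fun x hx => h1 (OrderDual.ofDual x) ((splitter_rv ω a b (OrderDual.ofDual x)).1 hx)⟩

theorem nw_rv (ω : P → ℕ) (x e : P) :
    NW (rv ω) Finset.univ (OrderDual.toDual e) (OrderDual.toDual x) ↔ NW ω Finset.univ x e := by
  unfold NW
  simp only [wCov_rv, sCov_rv, OrderDual.ofDual_toDual, Finset.mem_univ, true_and]
  constructor
  · rintro ⟨⟨g, h1, h2⟩, f, h3, h4⟩
    exact ⟨⟨OrderDual.ofDual f, h4, h3⟩, OrderDual.ofDual g, h2, h1⟩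
  · rintro ⟨⟨g, h1, h2⟩, f, h3, h4⟩
    exact ⟨⟨OrderDual.toDual f, h4, h3⟩, OrderDual.toDual g, h2, h1⟩

theorem src_rv (ω : P → ℕ) (r : P) : Src (rv ω) (OrderDual.toDual r) ↔ Src (tr ω) r := by
  unfold Src
  simp only [wCov_rv, sCov_rv, sCov_tr, wCov_tr, OrderDual.ofDual_toDual]
  constructor
  · rintro ⟨h1, h2⟩
    exact ⟨fun u hu => h2 (OrderDual.toDual u) hu, fun z hz => h1 (OrderDual.toDual z) hz⟩
  · rintro ⟨h1, h2⟩
    exact ⟨fun u hu => h2 (OrderDual.ofDual u) hu, fun z hz => h1 (OrderDual.ofDual z) hz⟩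

theorem src_tr_rv (ω : P → ℕ) (r : P) : Src (tr (rv ω)) (OrderDual.toDual r) ↔ Src ω r := by
  unfold Src
  simp only [sCov_tr, wCov_tr, wCov_rv, sCov_rv, OrderDual.ofDual_toDual]
  constructor
  · rintro ⟨h1, h2⟩
    exact ⟨fun u hu => h2 (OrderDual.toDual u) hu, fun z hz => h1 (OrderDual.toDual z) hz⟩
  · rintro ⟨h1, h2⟩
    exact ⟨fun u hu => h2 (OrderDual.ofDual u) hu, fun z hz => h1 (OrderDual.ofDual z) hz⟩

end

/-- Module FIN_Rv. -/
theorem finRv (h : FinNet) : FinRv := by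
  intro P _ _ ω hM
  exact ⟨rs_rv h ω hM, rw_rv h ω hM, merger_rv ω, splitter_rv ω, nes_rv h ω hM, nw_rv ω,
    src_rv ω, src_tr_rv ω⟩

end Pool.Agent.ST14
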