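import Pool.Agent.ST14.FinStmts

/-!
Transposition: all the definitions of `FinDefs` and `RimDefs` for `tr ω`.
-/

set_option autoImplicit false

namespace Pool.Agent.ST14

open scoped Classical

section trs

variable {P : Type} [PartialOrder P]

theorem ftr_RS (ω : P → ℕ) (x u : P) [Fintype P] : RS (tr ω) x u ↔ RW ω x u := by
  unfold RS RW
  simp only [sCov_tr]

theorem ftr_RW (ω : P → ℕ) (x u : P) [Fintype P] : RW (tr ω) x u ↔ RS ω x u := by
  unfold RS RW
  simp only [wCov_tr]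

theorem ftr_XS (ω : P → ℕ) (x u : P) [Fintype P] : XS (tr ω) x u ↔ XW ω x u := by
  unfold XS XW
  simp only [sCov_tr]

theorem ftr_XW (ω : P → ℕ) (x u : P) [Fintype P] : XW (tr ω) x u ↔ XS ω x u := by
  unfold XS XW
  simp only [wCov_tr]

theorem ftr_merger (ω : P → ℕ) (x b y : P) [Fintype P] :
    Merger (tr ω) x b y ↔ Splitter ω x b y := by
  unfold Merger Splitter
  simp only [wCov_tr, sCov_tr]

theorem ftr_splitter (ω : P → ℕ) (x b y : P) [Fintype P] :
    Splitter (tr ω) x b y ↔ Merger ω x b y := by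
  unfold Merger Splitter
  simp only [wCov_tr, sCov_tr]

theorem ftr_NEs (ω : P → ℕ) (a b : P) [Fintype P] : NEs (tr ω) a b ↔ NEs ω b a := by
  unfold NEs
  simp only [ftr_RS, ftr_RW, ftr_merger, ftr_splitter]
  exact or_comm

theorem ftr_NW (ω : P → ℕ) (Q : Finset P) (x e : P) [Fintype P] :
    NW (tr ω) Q x e ↔ NW ω Q x e := by
  unfold NW
  simp only [wCov_tr, sCov_tr]
  constructor
  · rintro ⟨h1, h2, h3, h4⟩
    exact ⟨h1, h2, h4, h3⟩
  · rintro ⟨h1, h2, h3, h4⟩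
    exact ⟨h1, h2, h4, h3⟩

theorem ftr_nwrim (ω : P → ℕ) (T : Finset P) [Fintype P] : nwrim (tr ω) T = nwrim ω T := by
  ext e
  simp only [nwrim, Finset.mem_filter, ftr_NW]

theorem ftr_serim (ω : P → ℕ) (T : Finset P) [Fintype P] : serim (tr ω) T = serim ω T := by
  ext e
  simp only [serim, Finset.mem_filter, ftr_NW]

theorem ftr_Skw (ω : P → ℕ) (Q : Finset P) [Fintype P] : Skw (tr ω) Q ↔ Skw ω Q :=
  ⟨fun h => ⟨h.cvx, locSkewOn_tr_iff.1 h.loc⟩, fun h => ⟨h.cvx, locSkewOn_tr_iff.2 h.loc⟩⟩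

end trs

section fin

variable {P : Type} [Fintype P] [PartialOrder P]

theorem ftr_Intr (ω : P → ℕ) : Intr (tr ω) = Intr ω := by
  unfold Intr
  simp only [ftr_NW]

theorem ftr_strc (ω : P → ℕ) (J : Finset P) : strc (tr (tr ω)) J = strc ω J := by
  unfold strc
  simp only [sCov_tr, wCov_tr]

theorem ftr_Rg (ω : P → ℕ) (r : P) : Rg (tr (tr ω)) r = Rg ω r := by
  have h : NEs (tr (tr ω)) = NEs ω := by
    funext a b
    exact propext ((ftr_NEs (tr ω) a b).trans (ftr_NEs ω b a))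
  unfold Rg
  rw [h]

theorem ftr_Fl (ω : P → ℕ) : Fl (tr (tr ω)) = Fl ω := by
  funext a b
  unfold Fl
  rw [fact_R_tr_tr]
  simp only [ftr_RS, ftr_RW]

theorem ftr_Tr (ω : P → ℕ) (r : P) : Tr (tr (tr ω)) r = Tr ω r := by
  unfold Tr
  rw [ftr_Fl, fact_R_tr_tr]

end fin

theorem finTr : FinTr := fun _ _ _ ω =>
  ⟨fun x u => ftr_RS ω x u, fun x u => ftr_RW ω x u, fun x u => ftr_XS ω x u,
    fun x u => ftr_XW ω x u, fun x b y => ftr_merger ω x b y, fun x b y => ftr_splitter ω x b y,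
    fun a b => ftr_NEs ω a b, fun Q x e => ftr_NW ω Q x e, ftr_Intr ω, fun T => ftr_nwrim ω T,
    fun T => ftr_serim ω T, fun Q => ftr_Skw ω Q, fun J => ftr_strc ω J, fun r => ftr_Rg ω r,
    fun r => ftr_Tr ω r⟩

end Pool.Agent.ST14
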