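import Pool.Agent.ST14.FinStmts

/-!
Module `FIN_Tree`: trees of the forest on `factR ω` and regions of sources.
-/

set_option autoImplicit false

namespace Pool.Agent.ST14

open scoped Classical

theorem finTree_mem_Tr {P : Type} [Fintype P] [PartialOrder P] {ω : P → ℕ} {e r : P} :
    e ∈ Tr ω r ↔ e ∈ factR ω ∧ Relation.ReflTransGen (Fl ω) e r := by
  unfold Tr
  rw [Finset.mem_filter]

theorem finTree_mem_Rg {P : Type} [Fintype P] [PartialOrder P] {ω : P → ℕ} {e r : P} :
    e ∈ Rg ω r ↔ Relation.ReflTransGen (NEs ω) r e := by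
  unfold Rg
  rw [Finset.mem_filter]
  exact ⟨fun h => h.2, fun h => ⟨Finset.mem_univ _, h⟩⟩

theorem finTree (hN : FinNet) (hT : FinTr) (hL : FinLink) (hG : FinReg) (hRR : FinRR) :
    FinTree := by
  intro P _ _ ω hM r hr
  obtain ⟨-, -, -, -, -, -, rs_of, -, -⟩ := hN P ω hM
  obtain ⟨-, -, -, -, rw_r0, -, rw_of0, -, -⟩ := hN P (tr ω) (k5c P ω hM)
  have htr := (hT P ω).1
  have rw_r : ∀ x u u', RW ω x u → RW ω x u' → u = u' := fun x u u' h h' =>
    rw_r0 x u u' ((htr x u).2 h) ((htr x u').2 h')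
  have rw_of : ∀ x u, WCov ω x u → ¬ (IsMin x ∧ IsMax u) → RW ω x u := fun x u h h' =>
    (htr x u).1 (rw_of0 x u ((sCov_tr ω x u).2 h) h')
  obtain ⟨hEnd, hReg⟩ := hG P ω hM
  obtain ⟨g1, g2, g3, -, g5, g6, -, -⟩ := hReg r hr
  obtain ⟨r1, -, -, -, r5, -⟩ := hRR P ω hM
  have hrT : r ∈ Tr ω r := finTree_mem_Tr.2 ⟨r5 r hr, Relation.ReflTransGen.refl⟩
  have hR : ∀ e, e ∉ Intr ω → e ∉ Xm ω → e ∈ factR ω := by
    intro e h1 h2
    by_contra h3
    have : e ∈ Finset.univ \ factR ω := Finset.mem_sdiff.2 ⟨Finset.mem_univ _, h3⟩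
    rw [r1, Finset.mem_union] at this
    tauto
  have hR' : ∀ e, e ∈ factR ω → e ∉ Intr ω ∧ e ∉ Xm ω := by
    intro e h1
    have : e ∉ Finset.univ \ factR ω := fun h => (Finset.mem_sdiff.1 h).2 h1
    rw [r1, Finset.mem_union] at this
    tauto
  have hXm : ∀ e, (∃ b y, Merger ω e b y) → e ∈ Xm ω := fun e h =>
    Finset.mem_filter.2 ⟨Finset.mem_univ _, h⟩
  have hXm' : ∀ e, e ∈ Xm ω → ∃ b y, Merger ω e b y := fun e h => (Finset.mem_filter.1 h).2
  -- the cells of the rim flow to `r`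
  have hα : ∀ (n : ℕ) (e : P), ω e = n → e ∈ Rg ω r → e ∉ Intr ω → e ∉ Xm ω → e ∈ Tr ω r := by
    intro n
    induction n using Nat.strong_induction_on with
    | _ n ih =>
      intro e hn he hI hX
      have heR := hR e hI hX
      by_cases her : e = r
      · rw [her]; exact hrT
      · obtain ⟨f, hf, hfe⟩ := g6 e he her
        by_cases hS : ∃ u, RS ω e u
        · obtain ⟨u, hu⟩ := hS
          have hN1 : NEs ω u e := Or.inl ⟨hu, fun y hy => (g3 e u y hy).1 he,
            fun x hx => g2 x e u hx he⟩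
          have hug : u ∈ Rg ω r := (g1 u e hN1).2 he
          have huR : u ∈ factR ω := fact_R_up heR hu.1.1.le
          obtain ⟨h1, h2⟩ := hR' u huR
          have h3 := ih (ω u) (hn ▸ hu.1.2) u rfl hug h1 h2
          exact finTree_mem_Tr.2 ⟨heR, Relation.ReflTransGen.head ⟨heR, huR, Or.inl hu⟩
            (finTree_mem_Tr.1 h3).2⟩
        · rcases hfe with ⟨h1, -⟩ | ⟨h1, h2, -⟩
          · exact absurd ⟨f, h1⟩ hS
          · have hfI : f ∉ Intr ω := by
              intro h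
              unfold Intr at h
              obtain ⟨-, e', -, -, ⟨g, -, hg1, hg2⟩, -⟩ := Finset.mem_filter.1 h
              have hg3 : RW ω f g := rw_of f g hg1 (fun h => h.2.not_lt hg2.1.lt)
              have hg4 := rw_r f g e hg3 h1
              subst hg4
              exact hS ⟨e', rs_of g e' hg2 (fun h => h.1.not_lt hg1.1.lt)⟩
            have hfX : f ∉ Xm ω := by
              intro h
              obtain ⟨b, y, hb⟩ := hXm' f h
              have hb1 := (hL P ω hM f b y hb).1.2.2.2.2.1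
              have hb2 := rw_r f b e hb1 h1
              exact g2 f b y hb (hb2 ▸ he)
            have h3 := ih (ω f) (hn ▸ h1.1.2) f rfl hf hfI hfX
            exact finTree_mem_Tr.2 ⟨heR, Relation.ReflTransGen.head ⟨heR, hR f hfI hfX, Or.inr h1⟩
              (finTree_mem_Tr.1 h3).2⟩
  refine ⟨?_, ?_⟩
  · intro x hx b y hb
    have hxMin := (hL P ω hM x b y hb).1.1
    have hxE : ∀ f, ¬ NEs ω x f := (hEnd x).2 (Or.inr (Or.inl ⟨b, y, hb⟩))
    have hβ : ∀ e, Relation.ReflTransGen (Fl ω) e r → e ∈ Rg ω r := by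
      intro e he
      induction he using Relation.ReflTransGen.head_induction_on with
      | refl => exact finTree_mem_Rg.2 Relation.ReflTransGen.refl
      | @head a c hac _ ih =>
        obtain ⟨haR, hcR, h1 | h1⟩ := hac
        · have hN1 : NEs ω c a := by
            refine Or.inl ⟨h1, fun y' hy' => ?_, fun x' hx' => ?_⟩
            · have h2 := g5 c ih x hx ((hEnd c).2 (Or.inr (Or.inr (Or.inr ⟨a, y', hy'⟩)))) hxE
              subst h2
              exact hxMin.not_lt h1.1.1.lt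
            · have h2 := g5 c ih x hx ((hEnd c).2 (Or.inr (Or.inr (Or.inl ⟨x', a, hx'⟩)))) hxE
              subst h2
              exact hxMin.not_lt h1.1.1.lt
          exact (g1 c a hN1).1 ih
        · have hN1 : NEs ω c a := by
            refine Or.inr ⟨h1, fun y' hy' => ?_, fun x' hx' => ?_⟩
            · exact (hR' c hcR).2 (hXm c ⟨a, y', hy'⟩)
            · have h2 := g5 c ih x hx ((hEnd c).2 (Or.inr (Or.inr (Or.inr ⟨x', a, hx'⟩)))) hxE
              subst h2
              exact hxMin.not_lt hx'.1.1.lt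
          exact (g1 c a hN1).1 ih
    have hxI : x ∉ Intr ω := (hL P ω hM x b y hb).2.2.2.2.2.1
    refine ⟨?_, Finset.mem_sdiff.2 ⟨hx, hxI⟩⟩
    ext e
    rw [Finset.mem_erase, Finset.mem_sdiff]
    constructor
    · intro he
      obtain ⟨heR, he2⟩ := finTree_mem_Tr.1 he
      obtain ⟨h1, h2⟩ := hR' e heR
      refine ⟨?_, hβ e he2, h1⟩
      rintro rfl
      exact h2 (hXm e ⟨b, y, hb⟩)
    · rintro ⟨hne, heG, heI⟩
      refine hα (ω e) e rfl heG heI ?_
      intro h
      obtain ⟨b', y', hb'⟩ := hXm' e h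
      exact hne (g5 e heG x hx ((hEnd e).2 (Or.inr (Or.inl ⟨b', y', hb'⟩))) hxE)
  · rintro ⟨y, hy, x, b, hb⟩
    obtain ⟨⟨hxMin, hyMax, hbMin, hbMax, hxb, hby⟩, -, -, -, -, hxI, hbI, hyI⟩ := hL P ω hM x b y hb
    have hyE : ∀ f, ¬ NEs ω y f := (hEnd y).2 (Or.inr (Or.inr (Or.inl ⟨x, b, hb⟩)))
    have hsub : Rg ω r \ Intr ω ⊆ Tr ω r := by
      intro e he
      rw [Finset.mem_sdiff] at he
      refine hα (ω e) e rfl he.1 he.2 ?_
      intro h
      obtain ⟨b', y', hb'⟩ := hXm' e h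
      have h1 := g5 e he.1 y hy ((hEnd e).2 (Or.inr (Or.inl ⟨b', y', hb'⟩))) hyE
      subst h1
      exact hyMax.not_lt hb'.1.1.lt
    have hbR : b ∈ factR ω := by
      refine hR b hbI ?_
      intro h
      obtain ⟨b', y', hb'⟩ := hXm' b h
      exact hbMin (hL P ω hM b b' y' hb').1.1
    have hyT : y ∈ Tr ω r := hsub (Finset.mem_sdiff.2 ⟨hy, hyI⟩)
    have hbT : b ∈ Tr ω r := finTree_mem_Tr.2 ⟨hbR, Relation.ReflTransGen.head
      ⟨hbR, (finTree_mem_Tr.1 hyT).1, Or.inl hby⟩ (finTree_mem_Tr.1 hyT).2⟩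
    have hbG : b ∉ Rg ω r \ Intr ω := fun h => g2 x b y hb (Finset.mem_sdiff.1 h).1
    have hins : insert b (Rg ω r \ Intr ω) ⊆ Tr ω r := Finset.insert_subset hbT hsub
    have := Finset.card_le_card hins
    rw [Finset.card_insert_of_notMem hbG] at this
    exact this

end Pool.Agent.ST14
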