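import Pool.Agent.ST14.All
import Pool.Agent.ST14.FinTr
import Pool.Agent.ST14.FinRv
import Pool.Agent.ST14.FinLink
import Pool.Agent.ST14.FinReg
import Pool.Agent.ST14.Fin52
import Pool.Agent.ST14.Fin51
import Pool.Agent.ST14.FinEnd
import Pool.Agent.ST14.FinRR
import Pool.Agent.ST14.FinTree
import Pool.Agent.ST14.FinCoef
import Pool.Agent.ST14.FinKey
import Pool.Agent.ST14.FinLen
import Pool.Agent.ST14.FinMain
import Pool.Agent.ST14.FinQr
import Pool.Agent.ST14.FinFor
import Pool.Agent.ST14.FinNetB

/-!
The last part without hypotheses: every minimal symmetric labelled poset is locally skew.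
-/

set_option autoImplicit false

namespace Pool.Agent.ST14

theorem fa_net : FinNet := finNetB all_st7

theorem fa_rv : FinRv := finRv fa_net

theorem fa_link : FinLink := finLink all_fact fa_net finTr fa_rv

theorem fa_reg : FinReg := finReg fa_net finTr fa_link st2

theorem fa_51 : Fin51 := fin51 fa_net fa_link all_free all_st7

theorem fa_52 : Fin52 := fin52 fa_net finTr fa_rv fa_link all_q all_free st2

theorem fa_end : FinEnd := finEnd fa_net finTr fa_link fa_reg fa_51 all_q all_symSkw all_st7

theorem fa_rr : FinRR := finRR fa_net finTr fa_link st2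

theorem fa_for : FinFor := finFor fa_net finTr fa_rr

theorem fa_tree : FinTree := finTree fa_net finTr fa_link fa_reg fa_rr

theorem fa_qr : FinQr := finQr fa_net finTr fa_link fa_reg fa_51 fa_rr fa_tree fa_for

theorem fa_coef : FinCoef := finCoef fa_for finTr st2

theorem fa_key : FinKey := finKey st2 psiVal all_lam all_eps all_top all_se fa_net finTr fa_52
  fa_end fa_rr fa_for fa_tree fa_qr fa_coef

theorem fa_len : FinLen := finLen fa_net finTr fa_rv fa_reg

/-- Every minimal symmetric labelled poset is locally skew. -/
theorem fa_main : FinMain := finMain fa_key fa_len fa_end fa_rv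

end Pool.Agent.ST14
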