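import Pool.Agent.ST14.KapStmts

/-!
K3: the symmetry of the frozen statement gives the symmetry of the numbers `kap`.
-/

set_option autoImplicit false

namespace Pool.Agent.ST14

open scoped Classical

section

variable {P : Type} [PartialOrder P]

/-- `(Q, ω)`-partitions of content `w`, extended by zero. -/
def K3PP (ω : P → ℕ) (Q : Finset P) (w : List ℕ) : Set (P → ℕ) :=
  {f | (∀ x, x ∉ Q → f x = 0) ∧ (∀ x ∈ Q, ∀ y ∈ Q, x < y → f x ≤ f y) ∧
    (∀ x ∈ Q, ∀ y ∈ Q, x < y → ω y < ω x → f x < f y) ∧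
    ∀ i, (Q.filter fun x => f x = i).card = w.getD i 0}

theorem K3_lt {ω : P → ℕ} {Q : Finset P} {w : List ℕ} {f : P → ℕ} (hf : f ∈ K3PP ω Q w) {x : P}
    (hx : x ∈ Q) : f x < w.length := by
  by_contra h
  have h1 := hf.2.2.2 (f x)
  rw [List.getD_eq_default _ _ (not_lt.1 h), Finset.card_eq_zero] at h1
  have : x ∈ Q.filter fun y => f y = f x := Finset.mem_filter.2 ⟨hx, rfl⟩
  rw [h1] at this
  simp at this

theorem K3_finite (ω : P → ℕ) (Q : Finset P) (w : List ℕ) : Finite (K3PP ω Q w) := by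
  let F : K3PP ω Q w → (Q → Fin (w.length)) := fun f x => ⟨f.1 x, K3_lt f.2 x.2⟩
  refine Finite.of_injective F ?_
  intro f g h
  apply Subtype.ext
  funext x
  by_cases hx : x ∈ Q
  · have := congrFun h ⟨x, hx⟩
    simpa [F] using this
  · rw [f.2.1 x hx, g.2.1 x hx]

/-- the index type of the recursion -/
abbrev K3Idx (ω : P → ℕ) (Q : Finset P) (a : ℕ) : Type :=
  {I // I ∈ (idl Q).filter (fun I => I.card = a ∧ WeakOnly ω I)}

theorem K3_mem_idl {Q I : Finset P} :
    I ∈ idl Q ↔ I ⊆ Q ∧ ∀ x ∈ Q, ∀ y ∈ I, x ≤ y → x ∈ I := by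
  unfold idl
  rw [Finset.mem_filter, Finset.mem_powerset]

theorem K3_fwd_idx {ω : P → ℕ} (hω : Function.Injective ω) {Q : Finset P} {a : ℕ} {w : List ℕ}
    {f : P → ℕ} (hf : f ∈ K3PP ω Q (a :: w)) :
    (Q.filter fun x => f x = 0) ∈ (idl Q).filter (fun I => I.card = a ∧ WeakOnly ω I) := by
  obtain ⟨h1, h2, h3, h4⟩ := hf
  rw [Finset.mem_filter, K3_mem_idl]
  refine ⟨⟨Finset.filter_subset _ _, ?_⟩, ?_, ?_⟩
  · intro x hx y hy hxy
    rw [Finset.mem_filter] at hy ⊢
    refine ⟨hx, ?_⟩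
    rcases eq_or_lt_of_le hxy with rfl | hlt
    · exact hy.2
    · have := h2 x hx y hy.1 hlt
      omega
  · simpa using h4 0
  · intro x hx y hy hxy
    rw [Finset.mem_filter] at hx hy
    have h5 : ¬ ω y < ω x := by
      intro h
      have := h3 x hx.1 y hy.1 hxy h
      omega
    exact lt_of_le_of_ne (not_lt.1 h5) fun h => hxy.ne (hω h)

theorem K3_fwd {ω : P → ℕ} {Q : Finset P} {a : ℕ} {w : List ℕ}
    {f : P → ℕ} (hf : f ∈ K3PP ω Q (a :: w)) :
    (fun x => f x - 1) ∈ K3PP ω (Q \ Q.filter fun x => f x = 0) w := by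
  obtain ⟨h1, h2, h3, h4⟩ := hf
  have hmem : ∀ x, x ∈ Q \ Q.filter (fun x => f x = 0) ↔ x ∈ Q ∧ f x ≠ 0 := by
    intro x
    rw [Finset.mem_sdiff, Finset.mem_filter]
    tauto
  refine ⟨?_, ?_, ?_, ?_⟩
  · intro x hx
    rw [hmem] at hx
    by_cases hQ : x ∈ Q
    · have : f x = 0 := by
        by_contra h
        exact hx ⟨hQ, h⟩
      show f x - 1 = 0
      omega
    · show f x - 1 = 0
      rw [h1 x hQ]
  · intro x hx y hy hxy
    rw [hmem] at hx hy
    exact Nat.sub_le_sub_right (h2 x hx.1 y hy.1 hxy) 1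
  · intro x hx y hy hxy hω'
    rw [hmem] at hx hy
    have := h3 x hx.1 y hy.1 hxy hω'
    have h5 := hx.2
    show f x - 1 < f y - 1
    omega
  · intro i
    have h5 := h4 (i + 1)
    rw [List.getD_cons_succ] at h5
    rw [← h5]
    congr 1
    ext x
    simp only [Finset.mem_filter, hmem]
    constructor
    · rintro ⟨⟨h6, h7⟩, h8⟩
      exact ⟨h6, by omega⟩
    · rintro ⟨h6, h7⟩
      exact ⟨⟨h6, by omega⟩, by omega⟩

theorem K3_bwd {ω : P → ℕ} {Q I : Finset P} {a : ℕ} {w : List ℕ} {g : P → ℕ}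
    (hI : I ∈ (idl Q).filter (fun I => I.card = a ∧ WeakOnly ω I)) (hg : g ∈ K3PP ω (Q \ I) w) :
    (fun x => if x ∈ Q \ I then g x + 1 else 0) ∈ K3PP ω Q (a :: w) := by
  rw [Finset.mem_filter, K3_mem_idl] at hI
  obtain ⟨⟨hIQ, hid⟩, hcard, hwo⟩ := hI
  obtain ⟨h1, h2, h3, h4⟩ := hg
  refine ⟨?_, ?_, ?_, ?_⟩
  · intro x hx
    show (if x ∈ Q \ I then g x + 1 else 0) = 0
    rw [if_neg]
    rw [Finset.mem_sdiff]
    tauto
  · intro x hx y hy hxy
    show (if x ∈ Q \ I then g x + 1 else 0) ≤ (if y ∈ Q \ I then g y + 1 else 0)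
    by_cases hxI : x ∈ I
    · rw [if_neg (by rw [Finset.mem_sdiff]; tauto)]
      exact Nat.zero_le _
    · have hyI : y ∉ I := fun h => hxI (hid x hx y h hxy.le)
      rw [if_pos (Finset.mem_sdiff.2 ⟨hx, hxI⟩), if_pos (Finset.mem_sdiff.2 ⟨hy, hyI⟩)]
      have := h2 x (Finset.mem_sdiff.2 ⟨hx, hxI⟩) y (Finset.mem_sdiff.2 ⟨hy, hyI⟩) hxy
      omega
  · intro x hx y hy hxy hω'
    show (if x ∈ Q \ I then g x + 1 else 0) < (if y ∈ Q \ I then g y + 1 else 0)
    by_cases hxI : x ∈ I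
    · have hyI : y ∉ I := by
        intro h
        have := hwo x hxI y h hxy
        omega
      rw [if_neg (by rw [Finset.mem_sdiff]; tauto), if_pos (Finset.mem_sdiff.2 ⟨hy, hyI⟩)]
      exact Nat.succ_pos _
    · have hyI : y ∉ I := fun h => hxI (hid x hx y h hxy.le)
      rw [if_pos (Finset.mem_sdiff.2 ⟨hx, hxI⟩), if_pos (Finset.mem_sdiff.2 ⟨hy, hyI⟩)]
      have := h3 x (Finset.mem_sdiff.2 ⟨hx, hxI⟩) y (Finset.mem_sdiff.2 ⟨hy, hyI⟩) hxy hω'
      omega
  · intro i
    rcases i with _ | i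
    · rw [List.getD_cons_zero, ← hcard]
      congr 1
      ext x
      simp only [Finset.mem_filter]
      constructor
      · rintro ⟨h5, h6⟩
        by_contra h7
        rw [if_pos (Finset.mem_sdiff.2 ⟨h5, h7⟩)] at h6
        omega
      · intro h5
        refine ⟨hIQ h5, ?_⟩
        rw [if_neg (by rw [Finset.mem_sdiff]; tauto)]
    · rw [List.getD_cons_succ, ← h4 i]
      congr 1
      ext x
      simp only [Finset.mem_filter]
      constructor
      · rintro ⟨h5, h6⟩
        by_cases h7 : x ∈ Q \ I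
        · rw [if_pos h7] at h6
          exact ⟨h7, by omega⟩
        · rw [if_neg h7] at h6
          omega
      · rintro ⟨h5, h6⟩
        rw [if_pos h5, h6]
        exact ⟨(Finset.mem_sdiff.1 h5).1, rfl⟩

/-- splitting off the smallest value -/
noncomputable def K3Equiv {ω : P → ℕ} (hω : Function.Injective ω) (Q : Finset P) (a : ℕ)
    (w : List ℕ) : K3PP ω Q (a :: w) ≃ Σ I : K3Idx ω Q a, K3PP ω (Q \ I.1) w where
  toFun f := ⟨⟨Q.filter fun x => f.1 x = 0, K3_fwd_idx hω f.2⟩, ⟨fun x => f.1 x - 1, K3_fwd f.2⟩⟩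
  invFun p := ⟨fun x => if x ∈ Q \ p.1.1 then p.2.1 x + 1 else 0, K3_bwd p.1.2 p.2.2⟩
  left_inv f := by
    apply Subtype.ext
    funext x
    obtain ⟨f, hf⟩ := f
    have h1 := hf.1
    show (if x ∈ Q \ Q.filter (fun x => f x = 0) then f x - 1 + 1 else 0) = f x
    by_cases hx : x ∈ Q
    · by_cases h0 : f x = 0
      · rw [if_neg, h0]
        rw [Finset.mem_sdiff, Finset.mem_filter]
        tauto
      · rw [if_pos]
        · omega
        · rw [Finset.mem_sdiff, Finset.mem_filter]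
          tauto
    · rw [if_neg, h1 x hx]
      rw [Finset.mem_sdiff]
      tauto
  right_inv p := by
    obtain ⟨⟨I, hI⟩, ⟨g, hg⟩⟩ := p
    have hI' := hI
    rw [Finset.mem_filter, K3_mem_idl] at hI'
    obtain ⟨⟨hIQ, hid⟩, hcard, hwo⟩ := hI'
    have hg1 : ∀ x, x ∉ Q \ I → g x = 0 := hg.1
    have hIeq : (Q.filter fun x => (if x ∈ Q \ I then g x + 1 else 0) = 0) = I := by
      ext x
      rw [Finset.mem_filter]
      constructor
      · rintro ⟨h5, h6⟩
        by_contra h7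
        rw [if_pos (Finset.mem_sdiff.2 ⟨h5, h7⟩)] at h6
        omega
      · intro h5
        refine ⟨hIQ h5, ?_⟩
        rw [if_neg (by rw [Finset.mem_sdiff]; tauto)]
    have hfun : (fun x => (if x ∈ Q \ I then g x + 1 else 0) - 1) = g := by
      funext x
      by_cases h5 : x ∈ Q \ I
      · rw [if_pos h5]
        rfl
      · rw [if_neg h5]
        exact (hg1 x h5).symm
    refine Sigma.ext (Subtype.ext hIeq) ?_
    refine (Subtype.heq_iff_coe_eq ?_).2 hfun
    intro f
    show f ∈ K3PP ω (Q \ Q.filter fun x => (if x ∈ Q \ I then g x + 1 else 0) = 0) w ↔ _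
    rw [hIeq]

/-- the numbers `kap` count partitions -/
theorem K3_kap {ω : P → ℕ} (hω : Function.Injective ω) (w : List ℕ) :
    ∀ Q : Finset P, kap ω Q w = Nat.card (K3PP ω Q w) := by
  induction w with
  | nil =>
    intro Q
    unfold kap
    by_cases hQ : Q = ∅
    · rw [if_pos hQ]
      subst hQ
      have : (K3PP ω ∅ []) = {fun _ => 0} := by
        ext f
        constructor
        · rintro ⟨h1, -⟩
          rw [Set.mem_singleton_iff]
          funext x
          exact h1 x (Finset.notMem_empty x)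
        · intro hf
          rw [Set.mem_singleton_iff] at hf
          subst hf
          refine ⟨fun _ _ => rfl, by simp, by simp, by simp⟩
      rw [this]
      simp
    · rw [if_neg hQ]
      have : IsEmpty (K3PP ω Q []) := by
        constructor
        rintro ⟨f, hf⟩
        obtain ⟨x, hx⟩ := Finset.nonempty_iff_ne_empty.2 hQ
        have := K3_lt hf hx
        simp at this
      rw [Nat.card_of_isEmpty]
  | cons a w ih =>
    intro Q
    have hfin : ∀ I : K3Idx ω Q a, Finite (K3PP ω (Q \ I.1) w) := fun I => K3_finite _ _ _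
    rw [Nat.card_congr (K3Equiv hω Q a w), Nat.card_sigma]
    have h1 : ∀ I : K3Idx ω Q a, Nat.card (K3PP ω (Q \ I.1) w) = kap ω (Q \ I.1) w :=
      fun I => (ih _).symm
    rw [Finset.sum_congr rfl fun I _ => h1 I]
    show (∑ I ∈ (idl Q).filter (fun I => I.card = a ∧ WeakOnly ω I), kap ω (Q \ I) w) = _
    rw [← Finset.sum_coe_sort]

end

/-- permutations of lists as permutations of the positions -/
theorem K3_perm {w w' : List ℕ} (h : w.Perm w') :
    ∃ σ : Equiv.Perm ℕ, ∀ i, w'.getD i 0 = w.getD (σ i) 0 := by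
  induction h with
  | nil => exact ⟨1, fun i => rfl⟩
  | cons a h ih =>
    obtain ⟨σ, hσ⟩ := ih
    refine ⟨⟨fun n => Nat.casesOn n 0 fun k => σ k + 1,
      fun n => Nat.casesOn n 0 fun k => σ.symm k + 1, ?_, ?_⟩, ?_⟩
    · intro n
      cases n with
      | zero => rfl
      | succ k => simp
    · intro n
      cases n with
      | zero => rfl
      | succ k => simp
    · intro i
      cases i with
      | zero => simp
      | succ k => simpa using hσ k
  | swap a b l =>
    refine ⟨Equiv.swap 0 1, fun i => ?_⟩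
    match i with
    | 0 => simp
    | 1 => simp
    | k + 2 =>
      rw [Equiv.swap_apply_of_ne_of_ne (by omega) (by omega)]
      simp
  | trans h1 h2 ih1 ih2 =>
    obtain ⟨σ, hσ⟩ := ih1
    obtain ⟨τ, hτ⟩ := ih2
    exact ⟨τ.trans σ, fun i => by rw [hτ, hσ]; rfl⟩

theorem K3_frozen {P : Type} [Fintype P] [PartialOrder P] (ω : P → ℕ)
    (hω : Function.Injective ω) (w : List ℕ) :
    kap ω Finset.univ w =
      Nat.card {f : P → ℕ // IsPP ω f ∧ ∀ i : ℕ, Nat.card {x : P // f x = i} = w.getD i 0} := by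
  rw [K3_kap hω]
  refine Nat.card_congr (Equiv.subtypeEquivRight fun f => ?_)
  have hc : ∀ i : ℕ, Nat.card {x : P // f x = i} = (Finset.univ.filter fun x => f x = i).card := by
    intro i
    rw [Nat.card_eq_fintype_card, Fintype.card_subtype]
  constructor
  · rintro ⟨-, h2, h3, h4⟩
    refine ⟨⟨fun s t h => h2 s (Finset.mem_univ _) t (Finset.mem_univ _) h,
      fun s t h => h3 s (Finset.mem_univ _) t (Finset.mem_univ _) h⟩, fun i => ?_⟩
    rw [hc, h4]
  · rintro ⟨⟨h2, h3⟩, h4⟩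
    refine ⟨fun x hx => absurd (Finset.mem_univ x) hx, fun s _ t _ h => h2 s t h,
      fun s _ t _ h => h3 s t h, fun i => ?_⟩
    rw [← hc, h4]

/-- K3 -/
theorem K3 : ∀ (P : Type) [Fintype P] [PartialOrder P] (ω : P → ℕ), Function.Injective ω →
    FrozenSym ω → SymW ω Finset.univ := by
  intro P _ _ ω hω hF w w' hw
  obtain ⟨σ, hσ⟩ := K3_perm hw
  rw [K3_frozen ω hω, K3_frozen ω hω]
  have := hF (fun i => w.getD i 0) σ
  simp only [← hσ] at this
  exact this

end Pool.Agent.ST14
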