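import Pool.Agent.Lib_helper92.SPE.K4

/-!
The reduction to a minimal counterexample is `K4` in `Pool.Agent.Lib_helper92.SPE.K4`; here only a
lemma on covers in subtypes.
-/

set_option autoImplicit false

namespace Pool.Agent.ST14

open scoped Classical

lemma covBy_sub_iff {P : Type} [PartialOrder P] {Q : Finset P} (hQ : Cvx Q) {x y : P}
    (hx : x ∈ Q) (hy : y ∈ Q) : ((⟨x, hx⟩ : {x // x ∈ Q}) ⋖ ⟨y, hy⟩) ↔ x ⋖ y := by
  constructor
  · intro h
    refine ⟨h.lt, ?_⟩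
    intro c hxc hcy
    exact h.2 (c := ⟨c, hQ x hx y hy c hxc.le hcy.le⟩) hxc hcy
  · intro h
    exact ⟨h.lt, fun c hxc hcy => h.2 hxc hcy⟩

end Pool.Agent.ST14
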