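import Pool.Agent.Lib_helper86.SP.Assemble
import Pool.Agent.ST14.K4
import Pool.Agent.ST14.K3

/-!
Final assembly: the frozen statement from `Mini ω → LocSkew ω`.
-/

set_option autoImplicit false

namespace Pool.Agent.ST14

/-- What is left: a minimal symmetric labelled poset is locally skew. -/
def FinalStmt : Prop := ∀ (P : Type) [Fintype P] [PartialOrder P] (ω : P → ℕ),
  Mini ω → LocSkew ω

theorem symLocSkew_of_final (h : FinalStmt) : Pool.Agent.SP86.SymLocSkew := by
  intro P _ _ ω hω hS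
  refine K4 h P ω hω (K3 P ω hω ?_)
  intro α σ
  have h1 := hS α σ
  unfold Pool.Agent.SP86.cntN at h1
  exact h1

theorem final (h : FinalStmt) :
    ∀ (P : Type) [Fintype P] [PartialOrder P] (ω : P ≃ Fin (Fintype.card P)),
      (∀ (α : ℕ → ℕ) (σ : Equiv.Perm ℕ),
        Nat.card {f : P → ℕ // (∀ s t : P, s < t → f s ≤ f t) ∧
            (∀ s t : P, s < t → ω t < ω s → f s < f t) ∧
            ∀ i : ℕ, Nat.card {x : P // f x = i} = α i}
          = Nat.card {f : P → ℕ // (∀ s t : P, s < t → f s ≤ f t) ∧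
            (∀ s t : P, s < t → ω t < ω s → f s < f t) ∧
            ∀ i : ℕ, Nat.card {x : P // f x = i} = α (σ i)})
      ↔
      ∃ (lam mu : YoungDiagram) (e : P ≃ ↥(lam.cells \ mu.cells)), mu ≤ lam ∧
        ∀ f : P → ℕ,
          ((∀ s t : P, s < t → f s ≤ f t) ∧
            (∀ s t : P, s < t → ω t < ω s → f s < f t)) ↔
          ((∀ s t : P, (e s).1.1 = (e t).1.1 → (e s).1.2 < (e t).1.2 → f s ≤ f t) ∧
            (∀ s t : P, (e s).1.2 = (e t).1.2 → (e s).1.1 < (e t).1.1 → f s < f t)) :=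
  Pool.Agent.SP86.assemble (symLocSkew_of_final h) Emb.main

end Pool.Agent.ST14
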