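import Pool.Agent.ST14.St1

/-!
Items (3), (4) of the structure theorem: the Hall inequality and tightness.
-/

set_option autoImplicit false

namespace Pool.Agent.ST14

open scoped Classical

section

variable {P : Type} [PartialOrder P]

theorem kap_pos_of_weak (ω : P → ℕ) {Q I : Finset P} (hI : I ∈ idl Q) (hw : WeakOnly ω I)
    {w : List ℕ} (h : 0 < kap ω (Q \ I) w) : 0 < kap ω Q (I.card :: w) := by
  rw [kap_cons]
  refine lt_of_lt_of_le h (Finset.single_le_sum (f := fun I => kap ω (Q \ I) w)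
        (fun _ _ => Nat.zero_le _) ?_)
  rw [Finset.mem_filter]
  exact ⟨hI, rfl, hw⟩

theorem kap_append_pos (ω : P → ℕ) {Q I : Finset P} (hI : I ∈ idl Q) {w w' : List ℕ}
    (h : 0 < kap ω I w) (h' : 0 < kap ω (Q \ I) w') : 0 < kap ω Q (w ++ w') := by
  rw [kap_append]
  refine lt_of_lt_of_le (Nat.mul_pos h h') (Finset.single_le_sum
    (f := fun I => kap ω I w * kap ω (Q \ I) w') (fun _ _ => Nat.zero_le _) hI)

theorem exists_of_kap_pos (ω : P → ℕ) {Q : Finset P} {a : ℕ} {w : List ℕ}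
    (h : 0 < kap ω Q (a :: w)) : ∃ I ∈ idl Q, I.card = a ∧ WeakOnly ω I := by
  rw [kap_cons] at h
  by_contra hn
  push Not at hn
  rw [Finset.sum_eq_zero] at h
  · exact lt_irrefl _ h
  · intro I hI
    rw [Finset.mem_filter] at hI
    exact absurd hI.2.2 (hn I hI.1 hI.2.1)

theorem LL.trans_le {ω : P → ℕ} {x u v : P} (h : LL ω x u) (huv : u ≤ v) : LL ω x v := by
  obtain ⟨y, z, h1, h2, h3, h4⟩ := h
  exact ⟨y, z, h1, h2, h3.trans huv, h4⟩

theorem LL.le_trans {ω : P → ℕ} {x y u : P} (hxy : x ≤ y) (h : LL ω y u) : LL ω x u := by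
  obtain ⟨a, z, h1, h2, h3, h4⟩ := h
  exact ⟨a, z, hxy.trans h1, h2, h3, h4⟩

end

variable {P : Type} [Fintype P] [PartialOrder P]

theorem mem_TT {ω : P → ℕ} {x u : P} : x ∈ TT ω u ↔ LL ω x u := by
  unfold TT
  simp

theorem mem_TS {ω : P → ℕ} {x : P} {U : Finset P} : x ∈ TS ω U ↔ ∃ u ∈ U, LL ω x u := by
  unfold TS
  simp

theorem mem_idl_univ {J : Finset P} :
    J ∈ idl (Finset.univ : Finset P) ↔ ∀ x, ∀ y ∈ J, x ≤ y → x ∈ J := by
  rw [mem_idl]
  constructor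
  · intro h x y hy hxy
    exact h.2 x (Finset.mem_univ _) y hy hxy
  · intro h
    exact ⟨Finset.subset_univ _, fun x _ y hy hxy => h x y hy hxy⟩

theorem TT_mono {ω : P → ℕ} {u v : P} (h : u ≤ v) : TT ω u ⊆ TT ω v := by
  intro x hx
  rw [mem_TT] at *
  exact hx.trans_le h

theorem TT_idl (ω : P → ℕ) (u : P) : TT ω u ∈ idl (Finset.univ : Finset P) := by
  rw [mem_idl_univ]
  intro x y hy hxy
  rw [mem_TT] at *
  exact LL.le_trans hxy hy

theorem TS_idl (ω : P → ℕ) (U : Finset P) : TS ω U ∈ idl (Finset.univ : Finset P) := by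
  rw [mem_idl_univ]
  intro x y hy hxy
  rw [mem_TS] at *
  obtain ⟨u, hu, h⟩ := hy
  exact ⟨u, hu, LL.le_trans hxy h⟩

theorem TT_sub_of_mem {ω : P → ℕ} {J : Finset P} (hJ : J ∈ idl (Finset.univ : Finset P)) {u : P}
    (hu : u ∈ J) : TT ω u ⊆ J := by
  intro x hx
  rw [mem_TT] at hx
  exact mem_idl_univ.1 hJ x u hu hx.lt.le

theorem TT_sub_TS {ω : P → ℕ} {U : Finset P} {u : P} (hu : u ∈ U) : TT ω u ⊆ TS ω U := by
  intro x hx
  rw [mem_TT] at hx
  rw [mem_TS]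
  exact ⟨u, hu, hx⟩

/-- The layer above the ideal `J`. -/
noncomputable def LJ (ω : P → ℕ) (J : Finset P) : Finset P :=
  Finset.univ.filter fun u => u ∉ J ∧ TT ω u ⊆ J

/-- `U_J`. -/
noncomputable def UJ (ω : P → ℕ) (J : Finset P) : Finset P :=
  (AA ω).filter fun u => TT ω u ⊆ J

theorem mem_LJ {ω : P → ℕ} {J : Finset P} {u : P} : u ∈ LJ ω J ↔ u ∉ J ∧ TT ω u ⊆ J := by
  unfold LJ
  simp

theorem mem_UJ {ω : P → ℕ} {J : Finset P} {u : P} :
    u ∈ UJ ω J ↔ u ∈ AA ω ∧ TT ω u ⊆ J := by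
  unfold UJ
  rw [Finset.mem_filter]

theorem LJ_idl (ω : P → ℕ) (J : Finset P) : LJ ω J ∈ idl (Finset.univ \ J) := by
  rw [mem_idl]
  refine ⟨?_, ?_⟩
  · intro u hu
    rw [mem_LJ] at hu
    exact Finset.mem_sdiff.2 ⟨Finset.mem_univ _, hu.1⟩
  · intro x hx y hy hxy
    rw [mem_LJ] at *
    exact ⟨(Finset.mem_sdiff.1 hx).2, (TT_mono hxy).trans hy.2⟩

theorem LJ_weak {ω : P → ℕ} (hω : Function.Injective ω) (J : Finset P) :
    WeakOnly ω (LJ ω J) := by
  intro x hx y hy hxy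
  rw [mem_LJ] at *
  by_contra h
  have h1 : ω y < ω x := lt_of_le_of_ne (not_lt.1 h) (fun h2 => hxy.ne (hω h2.symm))
  exact hx.1 (hy.2 (mem_TT.2 ⟨x, y, le_rfl, hxy, le_rfl, h1⟩))

theorem LJ_card_le {ω : P → ℕ} (hω : Function.Injective ω) (hs : SymW ω Finset.univ)
    {J : Finset P} (hJ : J ∈ idl (Finset.univ : Finset P)) :
    (LJ ω J).card ≤ (W1 ω).card := by
  have h1 : 0 < kap ω Finset.univ (List.replicate J.card 1 ++ ((LJ ω J).card ::
      List.replicate ((Finset.univ \ J) \ LJ ω J).card 1)) :=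
    kap_append_pos ω hJ (K6_lin ω _ _ rfl)
      (kap_pos_of_weak ω (LJ_idl ω J) (LJ_weak hω J) (K6_lin ω _ _ rfl))
  have h2 := hs _ _ (List.perm_middle (a := (LJ ω J).card) (l₁ := List.replicate J.card 1)
    (l₂ := List.replicate ((Finset.univ \ J) \ LJ ω J).card 1))
  rw [h2] at h1
  obtain ⟨I, hI, hc, hw⟩ := exists_of_kap_pos ω h1
  rw [← hc]
  exact Finset.card_le_card (K6_sub_W1 hI hw)

theorem W1_union_AA (ω : P → ℕ) (u : P) : u ∈ W1 ω ∨ u ∈ AA ω := by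
  rw [K6_mem_W1, mem_AA]
  by_cases h : ∃ x, LL ω x u
  · exact Or.inr h
  · exact Or.inl (fun x hx => h ⟨x, hx⟩)

theorem W1_not_AA {ω : P → ℕ} {u : P} (h : u ∈ W1 ω) : u ∉ AA ω := by
  rw [K6_mem_W1] at h
  rw [mem_AA]
  rintro ⟨x, hx⟩
  exact h x hx

theorem TT_eq_empty_of_W1 {ω : P → ℕ} {u : P} (h : u ∈ W1 ω) : TT ω u = ∅ := by
  rw [K6_mem_W1] at h
  rw [Finset.eq_empty_iff_forall_notMem]
  intro x hx
  exact h x (mem_TT.1 hx)

/-- The layer splits. -/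
theorem LJ_eq {ω : P → ℕ} (J : Finset P) :
    LJ ω J = (W1 ω \ J) ∪ (UJ ω J \ J) := by
  ext u
  rw [mem_LJ, Finset.mem_union, Finset.mem_sdiff, Finset.mem_sdiff, mem_UJ]
  constructor
  · rintro ⟨h1, h2⟩
    rcases W1_union_AA ω u with h | h
    · exact Or.inl ⟨h, h1⟩
    · exact Or.inr ⟨⟨h, h2⟩, h1⟩
  · rintro (⟨h1, h2⟩ | ⟨⟨h1, h2⟩, h3⟩)
    · refine ⟨h2, ?_⟩
      rw [TT_eq_empty_of_W1 h1]
      exact Finset.empty_subset _
    · exact ⟨h3, h2⟩

theorem LJ_card (ω : P → ℕ) (J : Finset P) :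
    (LJ ω J).card = (W1 ω \ J).card + (UJ ω J \ J).card := by
  rw [LJ_eq, Finset.card_union_of_disjoint]
  rw [Finset.disjoint_left]
  intro u h1 h2
  rw [Finset.mem_sdiff] at h1 h2
  exact W1_not_AA h1.1 (mem_UJ.1 h2.1).1

theorem hall {ω : P → ℕ} (hω : Function.Injective ω) (hs : SymW ω Finset.univ)
    {J : Finset P} (hJ : J ∈ idl (Finset.univ : Finset P)) : (UJ ω J).card ≤ J.card := by
  have h1 := LJ_card_le hω hs hJ
  rw [LJ_card] at h1
  have h2 : (W1 ω).card = (W1 ω \ J).card + (W1 ω ∩ J).card := by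
    rw [Finset.card_sdiff_add_card_inter]
  have h3 : (UJ ω J).card = (UJ ω J \ J).card + (UJ ω J ∩ J).card := by
    rw [Finset.card_sdiff_add_card_inter]
  have h4 : (UJ ω J ∩ J).card + (W1 ω ∩ J).card ≤ J.card := by
    rw [← Finset.card_union_of_disjoint]
    · apply Finset.card_le_card
      exact Finset.union_subset Finset.inter_subset_right Finset.inter_subset_right
    · rw [Finset.disjoint_left]
      intro u h5 h6
      rw [Finset.mem_inter] at h5 h6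
      exact W1_not_AA h6.1 (mem_UJ.1 h5.1).1
  omega

theorem st3 : St3 := fun _ _ _ _ h _ hJ => hall h.inj h.sym hJ

/-- Blocks above `J`. -/
theorem block_sub_LJ {ω : P → ℕ} {J L : Finset P} (hJ : J ∈ idl (Finset.univ : Finset P))
    (hL : L ∈ idl (Finset.univ \ J)) (hw : WeakOnly ω L) : L ⊆ LJ ω J := by
  intro u hu
  rw [mem_idl] at hL
  rw [mem_LJ]
  have huJ := (Finset.mem_sdiff.1 (hL.1 hu)).2
  refine ⟨huJ, ?_⟩
  intro x hx
  rw [mem_TT] at hx
  obtain ⟨y, z, h1, h2, h3, h4⟩ := hx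
  by_contra hxJ
  have hy : y ∉ J := fun h => hxJ (mem_idl_univ.1 hJ x y h h1)
  have hz : z ∉ J := fun h => hy (mem_idl_univ.1 hJ y z h h2.le)
  have hzL : z ∈ L := hL.2 z (Finset.mem_sdiff.2 ⟨Finset.mem_univ _, hz⟩) u hu h3
  have hyL : y ∈ L := hL.2 y (Finset.mem_sdiff.2 ⟨Finset.mem_univ _, hy⟩) z hzL h2.le
  have := hw y hyL z hzL h2
  omega

theorem sdiff_LJ {ω : P → ℕ} {J : Finset P} (hJ : J ∈ idl (Finset.univ : Finset P)) :
    (Finset.univ \ J) \ LJ ω J = AA ω \ UJ ω J := by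
  ext u
  rw [Finset.mem_sdiff, Finset.mem_sdiff, Finset.mem_sdiff, mem_LJ, mem_UJ]
  have h0 := Finset.mem_univ u
  constructor
  · rintro ⟨⟨-, h1⟩, h2⟩
    have h3 : ¬ TT ω u ⊆ J := fun h => h2 ⟨h1, h⟩
    refine ⟨?_, fun h => h3 h.2⟩
    rcases W1_union_AA ω u with h | h
    · exfalso
      apply h3
      rw [TT_eq_empty_of_W1 h]
      exact Finset.empty_subset _
    · exact h
  · rintro ⟨h1, h2⟩
    have h3 : ¬ TT ω u ⊆ J := fun h => h2 ⟨h1, h⟩
    exact ⟨⟨h0, fun h => h3 (TT_sub_of_mem hJ h)⟩, fun h => h3 h.2⟩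

/-- The tight weak-only ideals. -/
noncomputable def tightJ (ω : P → ℕ) (m : ℕ) : Finset (Finset P) :=
  (idl (Finset.univ : Finset P)).filter fun J => (J.card = m ∧ WeakOnly ω J) ∧
    (LJ ω J).card = (W1 ω).card

theorem kap_second {ω : P → ℕ} (hω : Function.Injective ω) (hs : SymW ω Finset.univ)
    {J : Finset P} (hJ : J ∈ idl (Finset.univ : Finset P)) (v : List ℕ) :
    kap ω (Finset.univ \ J) ((W1 ω).card :: v) =
      if (LJ ω J).card = (W1 ω).card then kap ω (AA ω \ UJ ω J) v else 0 := by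
  rw [kap_cons]
  have hkey : ∀ L ∈ (idl (Finset.univ \ J)).filter
      (fun I => I.card = (W1 ω).card ∧ WeakOnly ω I), L = LJ ω J := by
    intro L hL
    rw [Finset.mem_filter] at hL
    apply Finset.eq_of_subset_of_card_le (block_sub_LJ hJ hL.1 hL.2.2)
    rw [hL.2.1]
    exact LJ_card_le hω hs hJ
  split_ifs with h
  · rw [Finset.sum_eq_single (LJ ω J)]
    · rw [sdiff_LJ hJ]
    · intro L hL hne
      exact absurd (hkey L hL) hne
    · intro hn
      exfalso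
      apply hn
      rw [Finset.mem_filter]
      exact ⟨LJ_idl ω J, h, LJ_weak hω J⟩
  · apply Finset.sum_eq_zero
    intro L hL
    exfalso
    apply h
    rw [← hkey L hL]
    rw [Finset.mem_filter] at hL
    exact hL.2.1

theorem kap_left {ω : P → ℕ} (hω : Function.Injective ω) (hs : SymW ω Finset.univ)
    (m : ℕ) (v : List ℕ) : kap ω Finset.univ (m :: (W1 ω).card :: v) =
      ∑ J ∈ tightJ ω m, kap ω (AA ω \ UJ ω J) v := by
  have h0 : tightJ ω m = ((idl (Finset.univ : Finset P)).filter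
      fun J => (J.card = m ∧ WeakOnly ω J)).filter fun J => (LJ ω J).card = (W1 ω).card := by
    unfold tightJ
    rw [Finset.filter_filter]
  rw [kap_cons, h0, Finset.sum_filter (fun J => (LJ ω J).card = (W1 ω).card)]
  apply Finset.sum_congr rfl
  intro J hJ
  rw [Finset.mem_filter] at hJ
  exact kap_second hω hs hJ.1 v

theorem kap_right {ω : P → ℕ} (hω : Function.Injective ω) (m : ℕ) (v : List ℕ) :
    kap ω Finset.univ ((W1 ω).card :: m :: v) =
      ∑ U ∈ (idl (AA ω)).filter (fun I => I.card = m ∧ WeakOnly ω I), kap ω (AA ω \ U) v := by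
  rw [K6_first hω, kap_cons]

theorem mem_tightJ {ω : P → ℕ} {m : ℕ} {J : Finset P} : J ∈ tightJ ω m ↔
    J ∈ idl (Finset.univ : Finset P) ∧ (J.card = m ∧ WeakOnly ω J) ∧
      (LJ ω J).card = (W1 ω).card := by
  unfold tightJ
  rw [Finset.mem_filter]

theorem tight_card {ω : P → ℕ} {m : ℕ} {J : Finset P} (hJ : J ∈ tightJ ω m) :
    (UJ ω J).card = m := by
  rw [mem_tightJ] at hJ
  obtain ⟨h1, ⟨h2, h3⟩, h4⟩ := hJ
  have h5 := K6_sub_W1 h1 h3
  rw [LJ_card, Finset.card_sdiff_of_subset h5] at h4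
  have h6 : UJ ω J \ J = UJ ω J := by
    rw [Finset.sdiff_eq_self_iff_disjoint, Finset.disjoint_left]
    intro u hu huJ
    exact W1_not_AA (h5 huJ) (mem_UJ.1 hu).1
  rw [h6] at h4
  have h7 := Finset.card_le_card h5
  omega

theorem UJ_idl (ω : P → ℕ) (J : Finset P) : UJ ω J ∈ idl (AA ω) := by
  rw [mem_idl]
  refine ⟨fun u hu => (mem_UJ.1 hu).1, ?_⟩
  intro x hx y hy hxy
  rw [mem_UJ] at *
  exact ⟨hx, (TT_mono hxy).trans hy.2⟩

theorem tight_weak {ω : P → ℕ} (hω : Function.Injective ω) {m : ℕ} {J : Finset P}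
    (hJ : J ∈ tightJ ω m) : WeakOnly ω (UJ ω J) := by
  rw [mem_tightJ] at hJ
  obtain ⟨h1, ⟨h2, h3⟩, h4⟩ := hJ
  apply (LJ_weak hω J).mono
  intro u hu
  rw [mem_UJ] at hu
  rw [mem_LJ]
  exact ⟨fun h => W1_not_AA (K6_sub_W1 h1 h3 h) hu.1, hu.2⟩

theorem tight_TS {ω : P → ℕ} (hω : Function.Injective ω) (hs : SymW ω Finset.univ) {m : ℕ}
    {J : Finset P} (hJ : J ∈ tightJ ω m) : TS ω (UJ ω J) = J := by
  have hc := tight_card hJ
  rw [mem_tightJ] at hJ
  obtain ⟨h1, ⟨h2, h3⟩, h4⟩ := hJ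
  have h5 : TS ω (UJ ω J) ⊆ J := by
    intro x hx
    rw [mem_TS] at hx
    obtain ⟨u, hu, hxu⟩ := hx
    exact (mem_UJ.1 hu).2 (mem_TT.2 hxu)
  apply Finset.eq_of_subset_of_card_le h5
  have h6 : UJ ω J ⊆ UJ ω (TS ω (UJ ω J)) := by
    intro u hu
    have hu' := mem_UJ.1 hu
    rw [mem_UJ]
    exact ⟨hu'.1, TT_sub_TS hu⟩
  have h7 := Finset.card_le_card h6
  have h8 := hall hω hs (TS_idl ω (UJ ω J))
  omega

theorem tight {ω : P → ℕ} (hω : Function.Injective ω) (hs : SymW ω Finset.univ)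
    {U : Finset P} (hU : U ∈ idl (AA ω)) (hw : WeakOnly ω U) :
    UJ ω (TS ω U) = U ∧ (TS ω U).card = U.card ∧ WeakOnly ω (TS ω U) := by
  obtain ⟨v, hv⟩ : ∃ v : List ℕ, v = List.replicate (AA ω \ U).card 1 := ⟨_, rfl⟩
  have h1 := hs _ _ (List.Perm.swap (W1 ω).card U.card v)
  rw [kap_left hω hs, kap_right hω] at h1
  have hinj : Set.InjOn (UJ ω) (tightJ ω U.card : Set (Finset P)) := by
    intro J hJ J' hJ' h
    rw [← tight_TS hω hs hJ, ← tight_TS hω hs hJ', h]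
  have h2 : (tightJ ω U.card).image (UJ ω) ⊆
      (idl (AA ω)).filter (fun I => I.card = U.card ∧ WeakOnly ω I) := by
    intro V hV
    rw [Finset.mem_image] at hV
    obtain ⟨J, hJ, rfl⟩ := hV
    rw [Finset.mem_filter]
    exact ⟨UJ_idl ω J, tight_card hJ, tight_weak hω hJ⟩
  have h3 : ∑ J ∈ tightJ ω U.card, kap ω (AA ω \ UJ ω J) v =
      ∑ V ∈ (tightJ ω U.card).image (UJ ω), kap ω (AA ω \ V) v := by
    rw [Finset.sum_image hinj]
  rw [h3] at h1
  have h4 : U ∈ (tightJ ω U.card).image (UJ ω) := by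
    by_contra hn
    have h5 : U ∈ (idl (AA ω)).filter (fun I => I.card = U.card ∧ WeakOnly ω I) := by
      rw [Finset.mem_filter]
      exact ⟨hU, rfl, hw⟩
    have h6 : ∑ V ∈ (tightJ ω U.card).image (UJ ω), kap ω (AA ω \ V) v <
        ∑ V ∈ (idl (AA ω)).filter (fun I => I.card = U.card ∧ WeakOnly ω I),
          kap ω (AA ω \ V) v := by
      apply Finset.sum_lt_sum_of_subset h2 h5 hn
      · rw [hv]
        exact K6_lin ω _ _ rfl
      · intro _ _ _
        exact Nat.zero_le _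
    omega
  rw [Finset.mem_image] at h4
  obtain ⟨J, hJ, hJU⟩ := h4
  have h7 := tight_TS hω hs hJ
  rw [hJU] at h7
  rw [h7]
  rw [mem_tightJ] at hJ
  exact ⟨hJU, hJ.2.1.1, hJ.2.1.2⟩

theorem st4 : St4 := fun _ _ _ _ h _ hU hw => (tight h.inj h.sym hU hw).2.1

end Pool.Agent.ST14
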