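import Pool.Agent.ST14.RimStmts
import Pool.Agent.ST14.St2
import Pool.Agent.ST14.St3

/-!
Module Depth: the depth is the same in the `A`-order and in the `C`-order.
-/

set_option autoImplicit false

namespace Pool.Agent.ST14

open scoped Classical

private theorem Depth_not_min {P : Type} [PartialOrder P] {x y : P} (h : x < y) : ¬ IsMin y :=
  fun hm => absurd (hm h.le) (not_le_of_gt h)

private theorem Depth_not_max {P : Type} [PartialOrder P] {x y : P} (h : x < y) : ¬ IsMax x :=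
  fun hm => absurd (hm h.le) (not_le_of_gt h)

private theorem Depth_loc_of {P : Type} [PartialOrder P] {ω : P → ℕ} (Q R : Finset P)
    (h : P → LocSkewOn ω R) (hQ : Q ⊆ R) : LocSkewOn ω Q := by
  by_cases hne : Nonempty P
  · exact (h hne.some).mono hQ
  · have he : ∀ x : P, False := fun x => hne ⟨x⟩
    exact ⟨fun x => (he x).elim, fun x => (he x).elim, fun x => (he x).elim,
      fun x => (he x).elim, fun x => (he x).elim, fun x => (he x).elim⟩

variable {P : Type} [Fintype P] [PartialOrder P] {ω : P → ℕ} {N S : P → P}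

private theorem Depth_AA_not_min {u : P} (h : u ∈ AA ω) : ¬ IsMin u := by
  obtain ⟨x, hx⟩ := mem_AA.1 h
  exact Depth_not_min hx.lt

private theorem Depth_AA {x u : P} (h : SCov ω x u) : u ∈ AA ω :=
  mem_AA.2 ⟨x, LL_of_sCov le_rfl h le_rfl⟩

private theorem Depth_N_of_min (hn : Net ω N S) {x u : P} (h : SCov ω x u) (hx : ¬ IsMin x) :
    x = N u := by
  rcases hn.extra x u h with h1 | h1
  · exact h1
  · exact absurd h1.1 hx

private theorem Depth_N_of_max (hn : Net ω N S) {x u : P} (h : SCov ω x u) (hu : ¬ IsMax u) :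
    x = N u := by
  rcases hn.extra x u h with h1 | h1
  · exact h1
  · exact absurd h1.2.1 hu

private theorem Depth_inj (hn : Net ω N S) {u v : P} (hu : u ∈ AA ω) (hv : v ∈ AA ω)
    (h : N u = N v) : u = v := by
  rw [← hn.SN u hu, ← hn.SN v hv, h]

/-- An element of `Q.image N` which is `N u` with `u ∈ AA`: `u ∈ Q`. -/
private theorem Depth_mem (hn : Net ω N S) {Q : Finset P} (hQ : Q ⊆ AA ω) {u : P}
    (hu : u ∈ AA ω) (h : N u ∈ Q.image N) : u ∈ Q := by
  rw [Finset.mem_image] at h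
  obtain ⟨t, ht, h1⟩ := h
  rw [← Depth_inj hn (hQ ht) hu h1]
  exact ht

private theorem Depth_fwd (hm : Mini ω) (hn : Net ω N S) {Q : Finset P} (hQ : Q ⊆ AA ω)
    {w e : P} (h : NW ω Q w e) : NW ω (Q.image N) (N w) (N e) := by
  obtain ⟨hw, he, ⟨g, hg, h1, h2⟩, f, hf, h3, h4⟩ := h
  have hge : g = N e := Depth_N_of_min hn h2 (Depth_not_min h1.1.lt)
  have hwf : w = N f := Depth_N_of_max hn h3 (Depth_not_max h4.1.lt)
  refine ⟨Finset.mem_image_of_mem N hw, Finset.mem_image_of_mem N he, ?_, ?_⟩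
  · refine ⟨N g, Finset.mem_image_of_mem N hg, ?_, ?_⟩
    · obtain ⟨c, hc1, hc2⟩ := (st2 P ω hm (N w) w g
        (fun h => Depth_not_max h2.1.lt h.2)).2 (hn.N_cov w (hQ hw)) h1
      have hc : c = N g := Depth_N_of_min hn hc2 (Depth_not_min hc1.1.lt)
      rw [← hc]
      exact hc1
    · rw [← hge]
      exact hn.N_cov g (hQ hg)
  · refine ⟨N f, Finset.mem_image_of_mem N hf, ?_, ?_⟩
    · rw [← hwf]
      exact hn.N_cov w (hQ hw)
    · rw [← hwf, ← hge]
      exact h1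

private theorem Depth_bwd (hm : Mini ω) (hn : Net ω N S) {Q : Finset P} (hQ : Q ⊆ AA ω)
    {z e : P} (he : e ∈ Q) (h : NW ω (Q.image N) z (N e)) :
    ∃ w, z = N w ∧ NW ω Q w e := by
  obtain ⟨hz, hNe, ⟨g', hg', h1, h2⟩, f', hf', h3, h4⟩ := h
  have hg2 : g' = N (N e) := Depth_N_of_min hn h2 (Depth_not_min h1.1.lt)
  have hNQ : N e ∈ Q := by
    apply Depth_mem hn hQ (Depth_AA h2)
    rw [← hg2]
    exact hg'
  have hzf : z = N f' := Depth_N_of_max hn h3 (Depth_not_max h4.1.lt)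
  have hfQ : f' ∈ Q := by
    apply Depth_mem hn hQ (Depth_AA h3)
    rw [← hzf]
    exact hz
  have hfmin : ¬ IsMin f' := Depth_not_min h3.1.lt
  have h5 : SCov ω (N e) e := hn.N_cov e (hQ he)
  obtain ⟨c, hc1, hc2⟩ := (st2 P ω hm f' (N e) e (fun h => hfmin h.1)).1 h4 h5
  have hfc : f' = N c := Depth_N_of_min hn hc1 hfmin
  have hcQ : c ∈ Q := by
    apply Depth_mem hn hQ (Depth_AA hc1)
    rw [← hfc]
    exact hf'
  exact ⟨f', hzf, hfQ, he, ⟨N e, hNQ, h4, h5⟩, c, hcQ, hc1, hc2⟩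

private theorem Depth_rtg_bwd (hm : Mini ω) (hn : Net ω N S) {Q : Finset P} (hQ : Q ⊆ AA ω)
    {z e : P} (he : e ∈ Q) (h : Relation.ReflTransGen (NW ω (Q.image N)) z (N e)) :
    ∃ x ∈ Q, z = N x ∧ Relation.ReflTransGen (NW ω Q) x e := by
  induction h using Relation.ReflTransGen.head_induction_on with
  | refl => exact ⟨e, he, rfl, Relation.ReflTransGen.refl⟩
  | head h1 _ ih =>
    obtain ⟨x, hx, h2, h3⟩ := ih
    rw [h2] at h1
    obtain ⟨w, hw, h4⟩ := Depth_bwd hm hn hQ hx h1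
    exact ⟨w, h4.1, hw, Relation.ReflTransGen.head h4 h3⟩

private theorem Depth_dep (hm : Mini ω) (hn : Net ω N S) {Q : Finset P} (hQ : Q ⊆ AA ω)
    {e : P} (he : e ∈ Q) : dep ω (Q.image N) (N e) = dep ω Q e := by
  unfold dep
  have h1 : (Q.image N).filter (fun x => Relation.ReflTransGen (NW ω (Q.image N)) x (N e)) =
      (Q.filter (fun x => Relation.ReflTransGen (NW ω Q) x e)).image N := by
    ext z
    constructor
    · intro h1
      obtain ⟨x, hx, h3, h4⟩ := Depth_rtg_bwd hm hn hQ he (Finset.mem_filter.1 h1).2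
      exact Finset.mem_image.2 ⟨x, Finset.mem_filter.2 ⟨hx, h4⟩, h3.symm⟩
    · intro h1
      obtain ⟨x, hx, h2⟩ := Finset.mem_image.1 h1
      rw [Finset.mem_filter] at hx
      rw [← h2]
      exact Finset.mem_filter.2 ⟨Finset.mem_image_of_mem N hx.1,
        Relation.ReflTransGen.lift N (fun a b hab => Depth_fwd hm hn hQ hab) _ _ hx.2⟩
  rw [h1]
  apply Finset.card_image_of_injOn
  intro x hx y hy hxy
  rw [Finset.mem_coe, Finset.mem_filter] at hx hy
  exact Depth_inj hn (hQ hx.1) (hQ hy.1) hxy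

private theorem Depth_sCov (hn : Net ω N S) {Q : Finset P} (hQ : Q ⊆ AA ω) {x y : P}
    (hx : x ∈ Q) (hy : y ∈ Q) : SCov ω (N x) (N y) ↔ SCov ω x y := by
  constructor
  · intro h
    have h1 : SCov ω (N y) y := hn.N_cov y (hQ hy)
    have h2 : N x = N (N y) := Depth_N_of_max hn h (Depth_not_max h1.1.lt)
    rw [Depth_inj hn (hQ hx) (Depth_AA h) h2]
    exact h1
  · intro h
    have h1 : x = N y := Depth_N_of_min hn h (Depth_AA_not_min (hQ hx))
    rw [← h1]
    exact hn.N_cov x (hQ hx)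

private theorem Depth_eps (hm : Mini ω) (hn : Net ω N S) {Q : Finset P} (hQ : Q ⊆ AA ω) :
    eps ω (Q.image N) = eps ω Q := by
  unfold eps
  congr 1
  have h1 : ((Q.image N) ×ˢ (Q.image N)).filter (fun p => SCov ω p.1 p.2 ∧
      dep ω (Q.image N) p.1 = dep ω (Q.image N) p.2) =
      ((Q ×ˢ Q).filter (fun p => SCov ω p.1 p.2 ∧ dep ω Q p.1 = dep ω Q p.2)).image
        (fun p => (N p.1, N p.2)) := by
    ext p
    rw [Finset.mem_filter, Finset.mem_image, Finset.mem_product, Finset.mem_image,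
      Finset.mem_image]
    constructor
    · rintro ⟨⟨⟨x, hx, h2⟩, y, hy, h3⟩, h4, h5⟩
      rw [← h2, ← h3] at h4 h5
      rw [Depth_dep hm hn hQ hx, Depth_dep hm hn hQ hy] at h5
      refine ⟨(x, y), ?_, ?_⟩
      · rw [Finset.mem_filter, Finset.mem_product]
        exact ⟨⟨hx, hy⟩, (Depth_sCov hn hQ hx hy).1 h4, h5⟩
      · exact Prod.ext h2 h3
    · rintro ⟨⟨x, y⟩, h2, rfl⟩
      rw [Finset.mem_filter, Finset.mem_product] at h2
      obtain ⟨⟨hx, hy⟩, h3, h4⟩ := h2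
      refine ⟨⟨⟨x, hx, rfl⟩, y, hy, rfl⟩, (Depth_sCov hn hQ hx hy).2 h3, ?_⟩
      show dep ω (Q.image N) (N x) = dep ω (Q.image N) (N y)
      rw [Depth_dep hm hn hQ hx, Depth_dep hm hn hQ hy]
      exact h4
  rw [h1]
  apply Finset.card_image_of_injOn
  intro p hp q hq hpq
  rw [Finset.mem_coe, Finset.mem_filter, Finset.mem_product] at hp hq
  have h2 : (N p.1, N p.2) = (N q.1, N q.2) := hpq
  rw [Prod.mk.injEq] at h2
  exact Prod.ext (Depth_inj hn (hQ hp.1.1) (hQ hq.1.1) h2.1)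
    (Depth_inj hn (hQ hp.1.2) (hQ hq.1.2) h2.2)

private theorem Depth_skw (hm : Mini ω) {V W : Finset P} (hV : V ∈ idl (AA ω))
    (hW : W ∈ idl (AA ω)) : Skw ω (W \ V) := by
  rw [mem_idl] at hV hW
  refine ⟨?_, Depth_loc_of _ (AA ω) hm.locAA
    (fun x hx => hW.1 (Finset.mem_sdiff.1 hx).1)⟩
  intro x hx z hz y hxy hyz
  rw [Finset.mem_sdiff] at hx hz ⊢
  have hy : y ∈ AA ω := AA_cvx ω x (hW.1 hx.1) z (hW.1 hz.1) y hxy hyz
  exact ⟨hW.2 y hy z hz.1 hyz, fun h => hx.2 (hV.2 x (hW.1 hx.1) y h hxy)⟩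

private theorem Depth_skw_image (hm : Mini ω) (hn : Net ω N S) {V W : Finset P}
    (hV : V ∈ idl (AA ω)) (hW : W ∈ idl (AA ω)) (hV' : TS ω V = V.image N)
    (hW' : TS ω W = W.image N) : Skw ω ((W \ V).image N) := by
  rw [mem_idl] at hV hW
  have h1 : (W \ V).image N = TS ω W \ TS ω V := by
    rw [hV', hW']
    ext z
    rw [Finset.mem_sdiff, Finset.mem_image, Finset.mem_image, Finset.mem_image]
    constructor
    · rintro ⟨x, hx, h2⟩
      rw [Finset.mem_sdiff] at hx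
      refine ⟨⟨x, hx.1, h2⟩, ?_⟩
      rintro ⟨y, hy, h3⟩
      apply hx.2
      rw [Depth_inj hn (hW.1 hx.1) (hV.1 hy) (h2.trans h3.symm)]
      exact hy
    · rintro ⟨⟨x, hx, h2⟩, h3⟩
      refine ⟨x, Finset.mem_sdiff.2 ⟨hx, fun h => h3 ⟨x, h, h2⟩⟩, h2⟩
  rw [h1]
  refine ⟨?_, Depth_loc_of _ (CC ω) hm.locCC ?_⟩
  · intro x hx z hz y hxy hyz
    rw [Finset.mem_sdiff] at hx hz ⊢
    refine ⟨?_, ?_⟩
    · obtain ⟨u, hu, h2⟩ := mem_TS.1 hz.1
      exact mem_TS.2 ⟨u, hu, h2.mono hyz le_rfl⟩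
    · intro h
      apply hx.2
      obtain ⟨u, hu, h2⟩ := mem_TS.1 h
      exact mem_TS.2 ⟨u, hu, h2.mono hxy le_rfl⟩
  · intro x hx
    rw [Finset.mem_sdiff] at hx
    obtain ⟨u, _, h2⟩ := mem_TS.1 hx.1
    exact mem_CC.2 ⟨u, h2⟩

theorem depthStmt : DepthStmt := by
  intro P _ _ ω hm N S hn V hV W hW _
  unfold good at hV hW
  rw [Finset.mem_filter] at hV hW
  have hQ : W \ V ⊆ AA ω := by
    intro x hx
    exact (mem_idl.1 hW.1).1 (Finset.mem_sdiff.1 hx).1
  refine ⟨Depth_skw hm hV.1 hW.1, Depth_skw_image hm hn hV.1 hW.1 hV.2 hW.2, ?_, ?_,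
    Depth_eps hm hn hQ⟩
  · intro e _ w h
    exact Depth_fwd hm hn hQ h
  · intro e he z h
    exact Depth_bwd hm hn hQ he h

end Pool.Agent.ST14
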