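import Pool.Agent.ST14.Kap1
import Pool.Agent.ST14.StrStmts2

/-!
Comparison of `kap` for two convex sets (module KapMono).
-/

set_option autoImplicit false

namespace Pool.Agent.ST14

open scoped Classical

set_option linter.unusedSectionVars false

namespace KM

variable {P : Type} [PartialOrder P] {ω : P → ℕ} {Q Q' I : Finset P} {φ : P → P}

/-- the hypotheses of `KapMono` -/
structure Cmp (ω : P → ℕ) (Q Q' : Finset P) (φ : P → P) : Prop where
  cQ : Cvx Q
  bij : Set.BijOn φ (Q' : Set P) (Q : Set P)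
  mono : ∀ x ∈ Q', ∀ x' ∈ Q', x < x' → φ x < φ x' ∧ (ω x' < ω x → LL ω (φ x) (φ x'))

/-- the pull back of a subset -/
noncomputable def pb (Q' : Finset P) (φ : P → P) (I : Finset P) : Finset P :=
  Q'.filter fun x => φ x ∈ I

theorem mem_pb {x : P} : x ∈ pb Q' φ I ↔ x ∈ Q' ∧ φ x ∈ I := by
  unfold pb
  rw [Finset.mem_filter]

theorem cvx_idl (hQ : Cvx Q) (hI : I ∈ idl Q) : Cvx I := by
  rw [mem_idl] at hI
  intro x hx z hz y hxy hyz
  exact hI.2 y (hQ x (hI.1 hx) z (hI.1 hz) y hxy hyz) z hz hyz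

theorem cvx_sdiff (hQ : Cvx Q) (hI : I ∈ idl Q) : Cvx (Q \ I) := by
  rw [mem_idl] at hI
  intro x hx z hz y hxy hyz
  rw [Finset.mem_sdiff] at *
  refine ⟨hQ x hx.1 z hz.1 y hxy hyz, fun hy => hx.2 (hI.2 x hx.1 y hy hxy)⟩

theorem pb_bij (h : Cmp ω Q Q' φ) (hI : I ⊆ Q) :
    Set.BijOn φ (pb Q' φ I : Set P) (I : Set P) := by
  refine ⟨?_, ?_, ?_⟩
  · intro x hx
    exact (mem_pb.1 (Finset.mem_coe.1 hx)).2
  · intro x hx y hy hxy
    exact h.bij.2.1 (mem_pb.1 (Finset.mem_coe.1 hx)).1 (mem_pb.1 (Finset.mem_coe.1 hy)).1 hxy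
  · intro z hz
    obtain ⟨x, hx, rfl⟩ := h.bij.2.2 (hI hz)
    exact ⟨x, Finset.mem_coe.2 (mem_pb.2 ⟨hx, hz⟩), rfl⟩

theorem card_eq (h : Cmp ω Q Q' φ) : Q'.card = Q.card := by
  have h1 : Q'.image φ = Q := by
    apply Finset.coe_injective
    rw [Finset.coe_image]
    exact h.bij.image_eq
  rw [← h1, Finset.card_image_of_injOn h.bij.2.1]

theorem pb_inj (h : Cmp ω Q Q' φ) {J : Finset P} (hI : I ⊆ Q) (hJ : J ⊆ Q)
    (he : pb Q' φ I = pb Q' φ J) : I = J := by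
  have h1 := (pb_bij h hI).image_eq
  have h2 := (pb_bij h hJ).image_eq
  rw [he, h2] at h1
  exact Finset.coe_injective h1.symm

theorem pb_mem_idl (h : Cmp ω Q Q' φ) (hI : I ∈ idl Q) : pb Q' φ I ∈ idl Q' := by
  rw [mem_idl] at *
  refine ⟨fun x hx => (mem_pb.1 hx).1, ?_⟩
  intro x hx y hy hxy
  rw [mem_pb] at *
  refine ⟨hx, ?_⟩
  rcases hxy.eq_or_lt with rfl | hlt
  · exact hy.2
  · exact hI.2 _ (h.bij.1 hx) _ hy.2 (h.mono x hx y hy.1 hlt).1.le

theorem pb_sdiff_bij (h : Cmp ω Q Q' φ) :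
    Set.BijOn φ ((Q' \ pb Q' φ I : Finset P) : Set P) ((Q \ I : Finset P) : Set P) := by
  refine ⟨?_, ?_, ?_⟩
  · intro x hx
    rw [Finset.mem_coe, Finset.mem_sdiff, mem_pb] at hx
    rw [Finset.mem_coe, Finset.mem_sdiff]
    exact ⟨h.bij.1 hx.1, fun hI => hx.2 ⟨hx.1, hI⟩⟩
  · intro x hx y hy hxy
    rw [Finset.mem_coe, Finset.mem_sdiff] at hx hy
    exact h.bij.2.1 hx.1 hy.1 hxy
  · intro z hz
    rw [Finset.mem_coe, Finset.mem_sdiff] at hz
    obtain ⟨x, hx, rfl⟩ := h.bij.2.2 hz.1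
    refine ⟨x, ?_, rfl⟩
    rw [Finset.mem_coe, Finset.mem_sdiff, mem_pb]
    exact ⟨hx, fun h' => hz.2 h'.2⟩

theorem cmp_pb (h : Cmp ω Q Q' φ) (hI : I ∈ idl Q) : Cmp ω I (pb Q' φ I) φ where
  cQ := cvx_idl h.cQ hI
  bij := pb_bij h (subset_of_mem_idl hI)
  mono x hx y hy hxy := h.mono x (mem_pb.1 hx).1 y (mem_pb.1 hy).1 hxy

theorem cmp_sdiff (h : Cmp ω Q Q' φ) (hI : I ∈ idl Q) : Cmp ω (Q \ I) (Q' \ pb Q' φ I) φ where
  cQ := cvx_sdiff h.cQ hI
  bij := pb_sdiff_bij h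
  mono x hx y hy hxy := h.mono x (Finset.mem_sdiff.1 hx).1 y (Finset.mem_sdiff.1 hy).1 hxy

theorem pb_weak (hω : Function.Injective ω) (h : Cmp ω Q Q' φ) (hI : I ∈ idl Q)
    (hw : WeakOnly ω I) : WeakOnly ω (pb Q' φ I) := by
  intro x hx y hy hxy
  rw [mem_pb] at hx hy
  rcases lt_trichotomy (ω x) (ω y) with h1 | h1 | h1
  · exact h1
  · exact absurd (hω h1) hxy.ne
  · exfalso
    obtain ⟨p, q, hp, hpq, hq, hlt⟩ := (h.mono x hx.1 y hy.1 hxy).2 h1
    rw [mem_idl] at hI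
    have hqI : q ∈ I := hI.2 q (h.cQ _ (hI.1 hx.2) _ (hI.1 hy.2) q (hp.trans hpq.le) hq) _ hy.2 hq
    have hpI : p ∈ I := hI.2 p (h.cQ _ (hI.1 hx.2) _ (hI.1 hy.2) p hp (hpq.le.trans hq)) _ hy.2
      (hpq.le.trans hq)
    have := hw p hpI q hqI hpq
    omega

theorem kap_le (hω : Function.Injective ω) (w : List ℕ) : ∀ (Q Q' : Finset P),
    Cmp ω Q Q' φ → kap ω Q w ≤ kap ω Q' w := by
  induction w with
  | nil =>
    intro Q Q' h
    rw [kap_nil, kap_nil]
    by_cases hQ : Q = ∅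
    · have : Q' = ∅ := by
        rw [← Finset.card_eq_zero, card_eq h, hQ, Finset.card_empty]
      rw [if_pos hQ, if_pos this]
    · rw [if_neg hQ]
      exact Nat.zero_le _
  | cons a w ih =>
    intro Q Q' h
    rw [kap_cons, kap_cons]
    set F := (idl Q).filter (fun I => I.card = a ∧ WeakOnly ω I) with hF
    set F' := (idl Q').filter (fun I => I.card = a ∧ WeakOnly ω I) with hF'
    have hinj : Set.InjOn (pb Q' φ) (F : Set (Finset P)) := by
      intro I hI J hJ he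
      rw [Finset.mem_coe, hF, Finset.mem_filter] at hI hJ
      exact pb_inj h (subset_of_mem_idl hI.1) (subset_of_mem_idl hJ.1) he
    have hsub : F.image (pb Q' φ) ⊆ F' := by
      intro J hJ
      obtain ⟨I, hI, rfl⟩ := Finset.mem_image.1 hJ
      rw [hF, Finset.mem_filter] at hI
      rw [hF', Finset.mem_filter]
      exact ⟨pb_mem_idl h hI.1, (card_eq (cmp_pb h hI.1)).trans hI.2.1, pb_weak hω h hI.1 hI.2.2⟩
    calc ∑ I ∈ F, kap ω (Q \ I) w ≤ ∑ I ∈ F, kap ω (Q' \ pb Q' φ I) w := by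
          refine Finset.sum_le_sum fun I hI => ?_
          rw [hF, Finset.mem_filter] at hI
          exact ih _ _ (cmp_sdiff h hI.1)
      _ = ∑ J ∈ F.image (pb Q' φ), kap ω (Q' \ J) w := by rw [Finset.sum_image hinj]
      _ ≤ ∑ J ∈ F', kap ω (Q' \ J) w := Finset.sum_le_sum_of_subset hsub

theorem kap_ones_pos (ω : P → ℕ) : ∀ (n : ℕ) (K : Finset P), K.card = n →
    0 < kap ω K (List.replicate n 1) := by
  intro n
  induction n with
  | zero =>
    intro K hK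
    rw [Finset.card_eq_zero] at hK
    rw [List.replicate_zero, kap_nil, if_pos hK]
    exact Nat.one_pos
  | succ n ih =>
    intro K hK
    have hne : K.Nonempty := Finset.card_pos.1 (by omega)
    obtain ⟨m, hm⟩ := K.exists_minimal hne
    have hidl : ({m} : Finset P) ∈ idl K := by
      rw [mem_idl]
      refine ⟨Finset.singleton_subset_iff.2 hm.1, ?_⟩
      intro x hx y hy hxy
      rw [Finset.mem_singleton] at hy ⊢
      subst hy
      exact le_antisymm hxy (hm.2 hx hxy)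
    have hmem : ({m} : Finset P) ∈ (idl K).filter (fun I => I.card = 1 ∧ WeakOnly ω I) := by
      rw [Finset.mem_filter]
      refine ⟨hidl, Finset.card_singleton m, ?_⟩
      intro x hx y hy hxy
      rw [Finset.mem_singleton] at hx hy
      subst hx; subst hy
      exact absurd hxy (lt_irrefl _)
    rw [List.replicate_succ, kap_cons]
    refine lt_of_lt_of_le (ih (K \ {m}) ?_)
      (Finset.single_le_sum (f := fun I => kap ω (K \ I) (List.replicate n 1))
        (fun _ _ => Nat.zero_le _) hmem)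
    rw [Finset.card_sdiff_of_subset (Finset.singleton_subset_iff.2 hm.1), Finset.card_singleton]
    omega

theorem kap_lt (hω : Function.Injective ω) (h : Cmp ω Q Q' φ) {x x' : P} (hx : x ∈ Q')
    (hx' : x' ∈ Q') (hlt : φ x < φ x') (hn : ¬ x < x') :
    kap ω Q (List.replicate Q.card 1) < kap ω Q' (List.replicate Q.card 1) := by
  set I0 : Finset P := Q'.filter fun z => z ≤ x' with hI0
  have hI0l : I0 ∈ idl Q' := by
    rw [mem_idl]
    refine ⟨Finset.filter_subset _ _, ?_⟩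
    intro z hz y hy hzy
    rw [hI0, Finset.mem_filter] at *
    exact ⟨hz, hzy.trans hy.2⟩
  have hcard : I0.card + (Q' \ I0).card = Q.card := by
    rw [← card_eq h, Finset.card_sdiff_of_subset (subset_of_mem_idl hI0l)]
    have := Finset.card_le_card (subset_of_mem_idl hI0l)
    omega
  have hxI : x ∉ I0 := by
    intro hxI
    rw [hI0, Finset.mem_filter] at hxI
    rcases hxI.2.eq_or_lt with he | hl
    · rw [he] at hlt; exact lt_irrefl _ hlt
    · exact hn hl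
  have hxI' : x' ∈ I0 := by
    rw [hI0, Finset.mem_filter]
    exact ⟨hx', le_rfl⟩
  rw [← hcard, List.replicate_add, kap_append, kap_append]
  set w := List.replicate I0.card 1
  set w' := List.replicate (Q' \ I0).card 1
  have hinj : Set.InjOn (pb Q' φ) (idl Q : Set (Finset P)) := by
    intro I hI J hJ he
    exact pb_inj h (subset_of_mem_idl (Finset.mem_coe.1 hI))
      (subset_of_mem_idl (Finset.mem_coe.1 hJ)) he
  have hnot : I0 ∉ (idl Q).image (pb Q' φ) := by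
    intro hmem
    obtain ⟨I, hI, he⟩ := Finset.mem_image.1 hmem
    rw [← he, mem_pb] at hxI hxI'
    apply hxI
    exact ⟨hx, (mem_idl.1 hI).2 _ (h.bij.1 hx) _ hxI'.2 hlt.le⟩
  have hsub : (idl Q).image (pb Q' φ) ⊆ (idl Q').erase I0 := by
    intro J hJ
    rw [Finset.mem_erase]
    refine ⟨fun he => hnot (by rw [← he]; exact hJ), ?_⟩
    obtain ⟨I, hI, rfl⟩ := Finset.mem_image.1 hJ
    exact pb_mem_idl h hI
  have hpos : 0 < kap ω I0 w * kap ω (Q' \ I0) w' :=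
    Nat.mul_pos (kap_ones_pos ω _ I0 rfl) (kap_ones_pos ω _ (Q' \ I0) rfl)
  calc ∑ I ∈ idl Q, kap ω I w * kap ω (Q \ I) w'
      ≤ ∑ I ∈ idl Q, kap ω (pb Q' φ I) w * kap ω (Q' \ pb Q' φ I) w' := by
        refine Finset.sum_le_sum fun I hI => ?_
        exact Nat.mul_le_mul (kap_le hω w _ _ (cmp_pb h hI)) (kap_le hω w' _ _ (cmp_sdiff h hI))
    _ = ∑ J ∈ (idl Q).image (pb Q' φ), kap ω J w * kap ω (Q' \ J) w' := by
        rw [Finset.sum_image hinj]
    _ ≤ ∑ J ∈ (idl Q').erase I0, kap ω J w * kap ω (Q' \ J) w' :=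
        Finset.sum_le_sum_of_subset hsub
    _ < ∑ J ∈ (idl Q').erase I0, kap ω J w * kap ω (Q' \ J) w' +
          kap ω I0 w * kap ω (Q' \ I0) w' := by omega
    _ = ∑ J ∈ idl Q', kap ω J w * kap ω (Q' \ J) w' := Finset.sum_erase_add _ _ hI0l

end KM

/-- Comparison of two convex sets. -/
theorem kapMono_inj (P : Type) [PartialOrder P] (ω : P → ℕ) (hω : Function.Injective ω)
    (Q Q' : Finset P) (φ : P → P) (hQ : Cvx Q) (_hQ' : Cvx Q')
    (hb : Set.BijOn φ (Q' : Set P) (Q : Set P))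
    (hm : ∀ x ∈ Q', ∀ x' ∈ Q', x < x' → φ x < φ x' ∧ (ω x' < ω x → LL ω (φ x) (φ x'))) :
    (∀ w : List ℕ, kap ω Q w ≤ kap ω Q' w) ∧
      ((∃ x ∈ Q', ∃ x' ∈ Q', φ x < φ x' ∧ ¬ x < x') →
        kap ω Q (List.replicate Q.card 1) < kap ω Q' (List.replicate Q.card 1)) := by
  have h : KM.Cmp ω Q Q' φ := ⟨hQ, hb, hm⟩
  refine ⟨fun w => KM.kap_le hω w Q Q' h, ?_⟩
  rintro ⟨x, hx, x', hx', h1, h2⟩
  exact KM.kap_lt hω h hx hx' h1 h2

end Pool.Agent.ST14
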