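import Pool.Agent.ST14.RimStmts
import Pool.Agent.ST14.St1
import Pool.Agent.ST14.KapMono

/-!
`FactStmt`: the facts given by the identity (STAR) at the levels `|R|` and `|R| - 1`
(section 0 of 49bc13_h58.md).
-/

set_option autoImplicit false

namespace Pool.Agent.ST14

open scoped Classical

section one

variable {P : Type} [PartialOrder P]

/-- The minimal elements of `Q`. -/
noncomputable def factMin (Q : Finset P) : Finset P := Q.filter fun e => ∀ x ∈ Q, ¬ x < e

theorem fact_mem_min {Q : Finset P} {e : P} : e ∈ factMin Q ↔ e ∈ Q ∧ ∀ x ∈ Q, ¬ x < e := by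
  unfold factMin
  rw [Finset.mem_filter]

theorem fact_kap_cons (ω : P → ℕ) (Q : Finset P) (w : List ℕ) :
    kap ω Q (1 :: w) = ∑ e ∈ factMin Q, kap ω (Q.erase e) w := by
  rw [kap_cons]
  have h1 : (idl Q).filter (fun I => I.card = 1 ∧ WeakOnly ω I) =
      (factMin Q).image (fun e => ({e} : Finset P)) := by
    ext I
    rw [Finset.mem_filter, Finset.mem_image, mem_idl, Finset.card_eq_one]
    constructor
    · rintro ⟨⟨h1, h2⟩, ⟨e, rfl⟩, _⟩
      have he : e ∈ Q := h1 (Finset.mem_singleton_self e)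
      refine ⟨e, ?_, rfl⟩
      rw [fact_mem_min]
      refine ⟨he, fun x hx hxe => ?_⟩
      have := h2 x hx e (Finset.mem_singleton_self e) hxe.le
      rw [Finset.mem_singleton] at this
      exact absurd this hxe.ne
    · rintro ⟨e, he, rfl⟩
      rw [fact_mem_min] at he
      refine ⟨⟨Finset.singleton_subset_iff.2 he.1, ?_⟩, ⟨e, rfl⟩, ?_⟩
      · intro x hx y hy hxy
        rw [Finset.mem_singleton] at hy ⊢
        subst hy
        exact (eq_or_lt_of_le hxy).resolve_right (he.2 x hx)
      · intro x hx y hy hxy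
        rw [Finset.mem_singleton] at hx hy
        subst hx
        subst hy
        exact absurd hxy (lt_irrefl _)
  rw [h1, Finset.sum_image (by intro x _ y _ h; exact Finset.singleton_injective h)]
  apply Finset.sum_congr rfl
  intro e _
  rw [Finset.sdiff_singleton_eq_erase]

theorem fact_kap_congr (ω ω' : P → ℕ) : ∀ (k : ℕ) (Q : Finset P),
    kap ω Q (List.replicate k 1) = kap ω' Q (List.replicate k 1) := by
  intro k
  induction k with
  | zero =>
    intro Q
    rw [List.replicate_zero, kap_nil, kap_nil]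
  | succ k ih =>
    intro Q
    rw [List.replicate_succ, fact_kap_cons, fact_kap_cons]
    exact Finset.sum_congr rfl fun e _ => ih _

theorem fact_iso1 (ω : P → ℕ) : ∀ (n : ℕ) (Q : Finset P) (x : P), x ∈ Q → Q.card = n + 1 →
    (∀ y ∈ Q, ¬ x < y ∧ ¬ y < x) →
    kap ω Q (List.replicate (n + 1) 1) = (n + 1) * kap ω (Q.erase x) (List.replicate n 1) := by
  intro n
  induction n with
  | zero =>
    intro Q x hx hc hi
    have h1 : Q = {x} := by
      obtain ⟨z, rfl⟩ := Finset.card_eq_one.1 hc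
      rw [Finset.mem_singleton] at hx
      rw [hx]
    subst h1
    rw [List.replicate_succ, fact_kap_cons]
    have h2 : factMin ({x} : Finset P) = {x} := by
      ext y
      rw [fact_mem_min, Finset.mem_singleton]
      constructor
      · exact fun h => h.1
      · rintro rfl
        refine ⟨rfl, fun z hz => ?_⟩
        rw [Finset.mem_singleton] at hz
        subst hz
        exact lt_irrefl _
    rw [h2, Finset.sum_singleton]
    ring
  | succ n ih =>
    intro Q x hx hc hi
    rw [List.replicate_succ, fact_kap_cons]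
    have hxm : x ∈ factMin Q := by
      rw [fact_mem_min]
      exact ⟨hx, fun y hy => (hi y hy).2⟩
    rw [← Finset.add_sum_erase _ _ hxm]
    have h1 : (factMin Q).erase x = factMin (Q.erase x) := by
      ext e
      rw [Finset.mem_erase, fact_mem_min, fact_mem_min, Finset.mem_erase]
      constructor
      · rintro ⟨h1, h2, h3⟩
        exact ⟨⟨h1, h2⟩, fun y hy => h3 y (Finset.mem_of_mem_erase hy)⟩
      · rintro ⟨⟨h1, h2⟩, h3⟩
        refine ⟨h1, h2, fun y hy => ?_⟩
        by_cases hyx : y = x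
        · subst hyx
          exact (hi e h2).1
        · exact h3 y (Finset.mem_erase.2 ⟨hyx, hy⟩)
    have h2 : ∀ e ∈ (factMin Q).erase x, kap ω (Q.erase e) (List.replicate (n + 1) 1) =
        (n + 1) * kap ω ((Q.erase x).erase e) (List.replicate n 1) := by
      intro e he
      rw [Finset.mem_erase, fact_mem_min] at he
      rw [Finset.erase_right_comm]
      apply ih
      · exact Finset.mem_erase.2 ⟨fun h => he.1 h.symm, hx⟩
      · rw [Finset.card_erase_of_mem he.2.1, hc]
        omega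
      · intro y hy
        exact hi y (Finset.mem_of_mem_erase hy)
    rw [Finset.sum_congr rfl h2, h1, ← Finset.mul_sum, ← fact_kap_cons, ← List.replicate_succ]
    ring

theorem fact_iso (ω : P → ℕ) (D : Finset P) : ∀ Q : Finset P, D ⊆ Q →
    (∀ x ∈ D, ∀ y ∈ Q, ¬ x < y ∧ ¬ y < x) →
    kap ω Q (List.replicate Q.card 1) * (Q \ D).card.factorial =
      Q.card.factorial * kap ω (Q \ D) (List.replicate (Q \ D).card 1) := by
  induction D using Finset.induction_on with
  | empty =>
    intro Q _ _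
    rw [Finset.sdiff_empty, mul_comm]
  | insert x D hxD ih =>
    intro Q hDQ hi
    have hx : x ∈ Q := hDQ (Finset.mem_insert_self x D)
    have hc : Q.card = (Q.erase x).card + 1 := by
      rw [Finset.card_erase_of_mem hx]
      have := Finset.card_pos.2 ⟨x, hx⟩
      omega
    have h1 : Q \ insert x D = (Q.erase x) \ D := by
      ext y
      simp only [Finset.mem_sdiff, Finset.mem_insert, Finset.mem_erase, not_or]
      tauto
    have h2 := ih (Q.erase x) (fun y hy => Finset.mem_erase.2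
      ⟨fun h => hxD (h ▸ hy), hDQ (Finset.mem_insert_of_mem hy)⟩)
      (fun z hz y hy => hi z (Finset.mem_insert_of_mem hz) y (Finset.mem_of_mem_erase hy))
    have h3 := fact_iso1 ω (Q.erase x).card Q x hx hc (hi x (Finset.mem_insert_self x D))
    rw [h1, hc, h3, Nat.factorial_succ, mul_assoc, h2]
    ring

theorem fact_iso_eq (ω : P → ℕ) {Q Q' D D' : Finset P} (hD : D ⊆ Q) (hD' : D' ⊆ Q')
    (hi : ∀ x ∈ D, ∀ y ∈ Q, ¬ x < y ∧ ¬ y < x) (hi' : ∀ x ∈ D', ∀ y ∈ Q', ¬ x < y ∧ ¬ y < x)
    (hc : Q.card = Q'.card) (hs : Q \ D = Q' \ D') :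
    kap ω Q (List.replicate Q.card 1) = kap ω Q' (List.replicate Q'.card 1) := by
  have h1 := fact_iso ω D Q hD hi
  have h2 := fact_iso ω D' Q' hD' hi'
  rw [hs] at h1
  rw [← hc] at h2 ⊢
  rw [← h2] at h1
  exact Nat.eq_of_mul_eq_mul_right (Nat.factorial_pos _) h1

end one

section two

variable {P : Type} [Fintype P] [PartialOrder P]

/-- `R`: the elements such that nothing above them starts a ws chain. -/
noncomputable def factR (ω : P → ℕ) : Finset P :=
  Finset.univ.filter fun e => ∀ g b y, e ≤ g → WCov ω g b → ¬ SCov ω b y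

theorem fact_mem_R {ω : P → ℕ} {e : P} :
    e ∈ factR ω ↔ ∀ g b y, e ≤ g → WCov ω g b → ¬ SCov ω b y := by
  unfold factR
  rw [Finset.mem_filter]
  exact ⟨fun h => h.2, fun h => ⟨Finset.mem_univ e, h⟩⟩

theorem fact_mem_R_tr {ω : P → ℕ} {e : P} :
    e ∈ factR (tr ω) ↔ ∀ g b y, e ≤ g → SCov ω g b → ¬ WCov ω b y := by
  rw [fact_mem_R]
  simp only [wCov_tr, sCov_tr]

theorem fact_R_tr_tr (ω : P → ℕ) : factR (tr (tr ω)) = factR ω := by
  ext e
  rw [fact_mem_R, fact_mem_R]
  simp only [wCov_tr, sCov_tr]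

theorem fact_R_up {ω : P → ℕ} {e f : P} (he : e ∈ factR ω) (hef : e ≤ f) : f ∈ factR ω := by
  rw [fact_mem_R] at he ⊢
  exact fun g b y hg => he g b y (hef.trans hg)

theorem fact_sdiff_R_idl (ω : P → ℕ) : Finset.univ \ factR ω ∈ idl (Finset.univ : Finset P) := by
  rw [mem_idl]
  refine ⟨Finset.subset_univ _, fun x _ y hy hxy => ?_⟩
  rw [Finset.mem_sdiff] at hy ⊢
  exact ⟨Finset.mem_univ x, fun h => hy.2 (fact_R_up h hxy)⟩

/-- Above minimal elements ws chains and sw chains occur together. -/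
theorem fact_R_nonmin (h2 : St2) {ω : P → ℕ} (h : Mini ω) {e : P} (he : ¬ IsMin e) :
    e ∈ factR ω ↔ e ∈ factR (tr ω) := by
  have hn : ∀ g, e ≤ g → ¬ IsMin g := by
    intro g hg hm
    apply he
    intro z hz
    exact hg.trans (hm (hz.trans hg))
  rw [fact_mem_R, fact_mem_R_tr]
  constructor
  · intro h1 g b y hg hgb hby
    obtain ⟨c, hc1, hc2⟩ := (h2 P ω h g b y (fun hh => hn g hg hh.1)).2 hgb hby
    exact h1 g c y hg hc1 hc2
  · intro h1 g b y hg hgb hby
    obtain ⟨c, hc1, hc2⟩ := (h2 P ω h g b y (fun hh => hn g hg hh.1)).1 hgb hby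
    exact h1 g c y hg hc1 hc2

theorem fact_disj_iff {ω : P → ℕ} {X : Finset P} (hX : Finset.univ \ X ∈ idl (Finset.univ : Finset P)) :
    Disjoint (TpW ω X) (BS ω X) ↔ X ⊆ factR ω := by
  have hup : ∀ x ∈ X, ∀ y, x ≤ y → y ∈ X := by
    intro x hx y hxy
    by_contra hy
    have := (mem_idl.1 hX).2 x (Finset.mem_univ x) y (Finset.mem_sdiff.2 ⟨Finset.mem_univ y, hy⟩) hxy
    exact (Finset.mem_sdiff.1 this).2 hx
  rw [Finset.disjoint_left]
  constructor
  · intro h1 e he
    rw [fact_mem_R]
    intro g b y hg hgb hby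
    have hgX := hup e he g hg
    have hbX := hup g hgX b hgb.1.le
    have hyX := hup b hbX y hby.1.le
    apply h1 (a := b)
    · unfold TpW
      rw [Finset.mem_filter]
      exact ⟨hbX, g, hgX, hgb⟩
    · unfold BS
      rw [Finset.mem_filter]
      exact ⟨hbX, y, hyX, hby⟩
  · intro h1 b hb hb'
    unfold TpW at hb
    unfold BS at hb'
    rw [Finset.mem_filter] at hb hb'
    obtain ⟨_, g, hg, hgb⟩ := hb
    obtain ⟨_, y, _, hby⟩ := hb'
    exact fact_mem_R.1 (h1 hg) g b y le_rfl hgb hby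

/-- The homogeneous weight. -/
noncomputable def factW (ω : P → ℕ) (u v : ℚ) (X : Finset P) : ℚ :=
  u ^ (BS ω X).card * v ^ (TpW ω X).card * (u + v) ^ (X.card - (BS ω X).card - (TpW ω X).card)

/-- One side of (STAR) at the level `n`. -/
noncomputable def factL (ω : P → ℕ) (u v : ℚ) (k n : ℕ) : ℚ :=
  ∑ I ∈ (idl (Finset.univ : Finset P)).filter
      (fun I => (Finset.univ \ I).card = n ∧ Finset.univ \ I ⊆ factR ω),
    (kap ω I (List.replicate k 1) : ℚ) * factW ω u v (Finset.univ \ I)

theorem fact_sgm {ω : P → ℕ} (hω : Function.Injective ω) (t : ℚ) (n : ℕ) {I : Finset P}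
    (hI : I ∈ idl (Finset.univ : Finset P)) : sgm ℚ ω t n (Finset.univ \ I) =
      if (Finset.univ \ I).card = n ∧ Finset.univ \ I ⊆ factR ω then
        factW ω t 1 (Finset.univ \ I) else 0 := by
  have hcv : Cvx (Finset.univ : Finset P) := fun x _ z _ y _ _ => Finset.mem_univ y
  have hd := fact_disj_iff (ω := ω) (X := Finset.univ \ I)
    (by rwa [Finset.sdiff_sdiff_eq_self (Finset.subset_univ I)])
  rw [sgm_value hω (hcv.sdiff hI)]
  by_cases h1 : (Finset.univ \ I).card = n ∧ Finset.univ \ I ⊆ factR ω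
  · rw [if_pos h1, if_pos ⟨h1.1, hd.2 h1.2⟩]
    unfold factW
    rw [one_pow, mul_one, h1.1, add_comm]
  · rw [if_neg h1, if_neg (fun h2 => h1 ⟨h2.1, hd.1 h2.2⟩)]

theorem fact_sgm' {ω : P → ℕ} (hω : Function.Injective ω) (t : ℚ) (n : ℕ) {I : Finset P}
    (hI : I ∈ idl (Finset.univ : Finset P)) : sgm' ℚ ω t n (Finset.univ \ I) =
      if (Finset.univ \ I).card = n ∧ Finset.univ \ I ⊆ factR (tr ω) then
        factW (tr ω) 1 t (Finset.univ \ I) else 0 := by
  have hcv : Cvx (Finset.univ : Finset P) := fun x _ z _ y _ _ => Finset.mem_univ y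
  have hd := fact_disj_iff (ω := tr ω) (X := Finset.univ \ I)
    (by rwa [Finset.sdiff_sdiff_eq_self (Finset.subset_univ I)])
  rw [TpW_tr, BS_tr] at hd
  rw [sgm'_value hω (hcv.sdiff hI)]
  by_cases h1 : (Finset.univ \ I).card = n ∧ Finset.univ \ I ⊆ factR (tr ω)
  · rw [if_pos h1, if_pos ⟨h1.1, hd.2 h1.2⟩]
    unfold factW
    rw [one_pow, one_mul, h1.1, TpW_tr, BS_tr, Nat.sub_right_comm]
  · rw [if_neg h1, if_neg (fun h2 => h1 ⟨h2.1, hd.1 h2.2⟩)]

theorem fact_star {ω : P → ℕ} (h : Mini ω) (t : ℚ) (k n : ℕ) :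
    factL ω t 1 k n = factL (tr ω) 1 t k n := by
  have h1 := star h.inj h.sym t n (word_mem ω (List.replicate k 1)) (one_mem (HH ℚ ω))
  rw [mul_one, mul_one, Conv.mul_apply, Conv.mul_apply] at h1
  have h2 : ∑ I ∈ idl (Finset.univ : Finset P), ((List.replicate k 1).map (hh ℚ ω)).prod I *
      sgm ℚ ω t n (Finset.univ \ I) = factL ω t 1 k n := by
    unfold factL
    rw [Finset.sum_filter]
    apply Finset.sum_congr rfl
    intro I hI
    rw [fact_sgm h.inj t n hI, kap_prod]
    split_ifs <;> simp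
  have h3 : ∑ I ∈ idl (Finset.univ : Finset P), ((List.replicate k 1).map (hh ℚ ω)).prod I *
      sgm' ℚ ω t n (Finset.univ \ I) = factL (tr ω) 1 t k n := by
    unfold factL
    rw [Finset.sum_filter]
    apply Finset.sum_congr rfl
    intro I hI
    rw [fact_sgm' h.inj t n hI, kap_prod, fact_kap_congr ω (tr ω)]
    split_ifs <;> simp
  rw [← h2, ← h3]
  exact h1

theorem fact_top (ω : P → ℕ) (u v : ℚ) (k : ℕ) : factL ω u v k (factR ω).card =
    (kap ω (Finset.univ \ factR ω) (List.replicate k 1) : ℚ) * factW ω u v (factR ω) := by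
  unfold factL
  have h1 : (idl (Finset.univ : Finset P)).filter
      (fun I => (Finset.univ \ I).card = (factR ω).card ∧ Finset.univ \ I ⊆ factR ω) =
      {Finset.univ \ factR ω} := by
    ext I
    rw [Finset.mem_filter, Finset.mem_singleton]
    constructor
    · rintro ⟨_, h1, h2⟩
      have h3 := Finset.eq_of_subset_of_card_le h2 h1.ge
      rw [← h3, Finset.sdiff_sdiff_eq_self (Finset.subset_univ I)]
    · rintro rfl
      rw [Finset.sdiff_sdiff_eq_self (Finset.subset_univ _)]
      exact ⟨fact_sdiff_R_idl ω, rfl, Finset.Subset.refl _⟩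
  rw [h1, Finset.sum_singleton, Finset.sdiff_sdiff_eq_self (Finset.subset_univ _)]

theorem fact_zero (ω : P → ℕ) (u v : ℚ) (k n : ℕ) (hn : (factR ω).card < n) :
    factL ω u v k n = 0 := by
  unfold factL
  apply Finset.sum_eq_zero
  intro I hI
  rw [Finset.mem_filter] at hI
  have := Finset.card_le_card hI.2.2
  omega

theorem fact_sub (ω : P → ℕ) (u v : ℚ) (k n : ℕ) (hn : (factR ω).card = n + 1) :
    factL ω u v k n = ∑ e ∈ factMin (factR ω),
      (kap ω (insert e (Finset.univ \ factR ω)) (List.replicate k 1) : ℚ) *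
        factW ω u v ((factR ω).erase e) := by
  unfold factL
  have h0 : ∀ e ∈ factR ω, Finset.univ \ insert e (Finset.univ \ factR ω) = (factR ω).erase e := by
    intro e _
    ext x
    simp only [Finset.mem_sdiff, Finset.mem_univ, true_and, Finset.mem_insert, not_or, not_not,
      Finset.mem_erase]
  have h1 : (idl (Finset.univ : Finset P)).filter
      (fun I => (Finset.univ \ I).card = n ∧ Finset.univ \ I ⊆ factR ω) =
      (factMin (factR ω)).image (fun e => insert e (Finset.univ \ factR ω)) := by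
    ext I
    rw [Finset.mem_filter, Finset.mem_image]
    constructor
    · rintro ⟨hI, h1, h2⟩
      have h3 : (factR ω \ (Finset.univ \ I)).card = 1 := by
        rw [Finset.card_sdiff_of_subset h2]
        omega
      obtain ⟨e, he⟩ := Finset.card_eq_one.1 h3
      have h4 : ∀ x, x ∈ factR ω → x ∈ I → x = e := by
        intro x hx hxI
        have : x ∈ factR ω \ (Finset.univ \ I) := by
          rw [Finset.mem_sdiff]
          exact ⟨hx, fun h => (Finset.mem_sdiff.1 h).2 hxI⟩
        rw [he, Finset.mem_singleton] at this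
        exact this
      have h5 : e ∈ factR ω ∧ e ∈ I := by
        have : e ∈ factR ω \ (Finset.univ \ I) := by
          rw [he]
          exact Finset.mem_singleton_self e
        rw [Finset.mem_sdiff] at this
        refine ⟨this.1, ?_⟩
        by_contra h6
        exact this.2 (Finset.mem_sdiff.2 ⟨Finset.mem_univ e, h6⟩)
      have h6 : ∀ x, x ∉ factR ω → x ∈ I := by
        intro x hx
        by_contra h7
        exact hx (h2 (Finset.mem_sdiff.2 ⟨Finset.mem_univ x, h7⟩))
      refine ⟨e, ?_, ?_⟩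
      · rw [fact_mem_min]
        refine ⟨h5.1, fun x hx hxe => ?_⟩
        have h7 := (mem_idl.1 hI).2 x (Finset.mem_univ x) e h5.2 hxe.le
        exact hxe.ne (h4 x hx h7)
      · ext x
        rw [Finset.mem_insert, Finset.mem_sdiff]
        constructor
        · rintro (rfl | h7)
          · exact h5.2
          · exact h6 x h7.2
        · intro hx
          by_cases h7 : x ∈ factR ω
          · exact Or.inl (h4 x h7 hx)
          · exact Or.inr ⟨Finset.mem_univ x, h7⟩
    · rintro ⟨e, he, rfl⟩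
      rw [fact_mem_min] at he
      rw [h0 e he.1]
      refine ⟨?_, ?_, Finset.erase_subset _ _⟩
      · rw [mem_idl]
        refine ⟨Finset.subset_univ _, fun x _ y hy hxy => ?_⟩
        rw [Finset.mem_insert] at hy ⊢
        by_cases hx : x ∈ factR ω
        · rcases hy with rfl | hy
          · rcases eq_or_lt_of_le hxy with h8 | h8
            · exact Or.inl h8
            · exact absurd h8 (he.2 x hx)
          · exact absurd (fact_R_up hx hxy) (Finset.mem_sdiff.1 hy).2
        · exact Or.inr (Finset.mem_sdiff.2 ⟨Finset.mem_univ x, hx⟩)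
      · rw [Finset.card_erase_of_mem he.1]
        omega
  rw [h1, Finset.sum_image]
  · apply Finset.sum_congr rfl
    intro e he
    rw [h0 e (fact_mem_min.1 he).1]
  · intro e he e' he' hee
    have he1 := (fact_mem_min.1 (Finset.mem_coe.1 he)).1
    have hee' : insert e (Finset.univ \ factR ω) = insert e' (Finset.univ \ factR ω) := hee
    have hmem : e ∈ insert e' (Finset.univ \ factR ω) := by
      rw [← hee']
      exact Finset.mem_insert_self e _
    rw [Finset.mem_insert] at hmem
    rcases hmem with h7 | h7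
    · exact h7
    · exact absurd he1 (Finset.mem_sdiff.1 h7).2

/-- `1` if `e` has a strict upper cover, else `0`. -/
noncomputable def factA (ω : P → ℕ) (e : P) : ℕ := if ∃ f, SCov ω e f then 1 else 0

/-- The number of tops of weak covers lost by erasing `e` from `R`. -/
noncomputable def factV (ω : P → ℕ) (e : P) : ℕ :=
  (TpW ω (factR ω)).card - (TpW ω ((factR ω).erase e)).card

theorem fact_BS_erase {ω : P → ℕ} {e : P} (he : e ∈ factMin (factR ω)) :
    (BS ω ((factR ω).erase e)).card + factA ω e = (BS ω (factR ω)).card := by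
  rw [fact_mem_min] at he
  have h1 : BS ω ((factR ω).erase e) = (BS ω (factR ω)).erase e := by
    ext x
    unfold BS
    simp only [Finset.mem_filter, Finset.mem_erase]
    constructor
    · rintro ⟨⟨h1, h2⟩, y, ⟨_, h3⟩, h4⟩
      exact ⟨h1, h2, y, h3, h4⟩
    · rintro ⟨h1, h2, y, h3, h4⟩
      refine ⟨⟨h1, h2⟩, y, ⟨?_, h3⟩, h4⟩
      rintro rfl
      exact he.2 x h2 h4.1.lt
  rw [h1]
  unfold factA
  by_cases h2 : ∃ f, SCov ω e f
  · rw [if_pos h2]
    obtain ⟨f, hf⟩ := h2
    have h3 : e ∈ BS ω (factR ω) := by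
      unfold BS
      rw [Finset.mem_filter]
      exact ⟨he.1, f, fact_R_up he.1 hf.1.le, hf⟩
    rw [Finset.card_erase_of_mem h3]
    have := Finset.card_pos.2 ⟨e, h3⟩
    omega
  · rw [if_neg h2, Finset.erase_eq_of_notMem]
    · rfl
    · intro h3
      unfold BS at h3
      rw [Finset.mem_filter] at h3
      obtain ⟨_, y, _, hy⟩ := h3
      exact h2 ⟨y, hy⟩

theorem fact_TpW_sub (ω : P → ℕ) (e : P) : TpW ω ((factR ω).erase e) ⊆ TpW ω (factR ω) := by
  intro x hx
  unfold TpW at hx ⊢
  rw [Finset.mem_filter] at hx ⊢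
  obtain ⟨h1, y, h2, h3⟩ := hx
  exact ⟨Finset.mem_of_mem_erase h1, y, Finset.mem_of_mem_erase h2, h3⟩

theorem fact_TpW_erase (ω : P → ℕ) (e : P) :
    (TpW ω ((factR ω).erase e)).card + factV ω e = (TpW ω (factR ω)).card := by
  have := Finset.card_le_card (fact_TpW_sub ω e)
  unfold factV
  omega

theorem fact_disjR (ω : P → ℕ) : Disjoint (TpW ω (factR ω)) (BS ω (factR ω)) :=
  (fact_disj_iff (fact_sdiff_R_idl ω)).2 (Finset.Subset.refl _)

theorem fact_weight {ω : P → ℕ} {e : P} (he : e ∈ factMin (factR ω)) (u v : ℚ) :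
    factW ω u v ((factR ω).erase e) * (u + v) * (u ^ factA ω e * v ^ factV ω e) =
      factW ω u v (factR ω) * (u + v) ^ (factA ω e + factV ω e) := by
  have h1 := fact_BS_erase he
  have h2 := fact_TpW_erase ω e
  have h3 : (BS ω (factR ω)).card + (TpW ω (factR ω)).card ≤ (factR ω).card := by
    rw [← Finset.card_union_of_disjoint (fact_disjR ω).symm]
    exact Finset.card_le_card (Finset.union_subset (Finset.filter_subset _ _)
      (Finset.filter_subset _ _))
  have h4 : (BS ω ((factR ω).erase e)).card + (TpW ω ((factR ω).erase e)).card ≤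
      ((factR ω).erase e).card := by
    rw [← Finset.card_union_of_disjoint]
    · exact Finset.card_le_card (Finset.union_subset (Finset.filter_subset _ _)
        (Finset.filter_subset _ _))
    · apply Disjoint.mono _ (fact_TpW_sub ω e) (fact_disjR ω).symm
      intro x hx
      unfold BS at hx ⊢
      rw [Finset.mem_filter] at hx ⊢
      obtain ⟨h1, y, h2, h3⟩ := hx
      exact ⟨Finset.mem_of_mem_erase h1, y, Finset.mem_of_mem_erase h2, h3⟩
  have h5 : (factR ω).card = ((factR ω).erase e).card + 1 := by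
    have h6 := (fact_mem_min.1 he).1
    rw [Finset.card_erase_of_mem h6]
    have := Finset.card_pos.2 ⟨e, h6⟩
    omega
  unfold factW
  rw [← h1, ← h2]
  have h6 : (factR ω).card - ((BS ω ((factR ω).erase e)).card + factA ω e) -
      ((TpW ω ((factR ω).erase e)).card + factV ω e) + (factA ω e + factV ω e) =
      ((factR ω).erase e).card - (BS ω ((factR ω).erase e)).card -
        (TpW ω ((factR ω).erase e)).card + 1 := by omega
  rw [mul_assoc (u ^ ((BS ω ((factR ω).erase e)).card + factA ω e) *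
    v ^ ((TpW ω ((factR ω).erase e)).card + factV ω e)), ← pow_add, h6]
  ring

theorem fact_V_mem {ω : P → ℕ} {e f : P} (he : e ∈ factMin (factR ω))
    (hf : f ∈ TpW ω (factR ω) \ TpW ω ((factR ω).erase e)) :
    WCov ω e f ∧ ∀ x ∈ factR ω, WCov ω x f → x = e := by
  rw [fact_mem_min] at he
  rw [Finset.mem_sdiff] at hf
  unfold TpW at hf
  rw [Finset.mem_filter, Finset.mem_filter] at hf
  obtain ⟨⟨h1, x, h2, h3⟩, h4⟩ := hf
  have h5 : ∀ z ∈ factR ω, WCov ω z f → z = e := by
    intro z hz hzf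
    by_contra hze
    apply h4
    refine ⟨Finset.mem_erase.2 ⟨?_, h1⟩, z, Finset.mem_erase.2 ⟨hze, hz⟩, hzf⟩
    rintro rfl
    exact he.2 z hz hzf.1.lt
  refine ⟨?_, h5⟩
  rw [← h5 x h2 h3]
  exact h3

theorem fact_V_card (ω : P → ℕ) (e : P) :
    (TpW ω (factR ω) \ TpW ω ((factR ω).erase e)).card = factV ω e := by
  rw [Finset.card_sdiff_of_subset (fact_TpW_sub ω e)]
  rfl

theorem fact_V_cov {ω : P → ℕ} {e : P} (he : e ∈ factMin (factR ω)) (h : 1 ≤ factV ω e) :
    ∃ f, WCov ω e f := by
  rw [← fact_V_card] at h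
  obtain ⟨f, hf⟩ := Finset.card_pos.1 h
  exact ⟨f, (fact_V_mem he hf).1⟩

theorem fact_V_le (h7 : St7) {ω : P → ℕ} (h : Mini ω) {e : P} (he : e ∈ factMin (factR ω)) :
    factV ω e ≤ 1 := by
  rw [← fact_V_card, Finset.card_le_one]
  intro f hf f' hf'
  obtain ⟨h1, h2⟩ := fact_V_mem he hf
  obtain ⟨h1', h2'⟩ := fact_V_mem he hf'
  by_cases hm : IsMin e
  · have htr := k5c P ω h
    obtain ⟨W, E, hN⟩ := h7 P (tr ω) htr
    have key : ∀ q, WCov ω e q → (∀ x ∈ factR ω, WCov ω x q → x = e) → E e = q := by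
      intro q hq hu
      have hqA : q ∈ AA (tr ω) :=
        mem_AA.2 ⟨e, LL_of_sCov le_rfl ((sCov_tr ω e q).2 hq) le_rfl⟩
      have hWq := hN.N_cov q hqA
      rcases hN.extra e q ((sCov_tr ω e q).2 hq) with h3 | ⟨_, hM, hWA, _⟩
      · rw [h3]
        exact hN.SN q hqA
      · exfalso
        have hnm : ¬ IsMin (W q) := by
          obtain ⟨x, hx⟩ := mem_AA.1 hWA
          exact fun hh => absurd (hh hx.lt.le) (not_le_of_gt hx.lt)
        have hWR : W q ∈ factR ω := by
          rw [fact_mem_R]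
          intro g b y hg hgb hby
          have h4 : LL (tr ω) (W q) b := LL_of_sCov hg ((sCov_tr ω g b).2 hgb) le_rfl
          have h5 := (((st1 P (tr ω) htr).2 (W q) hnm).2.1 q hWq b).1 h4
          have h6 := hM (h5.trans hby.1.le)
          exact absurd hby.1.lt (not_lt_of_ge (h6.trans h5))
        have h3 := hu (W q) hWR ((sCov_tr ω (W q) q).1 hWq)
        rw [h3] at hnm
        exact hnm hm
    rw [← key f h1 h2, ← key f' h1' h2']
  · have hl := ((st1 P ω h).2 e hm).1
    have mem : ∀ t, e ≤ t → t ∈ (Finset.univ.filter fun z => e ≤ z) := fun t ht =>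
      Finset.mem_filter.2 ⟨Finset.mem_univ t, ht⟩
    exact hl.w_upper e (mem e le_rfl) f (mem f h1.1.le) f' (mem f' h1'.1.le) h1 h1'

/-- Elements of `R` (resp. `R'`) not in the other set are minimal. -/
theorem fact_diff_min (h2 : St2) {ω : P → ℕ} (h : Mini ω) {x : P} (hx : x ∈ factR (tr ω))
    (hx' : x ∉ factR ω) : IsMin x := by
  by_contra hm
  exact hx' ((fact_R_nonmin h2 h hm).2 hx)

theorem fact_diff_above (h2 : St2) {ω : P → ℕ} (h : Mini ω) {x y : P} (hx : x ∈ factR (tr ω))
    (hxy : x < y) : y ∈ factR ω := by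
  have hm : ¬ IsMin y := fun hh => absurd (hh hxy.le) (not_le_of_gt hxy)
  exact (fact_R_nonmin h2 h hm).2 (fact_R_up hx hxy.le)

/-- An element outside `R` but inside `R'` starts a ws chain. -/
theorem fact_diff_chain (h2 : St2) {ω : P → ℕ} (h : Mini ω) {x : P} (hx : x ∈ factR (tr ω))
    (hx' : x ∉ factR ω) : ∃ b y, WCov ω x b ∧ SCov ω b y := by
  rw [fact_mem_R] at hx'
  push Not at hx'
  obtain ⟨g, b, y, hg, h1, h3⟩ := hx'
  rcases eq_or_lt_of_le hg with h4 | h4
  · rw [← h4] at h1
    exact ⟨b, y, h1, h3⟩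
  · exfalso
    have h5 := fact_diff_above h2 h hx h4
    exact fact_mem_R.1 h5 g b y le_rfl h1 h3

/-- For `e` minimal in `R` and not minimal in `R'`. -/
theorem fact_special (h2 : St2) (h5 : St5) {ω : P → ℕ} (h : Mini ω) {e : P}
    (he : e ∈ factMin (factR ω)) (he' : e ∉ factMin (factR (tr ω))) (f : P) (hf : WCov ω e f) :
    factA ω e = 1 := by
  have hA : (∃ y, SCov ω e y) → factA ω e = 1 := fun hh => by
    unfold factA
    rw [if_pos hh]
  rw [fact_mem_min] at he he'
  by_cases heR : e ∈ factR (tr ω)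
  · have h1 : ∃ x ∈ factR (tr ω), x < e := by
      by_contra h6
      push Not at h6
      exact he' ⟨heR, h6⟩
    obtain ⟨x, hx, hxe⟩ := h1
    obtain ⟨z, hxz, hze⟩ := exists_lower_cov hxe
    have hz : z ∈ factR (tr ω) := fact_R_up hx hxz
    have hz' : z ∉ factR ω := fun hh => he.2 z hh hze.lt
    have hzm := fact_diff_min h2 h hz hz'
    obtain ⟨b, y, hzb, hby⟩ := fact_diff_chain h2 h hz hz'
    rcases cov_cases h.inj hze with h6 | h6
    · have heb : e = b := by
        apply (h5 P ω h).2.1 z e b hzm _ _ h6 hzb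
        · exact fun hh => absurd (hh hf.1.le) (not_le_of_gt hf.1.lt)
        · exact fun hh => absurd (hh hby.1.le) (not_le_of_gt hby.1.lt)
      rw [← heb] at hby
      exact hA ⟨y, hby⟩
    · exact absurd hf (fact_mem_R_tr.1 hz z e f le_rfl h6)
  · rw [fact_mem_R_tr] at heR
    push Not at heR
    obtain ⟨g, c, d, hg, h6, h7⟩ := heR
    rcases eq_or_lt_of_le hg with h8 | h8
    · rw [← h8] at h6
      exact hA ⟨c, h6⟩
    · exfalso
      have hm : ¬ IsMin g := fun hh => absurd (hh h8.le) (not_le_of_gt h8)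
      have h9 := (fact_R_nonmin h2 h hm).1 (fact_R_up he.1 h8.le)
      exact fact_mem_R_tr.1 h9 g c d le_rfl h6 h7

omit [Fintype P] in
theorem fact_W_pos (ω : P → ℕ) {u v : ℚ} (hu : 0 < u) (hv : 0 < v) (X : Finset P) :
    0 < factW ω u v X := by
  unfold factW
  positivity

theorem fact_card {ω : P → ℕ} (h : Mini ω) :
    (factR ω).card = (factR (tr ω)).card := by
  have hpos : ∀ ω' : P → ℕ, 0 < factL ω' 1 1 (Finset.univ \ factR ω').card (factR ω').card := by
    intro ω'
    rw [fact_top]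
    have h1 := KM.kap_ones_pos ω' _ (Finset.univ \ factR ω') rfl
    have h3 := fact_W_pos ω' one_pos one_pos (factR ω')
    have h4 : (0 : ℚ) < (kap ω' (Finset.univ \ factR ω')
        (List.replicate (Finset.univ \ factR ω').card 1) : ℚ) := by exact_mod_cast h1
    exact mul_pos h4 h3
  rcases lt_trichotomy (factR ω).card (factR (tr ω)).card with h1 | h1 | h1
  · exfalso
    have h3 := hpos (tr ω)
    rw [← fact_star h, fact_zero ω 1 1 _ _ h1] at h3
    exact lt_irrefl _ h3
  · exact h1
  · exfalso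
    have h3 := hpos ω
    rw [fact_star h, fact_zero (tr ω) 1 1 _ _ h1] at h3
    exact lt_irrefl _ h3

theorem fact_isol (h2 : St2) {ω : P → ℕ} (h : Mini ω) {x : P}
    (hx : x ∈ factR (tr ω) \ factR ω) : ∀ y ∈ Finset.univ \ factR ω, ¬ x < y ∧ ¬ y < x := by
  intro y hy
  rw [Finset.mem_sdiff] at hx hy
  refine ⟨fun hxy => hy.2 (fact_diff_above h2 h hx.1 hxy), fun hyx => ?_⟩
  have := fact_diff_min h2 h hx.1 hx.2 hyx.le
  exact absurd this (not_le_of_gt hyx)

theorem fact_isol' (h2 : St2) {ω : P → ℕ} (h : Mini ω) {x e : P} (he : e ∈ factMin (factR (tr ω)))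
    (hx : x ∈ factR (tr ω) \ factR ω) :
    ∀ y ∈ insert e (Finset.univ \ factR ω), ¬ x < y ∧ ¬ y < x := by
  intro y hy
  rw [Finset.mem_insert] at hy
  rcases hy with rfl | hy
  · rw [fact_mem_min] at he
    rw [Finset.mem_sdiff] at hx
    refine ⟨he.2 x hx.1, fun hyx => ?_⟩
    have := fact_diff_min h2 h hx.1 hx.2 hyx.le
    exact absurd this (not_le_of_gt hyx)
  · exact fact_isol h2 h hx y hy

theorem fact_base_eq (h2 : St2) {ω : P → ℕ} (h : Mini ω) :
    kap ω (Finset.univ \ factR ω) (List.replicate (Finset.univ \ factR ω).card 1) =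
      kap ω (Finset.univ \ factR (tr ω))
        (List.replicate (Finset.univ \ factR (tr ω)).card 1) := by
  have htr := k5c P ω h
  apply fact_iso_eq ω (D := factR (tr ω) \ factR ω) (D' := factR ω \ factR (tr ω))
  · intro x hx
    rw [Finset.mem_sdiff] at hx ⊢
    exact ⟨Finset.mem_univ x, hx.2⟩
  · intro x hx
    rw [Finset.mem_sdiff] at hx ⊢
    exact ⟨Finset.mem_univ x, hx.2⟩
  · intro x hx
    exact fact_isol h2 h hx
  · intro x hx
    rw [← fact_R_tr_tr] at hx
    exact fact_isol h2 htr hx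
  · rw [Finset.card_sdiff_of_subset (Finset.subset_univ _),
      Finset.card_sdiff_of_subset (Finset.subset_univ _), fact_card h]
  · ext x
    simp only [Finset.mem_sdiff, Finset.mem_univ, true_and]
    tauto

theorem fact_ins_eq (h2 : St2) {ω : P → ℕ} (h : Mini ω) {e : P} (he : e ∈ factMin (factR ω))
    (he' : e ∈ factMin (factR (tr ω))) {k : ℕ} (hk : k = (Finset.univ \ factR ω).card + 1) :
    kap ω (insert e (Finset.univ \ factR ω)) (List.replicate k 1) =
      kap ω (insert e (Finset.univ \ factR (tr ω))) (List.replicate k 1) := by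
  have htr := k5c P ω h
  have hR := (fact_mem_min.1 he).1
  have hR' := (fact_mem_min.1 he').1
  have hc1 : (insert e (Finset.univ \ factR ω)).card = k := by
    rw [Finset.card_insert_of_notMem, hk]
    exact fun hh => (Finset.mem_sdiff.1 hh).2 hR
  have hc2 : (insert e (Finset.univ \ factR (tr ω))).card = k := by
    rw [Finset.card_insert_of_notMem, hk, Finset.card_sdiff_of_subset (Finset.subset_univ _),
      Finset.card_sdiff_of_subset (Finset.subset_univ _), fact_card h]
    exact fun hh => (Finset.mem_sdiff.1 hh).2 hR'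
  have key := fact_iso_eq ω (Q := insert e (Finset.univ \ factR ω))
    (Q' := insert e (Finset.univ \ factR (tr ω))) (D := factR (tr ω) \ factR ω)
    (D' := factR ω \ factR (tr ω))
    (by
      intro x hx
      rw [Finset.mem_sdiff] at hx
      exact Finset.mem_insert_of_mem (Finset.mem_sdiff.2 ⟨Finset.mem_univ x, hx.2⟩))
    (by
      intro x hx
      rw [Finset.mem_sdiff] at hx
      exact Finset.mem_insert_of_mem (Finset.mem_sdiff.2 ⟨Finset.mem_univ x, hx.2⟩))
    (fun x hx => fact_isol' h2 h he' hx)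
    (by
      intro x hx
      rw [← fact_R_tr_tr] at hx he
      exact fact_isol' h2 htr he hx)
    (by rw [hc1, hc2])
    (by
      ext x
      simp only [Finset.mem_sdiff, Finset.mem_univ, true_and, Finset.mem_insert]
      constructor
      · rintro ⟨h1 | h1, h3⟩
        · subst h1
          exact ⟨Or.inl rfl, fun hh => hh.2 hR'⟩
        · exact ⟨Or.inr fun hh => h3 ⟨hh, h1⟩, fun hh => h1 hh.1⟩
      · rintro ⟨h1 | h1, h3⟩
        · subst h1
          exact ⟨Or.inl rfl, fun hh => hh.2 hR⟩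
        · exact ⟨Or.inr fun hh => h3 ⟨hh, h1⟩, fun hh => h1 hh.1⟩)
  rw [hc1, hc2] at key
  exact key

/-- The level `|R| - 1`, divided by the common factor. -/
theorem fact_level (h2 : St2) {ω : P → ℕ} (h : Mini ω) {k n : ℕ}
    (hn : (factR ω).card = n + 1) {t : ℚ} (ht : 0 < t) :
    ∑ e ∈ factMin (factR ω), (kap ω (insert e (Finset.univ \ factR ω))
      (List.replicate k 1) : ℚ) * ((t + 1) ^ (factA ω e + factV ω e) / t ^ factA ω e) =
    ∑ e ∈ factMin (factR (tr ω)), (kap ω (insert e (Finset.univ \ factR (tr ω)))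
      (List.replicate k 1) : ℚ) *
        ((t + 1) ^ (factA (tr ω) e + factV (tr ω) e) / t ^ factV (tr ω) e) := by
  have hn' : (factR (tr ω)).card = n + 1 := by rw [← fact_card h, hn]
  have h1 := fact_star h t k n
  rw [fact_sub ω t 1 k n hn, fact_sub (tr ω) 1 t k n hn'] at h1
  have hW : factW ω t 1 (factR ω) = factW (tr ω) 1 t (factR (tr ω)) := by
    have h3 := fact_star h t (Finset.univ \ factR ω).card (factR ω).card
    have hc : (Finset.univ \ factR ω).card = (Finset.univ \ factR (tr ω)).card := by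
      rw [Finset.card_sdiff_of_subset (Finset.subset_univ _),
        Finset.card_sdiff_of_subset (Finset.subset_univ _), fact_card h]
    rw [fact_top] at h3
    rw [fact_card h, fact_top, hc, fact_kap_congr (tr ω) ω, ← hc, fact_base_eq h2 h, ← hc] at h3
    have h4 := KM.kap_ones_pos ω _ (Finset.univ \ factR (tr ω)) rfl
    rw [← hc] at h4
    have h5 : (kap ω (Finset.univ \ factR (tr ω))
        (List.replicate (Finset.univ \ factR ω).card 1) : ℚ) ≠ 0 := by
      exact_mod_cast h4.ne'
    exact mul_left_cancel₀ h5 h3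
  have hWp := fact_W_pos ω ht one_pos (factR ω)
  have ht1 : (0 : ℚ) < t + 1 := by linarith
  have e1 : ∀ e ∈ factMin (factR ω), factW ω t 1 ((factR ω).erase e) =
      factW ω t 1 (factR ω) / (t + 1) * ((t + 1) ^ (factA ω e + factV ω e) / t ^ factA ω e) := by
    intro e he
    have h3 := fact_weight he t 1
    rw [one_pow, mul_one] at h3
    field_simp
    linear_combination h3
  have e2 : ∀ e ∈ factMin (factR (tr ω)), factW (tr ω) 1 t ((factR (tr ω)).erase e) =
      factW ω t 1 (factR ω) / (t + 1) *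
        ((t + 1) ^ (factA (tr ω) e + factV (tr ω) e) / t ^ factV (tr ω) e) := by
    intro e he
    have h3 := fact_weight he 1 t
    rw [one_pow, one_mul, ← hW, add_comm 1 t] at h3
    field_simp
    linear_combination h3
  rw [Finset.sum_congr rfl (fun e he => by rw [e1 e he]),
    Finset.sum_congr (s₁ := factMin (factR (tr ω))) rfl
      (fun e he => by rw [e2 e he, fact_kap_congr (tr ω) ω])] at h1
  have h6 : factW ω t 1 (factR ω) / (t + 1) ≠ 0 := (div_pos hWp ht1).ne'
  apply mul_left_cancel₀ h6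
  rw [Finset.mul_sum, Finset.mul_sum]
  calc _ = _ := Finset.sum_congr rfl fun e _ => by ring
    _ = _ := h1
    _ = _ := Finset.sum_congr rfl fun e _ => by ring

/-- The difference of the coefficients of `t⁻¹` and `t`. -/
theorem fact_diff (h2 : St2) (h7 : St7) {ω : P → ℕ} (h : Mini ω) {k n : ℕ}
    (hn : (factR ω).card = n + 1) :
    ∑ e ∈ factMin (factR ω), (kap ω (insert e (Finset.univ \ factR ω))
      (List.replicate k 1) : ℚ) * ((factA ω e : ℚ) - factV ω e) +
    ∑ e ∈ factMin (factR (tr ω)), (kap ω (insert e (Finset.univ \ factR (tr ω)))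
      (List.replicate k 1) : ℚ) * ((factA (tr ω) e : ℚ) - factV (tr ω) e) = 0 := by
  have htr := k5c P ω h
  have hA : ∀ (ω' : P → ℕ) (e : P), factA ω' e = 0 ∨ factA ω' e = 1 := by
    intro ω' e
    unfold factA
    split_ifs
    · exact Or.inr rfl
    · exact Or.inl rfl
  have l1 := fact_level h2 h (k := k) hn (t := 2) two_pos
  have l2 := fact_level h2 h (k := k) hn (t := 1 / 2) (by norm_num)
  have c1 : ∀ e ∈ factMin (factR ω), ((factA ω e : ℚ) - factV ω e) =
      (2 / 3) * (((1 / 2 : ℚ) + 1) ^ (factA ω e + factV ω e) / (1 / 2) ^ factA ω e -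
        ((2 : ℚ) + 1) ^ (factA ω e + factV ω e) / 2 ^ factA ω e) := by
    intro e he
    have hv := fact_V_le h7 h he
    have hv' : factV ω e = 0 ∨ factV ω e = 1 := by omega
    rcases hA ω e with h3 | h3 <;> rcases hv' with h4 | h4 <;> rw [h3, h4] <;> norm_num
  have c2 : ∀ e ∈ factMin (factR (tr ω)), ((factA (tr ω) e : ℚ) - factV (tr ω) e) =
      (2 / 3) * (((2 : ℚ) + 1) ^ (factA (tr ω) e + factV (tr ω) e) / 2 ^ factV (tr ω) e -
        ((1 / 2 : ℚ) + 1) ^ (factA (tr ω) e + factV (tr ω) e) / (1 / 2) ^ factV (tr ω) e) := by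
    intro e he
    have hv := fact_V_le h7 htr he
    have hv' : factV (tr ω) e = 0 ∨ factV (tr ω) e = 1 := by omega
    rcases hA (tr ω) e with h3 | h3 <;> rcases hv' with h4 | h4 <;> rw [h3, h4] <;> norm_num
  have s1 : ∑ e ∈ factMin (factR ω), (kap ω (insert e (Finset.univ \ factR ω))
      (List.replicate k 1) : ℚ) * ((factA ω e : ℚ) - factV ω e) =
      (2 / 3) * (∑ e ∈ factMin (factR ω), (kap ω (insert e (Finset.univ \ factR ω))
        (List.replicate k 1) : ℚ) *
          (((1 / 2 : ℚ) + 1) ^ (factA ω e + factV ω e) / (1 / 2) ^ factA ω e) -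
      ∑ e ∈ factMin (factR ω), (kap ω (insert e (Finset.univ \ factR ω))
        (List.replicate k 1) : ℚ) *
          (((2 : ℚ) + 1) ^ (factA ω e + factV ω e) / 2 ^ factA ω e)) := by
    rw [← Finset.sum_sub_distrib, Finset.mul_sum]
    apply Finset.sum_congr rfl
    intro e he
    rw [c1 e he]
    ring
  have s2 : ∑ e ∈ factMin (factR (tr ω)), (kap ω (insert e (Finset.univ \ factR (tr ω)))
      (List.replicate k 1) : ℚ) * ((factA (tr ω) e : ℚ) - factV (tr ω) e) =
      (2 / 3) * (∑ e ∈ factMin (factR (tr ω)), (kap ω (insert e (Finset.univ \ factR (tr ω)))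
        (List.replicate k 1) : ℚ) *
          (((2 : ℚ) + 1) ^ (factA (tr ω) e + factV (tr ω) e) / 2 ^ factV (tr ω) e) -
      ∑ e ∈ factMin (factR (tr ω)), (kap ω (insert e (Finset.univ \ factR (tr ω)))
        (List.replicate k 1) : ℚ) *
          (((1 / 2 : ℚ) + 1) ^ (factA (tr ω) e + factV (tr ω) e) / (1 / 2) ^ factV (tr ω) e)) := by
    rw [← Finset.sum_sub_distrib, Finset.mul_sum]
    apply Finset.sum_congr rfl
    intro e he
    rw [c2 e he]
    ring
  rw [s1, s2, l1, l2]
  ring

theorem fact_main (h2 : St2) (h5 : St5) (h7 : St7) {ω : P → ℕ} (h : Mini ω) {e₀ : P}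
    (he : e₀ ∈ factMin (factR ω)) (he' : e₀ ∉ factMin (factR (tr ω))) :
    factA ω e₀ = factV ω e₀ := by
  have htr := k5c P ω h
  have hR := (fact_mem_min.1 he).1
  obtain ⟨n, hn⟩ : ∃ n, (factR ω).card = n + 1 :=
    ⟨(factR ω).card - 1, by have := Finset.card_pos.2 ⟨e₀, hR⟩; omega⟩
  obtain ⟨k, hk⟩ : ∃ k, k = (Finset.univ \ factR ω).card + 1 := ⟨_, rfl⟩
  have hk' : k = (Finset.univ \ factR (tr ω)).card + 1 := by
    rw [hk, Finset.card_sdiff_of_subset (Finset.subset_univ _),
      Finset.card_sdiff_of_subset (Finset.subset_univ _), fact_card h]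
  have hA : ∀ ω' : P → ℕ, ∀ e : P, (∃ y, SCov ω' e y) → factA ω' e = 1 := fun ω' e hh => by
    unfold factA
    rw [if_pos hh]
  have hV1 : ∀ e ∈ factMin (factR ω), factV ω e ≤ factA (tr ω) e := by
    intro e he1
    have h1 := fact_V_le h7 h he1
    by_cases h3 : 1 ≤ factV ω e
    · obtain ⟨f, hf⟩ := fact_V_cov he1 h3
      rw [hA (tr ω) e ⟨f, (sCov_tr ω e f).2 hf⟩]
      exact h1
    · omega
  have hV2 : ∀ e ∈ factMin (factR (tr ω)), factV (tr ω) e ≤ factA ω e := by
    intro e he1
    have h1 := fact_V_le h7 htr he1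
    by_cases h3 : 1 ≤ factV (tr ω) e
    · obtain ⟨f, hf⟩ := fact_V_cov he1 h3
      rw [hA ω e ⟨f, (wCov_tr ω e f).1 hf⟩]
      exact h1
    · omega
  have hS1 : ∀ e ∈ factMin (factR ω), e ∉ factMin (factR (tr ω)) → factV ω e ≤ factA ω e := by
    intro e he1 he2
    have h1 := fact_V_le h7 h he1
    by_cases h3 : 1 ≤ factV ω e
    · obtain ⟨f, hf⟩ := fact_V_cov he1 h3
      rw [fact_special h2 h5 h he1 he2 f hf]
      exact h1
    · omega
  have hS2 : ∀ e ∈ factMin (factR (tr ω)), e ∉ factMin (factR ω) →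
      factV (tr ω) e ≤ factA (tr ω) e := by
    intro e he1 he2
    have h1 := fact_V_le h7 htr he1
    by_cases h3 : 1 ≤ factV (tr ω) e
    · obtain ⟨f, hf⟩ := fact_V_cov he1 h3
      rw [← fact_R_tr_tr] at he2
      rw [fact_special h2 h5 htr he1 he2 f hf]
      exact h1
    · omega
  have hd := fact_diff h2 h7 h (k := k) hn
  have e1 : ∀ (A : Finset P) (f : P → ℚ), ∑ e ∈ A, f e =
      ∑ e ∈ (Finset.univ : Finset P), if e ∈ A then f e else 0 := by
    intro A f
    rw [← Finset.sum_filter]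
    congr 1
    ext x
    simp
  rw [e1 (factMin (factR ω)), e1 (factMin (factR (tr ω))), ← Finset.sum_add_distrib] at hd
  have hnn : ∀ e ∈ (Finset.univ : Finset P), 0 ≤ (if e ∈ factMin (factR ω) then
      (kap ω (insert e (Finset.univ \ factR ω)) (List.replicate k 1) : ℚ) *
        ((factA ω e : ℚ) - factV ω e) else 0) + (if e ∈ factMin (factR (tr ω)) then
      (kap ω (insert e (Finset.univ \ factR (tr ω))) (List.replicate k 1) : ℚ) *
        ((factA (tr ω) e : ℚ) - factV (tr ω) e) else 0) := by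
    intro e _
    by_cases h1 : e ∈ factMin (factR ω)
    · by_cases h3 : e ∈ factMin (factR (tr ω))
      · rw [if_pos h1, if_pos h3, fact_ins_eq h2 h h1 h3 hk, ← mul_add]
        have h4 : (factV ω e : ℚ) ≤ factA (tr ω) e := by exact_mod_cast hV1 e h1
        have h6 : (factV (tr ω) e : ℚ) ≤ factA ω e := by exact_mod_cast hV2 e h3
        apply mul_nonneg (Nat.cast_nonneg _)
        linarith
      · rw [if_pos h1, if_neg h3, add_zero]
        have h4 : (factV ω e : ℚ) ≤ factA ω e := by exact_mod_cast hS1 e h1 h3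
        apply mul_nonneg (Nat.cast_nonneg _)
        linarith
    · by_cases h3 : e ∈ factMin (factR (tr ω))
      · rw [if_neg h1, if_pos h3, zero_add]
        have h4 : (factV (tr ω) e : ℚ) ≤ factA (tr ω) e := by exact_mod_cast hS2 e h3 h1
        apply mul_nonneg (Nat.cast_nonneg _)
        linarith
      · rw [if_neg h1, if_neg h3, add_zero]
  have h0 := (Finset.sum_eq_zero_iff_of_nonneg hnn).1 hd e₀ (Finset.mem_univ e₀)
  rw [if_pos he, if_neg he', add_zero] at h0
  have hc1 : (insert e₀ (Finset.univ \ factR ω)).card = k := by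
    rw [Finset.card_insert_of_notMem, hk]
    exact fun hh => (Finset.mem_sdiff.1 hh).2 hR
  have hp := KM.kap_ones_pos ω k _ hc1
  have hp' : (kap ω (insert e₀ (Finset.univ \ factR ω)) (List.replicate k 1) : ℚ) ≠ 0 := by
    exact_mod_cast hp.ne'
  have h3 := (mul_eq_zero.1 h0).resolve_left hp'
  have h4 : (factA ω e₀ : ℚ) = factV ω e₀ := by linarith
  exact_mod_cast h4

/-- A merger whose bottom is not the bottom of a splitter lies in `R'` but not in `R`. -/
theorem fact_merger (h5 : St5) (h8 : St8) {ω : P → ℕ} (h : Mini ω) {x b y : P}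
    (hm : Merger ω x b y) (hn : ∀ b' y', ¬ Splitter ω x b' y') :
    x ∈ factR (tr ω) ∧ x ∉ factR ω := by
  obtain ⟨hxb, hby, hno⟩ := hm
  obtain ⟨hmin, hmax, _, _⟩ := (h8 P ω h).1 x b y hxb hby hno
  have htr := k5c P ω h
  have hnmb : ¬ IsMin b := fun hh => absurd (hh hxb.1.le) (not_le_of_gt hxb.1.lt)
  have hnMb : ¬ IsMax b := fun hh => absurd (hh hby.1.le) (not_le_of_gt hby.1.lt)
  have hnsw : ∀ c d, SCov ω x c → ¬ WCov ω c d := by
    intro c d hc hd
    by_cases h1 : ∃ q, WCov ω x q ∧ SCov ω q d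
    · obtain ⟨q, hq1, hq2⟩ := h1
      have hnMq : ¬ IsMax q := fun hh => absurd (hh hq2.1.le) (not_le_of_gt hq2.1.lt)
      have h3 := (h5 P ω h).2.1 x q b hmin hnMq hnMb hq1 hxb
      subst h3
      have hl := ((st1 P ω h).2 q hnmb).1
      have mem : ∀ t, q ≤ t → t ∈ (Finset.univ.filter fun z => q ≤ z) := fun t ht =>
        Finset.mem_filter.2 ⟨Finset.mem_univ t, ht⟩
      have h4 := hl.s_upper q (mem q le_rfl) d (mem d hq2.1.le) y (mem y hby.1.le) hq2 hby
      subst h4
      exact hno ⟨c, hc, hd⟩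
    · exact hn c d ⟨hc, hd, h1⟩
  refine ⟨?_, fun hh => fact_mem_R.1 hh x b y le_rfl hxb hby⟩
  rw [fact_mem_R_tr]
  intro g c d hg hgc hcd
  rcases eq_or_lt_of_le hg with h1 | h1
  · rw [← h1] at hgc
    exact hnsw c d hgc hcd
  · obtain ⟨z, hxz, hzg⟩ := exists_upper_cov h1
    have hnMz : ¬ IsMax z := fun hh =>
      absurd (hh (hzg.trans hgc.1.le)) (not_le_of_gt (lt_of_le_of_lt hzg hgc.1.lt))
    have hnmz : ¬ IsMin z := fun hh => absurd (hh hxz.le) (not_le_of_gt hxz.lt)
    rcases cov_cases h.inj hxz with h3 | h3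
    · have h4 := (h5 P ω h).2.1 x z b hmin hnMz hnMb h3 hxb
      rw [h4] at hzg
      have h6 : LL ω b c := LL_of_sCov hzg hgc le_rfl
      have h9 := (((st1 P ω h).2 b hnmb).2.1 y hby c).1 h6
      have h10 := hmax (h9.trans hcd.1.le)
      exact absurd hcd.1.lt (not_lt_of_ge (h10.trans h9))
    · by_cases h4 : ∃ q, WCov ω z q
      · obtain ⟨q, hq⟩ := h4
        exact hnsw z q h3 hq
      · have h6 : LL (tr ω) z d :=
          LL_of_sCov (hzg.trans hgc.1.le) ((sCov_tr ω c d).2 hcd) le_rfl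
        refine ((st1 P (tr ω) htr).2 z hnmz).2.2 (fun q hq => h4 ⟨q, ?_⟩) d h6
        exact (sCov_tr ω z q).1 hq

/-- **Section 0**: F1. -/
theorem factStmt (h2 : St2) (h5 : St5) (h7 : St7) (h8 : St8) : FactStmt := by
  intro P _ _ ω h x b y hm
  have htr := k5c P ω h
  have hmin : IsMin x := ((h8 P ω h).1 x b y hm.1 hm.2.1 hm.2.2).1
  refine ⟨?_, ?_⟩
  · by_cases hsp : ∀ b' y', ¬ Splitter ω x b' y'
    · obtain ⟨hx, hx'⟩ := fact_merger h5 h8 h hm hsp
      have h1 : x ∈ factMin (factR (tr ω)) := by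
        rw [fact_mem_min]
        exact ⟨hx, fun z _ hz => absurd (hmin hz.le) (not_le_of_gt hz)⟩
      have h3 : x ∉ factMin (factR (tr (tr ω))) := by
        rw [fact_R_tr_tr, fact_mem_min]
        exact fun hh => hx' hh.1
      have h4 := fact_main h2 h5 h7 htr h1 h3
      have h6 : factA (tr ω) x = 1 := by
        unfold factA
        rw [if_pos ⟨b, (sCov_tr ω x b).2 hm.1⟩]
      rw [h6] at h4
      obtain ⟨f, hf⟩ := fact_V_cov h1 h4.le
      exact ⟨f, (wCov_tr ω x f).1 hf⟩
    · push Not at hsp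
      obtain ⟨b', y', hb'⟩ := hsp
      exact ⟨b', hb'.1⟩
  · intro hsp c d hc hd
    obtain ⟨hx, hx'⟩ := fact_merger h5 h8 h hm hsp
    have hcR : c ∈ factR ω := fact_diff_above h2 h hx hc.1.lt
    have hcM : ¬ IsMax c := fun hh => absurd (hh hd.1.le) (not_le_of_gt hd.1.lt)
    have h1 : c ∈ factMin (factR ω) := by
      rw [fact_mem_min]
      refine ⟨hcR, fun z hz hzc => ?_⟩
      obtain ⟨w, hzw, hwc⟩ := exists_lower_cov hzc
      have hw : w ∈ factR ω := fact_R_up hz hzw
      rcases cov_cases h.inj hwc with h3 | h3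
      · exact fact_mem_R.1 hw w c d le_rfl h3 hd
      · have hl := ((st1 P ω h).1 c hcM).1
        have mem : ∀ t, t ≤ c → t ∈ (Finset.univ.filter fun z => z ≤ c) := fun t ht =>
          Finset.mem_filter.2 ⟨Finset.mem_univ t, ht⟩
        have h4 := hl.s_lower x (mem x hc.1.le) w (mem w h3.1.le) c (mem c le_rfl) hc h3
        rw [h4] at hx'
        exact hx' hw
    have h3 : c ∉ factMin (factR (tr ω)) := by
      rw [fact_mem_min]
      exact fun hh => hh.2 x hx hc.1.lt
    have h4 := fact_main h2 h5 h7 h h1 h3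
    have h6 : factA ω c = 1 := by
      unfold factA
      rw [if_pos ⟨d, hd⟩]
    rw [h6] at h4
    obtain ⟨f, hf⟩ := fact_V_cov h1 h4.le
    exact fact_mem_R_tr.1 hx x c f le_rfl hc hf

end two

end Pool.Agent.ST14
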