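import Pool.Agent.ST14.StrStmts2
import Pool.Agent.ST14.St1
import Pool.Agent.ST14.KapMono

/-!
Item (10) of the structure theorem: mergers and splitters exist.

Only the inequality half of `kapMono_inj` is used: if there is no splitter then `N` is order preserving
on `A`, so `kap (N U) ≤ kap U` for good `U`, and the identity (**) forces all ideals of `A` to be
good, which excludes mergers and extra strict covers. By transposition the same holds with the two
kinds exchanged; a poset without mergers, splitters and extra covers is locally skew.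
-/

set_option autoImplicit false

namespace Pool.Agent.ST14

open scoped Classical

namespace M10

variable {P : Type} [Fintype P] [PartialOrder P] {ω : P → ℕ} {N S : P → P}

theorem mem_TS' {U : Finset P} {x : P} : x ∈ TS ω U ↔ ∃ u ∈ U, LL ω x u := by
  unfold TS
  rw [Finset.mem_filter]
  exact ⟨fun h => h.2, fun h => ⟨Finset.mem_univ _, h⟩⟩

theorem AA_of_sCov {x u : P} (h : SCov ω x u) : u ∈ AA ω :=
  mem_AA.2 ⟨x, LL_of_sCov (le_refl x) h (le_refl u)⟩

theorem CC_of_sCov {x u : P} (h : SCov ω x u) : x ∈ CC ω :=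
  mem_CC.2 ⟨u, LL_of_sCov (le_refl x) h (le_refl u)⟩

theorem AA_up' {u v : P} (h : u ∈ AA ω) (huv : u ≤ v) : v ∈ AA ω := by
  obtain ⟨x, hx⟩ := mem_AA.1 h
  exact mem_AA.2 ⟨x, hx.mono (le_refl x) huv⟩

/-- a strict lower cover which is not minimal is `N u` -/
theorem N_eq (hn : Net ω N S) {x u : P} (h : SCov ω x u) (hx : ¬ IsMin x) : x = N u := by
  rcases hn.extra x u h with h1 | h1
  · exact h1
  · exact absurd h1.1 hx

theorem not_min_of_lt {x y : P} (h : x < y) : ¬ IsMin y := fun hm => absurd (hm h.le) (not_le_of_gt h)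

/-- maps which respect typed covers respect the order -/
theorem lt_of_cov {p : P → Prop} {φ : P → P}
    (hp : ∀ x y z, p x → p z → x ≤ y → y ≤ z → p y)
    (hc : ∀ x y, p x → p y → x ⋖ y → φ x < φ y) : ∀ y x, p x → p y → x < y → φ x < φ y := by
  intro y
  induction y using (wellFounded_lt (α := P)).induction with
  | _ y ih =>
    intro x hx hy hxy
    obtain ⟨w, hxw, hwy⟩ := exists_lower_cov hxy
    have hw : p w := hp x w y hx hy hxw hwy.le
    rcases eq_or_lt_of_le hxw with h1 | h1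
    · subst h1
      exact hc x y hx hy hwy
    · exact (ih w hwy.lt x hx hw h1).trans (hc w y hw hy hwy)

theorem LL_of_cov (hω : Function.Injective ω) {p : P → Prop} {φ : P → P}
    (hp : ∀ x y z, p x → p z → x ≤ y → y ≤ z → p y)
    (hc : ∀ x y, p x → p y → x ⋖ y → φ x < φ y)
    (hs : ∀ x y, p x → p y → SCov ω x y → SCov ω (φ x) (φ y)) {x y : P} (hx : p x) (hy : p y)
    (h : LL ω x y) : LL ω (φ x) (φ y) := by
  obtain ⟨a, b, hxa, hab, hby⟩ := (LL_iff hω).1 h
  have ha : p a := hp x a y hx hy hxa (hab.1.le.trans hby)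
  have hb : p b := hp x b y hx hy (hxa.trans hab.1.le) hby
  have h1 : φ x ≤ φ a := by
    rcases eq_or_lt_of_le hxa with h1 | h1
    · rw [h1]
    · exact (lt_of_cov hp hc a x hx ha h1).le
  have h2 : φ b ≤ φ y := by
    rcases eq_or_lt_of_le hby with h1 | h1
    · rw [h1]
    · exact (lt_of_cov hp hc y b hb hy h1).le
  exact LL_of_sCov h1 (hs a b ha hb hab) h2

/-- without splitters `N` respects typed covers in `A` -/
theorem N_cov_typed (hω : Function.Injective ω) (hn : Net ω N S)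
    (hno : ¬ ∃ x b y, Splitter ω x b y) {x y : P} (hx : x ∈ AA ω) (hy : y ∈ AA ω) :
    (WCov ω x y → WCov ω (N x) (N y)) ∧ (SCov ω x y → SCov ω (N x) (N y)) := by
  have hNx := hn.N_cov x hx
  constructor
  · intro h
    have h1 : ∃ c, WCov ω (N x) c ∧ SCov ω c y := by
      by_contra hc
      exact hno ⟨N x, x, y, hNx, h, hc⟩
    obtain ⟨c, hc1, hc2⟩ := h1
    rw [← N_eq hn hc2 (not_min_of_lt hc1.1.lt)]
    exact hc1
  · intro h
    rw [← N_eq hn h (not_min_of_lt hNx.1.lt)]
    exact hNx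

theorem N_strictMono (hω : Function.Injective ω) (hn : Net ω N S)
    (hno : ¬ ∃ x b y, Splitter ω x b y) {x y : P} (hx : x ∈ AA ω) (hy : y ∈ AA ω) (hxy : x < y) :
    N x < N y := by
  refine lt_of_cov (p := fun z => z ∈ AA ω) (φ := N) ?_ ?_ y x hx hy hxy
  · intro a b c ha _ hab _
    exact AA_up' ha hab
  · intro a b ha hb hab
    rcases cov_cases hω hab with h | h
    · exact ((N_cov_typed hω hn hno ha hb).1 h).1.lt
    · exact ((N_cov_typed hω hn hno ha hb).2 h).1.lt

/-- without splitters `kap (N U) ≤ kap U` for good `U` -/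
theorem kap_le (hω : Function.Injective ω) (hn : Net ω N S)
    (hno : ¬ ∃ x b y, Splitter ω x b y) {U : Finset P} (hU : U ∈ idl (AA ω))
    (hg : TS ω U = U.image N) (w : List ℕ) : kap ω (U.image N) w ≤ kap ω U w := by
  have hUA : ∀ x ∈ U, x ∈ AA ω := fun x hx => (K6_mem_idl.1 hU).1 hx
  have hconv : ∀ x y z, x ∈ U → z ∈ U → x ≤ y → y ≤ z → y ∈ U := by
    intro x y z hx hz hxy hyz
    exact (K6_mem_idl.1 hU).2 y (AA_up' (hUA x hx) hxy) z hz hyz
  have hlt : ∀ x y, x ∈ U → y ∈ U → x ⋖ y → N x < N y := fun x y hx hy h =>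
    N_strictMono hω hn hno (hUA x hx) (hUA y hy) h.lt
  refine (kapMono_inj P ω hω (U.image N) U N ?_ ?_ ?_ ?_).1 w
  · rw [← hg]
    intro x _ z hz y _ hyz
    obtain ⟨u, hu, hzu⟩ := mem_TS'.1 hz
    exact mem_TS'.2 ⟨u, hu, hzu.mono hyz (le_refl u)⟩
  · intro x hx z hz y hxy hyz
    exact hconv x y z hx hz hxy hyz
  · refine ⟨?_, ?_, ?_⟩
    · intro x hx
      exact Finset.mem_coe.2 (Finset.mem_image_of_mem N (Finset.mem_coe.1 hx))
    · intro x hx y hy hxy
      rw [← hn.SN x (hUA x hx), ← hn.SN y (hUA y hy), hxy]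
    · intro z hz
      obtain ⟨u, hu, rfl⟩ := Finset.mem_image.1 (Finset.mem_coe.1 hz)
      exact ⟨u, hu, rfl⟩
  · intro x hx x' hx' hxx
    refine ⟨N_strictMono hω hn hno (hUA x hx) (hUA x' hx') hxx, fun hlt' => ?_⟩
    exact LL_of_cov hω (p := fun z => z ∈ U) hconv hlt
      (fun a b ha hb h => (N_cov_typed hω hn hno (hUA a ha) (hUA b hb)).2 h) hx hx'
      ⟨x, x', le_refl x, hxx, le_refl x', hlt'⟩

/-- without splitters all ideals of `A` are good -/
theorem all_good (h9 : St9) (hm : Mini ω) (hn : Net ω N S)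
    (hno : ¬ ∃ x b y, Splitter ω x b y) : ∀ U ∈ idl (AA ω), U ∈ good ω N := by
  intro U₀ hU₀
  by_contra hbad
  have h := h9 P ω hm N S hn (List.replicate U₀.card 1) (List.replicate (AA ω \ U₀).card 1)
  set w := List.replicate U₀.card 1 with hw
  set v := List.replicate (AA ω \ U₀).card 1 with hv
  have hsub : good ω N ⊆ (idl (AA ω)).erase U₀ := by
    intro U hU
    rw [Finset.mem_erase]
    refine ⟨?_, ?_⟩
    · rintro rfl
      exact hbad hU
    · unfold good at hU
      exact (Finset.mem_filter.1 hU).1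
  have h1 : ∑ U ∈ good ω N, kap ω (U.image N) w * kap ω (AA ω \ U) v ≤
      ∑ U ∈ (idl (AA ω)).erase U₀, kap ω U w * kap ω (AA ω \ U) v := by
    refine le_trans (Finset.sum_le_sum fun U hU => ?_) (Finset.sum_le_sum_of_subset hsub)
    unfold good at hU
    obtain ⟨hU1, hU2⟩ := Finset.mem_filter.1 hU
    exact Nat.mul_le_mul_right _ (kap_le hm.inj hn hno hU1 hU2 w)
  have h2 : 0 < kap ω U₀ w * kap ω (AA ω \ U₀) v :=
    Nat.mul_pos (K6_lin ω _ U₀ rfl) (K6_lin ω _ (AA ω \ U₀) rfl)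
  rw [h, ← Finset.add_sum_erase _ _ hU₀] at h1
  omega

theorem Iic_mem_idl (y : P) : (AA ω).filter (fun u => u ≤ y) ∈ idl (AA ω) := by
  rw [K6_mem_idl]
  refine ⟨Finset.filter_subset _ _, fun x hx u hu hxu => ?_⟩
  rw [Finset.mem_filter] at hu ⊢
  exact ⟨hx, hxu.trans hu.2⟩

/-- a merger or an extra strict cover forces a splitter -/
theorem splitter_of (h9 : St9) (h9g : St9g) (hm : Mini ω) (hn : Net ω N S)
    (h : (∃ x b y, Merger ω x b y) ∨ ∃ i M, SCov ω i M ∧ i ≠ N M) :
    ∃ x b y, Splitter ω x b y := by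
  by_contra hno
  have hall := all_good h9 hm hn hno
  rcases h with ⟨x, b, y, hmer⟩ | ⟨i, M, hiM, hne⟩
  · obtain ⟨hxb, hby, hcor⟩ := id hmer
    have hyA : y ∈ AA ω := AA_of_sCov hby
    obtain ⟨hxC, hSx⟩ := ((h9g P ω hm N S hn _ (Iic_mem_idl (ω := ω) y)).1 (hall _ (Iic_mem_idl y))).1
      x b y hmer (Finset.mem_filter.2 ⟨hyA, le_refl y⟩)
    obtain ⟨hSA, hSy⟩ := Finset.mem_filter.1 hSx
    have hcov := hn.S_cov x hxC
    have hNy : b = N y := N_eq hn hby (not_min_of_lt hxb.1.lt)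
    have hSy' : S x < y := by
      rcases eq_or_lt_of_le hSy with h1 | h1
      · exfalso
        rw [h1] at hcov
        exact hcov.1.2 hxb.1.lt hby.1.lt
      · exact h1
    obtain ⟨c, hSc, hcy⟩ := exists_lower_cov hSy'
    have hcA : c ∈ AA ω := AA_up' hSA hSc
    have h1 : x ≤ N c := by
      rcases eq_or_lt_of_le hSc with h1 | h1
      · rw [← h1, hn.NS x hxC]
      · have h2 := N_strictMono hm.inj hn hno hSA hcA h1
        rw [hn.NS x hxC] at h2
        exact h2.le
    have h2 : N c < b := by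
      rw [hNy]
      exact N_strictMono hm.inj hn hno hcA hyA hcy.lt
    have h3 : x = N c := by
      rcases eq_or_lt_of_le h1 with h4 | h4
      · exact h4
      · exact absurd h2 (hxb.1.2 h4)
    have h4 : c = S x := by rw [h3, hn.SN c hcA]
    rcases cov_cases hm.inj hcy with h5 | h5
    · exact hcor ⟨c, h4 ▸ hcov, h5⟩
    · have h6 : c = N y := N_eq hn h5 (not_min_of_lt (lt_of_lt_of_le hcov.1.lt hSc))
      have h7 : S x = b := by rw [← h4, h6, ← hNy]
      have h8 := hcov.2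
      rw [h7] at h8
      have h9 := hxb.2
      omega
  · have hMA : M ∈ AA ω := AA_of_sCov hiM
    have hiC : i ∈ CC ω := CC_of_sCov hiM
    have hSi := ((h9g P ω hm N S hn _ (Iic_mem_idl (ω := ω) M)).1 (hall _ (Iic_mem_idl M))).2
      i M hiM hne (Finset.mem_filter.2 ⟨hMA, le_refl M⟩)
    obtain ⟨_, hSM⟩ := Finset.mem_filter.1 hSi
    rcases eq_or_lt_of_le hSM with h1 | h1
    · exact hne (by rw [← h1, hn.NS i hiC])
    · exact hiM.1.2 (hn.S_cov i hiC).1.lt h1

theorem merger_tr (x b y : P) : Merger (tr ω) x b y ↔ Splitter ω x b y := by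
  unfold Merger Splitter
  simp only [wCov_tr, sCov_tr]

theorem splitter_tr (x b y : P) : Splitter (tr ω) x b y ↔ Merger ω x b y := by
  unfold Merger Splitter
  simp only [wCov_tr, sCov_tr]

end M10

open M10 in
/-- (10). -/
theorem st10 (h7 : St7) (h9 : St9) (h9g : St9g) : St10 := by
  intro P _ _ ω hm hns
  obtain ⟨N, S, hn⟩ := h7 P ω hm
  obtain ⟨W, E, hn'⟩ := h7 P (tr ω) (k5c P ω hm)
  have hA := fun h => splitter_of h9 h9g hm hn h
  have hB := fun h => splitter_of h9 h9g (k5c P ω hm) hn' h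
  simp only [merger_tr, splitter_tr, sCov_tr] at hB
  by_contra hcon
  have hnm : ¬ ∃ x b y, Merger ω x b y := fun h => hcon ⟨h, hA (Or.inl h)⟩
  have hnsp : ¬ ∃ x b y, Splitter ω x b y := fun h => hcon ⟨hB (Or.inl h), h⟩
  have hs : ∀ x u, SCov ω x u → x = N u := by
    intro x u h
    by_contra hne
    exact hnsp (hA (Or.inr ⟨x, u, h, hne⟩))
  have hw : ∀ x u, WCov ω x u → x = W u := by
    intro x u h
    by_contra hne
    exact hnm (hB (Or.inr ⟨x, u, h, hne⟩))
  refine hns ⟨?_, ?_, ?_, ?_, ?_, ?_⟩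
  · intro x x' y h h'
    rw [hw x y h, hw x' y h']
  · intro x y y' h h'
    have h1 : y ∈ AA (tr ω) := AA_of_sCov ((sCov_tr ω x y).2 h)
    have h2 : y' ∈ AA (tr ω) := AA_of_sCov ((sCov_tr ω x y').2 h')
    rw [← hn'.SN y h1, ← hn'.SN y' h2, ← hw x y h, ← hw x y' h']
  · intro x x' y h h'
    rw [hs x y h, hs x' y h']
  · intro x y y' h h'
    rw [← hn.SN y (AA_of_sCov h), ← hn.SN y' (AA_of_sCov h'), ← hs x y h, ← hs x y' h']
  · intro x b y h h'
    by_contra hc
    exact hnm ⟨x, b, y, h, h', hc⟩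
  · intro x b y h h'
    by_contra hc
    exact hnsp ⟨x, b, y, h, h', hc⟩

end Pool.Agent.ST14
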