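import Pool.Agent.ST14.RimStmts
import Pool.Agent.ST14.St9
import Pool.Agent.ST14.St10

/-!
Section 4 (free components): the reachability arguments.
-/

set_option autoImplicit false

namespace Pool.Agent.ST14

open scoped Classical

namespace Fre

section comps

variable {P : Type} [PartialOrder P] {ω : P → ℕ} {N S : P → P} {A B Q T : Finset P}

theorem adj_symm {x y : P} (h : Adj Q x y) : Adj Q y x := ⟨h.2.1, h.1, h.2.2.symm⟩

theorem conn_symm {x y : P} (h : Conn Q x y) : Conn Q y x := by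
  induction h with
  | refl => exact Relation.ReflTransGen.refl
  | tail _ hbc ih => exact Relation.ReflTransGen.head (adj_symm hbc) ih

theorem mem_comp {x y : P} : y ∈ comp Q x ↔ y ∈ Q ∧ Conn Q x y := by
  unfold comp
  rw [Finset.mem_filter]

theorem mem_comps : T ∈ comps Q ↔ ∃ x ∈ Q, comp Q x = T := by
  unfold comps
  rw [Finset.mem_image]

theorem self_mem_comp {x : P} (hx : x ∈ Q) : x ∈ comp Q x :=
  mem_comp.2 ⟨hx, Relation.ReflTransGen.refl⟩

theorem comps_sub (hT : T ∈ comps Q) : T ⊆ Q := by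
  obtain ⟨x, _, rfl⟩ := mem_comps.1 hT
  exact fun y hy => (mem_comp.1 hy).1

theorem mem_nwrim {e : P} : e ∈ nwrim ω T ↔ e ∈ T ∧ ∀ x, ¬ NW ω T x e := by
  unfold nwrim
  rw [Finset.mem_filter]

theorem nwrim_sub (ω : P → ℕ) (T : Finset P) : nwrim ω T ⊆ T := Finset.filter_subset _ _

theorem serim_sub (ω : P → ℕ) (T : Finset P) : serim ω T ⊆ T := Finset.filter_subset _ _

theorem not_max_of_lt {x y : P} (h : x < y) : ¬ IsMax x := fun hm =>
  absurd (hm h.le) (not_le_of_gt h)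

/-- closed under adjacency in `Q` -/
def Cl (Q B : Finset P) : Prop := ∀ x ∈ B, ∀ y ∈ Q, (x ⋖ y ∨ y ⋖ x) → y ∈ B

theorem Cl.conn (h : Cl Q B) {x y : P} (hx : x ∈ B) (hxy : Conn Q x y) : y ∈ B := by
  induction hxy with
  | refl => exact hx
  | tail _ hbc ih => exact h _ ih _ hbc.2.1 hbc.2.2

theorem Cl.mono (h : Cl A B) (hQ : Q ⊆ A) : Cl Q B := fun x hx y hy => h x hx y (hQ hy)

theorem Cl.dich (h : Cl Q B) (hT : T ∈ comps Q) : T ⊆ B ∨ Disjoint T B := by
  obtain ⟨t, ht, rfl⟩ := mem_comps.1 hT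
  by_cases htB : t ∈ B
  · left
    intro y hy
    exact h.conn htB (mem_comp.1 hy).2
  · right
    rw [Finset.disjoint_left]
    intro y hy hyB
    exact htB (h.conn hyB (conn_symm (mem_comp.1 hy).2))

theorem cl_of_comps (hT : T ∈ comps Q) : Cl Q T := by
  obtain ⟨t, ht, rfl⟩ := mem_comps.1 hT
  intro x hx y hy hxy
  rw [mem_comp] at hx ⊢
  exact ⟨hy, hx.2.tail ⟨hx.1, hy, hxy⟩⟩

end comps

section fr

variable {P : Type} [Fintype P] [PartialOrder P] {ω : P → ℕ} {N S : P → P} {B Q T V W : Finset P}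

/-- a free part of `A` -/
structure Fr (ω : P → ℕ) (N : P → P) (B : Finset P) : Prop where
  sub : B ⊆ AA ω
  clA : Cl (AA ω) B
  clC : Cl (CC ω) (B.image N)
  w : ∀ x ∈ B, ∀ y ∈ B, (WCov ω x y ↔ WCov ω (N x) (N y))
  s : ∀ x ∈ B, ∀ y ∈ B, (SCov ω x y ↔ SCov ω (N x) (N y))

theorem extra' (hn : Net ω N S) {x u : P} (h : SCov ω x u) (hu : ¬ IsMax u) : x = N u := by
  rcases hn.extra x u h with h1 | h1
  · exact h1
  · exact absurd h1.2.1 hu

theorem N_mem (hn : Net ω N S) {x : P} (hx : x ∈ AA ω) : N x ∈ CC ω :=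
  M10.CC_of_sCov (hn.N_cov x hx)

theorem S_mem (hn : Net ω N S) {x : P} (hx : x ∈ CC ω) : S x ∈ AA ω :=
  M10.AA_of_sCov (hn.S_cov x hx)

/-- corner of a ws chain below an element of a free component -/
theorem ws_corner (hn : Net ω N S)
    (h2 : ∀ x b y, Merger ω x b y → y ∉ B ∧ (x ∈ CC ω → S x ∉ B))
    {x y : P} (hx : x ∈ AA ω) (hy : y ∈ AA ω) (hB : x ∈ B ∨ y ∈ B)
    (h : WCov ω (N x) (N y)) : WCov ω x y := by
  have h3 : ∃ c, SCov ω (N x) c ∧ WCov ω c y := by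
    by_contra hc
    have h4 := h2 (N x) (N y) y ⟨h, hn.N_cov y hy, hc⟩
    rcases hB with h5 | h5
    · refine h4.2 (N_mem hn hx) ?_
      rw [hn.SN x hx]
      exact h5
    · exact h4.1 h5
  obtain ⟨c, hc1, hc2⟩ := h3
  have h4 : N x = N c := extra' hn hc1 (not_max_of_lt hc2.1.lt)
  have h5 : x = c := by
    rw [← hn.SN x hx, ← hn.SN c (M10.AA_of_sCov hc1), h4]
  rw [h5]
  exact hc2

theorem s_down (hn : Net ω N S) {x y : P} (hx : x ∈ AA ω) (hy : y ∈ AA ω)
    (h : SCov ω (N x) (N y)) : SCov ω x y := by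
  have h1 : N x = N (N y) := extra' hn h (not_max_of_lt (hn.N_cov y hy).1.lt)
  have h2 : x = N y := by
    rw [← hn.SN x hx, ← hn.SN (N y) (M10.AA_of_sCov h), h1]
  rw [h2]
  exact hn.N_cov y hy

theorem fr_of (hm : Mini ω) (hn : Net ω N S) (hB : B ∈ comps (AA ω))
    (h1 : ∀ x b' y', Splitter ω x b' y' → b' ∉ B)
    (h2 : ∀ x b y, Merger ω x b y → y ∉ B ∧ (x ∈ CC ω → S x ∉ B)) : Fr ω N B := by
  have hsub := comps_sub hB
  have hcl := cl_of_comps hB
  refine ⟨hsub, hcl, ?_, ?_, ?_⟩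
  · intro z hz y' hy' hadj
    obtain ⟨x, hx, rfl⟩ := Finset.mem_image.1 hz
    have hxA := hsub hx
    have hyA := S_mem hn hy'
    rw [← hn.NS y' hy'] at hadj ⊢
    refine Finset.mem_image_of_mem N ?_
    rcases hadj with h | h
    · rcases cov_cases hm.inj h with h | h
      · exact hcl x hx _ hyA (Or.inl (ws_corner hn h2 hxA hyA (Or.inl hx) h).1)
      · exact hcl x hx _ hyA (Or.inl (s_down hn hxA hyA h).1)
    · rcases cov_cases hm.inj h with h | h
      · exact hcl x hx _ hyA (Or.inr (ws_corner hn h2 hyA hxA (Or.inr hx) h).1)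
      · exact hcl x hx _ hyA (Or.inr (s_down hn hyA hxA h).1)
  · intro x hx y hy
    refine ⟨fun h => ?_, fun h => ws_corner hn h2 (hsub hx) (hsub hy) (Or.inl hx) h⟩
    have h3 : ∃ c, WCov ω (N x) c ∧ SCov ω c y := by
      by_contra hc
      exact h1 (N x) x y ⟨hn.N_cov x (hsub hx), h, hc⟩ hx
    obtain ⟨c, hc1, hc2⟩ := h3
    rw [← M10.N_eq hn hc2 (M10.not_min_of_lt hc1.1.lt)]
    exact hc1
  · intro x hx y hy
    refine ⟨fun h => ?_, fun h => s_down hn (hsub hx) (hsub hy) h⟩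
    have h3 := hn.N_cov x (hsub hx)
    rw [← M10.N_eq hn h (M10.not_min_of_lt h3.1.lt)]
    exact h3

theorem Fr.cov (hm : Mini ω) (hF : Fr ω N B) {x y : P} (hx : x ∈ B) (hy : y ∈ B) :
    x ⋖ y ↔ N x ⋖ N y := by
  constructor
  · intro h
    rcases cov_cases hm.inj h with h | h
    · exact ((hF.w x hx y hy).1 h).1
    · exact ((hF.s x hx y hy).1 h).1
  · intro h
    rcases cov_cases hm.inj h with h | h
    · exact ((hF.w x hx y hy).2 h).1
    · exact ((hF.s x hx y hy).2 h).1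

theorem N_inj (hn : Net ω N S) {x y : P} (hx : x ∈ AA ω) (hy : y ∈ AA ω) (h : N x = N y) :
    x = y := by
  rw [← hn.SN x hx, ← hn.SN y hy, h]

theorem mem_of_image (hn : Net ω N S) (hF : Fr ω N B) {x : P} (hx : x ∈ AA ω)
    (h : N x ∈ B.image N) : x ∈ B := by
  obtain ⟨y, hy, h1⟩ := Finset.mem_image.1 h
  rw [← N_inj hn (hF.sub hy) hx h1]
  exact hy

theorem comp_image (hm : Mini ω) (hn : Net ω N S) (hF : Fr ω N B) (hQ : Q ⊆ AA ω) {t : P}
    (ht : t ∈ Q) (htB : t ∈ B) : comp (Q.image N) (N t) = (comp Q t).image N := by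
  have key : ∀ z, Conn (Q.image N) (N t) z → ∃ y ∈ B, y ∈ Q ∧ z = N y ∧ Conn Q t y := by
    intro z hz
    induction hz with
    | refl => exact ⟨t, htB, ht, rfl, Relation.ReflTransGen.refl⟩
    | tail _ hbc ih =>
      obtain ⟨y, hyB, hyQ, rfl, hc⟩ := ih
      obtain ⟨_, h2, h3⟩ := hbc
      obtain ⟨y', hy', rfl⟩ := Finset.mem_image.1 h2
      have h4 : y' ∈ B := mem_of_image hn hF (hQ hy')
        (hF.clC (N y) (Finset.mem_image_of_mem N hyB) (N y') (N_mem hn (hQ hy')) h3)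
      refine ⟨y', h4, hy', rfl, hc.tail ⟨hyQ, hy', ?_⟩⟩
      rcases h3 with h3 | h3
      · exact Or.inl ((hF.cov hm hyB h4).2 h3)
      · exact Or.inr ((hF.cov hm h4 hyB).2 h3)
  have key2 : ∀ y, Conn Q t y → y ∈ B ∧ Conn (Q.image N) (N t) (N y) := by
    intro y hy
    induction hy with
    | refl => exact ⟨htB, Relation.ReflTransGen.refl⟩
    | tail _ hbc ih =>
      obtain ⟨h1, h2, h3⟩ := hbc
      have h4 := hF.clA _ ih.1 _ (hQ h2) h3
      refine ⟨h4, ih.2.tail ⟨Finset.mem_image_of_mem N h1, Finset.mem_image_of_mem N h2, ?_⟩⟩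
      rcases h3 with h3 | h3
      · exact Or.inl ((hF.cov hm ih.1 h4).1 h3)
      · exact Or.inr ((hF.cov hm h4 ih.1).1 h3)
  ext z
  rw [mem_comp]
  constructor
  · rintro ⟨_, h2⟩
    obtain ⟨y, _, hyQ, rfl, hc⟩ := key z h2
    exact Finset.mem_image_of_mem N (mem_comp.2 ⟨hyQ, hc⟩)
  · intro h
    obtain ⟨y, hy, rfl⟩ := Finset.mem_image.1 h
    rw [mem_comp] at hy
    exact ⟨Finset.mem_image_of_mem N hy.1, (key2 y hy.2).2⟩

theorem comps_image (hm : Mini ω) (hn : Net ω N S) (hF : Fr ω N B) (hQ : Q ⊆ AA ω)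
    (hT : T ∈ comps Q) (hTB : T ⊆ B) : T.image N ∈ comps (Q.image N) := by
  obtain ⟨t, ht, rfl⟩ := mem_comps.1 hT
  rw [← comp_image hm hn hF hQ ht (hTB (self_mem_comp ht))]
  exact mem_comps.2 ⟨N t, Finset.mem_image_of_mem N ht, rfl⟩

theorem comps_of_image (hm : Mini ω) (hn : Net ω N S) (hF : Fr ω N B) (hQ : Q ⊆ AA ω)
    {σ : Finset P} (hσ : σ ∈ comps (Q.image N)) (hσB : σ ⊆ B.image N) :
    ∃ T ∈ comps Q, T ⊆ B ∧ σ = T.image N := by
  obtain ⟨s, hs, rfl⟩ := mem_comps.1 hσ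
  obtain ⟨t, ht, rfl⟩ := Finset.mem_image.1 hs
  have htB : t ∈ B := mem_of_image hn hF (hQ ht) (hσB (self_mem_comp hs))
  refine ⟨comp Q t, mem_comps.2 ⟨t, ht, rfl⟩, ?_, comp_image hm hn hF hQ ht htB⟩
  intro y hy
  exact (hF.clA.mono hQ).conn htB (mem_comp.1 hy).2

theorem nw_iff (hF : Fr ω N B) (hT : T ⊆ B) {x e : P} (hx : x ∈ T)
    (he : e ∈ T) : NW ω (T.image N) (N x) (N e) ↔ NW ω T x e := by
  unfold NW
  constructor
  · rintro ⟨_, _, ⟨g', hg', h1, h2⟩, ⟨f', hf', h3, h4⟩⟩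
    obtain ⟨g, hg, rfl⟩ := Finset.mem_image.1 hg'
    obtain ⟨f, hf, rfl⟩ := Finset.mem_image.1 hf'
    exact ⟨hx, he, ⟨g, hg, (hF.w x (hT hx) g (hT hg)).2 h1, (hF.s g (hT hg) e (hT he)).2 h2⟩,
      ⟨f, hf, (hF.s x (hT hx) f (hT hf)).2 h3, (hF.w f (hT hf) e (hT he)).2 h4⟩⟩
  · rintro ⟨_, _, ⟨g, hg, h1, h2⟩, ⟨f, hf, h3, h4⟩⟩
    exact ⟨Finset.mem_image_of_mem N hx, Finset.mem_image_of_mem N he,
      ⟨N g, Finset.mem_image_of_mem N hg, (hF.w x (hT hx) g (hT hg)).1 h1,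
        (hF.s g (hT hg) e (hT he)).1 h2⟩,
      ⟨N f, Finset.mem_image_of_mem N hf, (hF.s x (hT hx) f (hT hf)).1 h3,
        (hF.w f (hT hf) e (hT he)).1 h4⟩⟩

theorem nwrim_image (hn : Net ω N S) (hF : Fr ω N B) (hT : T ⊆ B) :
    nwrim ω (T.image N) = (nwrim ω T).image N := by
  ext z
  rw [mem_nwrim]
  constructor
  · rintro ⟨h0, h⟩
    obtain ⟨e, he, rfl⟩ := Finset.mem_image.1 h0
    refine Finset.mem_image_of_mem N (mem_nwrim.2 ⟨he, fun x hx => ?_⟩)
    exact h (N x) ((nw_iff hF hT hx.1 he).2 hx)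
  · intro h
    obtain ⟨e, he, rfl⟩ := Finset.mem_image.1 h
    rw [mem_nwrim] at he
    refine ⟨Finset.mem_image_of_mem N he.1, fun x hx => ?_⟩
    obtain ⟨x', hx', rfl⟩ := Finset.mem_image.1 hx.1
    exact he.2 x' ((nw_iff hF hT hx' he.1).1 hx)

theorem card_nwrim_image (hn : Net ω N S) (hF : Fr ω N B) (hT : T ⊆ B) :
    (nwrim ω (T.image N)).card = (nwrim ω T).card := by
  rw [nwrim_image hn hF hT]
  refine hn.card_image ?_
  intro x hx
  exact hF.sub (hT (nwrim_sub ω T hx))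

theorem good_idl (hV : V ∈ good ω N) : V ∈ idl (AA ω) := (mem_good.1 hV).1

theorem skw_sdiff (hm : Mini ω) (hV : V ∈ good ω N) (hW : W ∈ good ω N) (x₀ : P) :
    Skw ω (W \ V) := by
  have hV1 := mem_idl.1 (good_idl hV)
  have hW1 := mem_idl.1 (good_idl hW)
  refine ⟨?_, (hm.locAA x₀).mono (Finset.sdiff_subset.trans hW1.1)⟩
  intro x hx z hz y hxy hyz
  rw [Finset.mem_sdiff] at *
  have hyA : y ∈ AA ω := M10.AA_up' (hW1.1 hx.1) hxy
  exact ⟨hW1.2 y hyA z hz.1 hyz, fun h => hx.2 (hV1.2 x (hW1.1 hx.1) y h hxy)⟩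

theorem skw_image (hm : Mini ω) (hn : Net ω N S) (hV : V ∈ good ω N) (hW : W ∈ good ω N)
    (x₀ : P) : Skw ω ((W \ V).image N) := by
  have hV1 := mem_idl.1 (good_idl hV)
  have hW1 := mem_idl.1 (good_idl hW)
  have hV2 := (mem_good.1 hV).2
  have hW2 := (mem_good.1 hW).2
  refine ⟨?_, (hm.locCC x₀).mono ?_⟩
  · intro x' hx' z' hz' y hxy hyz
    obtain ⟨x, hx, rfl⟩ := Finset.mem_image.1 hx'
    obtain ⟨z, hz, rfl⟩ := Finset.mem_image.1 hz'
    rw [Finset.mem_sdiff] at hx hz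
    have h1 : N z ∈ TS ω W := by
      rw [hW2]
      exact Finset.mem_image_of_mem N hz.1
    have h2 : y ∈ TS ω W := by
      obtain ⟨u, hu, h⟩ := mem_TS.1 h1
      exact mem_TS.2 ⟨u, hu, h.mono hyz le_rfl⟩
    rw [hW2] at h2
    obtain ⟨t, ht, rfl⟩ := Finset.mem_image.1 h2
    refine Finset.mem_image_of_mem N (Finset.mem_sdiff.2 ⟨ht, fun htV => hx.2 ?_⟩)
    have h3 : N t ∈ TS ω V := by
      rw [hV2]
      exact Finset.mem_image_of_mem N htV
    have h4 : N x ∈ TS ω V := by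
      obtain ⟨u, hu, h⟩ := mem_TS.1 h3
      exact mem_TS.2 ⟨u, hu, h.mono hxy le_rfl⟩
    rw [hV2] at h4
    obtain ⟨x'', hx'', he⟩ := Finset.mem_image.1 h4
    rw [← N_inj hn (hV1.1 hx'') (hW1.1 hx.1) he]
    exact hx''
  · intro x' hx'
    obtain ⟨x, hx, rfl⟩ := Finset.mem_image.1 hx'
    exact N_mem hn (hW1.1 (Finset.mem_sdiff.1 hx).1)

omit [Fintype P] in
theorem topLam (hL : LamStmt) (hω : Function.Injective ω) {Q : Finset P} (hQ : Skw ω Q)
    (hne : Q.Nonempty) : ∃ L l, lam ω Q = L :: l ∧ 0 < L ∧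
      (∀ T ∈ comps Q, (nwrim ω T).card ≤ L) ∧ ∃ T ∈ comps Q, (nwrim ω T).card = L := by
  obtain ⟨_, _, _, h4, h5, _, h7⟩ := hL P ω hω Q hQ
  match hl : lam ω Q with
  | [] =>
    exfalso
    rw [hl] at h5
    have := hne.card_pos
    rw [← h5] at this
    exact absurd this (by simp)
  | L :: l =>
    obtain ⟨h8, h9, _⟩ := h7 L l hl
    refine ⟨L, l, rfl, h4 L (by rw [hl]; exact List.mem_cons_self), h8, ?_⟩
    rw [hl] at h9
    have h10 : 0 < ((comps Q).filter (fun T => (nwrim ω T).card = L)).card := by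
      rw [h9, List.count_cons_self]
      omega
    obtain ⟨T, hT⟩ := Finset.card_pos.1 h10
    rw [Finset.mem_filter] at hT
    exact ⟨T, hT.1, hT.2⟩

/-- one RIGHT step with a longest component `T` -/
theorem right_step (hSE : SEStmt) (hω : Function.Injective ω) (hskw : Skw ω (W \ V))
    (hr : Reach ω N S V W) (hT : T ∈ comps (W \ V)) {L : ℕ} (hpos : 0 < L)
    (hTL : (nwrim ω T).card = L) (hmax : ∀ T ∈ comps (W \ V), (nwrim ω T).card ≤ L) :
    Reach ω N S V (W \ serim ω T) ∧ ((W \ serim ω T) \ V).card < (W \ V).card := by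
  refine ⟨Reach.right V W T hr hT ?_, ?_⟩
  · intro τ' hτ'
    rw [(hSE P ω hω _ hskw τ' hτ').1, (hSE P ω hω _ hskw T hT).1, hTL]
    exact hmax τ' hτ'
  · have h1 : (serim ω T).card = L := by rw [(hSE P ω hω _ hskw T hT).1, hTL]
    obtain ⟨z, hz⟩ := Finset.card_pos.1 (by rw [h1]; exact hpos)
    have hzQ : z ∈ W \ V := comps_sub hT (serim_sub ω T hz)
    refine Finset.card_lt_card ⟨?_, fun h => ?_⟩
    · intro y hy
      rw [Finset.mem_sdiff, Finset.mem_sdiff] at hy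
      exact Finset.mem_sdiff.2 ⟨hy.1.1, hy.2⟩
    · have := h hzQ
      rw [Finset.mem_sdiff, Finset.mem_sdiff] at this
      exact this.1.2 hz

/-- one LEFT step with a longest component `σ` -/
theorem left_step (hn : Net ω N S) (hWA : W ⊆ AA ω) (hr : Reach ω N S V W) {σ : Finset P}
    (hσ : σ ∈ comps ((W \ V).image N)) {L : ℕ} (hpos : 0 < L)
    (hσL : (nwrim ω σ).card = L)
    (hmax : ∀ σ ∈ comps ((W \ V).image N), (nwrim ω σ).card ≤ L) :
    Reach ω N S (V ∪ (nwrim ω σ).image S) W ∧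
      (W \ (V ∪ (nwrim ω σ).image S)).card < (W \ V).card := by
  refine ⟨Reach.left V W σ hr hσ ?_, ?_⟩
  · intro σ' hσ'
    rw [hσL]
    exact hmax σ' hσ'
  · obtain ⟨z, hz⟩ := Finset.card_pos.1 (by rw [hσL]; exact hpos)
    have hzQ : z ∈ (W \ V).image N := comps_sub hσ (nwrim_sub ω σ hz)
    obtain ⟨y, hy, rfl⟩ := Finset.mem_image.1 hzQ
    have hyA : y ∈ AA ω := hWA (Finset.mem_sdiff.1 hy).1
    refine Finset.card_lt_card ⟨?_, fun h => ?_⟩
    · intro y hy
      rw [Finset.mem_sdiff, Finset.mem_union] at hy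
      exact Finset.mem_sdiff.2 ⟨hy.1, fun h => hy.2 (Or.inl h)⟩
    · have := h hy
      rw [Finset.mem_sdiff, Finset.mem_union] at this
      refine this.2 (Or.inr (Finset.mem_image.2 ⟨N y, hz, hn.SN y hyA⟩))

/-- a free part is good -/
theorem good_B (hRP : RPStmt) (hL : LamStmt) (hSE : SEStmt) (hm : Mini ω) (hn : Net ω N S)
    (hF : Fr ω N B) : ∀ (n : ℕ) (V W : Finset P), (W \ V).card = n → Reach ω N S V W → V ⊆ B →
    B ⊆ W → B ∈ good ω N := by
  intro n
  induction n using Nat.strong_induction_on with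
  | _ n ih =>
    intro V W hcard hr hVB hBW
    obtain ⟨hV, hW, hVW, hlam⟩ := hRP P ω hm N S hn V W hr
    have hWA : W ⊆ AA ω := (mem_idl.1 (good_idl hW)).1
    rcases (W \ V).eq_empty_or_nonempty with h0 | h0
    · have h1 : B = V := Finset.Subset.antisymm
        (hBW.trans (Finset.sdiff_eq_empty_iff_subset.1 h0)) hVB
      rw [h1]
      exact hV
    · obtain ⟨x₀, _⟩ := id h0
      have hs1 := skw_sdiff hm hV hW x₀
      have hs2 := skw_image hm hn hV hW x₀
      have hQA : W \ V ⊆ AA ω := Finset.sdiff_subset.trans hWA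
      obtain ⟨L, l, hl, hpos, hmax, T, hT, hTL⟩ := topLam hL hm.inj hs1 h0
      obtain ⟨L', l', hl', _, hmax', _⟩ := topLam hL hm.inj hs2 (h0.image N)
      have hLL : L' = L := by
        rw [hlam, hl] at hl'
        exact (List.cons.inj hl').1.symm
      by_cases hex : ∃ T ∈ comps (W \ V), (nwrim ω T).card = L ∧ Disjoint T B
      · obtain ⟨T, hT, hTL, hTB⟩ := hex
        obtain ⟨h1, h2⟩ := right_step hSE hm.inj hs1 hr hT hpos hTL hmax
        refine ih _ (hcard ▸ h2) V _ rfl h1 hVB ?_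
        intro x hx
        exact Finset.mem_sdiff.2 ⟨hBW hx, fun h => Finset.disjoint_left.1 hTB (serim_sub ω T h) hx⟩
      · have hTB : T ⊆ B := by
          rcases (hF.clA.mono hQA).dich hT with h | h
          · exact h
          · exact absurd ⟨T, hT, hTL, h⟩ hex
        obtain ⟨h1, h2⟩ := left_step hn hWA hr (comps_image hm hn hF hQA hT hTB) hpos
          (by rw [card_nwrim_image hn hF hTB]; exact hTL) (by rw [← hLL]; exact hmax')
        refine ih _ (hcard ▸ h2) _ W rfl h1 ?_ hBW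
        refine Finset.union_subset hVB ?_
        intro y hy
        obtain ⟨z, hz, rfl⟩ := Finset.mem_image.1 hy
        obtain ⟨t, ht, rfl⟩ := Finset.mem_image.1 (nwrim_sub ω _ hz)
        rw [hn.SN t (hF.sub (hTB ht))]
        exact hTB ht

/-- the complement of a free part is good -/
theorem good_R (hRP : RPStmt) (hL : LamStmt) (hSE : SEStmt) (hm : Mini ω) (hn : Net ω N S)
    (hF : Fr ω N B) : ∀ (n : ℕ) (V W : Finset P), (W \ V).card = n → Reach ω N S V W →
    V ⊆ AA ω \ B → AA ω \ B ⊆ W → AA ω \ B ∈ good ω N := by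
  intro n
  induction n using Nat.strong_induction_on with
  | _ n ih =>
    intro V W hcard hr hVB hBW
    obtain ⟨hV, hW, hVW, hlam⟩ := hRP P ω hm N S hn V W hr
    have hWA : W ⊆ AA ω := (mem_idl.1 (good_idl hW)).1
    rcases (W \ V).eq_empty_or_nonempty with h0 | h0
    · have h1 : AA ω \ B = V := Finset.Subset.antisymm
        (hBW.trans (Finset.sdiff_eq_empty_iff_subset.1 h0)) hVB
      rw [h1]
      exact hV
    · obtain ⟨x₀, _⟩ := id h0
      have hs1 := skw_sdiff hm hV hW x₀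
      have hs2 := skw_image hm hn hV hW x₀
      have hQA : W \ V ⊆ AA ω := Finset.sdiff_subset.trans hWA
      obtain ⟨L, l, hl, hpos, hmax, _⟩ := topLam hL hm.inj hs1 h0
      obtain ⟨L', l', hl', _, hmax', σ, hσ, hσL⟩ := topLam hL hm.inj hs2 (h0.image N)
      have hLL : L' = L := by
        rw [hlam, hl] at hl'
        exact (List.cons.inj hl').1.symm
      subst hLL
      have hQC : (W \ V).image N ⊆ CC ω := by
        intro z hz
        obtain ⟨y, hy, rfl⟩ := Finset.mem_image.1 hz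
        exact N_mem hn (hQA hy)
      by_cases hex : ∃ σ ∈ comps ((W \ V).image N), (nwrim ω σ).card = L' ∧
          Disjoint σ (B.image N)
      · obtain ⟨σ, hσ, hσL, hσB⟩ := hex
        obtain ⟨h1, h2⟩ := left_step hn hWA hr hσ hpos hσL hmax'
        refine ih _ (hcard ▸ h2) _ W rfl h1 ?_ hBW
        refine Finset.union_subset hVB ?_
        intro y hy
        obtain ⟨z, hz, rfl⟩ := Finset.mem_image.1 hy
        have hzσ := nwrim_sub ω _ hz
        obtain ⟨t, ht, rfl⟩ := Finset.mem_image.1 (comps_sub hσ hzσ)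
        rw [hn.SN t (hQA ht)]
        refine Finset.mem_sdiff.2 ⟨hQA ht, fun h => ?_⟩
        exact Finset.disjoint_left.1 hσB hzσ (Finset.mem_image_of_mem N h)
      · have hσB : σ ⊆ B.image N := by
          rcases (hF.clC.mono hQC).dich hσ with h | h
          · exact h
          · exact absurd ⟨σ, hσ, hσL, h⟩ hex
        obtain ⟨T, hT, hTB, rfl⟩ := comps_of_image hm hn hF hQA hσ hσB
        rw [card_nwrim_image hn hF hTB] at hσL
        obtain ⟨h1, h2⟩ := right_step hSE hm.inj hs1 hr hT hpos hσL hmax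
        refine ih _ (hcard ▸ h2) V _ rfl h1 hVB ?_
        intro x hx
        exact Finset.mem_sdiff.2 ⟨hBW hx, fun h =>
          (Finset.mem_sdiff.1 hx).2 (hTB (serim_sub ω T h))⟩

end fr

end Fre

end Pool.Agent.ST14
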