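import Pool.Agent.ST14.FreeA
import Pool.Agent.ST14.FreeB

/-!
Section 4 of the note: free components have no extra strict covers.
-/

set_option autoImplicit false

namespace Pool.Agent.ST14

open scoped Classical

namespace Fre

open Polynomial

variable {P : Type} [Fintype P] [PartialOrder P] {ω : P → ℕ} {N S : P → P} {B Q : Finset P}

theorem Cl.up (hc : Cvx Q) (h : Cl Q B) (hB : B ⊆ Q) :
    ∀ y, y ∈ Q → ∀ x ∈ B, x ≤ y → y ∈ B := by
  intro y
  induction y using (wellFounded_lt (α := P)).induction with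
  | _ y ih =>
    intro hy x hx hxy
    rcases eq_or_lt_of_le hxy with h1 | h1
    · exact h1 ▸ hx
    · obtain ⟨w, hxw, hwy⟩ := exists_lower_cov h1
      have hw : w ∈ Q := hc x (hB hx) y hy w hxw hwy.le
      exact h w (ih w hwy.lt hw x hx hxw) y hy (Or.inl hwy)

theorem Cl.down (hc : Cvx Q) (h : Cl Q B) (hB : B ⊆ Q) :
    ∀ y, y ∈ Q → ∀ x ∈ B, y ≤ x → y ∈ B := by
  intro y
  induction y using (wellFounded_gt (α := P)).induction with
  | _ y ih =>
    intro hy x hx hxy
    rcases eq_or_lt_of_le hxy with h1 | h1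
    · exact h1 ▸ hx
    · obtain ⟨w, hyw, hwx⟩ := exists_upper_cov h1
      have hw : w ∈ Q := hc y hy x (hB hx) w hyw.le hwx
      exact h w (ih w hyw.lt hw x hx hwx) y hy (Or.inr hyw)

theorem sub_CC (hn : Net ω N S) (hF : Fr ω N B) : B.image N ⊆ CC ω := by
  intro z hz
  obtain ⟨y, hy, rfl⟩ := Finset.mem_image.1 hz
  exact N_mem hn (hF.sub hy)

theorem lt_iff (hm : Mini ω) (hn : Net ω N S) (hF : Fr ω N B) :
    ∀ x ∈ B, ∀ y ∈ B, (x < y ↔ N x < N y) := by
  intro x hx y hy
  constructor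
  · intro h
    refine M10.lt_of_cov (p := fun z => z ∈ B) (φ := N) ?_ ?_ y x hx hy h
    · intro a b c ha hc hab _
      exact hF.clA.up (AA_cvx ω) hF.sub b (M10.AA_up' (hF.sub ha) hab) a ha hab
    · intro a b ha hb hab
      exact ((hF.cov hm ha hb).1 hab).lt
  · intro h
    have h1 : S (N x) < S (N y) := by
      refine M10.lt_of_cov (p := fun z => z ∈ B.image N) (φ := S) ?_ ?_ (N y) (N x)
        (Finset.mem_image_of_mem N hx) (Finset.mem_image_of_mem N hy) h
      · intro a b c ha hc hab hbc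
        exact hF.clC.up (CC_cvx ω) (sub_CC hn hF) b
          (CC_cvx ω a (sub_CC hn hF ha) c (sub_CC hn hF hc) b hab hbc) a ha hab
      · intro a b ha hb hab
        obtain ⟨a', ha', rfl⟩ := Finset.mem_image.1 ha
        obtain ⟨b', hb', rfl⟩ := Finset.mem_image.1 hb
        rw [hn.SN a' (hF.sub ha'), hn.SN b' (hF.sub hb')]
        exact ((hF.cov hm ha' hb').2 hab).lt
    rwa [hn.SN x (hF.sub hx), hn.SN y (hF.sub hy)] at h1

theorem lin_N (hm : Mini ω) (hn : Net ω N S) (hF : Fr ω N B) {U : Finset P} (hU : U ⊆ B) :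
    lin ω (U.image N) = lin ω U :=
  lin_image ω N U.card U rfl
    (fun _ hx _ hy h => N_inj hn (hF.sub (hU hx)) (hF.sub (hU hy)) h)
    (fun x hx y hy => lt_iff hm hn hF x (hU hx) y (hU hy))

theorem good_inter (hm : Mini ω) (hn : Net ω N S) {U V : Finset P} (hU : U ∈ good ω N)
    (hV : V ∈ good ω N) : U ∩ V ∈ good ω N := by
  have h1 := good_idl hU
  have h2 := good_idl hV
  have h3 : U ∩ V ∈ idl (AA ω) := by
    rw [mem_idl] at *
    refine ⟨Finset.inter_subset_left.trans h1.1, fun x hx y hy hxy => ?_⟩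
    rw [Finset.mem_inter] at *
    exact ⟨h1.2 x hx y hy.1 hxy, h2.2 x hx y hy.2 hxy⟩
  have h4 := (st9g' P ω hm N S hn U h1).1 hU
  have h5 := (st9g' P ω hm N S hn V h2).1 hV
  refine (st9g' P ω hm N S hn _ h3).2 ⟨?_, ?_⟩
  · intro x b y hM hy
    rw [Finset.mem_inter] at *
    exact ⟨(h4.1 x b y hM hy.1).1, (h4.1 x b y hM hy.1).2, (h5.1 x b y hM hy.2).2⟩
  · intro i M h6 h7 hM
    rw [Finset.mem_inter] at *
    exact ⟨h4.2 i M h6 h7 hM.1, h5.2 i M h6 h7 hM.2⟩

theorem good_union (hm : Mini ω) (hn : Net ω N S) {U V : Finset P} (hU : U ∈ good ω N)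
    (hV : V ∈ good ω N) : U ∪ V ∈ good ω N := by
  have h1 := good_idl hU
  have h2 := good_idl hV
  have h3 : U ∪ V ∈ idl (AA ω) := by
    rw [mem_idl] at *
    refine ⟨Finset.union_subset h1.1 h2.1, fun x hx y hy hxy => ?_⟩
    rw [Finset.mem_union] at *
    exact hy.imp (fun hy => h1.2 x hx y hy hxy) (fun hy => h2.2 x hx y hy hxy)
  have h4 := (st9g' P ω hm N S hn U h1).1 hU
  have h5 := (st9g' P ω hm N S hn V h2).1 hV
  refine (st9g' P ω hm N S hn _ h3).2 ⟨?_, ?_⟩
  · intro x b y hM hy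
    rw [Finset.mem_union] at *
    rcases hy with hy | hy
    · exact ⟨(h4.1 x b y hM hy).1, Or.inl (h4.1 x b y hM hy).2⟩
    · exact ⟨(h5.1 x b y hM hy).1, Or.inr (h5.1 x b y hM hy).2⟩
  · intro i M h6 h7 hM
    rw [Finset.mem_union] at *
    exact hM.imp (fun hM => h4.2 i M h6 h7 hM) (fun hM => h5.2 i M h6 h7 hM)

theorem good_empty : (∅ : Finset P) ∈ good ω N := by
  refine mem_good.2 ⟨empty_mem_idl _, ?_⟩
  rw [Finset.image_empty, Finset.eq_empty_iff_forall_notMem]
  intro x hx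
  obtain ⟨u, hu, _⟩ := mem_TS.1 hx
  exact absurd hu (Finset.notMem_empty u)

/-- no relations between `B` and the rest of `A` -/
theorem norelA (hF : Fr ω N B) {x y : P} (hx : x ∈ B) (hy : y ∈ AA ω \ B) :
    ¬ x ≤ y ∧ ¬ y ≤ x := by
  rw [Finset.mem_sdiff] at hy
  exact ⟨fun h => hy.2 (hF.clA.up (AA_cvx ω) hF.sub y hy.1 x hx h),
    fun h => hy.2 (hF.clA.down (AA_cvx ω) hF.sub y hy.1 x hx h)⟩

theorem norelC (hn : Net ω N S) (hF : Fr ω N B) {x y : P} (hx : x ∈ B)
    (hy : y ∈ AA ω \ B) : ¬ N x ≤ N y ∧ ¬ N y ≤ N x := by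
  rw [Finset.mem_sdiff] at hy
  have h1 := N_mem hn hy.1
  have h2 := Finset.mem_image_of_mem N hx
  exact ⟨fun h => hy.2 (mem_of_image hn hF hy.1
      (hF.clC.up (CC_cvx ω) (sub_CC hn hF) _ h1 _ h2 h)),
    fun h => hy.2 (mem_of_image hn hF hy.1
      (hF.clC.down (CC_cvx ω) (sub_CC hn hF) _ h1 _ h2 h))⟩

/-- the term of the generating polynomial -/
noncomputable def tm (ω : P → ℕ) (N : P → P) (Z U : Finset P) : ℚ[X] :=
  C (lin ω (U.image N) * lin ω (Z \ U)) * (X ^ U.card * (1 - X) ^ (Z.card - U.card))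

theorem tm_mul (hn : Net ω N S) (hF : Fr ω N B) {U V : Finset P} (hU : U ⊆ B)
    (hV : V ⊆ AA ω \ B) : tm ω N B U * tm ω N (AA ω \ B) V = tm ω N (AA ω) (U ∪ V) := by
  have hd : Disjoint U V := by
    rw [Finset.disjoint_left]
    intro x hx hx'
    exact (Finset.mem_sdiff.1 (hV hx')).2 (hU hx)
  have h1 : lin ω ((U ∪ V).image N) = lin ω (U.image N) * lin ω (V.image N) := by
    rw [Finset.image_union]
    refine lin_union ω _ _ _ rfl ?_
    intro x hx y hy
    obtain ⟨x', hx', rfl⟩ := Finset.mem_image.1 hx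
    obtain ⟨y', hy', rfl⟩ := Finset.mem_image.1 hy
    exact norelC hn hF (hU hx') (hV hy')
  have h2 : AA ω \ (U ∪ V) = (B \ U) ∪ ((AA ω \ B) \ V) := by
    ext x
    rw [Finset.mem_union, Finset.mem_sdiff, Finset.mem_sdiff, Finset.mem_sdiff, Finset.mem_sdiff,
      Finset.mem_union]
    constructor
    · rintro ⟨h3, h4⟩
      by_cases hx : x ∈ B
      · exact Or.inl ⟨hx, fun h => h4 (Or.inl h)⟩
      · exact Or.inr ⟨⟨h3, hx⟩, fun h => h4 (Or.inr h)⟩
    · rintro (⟨h3, h4⟩ | ⟨⟨h3, h4⟩, h5⟩)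
      · exact ⟨hF.sub h3, fun h => h.elim h4 (fun h => (Finset.mem_sdiff.1 (hV h)).2 h3)⟩
      · exact ⟨h3, fun h => h.elim (fun h => h4 (hU h)) h5⟩
  have h3 : lin ω (AA ω \ (U ∪ V)) = lin ω (B \ U) * lin ω ((AA ω \ B) \ V) := by
    rw [h2]
    refine lin_union ω _ _ _ rfl ?_
    intro x hx y hy
    exact norelA hF (Finset.mem_sdiff.1 hx).1 (Finset.mem_sdiff.1 hy).1
  have h4 : (U ∪ V).card = U.card + V.card := Finset.card_union_of_disjoint hd
  have h5 := Finset.card_le_card hU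
  have h6 := Finset.card_le_card hV
  have h7 : (AA ω \ B).card + B.card = (AA ω).card := Finset.card_sdiff_add_card_eq_card hF.sub
  have h8 : (AA ω).card - (U ∪ V).card = (B.card - U.card) + ((AA ω \ B).card - V.card) := by
    omega
  unfold tm
  rw [h1, h3, h8, h4, pow_add, pow_add, C_mul, C_mul, C_mul, C_mul, C_mul]
  ring

theorem tm_prod (hm : Mini ω) (hn : Net ω N S) (hF : Fr ω N B) (hB : B ∈ good ω N)
    (hR : AA ω \ B ∈ good ω N) :
    (∑ U ∈ (good ω N).filter (fun U => U ⊆ B), tm ω N B U) *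
      (∑ V ∈ (good ω N).filter (fun V => V ⊆ AA ω \ B), tm ω N (AA ω \ B) V) =
      ∑ U ∈ good ω N, tm ω N (AA ω) U := by
  rw [Finset.sum_mul_sum, ← Finset.sum_product']
  refine Finset.sum_bij' (i := fun p _ => p.1 ∪ p.2) (j := fun U _ => (U ∩ B, U ∩ (AA ω \ B)))
    ?_ ?_ ?_ ?_ ?_
  · rintro ⟨U, V⟩ h
    rw [Finset.mem_product, Finset.mem_filter, Finset.mem_filter] at h
    exact good_union hm hn h.1.1 h.2.1
  · intro U hU
    rw [Finset.mem_product, Finset.mem_filter, Finset.mem_filter]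
    exact ⟨⟨good_inter hm hn hU hB, Finset.inter_subset_right⟩,
      ⟨good_inter hm hn hU hR, Finset.inter_subset_right⟩⟩
  · rintro ⟨U, V⟩ h
    rw [Finset.mem_product, Finset.mem_filter, Finset.mem_filter] at h
    have h1 := h.1.2
    have h2 := h.2.2
    simp only at h1 h2
    ext x
    · simp only [Finset.mem_inter, Finset.mem_union]
      constructor
      · rintro ⟨h3 | h3, h4⟩
        · exact h3
        · exact absurd h4 (Finset.mem_sdiff.1 (h2 h3)).2
      · intro h3
        exact ⟨Or.inl h3, h1 h3⟩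
    · simp only [Finset.mem_inter, Finset.mem_union]
      constructor
      · rintro ⟨h3 | h3, h4⟩
        · exact absurd (h1 h3) (Finset.mem_sdiff.1 h4).2
        · exact h3
      · intro h3
        exact ⟨Or.inr h3, h2 h3⟩
  · intro U hU
    have h1 := (mem_idl.1 (good_idl hU)).1
    simp only
    ext x
    rw [Finset.mem_union, Finset.mem_inter, Finset.mem_inter, Finset.mem_sdiff]
    constructor
    · rintro (h | h)
      · exact h.1
      · exact h.1
    · intro hx
      by_cases hxB : x ∈ B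
      · exact Or.inl ⟨hx, hxB⟩
      · exact Or.inr ⟨hx, h1 hx, hxB⟩
  · rintro ⟨U, V⟩ h
    rw [Finset.mem_product, Finset.mem_filter, Finset.mem_filter] at h
    exact tm_mul hn hF h.1.2 h.2.2

theorem tm_total (hm : Mini ω) (hn : Net ω N S) :
    ∑ U ∈ good ω N, tm ω N (AA ω) U = C (lin ω (AA ω)) := by
  have hle : ∀ U ∈ good ω N, U.card ≤ (AA ω).card := fun U hU =>
    Finset.card_le_card (mem_idl.1 (good_idl hU)).1
  have hci : ∀ U ∈ good ω N, (U.image N).card = U.card := fun U hU =>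
    hn.card_image (mem_idl.1 (good_idl hU)).1
  have h1 := fam_sum (good ω N) (fun U => U.card)
    (fun U => ((kap ω (U.image N) (List.replicate U.card 1) *
      kap ω (AA ω \ U) (List.replicate ((AA ω).card - U.card) 1) : ℕ) : ℚ)) (AA ω).card
    ((kap ω (AA ω) (List.replicate (AA ω).card 1) : ℕ) : ℚ) hle ?_
  · unfold lin
    rw [← h1]
    refine Finset.sum_congr rfl fun U hU => ?_
    unfold tm lin
    rw [hci U hU, Finset.card_sdiff_of_subset (mem_idl.1 (good_idl hU)).1]
    congr 2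
    push_cast
    field_simp
  · intro j hj
    have h2 : ∑ U ∈ (good ω N).filter (fun U => U.card = j),
        ((kap ω (U.image N) (List.replicate U.card 1) *
          kap ω (AA ω \ U) (List.replicate ((AA ω).card - U.card) 1) : ℕ) : ℚ) =
        ((∑ U ∈ (good ω N).filter (fun U => U.card = j),
          kap ω (U.image N) (List.replicate j 1) *
            kap ω (AA ω \ U) (List.replicate ((AA ω).card - j) 1) : ℕ) : ℚ) := by
      rw [Nat.cast_sum]
      refine Finset.sum_congr rfl fun U hU => ?_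
      rw [(Finset.mem_filter.1 hU).2]
    rw [h2]
    congr 1
    rw [Finset.sum_filter_of_ne, st9 P ω hm N S hn, ← kap_append, ← List.replicate_add]
    · congr 2
      omega
    · intro U hU hne
      have h3 := kap_sum ω _ _ (left_ne_zero_of_mul hne)
      rw [List.sum_replicate, hci U hU] at h3
      simpa using h3.symm

omit [Fintype P] in
theorem full_total (ω : P → ℕ) (B : Finset P) :
    ∑ U ∈ idl B, C (lin ω U * lin ω (B \ U)) *
      ((X : ℚ[X]) ^ U.card * (1 - X) ^ (B.card - U.card)) = C (lin ω B) := by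
  have hle : ∀ U ∈ idl B, U.card ≤ B.card := fun U hU => Finset.card_le_card (subset_of_mem_idl hU)
  have h1 := fam_sum (idl B) (fun U => U.card)
    (fun U => ((kap ω U (List.replicate U.card 1) *
      kap ω (B \ U) (List.replicate (B.card - U.card) 1) : ℕ) : ℚ)) B.card
    ((kap ω B (List.replicate B.card 1) : ℕ) : ℚ) hle ?_
  · have h0 : lin ω B = ((kap ω B (List.replicate B.card 1) : ℕ) : ℚ) / (B.card.factorial : ℚ) :=
      rfl
    rw [h0, ← h1]
    refine Finset.sum_congr rfl fun U hU => ?_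
    unfold lin
    rw [Finset.card_sdiff_of_subset (subset_of_mem_idl hU)]
    congr 2
    push_cast
    field_simp
  · intro j hj
    have h2 : ∑ U ∈ (idl B).filter (fun U => U.card = j),
        ((kap ω U (List.replicate U.card 1) *
          kap ω (B \ U) (List.replicate (B.card - U.card) 1) : ℕ) : ℚ) =
        ((∑ U ∈ (idl B).filter (fun U => U.card = j),
          kap ω U (List.replicate j 1) *
            kap ω (B \ U) (List.replicate (B.card - j) 1) : ℕ) : ℚ) := by
      rw [Nat.cast_sum]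
      refine Finset.sum_congr rfl fun U hU => ?_
      rw [(Finset.mem_filter.1 hU).2]
    rw [h2]
    congr 1
    rw [Finset.sum_filter_of_ne, ← kap_append, ← List.replicate_add]
    · congr 2
      omega
    · intro U hU hne
      have h3 := kap_sum ω _ _ (left_ne_zero_of_mul hne)
      rw [List.sum_replicate] at h3
      simpa using h3.symm

/-- all ideals of a free component are good -/
theorem all_good (hm : Mini ω) (hn : Net ω N S) (hF : Fr ω N B) (hB : B ∈ good ω N)
    (hR : AA ω \ B ∈ good ω N) : ∀ U ∈ idl B, U ∈ good ω N := by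
  obtain ⟨gB, hgB⟩ : ∃ gB, gB = (good ω N).filter (fun U => U ⊆ B) := ⟨_, rfl⟩
  obtain ⟨f, hf⟩ : ∃ f, f = ∑ U ∈ gB, tm ω N B U := ⟨_, rfl⟩
  have hprod := tm_prod hm hn hF hB hR
  rw [← hgB, ← hf, tm_total hm hn] at hprod
  have hunit : IsUnit f := by
    have h1 : IsUnit (C (lin ω (AA ω)) : ℚ[X]) :=
      Polynomial.isUnit_C.2 (lin_pos ω (AA ω)).ne'.isUnit
    rw [← hprod] at h1
    exact isUnit_of_mul_isUnit_left h1
  obtain ⟨c, _, hc⟩ := Polynomial.isUnit_iff.1 hunit
  have h0 : f.eval 0 = lin ω B := by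
    rw [hf, Polynomial.eval_finsetSum, Finset.sum_eq_single ∅]
    · unfold tm
      rw [Finset.image_empty, lin_empty, Finset.sdiff_empty, Finset.card_empty]
      simp
    · intro U _ hU
      unfold tm
      have h1 : U.card ≠ 0 := fun h => hU (Finset.card_eq_zero.1 h)
      simp [h1]
    · intro h
      refine absurd ?_ h
      rw [hgB, Finset.mem_filter]
      exact ⟨good_empty, Finset.empty_subset _⟩
  have hhalf : f.eval (1 / 2) = lin ω B := by
    rw [← h0, ← hc, Polynomial.eval_C, Polynomial.eval_C]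
  have hsub : gB ⊆ idl B := by
    intro U hU
    rw [hgB, Finset.mem_filter] at hU
    exact mem_idl_of_sub (good_idl hU.1) (good_idl hB) hU.2
  have h1 : f.eval (1 / 2) = ∑ U ∈ gB, lin ω U * lin ω (B \ U) *
      ((1 / 2 : ℚ) ^ U.card * (1 - 1 / 2 : ℚ) ^ (B.card - U.card)) := by
    rw [hf, Polynomial.eval_finsetSum]
    refine Finset.sum_congr rfl fun U hU => ?_
    unfold tm
    have hU2 : U ⊆ B := by
      rw [hgB, Finset.mem_filter] at hU
      exact hU.2
    rw [lin_N hm hn hF hU2]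
    simp
  have h2 : lin ω B = ∑ U ∈ idl B, lin ω U * lin ω (B \ U) *
      ((1 / 2 : ℚ) ^ U.card * (1 - 1 / 2 : ℚ) ^ (B.card - U.card)) := by
    have h3 := congrArg (Polynomial.eval (1 / 2 : ℚ)) (full_total ω B)
    rw [Polynomial.eval_C, Polynomial.eval_finsetSum] at h3
    rw [← h3]
    refine Finset.sum_congr rfl fun U _ => ?_
    simp
  intro U hU
  by_contra hbad
  have h3 : ∑ U ∈ gB, lin ω U * lin ω (B \ U) *
      ((1 / 2 : ℚ) ^ U.card * (1 - 1 / 2 : ℚ) ^ (B.card - U.card)) <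
      ∑ U ∈ idl B, lin ω U * lin ω (B \ U) *
      ((1 / 2 : ℚ) ^ U.card * (1 - 1 / 2 : ℚ) ^ (B.card - U.card)) := by
    have hpos : ∀ U : Finset P, 0 < lin ω U * lin ω (B \ U) *
      ((1 / 2 : ℚ) ^ U.card * (1 - 1 / 2 : ℚ) ^ (B.card - U.card)) := by
      intro U
      have h4 := lin_pos ω U
      have h5 := lin_pos ω (B \ U)
      have h6 : (0 : ℚ) < 1 - 1 / 2 := by norm_num
      positivity
    refine Finset.sum_lt_sum_of_subset hsub hU ?_ (hpos U) (fun V _ _ => (hpos V).le)
    intro h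
    rw [hgB, Finset.mem_filter] at h
    exact hbad h.1
  rw [← h1, ← h2, hhalf] at h3
  exact lt_irrefl _ h3

end Fre

open Fre in
/-- Free components have no extras (section 4). -/
theorem freeStmt (hRP : RPStmt) (hL : LamStmt) (hSE : SEStmt) : FreeStmt := by
  intro P _ _ ω hm N S hn B hBc h1 h2 i M hiM hne
  have hF := fr_of hm hn hBc h1 h2
  have hB : B ∈ good ω N := good_B hRP hL hSE hm hn hF _ ∅ (AA ω) rfl Reach.start
    (Finset.empty_subset _) hF.sub
  have hR : AA ω \ B ∈ good ω N := good_R hRP hL hSE hm hn hF _ ∅ (AA ω) rfl Reach.start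
    (Finset.empty_subset _) Finset.sdiff_subset
  have hall := all_good hm hn hF hB hR
  have hiC : i ∈ CC ω := M10.CC_of_sCov hiM
  have hMA : M ∈ AA ω := M10.AA_of_sCov hiM
  have hMB : M ∉ B := by
    intro hMB
    have hU : B.filter (fun u => u ≤ M) ∈ idl B := by
      rw [mem_idl]
      refine ⟨Finset.filter_subset _ _, fun x hx y hy hxy => ?_⟩
      rw [Finset.mem_filter] at hy ⊢
      exact ⟨hx, hxy.trans hy.2⟩
    have hg := hall _ hU
    have h3 := ((st9g' P ω hm N S hn _ (good_idl hg)).1 hg).2 i M hiM hne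
      (Finset.mem_filter.2 ⟨hMB, le_refl M⟩)
    have h4 := (Finset.mem_filter.1 h3).2
    rcases eq_or_lt_of_le h4 with h5 | h5
    · exact hne (by rw [← h5, hn.NS i hiC])
    · exact hiM.1.2 (hn.S_cov i hiC).1.lt h5
  refine ⟨hMB, fun hSB => ?_⟩
  have h3 := ((st9g' P ω hm N S hn _ (good_idl hR)).1 hR).2 i M hiM hne
    (Finset.mem_sdiff.2 ⟨hMA, hMB⟩)
  exact (Finset.mem_sdiff.1 h3).2 hSB

end Pool.Agent.ST14
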