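import Pool.Agent.ST14.RimStmts

/-!
Module ST_LamEps: the partition `lam` and the sign `eps` (49bc13_h58.md, section 1).
-/

set_option autoImplicit false

namespace Pool.Agent.ST14

open scoped Classical

section base

variable {P : Type} [PartialOrder P]

lemma LamEps_sub {Q T : Finset P} (hT : T ∈ comps Q) : T ⊆ Q := by
  obtain ⟨a, -, rfl⟩ := Finset.mem_image.1 hT
  exact Finset.filter_subset _ _

lemma LamEps_adj {Q T : Finset P} (hT : T ∈ comps Q) {x y : P} (hx : x ∈ T) (h : Adj Q x y) :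
    y ∈ T := by
  obtain ⟨a, -, rfl⟩ := Finset.mem_image.1 hT
  have hx' := (Finset.mem_filter.1 hx).2
  exact Finset.mem_filter.2 ⟨h.2.1, hx'.tail h⟩

lemma LamEps_nonempty {Q : Finset P} (hQ : Q.Nonempty) : (comps Q).Nonempty :=
  hQ.image _

lemma LamEps_rim_sub {ω : P → ℕ} {T : Finset P} : nwrim ω T ⊆ T := Finset.filter_subset _ _

lemma LamEps_rim_subQ {ω : P → ℕ} {Q T : Finset P} (hT : T ∈ comps Q) : nwrim ω T ⊆ Q :=
  LamEps_rim_sub.trans (LamEps_sub hT)

lemma LamEps_adj_symm {Q : Finset P} {x y : P} (h : Adj Q x y) : Adj Q y x :=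
  ⟨h.2.1, h.1, h.2.2.symm⟩

end base

section lampart

variable {P : Type} [PartialOrder P]

lemma LamEps_card_sdiff {ω : P → ℕ} {Q T : Finset P} (hT : T ∈ comps Q) :
    (nwrim ω T).card + (Q \ nwrim ω T).card = Q.card := by
  have h1 := Finset.card_sdiff_add_card_eq_card (LamEps_rim_subQ (ω := ω) hT)
  omega

lemma LamEps_comps_empty : comps (∅ : Finset P) = ∅ := by
  simp [comps]

/-- inversion -/
lemma LamEps_inv {ω : P → ℕ} {Q : Finset P} {l : List ℕ} (h : IsLam ω Q l) :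
    (Q = ∅ ∧ l = []) ∨ ∃ T ∈ comps Q, ∃ l', l = (nwrim ω T).card :: l' ∧
      (∀ T' ∈ comps Q, (nwrim ω T').card ≤ (nwrim ω T).card) ∧ IsLam ω (Q \ nwrim ω T) l' := by
  cases h with
  | nil => exact Or.inl ⟨rfl, rfl⟩
  | cons Q T l hT hmax h => exact Or.inr ⟨T, hT, l, rfl, hmax, h⟩

lemma LamEps_sum {ω : P → ℕ} {Q : Finset P} {l : List ℕ} (h : IsLam ω Q l) :
    l.sum = Q.card := by
  induction h with
  | nil => simp
  | cons Q T l hT hmax h ih =>
    rw [List.sum_cons, ih, LamEps_card_sdiff hT]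

/-- the inductive package -/
def LamEps_Pack (ω : P → ℕ) (Q : Finset P) : Prop :=
  (∃ l, IsLam ω Q l) ∧
  (∀ l l', IsLam ω Q l → IsLam ω Q l' → l.Perm l') ∧
  (∀ T ∈ comps Q, ∀ l l', IsLam ω Q l → IsLam ω (Q \ nwrim ω T) l' →
    l.Perm ((nwrim ω T).card :: l')) ∧
  (∀ l, IsLam ω Q l → l.Pairwise (· ≥ ·) ∧ ∀ a ∈ l, 0 < a)

lemma LamEps_pack (h : RimGeo) {ω : P → ℕ} (hω : Function.Injective ω) :
    ∀ n (Q : Finset P), Q.card = n → Skw ω Q → LamEps_Pack ω Q := by
  intro n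
  induction n using Nat.strong_induction_on with
  | _ n ih =>
  intro Q hn hQ
  have hsm : ∀ T ∈ comps Q, Skw ω (Q \ nwrim ω T) ∧ LamEps_Pack ω (Q \ nwrim ω T) := by
    intro T hT
    have hg := h P ω hω Q hQ T hT
    have hne := hg.2.1.2.1
    have hsk := hg.2.1.2.2.2.1
    refine ⟨hsk, ih (Q \ nwrim ω T).card ?_ _ rfl hsk⟩
    have h1 := LamEps_card_sdiff (ω := ω) hT
    have h2 := Finset.card_pos.2 hne
    omega
  -- existence
  have hex : ∃ l, IsLam ω Q l := by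
    rcases Q.eq_empty_or_nonempty with rfl | hne
    · exact ⟨[], IsLam.nil⟩
    · obtain ⟨T, hT, hmax⟩ := Finset.exists_max_image (comps Q) (fun T => (nwrim ω T).card)
        (LamEps_nonempty hne)
      obtain ⟨l, hl⟩ := (hsm T hT).2.1
      exact ⟨_, IsLam.cons Q T l hT hmax hl⟩
  -- (iv)
  have h4 : ∀ T ∈ comps Q, ∀ l l', IsLam ω Q l → IsLam ω (Q \ nwrim ω T) l' →
      l.Perm ((nwrim ω T).card :: l') := by
    intro T hT l l' hl hl'
    rcases LamEps_inv hl with ⟨rfl, -⟩ | ⟨T₁, hT₁, l₁, rfl, hmax, hl₁⟩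
    · rw [LamEps_comps_empty] at hT
      exact absurd hT (Finset.notMem_empty _)
    · by_cases hTT : T = T₁
      · subst hTT
        exact List.Perm.cons _ ((hsm T hT).2.2.1 _ _ hl₁ hl')
      · have g₁ := h P ω hω Q hQ T₁ hT₁
        have g := h P ω hω Q hQ T hT
        have m1 : T ∈ comps (Q \ nwrim ω T₁) := by
          rw [g₁.2.2.2.1]
          exact Finset.mem_union_left _ (Finset.mem_erase.2 ⟨hTT, hT⟩)
        have m2 : T₁ ∈ comps (Q \ nwrim ω T) := by
          rw [g.2.2.2.1]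
          exact Finset.mem_union_left _ (Finset.mem_erase.2 ⟨fun h => hTT h.symm, hT₁⟩)
        -- the common refinement
        have g₁' := h P ω hω _ (hsm T₁ hT₁).1 T m1
        have hcard : ((Q \ nwrim ω T₁) \ nwrim ω T).card < n := by
          have e1 := LamEps_card_sdiff (ω := ω) hT₁
          have e2 := LamEps_card_sdiff (ω := ω) m1
          have e3 := Finset.card_pos.2 g₁.2.1.2.1
          omega
        obtain ⟨l₂, hl₂⟩ := (ih _ hcard _ rfl g₁'.2.1.2.2.2.1).1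
        have p1 := (hsm T₁ hT₁).2.2.2.1 T m1 l₁ l₂ hl₁ hl₂
        have hcomm : (Q \ nwrim ω T₁) \ nwrim ω T = (Q \ nwrim ω T) \ nwrim ω T₁ := by
          ext x
          simp only [Finset.mem_sdiff]
          tauto
        rw [hcomm] at hl₂
        have p2 := (hsm T hT).2.2.2.1 T₁ m2 l' l₂ hl' hl₂
        refine (List.Perm.cons _ p1).trans ((List.Perm.swap _ _ _).trans ?_)
        exact List.Perm.cons _ p2.symm
  refine ⟨hex, ?_, h4, ?_⟩
  · intro l l' hl hl'
    rcases LamEps_inv hl' with ⟨rfl, rfl⟩ | ⟨T₁, hT₁, l₁, rfl, hmax, hl₁⟩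
    · rcases LamEps_inv hl with ⟨-, rfl⟩ | ⟨T₁, hT₁, -⟩
      · exact List.Perm.refl _
      · rw [LamEps_comps_empty] at hT₁
        exact absurd hT₁ (Finset.notMem_empty _)
    · exact h4 T₁ hT₁ l l₁ hl hl₁
  · intro l hl
    rcases LamEps_inv hl with ⟨rfl, rfl⟩ | ⟨T₁, hT₁, l₁, rfl, hmax, hl₁⟩
    · simp
    · have g₁ := h P ω hω Q hQ T₁ hT₁
      have hp := (hsm T₁ hT₁).2.2.2.2 l₁ hl₁
      have hhead : ∀ a ∈ l₁, a ≤ (nwrim ω T₁).card := by
        rcases LamEps_inv hl₁ with ⟨-, rfl⟩ | ⟨T₂, hT₂, l₂, rfl, hmax₂, hl₂⟩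
        · simp
        · have h2 : (nwrim ω T₂).card ≤ (nwrim ω T₁).card := by
            rw [g₁.2.2.2.1] at hT₂
            rcases Finset.mem_union.1 hT₂ with h3 | h3
            · exact hmax _ (Finset.mem_of_mem_erase h3)
            · exact (g₁.2.2.2.2.2.1 T₂ h3).le
          intro a ha
          rcases List.mem_cons.1 ha with rfl | ha
          · exact h2
          · exact ((List.pairwise_cons.1 hp.1).1 a ha).trans h2
      refine ⟨List.pairwise_cons.2 ⟨fun a ha => hhead a ha, hp.1⟩, ?_⟩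
      intro a ha
      rcases List.mem_cons.1 ha with rfl | ha
      · exact Finset.card_pos.2 g₁.2.1.2.1
      · exact hp.2 a ha

lemma LamEps_isLam (h : RimGeo) {ω : P → ℕ} (hω : Function.Injective ω) {Q : Finset P}
    (hQ : Skw ω Q) : IsLam ω Q (lam ω Q) := by
  have hex := (LamEps_pack h hω _ Q rfl hQ).1
  unfold lam
  rw [dif_pos hex]
  exact Classical.choose_spec hex

lemma LamEps_eq {l l' : List ℕ} (hp : l.Perm l') (h : l.Pairwise (· ≥ ·))
    (h' : l'.Pairwise (· ≥ ·)) : l = l' :=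
  List.Perm.eq_of_pairwise (fun _ _ _ _ ha hb => le_antisymm hb ha) h h' hp

lemma LamEps_count (h : RimGeo) {ω : P → ℕ} (hω : Function.Injective ω) :
    ∀ {Q : Finset P} {l : List ℕ}, IsLam ω Q l → Skw ω Q → ∀ L : ℕ,
      (∀ T ∈ comps Q, (nwrim ω T).card ≤ L) →
      ((comps Q).filter (fun T => (nwrim ω T).card = L)).card = l.count L := by
  intro Q l hl
  induction hl with
  | nil =>
    intro _ L _
    rw [LamEps_comps_empty]
    simp
  | cons Q T l hT hmax hl ih =>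
    intro hQ L hL
    have g := h P ω hω Q hQ T hT
    have hL' : ∀ T' ∈ comps (Q \ nwrim ω T), (nwrim ω T').card ≤ L := by
      intro T' hT'
      rw [g.2.2.2.1] at hT'
      rcases Finset.mem_union.1 hT' with h3 | h3
      · exact hL _ (Finset.mem_of_mem_erase h3)
      · exact (g.2.2.2.2.2.1 T' h3).le.trans (hL T hT)
    have ih' := ih g.2.1.2.2.2.1 L hL'
    have hf : (comps (Q \ nwrim ω T)).filter (fun T => (nwrim ω T).card = L) =
        ((comps Q).filter (fun T => (nwrim ω T).card = L)).erase T := by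
      rw [g.2.2.2.1]
      ext X
      simp only [Finset.mem_filter, Finset.mem_union, Finset.mem_erase]
      constructor
      · rintro ⟨h1 | h1, h2⟩
        · exact ⟨h1.1, h1.2, h2⟩
        · have h3 := g.2.2.2.2.2.1 X h1
          have h4 := hL T hT
          omega
      · rintro ⟨h1, h2, h3⟩
        exact ⟨Or.inl ⟨h1, h2⟩, h3⟩
    rw [hf] at ih'
    by_cases hc : (nwrim ω T).card = L
    · have hm : T ∈ (comps Q).filter (fun T => (nwrim ω T).card = L) :=
        Finset.mem_filter.2 ⟨hT, hc⟩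
      have h5 := Finset.card_erase_add_one hm
      rw [ih'] at h5
      rw [← h5, hc, List.count_cons_self]
    · have hm : T ∉ (comps Q).filter (fun T => (nwrim ω T).card = L) :=
        fun h => hc (Finset.mem_filter.1 h).2
      rw [Finset.erase_eq_of_notMem hm] at ih'
      rw [ih', List.count_cons_of_ne hc]

theorem lamStmt (h : RimGeo) : LamStmt := by
  intro P _ ω hω Q hQ
  have hp := LamEps_pack h hω _ Q rfl hQ
  have hlam := LamEps_isLam h hω hQ
  have huniq : ∀ l, IsLam ω Q l → l = lam ω Q := fun l hl =>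
    LamEps_eq (hp.2.1 _ _ hl hlam) (hp.2.2.2 _ hl).1 (hp.2.2.2 _ hlam).1
  have hperm : ∀ T ∈ comps Q, (lam ω Q).Perm ((nwrim ω T).card :: lam ω (Q \ nwrim ω T)) := by
    intro T hT
    have g := h P ω hω Q hQ T hT
    exact hp.2.2.1 T hT _ _ hlam (LamEps_isLam h hω g.2.1.2.2.2.1)
  refine ⟨hlam, huniq, (hp.2.2.2 _ hlam).1, (hp.2.2.2 _ hlam).2, LamEps_sum hlam, hperm, ?_⟩
  intro L l hL
  have hmax : ∀ T ∈ comps Q, (nwrim ω T).card ≤ L := by
    rw [hL] at hlam
    rcases LamEps_inv hlam with ⟨-, h1⟩ | ⟨T₁, hT₁, l₁, h1, hmax, hl₁⟩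
    · exact absurd h1 (by simp)
    · rw [List.cons.injEq] at h1
      rw [h1.1]
      exact hmax
  refine ⟨hmax, LamEps_count h hω hlam hQ L hmax, ?_⟩
  intro T hT hc
  have g := h P ω hω Q hQ T hT
  have h1 := hperm T hT
  rw [hL, hc] at h1
  have h2 := (List.perm_cons L).1 h1
  have hp' := LamEps_pack h hω _ _ rfl g.2.1.2.2.2.1
  have h3 := (hp'.2.2.2 _ (LamEps_isLam h hω g.2.1.2.2.2.1)).1
  have h4 := (hp.2.2.2 _ hlam).1
  rw [hL] at h4
  exact (LamEps_eq h2 (List.pairwise_cons.1 h4).2 h3).symm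

end lampart

section epspart

variable {P : Type} [PartialOrder P]

lemma LamEps_NW_lt {ω : P → ℕ} {Q : Finset P} {x e : P} (h : NW ω Q x e) : x < e := by
  obtain ⟨-, -, ⟨g, -, h1, h2⟩, -⟩ := h
  exact h1.1.lt.trans h2.1.lt

lemma LamEps_rtg_le {ω : P → ℕ} {Q : Finset P} {x e : P}
    (h : Relation.ReflTransGen (NW ω Q) x e) : x ≤ e := by
  induction h with
  | refl => exact le_refl _
  | tail _ h2 ih => exact ih.trans (LamEps_NW_lt h2).le

lemma LamEps_NW_mono {ω : P → ℕ} {Q Q' : Finset P} (hs : Q' ⊆ Q) {x e : P} (h : NW ω Q' x e) :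
    NW ω Q x e := by
  obtain ⟨h1, h2, ⟨g, hg, h3⟩, f, hf, h4⟩ := h
  exact ⟨hs h1, hs h2, ⟨g, hs hg, h3⟩, f, hs hf, h4⟩

lemma LamEps_NW_uniq {ω : P → ℕ} {Q : Finset P} (hQ : LocSkewOn ω Q) {x x' e : P}
    (h : NW ω Q x e) (h' : NW ω Q x' e) : x = x' := by
  obtain ⟨h1, h2, ⟨g, hg, h3, h3'⟩, -⟩ := h
  obtain ⟨k1, k2, ⟨g', hg', k3, k3'⟩, -⟩ := h'
  have hgg := hQ.s_lower g hg g' hg' e h2 h3' k3'
  subst hgg
  exact hQ.w_lower x h1 x' k1 g hg h3 k3

/-- the whole square is in the component -/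
lemma LamEps_NW_comp {ω : P → ℕ} {Q T : Finset P} (hT : T ∈ comps Q) {x e : P}
    (h : NW ω Q x e) (hxe : x ∈ T ∨ e ∈ T) : NW ω T x e := by
  obtain ⟨h1, h2, ⟨g, hg, h3, h3'⟩, f, hf, h4, h4'⟩ := h
  have a1 : Adj Q x g := ⟨h1, hg, Or.inl h3.1⟩
  have a2 : Adj Q g e := ⟨hg, h2, Or.inl h3'.1⟩
  have a3 : Adj Q x f := ⟨h1, hf, Or.inl h4.1⟩
  have a4 : Adj Q f e := ⟨hf, h2, Or.inl h4'.1⟩
  have hx : x ∈ T := by
    rcases hxe with h | h
    · exact h
    · exact LamEps_adj hT (LamEps_adj hT h (LamEps_adj_symm a2)) (LamEps_adj_symm a1)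
  have hg' := LamEps_adj hT hx a1
  have hf' := LamEps_adj hT hx a3
  exact ⟨hx, LamEps_adj hT hg' a2, ⟨g, hg', h3, h3'⟩, f, hf', h4, h4'⟩

lemma LamEps_rim_iff {ω : P → ℕ} {Q T : Finset P} (hT : T ∈ comps Q) {e : P} (he : e ∈ T) :
    e ∈ nwrim ω T ↔ ∀ x, ¬ NW ω Q x e := by
  unfold nwrim
  rw [Finset.mem_filter]
  constructor
  · rintro ⟨-, h⟩ x hx
    exact h x (LamEps_NW_comp hT hx (Or.inr he))
  · intro h
    exact ⟨he, fun x hx => h x (LamEps_NW_mono (LamEps_sub hT) hx)⟩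

lemma LamEps_rtg_comp {ω : P → ℕ} {Q T : Finset P} (hT : T ∈ comps Q) {x e : P}
    (h : Relation.ReflTransGen (NW ω Q) x e) : x ∈ T ↔ e ∈ T := by
  induction h with
  | refl => exact Iff.rfl
  | tail _ h2 ih =>
    rw [ih]
    constructor
    · intro h
      exact (LamEps_NW_comp hT h2 (Or.inl h)).2.1
    · intro h
      exact (LamEps_NW_comp hT h2 (Or.inr h)).1

/-- existence and uniqueness of the root -/
lemma LamEps_root {ω : P → ℕ} {Q T : Finset P} (hQ : LocSkewOn ω Q) (hT : T ∈ comps Q) :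
    ∀ n (e : P), (Q.filter (fun x => x < e)).card = n → e ∈ T →
      ∃ r, r ∈ nwrim ω T ∧ Relation.ReflTransGen (NW ω Q) r e ∧
        ∀ r', r' ∈ nwrim ω T → Relation.ReflTransGen (NW ω Q) r' e → r' = r := by
  intro n
  induction n using Nat.strong_induction_on with
  | _ n ih =>
  intro e hn he
  by_cases her : e ∈ nwrim ω T
  · refine ⟨e, her, Relation.ReflTransGen.refl, ?_⟩
    intro r' hr' h
    rcases Relation.ReflTransGen.cases_tail h with h1 | ⟨c, -, hc⟩
    · exact h1.symm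
    · exact absurd hc ((LamEps_rim_iff hT he).1 her c)
  · have h1 : ∃ x, NW ω Q x e := by
      by_contra hno
      push Not at hno
      exact her ((LamEps_rim_iff hT he).2 hno)
    obtain ⟨x, hx⟩ := h1
    have hxT : x ∈ T := (LamEps_NW_comp hT hx (Or.inr he)).1
    have hlt := LamEps_NW_lt hx
    have hcard : (Q.filter (fun z => z < x)).card < n := by
      rw [← hn]
      apply Finset.card_lt_card
      rw [Finset.ssubset_iff_of_subset]
      · exact ⟨x, Finset.mem_filter.2 ⟨hx.1, hlt⟩, fun h => lt_irrefl _ (Finset.mem_filter.1 h).2⟩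
      · intro z hz
        have hz' := Finset.mem_filter.1 hz
        exact Finset.mem_filter.2 ⟨hz'.1, hz'.2.trans hlt⟩
    obtain ⟨r, hr, hre, hru⟩ := ih _ hcard x rfl hxT
    refine ⟨r, hr, hre.tail hx, ?_⟩
    intro r' hr' h
    rcases Relation.ReflTransGen.cases_tail h with h1 | ⟨c, hc, hce⟩
    · exact absurd (h1 ▸ hr') her
    · have hcx := LamEps_NW_uniq hQ hce hx
      subst hcx
      exact hru r' hr' hc

/-- depth on the rim -/
lemma LamEps_dep_rim {ω : P → ℕ} {Q T : Finset P} (hT : T ∈ comps Q) {e : P}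
    (he : e ∈ nwrim ω T) : dep ω Q e = 1 := by
  have heT := LamEps_rim_sub he
  unfold dep
  rw [Finset.card_eq_one]
  refine ⟨e, ?_⟩
  ext x
  rw [Finset.mem_filter, Finset.mem_singleton]
  constructor
  · rintro ⟨-, h⟩
    rcases Relation.ReflTransGen.cases_tail h with h1 | ⟨c, -, hc⟩
    · exact h1.symm
    · exact absurd hc ((LamEps_rim_iff hT heT).1 he c)
  · rintro rfl
    exact ⟨LamEps_sub hT heT, Relation.ReflTransGen.refl⟩

lemma LamEps_rtg_iff {ω : P → ℕ} {Q R : Finset P} (hR : R ∈ idl Q) {x e : P} (hx : x ∉ R) :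
    Relation.ReflTransGen (NW ω Q) x e ↔ Relation.ReflTransGen (NW ω (Q \ R)) x e := by
  have hRi := (Finset.mem_filter.1 hR).2
  constructor
  · intro h
    induction h using Relation.ReflTransGen.head_induction_on with
    | refl => exact Relation.ReflTransGen.refl
    | @head a c hac _ ih =>
      have up : ∀ z ∈ Q, a ≤ z → z ∉ R := fun z _ hz hzR => hx (hRi a hac.1 z hzR hz)
      obtain ⟨h1, h2, ⟨g, hg, h3, h3'⟩, f, hf, h4, h4'⟩ := hac
      have hc := up c h2 (h3.1.lt.trans h3'.1.lt).le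
      refine Relation.ReflTransGen.head ?_ (ih hc)
      exact ⟨Finset.mem_sdiff.2 ⟨h1, hx⟩, Finset.mem_sdiff.2 ⟨h2, hc⟩,
        ⟨g, Finset.mem_sdiff.2 ⟨hg, up g hg h3.1.le⟩, h3, h3'⟩,
        f, Finset.mem_sdiff.2 ⟨hf, up f hf h4.1.le⟩, h4, h4'⟩
  · intro h
    induction h with
    | refl => exact Relation.ReflTransGen.refl
    | tail _ h2 ih => exact ih.tail (LamEps_NW_mono Finset.sdiff_subset h2)

lemma LamEps_dep_off {ω : P → ℕ} {Q T : Finset P} (hQ : LocSkewOn ω Q) (hT : T ∈ comps Q)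
    (hR : nwrim ω T ∈ idl Q) (e : P) :
    dep ω Q e = dep ω (Q \ nwrim ω T) e + if e ∈ T then 1 else 0 := by
  unfold dep
  have hsplit : Q.filter (fun x => Relation.ReflTransGen (NW ω Q) x e) =
      ((Q \ nwrim ω T).filter fun x => Relation.ReflTransGen (NW ω (Q \ nwrim ω T)) x e) ∪
      ((nwrim ω T).filter fun x => Relation.ReflTransGen (NW ω Q) x e) := by
    ext x
    simp only [Finset.mem_filter, Finset.mem_union, Finset.mem_sdiff]
    constructor
    · rintro ⟨h1, h2⟩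
      by_cases hx : x ∈ nwrim ω T
      · exact Or.inr ⟨hx, h2⟩
      · exact Or.inl ⟨⟨h1, hx⟩, (LamEps_rtg_iff hR hx).1 h2⟩
    · rintro (⟨⟨h1, h2⟩, h3⟩ | ⟨h1, h2⟩)
      · exact ⟨h1, (LamEps_rtg_iff hR h2).2 h3⟩
      · exact ⟨LamEps_rim_subQ hT h1, h2⟩
  have hdis : Disjoint
      ((Q \ nwrim ω T).filter fun x => Relation.ReflTransGen (NW ω (Q \ nwrim ω T)) x e)
      ((nwrim ω T).filter fun x => Relation.ReflTransGen (NW ω Q) x e) := by
    rw [Finset.disjoint_left]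
    intro x h1 h2
    exact (Finset.mem_sdiff.1 (Finset.mem_filter.1 h1).1).2 (Finset.mem_filter.1 h2).1
  rw [hsplit, Finset.card_union_of_disjoint hdis]
  congr 1
  by_cases he : e ∈ T
  · rw [if_pos he, Finset.card_eq_one]
    obtain ⟨r, hr, hre, hru⟩ := LamEps_root hQ hT _ e rfl he
    refine ⟨r, ?_⟩
    ext x
    rw [Finset.mem_filter, Finset.mem_singleton]
    constructor
    · rintro ⟨h1, h2⟩
      exact hru x h1 h2
    · rintro rfl
      exact ⟨hr, hre⟩
  · rw [if_neg he, Finset.card_eq_zero]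
    ext x
    rw [Finset.mem_filter]
    constructor
    · rintro ⟨h1, h2⟩
      exact absurd ((LamEps_rtg_comp hT h2).1 (LamEps_rim_sub h1)) he
    · intro h
      exact absurd h (Finset.notMem_empty _)

lemma LamEps_dep_pos {ω : P → ℕ} {Q : Finset P} {e : P} (he : e ∈ Q) : 0 < dep ω Q e := by
  unfold dep
  exact Finset.card_pos.2 ⟨e, Finset.mem_filter.2 ⟨he, Relation.ReflTransGen.refl⟩⟩

theorem epsStmt (h : RimGeo) : EpsStmt := by
  intro P _ ω hω Q hQ T hT
  have g := h P ω hω Q hQ T hT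
  have hR := g.2.1.1
  set R := nwrim ω T with hRdef
  have hRQ : R ⊆ Q := LamEps_rim_subQ hT
  have hRT : R ⊆ T := LamEps_rim_sub
  unfold eps strc
  have hoff : ∀ e, dep ω Q e = dep ω (Q \ R) e + if e ∈ T then 1 else 0 :=
    LamEps_dep_off hQ.loc hT hR
  have hadj : ∀ x ∈ Q, ∀ y ∈ Q, SCov ω x y → (x ∈ T ↔ y ∈ T) := by
    intro x hx y hy hxy
    have a : Adj Q x y := ⟨hx, hy, Or.inl hxy.1⟩
    exact ⟨fun h => LamEps_adj hT h a, fun h => LamEps_adj hT h (LamEps_adj_symm a)⟩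
  have hset : (Q ×ˢ Q).filter (fun p => SCov ω p.1 p.2 ∧ dep ω Q p.1 = dep ω Q p.2) =
      ((R ×ˢ R).filter fun p => SCov ω p.1 p.2) ∪
      (((Q \ R) ×ˢ (Q \ R)).filter fun p =>
        SCov ω p.1 p.2 ∧ dep ω (Q \ R) p.1 = dep ω (Q \ R) p.2) := by
    ext ⟨x, y⟩
    simp only [Finset.mem_filter, Finset.mem_union, Finset.mem_product, Finset.mem_sdiff]
    constructor
    · rintro ⟨⟨hx, hy⟩, hs, hd⟩
      have hT' := hadj x hx y hy hs
      by_cases hxR : x ∈ R
      · by_cases hyR : y ∈ R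
        · exact Or.inl ⟨⟨hxR, hyR⟩, hs⟩
        · exfalso
          have h1 := LamEps_dep_rim hT hxR
          have h2 := hoff y
          rw [if_pos (hT'.1 (hRT hxR))] at h2
          have h3 := LamEps_dep_pos (ω := ω) (Finset.mem_sdiff.2 ⟨hy, hyR⟩)
          omega
      · by_cases hyR : y ∈ R
        · exfalso
          have h1 := LamEps_dep_rim hT hyR
          have h2 := hoff x
          rw [if_pos (hT'.2 (hRT hyR))] at h2
          have h3 := LamEps_dep_pos (ω := ω) (Finset.mem_sdiff.2 ⟨hx, hxR⟩)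
          omega
        · refine Or.inr ⟨⟨⟨hx, hxR⟩, hy, hyR⟩, hs, ?_⟩
          have h1 := hoff x
          have h2 := hoff y
          rw [hd, h2] at h1
          by_cases hxT : x ∈ T
          · rw [if_pos hxT, if_pos (hT'.1 hxT)] at h1
            omega
          · rw [if_neg hxT, if_neg (fun h => hxT (hT'.2 h))] at h1
            omega
    · rintro (⟨⟨hx, hy⟩, hs⟩ | ⟨⟨⟨hx, hxR⟩, hy, hyR⟩, hs, hd⟩)
      · refine ⟨⟨hRQ hx, hRQ hy⟩, hs, ?_⟩
        rw [LamEps_dep_rim hT hx, LamEps_dep_rim hT hy]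
      · refine ⟨⟨hx, hy⟩, hs, ?_⟩
        have hT' := hadj x hx y hy hs
        rw [hoff x, hoff y, hd]
        by_cases hxT : x ∈ T
        · rw [if_pos hxT, if_pos (hT'.1 hxT)]
        · rw [if_neg hxT, if_neg (fun h => hxT (hT'.2 h))]
  have hdis : Disjoint ((R ×ˢ R).filter fun p => SCov ω p.1 p.2)
      (((Q \ R) ×ˢ (Q \ R)).filter fun p =>
        SCov ω p.1 p.2 ∧ dep ω (Q \ R) p.1 = dep ω (Q \ R) p.2) := by
    rw [Finset.disjoint_left]
    rintro ⟨x, y⟩ h1 h2
    have h1' := (Finset.mem_product.1 (Finset.mem_filter.1 h1).1).1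
    have h2' := (Finset.mem_product.1 (Finset.mem_filter.1 h2).1).1
    exact (Finset.mem_sdiff.1 h2').2 h1'
  rw [hset, Finset.card_union_of_disjoint hdis, pow_add]

end epspart

end Pool.Agent.ST14
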