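import Mathlib

/-!
Rims of finite locally skew sets, in terms of the two cover relations `W` (weak) and `S` (strict)
only, so that the statements can be reversed.
-/

set_option autoImplicit false

namespace Pool.Agent.ST14.RimAbs

open scoped Classical

variable {P : Type}

/-- A finite locally skew set with a rank function `rk` and a content-like function `om`. -/
structure RG (W S : P → P → Prop) (T : Finset P) (rk om : P → ℤ) : Prop where
  wl : ∀ x ∈ T, ∀ x' ∈ T, ∀ y ∈ T, W x y → W x' y → x = x'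
  wu : ∀ x ∈ T, ∀ y ∈ T, ∀ y' ∈ T, W x y → W x y' → y = y'
  sl : ∀ x ∈ T, ∀ x' ∈ T, ∀ y ∈ T, S x y → S x' y → x = x'
  su : ∀ x ∈ T, ∀ y ∈ T, ∀ y' ∈ T, S x y → S x y' → y = y'
  ws : ∀ x ∈ T, ∀ b ∈ T, ∀ y ∈ T, W x b → S b y → ∃ c ∈ T, S x c ∧ W c y
  sw : ∀ x ∈ T, ∀ b ∈ T, ∀ y ∈ T, S x b → W b y → ∃ c ∈ T, W x c ∧ S c y
  wrk : ∀ x ∈ T, ∀ y ∈ T, W x y → rk x < rk y
  srk : ∀ x ∈ T, ∀ y ∈ T, S x y → rk x < rk y
  wom : ∀ x ∈ T, ∀ y ∈ T, W x y → om x < om y
  som : ∀ x ∈ T, ∀ y ∈ T, S x y → om y < om x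

/-- `x` is the north-west neighbour of `e`. -/
def NWa (W S : P → P → Prop) (T : Finset P) (x e : P) : Prop :=
  x ∈ T ∧ e ∈ T ∧ (∃ g ∈ T, W x g ∧ S g e) ∧ ∃ f ∈ T, S x f ∧ W f e

/-- The north-west rim. -/
noncomputable def rimA (W S : P → P → Prop) (T : Finset P) : Finset P :=
  T.filter fun e => ∀ x, ¬ NWa W S T x e

/-- Adjacency. -/
def AdjA (W S : P → P → Prop) (T : Finset P) (x y : P) : Prop :=
  x ∈ T ∧ y ∈ T ∧ ((W x y ∨ S x y) ∨ (W y x ∨ S y x))

variable {W S : P → P → Prop} {T : Finset P} {rk om : P → ℤ}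

theorem RG.flip (h : RG W S T rk om) :
    RG (fun x y => W y x) (fun x y => S y x) T (fun x => - rk x) (fun x => - om x) where
  wl x hx x' hx' y hy h1 h2 := h.wu y hy x hx x' hx' h1 h2
  wu x hx y hy y' hy' h1 h2 := h.wl y hy y' hy' x hx h1 h2
  sl x hx x' hx' y hy h1 h2 := h.su y hy x hx x' hx' h1 h2
  su x hx y hy y' hy' h1 h2 := h.sl y hy y' hy' x hx h1 h2
  ws x hx b hb y hy h1 h2 := by
    obtain ⟨c, hc, h3, h4⟩ := h.sw y hy b hb x hx h2 h1
    exact ⟨c, hc, h4, h3⟩
  sw x hx b hb y hy h1 h2 := by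
    obtain ⟨c, hc, h3, h4⟩ := h.ws y hy b hb x hx h2 h1
    exact ⟨c, hc, h4, h3⟩
  wrk x hx y hy h1 := by have := h.wrk y hy x hx h1; linarith
  srk x hx y hy h1 := by have := h.srk y hy x hx h1; linarith
  wom x hx y hy h1 := by have := h.wom y hy x hx h1; linarith
  som x hx y hy h1 := by have := h.som y hy x hx h1; linarith

theorem nwa_flip {x e : P} :
    NWa (fun x y => W y x) (fun x y => S y x) T e x ↔ NWa W S T x e := by
  constructor
  · rintro ⟨he, hx, ⟨g, hg, h1, h2⟩, f, hf, h3, h4⟩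
    exact ⟨hx, he, ⟨f, hf, h4, h3⟩, g, hg, h2, h1⟩
  · rintro ⟨hx, he, ⟨g, hg, h1, h2⟩, f, hf, h3, h4⟩
    exact ⟨he, hx, ⟨f, hf, h4, h3⟩, g, hg, h2, h1⟩

theorem adjA_symm {x y : P} (h : AdjA W S T x y) : AdjA W S T y x := ⟨h.2.1, h.1, h.2.2.symm⟩

theorem connA_symm {x y : P} (h : Relation.ReflTransGen (AdjA W S T) x y) :
    Relation.ReflTransGen (AdjA W S T) y x := by
  induction h with
  | refl => exact Relation.ReflTransGen.refl
  | tail _ h2 ih => exact Relation.ReflTransGen.head (adjA_symm h2) ih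

theorem mem_rimA {e : P} : e ∈ rimA W S T ↔ e ∈ T ∧ ∀ x, ¬ NWa W S T x e := by
  simp [rimA]

theorem rimA_subset : rimA W S T ⊆ T := Finset.filter_subset _ _

theorem NWa.uniq (h : RG W S T rk om) {x x' e : P} (h1 : NWa W S T x e) (h2 : NWa W S T x' e) :
    x = x' := by
  obtain ⟨hx, he, -, f, hf, h3, h4⟩ := h1
  obtain ⟨hx', -, -, f', hf', h5, h6⟩ := h2
  have := h.wl f hf f' hf' e he h4 h6
  subst this
  exact h.sl x hx x' hx' f hf h3 h5

theorem NWa.inj (h : RG W S T rk om) {x e e' : P} (h1 : NWa W S T x e) (h2 : NWa W S T x e') :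
    e = e' := by
  obtain ⟨hx, he, -, f, hf, h3, h4⟩ := h1
  obtain ⟨-, he', -, f', hf', h5, h6⟩ := h2
  have := h.su x hx f hf f' hf' h3 h5
  subst this
  exact h.wu f hf e he e' he' h4 h6

theorem NWa.rk_lt (h : RG W S T rk om) {x e : P} (h1 : NWa W S T x e) : rk x < rk e := by
  obtain ⟨hx, he, -, f, hf, h3, h4⟩ := h1
  exact (h.srk x hx f hf h3).trans (h.wrk f hf e he h4)

/-- The lower covers of an element of the rim are in the rim. -/
theorem rim_low (h : RG W S T rk om) {y e : P} (he : e ∈ rimA W S T) (hy : y ∈ T)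
    (hye : W y e ∨ S y e) : y ∈ rimA W S T := by
  rw [mem_rimA] at he ⊢
  refine ⟨hy, fun x hx => ?_⟩
  obtain ⟨heT, hne⟩ := he
  obtain ⟨hxT, -, ⟨g, hg, h1, h2⟩, f, hf, h3, h4⟩ := hx
  rcases hye with hye | hye
  · obtain ⟨c, hc, h5, h6⟩ := h.sw g hg y hy e heT h2 hye
    exact hne g ⟨hg, heT, ⟨c, hc, h5, h6⟩, y, hy, h2, hye⟩
  · obtain ⟨c, hc, h5, h6⟩ := h.ws f hf y hy e heT h4 hye
    exact hne f ⟨hf, heT, ⟨y, hy, h4, hye⟩, c, hc, h5, h6⟩

theorem rim_nonempty (h : RG W S T rk om) (hT : T.Nonempty) : (rimA W S T).Nonempty := by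
  obtain ⟨e, he, hmin⟩ := T.exists_min_image rk hT
  refine ⟨e, mem_rimA.2 ⟨he, fun x hx => ?_⟩⟩
  have := hx.rk_lt h
  have := hmin x hx.1
  omega

/-- Every element is on the diagonal of an element of the rim. -/
theorem exists_root (h : RG W S T rk om) : ∀ (n : ℕ) (e : P), e ∈ T →
    (T.filter fun z => rk z < rk e).card ≤ n →
    ∃ r ∈ rimA W S T, Relation.ReflTransGen (NWa W S T) r e := by
  intro n
  induction n with
  | zero =>
    intro e he hn
    refine ⟨e, mem_rimA.2 ⟨he, fun x hx => ?_⟩, Relation.ReflTransGen.refl⟩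
    have hm : x ∈ T.filter fun z => rk z < rk e := Finset.mem_filter.2 ⟨hx.1, hx.rk_lt h⟩
    have := Finset.card_pos.2 ⟨x, hm⟩
    omega
  | succ n ih =>
    intro e he hn
    by_cases hx : ∃ x, NWa W S T x e
    · obtain ⟨x, hx⟩ := hx
      have hlt := hx.rk_lt h
      have hcard : (T.filter fun z => rk z < rk x).card < (T.filter fun z => rk z < rk e).card := by
        refine Finset.card_lt_card ⟨fun z hz => ?_, fun hsub => ?_⟩
        · rw [Finset.mem_filter] at hz ⊢
          exact ⟨hz.1, hz.2.trans hlt⟩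
        · have := hsub (Finset.mem_filter.2 ⟨hx.1, hlt⟩)
          exact lt_irrefl _ (Finset.mem_filter.1 this).2
      obtain ⟨r, hr, hr'⟩ := ih x hx.1 (by omega)
      exact ⟨r, hr, hr'.tail hx⟩
    · push Not at hx
      exact ⟨e, mem_rimA.2 ⟨he, hx⟩, Relation.ReflTransGen.refl⟩

theorem root_of_rim {r e : P} (he : e ∈ rimA W S T) (hr : Relation.ReflTransGen (NWa W S T) r e) :
    r = e := by
  rcases Relation.ReflTransGen.cases_tail hr with h1 | ⟨m, -, h1⟩
  · exact h1.symm
  · exact absurd h1 ((mem_rimA.1 he).2 m)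

theorem root_conn (h : RG W S T rk om) : ∀ (n : ℕ) (e f : P), e ∈ T → f ∈ T →
    (T.filter fun z => rk z < rk f).card ≤ n → (W e f ∨ S e f) → ∀ r ∈ rimA W S T,
    ∀ r' ∈ rimA W S T, Relation.ReflTransGen (NWa W S T) r e →
    Relation.ReflTransGen (NWa W S T) r' f →
    Relation.ReflTransGen (AdjA W S (rimA W S T)) r r' := by
  intro n
  induction n with
  | zero =>
    intro e f he hf hn hef
    exfalso
    have hlt : rk e < rk f := by
      rcases hef with h1 | h1
      · exact h.wrk e he f hf h1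
      · exact h.srk e he f hf h1
    have hm : e ∈ T.filter fun z => rk z < rk f := Finset.mem_filter.2 ⟨he, hlt⟩
    have := Finset.card_pos.2 ⟨e, hm⟩
    omega
  | succ n ih =>
    intro e f he hf hn hef r hr r' hr' h1 h2
    rcases Relation.ReflTransGen.cases_tail h1 with h3 | ⟨m, hrm, hm⟩ <;>
      rcases Relation.ReflTransGen.cases_tail h2 with h4 | ⟨m', hrm', hm'⟩
    · subst h3; subst h4
      exact Relation.ReflTransGen.single ⟨hr, hr', Or.inl hef⟩
    · subst h3
      have hm'' := hm'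
      obtain ⟨hm'T, -, ⟨g, hg, h5, h6⟩, k, hk, h7, h8⟩ := hm'
      have hadj : W m' e ∨ S m' e := by
        rcases hef with hef | hef
        · have := h.wl k hk e he f hf h8 hef
          subst this
          exact Or.inr h7
        · have := h.sl g hg e he f hf h6 hef
          subst this
          exact Or.inl h5
      have hm'r : m' ∈ rimA W S T := rim_low h hr hm'T hadj
      have := root_of_rim hm'r hrm'
      subst this
      exact Relation.ReflTransGen.single ⟨hr, hr', Or.inr hadj⟩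
    · subst h4
      exact absurd hm ((mem_rimA.1 (rim_low h hr' he hef)).2 m)
    · have hlt := hm'.rk_lt h
      have hcard : (T.filter fun z => rk z < rk m').card <
          (T.filter fun z => rk z < rk f).card := by
        refine Finset.card_lt_card ⟨fun z hz => ?_, fun hsub => ?_⟩
        · rw [Finset.mem_filter] at hz ⊢
          exact ⟨hz.1, hz.2.trans hlt⟩
        · have := hsub (Finset.mem_filter.2 ⟨hm'.1, hlt⟩)
          exact lt_irrefl _ (Finset.mem_filter.1 this).2
      refine ih m m' hm.1 hm'.1 (by omega) ?_ r hr r' hr' hrm hrm'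
      obtain ⟨hm'T, -, ⟨g, hg, h5, h6⟩, k, hk, h7, h8⟩ := hm'
      obtain ⟨hmT, -, ⟨g', hg', h5', h6'⟩, k', hk', h7', h8'⟩ := hm
      rcases hef with hef | hef
      · have := h.wl k hk e he f hf h8 hef
        subst this
        have := h.sl m' hm'T g' hg' k hk h7 h6'
        subst this
        exact Or.inl h5'
      · have := h.sl g hg e he f hf h6 hef
        subst this
        have := h.wl m' hm'T k' hk' g hg h5 h8'
        subst this
        exact Or.inr h7'

/-- The rim of a connected set is connected. -/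
theorem rim_conn (h : RG W S T rk om)
    (hT : ∀ x ∈ T, ∀ y ∈ T, Relation.ReflTransGen (AdjA W S T) x y) :
    ∀ x ∈ rimA W S T, ∀ y ∈ rimA W S T,
      Relation.ReflTransGen (AdjA W S (rimA W S T)) x y := by
  intro x hx y hy
  have key : ∀ z, Relation.ReflTransGen (AdjA W S T) x z → ∀ r' ∈ rimA W S T,
      Relation.ReflTransGen (NWa W S T) r' z →
      Relation.ReflTransGen (AdjA W S (rimA W S T)) x r' := by
    intro z hz
    induction hz with
    | refl =>
      intro r' hr' h1
      have := root_of_rim hx h1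
      subst this
      exact Relation.ReflTransGen.refl
    | @tail z z' _ h2 ih =>
      intro r' hr' h1
      obtain ⟨hzT, hz'T, hzz⟩ := h2
      obtain ⟨r, hr, hrz⟩ := exists_root h _ z hzT le_rfl
      refine (ih r hr hrz).trans ?_
      rcases hzz with hzz | hzz
      · exact root_conn h _ z z' hzT hz'T le_rfl hzz r hr r' hr' hrz h1
      · exact connA_symm (root_conn h _ z' z hz'T hzT le_rfl hzz r' hr' r hr h1 hrz)
  exact key y (hT x (rimA_subset hx) y (rimA_subset hy)) y hy Relation.ReflTransGen.refl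

/-- The rims of the components of the rest are strictly shorter. -/
theorem rim_short (h : RG W S T rk om) (hT : T.Nonempty) {T' : Finset P}
    (hT' : T' ⊆ T \ rimA W S T)
    (hcl : ∀ x ∈ T', ∀ y ∈ T \ rimA W S T, ((W x y ∨ S x y) ∨ (W y x ∨ S y x)) → y ∈ T') :
    (rimA W S T').card < (rimA W S T).card := by
  obtain ⟨x0, hx0, hmax⟩ := (rimA W S T).exists_max_image om (rim_nonempty h hT)
  have hex : ∀ e ∈ T', ∃ x, NWa W S T x e := by
    intro e he
    by_contra hcon
    push Not at hcon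
    exact (Finset.mem_sdiff.1 (hT' he)).2 (mem_rimA.2 ⟨(Finset.mem_sdiff.1 (hT' he)).1, hcon⟩)
  let μ : P → P := fun e => if he : ∃ x, NWa W S T x e then Classical.choose he else e
  have hμ : ∀ e ∈ T', NWa W S T (μ e) e := by
    intro e he
    have := hex e he
    simp only [μ]
    rw [dif_pos this]
    exact Classical.choose_spec this
  have hinj : Set.InjOn μ (rimA W S T' : Set P) := by
    intro e he e' he' hee
    have h1 := hμ e (rimA_subset he)
    have h2 := hμ e' (rimA_subset he')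
    rw [← hee] at h2
    exact h1.inj h h2
  have hsub : (rimA W S T').image μ ⊆ (rimA W S T).erase x0 := by
    intro x hx
    obtain ⟨e, he, rfl⟩ := Finset.mem_image.1 hx
    have heT' := rimA_subset he
    have hne := (mem_rimA.1 he).2
    have hNW := hμ e heT'
    obtain ⟨hxT, heT, ⟨g, hg, h1, h2⟩, f, hf, h3, h4⟩ := hNW
    rw [Finset.mem_erase]
    refine ⟨fun h0 => ?_, ?_⟩
    · -- `x0` is not in the image
      rw [h0] at h1 h3
      have hx0T := rimA_subset hx0
      have hgr : g ∉ rimA W S T := by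
        intro hgr
        have := hmax g hgr
        have := h.wom x0 hx0T g hg h1
        omega
      have : ∃ y, NWa W S T y g := by
        by_contra hcon
        push Not at hcon
        exact hgr (mem_rimA.2 ⟨hg, hcon⟩)
      obtain ⟨y, hyT, -, -, k, hk, h5, h6⟩ := this
      have := h.wl k hk x0 hx0T g hg h6 h1
      subst this
      have hyr := rim_low h hx0 hyT (Or.inr h5)
      have h7 := hmax y hyr
      have h8 := h.som y hyT k hk h5
      omega
    · by_contra hcon
      have hgr : g ∉ rimA W S T := fun hgr => hcon (rim_low h hgr hxT (Or.inl h1))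
      have hfr : f ∉ rimA W S T := fun hfr => hcon (rim_low h hfr hxT (Or.inr h3))
      have hgT' : g ∈ T' := hcl e heT' g (Finset.mem_sdiff.2 ⟨hg, hgr⟩) (Or.inr (Or.inr h2))
      have hfT' : f ∈ T' := hcl e heT' f (Finset.mem_sdiff.2 ⟨hf, hfr⟩) (Or.inr (Or.inl h4))
      have hxT' : μ e ∈ T' :=
        hcl g hgT' (μ e) (Finset.mem_sdiff.2 ⟨hxT, hcon⟩) (Or.inr (Or.inl h1))
      exact hne (μ e) ⟨hxT', heT', ⟨g, hgT', h1, h2⟩, f, hfT', h3, h4⟩
  calc (rimA W S T').card = ((rimA W S T').image μ).card := (Finset.card_image_of_injOn hinj).symm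
    _ ≤ ((rimA W S T).erase x0).card := Finset.card_le_card hsub
    _ < (rimA W S T).card := Finset.card_erase_lt_of_mem hx0

end Pool.Agent.ST14.RimAbs
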