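import Pool.Agent.ST14.RimStmts
import Pool.Agent.ST14.RimAbs

/-!
Module ST_RimGeo: elementary geometry of the two rims of a component of a finite skew poset.
-/

set_option autoImplicit false

namespace Pool.Agent.ST14

open scoped Classical

namespace RimG

open RimAbs

variable {P : Type} [PartialOrder P] {ω : P → ℕ} {Q T R I : Finset P}

theorem mem_idl : I ∈ idl Q ↔ I ⊆ Q ∧ ∀ x ∈ Q, ∀ y ∈ I, x ≤ y → x ∈ I := by
  simp [idl]

theorem cov_cases (hω : Function.Injective ω) {x y : P} (h : x ⋖ y) :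
    WCov ω x y ∨ SCov ω x y := by
  rcases lt_trichotomy (ω x) (ω y) with h1 | h1 | h1
  · exact Or.inl ⟨h, h1⟩
  · exact absurd (hω h1) h.1.ne
  · exact Or.inr ⟨h, h1⟩

theorem LocSkewOn_mono (h : LocSkewOn ω Q) (hR : R ⊆ Q) : LocSkewOn ω R where
  w_lower x hx x' hx' y hy := h.w_lower x (hR hx) x' (hR hx') y (hR hy)
  w_upper x hx y hy y' hy' := h.w_upper x (hR hx) y (hR hy) y' (hR hy')
  s_lower x hx x' hx' y hy := h.s_lower x (hR hx) x' (hR hx') y (hR hy)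
  s_upper x hx y hy y' hy' := h.s_upper x (hR hx) y (hR hy) y' (hR hy')
  ws x hx b hb y hy := h.ws x (hR hx) b (hR hb) y (hR hy)
  sw x hx b hb y hy := h.sw x (hR hx) b (hR hb) y (hR hy)

theorem skw_idl (hQ : Skw ω Q) (hI : I ∈ idl Q) : Skw ω I := by
  obtain ⟨h1, h2⟩ := mem_idl.1 hI
  exact ⟨fun x hx z hz y hxy hyz => h2 y (hQ.cvx x (h1 hx) z (h1 hz) y hxy hyz) z hz hyz,
    LocSkewOn_mono hQ.loc h1⟩

theorem skw_sdiff (hQ : Skw ω Q) (hI : I ∈ idl Q) : Skw ω (Q \ I) := by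
  obtain ⟨h1, h2⟩ := mem_idl.1 hI
  refine ⟨fun x hx z hz y hxy hyz => ?_, LocSkewOn_mono hQ.loc Finset.sdiff_subset⟩
  rw [Finset.mem_sdiff] at hx hz ⊢
  exact ⟨hQ.cvx x hx.1 z hz.1 y hxy hyz, fun hy => hx.2 (h2 x hx.1 y hy hxy)⟩

/-- A subset closed under lower covers is an ideal. -/
theorem down_of_cov (hQ : Cvx Q) (h : ∀ x ∈ Q, ∀ y ∈ I, x ⋖ y → x ∈ I) (hI : I ⊆ Q) :
    ∀ x ∈ Q, ∀ y ∈ I, x ≤ y → x ∈ I := by
  intro x hx y hy hxy
  by_contra hcon
  have hne : (Q.filter fun z => x ≤ z ∧ z ≤ y ∧ z ∉ I).Nonempty :=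
    ⟨x, Finset.mem_filter.2 ⟨hx, le_rfl, hxy, hcon⟩⟩
  obtain ⟨z, hz, hzmax⟩ := Finset.exists_maximal hne
  obtain ⟨hzQ, hxz, hzy, hzI⟩ := Finset.mem_filter.1 hz
  have hzy' : z < y := lt_of_le_of_ne hzy (fun h0 => hzI (h0 ▸ hy))
  have hne2 : (Q.filter fun u => z < u ∧ u ≤ y).Nonempty :=
    ⟨y, Finset.mem_filter.2 ⟨hI hy, hzy', le_rfl⟩⟩
  obtain ⟨u, hu, humin⟩ := Finset.exists_minimal hne2
  obtain ⟨huQ, hzu, huy⟩ := Finset.mem_filter.1 hu
  have hcov : z ⋖ u := by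
    refine ⟨hzu, fun v hzv hvu => ?_⟩
    have hvQ := hQ z hzQ u huQ v hzv.le hvu.le
    have := humin (Finset.mem_filter.2 ⟨hvQ, hzv, hvu.le.trans huy⟩) hvu.le
    exact absurd hvu (not_lt_of_ge this)
  have huI : u ∈ I := by
    by_contra huI
    have := hzmax (Finset.mem_filter.2 ⟨huQ, hxz.trans hzu.le, huy, huI⟩) hzu.le
    exact absurd hzu (not_lt_of_ge this)
  exact hzI (h z hzQ u huI hcov)

/-- A subset closed under upper covers is a filter. -/
theorem up_of_cov (hQ : Cvx Q) (h : ∀ x ∈ I, ∀ y ∈ Q, x ⋖ y → y ∈ I) (hI : I ⊆ Q) :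
    ∀ x ∈ I, ∀ y ∈ Q, x ≤ y → y ∈ I := by
  intro x hx y hy hxy
  by_contra hcon
  have h1 : ∀ x ∈ Q, ∀ y ∈ Q \ I, x ⋖ y → x ∈ Q \ I := by
    intro a ha b hb hab
    rw [Finset.mem_sdiff] at hb ⊢
    exact ⟨ha, fun haI => hb.2 (h a haI b hb.1 hab)⟩
  have := down_of_cov hQ h1 Finset.sdiff_subset x (hI hx) y (Finset.mem_sdiff.2 ⟨hy, hcon⟩) hxy
  exact (Finset.mem_sdiff.1 this).2 hx

/-- The data for the abstract lemmas. -/
theorem rg_of_skw (hT : Skw ω T) :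
    RG (WCov ω) (SCov ω) T (fun x => ((T.filter fun z => z < x).card : ℤ))
      (fun x => (ω x : ℤ)) := by
  have hrk : ∀ x ∈ T, ∀ y ∈ T, x < y →
      ((T.filter fun z => z < x).card : ℤ) < ((T.filter fun z => z < y).card : ℤ) := by
    intro x hx y hy hxy
    have : (T.filter fun z => z < x).card < (T.filter fun z => z < y).card := by
      refine Finset.card_lt_card ⟨fun z hz => ?_, fun hsub => ?_⟩
      · rw [Finset.mem_filter] at hz ⊢
        exact ⟨hz.1, hz.2.trans hxy⟩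
      · have := hsub (Finset.mem_filter.2 ⟨hx, hxy⟩)
        exact lt_irrefl _ (Finset.mem_filter.1 this).2
    exact_mod_cast this
  refine ⟨hT.loc.w_lower, hT.loc.w_upper, hT.loc.s_lower, hT.loc.s_upper, ?_, ?_,
    fun x hx y hy h => hrk x hx y hy h.1.1, fun x hx y hy h => hrk x hx y hy h.1.1,
    fun x hx y hy h => ?_, fun x hx y hy h => ?_⟩
  · intro x hx b hb y hy h1 h2
    obtain ⟨c, h3, h4⟩ := hT.loc.ws x hx b hb y hy h1 h2
    exact ⟨c, hT.cvx x hx y hy c h3.1.le h4.1.le, h3, h4⟩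
  · intro x hx b hb y hy h1 h2
    obtain ⟨c, h3, h4⟩ := hT.loc.sw x hx b hb y hy h1 h2
    exact ⟨c, hT.cvx x hx y hy c h3.1.le h4.1.le, h3, h4⟩
  · have := h.2
    exact_mod_cast this
  · have := h.2
    exact_mod_cast this

theorem rimA_eq : rimA (WCov ω) (SCov ω) T = nwrim ω T := rfl

theorem rimA_flip : rimA (fun x y => WCov ω y x) (fun x y => SCov ω y x) T = serim ω T := by
  unfold rimA serim
  refine Finset.filter_congr fun x _ => ?_
  constructor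
  · intro h e he
    exact h e (nwa_flip.2 he)
  · intro h e he
    exact h e (nwa_flip.1 he)

theorem adj_iff (hω : Function.Injective ω) {x y : P} :
    AdjA (WCov ω) (SCov ω) T x y ↔ Adj T x y := by
  constructor
  · rintro ⟨hx, hy, (h | h) | (h | h)⟩
    · exact ⟨hx, hy, Or.inl h.1⟩
    · exact ⟨hx, hy, Or.inl h.1⟩
    · exact ⟨hx, hy, Or.inr h.1⟩
    · exact ⟨hx, hy, Or.inr h.1⟩
  · rintro ⟨hx, hy, h | h⟩
    · exact ⟨hx, hy, Or.inl (cov_cases hω h)⟩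
    · exact ⟨hx, hy, Or.inr (cov_cases hω h)⟩

theorem adj_eq (hω : Function.Injective ω) (T : Finset P) :
    AdjA (WCov ω) (SCov ω) T = Adj T := by
  funext x y
  exact propext (adj_iff hω)

theorem adj_flip_eq (hω : Function.Injective ω) (T : Finset P) :
    AdjA (fun x y => WCov ω y x) (fun x y => SCov ω y x) T = Adj T := by
  rw [← adj_eq hω T]
  funext x y
  refine propext ⟨?_, ?_⟩
  · rintro ⟨hx, hy, h⟩
    exact ⟨hx, hy, h.symm⟩
  · rintro ⟨hx, hy, h⟩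
    exact ⟨hx, hy, h.symm⟩

/-! Components. -/

theorem adj_symm {x y : P} (h : Adj Q x y) : Adj Q y x := ⟨h.2.1, h.1, h.2.2.symm⟩

theorem conn_symm {x y : P} (h : Conn Q x y) : Conn Q y x := by
  induction h with
  | refl => exact Relation.ReflTransGen.refl
  | tail _ h2 ih => exact Relation.ReflTransGen.head (adj_symm h2) ih

theorem conn_trans {x y z : P} (h : Conn Q x y) (h' : Conn Q y z) : Conn Q x z :=
  Relation.ReflTransGen.trans h h'

theorem conn_mono (hRQ : R ⊆ Q) {x y : P} (h : Conn R x y) : Conn Q x y := by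
  induction h with
  | refl => exact Relation.ReflTransGen.refl
  | tail _ h2 ih => exact ih.tail ⟨hRQ h2.1, hRQ h2.2.1, h2.2.2⟩

theorem mem_comp {x y : P} : y ∈ comp Q x ↔ y ∈ Q ∧ Conn Q x y := by
  simp [comp]

theorem mem_comps {T : Finset P} : T ∈ comps Q ↔ ∃ x ∈ Q, comp Q x = T := by
  simp [comps]

theorem self_mem_comp {x : P} (hx : x ∈ Q) : x ∈ comp Q x :=
  mem_comp.2 ⟨hx, Relation.ReflTransGen.refl⟩

theorem comp_eq {x y : P} (h : Conn Q x y) : comp Q x = comp Q y := by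
  ext z
  rw [mem_comp, mem_comp]
  exact ⟨fun hz => ⟨hz.1, conn_trans (conn_symm h) hz.2⟩, fun hz => ⟨hz.1, conn_trans h hz.2⟩⟩

theorem comp_eq_of_mem (hT : T ∈ comps Q) {y : P} (hy : y ∈ T) : comp Q y = T := by
  obtain ⟨x, hx, rfl⟩ := mem_comps.1 hT
  exact (comp_eq (mem_comp.1 hy).2).symm

theorem comps_subset (hT : T ∈ comps Q) : T ⊆ Q := by
  obtain ⟨x, hx, rfl⟩ := mem_comps.1 hT
  exact fun y hy => (mem_comp.1 hy).1

theorem comps_nonempty (hT : T ∈ comps Q) : T.Nonempty := by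
  obtain ⟨x, hx, rfl⟩ := mem_comps.1 hT
  exact ⟨x, self_mem_comp hx⟩

theorem closed_of_comps (hT : T ∈ comps Q) {y z : P} (hy : y ∈ T) (h : Adj Q y z) : z ∈ T := by
  rw [← comp_eq_of_mem hT hy]
  exact mem_comp.2 ⟨h.2.1, Relation.ReflTransGen.single h⟩

theorem conn_sub (hT : T ∈ comps Q) (hRT : R ⊆ Q) {y z : P} (hy : y ∈ T) (h : Conn R y z) :
    z ∈ T ∧ Conn (T ∩ R) y z := by
  induction h with
  | refl => exact ⟨hy, Relation.ReflTransGen.refl⟩
  | tail _ h2 ih =>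
    have h3 := closed_of_comps hT ih.1 ⟨hRT h2.1, hRT h2.2.1, h2.2.2⟩
    exact ⟨h3, ih.2.tail ⟨Finset.mem_inter.2 ⟨ih.1, h2.1⟩, Finset.mem_inter.2 ⟨h3, h2.2.1⟩,
      h2.2.2⟩⟩

theorem comps_conn (hT : T ∈ comps Q) {x y : P} (hx : x ∈ T) (hy : y ∈ T) : Conn T x y := by
  rw [← comp_eq_of_mem hT hx] at hy
  exact conn_mono Finset.inter_subset_left (conn_sub hT (Finset.Subset.refl Q) hx (mem_comp.1 hy).2).2

theorem conn_out (hT : T ∈ comps Q) {y z : P} (hy : y ∉ T) (h : Conn Q y z) :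
    z ∉ T ∧ Conn (Q \ T) y z := by
  induction h with
  | refl => exact ⟨hy, Relation.ReflTransGen.refl⟩
  | tail _ h2 ih =>
    have h3 := fun hc => ih.1 (closed_of_comps hT hc (adj_symm h2))
    exact ⟨h3, ih.2.tail ⟨Finset.mem_sdiff.2 ⟨h2.1, ih.1⟩, Finset.mem_sdiff.2 ⟨h2.2.1, h3⟩,
      h2.2.2⟩⟩

theorem comp_in (hT : T ∈ comps Q) {y : P} (hy : y ∈ T) :
    comp (Q \ R) y = comp (T \ R) y := by
  ext z
  rw [mem_comp, mem_comp]
  constructor
  · rintro ⟨hz, hc⟩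
    obtain ⟨hzT, hc'⟩ := conn_sub hT (Finset.sdiff_subset : Q \ R ⊆ Q) hy hc
    refine ⟨Finset.mem_sdiff.2 ⟨hzT, (Finset.mem_sdiff.1 hz).2⟩, conn_mono ?_ hc'⟩
    intro a ha
    rw [Finset.mem_inter, Finset.mem_sdiff] at ha
    exact Finset.mem_sdiff.2 ⟨ha.1, ha.2.2⟩
  · rintro ⟨hz, hc⟩
    have hsub : T \ R ⊆ Q \ R := Finset.sdiff_subset_sdiff (comps_subset hT) (Finset.Subset.refl R)
    exact ⟨hsub hz, conn_mono hsub hc⟩

theorem comp_out (hT : T ∈ comps Q) (hR : R ⊆ T) {y : P} (hy : y ∉ T) :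
    comp (Q \ R) y = comp Q y := by
  have hsub : Q \ T ⊆ Q \ R := Finset.sdiff_subset_sdiff (Finset.Subset.refl Q) hR
  ext z
  rw [mem_comp, mem_comp]
  constructor
  · rintro ⟨hz, hc⟩
    exact ⟨Finset.sdiff_subset hz, conn_mono Finset.sdiff_subset hc⟩
  · rintro ⟨hz, hc⟩
    obtain ⟨hzT, hc'⟩ := conn_out hT hy hc
    exact ⟨Finset.mem_sdiff.2 ⟨hz, fun h => hzT (hR h)⟩, conn_mono hsub hc'⟩

/-- The components after the removal of a part of one component. -/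
theorem comps_sdiff (hT : T ∈ comps Q) (hR : R ⊆ T) :
    comps (Q \ R) = (comps Q).erase T ∪ comps (T \ R) := by
  ext U
  rw [Finset.mem_union, Finset.mem_erase]
  constructor
  · intro hU
    obtain ⟨y, hy, rfl⟩ := mem_comps.1 hU
    rw [Finset.mem_sdiff] at hy
    by_cases hyT : y ∈ T
    · right
      rw [comp_in hT hyT]
      exact mem_comps.2 ⟨y, Finset.mem_sdiff.2 ⟨hyT, hy.2⟩, rfl⟩
    · left
      rw [comp_out hT hR hyT]
      exact ⟨fun h => hyT (h ▸ self_mem_comp hy.1), mem_comps.2 ⟨y, hy.1, rfl⟩⟩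
  · rintro (⟨hne, hU⟩ | hU)
    · obtain ⟨y, hy, rfl⟩ := mem_comps.1 hU
      have hyT : y ∉ T := fun h => hne (comp_eq_of_mem hT h)
      rw [← comp_out hT hR hyT]
      exact mem_comps.2 ⟨y, Finset.mem_sdiff.2 ⟨hy, fun h => hyT (hR h)⟩, rfl⟩
    · obtain ⟨y, hy, rfl⟩ := mem_comps.1 hU
      rw [Finset.mem_sdiff] at hy
      rw [← comp_in hT hy.1]
      exact mem_comps.2 ⟨y, Finset.mem_sdiff.2 ⟨comps_subset hT hy.1, hy.2⟩, rfl⟩

theorem comps_mem_idl (hQ : Skw ω Q) (hT : T ∈ comps Q) : T ∈ idl Q := by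
  refine mem_idl.2 ⟨comps_subset hT, down_of_cov hQ.cvx (fun x hx y hy hxy => ?_)
    (comps_subset hT)⟩
  exact closed_of_comps hT hy ⟨comps_subset hT hy, hx, Or.inr hxy⟩

theorem comps_compl_mem_idl (hQ : Skw ω Q) (hT : T ∈ comps Q) : Q \ T ∈ idl Q := by
  refine mem_idl.2 ⟨Finset.sdiff_subset, down_of_cov hQ.cvx (fun x hx y hy hxy => ?_)
    Finset.sdiff_subset⟩
  rw [Finset.mem_sdiff] at hy ⊢
  exact ⟨hx, fun hxT => hy.2 (closed_of_comps hT hxT ⟨hx, hy.1, Or.inl hxy⟩)⟩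

theorem nwrim_mem_idl (hω : Function.Injective ω) (hQ : Skw ω Q) (hT : T ∈ comps Q) :
    nwrim ω T ∈ idl Q := by
  have hTs := skw_idl hQ (comps_mem_idl hQ hT)
  have hsub : nwrim ω T ⊆ Q := (Finset.filter_subset _ _).trans (comps_subset hT)
  refine mem_idl.2 ⟨hsub, down_of_cov hQ.cvx (fun x hx y hy hxy => ?_) hsub⟩
  have hyT : y ∈ T := Finset.filter_subset _ _ hy
  have hxT : x ∈ T := closed_of_comps hT hyT ⟨comps_subset hT hyT, hx, Or.inr hxy⟩
  exact rim_low (rg_of_skw hTs) (e := y) hy hxT (cov_cases hω hxy)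

theorem serim_mem_idl (hω : Function.Injective ω) (hQ : Skw ω Q) (hT : T ∈ comps Q) :
    Q \ serim ω T ∈ idl Q := by
  have hTs := skw_idl hQ (comps_mem_idl hQ hT)
  have hsub : serim ω T ⊆ Q := (Finset.filter_subset _ _).trans (comps_subset hT)
  refine mem_idl.2 ⟨Finset.sdiff_subset, fun x hx y hy hxy => ?_⟩
  rw [Finset.mem_sdiff] at hy ⊢
  refine ⟨hx, fun hxr => hy.2 (up_of_cov hQ.cvx (fun a ha b hb hab => ?_) hsub x hxr y hy.1 hxy)⟩
  have haT : a ∈ T := Finset.filter_subset _ _ ha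
  have hbT : b ∈ T := closed_of_comps hT haT ⟨comps_subset hT haT, hb, Or.inl hab⟩
  rw [← rimA_flip] at ha ⊢
  exact rim_low (rg_of_skw hTs).flip (e := a) ha hbT (cov_cases hω hab)

theorem no_NW_nwrim (x e : P) : ¬ NW ω (nwrim ω T) x e := by
  rintro ⟨hx, he, ⟨g, hg, h1, h2⟩, f, hf, h3, h4⟩
  have hs : nwrim ω T ⊆ T := Finset.filter_subset _ _
  exact (Finset.mem_filter.1 he).2 x ⟨hs hx, hs he, ⟨g, hs hg, h1, h2⟩, f, hs hf, h3, h4⟩

theorem no_NW_serim (x e : P) : ¬ NW ω (serim ω T) x e := by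
  rintro ⟨hx, he, ⟨g, hg, h1, h2⟩, f, hf, h3, h4⟩
  have hs : serim ω T ⊆ T := Finset.filter_subset _ _
  exact (Finset.mem_filter.1 hx).2 e ⟨hs hx, hs he, ⟨g, hs hg, h1, h2⟩, f, hs hf, h3, h4⟩

theorem nwrim_conn (hω : Function.Injective ω) (hT : Skw ω T)
    (hc : ∀ x ∈ T, ∀ y ∈ T, Conn T x y) :
    ∀ x ∈ nwrim ω T, ∀ y ∈ nwrim ω T, Conn (nwrim ω T) x y := by
  have h := rim_conn (rg_of_skw hT) (by rw [adj_eq hω]; exact hc)
  rw [adj_eq hω] at h
  exact h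

theorem serim_conn (hω : Function.Injective ω) (hT : Skw ω T)
    (hc : ∀ x ∈ T, ∀ y ∈ T, Conn T x y) :
    ∀ x ∈ serim ω T, ∀ y ∈ serim ω T, Conn (serim ω T) x y := by
  have h := rim_conn (rg_of_skw hT).flip (by rw [adj_flip_eq hω]; exact hc)
  rw [adj_flip_eq hω, rimA_flip] at h
  exact h

theorem nwrim_short (hT : Skw ω T) (hne : T.Nonempty) {T' : Finset P}
    (hT' : T' ∈ comps (T \ nwrim ω T)) : (nwrim ω T').card < (nwrim ω T).card := by
  refine rim_short (rg_of_skw hT) hne (comps_subset hT') (fun x hx y hy hxy => ?_)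
  refine closed_of_comps hT' hx ⟨comps_subset hT' hx, hy, ?_⟩
  rcases hxy with (h | h) | (h | h)
  · exact Or.inl h.1
  · exact Or.inl h.1
  · exact Or.inr h.1
  · exact Or.inr h.1

theorem serim_short (hT : Skw ω T) (hne : T.Nonempty) {T' : Finset P}
    (hT' : T' ∈ comps (T \ serim ω T)) : (serim ω T').card < (serim ω T).card := by
  rw [← rimA_flip, ← rimA_flip]
  rw [← rimA_flip] at hT'
  refine rim_short (rg_of_skw hT).flip hne (comps_subset hT') (fun x hx y hy hxy => ?_)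
  refine closed_of_comps hT' hx ⟨comps_subset hT' hx, hy, ?_⟩
  rcases hxy with (h | h) | (h | h)
  · exact Or.inr h.1
  · exact Or.inr h.1
  · exact Or.inl h.1
  · exact Or.inl h.1

end RimG

open RimG RimAbs in
/-- Module ST_RimGeo. -/
theorem rimGeo : RimGeo := by
  intro P _ ω hω Q hQ T hT
  have hTi := comps_mem_idl hQ hT
  have hTs := skw_idl hQ hTi
  have hTc : ∀ x ∈ T, ∀ y ∈ T, Conn T x y := fun x hx y hy => comps_conn hT hx hy
  have hni := nwrim_mem_idl hω hQ hT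
  have hsi := serim_mem_idl hω hQ hT
  have hne := comps_nonempty hT
  have hser : Q \ (Q \ serim ω T) = serim ω T :=
    Finset.sdiff_sdiff_eq_self ((Finset.filter_subset _ _).trans (comps_subset hT))
  refine ⟨⟨hTs, comps_subset hT, hne, hTi, comps_compl_mem_idl hQ hT⟩,
    ⟨hni, ?_, skw_idl hQ hni, skw_sdiff hQ hni, nwrim_conn hω hTs hTc, no_NW_nwrim⟩,
    ⟨hsi, ?_, ?_, skw_idl hQ hsi, serim_conn hω hTs hTc, no_NW_serim⟩,
    comps_sdiff hT (Finset.filter_subset _ _), comps_sdiff hT (Finset.filter_subset _ _),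
    fun T' hT' => nwrim_short hTs hne hT', fun T' hT' => serim_short hTs hne hT'⟩
  · exact rim_nonempty (rg_of_skw hTs) hne
  · rw [← rimA_flip]
    exact rim_nonempty (rg_of_skw hTs).flip hne
  · have := skw_sdiff hQ hsi
    rwa [hser] at this

end Pool.Agent.ST14
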