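import Pool.Agent.ST14.RimStmts

/-!
Module ST_SE: the two rims of a component (section 1, SE).
-/

set_option autoImplicit false

namespace Pool.Agent.ST14

open scoped Classical

section kapdisj

variable {P : Type} [PartialOrder P]

/-- Convolution of two functions of words along the splittings of the letters. -/
def se_cv (f g : List ℕ → ℕ) : List ℕ → ℕ
  | [] => f [] * g []
  | a :: w => ∑ b ∈ Finset.range (a + 1),
      se_cv (fun u => f (b :: u)) (fun v => g ((a - b) :: v)) w

theorem se_cv_sum_left {ι : Type} (s : Finset ι) (w : List ℕ) :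
    ∀ (f : ι → List ℕ → ℕ) (g : List ℕ → ℕ),
      se_cv (fun u => ∑ i ∈ s, f i u) g w = ∑ i ∈ s, se_cv (f i) g w := by
  induction w with
  | nil =>
    intro f g
    simp only [se_cv, Finset.sum_mul]
  | cons a w ih =>
    intro f g
    simp only [se_cv]
    rw [Finset.sum_comm]
    apply Finset.sum_congr rfl
    intro b _
    exact ih (fun i u => f i (b :: u)) _

theorem se_cv_sum_right {ι : Type} (s : Finset ι) (w : List ℕ) :
    ∀ (f : List ℕ → ℕ) (g : ι → List ℕ → ℕ),
      se_cv f (fun u => ∑ i ∈ s, g i u) w = ∑ i ∈ s, se_cv f (g i) w := by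
  induction w with
  | nil =>
    intro f g
    simp only [se_cv, Finset.mul_sum]
  | cons a w ih =>
    intro f g
    simp only [se_cv]
    rw [Finset.sum_comm]
    apply Finset.sum_congr rfl
    intro b _
    exact ih _ (fun i u => g i ((a - b) :: u))

/-- `A` and `B` are disjoint without relations. -/
def SeFree (A B : Finset P) : Prop := ∀ x ∈ A, ∀ y ∈ B, ¬ x ≤ y ∧ ¬ y ≤ x

theorem SeFree.disj {A B : Finset P} (h : SeFree A B) : Disjoint A B := by
  rw [Finset.disjoint_left]
  intro x hx hx'
  exact (h x hx x hx').1 le_rfl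

theorem SeFree.mono {A B A' B' : Finset P} (h : SeFree A B) (hA : A' ⊆ A) (hB : B' ⊆ B) :
    SeFree A' B' := fun x hx y hy => h x (hA hx) y (hB hy)

theorem se_idl_union {A B : Finset P} (h : SeFree A B) {M : Type} [AddCommMonoid M]
    (F : Finset P → M) :
    ∑ I ∈ idl (A ∪ B), F I = ∑ I ∈ idl A, ∑ J ∈ idl B, F (I ∪ J) := by
  rw [← Finset.sum_product']
  symm
  have hd := h.disj
  refine Finset.sum_bij' (i := fun p _ => p.1 ∪ p.2) (j := fun K _ => (K ∩ A, K ∩ B))
    ?_ ?_ ?_ ?_ ?_
  · rintro ⟨I, J⟩ hp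
    rw [Finset.mem_product] at hp
    obtain ⟨hI, hJ⟩ := hp
    rw [mem_idl] at hI hJ ⊢
    refine ⟨Finset.union_subset_union hI.1 hJ.1, ?_⟩
    intro x hx y hy hxy
    rw [Finset.mem_union] at hx hy ⊢
    rcases hy with hy | hy
    · rcases hx with hx | hx
      · exact Or.inl (hI.2 x hx y hy hxy)
      · exact absurd hxy (h y (hI.1 hy) x hx).2
    · rcases hx with hx | hx
      · exact absurd hxy (h x hx y (hJ.1 hy)).1
      · exact Or.inr (hJ.2 x hx y hy hxy)
  · intro K hK
    rw [mem_idl] at hK
    rw [Finset.mem_product, mem_idl, mem_idl]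
    refine ⟨⟨Finset.inter_subset_right, ?_⟩, ⟨Finset.inter_subset_right, ?_⟩⟩
    · intro x hx y hy hxy
      rw [Finset.mem_inter] at hy ⊢
      exact ⟨hK.2 x (Finset.mem_union_left _ hx) y hy.1 hxy, hx⟩
    · intro x hx y hy hxy
      rw [Finset.mem_inter] at hy ⊢
      exact ⟨hK.2 x (Finset.mem_union_right _ hx) y hy.1 hxy, hx⟩
  · rintro ⟨I, J⟩ hp
    rw [Finset.mem_product] at hp
    have h1 := subset_of_mem_idl hp.1
    have h2 := subset_of_mem_idl hp.2
    rw [Finset.disjoint_left] at hd
    refine Prod.ext ?_ ?_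
    · ext x
      simp only [Finset.mem_inter, Finset.mem_union]
      constructor
      · rintro ⟨h3 | h3, h4⟩
        · exact h3
        · exact absurd (h2 h3) (hd h4)
      · intro h3
        exact ⟨Or.inl h3, h1 h3⟩
    · ext x
      simp only [Finset.mem_inter, Finset.mem_union]
      constructor
      · rintro ⟨h3 | h3, h4⟩
        · exact absurd h4 (hd (h1 h3))
        · exact h3
      · intro h3
        exact ⟨Or.inr h3, h2 h3⟩
  · intro K hK
    have h1 := subset_of_mem_idl hK
    show K ∩ A ∪ K ∩ B = K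
    rw [← Finset.inter_union_distrib_left]
    exact Finset.inter_eq_left.2 h1
  · intro p _
    rfl

theorem se_weak_union {ω : P → ℕ} {A B : Finset P} (h : SeFree A B) :
    WeakOnly ω (A ∪ B) ↔ WeakOnly ω A ∧ WeakOnly ω B := by
  constructor
  · intro h1
    exact ⟨fun x hx y hy => h1 x (Finset.mem_union_left _ hx) y (Finset.mem_union_left _ hy),
      fun x hx y hy => h1 x (Finset.mem_union_right _ hx) y (Finset.mem_union_right _ hy)⟩
  · rintro ⟨h1, h2⟩ x hx y hy hxy
    rw [Finset.mem_union] at hx hy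
    rcases hx with hx | hx <;> rcases hy with hy | hy
    · exact h1 x hx y hy hxy
    · exact absurd hxy.le (h x hx y hy).1
    · exact absurd hxy.le (h y hy x hx).2
    · exact h2 x hx y hy hxy

/-- `kap` of a disjoint union without relations. -/
theorem se_kap_union (ω : P → ℕ) (w : List ℕ) : ∀ A B : Finset P, SeFree A B →
    kap ω (A ∪ B) w = se_cv (kap ω A) (kap ω B) w := by
  induction w with
  | nil =>
    intro A B _
    simp only [se_cv, kap_nil]
    by_cases hA : A = ∅ <;> by_cases hB : B = ∅ <;> simp [hA, hB]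
  | cons a w ih =>
    intro A B h
    have hd := h.disj
    rw [kap_cons', se_idl_union h]
    have h1 : ∀ I ∈ idl A, ∀ J ∈ idl B,
        (if (I ∪ J).card = a ∧ WeakOnly ω (I ∪ J) then 1 else 0) *
          kap ω ((A ∪ B) \ (I ∪ J)) w =
        ∑ b ∈ Finset.range (a + 1), (if I.card = b ∧ WeakOnly ω I then 1 else 0) *
          ((if J.card = a - b ∧ WeakOnly ω J then 1 else 0) *
            se_cv (kap ω (A \ I)) (kap ω (B \ J)) w) := by
      intro I hI J hJ
      have hIA := subset_of_mem_idl hI
      have hJB := subset_of_mem_idl hJ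
      have h2 : (A ∪ B) \ (I ∪ J) = (A \ I) ∪ (B \ J) := by
        rw [Finset.disjoint_left] at hd
        ext x
        simp only [Finset.mem_sdiff, Finset.mem_union]
        constructor
        · rintro ⟨h3 | h3, h4⟩
          · exact Or.inl ⟨h3, fun h5 => h4 (Or.inl h5)⟩
          · exact Or.inr ⟨h3, fun h5 => h4 (Or.inr h5)⟩
        · rintro (⟨h3, h4⟩ | ⟨h3, h4⟩)
          · refine ⟨Or.inl h3, ?_⟩
            rintro (h5 | h5)
            · exact h4 h5
            · exact hd h3 (hJB h5)
          · refine ⟨Or.inr h3, ?_⟩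
            rintro (h5 | h5)
            · exact hd (hIA h5) h3
            · exact h4 h5
      have h3 : (I ∪ J).card = I.card + J.card :=
        Finset.card_union_of_disjoint (hd.mono hIA hJB)
      rw [h2, ih (A \ I) (B \ J) (h.mono Finset.sdiff_subset Finset.sdiff_subset),
        se_weak_union (h.mono hIA hJB), h3]
      by_cases hWI : WeakOnly ω I
      · by_cases hWJ : WeakOnly ω J
        · by_cases hc : I.card + J.card = a
          · rw [Finset.sum_eq_single I.card]
            · have h4 : J.card = a - I.card := by omega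
              rw [if_pos ⟨hc, hWI, hWJ⟩, if_pos ⟨rfl, hWI⟩, if_pos ⟨h4, hWJ⟩]
              ring
            · intro b _ hb
              rw [if_neg (fun h => hb h.1.symm), zero_mul]
            · intro h5
              rw [Finset.mem_range] at h5
              omega
          · rw [if_neg (fun h => hc h.1), zero_mul]
            symm
            apply Finset.sum_eq_zero
            intro b hb
            rw [Finset.mem_range] at hb
            by_cases h5 : I.card = b
            · rw [if_neg (c := J.card = a - b ∧ WeakOnly ω J) (fun h => hc (by omega)), zero_mul,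
                mul_zero]
            · rw [if_neg (fun h => h5 h.1), zero_mul]
        · rw [if_neg (fun h => hWJ h.2.2), zero_mul]
          symm
          apply Finset.sum_eq_zero
          intro b _
          rw [if_neg (c := J.card = a - b ∧ WeakOnly ω J) (fun h => hWJ h.2), zero_mul, mul_zero]
      · rw [if_neg (fun h => hWI h.2.1), zero_mul]
        symm
        apply Finset.sum_eq_zero
        intro b _
        rw [if_neg (fun h => hWI h.2), zero_mul]
    rw [Finset.sum_congr rfl (fun I hI => Finset.sum_congr rfl (fun J hJ => h1 I hI J hJ))]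
    simp only [se_cv]
    have h4 : ∀ b, (fun u => kap ω A (b :: u)) =
        fun u => ∑ I ∈ (idl A).filter (fun I => I.card = b ∧ WeakOnly ω I), kap ω (A \ I) u := by
      intro b
      funext u
      rw [kap_cons]
    have h5 : ∀ b, (fun u => kap ω B ((a - b) :: u)) =
        fun u => ∑ J ∈ (idl B).filter (fun J => J.card = a - b ∧ WeakOnly ω J),
          kap ω (B \ J) u := by
      intro b
      funext u
      rw [kap_cons]
    have h6 : ∀ b, se_cv (fun u => kap ω A (b :: u)) (fun u => kap ω B ((a - b) :: u)) w =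
        ∑ I ∈ idl A, ∑ J ∈ idl B, (if I.card = b ∧ WeakOnly ω I then 1 else 0) *
          ((if J.card = a - b ∧ WeakOnly ω J then 1 else 0) *
            se_cv (kap ω (A \ I)) (kap ω (B \ J)) w) := by
      intro b
      rw [h4, h5, se_cv_sum_left, Finset.sum_filter]
      apply Finset.sum_congr rfl
      intro I _
      rw [se_cv_sum_right, Finset.sum_filter]
      by_cases h7 : I.card = b ∧ WeakOnly ω I
      · rw [if_pos h7]
        apply Finset.sum_congr rfl
        intro J _
        rw [if_pos h7, one_mul]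
        by_cases h8 : J.card = a - b ∧ WeakOnly ω J
        · rw [if_pos h8, if_pos h8, one_mul]
        · rw [if_neg h8, if_neg h8, zero_mul]
      · rw [if_neg h7]
        symm
        apply Finset.sum_eq_zero
        intro J _
        rw [if_neg h7, zero_mul]
    rw [Finset.sum_congr rfl (fun b _ => h6 b)]
    symm
    rw [Finset.sum_comm]
    apply Finset.sum_congr rfl
    intro I _
    rw [Finset.sum_comm]

/-- `kap` of a disjoint union without relations depends only on the `kap` of the parts. -/
theorem kap_disj {ω : P → ℕ} {A B B' : Finset P} (h : SeFree A B) (h' : SeFree A B')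
    (hB : ∀ w, kap ω B w = kap ω B' w) (w : List ℕ) :
    kap ω (A ∪ B) w = kap ω (A ∪ B') w := by
  rw [se_kap_union ω w A B h, se_kap_union ω w A B' h', funext hB]

/-- Equality of the `kap` gives equality for all elements of `HH`. -/
theorem se_HH_eq {ω : P → ℕ} {X Y : Finset P} (h : ∀ w, kap ω X w = kap ω Y w) :
    ∀ F ∈ HH ℤ ω, F X = F Y := by
  refine HH_induction (p := fun F : Conv P ℤ => F X = F Y) ?_ ?_ ?_ ?_
  · intro w
    rw [kap_prod, kap_prod, h w]
  · rfl
  · intro x y hx hy
    rw [Conv.add_apply, Conv.add_apply, hx, hy]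
  · intro c x hx
    rw [Conv.smul_apply, Conv.smul_apply, hx]

theorem se_kap_eq {ω : P → ℕ} {X Y : Finset P} (h : ∀ F ∈ HH ℤ ω, F X = F Y) (w : List ℕ) :
    kap ω X w = kap ω Y w := by
  have := h _ (word_mem ω w)
  rw [kap_prod, kap_prod] at this
  exact_mod_cast this

theorem se_psi_mem {ω : P → ℕ} (hω : Function.Injective ω) (n : ℕ) : psi ω n ∈ HH ℤ ω := by
  unfold psi
  apply Subalgebra.sum_mem
  intro i _
  exact Subalgebra.smul_mem _ (Subalgebra.mul_mem _ (ee_mem hω _) (hh_mem ω _)) _

theorem se_psiW_mem {ω : P → ℕ} (hω : Function.Injective ω) (l : List ℕ) :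
    psiW ω l ∈ HH ℤ ω := by
  unfold psiW
  apply Subalgebra.list_prod_mem
  intro x hx
  rw [List.mem_map] at hx
  obtain ⟨a, _, rfl⟩ := hx
  exact se_psi_mem hω a

/-- `h_1 ^ k` does not vanish on a set of size `k`. -/
theorem se_kap_ones (ω : P → ℕ) (n : ℕ) : ∀ X : Finset P, X.card = n →
    0 < kap ω X (List.replicate n 1) := by
  induction n with
  | zero =>
    intro X hX
    rw [List.replicate_zero, kap_nil, if_pos (Finset.card_eq_zero.1 hX)]
    exact Nat.one_pos
  | succ n ih =>
    intro X hX
    obtain ⟨x, hx, hmin⟩ : ∃ x ∈ X, ∀ y ∈ X, ¬ y < x := by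
      have hne : X.Nonempty := Finset.card_pos.1 (by omega)
      obtain ⟨x, hx⟩ := X.exists_minimal hne
      exact ⟨x, hx.1, fun y hy hyx => absurd (hx.2 hy hyx.le) (not_le_of_gt hyx)⟩
    rw [List.replicate_succ, kap_cons]
    refine lt_of_lt_of_le (ih (X \ {x}) ?_) (Finset.single_le_sum
      (f := fun I => kap ω (X \ I) (List.replicate n 1)) (fun _ _ => Nat.zero_le _) ?_)
    · rw [Finset.card_sdiff_of_subset (Finset.singleton_subset_iff.2 hx), hX,
        Finset.card_singleton]
      rfl
    · rw [Finset.mem_filter, mem_idl]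
      refine ⟨⟨Finset.singleton_subset_iff.2 hx, ?_⟩, Finset.card_singleton x, ?_⟩
      · intro y hy z hz hyz
        rw [Finset.mem_singleton] at hz ⊢
        subst hz
        by_contra hne
        exact hmin y hy (lt_of_le_of_ne hyz hne)
      · intro y hy z hz hyz
        rw [Finset.mem_singleton] at hy hz
        subst hy
        subst hz
        exact absurd hyz (lt_irrefl _)

end kapdisj

section comps

variable {P : Type} [PartialOrder P]

theorem se_conn_symm {Q : Finset P} {x y : P} (h : Conn Q x y) : Conn Q y x := by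
  unfold Conn at *
  induction h with
  | refl => exact Relation.ReflTransGen.refl
  | tail _ hab ih => exact Relation.ReflTransGen.head ⟨hab.2.1, hab.1, hab.2.2.symm⟩ ih

theorem se_mem_comp {Q : Finset P} {x y : P} : y ∈ comp Q x ↔ y ∈ Q ∧ Conn Q x y := by
  unfold comp
  rw [Finset.mem_filter]

/-- A path in `Q` from `x` stays in the component of `x`. -/
theorem se_conn_comp {Q : Finset P} {x y : P} (hx : x ∈ Q) (h : Conn Q x y) :
    y ∈ Q ∧ Conn (comp Q x) x y := by
  unfold Conn at h
  induction h with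
  | refl => exact ⟨hx, Relation.ReflTransGen.refl⟩
  | tail h1 h2 ih =>
    refine ⟨h2.2.1, ih.2.tail ⟨?_, ?_, h2.2.2⟩⟩
    · exact se_mem_comp.2 ⟨h2.1, h1⟩
    · exact se_mem_comp.2 ⟨h2.2.1, h1.tail h2⟩

/-- A component is connected. -/
theorem se_comps_self {Q T : Finset P} (hT : T ∈ comps Q) : comps T = {T} := by
  unfold comps at hT
  rw [Finset.mem_image] at hT
  obtain ⟨x, hx, rfl⟩ := hT
  have h0 : x ∈ comp Q x := se_mem_comp.2 ⟨hx, Relation.ReflTransGen.refl⟩
  have h1 : ∀ y ∈ comp Q x, comp (comp Q x) y = comp Q x := by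
    intro y hy
    ext z
    rw [se_mem_comp]
    constructor
    · rintro ⟨h, _⟩
      exact h
    · intro hz
      refine ⟨hz, ?_⟩
      have h2 := (se_conn_comp hx (se_mem_comp.1 hy).2).2
      have h3 := (se_conn_comp hx (se_mem_comp.1 hz).2).2
      exact Relation.ReflTransGen.trans (se_conn_symm h2) h3
  unfold comps
  ext U
  rw [Finset.mem_image, Finset.mem_singleton]
  constructor
  · rintro ⟨y, hy, rfl⟩
    exact h1 y hy
  · rintro rfl
    exact ⟨x, h0, h1 x h0⟩

end comps

/-- SE for connected sets. -/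
theorem se_conn (h1 : SymSkw) (h2 : Strip) {P : Type} [PartialOrder P] {ω : P → ℕ}
    (hω : Function.Injective ω) {T : Finset P} (hT : Skw ω T) (hc : comps T = {T})
    (hn : (nwrim ω T).Nonempty) (hs : (serim ω T).Nonempty) :
    (serim ω T).card = (nwrim ω T).card ∧
    ((-1 : ℤ) ^ strc ω (serim ω T) = (-1) ^ strc ω (nwrim ω T)) ∧
    (∀ F ∈ HH ℤ ω, F (T \ serim ω T) = F (T \ nwrim ω T)) := by
  have hn0 := hn.card_pos
  have hs0 := hs.card_pos
  have hnT : nwrim ω T ⊆ T := Finset.filter_subset _ _
  have hsT : serim ω T ⊆ T := Finset.filter_subset _ _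
  set L := max (nwrim ω T).card (serim ω T).card with hL
  have hL0 : 0 < L := lt_of_lt_of_le hn0 (le_max_left _ _)
  have hl : ∀ F : Conv P ℤ, (psi ω L * F) T = if (nwrim ω T).card = L then
      (-1) ^ strc ω (nwrim ω T) * F (T \ nwrim ω T) else 0 := by
    intro F
    rw [(h2 P ω hω T hT L hL0).1 (by
      intro T' hT'
      rw [hc, Finset.mem_singleton] at hT'
      rw [hT']
      exact le_max_left _ _) T (self_mem_idl T) F, hc, Finset.sum_filter, Finset.sum_singleton]
    by_cases h6 : (nwrim ω T).card = L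
    · rw [if_pos h6, if_pos ⟨h6, hnT⟩]
    · rw [if_neg h6, if_neg (fun h => h6 h.1)]
  have hr : ∀ F : Conv P ℤ, (F * psi ω L) T = if (serim ω T).card = L then
      (-1) ^ strc ω (serim ω T) * F (T \ serim ω T) else 0 := by
    intro F
    rw [(h2 P ω hω T hT L hL0).2 (by
      intro T' hT'
      rw [hc, Finset.mem_singleton] at hT'
      rw [hT']
      exact le_max_right _ _) T (Finset.Subset.refl _) (by
        rw [Finset.sdiff_self]
        exact empty_mem_idl T) F, hc, Finset.sum_filter, Finset.sum_singleton]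
    by_cases h6 : (serim ω T).card = L
    · rw [if_pos h6, if_pos ⟨h6, hsT⟩]
    · rw [if_neg h6, if_neg (fun h => h6 h.1)]
  have hcomm : ∀ F ∈ HH ℤ ω, (psi ω L * F) T = (F * psi ω L) T := by
    intro F hF
    have := symAt2 (h1 P ω hω T hT) (se_psi_mem hω L) hF (one_mem (HH ℤ ω))
    rwa [mul_one, mul_one] at this
  have hsgn : ∀ k : ℕ, ((-1 : ℤ) ^ k) ≠ 0 := fun k => pow_ne_zero _ (by norm_num)
  have hones : ∀ X : Finset P, 0 < ((List.replicate X.card 1).map (hh ℤ ω)).prod X := by
    intro X
    rw [kap_prod]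
    exact_mod_cast se_kap_ones ω X.card X rfl
  have hnL : (nwrim ω T).card = L := by
    by_contra hne
    have hsL : (serim ω T).card = L := by
      rcases max_choice (nwrim ω T).card (serim ω T).card with h | h
      · exact absurd h.symm hne
      · exact h.symm
    have h3 := hcomm _ (word_mem ω (List.replicate (T \ serim ω T).card 1))
    rw [hl, hr, if_neg hne, if_pos hsL] at h3
    exact mul_ne_zero (hsgn _) (hones _).ne' h3.symm
  have hsL : (serim ω T).card = L := by
    by_contra hne
    have h3 := hcomm _ (word_mem ω (List.replicate (T \ nwrim ω T).card 1))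
    rw [hl, hr, if_pos hnL, if_neg hne] at h3
    exact mul_ne_zero (hsgn _) (hones _).ne' h3
  have hcard : (T \ serim ω T).card = (T \ nwrim ω T).card := by
    rw [Finset.card_sdiff_of_subset hsT, Finset.card_sdiff_of_subset hnT, hsL, hnL]
  have key : ∀ F ∈ HH ℤ ω, (-1) ^ strc ω (nwrim ω T) * F (T \ nwrim ω T) =
      (-1) ^ strc ω (serim ω T) * F (T \ serim ω T) := by
    intro F hF
    have h3 := hcomm F hF
    rw [hl, hr, if_pos hnL, if_pos hsL] at h3
    exact h3
  have hsign : ((-1 : ℤ) ^ strc ω (serim ω T) = (-1) ^ strc ω (nwrim ω T)) := by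
    have h3 := key _ (word_mem ω (List.replicate (T \ nwrim ω T).card 1))
    have h4 := hones (T \ nwrim ω T)
    have h5 := hones (T \ serim ω T)
    rw [hcard] at h5
    rcases neg_one_pow_eq_or ℤ (strc ω (serim ω T)) with h6 | h6 <;>
      rcases neg_one_pow_eq_or ℤ (strc ω (nwrim ω T)) with h7 | h7 <;>
      rw [h6, h7] at h3 ⊢ <;> exfalso <;> linarith
  refine ⟨hsL.trans hnL.symm, hsign, ?_⟩
  intro F hF
  have h3 := key F hF
  rw [hsign] at h3
  exact (mul_left_cancel₀ (hsgn _) h3).symm

theorem seStmt (h1 : SymSkw) (h2 : Strip) (h3 : TopStmt) (h4 : RimGeo) (h5 : LamStmt) :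
    SEStmt := by
  intro P _ ω hω Q hQ T hT
  obtain ⟨⟨hTs, hTQ, _, hTi, hTc⟩, ⟨_, hn1, _, hn2, _, _⟩, ⟨_, hs1, _, hs2, _, _⟩, _, _, _, _⟩ :=
    h4 P ω hω Q hQ T hT
  obtain ⟨ha, hb, hc⟩ := se_conn h1 h2 hω hTs (se_comps_self hT) hn1 hs1
  have hnT : nwrim ω T ⊆ T := Finset.filter_subset _ _
  have hsT : serim ω T ⊆ T := Finset.filter_subset _ _
  have hfree : SeFree (Q \ T) T := by
    rw [mem_idl] at hTi hTc
    intro x hx y hy
    constructor
    · intro hxy
      exact (Finset.mem_sdiff.1 hx).2 (hTi.2 x (hTc.1 hx) y hy hxy)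
    · intro hyx
      exact (Finset.mem_sdiff.1 (hTc.2 y (hTQ hy) x hx hyx)).2 hy
  have hdec : ∀ R : Finset P, R ⊆ T → Q \ R = (Q \ T) ∪ (T \ R) := by
    intro R hR
    ext x
    simp only [Finset.mem_sdiff, Finset.mem_union]
    constructor
    · rintro ⟨h6, h7⟩
      by_cases h8 : x ∈ T
      · exact Or.inr ⟨h8, h7⟩
      · exact Or.inl ⟨h6, h8⟩
    · rintro (⟨h6, h7⟩ | ⟨h6, h7⟩)
      · exact ⟨h6, fun h => h7 (hR h)⟩
      · exact ⟨hTQ h6, h7⟩
  have hkap : ∀ w, kap ω (Q \ serim ω T) w = kap ω (Q \ nwrim ω T) w := by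
    intro w
    rw [hdec _ hsT, hdec _ hnT]
    exact kap_disj (hfree.mono (Finset.Subset.refl _) Finset.sdiff_subset)
      (hfree.mono (Finset.Subset.refl _) Finset.sdiff_subset) (se_kap_eq hc) w
  have hHH := se_HH_eq hkap
  obtain ⟨hX1, hX2, hX3⟩ := h3 P ω hω _ hs2
  obtain ⟨hY1, hY2, hY3⟩ := h3 P ω hω _ hn2
  have hXp := (h5 P ω hω _ hs2).2.2.2.1
  have hYp := (h5 P ω hω _ hn2).2.2.2.1
  have heps : ∀ Z : Finset P, eps ω Z ≠ 0 := fun Z => pow_ne_zero _ (by norm_num)
  have hlam : lam ω (Q \ serim ω T) = lam ω (Q \ nwrim ω T) := by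
    rcases lt_trichotomy (lam ω (Q \ serim ω T)) (lam ω (Q \ nwrim ω T)) with h | h | h
    · exfalso
      have h6 := hX1 _ hYp h
      rw [hHH _ (se_psiW_mem hω _), hY2] at h6
      exact mul_ne_zero (heps _) (by exact_mod_cast hY3.ne') h6
    · exact h
    · exfalso
      have h6 := hY1 _ hXp h
      rw [← hHH _ (se_psiW_mem hω _), hX2] at h6
      exact mul_ne_zero (heps _) (by exact_mod_cast hX3.ne') h6
  refine ⟨ha, hb, hHH, hlam, ?_⟩
  rw [hHH _ (se_psiW_mem hω _), hlam, hY2] at hX2
  exact (mul_right_cancel₀ (by exact_mod_cast hY3.ne') hX2).symm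

end Pool.Agent.ST14
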