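import Pool.Agent.ST14.RimStmts

/-!
Module ST_Strip: stripping a longest rim with `psi`, from the left and from the right.
-/

set_option autoImplicit false

namespace Pool.Agent.ST14

open scoped Classical

section strip

variable {P : Type} [PartialOrder P]

theorem strip_skw_sub {ω : P → ℕ} {Q J : Finset P} (h : Skw ω Q) (hJ : J ⊆ Q) (hc : Cvx J) :
    Skw ω J where
  cvx := hc
  loc :=
    { w_lower := fun x hx x' hx' y hy => h.loc.w_lower x (hJ hx) x' (hJ hx') y (hJ hy)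
      w_upper := fun x hx y hy y' hy' => h.loc.w_upper x (hJ hx) y (hJ hy) y' (hJ hy')
      s_lower := fun x hx x' hx' y hy => h.loc.s_lower x (hJ hx) x' (hJ hx') y (hJ hy)
      s_upper := fun x hx y hy y' hy' => h.loc.s_upper x (hJ hx) y (hJ hy) y' (hJ hy')
      ws := fun x hx b hb y hy => h.loc.ws x (hJ hx) b (hJ hb) y (hJ hy)
      sw := fun x hx b hb y hy => h.loc.sw x (hJ hx) b (hJ hb) y (hJ hy) }

/-- `J` is a filter of `Q`. -/
def strip_Fil (Q J : Finset P) : Prop := J ⊆ Q ∧ ∀ x ∈ J, ∀ y ∈ Q, x ≤ y → y ∈ J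

theorem strip_skw_idl {ω : P → ℕ} {Q J : Finset P} (h : Skw ω Q) (hJ : J ∈ idl Q) : Skw ω J := by
  obtain ⟨h1, h2⟩ := mem_idl.1 hJ
  refine strip_skw_sub h h1 ?_
  intro x hx z hz y hxy hyz
  exact h2 y (h.cvx x (h1 hx) z (h1 hz) y hxy hyz) z hz hyz

theorem strip_skw_fil {ω : P → ℕ} {Q J : Finset P} (h : Skw ω Q) (hJ : strip_Fil Q J) :
    Skw ω J := by
  obtain ⟨h1, h2⟩ := hJ
  refine strip_skw_sub h h1 ?_
  intro x hx z hz y hxy hyz
  exact h2 x hx y (h.cvx x (h1 hx) z (h1 hz) y hxy hyz) hxy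

theorem strip_adj_mono {Q J : Finset P} (hJ : J ⊆ Q) {x y : P} (h : Adj J x y) : Adj Q x y :=
  ⟨hJ h.1, hJ h.2.1, h.2.2⟩

theorem strip_conn_mono {Q J : Finset P} (hJ : J ⊆ Q) {x y : P} (h : Conn J x y) :
    Conn Q x y := by
  induction h with
  | refl => exact Relation.ReflTransGen.refl
  | tail _ h2 ih => exact Relation.ReflTransGen.tail ih (strip_adj_mono hJ h2)

theorem strip_adj_symm {Q : Finset P} {x y : P} (h : Adj Q x y) : Adj Q y x :=
  ⟨h.2.1, h.1, h.2.2.symm⟩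

theorem strip_conn_symm {Q : Finset P} {x y : P} (h : Conn Q x y) : Conn Q y x := by
  induction h with
  | refl => exact Relation.ReflTransGen.refl
  | tail _ h2 ih => exact Relation.ReflTransGen.head (strip_adj_symm h2) ih

theorem strip_comps_sub {Q T : Finset P} (hT : T ∈ comps Q) : T ⊆ Q := by
  obtain ⟨x, _, rfl⟩ := Finset.mem_image.1 hT
  exact Finset.filter_subset _ _

theorem strip_comps_eq {Q T : Finset P} (hT : T ∈ comps Q) {x : P} (hx : x ∈ T) :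
    T = comp Q x := by
  obtain ⟨z, hz, rfl⟩ := Finset.mem_image.1 hT
  have hx' := (Finset.mem_filter.1 hx).2
  ext y
  simp only [comp, Finset.mem_filter]
  constructor
  · rintro ⟨hy, h⟩
    exact ⟨hy, (strip_conn_symm hx').trans h⟩
  · rintro ⟨hy, h⟩
    exact ⟨hy, Relation.ReflTransGen.trans hx' h⟩

theorem strip_sub_comp {Q J : Finset P} (hJ : J ⊆ Q) (hc : ∀ x ∈ J, ∀ y ∈ J, Conn J x y)
    {x : P} (hx : x ∈ J) : J ⊆ comp Q x := fun y hy =>
  Finset.mem_filter.2 ⟨hJ hy, strip_conn_mono hJ (hc x hx y hy)⟩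

/-- A connected ideal without a north-west pair is contained in a north-west rim. -/
theorem strip_left {ω : P → ℕ} {Q J : Finset P} (hJ : J ∈ idl Q) (hne : J.Nonempty)
    (hc : ∀ x ∈ J, ∀ y ∈ J, Conn J x y) (hn : ∀ x e, ¬ NW ω J x e) :
    ∃ T ∈ comps Q, J ⊆ nwrim ω T := by
  obtain ⟨h1, h2⟩ := mem_idl.1 hJ
  obtain ⟨x, hx⟩ := hne
  have hT : comp Q x ∈ comps Q := Finset.mem_image.2 ⟨x, h1 hx, rfl⟩
  refine ⟨comp Q x, hT, ?_⟩
  intro e he
  refine Finset.mem_filter.2 ⟨strip_sub_comp h1 hc hx he, ?_⟩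
  rintro w ⟨hw, _, ⟨g, hg, hwg, hge⟩, f, hf, hwf, hfe⟩
  have hsub := strip_comps_sub hT
  have hg' : g ∈ J := h2 g (hsub hg) e he hge.1.le
  have hf' : f ∈ J := h2 f (hsub hf) e he hfe.1.le
  have hw' : w ∈ J := h2 w (hsub hw) g hg' hwg.1.le
  exact hn w e ⟨hw', he, ⟨g, hg', hwg, hge⟩, f, hf', hwf, hfe⟩

/-- A connected filter without a north-west pair is contained in a south-east rim. -/
theorem strip_right {ω : P → ℕ} {Q J : Finset P} (hJ : strip_Fil Q J) (hne : J.Nonempty)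
    (hc : ∀ x ∈ J, ∀ y ∈ J, Conn J x y) (hn : ∀ x e, ¬ NW ω J x e) :
    ∃ T ∈ comps Q, J ⊆ serim ω T := by
  obtain ⟨h1, h2⟩ := hJ
  obtain ⟨x, hx⟩ := hne
  have hT : comp Q x ∈ comps Q := Finset.mem_image.2 ⟨x, h1 hx, rfl⟩
  refine ⟨comp Q x, hT, ?_⟩
  intro w hw
  refine Finset.mem_filter.2 ⟨strip_sub_comp h1 hc hx hw, ?_⟩
  rintro e ⟨_, he, ⟨g, hg, hwg, hge⟩, f, hf, hwf, hfe⟩
  have hsub := strip_comps_sub hT
  have hg' : g ∈ J := h2 w hw g (hsub hg) hwg.1.le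
  have hf' : f ∈ J := h2 w hw f (hsub hf) hwf.1.le
  have he' : e ∈ J := h2 g hg' e (hsub he) hge.1.le
  exact hn w e ⟨hw, he', ⟨g, hg', hwg, hge⟩, f, hf', hwf, hfe⟩

theorem strip_nwrim_sub (ω : P → ℕ) (T : Finset P) : nwrim ω T ⊆ T := Finset.filter_subset _ _

theorem strip_serim_sub (ω : P → ℕ) (T : Finset P) : serim ω T ⊆ T := Finset.filter_subset _ _

theorem strip_inj {Q T T' R : Finset P} (hT : T ∈ comps Q) (hT' : T' ∈ comps Q)
    (h1 : R ⊆ T) (h2 : R ⊆ T') (hR : R.Nonempty) : T = T' := by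
  obtain ⟨x, hx⟩ := hR
  rw [strip_comps_eq hT (h1 hx), strip_comps_eq hT' (h2 hx)]

theorem strip_main_left (h1 : PsiVal) (h2 : RimGeo) (ω : P → ℕ) (hω : Function.Injective ω)
    (Q : Finset P) (hQ : Skw ω Q) (L : ℕ) (hmax : ∀ T ∈ comps Q, (nwrim ω T).card ≤ L)
    (K : Finset P) (hK : K ∈ idl Q) (F : Conv P ℤ) :
    (psi ω L * F) K = ∑ T ∈ (comps Q).filter (fun T => (nwrim ω T).card = L ∧ nwrim ω T ⊆ K),
      (-1) ^ strc ω (nwrim ω T) * F (K \ nwrim ω T) := by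
  set S := (comps Q).filter (fun T => (nwrim ω T).card = L ∧ nwrim ω T ⊆ K) with hS
  have hval : ∀ T ∈ S, psi ω L (nwrim ω T) = (-1) ^ strc ω (nwrim ω T) := by
    intro T hT
    rw [hS, Finset.mem_filter] at hT
    obtain ⟨hT, hc, _⟩ := hT
    obtain ⟨_, ⟨_, g2, g3, _, g5, g6⟩, _⟩ := h2 P ω hω Q hQ T hT
    rw [(h1 P ω hω L).2 _ g3, if_pos ⟨hc, g2, g5, g6⟩]
  have hinj : Set.InjOn (nwrim ω) (S : Set (Finset P)) := by
    intro T hT T' hT' he
    rw [Finset.mem_coe, hS, Finset.mem_filter] at hT hT'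
    obtain ⟨_, ⟨_, g2, _⟩, _⟩ := h2 P ω hω Q hQ T hT.1
    exact strip_inj hT.1 hT'.1 (strip_nwrim_sub ω T) (he ▸ strip_nwrim_sub ω T') g2
  have himg : S.image (nwrim ω) ⊆ idl K := by
    intro J hJ
    obtain ⟨T, hT, rfl⟩ := Finset.mem_image.1 hJ
    rw [hS, Finset.mem_filter] at hT
    obtain ⟨_, ⟨g1, _⟩, _⟩ := h2 P ω hω Q hQ T hT.1
    exact mem_idl_of_sub g1 hK hT.2.2
  have e1 : ∑ T ∈ S, (-1) ^ strc ω (nwrim ω T) * F (K \ nwrim ω T) =
      ∑ T ∈ S, psi ω L (nwrim ω T) * F (K \ nwrim ω T) :=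
    Finset.sum_congr rfl fun T hT => by rw [hval T hT]
  have e2 : ∑ T ∈ S, psi ω L (nwrim ω T) * F (K \ nwrim ω T) =
      ∑ J ∈ S.image (nwrim ω), psi ω L J * F (K \ J) :=
    (Finset.sum_image (f := fun J => psi ω L J * F (K \ J)) hinj).symm
  rw [e1, e2, Conv.mul_apply]
  refine (Finset.sum_subset himg ?_).symm
  intro J hJ hJ'
  have hJQ : J ∈ idl Q := idl_trans hK hJ
  have hsk := strip_skw_idl hQ hJQ
  have hz : psi ω L J = 0 := by
    rw [(h1 P ω hω L).2 _ hsk, if_neg]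
    rintro ⟨c1, c2, c3, c4⟩
    obtain ⟨T, hT, hsub⟩ := strip_left hJQ c2 c3 c4
    have heq : J = nwrim ω T :=
      Finset.eq_of_subset_of_card_le hsub (by rw [c1]; exact hmax T hT)
    apply hJ'
    refine Finset.mem_image.2 ⟨T, ?_, heq.symm⟩
    rw [hS, Finset.mem_filter]
    exact ⟨hT, by rw [← heq]; exact c1, by rw [← heq]; exact subset_of_mem_idl hJ⟩
  rw [hz, zero_mul]

theorem strip_main_right (h1 : PsiVal) (h2 : RimGeo) (ω : P → ℕ) (hω : Function.Injective ω)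
    (Q : Finset P) (hQ : Skw ω Q) (L : ℕ) (hmax : ∀ T ∈ comps Q, (serim ω T).card ≤ L)
    (K : Finset P) (hKQ : K ⊆ Q) (hK : Q \ K ∈ idl Q) (F : Conv P ℤ) :
    (F * psi ω L) K = ∑ T ∈ (comps Q).filter (fun T => (serim ω T).card = L ∧ serim ω T ⊆ K),
      (-1) ^ strc ω (serim ω T) * F (K \ serim ω T) := by
  set S := (comps Q).filter (fun T => (serim ω T).card = L ∧ serim ω T ⊆ K) with hS
  have hval : ∀ T ∈ S, psi ω L (K \ (K \ serim ω T)) = (-1) ^ strc ω (serim ω T) := by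
    intro T hT
    rw [hS, Finset.mem_filter] at hT
    obtain ⟨hT, hc, hsub⟩ := hT
    obtain ⟨_, _, ⟨_, g2, g3, _, g5, g6⟩, _⟩ := h2 P ω hω Q hQ T hT
    rw [Finset.sdiff_sdiff_eq_self hsub, (h1 P ω hω L).2 _ g3, if_pos ⟨hc, g2, g5, g6⟩]
  have hinj : Set.InjOn (fun T => K \ serim ω T) (S : Set (Finset P)) := by
    intro T hT T' hT' he
    rw [Finset.mem_coe, hS, Finset.mem_filter] at hT hT'
    obtain ⟨_, _, ⟨_, g2, _⟩, _⟩ := h2 P ω hω Q hQ T hT.1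
    have he' : serim ω T = serim ω T' := by
      rw [← Finset.sdiff_sdiff_eq_self hT.2.2, ← Finset.sdiff_sdiff_eq_self hT'.2.2]
      exact congrArg (fun X => K \ X) he
    exact strip_inj hT.1 hT'.1 (strip_serim_sub ω T) (he' ▸ strip_serim_sub ω T') g2
  have himg : S.image (fun T => K \ serim ω T) ⊆ idl K := by
    intro J hJ
    obtain ⟨T, hT, rfl⟩ := Finset.mem_image.1 hJ
    rw [hS, Finset.mem_filter] at hT
    obtain ⟨_, _, ⟨g1, _⟩, _⟩ := h2 P ω hω Q hQ T hT.1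
    obtain ⟨_, g1⟩ := mem_idl.1 g1
    refine mem_idl.2 ⟨Finset.sdiff_subset, ?_⟩
    intro x hx y hy hxy
    rw [Finset.mem_sdiff] at hy ⊢
    refine ⟨hx, ?_⟩
    have := g1 x (hKQ hx) y (Finset.mem_sdiff.2 ⟨hKQ hy.1, hy.2⟩) hxy
    exact (Finset.mem_sdiff.1 this).2
  have e1 : ∑ T ∈ S, (-1) ^ strc ω (serim ω T) * F (K \ serim ω T) =
      ∑ T ∈ S, F (K \ serim ω T) * psi ω L (K \ (K \ serim ω T)) :=
    Finset.sum_congr rfl fun T hT => by rw [hval T hT, mul_comm]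
  have e2 : ∑ T ∈ S, F (K \ serim ω T) * psi ω L (K \ (K \ serim ω T)) =
      ∑ J ∈ S.image (fun T => K \ serim ω T), F J * psi ω L (K \ J) :=
    (Finset.sum_image (f := fun J => F J * psi ω L (K \ J)) hinj).symm
  rw [e1, e2, Conv.mul_apply]
  refine (Finset.sum_subset himg ?_).symm
  intro I hI hI'
  obtain ⟨hI1, hI2⟩ := mem_idl.1 hI
  have hfil : strip_Fil Q (K \ I) := by
    refine ⟨fun x hx => hKQ (Finset.mem_sdiff.1 hx).1, ?_⟩
    intro x hx y hy hxy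
    rw [Finset.mem_sdiff] at hx ⊢
    obtain ⟨_, hK2⟩ := mem_idl.1 hK
    have hyK : y ∈ K := by
      by_contra hyK
      have := hK2 x (hKQ hx.1) y (Finset.mem_sdiff.2 ⟨hy, hyK⟩) hxy
      exact (Finset.mem_sdiff.1 this).2 hx.1
    exact ⟨hyK, fun hyI => hx.2 (hI2 x hx.1 y hyI hxy)⟩
  have hsk := strip_skw_fil hQ hfil
  have hz : psi ω L (K \ I) = 0 := by
    rw [(h1 P ω hω L).2 _ hsk, if_neg]
    rintro ⟨c1, c2, c3, c4⟩
    obtain ⟨T, hT, hsub⟩ := strip_right hfil c2 c3 c4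
    have heq : K \ I = serim ω T :=
      Finset.eq_of_subset_of_card_le hsub (by rw [c1]; exact hmax T hT)
    apply hI'
    refine Finset.mem_image.2 ⟨T, ?_, ?_⟩
    · rw [hS, Finset.mem_filter]
      exact ⟨hT, by rw [← heq]; exact c1, by rw [← heq]; exact Finset.sdiff_subset⟩
    · show K \ serim ω T = I
      rw [← heq, Finset.sdiff_sdiff_eq_self hI1]
  rw [hz, mul_zero]

end strip

theorem strip (h1 : PsiVal) (h2 : RimGeo) : Strip := by
  intro P _ ω hω Q hQ L _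
  exact ⟨fun hmax K hK F => strip_main_left h1 h2 ω hω Q hQ L hmax K hK F,
    fun hmax K hKQ hK F => strip_main_right h1 h2 ω hω Q hQ L hmax K hKQ hK F⟩

end Pool.Agent.ST14
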