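import Pool.Agent.ST14.RimStmts
import Pool.Agent.ST14.K3
import Pool.Agent.ST14.K4

/-!
Module ST_SymSkw: skew shapes are symmetric. The subset `Q` becomes the type `{x // x ∈ Q}`,
which is a skew diagram by `EMB_Stmt`, hence symmetric by `IF_Stmt`.
-/

set_option autoImplicit false

namespace Pool.Agent.ST14

open scoped Classical

/-- The type `Q` of a convex locally skew subset `Q` is locally skew. -/
theorem SymSkw_sub {P : Type} [PartialOrder P] {ω : P → ℕ} {Q : Finset P} (h : Skw ω Q) :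
    LocSkew (fun x : {x // x ∈ Q} => ω x.1) := by
  have W1' : ∀ x y : {x // x ∈ Q},
      WCov (fun x : {x // x ∈ Q} => ω x.1) x y ↔ WCov ω x.1 y.1 := by
    intro x y
    unfold WCov
    have := covBy_sub_iff h.cvx x.2 y.2
    exact and_congr this Iff.rfl
  have S1' : ∀ x y : {x // x ∈ Q},
      SCov (fun x : {x // x ∈ Q} => ω x.1) x y ↔ SCov ω x.1 y.1 := by
    intro x y
    unfold SCov
    have := covBy_sub_iff h.cvx x.2 y.2
    exact and_congr this Iff.rfl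
  refine ⟨?_, ?_, ?_, ?_, ?_, ?_⟩
  · intro x x' y h1 h2
    exact Subtype.ext (h.loc.w_lower x.1 x.2 x'.1 x'.2 y.1 y.2 ((W1' x y).1 h1) ((W1' x' y).1 h2))
  · intro x y y' h1 h2
    exact Subtype.ext (h.loc.w_upper x.1 x.2 y.1 y.2 y'.1 y'.2 ((W1' x y).1 h1) ((W1' x y').1 h2))
  · intro x x' y h1 h2
    exact Subtype.ext (h.loc.s_lower x.1 x.2 x'.1 x'.2 y.1 y.2 ((S1' x y).1 h1) ((S1' x' y).1 h2))
  · intro x y y' h1 h2
    exact Subtype.ext (h.loc.s_upper x.1 x.2 y.1 y.2 y'.1 y'.2 ((S1' x y).1 h1) ((S1' x y').1 h2))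
  · intro x b y h1 h2
    have hx := (W1' x b).1 h1
    have hy := (S1' b y).1 h2
    obtain ⟨c, hc1, hc2⟩ := h.loc.ws x.1 x.2 b.1 b.2 y.1 y.2 hx hy
    have hc : c ∈ Q := h.cvx x.1 x.2 y.1 y.2 c hc1.1.le hc2.1.le
    exact ⟨⟨c, hc⟩, (S1' x ⟨c, hc⟩).2 hc1, (W1' ⟨c, hc⟩ y).2 hc2⟩
  · intro x b y h1 h2
    have hx := (S1' x b).1 h1
    have hy := (W1' b y).1 h2
    obtain ⟨c, hc1, hc2⟩ := h.loc.sw x.1 x.2 b.1 b.2 y.1 y.2 hx hy
    have hc : c ∈ Q := h.cvx x.1 x.2 y.1 y.2 c hc1.1.le hc2.1.le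
    exact ⟨⟨c, hc⟩, (W1' x ⟨c, hc⟩).2 hc1, (S1' ⟨c, hc⟩ y).2 hc2⟩

/-- Locally skew posets satisfy the symmetry condition of the frozen statement. -/
theorem SymSkw_frozen (h1 : EMB_Stmt) (h2 : IF_Stmt) {P : Type} [Fintype P] [PartialOrder P]
    {ω : P → ℕ} (hω : Function.Injective ω) (hL : LocSkew ω) : FrozenSym ω := by
  obtain ⟨lam, mu, e, hmu, hf⟩ := h1 P ω hω hL
  intro α σ
  have key : ∀ β : ℕ → ℕ,
      Nat.card {f : P → ℕ // IsPP ω f ∧ ∀ i : ℕ, Nat.card {x : P // f x = i} = β i} =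
      Nat.card {f : P → ℕ // IsSST e f ∧ ∀ i : ℕ, Nat.card {x : P // f x = i} = β i} := by
    intro β
    exact Nat.card_congr (Equiv.subtypeEquivRight fun f => and_congr (hf f) Iff.rfl)
  rw [key α, key fun i => α (σ i)]
  exact h2 P lam mu e hmu α σ

/-- Module ST_SymSkw. -/
theorem symSkw (h1 : EMB_Stmt) (h2 : IF_Stmt) : SymSkw := by
  intro P _ ω hω Q hQ
  set e : {x // x ∈ Q} ↪o P := OrderEmbedding.subtype (fun x => x ∈ Q) with he
  have hinj : Function.Injective (fun x : {x // x ∈ Q} => ω (e x)) := by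
    intro x y hxy
    exact Subtype.ext (hω hxy)
  have hmap : (Finset.univ : Finset {x // x ∈ Q}).map e.toEmbedding = Q := by
    ext z
    rw [Finset.mem_map]
    constructor
    · rintro ⟨x, _, rfl⟩
      exact x.2
    · intro hz
      exact ⟨⟨z, hz⟩, Finset.mem_univ _, rfl⟩
  have hS : SymW (fun x : {x // x ∈ Q} => ω (e x)) Finset.univ :=
    K3 {x // x ∈ Q} _ hinj (SymSkw_frozen h1 h2 hinj (SymSkw_sub hQ))
  intro w w' hww
  have := hS w w' hww
  rw [kap_map, kap_map, hmap] at this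
  exact this

end Pool.Agent.ST14
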