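import Pool.Agent.ST14.RimStmts

/-!
Module ST_Top: the top monomial (helper31).
-/

set_option autoImplicit false

namespace Pool.Agent.ST14

open scoped Classical

theorem Top_mlt_pos (l : List ℕ) : 0 < mlt l := by
  induction l with
  | nil => simp [mlt]
  | cons a l ih =>
    rw [mlt]
    refine Nat.mul_pos ?_ ih
    rw [List.count_pos_iff]
    exact List.mem_cons_self

/-- the old form of `Strip` (the whole set). -/
theorem Top_strip (h1 : Strip) (h4 : RimGeo) {P : Type} [PartialOrder P] {ω : P → ℕ}
    (hω : Function.Injective ω) {Q : Finset P} (hQ : Skw ω Q) {L : ℕ} (hL : 0 < L)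
    (hmax : ∀ T ∈ comps Q, (nwrim ω T).card ≤ L) (F : Conv P ℤ) :
    (psi ω L * F) Q = ∑ T ∈ (comps Q).filter (fun T => (nwrim ω T).card = L),
        (-1) ^ strc ω (nwrim ω T) * F (Q \ nwrim ω T) := by
  rw [(h1 P ω hω Q hQ L hL).1 hmax Q (self_mem_idl Q) F]
  refine Finset.sum_congr ?_ (fun _ _ => rfl)
  ext T
  simp only [Finset.mem_filter]
  constructor
  · rintro ⟨a, b, -⟩
    exact ⟨a, b⟩
  · rintro ⟨a, b⟩
    refine ⟨a, b, ?_⟩
    exact (Finset.filter_subset _ _).trans (h4 P ω hω Q hQ T a).1.2.1

theorem topStmt (h1 : Strip) (h2 : LamStmt) (h3 : EpsStmt) (h4 : RimGeo) : TopStmt := by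
  intro P _ ω hω
  have main : ∀ (n : ℕ) (Q : Finset P), Q.card = n → Skw ω Q →
      (∀ μ : List ℕ, (∀ a ∈ μ, 0 < a) → lam ω Q < μ → psiW ω μ Q = 0) ∧
      psiW ω (lam ω Q) Q = eps ω Q * (mlt (lam ω Q) : ℤ) := by
    intro n
    induction n using Nat.strong_induction_on with
    | _ n ih =>
      intro Q hn hQ
      obtain ⟨hIs, hU, hdec, hpos, hsum, hperm, hfirst⟩ := h2 P ω hω Q hQ
      -- facts on stripping
      have hstrip : ∀ T ∈ comps Q, Skw ω (Q \ nwrim ω T) ∧ (Q \ nwrim ω T).card < n := by
        intro T hT
        obtain ⟨hA, hB, -⟩ := h4 P ω hω Q hQ T hT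
        refine ⟨hB.2.2.2.1, ?_⟩
        rw [← hn]
        refine Finset.card_lt_card ?_
        refine Finset.sdiff_ssubset ?_ hB.2.1
        exact (Finset.filter_subset _ _).trans hA.2.1
      have hcons : ∀ (a : ℕ) (μ : List ℕ), psiW ω (a :: μ) = psi ω a * psiW ω μ := by
        intro a μ
        simp only [psiW, List.map_cons, List.prod_cons]
      rcases hl : lam ω Q with _ | ⟨L, l⟩
      · -- empty shape
        have hQ0 : Q = ∅ := by
          rw [hl, List.sum_nil] at hsum
          exact Finset.card_eq_zero.mp hsum.symm
        have hcomps : comps Q = ∅ := by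
          rw [hQ0]; simp [comps]
        constructor
        · intro μ hμ hlt
          cases μ with
          | nil => exact absurd hlt (lt_irrefl _)
          | cons a μ =>
            have ha : 0 < a := hμ a List.mem_cons_self
            have hst := Top_strip h1 h4 hω hQ ha (by rw [hcomps]; simp) (psiW ω μ)
            rw [hcons, hst, hcomps]
            simp
        · have he : eps ω Q = 1 := by
            rw [hQ0]; simp [eps]
          rw [he, psiW, List.map_nil, List.prod_nil, Conv.one_apply, if_pos hQ0]
          simp [mlt]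
      · obtain ⟨hmax, hcnt, hrest⟩ := hfirst L l hl
        have hL : 0 < L := hpos L (by rw [hl]; exact List.mem_cons_self)
        constructor
        · intro μ hμ hlt
          cases μ with
          | nil => exact absurd hlt (List.not_lt_nil _)
          | cons a μ =>
            have ha : 0 < a := hμ a List.mem_cons_self
            rw [List.cons_lt_cons_iff] at hlt
            have hle : L ≤ a := by
              rcases hlt with h | ⟨h, -⟩
              · exact h.le
              · exact h.le
            have hst := Top_strip h1 h4 hω hQ ha (fun T hT => (hmax T hT).trans hle) (psiW ω μ)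
            rw [hcons, hst]
            refine Finset.sum_eq_zero (fun T hT => ?_)
            rw [Finset.mem_filter] at hT
            rcases hlt with h | ⟨h, hlμ⟩
            · exact absurd (hmax T hT.1) (by rw [hT.2]; exact not_le.mpr h)
            · have h5 := hrest T hT.1 (by rw [hT.2, h])
              have h6 := (ih _ (hstrip T hT.1).2 (Q \ nwrim ω T) rfl (hstrip T hT.1).1).1 μ
                (fun b hb => hμ b (List.mem_cons_of_mem _ hb)) (by rw [h5]; exact hlμ)
              rw [h6, mul_zero]
        · have hst := Top_strip h1 h4 hω hQ hL hmax (psiW ω l)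
          rw [hcons, hst]
          have h7 : ∀ T ∈ (comps Q).filter (fun T => (nwrim ω T).card = L),
              (-1 : ℤ) ^ strc ω (nwrim ω T) * psiW ω l (Q \ nwrim ω T) = eps ω Q * (mlt l : ℤ) := by
            intro T hT
            rw [Finset.mem_filter] at hT
            have h5 := hrest T hT.1 hT.2
            have h6 := (ih _ (hstrip T hT.1).2 (Q \ nwrim ω T) rfl (hstrip T hT.1).1).2
            rw [h5] at h6
            rw [h6, h3 P ω hω Q hQ T hT.1]
            ring
          rw [Finset.sum_congr rfl h7, Finset.sum_const, hcnt, hl, mlt, nsmul_eq_mul]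
          push_cast
          ring
  intro Q hQ
  obtain ⟨a, b⟩ := main _ Q rfl hQ
  exact ⟨a, b, Top_mlt_pos _⟩

end Pool.Agent.ST14
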