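import Pool.Agent.ST14.Final
import Pool.Agent.Lib_helper92.SPE.K5
import Pool.Agent.Lib_helper86.SP.IfStmt
import Pool.Agent.ST14.St1
import Pool.Agent.ST14.St2
import Pool.Agent.ST14.St3
import Pool.Agent.ST14.St5
import Pool.Agent.ST14.St7
import Pool.Agent.ST14.St8
import Pool.Agent.ST14.St9
import Pool.Agent.ST14.PsiVal
import Pool.Agent.ST14.RimGeo
import Pool.Agent.ST14.Strip
import Pool.Agent.ST14.LamEps
import Pool.Agent.ST14.Top
import Pool.Agent.ST14.SymSkw
import Pool.Agent.ST14.SE
import Pool.Agent.ST14.Depth
import Pool.Agent.ST14.RP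
import Pool.Agent.ST14.ThmQ
import Pool.Agent.ST14.Free
import Pool.Agent.ST14.Fact

/-!
All module statements of the first three parts, without hypotheses.
-/

set_option autoImplicit false

namespace Pool.Agent.ST14

theorem all_k1 : K1_Stmt := fun _ _ ω Q w w' => kap_append ω Q w w'

theorem all_k5d : K5d_Stmt := K5d all_k1

theorem all_st5 : St5 := st5 st1 st3 k5c all_k5d

theorem all_st6 : St6 := st6 st1 st2 st3 k5c all_k5d

theorem all_st7 : St7 := st7 st1 st2 st3 st4 all_st5 all_st6

theorem all_st8 : St8 := st8 st1 st2 st3 st4 all_st5 all_st6 all_st7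

theorem all_fact : FactStmt := factStmt st2 all_st5 all_st7 all_st8

theorem all_strip : Strip := strip psiVal rimGeo

theorem all_lam : LamStmt := lamStmt rimGeo

theorem all_eps : EpsStmt := epsStmt rimGeo

theorem all_top : TopStmt := topStmt all_strip all_lam all_eps rimGeo

theorem all_symSkw : SymSkw := symSkw Emb.main Pool.Agent.SP86.if_stmt

theorem all_se : SEStmt := seStmt all_symSkw all_strip all_top rimGeo all_lam

theorem all_rp : RPStmt := rp psiVal all_strip all_lam all_eps all_top all_se depthStmt rimGeo st9

theorem all_q : QStmt := qStmt all_rp depthStmt rimGeo all_lam all_se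

theorem all_free : FreeStmt := freeStmt all_rp all_lam all_se

end Pool.Agent.ST14
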