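import Pool.Agent.ST14.Kap1

/-!
Domain lemma: if a labelled poset is the disjoint union of two incomparable parts, and the whole
and one of the parts are symmetric, then the other part is symmetric. (The generating polynomials
live in an integral domain.)
-/

set_option autoImplicit false

namespace Pool.Agent.ST14

open scoped Classical

section dom

variable {P : Type} [PartialOrder P]

/-- The generating polynomial of `Q`, the variables being used in the order of the list. -/
noncomputable def domK (ω : P → ℕ) : List ℕ → Finset P → MvPolynomial ℕ ℤ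
  | [], Q => if Q = ∅ then 1 else 0
  | i :: L, Q => ∑ I ∈ (idl Q).filter (fun I => WeakOnly ω I),
      MvPolynomial.monomial (Finsupp.single i I.card) (1 : ℤ) * domK ω L (Q \ I)

theorem domK_nil (ω : P → ℕ) (Q : Finset P) :
    domK ω [] Q = if Q = ∅ then 1 else 0 := by
  rw [domK]

theorem domK_cons (ω : P → ℕ) (i : ℕ) (L : List ℕ) (Q : Finset P) :
    domK ω (i :: L) Q = ∑ I ∈ (idl Q).filter (fun I => WeakOnly ω I),
      MvPolynomial.monomial (Finsupp.single i I.card) (1 : ℤ) * domK ω L (Q \ I) := by
  rw [domK]

/-- The coefficients. -/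
theorem domK_coeff (ω : P → ℕ) (L : List ℕ) : L.Nodup → ∀ (Q : Finset P) (α : ℕ →₀ ℕ),
    MvPolynomial.coeff α (domK ω L Q) =
      if ∀ i, i ∉ L → α i = 0 then (kap ω Q (L.map α) : ℤ) else 0 := by
  induction L with
  | nil =>
    intro _ Q α
    rw [domK_nil, List.map_nil, kap_nil]
    by_cases hQ : Q = ∅
    · rw [if_pos hQ, if_pos hQ, MvPolynomial.coeff_one]
      by_cases hα : (0 : ℕ →₀ ℕ) = α
      · rw [if_pos hα, if_pos]
        · rfl
        · intro i _
          rw [← hα]
          rfl
      · rw [if_neg hα, if_neg]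
        intro h
        apply hα
        ext i
        rw [h i List.not_mem_nil]
        rfl
    · rw [if_neg hQ, if_neg hQ, MvPolynomial.coeff_zero]
      split_ifs <;> rfl
  | cons i L ih =>
    intro hL Q α
    rw [List.nodup_cons] at hL
    rw [domK_cons, MvPolynomial.coeff_sum]
    have key : ∀ I ∈ (idl Q).filter (fun I => WeakOnly ω I),
        MvPolynomial.coeff α (MvPolynomial.monomial (Finsupp.single i I.card) (1 : ℤ) *
          domK ω L (Q \ I)) =
        if I.card = α i then (if ∀ j, j ∉ i :: L → α j = 0 then
          (kap ω (Q \ I) (L.map α) : ℤ) else 0) else 0 := by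
      intro I _
      rw [MvPolynomial.coeff_monomial_mul', one_mul]
      by_cases h1 : Finsupp.single i I.card ≤ α
      · rw [if_pos h1, ih hL.2]
        have h2 : I.card ≤ α i := by
          have := h1 i
          rwa [Finsupp.single_eq_same] at this
        have hmap : L.map (α - Finsupp.single i I.card) = L.map α := by
          apply List.map_congr_left
          intro j hj
          have hji : j ≠ i := fun h => hL.1 (h ▸ hj)
          rw [Finsupp.tsub_apply, Finsupp.single_eq_of_ne hji, Nat.sub_zero]
        have hcond : (∀ j, j ∉ L → (α - Finsupp.single i I.card) j = 0) ↔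
            I.card = α i ∧ ∀ j, j ∉ i :: L → α j = 0 := by
          constructor
          · intro h
            constructor
            · have h3 := h i hL.1
              rw [Finsupp.tsub_apply, Finsupp.single_eq_same] at h3
              omega
            · intro j hj
              rw [List.mem_cons, not_or] at hj
              have h3 := h j hj.2
              rw [Finsupp.tsub_apply, Finsupp.single_eq_of_ne hj.1, Nat.sub_zero] at h3
              exact h3
          · rintro ⟨h3, h4⟩ j hj
            by_cases hji : j = i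
            · rw [hji, Finsupp.tsub_apply, Finsupp.single_eq_same]
              omega
            · rw [Finsupp.tsub_apply, Finsupp.single_eq_of_ne hji, Nat.sub_zero]
              apply h4
              rw [List.mem_cons, not_or]
              exact ⟨hji, hj⟩
        rw [hmap]
        by_cases h5 : I.card = α i
        · rw [if_pos h5]
          by_cases h6 : ∀ j, j ∉ i :: L → α j = 0
          · rw [if_pos h6, if_pos (hcond.2 ⟨h5, h6⟩)]
          · rw [if_neg h6, if_neg fun h => h6 (hcond.1 h).2]
        · rw [if_neg h5, if_neg fun h => h5 (hcond.1 h).1]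
      · rw [if_neg h1, if_neg]
        intro h2
        apply h1
        rw [Finsupp.single_le_iff]
        exact h2.le
    rw [Finset.sum_congr rfl key, List.map_cons, kap_cons]
    by_cases h6 : ∀ j, j ∉ i :: L → α j = 0
    · simp only [if_pos h6]
      push_cast
      rw [← Finset.sum_filter, Finset.filter_filter]
      apply Finset.sum_congr _ fun _ _ => rfl
      apply Finset.filter_congr
      intro I _
      exact and_comm
    · simp only [if_neg h6, ite_self, Finset.sum_const_zero]

theorem domK_split_idl {G H : Finset P} (hGH : ∀ x ∈ G, ∀ y ∈ H, ¬ x ≤ y ∧ ¬ y ≤ x)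
    {I J : Finset P} (hI : I ∈ idl G) (hJ : J ∈ idl H) : I ∪ J ∈ idl (G ∪ H) := by
  rw [mem_idl] at *
  refine ⟨Finset.union_subset_union hI.1 hJ.1, ?_⟩
  intro x hx y hy hxy
  rw [Finset.mem_union] at *
  rcases hx with hx | hx
  · rcases hy with hy | hy
    · exact Or.inl (hI.2 x hx y hy hxy)
    · exact absurd hxy (hGH x hx y (hJ.1 hy)).1
  · rcases hy with hy | hy
    · exact absurd hxy (hGH y (hI.1 hy) x hx).2
    · exact Or.inr (hJ.2 x hx y hy hxy)

theorem domK_inter_idl {G Q K : Finset P} (hG : G ⊆ Q) (hK : K ∈ idl Q) : K ∩ G ∈ idl G := by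
  rw [mem_idl] at *
  refine ⟨Finset.inter_subset_right, ?_⟩
  intro x hx y hy hxy
  rw [Finset.mem_inter] at *
  exact ⟨hK.2 x (hG hx) y hy.1 hxy, hx⟩

theorem domK_weak_union {ω : P → ℕ} {G H : Finset P}
    (hGH : ∀ x ∈ G, ∀ y ∈ H, ¬ x ≤ y ∧ ¬ y ≤ x)
    {I J : Finset P} (hI : I ⊆ G) (hJ : J ⊆ H) :
    WeakOnly ω (I ∪ J) ↔ WeakOnly ω I ∧ WeakOnly ω J := by
  constructor
  · intro h
    exact ⟨fun x hx y hy => h x (Finset.mem_union_left _ hx) y (Finset.mem_union_left _ hy),
      fun x hx y hy => h x (Finset.mem_union_right _ hx) y (Finset.mem_union_right _ hy)⟩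
  · rintro ⟨h1, h2⟩ x hx y hy hxy
    rw [Finset.mem_union] at hx hy
    rcases hx with hx | hx
    · rcases hy with hy | hy
      · exact h1 x hx y hy hxy
      · exact absurd hxy.le (hGH x (hI hx) y (hJ hy)).1
    · rcases hy with hy | hy
      · exact absurd hxy.le (hGH y (hI hy) x (hJ hx)).2
      · exact h2 x hx y hy hxy

/-- The product formula. -/
theorem domK_union (ω : P → ℕ) (L : List ℕ) : ∀ G H : Finset P,
    (∀ x ∈ G, ∀ y ∈ H, ¬ x ≤ y ∧ ¬ y ≤ x) →
    domK ω L (G ∪ H) = domK ω L G * domK ω L H := by
  induction L with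
  | nil =>
    intro G H _
    rw [domK_nil, domK_nil, domK_nil]
    by_cases hG : G = ∅
    · by_cases hH : H = ∅
      · rw [if_pos hG, if_pos hH, if_pos (by rw [hG, hH, Finset.empty_union]), one_mul]
      · rw [if_neg hH, mul_zero, if_neg]
        intro h
        exact hH (Finset.union_eq_empty.1 h).2
    · rw [if_neg hG, zero_mul, if_neg]
      intro h
      exact hG (Finset.union_eq_empty.1 h).1
  | cons i L ih =>
    intro G H hGH
    have hdis : Disjoint G H := by
      rw [Finset.disjoint_left]
      intro x hx hx'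
      exact (hGH x hx x hx').1 le_rfl
    rw [domK_cons, domK_cons, domK_cons, Finset.sum_mul_sum, ← Finset.sum_product']
    refine Finset.sum_nbij' (fun K => (K ∩ G, K ∩ H)) (fun p => p.1 ∪ p.2) ?_ ?_ ?_ ?_ ?_
    · intro K hK
      rw [Finset.mem_filter] at hK
      rw [Finset.mem_product, Finset.mem_filter, Finset.mem_filter]
      refine ⟨⟨domK_inter_idl Finset.subset_union_left hK.1, ?_⟩,
        ⟨domK_inter_idl Finset.subset_union_right hK.1, ?_⟩⟩
      · intro x hx y hy
        exact hK.2 x (Finset.mem_inter.1 hx).1 y (Finset.mem_inter.1 hy).1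
      · intro x hx y hy
        exact hK.2 x (Finset.mem_inter.1 hx).1 y (Finset.mem_inter.1 hy).1
    · rintro ⟨I, J⟩ hp
      rw [Finset.mem_product, Finset.mem_filter, Finset.mem_filter] at hp
      rw [Finset.mem_filter]
      exact ⟨domK_split_idl hGH hp.1.1 hp.2.1,
        (domK_weak_union hGH (subset_of_mem_idl hp.1.1) (subset_of_mem_idl hp.2.1)).2
          ⟨hp.1.2, hp.2.2⟩⟩
    · intro K hK
      rw [Finset.mem_filter] at hK
      have h1 := subset_of_mem_idl hK.1
      simp only
      rw [← Finset.inter_union_distrib_left]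
      exact Finset.inter_eq_left.2 h1
    · rintro ⟨I, J⟩ hp
      rw [Finset.mem_product, Finset.mem_filter, Finset.mem_filter] at hp
      have h1 := subset_of_mem_idl hp.1.1
      have h2 := subset_of_mem_idl hp.2.1
      simp only at h1 h2 ⊢
      have e1 : (I ∪ J) ∩ G = I := by
        ext x
        rw [Finset.mem_inter, Finset.mem_union]
        constructor
        · rintro ⟨h | h, h'⟩
          · exact h
          · exact absurd (h2 h) (Finset.disjoint_left.1 hdis h')
        · intro h
          exact ⟨Or.inl h, h1 h⟩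
      have e2 : (I ∪ J) ∩ H = J := by
        ext x
        rw [Finset.mem_inter, Finset.mem_union]
        constructor
        · rintro ⟨h | h, h'⟩
          · exact absurd h' (Finset.disjoint_left.1 hdis (h1 h))
          · exact h
        · intro h
          exact ⟨Or.inr h, h2 h⟩
      rw [e1, e2]
    · intro K hK
      rw [Finset.mem_filter] at hK
      have h1 := subset_of_mem_idl hK.1
      simp only
      have e1 : (G ∪ H) \ K = (G \ (K ∩ G)) ∪ (H \ (K ∩ H)) := by
        ext x
        simp only [Finset.mem_union, Finset.mem_sdiff, Finset.mem_inter]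
        tauto
      have e2 : K.card = (K ∩ G).card + (K ∩ H).card := by
        rw [← Finset.card_union_of_disjoint]
        · rw [← Finset.inter_union_distrib_left, Finset.inter_eq_left.2 h1]
        · exact Finset.disjoint_of_subset_left Finset.inter_subset_right
            (Finset.disjoint_of_subset_right Finset.inter_subset_right hdis)
      rw [e1, ih]
      · rw [e2, Finsupp.single_add]
        have e3 : MvPolynomial.monomial (Finsupp.single i (K ∩ G).card +
            Finsupp.single i (K ∩ H).card) (1 : ℤ) =
            MvPolynomial.monomial (Finsupp.single i (K ∩ G).card) (1 : ℤ) *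
            MvPolynomial.monomial (Finsupp.single i (K ∩ H).card) (1 : ℤ) := by
          rw [MvPolynomial.monomial_mul, one_mul]
        rw [e3]
        ring
      · intro x hx y hy
        exact hGH x (Finset.mem_sdiff.1 hx).1 y (Finset.mem_sdiff.1 hy).1

/-- Evaluation at `1` is nonnegative. -/
theorem domK_eval_nonneg (ω : P → ℕ) (L : List ℕ) : ∀ G : Finset P,
    0 ≤ MvPolynomial.eval (fun _ => (1 : ℤ)) (domK ω L G) := by
  induction L with
  | nil =>
    intro G
    rw [domK_nil]
    split_ifs
    · rw [map_one]
      exact zero_le_one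
    · rw [map_zero]
  | cons i L ih =>
    intro G
    rw [domK_cons, map_sum]
    apply Finset.sum_nonneg
    intro I _
    rw [map_mul, MvPolynomial.eval_monomial]
    simp only [one_pow, Finsupp.prod, Finset.prod_const_one, one_mul, mul_one]
    exact ih _

theorem domK_eval_pos (ω : P → ℕ) (L : List ℕ) : ∀ G : Finset P, G.card ≤ L.length →
    0 < MvPolynomial.eval (fun _ => (1 : ℤ)) (domK ω L G) := by
  induction L with
  | nil =>
    intro G hG
    rw [List.length_nil, Nat.le_zero, Finset.card_eq_zero] at hG
    rw [domK_nil, if_pos hG, map_one]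
    exact zero_lt_one
  | cons i L ih =>
    intro G hG
    rw [List.length_cons] at hG
    rw [domK_cons, map_sum]
    have hev : ∀ I, MvPolynomial.eval (fun _ => (1 : ℤ))
        (MvPolynomial.monomial (Finsupp.single i I.card) (1 : ℤ) * domK ω L (G \ I)) =
        MvPolynomial.eval (fun _ => (1 : ℤ)) (domK ω L (G \ I)) := by
      intro I
      rw [map_mul, MvPolynomial.eval_monomial]
      simp only [one_pow, Finsupp.prod, Finset.prod_const_one, one_mul, mul_one]
    have hex : ∃ I ∈ (idl G).filter (fun I => WeakOnly ω I), (G \ I).card ≤ L.length := by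
      by_cases hne : G.Nonempty
      · obtain ⟨x, hx, hmin⟩ := G.exists_minimal hne
        refine ⟨{x}, ?_, ?_⟩
        · rw [Finset.mem_filter, mem_idl]
          refine ⟨⟨Finset.singleton_subset_iff.2 hx, ?_⟩, ?_⟩
          · intro y hy z hz hyz
            rw [Finset.mem_singleton] at hz ⊢
            rw [hz] at hyz
            exact le_antisymm hyz (hmin hy hyz)
          · intro y hy z hz hyz
            rw [Finset.mem_singleton] at hy hz
            rw [hy, hz] at hyz
            exact absurd hyz (lt_irrefl _)
        · rw [Finset.card_sdiff_of_subset (Finset.singleton_subset_iff.2 hx),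
            Finset.card_singleton]
          omega
      · rw [Finset.not_nonempty_iff_eq_empty] at hne
        refine ⟨∅, ?_, ?_⟩
        · rw [Finset.mem_filter]
          exact ⟨empty_mem_idl _, fun x hx => absurd hx (Finset.notMem_empty x)⟩
        · rw [hne, Finset.sdiff_empty, Finset.card_empty]
          exact Nat.zero_le _
    obtain ⟨I, hI, hc⟩ := hex
    apply Finset.sum_pos'
    · intro J _
      rw [hev]
      exact domK_eval_nonneg ω L _
    · refine ⟨I, hI, ?_⟩
      rw [hev]
      exact ih _ hc

theorem domK_ne_zero (ω : P → ℕ) (L : List ℕ) (G : Finset P) (h : G.card ≤ L.length) :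
    domK ω L G ≠ 0 := by
  intro h0
  have := domK_eval_pos ω L G h
  rw [h0, map_zero] at this
  exact lt_irrefl _ this

/-- Symmetry in terms of the polynomials. -/
theorem domK_perm {ω : P → ℕ} {Q : Finset P} (h : SymW ω Q) {L L' : List ℕ} (hL : L.Nodup)
    (hp : L.Perm L') : domK ω L Q = domK ω L' Q := by
  ext α
  rw [domK_coeff ω L hL, domK_coeff ω L' (hp.nodup_iff.1 hL), h _ _ (hp.map _)]
  have : (∀ i, i ∉ L → α i = 0) ↔ ∀ i, i ∉ L' → α i = 0 := by
    constructor
    · intro h1 i hi
      exact h1 i fun h2 => hi (hp.mem_iff.1 h2)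
    · intro h1 i hi
      exact h1 i fun h2 => hi (hp.mem_iff.2 h2)
  by_cases h1 : ∀ i, i ∉ L → α i = 0
  · rw [if_pos h1, if_pos (this.1 h1)]
  · rw [if_neg h1, if_neg fun h2 => h1 (this.2 h2)]

theorem kap_zero_cons (ω : P → ℕ) (Q : Finset P) (w : List ℕ) :
    kap ω Q (0 :: w) = kap ω Q w := by
  rw [kap_cons, Finset.sum_eq_single ∅]
  · rw [Finset.sdiff_empty]
  · intro I hI h
    rw [Finset.mem_filter, Finset.card_eq_zero] at hI
    exact absurd hI.2.1 h
  · intro h
    exfalso
    apply h
    rw [Finset.mem_filter]
    exact ⟨empty_mem_idl _, Finset.card_empty, fun x hx => absurd hx (Finset.notMem_empty x)⟩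

theorem kap_zeros (ω : P → ℕ) (Q : Finset P) (n : ℕ) (w : List ℕ) :
    kap ω Q (List.replicate n 0 ++ w) = kap ω Q w := by
  induction n with
  | zero => rw [List.replicate_zero, List.nil_append]
  | succ n ih => rw [List.replicate_succ, List.cons_append, kap_zero_cons, ih]

/-- Lifting a permutation of the values. -/
theorem perm_lift (α : ℕ → ℕ) {w w' : List ℕ} (h : w.Perm w') :
    ∀ L : List ℕ, L.map α = w → ∃ L' : List ℕ, L.Perm L' ∧ L'.map α = w' := by
  induction h with
  | nil =>
    intro L hL
    exact ⟨L, List.Perm.refl _, hL⟩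
  | cons x _ ih =>
    intro L hL
    cases L with
    | nil => exact absurd hL (by simp)
    | cons a L =>
      rw [List.map_cons, List.cons.injEq] at hL
      obtain ⟨L', h1, h2⟩ := ih L hL.2
      exact ⟨a :: L', h1.cons a, by rw [List.map_cons, hL.1, h2]⟩
  | swap x y l =>
    intro L hL
    match L with
    | [] => exact absurd hL (by simp)
    | [a] => exact absurd hL (by simp)
    | a :: b :: L =>
      rw [List.map_cons, List.map_cons, List.cons.injEq, List.cons.injEq] at hL
      refine ⟨b :: a :: L, List.Perm.swap _ _ _, ?_⟩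
      rw [List.map_cons, List.map_cons, hL.1, hL.2.1, hL.2.2]
  | trans _ _ ih1 ih2 =>
    intro L hL
    obtain ⟨L1, h1, h2⟩ := ih1 L hL
    obtain ⟨L2, h3, h4⟩ := ih2 L1 h2
    exact ⟨L2, h1.trans h3, h4⟩

/-- Every list is `L.map α` for the list `L = range n`. -/
theorem exists_map_range (w : List ℕ) : ∃ α : ℕ →₀ ℕ, (∀ i, i ∉ List.range w.length → α i = 0) ∧
    (List.range w.length).map α = w := by
  refine ⟨Finsupp.onFinset (Finset.range w.length) (fun i => w.getD i 0) ?_, ?_, ?_⟩
  · intro i hi
    rw [Finset.mem_range]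
    by_contra h
    apply hi
    rw [List.getD_eq_getElem?_getD, List.getElem?_eq_none (not_lt.1 h)]
    rfl
  · intro i hi
    rw [List.mem_range, not_lt] at hi
    rw [Finsupp.onFinset_apply, List.getD_eq_getElem?_getD, List.getElem?_eq_none hi]
    rfl
  · apply List.ext_getElem
    · rw [List.length_map, List.length_range]
    · intro i h1 h2
      rw [List.getElem_map, List.getElem_range, Finsupp.onFinset_apply,
        List.getD_eq_getElem?_getD, List.getElem?_eq_getElem h2]
      rfl

/-- Domain lemma. -/
theorem dom_union (ω : P → ℕ) (G H : Finset P)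
    (hGH : ∀ x ∈ G, ∀ y ∈ H, ¬ x ≤ y ∧ ¬ y ≤ x) (hQ : SymW ω (G ∪ H)) (hG : SymW ω G) :
    SymW ω H := by
  intro w w' hw
  rw [← kap_zeros ω H G.card w, ← kap_zeros ω H G.card w']
  have hw2 : (List.replicate G.card 0 ++ w).Perm (List.replicate G.card 0 ++ w') :=
    hw.append_left _
  obtain ⟨α, h1, h2⟩ := exists_map_range (List.replicate G.card 0 ++ w)
  obtain ⟨L', h3, h4⟩ := perm_lift α hw2 _ h2
  have hnd : (List.range (List.replicate G.card 0 ++ w).length).Nodup := List.nodup_range
  have hlen : G.card ≤ (List.range (List.replicate G.card 0 ++ w).length).length := by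
    rw [List.length_range, List.length_append, List.length_replicate]
    omega
  generalize List.range (List.replicate G.card 0 ++ w).length = L at h1 h2 h3 hnd hlen
  have e1 := domK_perm hQ hnd h3
  have e2 := domK_perm hG hnd h3
  rw [domK_union ω L G H hGH, domK_union ω L' G H hGH, ← e2] at e1
  have e3 := mul_left_cancel₀ (domK_ne_zero ω L G hlen) e1
  have e4 := congrArg (MvPolynomial.coeff α) e3
  rw [domK_coeff ω L hnd, domK_coeff ω L' (h3.nodup_iff.1 hnd), if_pos h1, if_pos, h2, h4] at e4
  · exact_mod_cast e4
  · intro i hi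
    exact h1 i fun h => hi (h3.mem_iff.1 h)

/-- Domain lemma. -/
theorem dom_sdiff (P : Type) [PartialOrder P] (ω : P → ℕ) (Q G : Finset P) (h : G ⊆ Q)
    (hGH : ∀ x ∈ G, ∀ y ∈ Q \ G, ¬ x ≤ y ∧ ¬ y ≤ x) (hQ : SymW ω Q) (hG : SymW ω G) :
    SymW ω (Q \ G) := by
  apply dom_union ω G (Q \ G) hGH _ hG
  rw [Finset.union_sdiff_of_subset h]
  exact hQ

end dom

end Pool.Agent.ST14
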