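import Pool.Agent.ST14.RimStmts

/-!
The end of the proof (section 6 of 49bc13_h58.md), the part which does not depend on the forests:
isolated points do not matter for `lam` and `eps`, and the final count.
-/

set_option autoImplicit false

namespace Pool.Agent.ST14

open scoped Classical

section ec

variable {P : Type} [PartialOrder P] {ω : P → ℕ}

theorem ec_skw_sub {Q Q' : Finset P} (h : Skw ω Q) (hs : Q' ⊆ Q)
    (hc : ∀ x ∈ Q', ∀ z ∈ Q', ∀ y ∈ Q, x ≤ y → y ≤ z → y ∈ Q') : Skw ω Q' := by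
  have hcv : Cvx Q' := fun x hx z hz y hxy hyz =>
    hc x hx z hz y (h.cvx x (hs hx) z (hs hz) y hxy hyz) hxy hyz
  refine ⟨hcv, ?_⟩
  have hl := h.loc
  refine ⟨?_, ?_, ?_, ?_, ?_, ?_⟩
  · exact fun x hx x' hx' y hy => hl.w_lower x (hs hx) x' (hs hx') y (hs hy)
  · exact fun x hx y hy y' hy' => hl.w_upper x (hs hx) y (hs hy) y' (hs hy')
  · exact fun x hx x' hx' y hy => hl.s_lower x (hs hx) x' (hs hx') y (hs hy)
  · exact fun x hx y hy y' hy' => hl.s_upper x (hs hx) y (hs hy) y' (hs hy')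
  · exact fun x hx b hb y hy => hl.ws x (hs hx) b (hs hb) y (hs hy)
  · exact fun x hx b hb y hy => hl.sw x (hs hx) b (hs hb) y (hs hy)

/-- An isolated point is a component, equal to its rim. -/
theorem ec_comp_isol {Q : Finset P} {x : P} (hx : x ∈ Q) (hi : ∀ y ∈ Q, ¬ x < y ∧ ¬ y < x) :
    {x} ∈ comps Q ∧ nwrim ω {x} = {x} ∧ strc ω (nwrim ω ({x} : Finset P)) = 0 := by
  have h1 : comp Q x = {x} := by
    ext y
    unfold comp
    rw [Finset.mem_filter, Finset.mem_singleton]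
    constructor
    · rintro ⟨-, h⟩
      rcases Relation.ReflTransGen.cases_head h with h | ⟨z, hz, -⟩
      · exact h.symm
      · obtain ⟨-, hzQ, h2⟩ := hz
        rcases h2 with h2 | h2
        · exact absurd h2.lt (hi z hzQ).1
        · exact absurd h2.lt (hi z hzQ).2
    · rintro rfl
      exact ⟨hx, Relation.ReflTransGen.refl⟩
  have h2 : nwrim ω ({x} : Finset P) = {x} := by
    ext y
    unfold nwrim
    rw [Finset.mem_filter]
    constructor
    · exact fun h => h.1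
    · intro h
      refine ⟨h, fun z hz => ?_⟩
      obtain ⟨hz1, hy1, ⟨g, hg, h3, -⟩, -⟩ := hz
      rw [Finset.mem_singleton] at hz1 hg
      subst hz1
      subst hg
      exact absurd h3.1.lt (lt_irrefl _)
  refine ⟨?_, h2, ?_⟩
  · unfold comps
    exact Finset.mem_image.2 ⟨x, hx, h1⟩
  · rw [h2]
    unfold strc
    rw [Finset.card_eq_zero, Finset.filter_eq_empty_iff]
    intro p hp h3
    rw [Finset.mem_product, Finset.mem_singleton, Finset.mem_singleton] at hp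
    have := h3.1.lt
    rw [hp.1, hp.2] at this
    exact lt_irrefl _ this

theorem ec_sorted_eq {l l' : List ℕ} (h : l.Perm l') (h1 : l.Pairwise (· ≥ ·))
    (h2 : l'.Pairwise (· ≥ ·)) : l = l' :=
  h.eq_of_pairwise' h1 h2

/-- Isolated points: the number is enough. -/
theorem ec_isol (hL : LamStmt) (hE : EpsStmt) (hω : Function.Injective ω) (I : Finset P) :
    ∀ (n : ℕ) (D D' : Finset P), D.card = n → D'.card = n → Disjoint I D → Disjoint I D' →
      Skw ω (I ∪ D) → Skw ω (I ∪ D') → (∀ x ∈ D, ∀ y ∈ I ∪ D, ¬ x < y ∧ ¬ y < x) →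
      (∀ x ∈ D', ∀ y ∈ I ∪ D', ¬ x < y ∧ ¬ y < x) →
      lam ω (I ∪ D) = lam ω (I ∪ D') ∧ eps ω (I ∪ D) = eps ω (I ∪ D') := by
  intro n
  induction n with
  | zero =>
    intro D D' h1 h2 _ _ _ _ _ _
    rw [Finset.card_eq_zero] at h1 h2
    subst h1
    subst h2
    exact ⟨rfl, rfl⟩
  | succ n ih =>
    intro D D' h1 h2 hd hd' hs hs' hi hi'
    have step : ∀ D : Finset P, D.card = n + 1 → Disjoint I D → Skw ω (I ∪ D) →
        (∀ x ∈ D, ∀ y ∈ I ∪ D, ¬ x < y ∧ ¬ y < x) →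
        ∃ D₁ : Finset P, D₁.card = n ∧ Disjoint I D₁ ∧ Skw ω (I ∪ D₁) ∧
          (∀ x ∈ D₁, ∀ y ∈ I ∪ D₁, ¬ x < y ∧ ¬ y < x) ∧
          (lam ω (I ∪ D)).Perm (1 :: lam ω (I ∪ D₁)) ∧ eps ω (I ∪ D) = eps ω (I ∪ D₁) := by
      intro D h1 hd hs hi
      obtain ⟨x, hx⟩ : D.Nonempty := Finset.card_pos.1 (by omega)
      have hxI : x ∉ I := fun h => Finset.disjoint_left.1 hd h hx
      have hxQ : x ∈ I ∪ D := Finset.mem_union_right _ hx
      have hset : I ∪ D.erase x = (I ∪ D) \ {x} := by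
        ext y
        simp only [Finset.mem_union, Finset.mem_erase, Finset.mem_sdiff, Finset.mem_singleton]
        constructor
        · rintro (h | ⟨h, h'⟩)
          · exact ⟨Or.inl h, fun h' => hxI (h' ▸ h)⟩
          · exact ⟨Or.inr h', h⟩
        · rintro ⟨h | h, h'⟩
          · exact Or.inl h
          · exact Or.inr ⟨h', h⟩
      have hsub : (I ∪ D) \ {x} ⊆ I ∪ D := Finset.sdiff_subset
      have hsk : Skw ω ((I ∪ D) \ {x}) := by
        refine ec_skw_sub hs hsub ?_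
        intro a ha b hb y hy hay hyb
        rw [Finset.mem_sdiff, Finset.mem_singleton] at ha hb ⊢
        refine ⟨hy, ?_⟩
        rintro rfl
        exact (hi y hx a ha.1).2 (lt_of_le_of_ne hay ha.2)
      obtain ⟨c1, c2, c3⟩ := ec_comp_isol (ω := ω) hxQ (hi x hx)
      obtain ⟨-, -, -, -, -, hp, -⟩ := hL P ω hω _ hs
      have hp' := hp _ c1
      have he' := hE P ω hω _ hs _ c1
      rw [c2, Finset.card_singleton] at hp'
      rw [c3, c2, pow_zero, one_mul] at he'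
      refine ⟨D.erase x, by rw [Finset.card_erase_of_mem hx, h1]; rfl,
        hd.mono_right (Finset.erase_subset _ _), by rw [hset]; exact hsk, ?_, ?_, ?_⟩
      · intro z hz y hy
        rw [hset] at hy
        exact hi z (Finset.mem_of_mem_erase hz) y (hsub hy)
      · rw [hset]; exact hp'
      · rw [hset]; exact he'
    obtain ⟨D₁, a1, a2, a3, a4, a5, a6⟩ := step D h1 hd hs hi
    obtain ⟨D₂, b1, b2, b3, b4, b5, b6⟩ := step D' h2 hd' hs' hi'
    obtain ⟨e1, e2⟩ := ih D₁ D₂ a1 b1 a2 b2 a3 b3 a4 b4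
    refine ⟨?_, by rw [a6, b6, e2]⟩
    refine ec_sorted_eq ?_ (hL P ω hω _ hs).2.2.1 (hL P ω hω _ hs').2.2.1
    rw [e1] at a5
    exact a5.trans b5.symm

/-- The value of the top functional on one term. -/
theorem ec_term (hL : LamStmt) (hE : EpsStmt) (hT : TopStmt) (hSE : SEStmt)
    (hω : Function.Injective ω) {Y T : Finset P} (hY : Skw ω Y) (hTc : T ∈ comps Y)
    {a : ℕ} (ha : (serim ω T).card = a) {Λ : List ℕ} (hΛ : lam ω (Y \ serim ω T) = Λ) {e : ℤ}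
    (he : eps ω (Y \ serim ω T) = e) {μ : List ℕ} (hμ : μ.Perm (a :: Λ))
    (hμ' : μ.Pairwise (· ≥ ·)) :
    psiW ω μ Y = (-1) ^ strc ω (serim ω T) * e * (mlt μ : ℤ) ∧ 0 < mlt μ := by
  obtain ⟨s1, s2, -, s4, s5⟩ := hSE P ω hω Y hY T hTc
  obtain ⟨-, -, l3, -, -, l6, -⟩ := hL P ω hω Y hY
  have h1 := l6 T hTc
  rw [← s1, ← s4, ha, hΛ] at h1
  have h2 : μ = lam ω Y := ec_sorted_eq (hμ.trans h1.symm) hμ' l3
  obtain ⟨-, t2, t3⟩ := hT P ω hω Y hY
  rw [h2]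
  refine ⟨?_, t3⟩
  rw [t2, hE P ω hω Y hY T hTc, ← s2, ← s5, he]

/-- The final count. -/
theorem ec_count (hP : PsiVal) (hL : LamStmt) (hE : EpsStmt) (hT : TopStmt) (hSE : SEStmt)
    (hω : Function.Injective ω) {XR XL : Finset (Finset P)} (cR cL : Finset P → ℕ)
    {a : ℕ} {Λ : List ℕ} {e : ℤ} (he0 : e ≠ 0) {β : ℕ}
    (hid : ∀ F ∈ HH ℤ ω, ∑ Y ∈ XR, (-1) ^ cR Y * F Y = ∑ Y ∈ XL, (-1) ^ cL Y * F Y)
    (hR : ∀ Y ∈ XR, Skw ω Y ∧ ∃ T ∈ comps Y, (serim ω T).card = a ∧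
      lam ω (Y \ serim ω T) = Λ ∧ eps ω (Y \ serim ω T) = e ∧
      cR Y + strc ω (serim ω T) = β + 1)
    (hLL : ∀ Y ∈ XL, Skw ω Y ∧ ∃ T ∈ comps Y, (serim ω T).card = a ∧
      lam ω (Y \ serim ω T) = Λ ∧ eps ω (Y \ serim ω T) = e ∧
      cL Y + strc ω (serim ω T) = β) : XR = ∅ ∧ XL = ∅ := by
  set μ : List ℕ := (a :: Λ).mergeSort (· ≥ ·) with hμ
  have hμ1 : μ.Perm (a :: Λ) := List.mergeSort_perm _ _
  have hμ2 : μ.Pairwise (· ≥ ·) := by
    have := List.pairwise_mergeSort (le := fun a b : ℕ => decide (a ≥ b))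
      (fun a b c h1 h2 => by simp only [decide_eq_true_eq] at *; omega)
      (fun a b => by simp only [Bool.or_eq_true, decide_eq_true_eq]; omega) (a :: Λ)
    simpa using this
  have hmem : psiW ω μ ∈ HH ℤ ω := by
    unfold psiW
    apply Subalgebra.list_prod_mem
    intro x hx
    obtain ⟨b, -, rfl⟩ := List.mem_map.1 hx
    exact (hP P ω hω b).1
  have h1 := hid _ hmem
  have hsq : ∀ i j : ℕ, ((-1 : ℤ) ^ i * ((-1) ^ j)) = (-1) ^ (i + j) := fun i j => by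
    rw [pow_add]
  have h2 : ∀ Y ∈ XR, (-1) ^ cR Y * psiW ω μ Y = (-1) ^ (β + 1) * e * (mlt μ : ℤ) := by
    intro Y hY
    obtain ⟨g1, T, g2, g3, g4, g5, g6⟩ := hR Y hY
    rw [(ec_term hL hE hT hSE hω g1 g2 g3 g4 g5 hμ1 hμ2).1, ← g6, ← hsq]
    ring
  have h3 : ∀ Y ∈ XL, (-1) ^ cL Y * psiW ω μ Y = (-1) ^ β * e * (mlt μ : ℤ) := by
    intro Y hY
    obtain ⟨g1, T, g2, g3, g4, g5, g6⟩ := hLL Y hY
    rw [(ec_term hL hE hT hSE hω g1 g2 g3 g4 g5 hμ1 hμ2).1, ← g6, ← hsq]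
    ring
  rw [Finset.sum_congr rfl h2, Finset.sum_congr rfl h3, Finset.sum_const, Finset.sum_const,
    nsmul_eq_mul, nsmul_eq_mul, pow_succ] at h1
  by_contra hcon
  have hpos : 0 < mlt μ := by
    rw [not_and_or] at hcon
    rcases hcon with h | h
    · obtain ⟨Y, hY⟩ := Finset.nonempty_iff_ne_empty.2 h
      obtain ⟨g1, T, g2, g3, g4, g5, g6⟩ := hR Y hY
      exact (ec_term hL hE hT hSE hω g1 g2 g3 g4 g5 hμ1 hμ2).2
    · obtain ⟨Y, hY⟩ := Finset.nonempty_iff_ne_empty.2 h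
      obtain ⟨g1, T, g2, g3, g4, g5, g6⟩ := hLL Y hY
      exact (ec_term hL hE hT hSE hω g1 g2 g3 g4 g5 hμ1 hμ2).2
  have hne : ((-1 : ℤ) ^ β * e * (mlt μ : ℤ)) ≠ 0 :=
    mul_ne_zero (mul_ne_zero (pow_ne_zero _ (by norm_num)) he0) (by exact_mod_cast hpos.ne')
  have h4 : ((XR.card : ℤ) + XL.card) * ((-1 : ℤ) ^ β * e * (mlt μ : ℤ)) = 0 := by
    linear_combination -h1
  have h5 := (mul_eq_zero.1 h4).resolve_right hne
  have h6 : XR.card = 0 := by omega
  have h7 : XL.card = 0 := by omega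
  exact hcon ⟨Finset.card_eq_zero.1 h6, Finset.card_eq_zero.1 h7⟩

end ec

end Pool.Agent.ST14
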