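import Pool.Agent.ST14.RimStmts
import Pool.Agent.ST14.StarTop

/-!
Definitions for sections 5 and 6 of 49bc13_h58.md.

Pictures: `S x` is south of `x` (strict cover), `E x` is east of `x` (weak cover). `R = factR ω`,
`R~ = factR (tr ω)`.
-/

set_option autoImplicit false

namespace Pool.Agent.ST14

open scoped Classical

section defs

variable {P : Type} [PartialOrder P]

/-- Strict extra cover `i s M` (for a minimal symmetric poset; see `FinNet`). -/
def XS (ω : P → ℕ) (i M : P) : Prop := SCov ω i M ∧ IsMin i ∧ ∃ z, SCov ω z M ∧ ¬ IsMin z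

/-- Regular strict cover, `x = N u`, `u = S x`. -/
def RS (ω : P → ℕ) (x u : P) : Prop := SCov ω x u ∧ ¬ (IsMin x ∧ ∃ z, SCov ω z u ∧ ¬ IsMin z)

/-- Weak extra cover `i w M`. -/
def XW (ω : P → ℕ) (i M : P) : Prop := WCov ω i M ∧ IsMin i ∧ ∃ z, WCov ω z M ∧ ¬ IsMin z

/-- Regular weak cover, `x = W u`, `u = E x`. -/
def RW (ω : P → ℕ) (x u : P) : Prop := WCov ω x u ∧ ¬ (IsMin x ∧ ∃ z, WCov ω z u ∧ ¬ IsMin z)

/-- A step to the north (`b = N a`) or to the east (`b = E a`) inside a region: regular covers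
which are not one of the cuts `x_b w b`, `b s y_b`, `x* s b'`, `b' w y'`. -/
def NEs (ω : P → ℕ) (a b : P) : Prop :=
  (RS ω b a ∧ (∀ y, ¬ Splitter ω b a y) ∧ ∀ x, ¬ Merger ω x b a) ∨
  (RW ω a b ∧ (∀ y, ¬ Merger ω a b y) ∧ ∀ x, ¬ Splitter ω x a b)

/-- Sources: no southern and no western neighbour. Sinks are the sources of `tr ω`. -/
def Src (ω : P → ℕ) (r : P) : Prop := (∀ u, ¬ SCov ω r u) ∧ ∀ z, ¬ WCov ω z r

end defs

section fin

variable {P : Type} [Fintype P] [PartialOrder P]

/-- The region of a source `r`. -/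
noncomputable def Rg (ω : P → ℕ) (r : P) : Finset P :=
  Finset.univ.filter fun e => Relation.ReflTransGen (NEs ω) r e

/-- The cells with a south-east neighbour. -/
noncomputable def Intr (ω : P → ℕ) : Finset P :=
  Finset.univ.filter fun x => ∃ e, NW ω Finset.univ x e

/-- The cells `x_b`. (The cells `x*` are `Xm (tr ω)`.) -/
noncomputable def Xm (ω : P → ℕ) : Finset P :=
  Finset.univ.filter fun x => ∃ b y, Merger ω x b y

/-- The forest on `factR ω`: `phi e = e'`, where `e' = S e` if it exists, else `e' = W e` if it is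
in `factR ω`. -/
def Fl (ω : P → ℕ) (e e' : P) : Prop :=
  e ∈ factR ω ∧ e' ∈ factR ω ∧ (RS ω e e' ∨ RW ω e' e)

/-- The tree of the root `r`. -/
noncomputable def Tr (ω : P → ℕ) (r : P) : Finset P :=
  (factR ω).filter fun e => Relation.ReflTransGen (Fl ω) e r

/-- Number of diagonals of the region of `r` (= length of its south-east rim). -/
noncomputable def lG (ω : P → ℕ) (r : P) : ℕ := (Rg ω r \ Intr ω).card

/-- The region of the source `r` ends in some `x_b`. -/
def TypeX (ω : P → ℕ) (r : P) : Prop := ∃ e ∈ Rg ω r, ∃ b y, Merger ω e b y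

/-- The region of the source `r` ends in some `y_b`. -/
def TypeY (ω : P → ℕ) (r : P) : Prop := ∃ e ∈ Rg ω r, ∃ x b, Merger ω x b e

/-- The ideal `Q_r`, complement of the filter `factR ω \ Tr ω r`. -/
noncomputable def Qr (ω : P → ℕ) (r : P) : Finset P := Intr ω ∪ Xm ω ∪ Tr ω r

end fin

end Pool.Agent.ST14
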