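import Pool.Agent.ST14.FinDefs

/-!
Module statements for sections 5 and 6 of 49bc13_h58.md (P-partition symmetry). Every statement is
for all `P`, `ω` with `Mini ω`, hence may be used for `tr ω`, `rv ω`, `tr (rv ω)`.
`Splitter ω = Merger (tr ω)`, `RW ω = RS (tr ω)`, `XW ω = XS (tr ω)`.
-/

set_option autoImplicit false

namespace Pool.Agent.ST14

open scoped Classical

/-- N: regular and extra covers. -/
def FinNet : Prop := ∀ (P : Type) [Fintype P] [PartialOrder P] (ω : P → ℕ), Mini ω →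
  (∀ x u, RS ω x u → SCov ω x u ∧ x ∈ CC ω ∧ u ∈ AA ω) ∧
  (∀ u ∈ AA ω, ∃ x, RS ω x u) ∧ (∀ x ∈ CC ω, ∃ u, RS ω x u) ∧
  (∀ x x' u, RS ω x u → RS ω x' u → x = x') ∧ (∀ x u u', RS ω x u → RS ω x u' → u = u') ∧
  (∀ x u, SCov ω x u → RS ω x u ∨ XS ω x u) ∧
  (∀ x u, SCov ω x u → ¬ (IsMin x ∧ IsMax u) → RS ω x u) ∧
  (∀ i M, XS ω i M → ¬ RS ω i M ∧ IsMax M ∧ (∃ z ∈ AA ω, RS ω z M) ∧ ∃ v ∈ CC ω, RS ω i v) ∧
  (∀ N S : P → P, Net ω N S → ∀ x u, (RS ω x u ↔ u ∈ AA ω ∧ x = N u) ∧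
    (RS ω x u ↔ x ∈ CC ω ∧ u = S x))

/-- D1: transposition. -/
def FinTr : Prop := ∀ (P : Type) [Fintype P] [PartialOrder P] (ω : P → ℕ),
  (∀ x u, RS (tr ω) x u ↔ RW ω x u) ∧ (∀ x u, RW (tr ω) x u ↔ RS ω x u) ∧
  (∀ x u, XS (tr ω) x u ↔ XW ω x u) ∧ (∀ x u, XW (tr ω) x u ↔ XS ω x u) ∧
  (∀ x b y, Merger (tr ω) x b y ↔ Splitter ω x b y) ∧
  (∀ x b y, Splitter (tr ω) x b y ↔ Merger ω x b y) ∧
  (∀ a b, NEs (tr ω) a b ↔ NEs ω b a) ∧ (∀ Q x e, NW (tr ω) Q x e ↔ NW ω Q x e) ∧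
  Intr (tr ω) = Intr ω ∧ (∀ T, nwrim (tr ω) T = nwrim ω T) ∧
  (∀ T, serim (tr ω) T = serim ω T) ∧ (∀ Q, Skw (tr ω) Q ↔ Skw ω Q) ∧
  (∀ J, strc (tr (tr ω)) J = strc ω J) ∧ (∀ r, Rg (tr (tr ω)) r = Rg ω r) ∧
  (∀ r, Tr (tr (tr ω)) r = Tr ω r)

/-- D2: reversal (`OrderDual.toDual` everywhere). -/
def FinRv : Prop := ∀ (P : Type) [Fintype P] [PartialOrder P] (ω : P → ℕ), Mini ω →
  (∀ x u : P, RS (rv ω) (OrderDual.toDual u) (OrderDual.toDual x) ↔ RS ω x u) ∧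
  (∀ x u : P, RW (rv ω) (OrderDual.toDual u) (OrderDual.toDual x) ↔ RW ω x u) ∧
  (∀ x b y : P, Merger (rv ω) (OrderDual.toDual y) (OrderDual.toDual b) (OrderDual.toDual x) ↔
    Splitter ω x b y) ∧
  (∀ x b y : P, Splitter (rv ω) (OrderDual.toDual y) (OrderDual.toDual b) (OrderDual.toDual x) ↔
    Merger ω x b y) ∧
  (∀ a b : P, NEs (rv ω) (OrderDual.toDual b) (OrderDual.toDual a) ↔ NEs ω a b) ∧
  (∀ x e : P, NW (rv ω) Finset.univ (OrderDual.toDual e) (OrderDual.toDual x) ↔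
    NW ω Finset.univ x e) ∧
  (∀ r : P, Src (rv ω) (OrderDual.toDual r) ↔ Src (tr ω) r) ∧
  (∀ r : P, Src (tr (rv ω)) (OrderDual.toDual r) ↔ Src ω r)

/-- L: links at a merger (`FactStmt` and its duals). -/
def FinLink : Prop := ∀ (P : Type) [Fintype P] [PartialOrder P] (ω : P → ℕ), Mini ω →
  ∀ x b y : P, Merger ω x b y →
    (IsMin x ∧ IsMax y ∧ ¬ IsMin b ∧ ¬ IsMax b ∧ RW ω x b ∧ RS ω b y) ∧
    ((∃ z, RS ω z b) ∧ ∃ z, RW ω b z) ∧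
    ((∀ b₂ y₂, Merger ω x b₂ y₂ → b₂ = b ∧ y₂ = y) ∧
      (∀ x₂ y₂, Merger ω x₂ b y₂ → x₂ = x ∧ y₂ = y) ∧
      (∀ x₂ b₂, Merger ω x₂ b₂ y → x₂ = x ∧ b₂ = b)) ∧
    (∃ c, RS ω x c ∧ c ∉ Intr ω ∧ ((∃ y', Splitter ω x c y') ∨ IsMax c)) ∧
    (∃ d, RW ω d y ∧ ((∃ x', Splitter ω x' d y) ∨ IsMin d)) ∧
    (x ∉ Intr ω ∧ b ∉ Intr ω ∧ y ∉ Intr ω)

/-- 5.2: for a strict extra `(i, M)`, `E(S(i))` exists. Corollary: `i ∉ R~`. -/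
def Fin52 : Prop := ∀ (P : Type) [Fintype P] [PartialOrder P] (ω : P → ℕ), Mini ω →
  ∀ i M q : P, XS ω i M → RS ω i q → ∃ u, RW ω q u

/-- 5.1: no extras in a union of regions without `b, y_b, b', y'`. -/
def Fin51 : Prop := ∀ (P : Type) [Fintype P] [PartialOrder P] (ω : P → ℕ), Mini ω →
  ∀ G : Finset P, (∀ a b, NEs ω a b → (a ∈ G ↔ b ∈ G)) →
    (∀ x b y, Merger ω x b y → b ∉ G ∧ y ∉ G) → (∀ x b y, Splitter ω x b y → b ∉ G ∧ y ∉ G) →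
    ∀ i M, XS ω i M → M ∉ G ∧ ((∀ x b y, Merger ω x b y → x ∉ G) → ∀ q, RS ω i q → q ∉ G)

/-- G: regions of sources (confluence). -/
def FinReg : Prop := ∀ (P : Type) [Fintype P] [PartialOrder P] (ω : P → ℕ), Mini ω →
  (∀ e, (∀ f, ¬ NEs ω e f) ↔
    Src (tr ω) e ∨ (∃ b y, Merger ω e b y) ∨ (∃ x b, Merger ω x b e) ∨ ∃ x y, Splitter ω x e y) ∧
  ∀ r, Src ω r →
    (∀ a b, NEs ω a b → (a ∈ Rg ω r ↔ b ∈ Rg ω r)) ∧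
    (∀ x b y, Merger ω x b y → b ∉ Rg ω r) ∧
    (∀ x b y, Splitter ω x b y → x ∉ Rg ω r ∧ y ∉ Rg ω r) ∧
    (∃ e ∈ Rg ω r, ∀ f, ¬ NEs ω e f) ∧
    (∀ e ∈ Rg ω r, ∀ e' ∈ Rg ω r, (∀ f, ¬ NEs ω e f) → (∀ f, ¬ NEs ω e' f) → e = e') ∧
    (∀ e ∈ Rg ω r, e ≠ r → ∃ f ∈ Rg ω r, NEs ω f e) ∧
    (∀ x e, NW ω Finset.univ x e → x ∈ Rg ω r ∨ e ∈ Rg ω r → NW ω (Rg ω r) x e) ∧
    (∀ x ∈ Rg ω r, ∀ y ∈ Rg ω r, Conn (Rg ω r) x y)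

/-- P1 (5.3 and Theorem Q): the region of a source ends in some `x_b` or `y_b`. -/
def FinEnd : Prop := ∀ (P : Type) [Fintype P] [PartialOrder P] (ω : P → ℕ), Mini ω →
  ¬ LocSkew ω → ∀ r, Src ω r → TypeX ω r ∨ TypeY ω r

/-- R: the complement of `R`. -/
def FinRR : Prop := ∀ (P : Type) [Fintype P] [PartialOrder P] (ω : P → ℕ), Mini ω →
  Finset.univ \ factR ω = Intr ω ∪ Xm ω ∧ Disjoint (Intr ω) (Xm ω) ∧
    Skw ω (Intr ω ∪ Xm ω) ∧ (∀ x ∈ Xm ω, ∀ z ∈ Intr ω ∪ Xm ω, ¬ x < z ∧ ¬ z < x) ∧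
    (∀ r, Src ω r → r ∈ factR ω) ∧ (Xm ω).card = (Xm (tr ω)).card

/-- F: the forest. The hypothesis on weak extras holds by `Fin52` for `tr ω`. -/
def FinFor : Prop := ∀ (P : Type) [Fintype P] [PartialOrder P] (ω : P → ℕ), Mini ω →
  (∀ i M, XW ω i M → i ∉ factR ω) →
  (Finset.univ.filter fun r => Src ω r).card = frc ω (factR ω) ∧
  (∀ e ∈ factR ω, ∃ r, Src ω r ∧ e ∈ Tr ω r) ∧
  (∀ e r r', Src ω r → Src ω r' → e ∈ Tr ω r → e ∈ Tr ω r' → r = r') ∧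
  (∀ r, Src ω r → r ∈ Tr ω r) ∧
  (∀ X ⊆ factR ω, Finset.univ \ X ∈ idl (Finset.univ : Finset P) →
    (Finset.univ.filter fun r => Src ω r ∧ ∃ e ∈ X, e ∈ Tr ω r).card ≤ frc ω X) ∧
  (∀ r, Src ω r → (∀ i M, XS ω i M → M ∉ Tr ω r) →
    Finset.univ \ (factR ω \ Tr ω r) ∈ idl (Finset.univ : Finset P) ∧
    frc ω (factR ω \ Tr ω r) + 1 = frc ω (factR ω) ∧
    BS ω (factR ω \ Tr ω r) = BS ω (factR ω) \ Tr ω r ∧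
    TpW ω (factR ω \ Tr ω r) = TpW ω (factR ω) \ Tr ω r)

/-- T: trees and regions. -/
def FinTree : Prop := ∀ (P : Type) [Fintype P] [PartialOrder P] (ω : P → ℕ), Mini ω →
  ∀ r, Src ω r →
    (∀ x ∈ Rg ω r, ∀ b y, Merger ω x b y →
      Tr ω r = (Rg ω r \ Intr ω).erase x ∧ x ∈ Rg ω r \ Intr ω) ∧
    (TypeY ω r → lG ω r + 1 ≤ (Tr ω r).card)

/-- Q: the ideal `Q_r` for a region from a source to `x = x_b`. -/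
def FinQr : Prop := ∀ (P : Type) [Fintype P] [PartialOrder P] (ω : P → ℕ), Mini ω →
  (∀ i M, XW ω i M → i ∉ factR ω) → ∀ r, Src ω r → ∀ x ∈ Rg ω r, ∀ b y, Merger ω x b y →
    (∀ i M, XS ω i M → M ∉ Rg ω r) ∧ (∀ i M, XW ω i M → M ∉ Rg ω r) ∧
    Skw ω (Qr ω r) ∧ Rg ω r ∈ comps (Qr ω r) ∧ serim ω (Rg ω r) = Rg ω r \ Intr ω ∧
    Qr ω r \ serim ω (Rg ω r) = Intr ω ∪ (Xm ω).erase x ∧
    strc ω (serim ω (Rg ω r)) = (BS ω (factR ω) ∩ Tr ω r).card + 1 ∧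
    strc (tr ω) (serim ω (Rg ω r)) = (TpW ω (factR ω) ∩ Tr ω r).card

/-- C: the coefficient of `(STAR)` at the level `|R| - (m - 1)`. -/
def FinCoef : Prop := ∀ (P : Type) [Fintype P] [PartialOrder P] (ω : P → ℕ), Mini ω →
  (∀ i M, XW ω i M → i ∉ factR ω) → (∀ i M, XS ω i M → i ∉ factR (tr ω)) → ∀ m : ℕ, 2 ≤ m →
  (∀ r, Src ω r → m ≤ (Tr ω r).card + 1) → (∀ r, Src (tr ω) r → m ≤ (Tr (tr ω) r).card + 1) →
  (∀ r, Src ω r → (Tr ω r).card + 1 = m → ∀ i M, XS ω i M → M ∉ Tr ω r) →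
  (∀ r, Src (tr ω) r → (Tr (tr ω) r).card + 1 = m → ∀ i M, XW ω i M → M ∉ Tr (tr ω) r) →
  ∀ F ∈ HH ℤ ω,
    ∑ r ∈ Finset.univ.filter (fun r => Src ω r ∧ (Tr ω r).card + 1 = m),
      (-1) ^ (BS ω (factR ω \ Tr ω r)).card * F (Finset.univ \ (factR ω \ Tr ω r)) =
    ∑ r ∈ Finset.univ.filter (fun r => Src (tr ω) r ∧ (Tr (tr ω) r).card + 1 = m),
      (-1) ^ (TpW (tr ω) (factR (tr ω) \ Tr (tr ω) r)).card *
        F (Finset.univ \ (factR (tr ω) \ Tr (tr ω) r))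

/-- K: the contradiction. -/
def FinKey : Prop := ∀ (P : Type) [Fintype P] [PartialOrder P] (ω : P → ℕ), Mini ω →
  ¬ LocSkew ω → ∀ m, (∀ r, Src ω r → m ≤ lG ω r) → (∀ r, Src (tr ω) r → m ≤ lG (tr ω) r) →
  ((∃ r, Src ω r ∧ TypeX ω r ∧ lG ω r = m) ∨
    ∃ r, Src (tr ω) r ∧ TypeX (tr ω) r ∧ lG (tr ω) r = m) → False

/-- E: reversal and regions. -/
def FinLen : Prop := ∀ (P : Type) [Fintype P] [PartialOrder P] (ω : P → ℕ), Mini ω → ∀ r : P,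
  (Src ω r → lG (tr (rv ω)) (OrderDual.toDual r) = lG ω r ∧
    (TypeX (tr (rv ω)) (OrderDual.toDual r) ↔ TypeY ω r)) ∧
  (Src (tr ω) r → lG (rv ω) (OrderDual.toDual r) = lG (tr ω) r ∧
    (TypeX (rv ω) (OrderDual.toDual r) ↔ TypeY (tr ω) r))

/-- Z: the theorem. -/
def FinMain : Prop := ∀ (P : Type) [Fintype P] [PartialOrder P] (ω : P → ℕ), Mini ω → LocSkew ω

end Pool.Agent.ST14
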