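import Pool.Agent.ST14.KapMono

/-!
Numbers of linear extensions: disjoint unions, order isomorphisms, and the polynomial identities for
section 4 (free components).
-/

set_option autoImplicit false

namespace Pool.Agent.ST14

open scoped Classical

namespace Fre

section lin

variable {P : Type} [PartialOrder P]

/-- minimal elements -/
noncomputable def mins (X : Finset P) : Finset P := X.filter fun m => ∀ z ∈ X, ¬ z < m

theorem mem_mins {X : Finset P} {m : P} : m ∈ mins X ↔ m ∈ X ∧ ∀ z ∈ X, ¬ z < m := by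
  unfold mins
  rw [Finset.mem_filter]

/-- number of linear extensions divided by the factorial of the size -/
noncomputable def lin (ω : P → ℕ) (X : Finset P) : ℚ :=
  (kap ω X (List.replicate X.card 1) : ℚ) / (X.card.factorial : ℚ)

theorem kap_sum (ω : P → ℕ) (w : List ℕ) : ∀ X : Finset P, kap ω X w ≠ 0 → w.sum = X.card := by
  induction w with
  | nil =>
    intro X h
    rw [kap_nil] at h
    split_ifs at h with hX
    · rw [hX]; rfl
    · exact absurd rfl h
  | cons a w ih =>
    intro X h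
    rw [kap_cons] at h
    obtain ⟨I, hI, hne⟩ := Finset.exists_ne_zero_of_sum_ne_zero h
    rw [Finset.mem_filter] at hI
    have h1 := ih _ hne
    have h2 := subset_of_mem_idl hI.1
    have h3 := Finset.card_le_card h2
    rw [Finset.card_sdiff_of_subset h2] at h1
    rw [List.sum_cons, h1, ← hI.2.1]
    omega

theorem kap_one (ω : P → ℕ) (X : Finset P) (w : List ℕ) :
    kap ω X (1 :: w) = ∑ m ∈ mins X, kap ω (X.erase m) w := by
  rw [kap_cons]
  symm
  refine Finset.sum_bij (fun m _ => {m}) ?_ ?_ ?_ ?_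
  · intro m hm
    rw [mem_mins] at hm
    rw [Finset.mem_filter]
    refine ⟨mem_idl.2 ⟨Finset.singleton_subset_iff.2 hm.1, ?_⟩, Finset.card_singleton m, ?_⟩
    · intro x hx y hy hxy
      rw [Finset.mem_singleton] at hy ⊢
      subst hy
      rcases hxy.eq_or_lt with h | h
      · exact h
      · exact absurd h (hm.2 x hx)
    · intro x hx y hy hxy
      rw [Finset.mem_singleton] at hx hy
      subst hx; subst hy
      exact absurd hxy (lt_irrefl _)
  · intro a _ b _ h
    exact Finset.singleton_injective h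
  · intro I hI
    rw [Finset.mem_filter] at hI
    obtain ⟨m, rfl⟩ := Finset.card_eq_one.1 hI.2.1
    refine ⟨m, ?_, rfl⟩
    rw [mem_mins]
    have h1 := mem_idl.1 hI.1
    refine ⟨h1.1 (Finset.mem_singleton_self m), ?_⟩
    intro z hz hlt
    have := h1.2 z hz m (Finset.mem_singleton_self m) hlt.le
    rw [Finset.mem_singleton] at this
    exact absurd this hlt.ne
  · intro m _
    rw [Finset.erase_eq]

theorem lin_rec (ω : P → ℕ) (X : Finset P) :
    (X.card : ℚ) * lin ω X = ∑ m ∈ mins X, lin ω (X.erase m) := by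
  rcases X.eq_empty_or_nonempty with h | h
  · subst h
    simp [mins]
  · obtain ⟨n, hn⟩ : ∃ n, X.card = n + 1 := ⟨X.card - 1, by have := h.card_pos; omega⟩
    unfold lin
    rw [hn, List.replicate_succ, kap_one, Nat.cast_sum, Finset.sum_div, Finset.mul_sum]
    refine Finset.sum_congr rfl fun m hm => ?_
    have hmX : m ∈ X := (mem_mins.1 hm).1
    have h2 : (X.erase m).card = n := by rw [Finset.card_erase_of_mem hmX, hn]; rfl
    rw [h2, Nat.factorial_succ]
    push_cast
    have h3 : (n.factorial : ℚ) ≠ 0 := by exact_mod_cast n.factorial_ne_zero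
    have h4 : (n : ℚ) + 1 ≠ 0 := by positivity
    field_simp

theorem lin_empty (ω : P → ℕ) : lin ω (∅ : Finset P) = 1 := by
  unfold lin
  rw [Finset.card_empty, List.replicate_zero, kap_nil, if_pos rfl]
  simp

theorem lin_pos (ω : P → ℕ) (X : Finset P) : 0 < lin ω X := by
  unfold lin
  have h := KM.kap_ones_pos ω X.card X rfl
  have h1 : (0 : ℚ) < (kap ω X (List.replicate X.card 1) : ℚ) := by exact_mod_cast h
  have h2 : (0 : ℚ) < (X.card.factorial : ℚ) := by exact_mod_cast X.card.factorial_pos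
  exact div_pos h1 h2

theorem lin_union (ω : P → ℕ) : ∀ (n : ℕ) (X Y : Finset P), X.card + Y.card = n →
    (∀ x ∈ X, ∀ y ∈ Y, ¬ x ≤ y ∧ ¬ y ≤ x) → lin ω (X ∪ Y) = lin ω X * lin ω Y := by
  intro n
  induction n with
  | zero =>
    intro X Y h _
    have h1 : X = ∅ := Finset.card_eq_zero.1 (by omega)
    have h2 : Y = ∅ := Finset.card_eq_zero.1 (by omega)
    subst h1; subst h2
    rw [Finset.union_empty, lin_empty, one_mul]
  | succ n ih =>
    intro X Y h hXY
    have hd : Disjoint X Y := by
      rw [Finset.disjoint_left]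
      intro x hx hy
      exact (hXY x hx x hy).1 le_rfl
    have hcard : (X ∪ Y).card = n + 1 := by rw [Finset.card_union_of_disjoint hd, h]
    have hm : mins (X ∪ Y) = mins X ∪ mins Y := by
      ext m
      rw [Finset.mem_union, mem_mins, mem_mins, mem_mins]
      constructor
      · rintro ⟨h1, h2⟩
        rcases Finset.mem_union.1 h1 with h3 | h3
        · exact Or.inl ⟨h3, fun z hz => h2 z (Finset.mem_union_left _ hz)⟩
        · exact Or.inr ⟨h3, fun z hz => h2 z (Finset.mem_union_right _ hz)⟩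
      · rintro (⟨h1, h2⟩ | ⟨h1, h2⟩)
        · refine ⟨Finset.mem_union_left _ h1, fun z hz hlt => ?_⟩
          rcases Finset.mem_union.1 hz with h3 | h3
          · exact h2 z h3 hlt
          · exact (hXY m h1 z h3).2 hlt.le
        · refine ⟨Finset.mem_union_right _ h1, fun z hz hlt => ?_⟩
          rcases Finset.mem_union.1 hz with h3 | h3
          · exact (hXY z h3 m h1).1 hlt.le
          · exact h2 z h3 hlt
    have hmd : Disjoint (mins X) (mins Y) := by
      rw [Finset.disjoint_left]
      intro x hx hy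
      exact (hXY x (mem_mins.1 hx).1 x (mem_mins.1 hy).1).1 le_rfl
    have h1 := lin_rec ω (X ∪ Y)
    rw [hm, Finset.sum_union hmd, hcard] at h1
    have h2 : ∑ m ∈ mins X, lin ω ((X ∪ Y).erase m) = (X.card : ℚ) * lin ω X * lin ω Y := by
      rw [lin_rec, Finset.sum_mul]
      refine Finset.sum_congr rfl fun m hm => ?_
      have hmX : m ∈ X := (mem_mins.1 hm).1
      have hmY : m ∉ Y := fun h3 => Finset.disjoint_left.1 hd hmX h3
      have h3 : (X ∪ Y).erase m = X.erase m ∪ Y := by
        rw [Finset.erase_union_distrib, Finset.erase_eq_of_notMem hmY]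
      rw [h3]
      refine ih _ _ ?_ ?_
      · rw [Finset.card_erase_of_mem hmX]
        have := Finset.card_pos.2 ⟨m, hmX⟩
        omega
      · intro x hx y hy
        exact hXY x (Finset.mem_of_mem_erase hx) y hy
    have h3 : ∑ m ∈ mins Y, lin ω ((X ∪ Y).erase m) = (Y.card : ℚ) * lin ω X * lin ω Y := by
      have h4 : (Y.card : ℚ) * lin ω X * lin ω Y = lin ω X * ((Y.card : ℚ) * lin ω Y) := by ring
      rw [h4, lin_rec, Finset.mul_sum]
      refine Finset.sum_congr rfl fun m hm => ?_
      have hmY : m ∈ Y := (mem_mins.1 hm).1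
      have hmX : m ∉ X := fun h3 => Finset.disjoint_left.1 hd h3 hmY
      have h3 : (X ∪ Y).erase m = X ∪ Y.erase m := by
        rw [Finset.erase_union_distrib, Finset.erase_eq_of_notMem hmX]
      rw [h3]
      refine ih _ _ ?_ ?_
      · rw [Finset.card_erase_of_mem hmY]
        have := Finset.card_pos.2 ⟨m, hmY⟩
        omega
      · intro x hx y hy
        exact hXY x hx y (Finset.mem_of_mem_erase hy)
    rw [h2, h3] at h1
    have h4 : ((n + 1 : ℕ) : ℚ) ≠ 0 := by positivity
    have h5 : (X.card : ℚ) + (Y.card : ℚ) = ((n + 1 : ℕ) : ℚ) := by exact_mod_cast h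
    have h6 : ((n + 1 : ℕ) : ℚ) * lin ω (X ∪ Y) = ((n + 1 : ℕ) : ℚ) * (lin ω X * lin ω Y) := by
      rw [h1, ← h5]
      ring
    exact mul_left_cancel₀ h4 h6

theorem lin_image (ω : P → ℕ) (φ : P → P) : ∀ (n : ℕ) (X : Finset P), X.card = n →
    (∀ x ∈ X, ∀ y ∈ X, φ x = φ y → x = y) →
    (∀ x ∈ X, ∀ y ∈ X, (x < y ↔ φ x < φ y)) → lin ω (X.image φ) = lin ω X := by
  intro n
  induction n with
  | zero =>
    intro X h _ _
    have h1 : X = ∅ := Finset.card_eq_zero.1 (by omega)
    subst h1
    rw [Finset.image_empty]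
  | succ n ih =>
    intro X h hinj hlt
    have hinj' : Set.InjOn φ (X : Set P) := fun x hx y hy h => hinj x hx y hy h
    have hcard : (X.image φ).card = n + 1 := by rw [Finset.card_image_of_injOn hinj', h]
    have hm : mins (X.image φ) = (mins X).image φ := by
      ext z
      rw [mem_mins, Finset.mem_image, Finset.mem_image]
      constructor
      · rintro ⟨⟨m, hm, rfl⟩, h2⟩
        refine ⟨m, mem_mins.2 ⟨hm, fun z hz hzm => ?_⟩, rfl⟩
        exact h2 (φ z) (Finset.mem_image_of_mem φ hz) ((hlt z hz m hm).1 hzm)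
      · rintro ⟨m, hm, rfl⟩
        rw [mem_mins] at hm
        refine ⟨⟨m, hm.1, rfl⟩, fun z hz hzm => ?_⟩
        obtain ⟨y, hy, rfl⟩ := Finset.mem_image.1 hz
        exact hm.2 y hy ((hlt y hy m hm.1).2 hzm)
    have h1 := lin_rec ω (X.image φ)
    have h2 := lin_rec ω X
    rw [hm, Finset.sum_image (fun x hx y hy h =>
      hinj x (mem_mins.1 hx).1 y (mem_mins.1 hy).1 h), hcard] at h1
    have h3 : ∑ m ∈ mins X, lin ω ((X.image φ).erase (φ m)) = ∑ m ∈ mins X, lin ω (X.erase m) := by
      refine Finset.sum_congr rfl fun m hm => ?_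
      have hmX : m ∈ X := (mem_mins.1 hm).1
      have h4 : (X.image φ).erase (φ m) = (X.erase m).image φ := by
        ext z
        rw [Finset.mem_erase, Finset.mem_image, Finset.mem_image]
        constructor
        · rintro ⟨h5, x, hx, rfl⟩
          refine ⟨x, Finset.mem_erase.2 ⟨fun he => h5 (by rw [he]), hx⟩, rfl⟩
        · rintro ⟨x, hx, rfl⟩
          rw [Finset.mem_erase] at hx
          exact ⟨fun he => hx.1 (hinj x hx.2 m hmX he), x, hx.2, rfl⟩
      rw [h4]
      refine ih _ ?_ ?_ ?_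
      · rw [Finset.card_erase_of_mem hmX, h]
        rfl
      · intro x hx y hy
        exact hinj x (Finset.mem_of_mem_erase hx) y (Finset.mem_of_mem_erase hy)
      · intro x hx y hy
        exact hlt x (Finset.mem_of_mem_erase hx) y (Finset.mem_of_mem_erase hy)
    rw [h3, ← h2, h] at h1
    have h4 : ((n + 1 : ℕ) : ℚ) ≠ 0 := by positivity
    exact mul_left_cancel₀ h4 h1

end lin

section poly

open Polynomial

theorem fam_sum {ι : Type} (F : Finset ι) (c : ι → ℕ) (a : ι → ℚ) (n : ℕ) (E : ℚ)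
    (hc : ∀ U ∈ F, c U ≤ n) (h : ∀ j ≤ n, ∑ U ∈ F.filter (fun U => c U = j), a U = E) :
    ∑ U ∈ F, C (a U / ((c U).factorial : ℚ) / ((n - c U).factorial : ℚ)) *
      ((X : ℚ[X]) ^ c U * (1 - X) ^ (n - c U)) = C (E / (n.factorial : ℚ)) := by
  have hmap : ∀ U ∈ F, c U ∈ Finset.range (n + 1) := fun U hU =>
    Finset.mem_range.2 (Nat.lt_succ_of_le (hc U hU))
  rw [← Finset.sum_fiberwise_of_maps_to hmap]
  have h1 : ∀ j ∈ Finset.range (n + 1), ∑ U ∈ F.filter (fun U => c U = j),
      C (a U / ((c U).factorial : ℚ) / ((n - c U).factorial : ℚ)) *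
      ((X : ℚ[X]) ^ c U * (1 - X) ^ (n - c U)) =
      C (E / (n.factorial : ℚ)) * (X ^ j * (1 - X) ^ (n - j) * ((n.choose j : ℕ) : ℚ[X])) := by
    intro j hj
    have hjn : j ≤ n := Nat.lt_succ_iff.1 (Finset.mem_range.1 hj)
    have h2 : ∑ U ∈ F.filter (fun U => c U = j),
        C (a U / ((c U).factorial : ℚ) / ((n - c U).factorial : ℚ)) *
        ((X : ℚ[X]) ^ c U * (1 - X) ^ (n - c U)) =
        ∑ U ∈ F.filter (fun U => c U = j), C (a U) *
          (C (1 / ((j.factorial : ℚ) * ((n - j).factorial : ℚ))) * (X ^ j * (1 - X) ^ (n - j))) := by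
      refine Finset.sum_congr rfl fun U hU => ?_
      rw [(Finset.mem_filter.1 hU).2, ← mul_assoc (C (a U)), ← C_mul]
      congr 2
      rw [div_div, mul_one_div]
    rw [h2, ← Finset.sum_mul, ← map_sum, h j hjn, ← mul_assoc (C E), ← C_mul]
    have h3 : ((n.choose j : ℕ) : ℚ[X]) = C ((n.choose j : ℕ) : ℚ) := by
      rw [map_natCast]
    rw [h3, mul_comm (X ^ j * (1 - X) ^ (n - j)) (C _), ← mul_assoc (C (E / _)), ← C_mul]
    congr 2
    have h4 := Nat.choose_mul_factorial_mul_factorial hjn
    have h5 : ((n.choose j : ℕ) : ℚ) * (j.factorial : ℚ) * ((n - j).factorial : ℚ) =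
        (n.factorial : ℚ) := by exact_mod_cast h4
    have h6 : (j.factorial : ℚ) ≠ 0 := by exact_mod_cast j.factorial_ne_zero
    have h7 : ((n - j).factorial : ℚ) ≠ 0 := by exact_mod_cast (n - j).factorial_ne_zero
    have h8 : ((n.choose j : ℕ) : ℚ) ≠ 0 := by
      exact_mod_cast (Nat.choose_pos hjn).ne'
    rw [← h5]
    field_simp
  rw [Finset.sum_congr rfl h1, ← Finset.mul_sum, ← add_pow]
  have h9 : (X : ℚ[X]) + (1 - X) = 1 := by ring
  rw [h9, one_pow, mul_one]

end poly

end Fre

end Pool.Agent.ST14
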