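import Pool.Agent.ST14.RimStmts
import Pool.Agent.ST14.St9

/-!
Theorem RP (reachable pairs).
-/

set_option autoImplicit false

namespace Pool.Agent.ST14

open scoped Classical

/-- The counting argument. -/
theorem rp_count {I K : Type} [Fintype I] [Fintype K] (hc : Fintype.card I = Fintype.card K)
    (g : I → Prop) (a : I → List ℕ → ℤ) (t : I → List ℕ) (b : K → List ℕ → ℤ) (l : List ℕ)
    (e0 : ℤ) (he : e0 ≠ 0) (Pos : List ℕ → Prop)
    (ht : ∀ i, g i → Pos (t i) ∧ (∀ μ, Pos μ → t i < μ → a i μ = 0) ∧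
      a i (t i) = e0 * (mlt (t i) : ℤ) ∧ 0 < mlt (t i))
    (hb : ∀ k, Pos l ∧ (∀ μ, Pos μ → l < μ → b k μ = 0) ∧ b k l = e0 * (mlt l : ℤ) ∧ 0 < mlt l)
    (hid : ∀ μ, Pos μ → ∑ i ∈ Finset.univ.filter g, a i μ = ∑ k, b k μ) :
    ∀ i, g i ∧ t i = l := by
  intro i₁
  have hKI : Nonempty K := by
    have : 0 < Fintype.card K := hc ▸ Fintype.card_pos_iff.2 ⟨i₁⟩
    exact Fintype.card_pos_iff.1 this
  obtain ⟨k₁⟩ := hKI
  obtain ⟨hPl, -, -, hml⟩ := hb k₁
  -- all tops are at most `l`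
  have hle : ∀ i, g i → t i ≤ l := by
    intro i hi
    by_contra hcon
    obtain ⟨i0, hi0, hmax⟩ := Finset.exists_max_image (Finset.univ.filter g) t
      ⟨i, Finset.mem_filter.2 ⟨Finset.mem_univ _, hi⟩⟩
    have hg0 : g i0 := (Finset.mem_filter.1 hi0).2
    have hlt : l < t i0 := lt_of_lt_of_le (not_le.1 hcon)
      (hmax i (Finset.mem_filter.2 ⟨Finset.mem_univ _, hi⟩))
    obtain ⟨hP0, -, -, hm0⟩ := ht i0 hg0
    have h1 := hid (t i0) hP0
    have h2 : ∑ k, b k (t i0) = 0 := Finset.sum_eq_zero fun k _ => (hb k).2.1 _ hP0 hlt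
    rw [h2] at h1
    have h3 : ∀ j ∈ Finset.univ.filter g, a j (t i0) =
        if t j = t i0 then e0 * (mlt (t i0) : ℤ) else 0 := by
      intro j hj
      have hgj : g j := (Finset.mem_filter.1 hj).2
      obtain ⟨-, hz, he1, -⟩ := ht j hgj
      split_ifs with h
      · rw [← h]; exact he1
      · exact hz _ hP0 (lt_of_le_of_ne (hmax j hj) h)
    rw [Finset.sum_congr rfl h3, ← Finset.sum_filter, Finset.sum_const, nsmul_eq_mul] at h1
    have h4 : ((Finset.filter (fun j => t j = t i0) (Finset.univ.filter g)).card : ℤ) ≠ 0 := by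
      have : i0 ∈ Finset.filter (fun j => t j = t i0) (Finset.univ.filter g) :=
        Finset.mem_filter.2 ⟨hi0, rfl⟩
      exact_mod_cast (Finset.card_pos.2 ⟨i0, this⟩).ne'
    have h5 : (e0 * (mlt (t i0) : ℤ)) ≠ 0 := mul_ne_zero he (by exact_mod_cast hm0.ne')
    exact (mul_ne_zero h4 h5) h1
  have h1 := hid l hPl
  have h2 : ∑ k, b k l = (Fintype.card K : ℤ) * (e0 * (mlt l : ℤ)) := by
    rw [Finset.sum_congr rfl fun k _ => (hb k).2.2.1, Finset.sum_const, nsmul_eq_mul,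
      Finset.card_univ]
  have h3 : ∀ j ∈ Finset.univ.filter g, a j l =
      if t j = l then e0 * (mlt l : ℤ) else 0 := by
    intro j hj
    have hgj : g j := (Finset.mem_filter.1 hj).2
    obtain ⟨-, hz, he1, -⟩ := ht j hgj
    split_ifs with h
    · rw [← h]; exact he1
    · exact hz _ hPl (lt_of_le_of_ne (hle j hgj) h)
  rw [h2, Finset.sum_congr rfl h3, ← Finset.sum_filter, Finset.sum_const, nsmul_eq_mul] at h1
  have h5 : (e0 * (mlt l : ℤ)) ≠ 0 := mul_ne_zero he (by exact_mod_cast hml.ne')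
  have h6 := mul_right_cancel₀ h5 h1
  have h7 : (Finset.filter (fun j => t j = l) (Finset.univ.filter g)).card = Fintype.card I := by
    rw [hc]; exact_mod_cast h6
  have h8 : Finset.filter (fun j => t j = l) (Finset.univ.filter g) = Finset.univ := by
    apply Finset.eq_univ_of_card
    exact h7
  have h9 : i₁ ∈ Finset.filter (fun j => t j = l) (Finset.univ.filter g) := by
    rw [h8]; exact Finset.mem_univ _
  rw [Finset.mem_filter, Finset.mem_filter] at h9
  exact ⟨h9.1.2, h9.2⟩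


section nofin

variable {P : Type} [PartialOrder P] {ω : P → ℕ}

theorem rp_nwrim_sub {Q T : Finset P} (hT : T ∈ comps Q) : nwrim ω T ⊆ Q := by
  intro x hx
  have h1 : x ∈ T := (Finset.mem_filter.1 hx).1
  obtain ⟨y, -, rfl⟩ := Finset.mem_image.1 hT
  exact (Finset.mem_filter.1 h1).1

theorem rp_serim_sub {Q T : Finset P} (hT : T ∈ comps Q) : serim ω T ⊆ Q := by
  intro x hx
  have h1 : x ∈ T := (Finset.mem_filter.1 hx).1
  obtain ⟨y, -, rfl⟩ := Finset.mem_image.1 hT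
  exact (Finset.mem_filter.1 h1).1

end nofin

section main

variable {P : Type} [Fintype P] [PartialOrder P] {ω : P → ℕ} {N S : P → P}

theorem rp_empty_good : (∅ : Finset P) ∈ good ω N := by
  rw [mem_good]
  refine ⟨empty_mem_idl _, ?_⟩
  ext x
  rw [mem_TS]
  simp

theorem rp_AA_good (hn : Net ω N S) : AA ω ∈ good ω N := by
  rw [mem_good]
  refine ⟨self_mem_idl _, Finset.Subset.antisymm ?_ (hn.image_sub (Finset.Subset.refl _))⟩
  intro x hx
  obtain ⟨u, -, hu⟩ := mem_TS.1 hx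
  have hxC : x ∈ CC ω := Finset.mem_filter.2 ⟨Finset.mem_univ _, u, hu⟩
  have h1 := hn.S_cov x hxC
  have h2 : S x ∈ AA ω := Finset.mem_filter.2 ⟨Finset.mem_univ _, x, LL_of_sCov le_rfl h1 le_rfl⟩
  exact Finset.mem_image.2 ⟨S x, h2, hn.NS x hxC⟩

theorem rp_good_sub {U : Finset P} (hU : U ∈ good ω N) : U ⊆ AA ω :=
  subset_of_mem_idl (mem_good.1 hU).1

theorem rp_image_sdiff (hn : Net ω N S) {U V : Finset P} (hU : U ⊆ AA ω) (hV : V ⊆ AA ω) :
    (U \ V).image N = U.image N \ V.image N := by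
  ext x
  simp only [Finset.mem_image, Finset.mem_sdiff]
  constructor
  · rintro ⟨u, ⟨h1, h2⟩, rfl⟩
    refine ⟨⟨u, h1, rfl⟩, ?_⟩
    rintro ⟨v, hv, he⟩
    exact h2 (hn.injOn (Finset.mem_coe.2 (hV hv)) (Finset.mem_coe.2 (hU h1)) he ▸ hv)
  · rintro ⟨⟨u, h1, rfl⟩, h2⟩
    exact ⟨u, ⟨h1, fun h3 => h2 ⟨u, h3, rfl⟩⟩, rfl⟩

theorem rp_image_idl (hn : Net ω N S) {V U W : Finset P} (hV : V ⊆ AA ω)
    (hU : U ∈ good ω N) (hVU : V ⊆ U) (hUW : U ⊆ W) (hW : W ⊆ AA ω) :
    (U \ V).image N ∈ idl ((W \ V).image N) := by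
  rw [mem_idl]
  refine ⟨Finset.image_subset_image (Finset.sdiff_subset_sdiff hUW (Finset.Subset.refl _)), ?_⟩
  intro x hx y hy hxy
  rw [rp_image_sdiff hn (rp_good_sub hU) hV, Finset.mem_sdiff] at hy ⊢
  rw [rp_image_sdiff hn hW hV, Finset.mem_sdiff] at hx
  refine ⟨?_, hx.2⟩
  rw [← (mem_good.1 hU).2] at hy ⊢
  obtain ⟨u, hu, hyu⟩ := mem_TS.1 hy.1
  exact mem_TS.2 ⟨u, hu, hyu.mono hxy le_rfl⟩

/-- The bilinear form `S_{V,W}`. -/
noncomputable def SS (ω : P → ℕ) (N : P → P) (V W : Finset P) (F G : Conv P ℤ) : ℤ :=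
  ∑ U ∈ (good ω N).filter (fun U => V ⊆ U ∧ U ⊆ W), F ((U \ V).image N) * G (W \ U)

theorem rp_SS_one_left (V W : Finset P) (hVW : V ⊆ W) (G : Conv P ℤ) :
    SS ω N V W 1 G = if V ∈ good ω N then G (W \ V) else 0 := by
  unfold SS
  have h1 : ∀ U ∈ (good ω N).filter (fun U => V ⊆ U ∧ U ⊆ W),
      (1 : Conv P ℤ) ((U \ V).image N) * G (W \ U) = if U = V then G (W \ V) else 0 := by
    intro U hU
    obtain ⟨-, hVU, -⟩ := Finset.mem_filter.1 hU
    rw [Conv.one_apply]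
    by_cases h : U = V
    · subst h
      simp
    · have h2 : (U \ V).image N ≠ ∅ := by
        intro h3
        rw [Finset.image_eq_empty, Finset.sdiff_eq_empty_iff_subset] at h3
        exact h (Finset.Subset.antisymm h3 hVU)
      rw [if_neg h2, if_neg h, zero_mul]
  rw [Finset.sum_congr rfl h1, Finset.sum_ite_eq']
  by_cases hV : V ∈ good ω N
  · rw [if_pos hV, if_pos (Finset.mem_filter.2 ⟨hV, Finset.Subset.refl _, hVW⟩)]
  · rw [if_neg hV, if_neg (fun h => hV (Finset.mem_filter.1 h).1)]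

theorem rp_SS_one_right (V W : Finset P) (hVW : V ⊆ W) (F : Conv P ℤ) :
    SS ω N V W F 1 = if W ∈ good ω N then F ((W \ V).image N) else 0 := by
  unfold SS
  have h1 : ∀ U ∈ (good ω N).filter (fun U => V ⊆ U ∧ U ⊆ W),
      F ((U \ V).image N) * (1 : Conv P ℤ) (W \ U) =
        if U = W then F ((W \ V).image N) else 0 := by
    intro U hU
    obtain ⟨-, -, hUW⟩ := Finset.mem_filter.1 hU
    rw [Conv.one_apply]
    by_cases h : U = W
    · subst h
      simp
    · have h2 : W \ U ≠ ∅ := by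
        intro h3
        rw [Finset.sdiff_eq_empty_iff_subset] at h3
        exact h (Finset.Subset.antisymm hUW h3)
      rw [if_neg h2, if_neg h, mul_zero]
  rw [Finset.sum_congr rfl h1, Finset.sum_ite_eq']
  by_cases hW : W ∈ good ω N
  · rw [if_pos hW, if_pos (Finset.mem_filter.2 ⟨hW, hVW, Finset.Subset.refl _⟩)]
  · rw [if_neg hW, if_neg (fun h => hW (Finset.mem_filter.1 h).1)]

/-- LEFT identity. -/
theorem rp_left_id (hS : Strip) (hD : DepthStmt) (hM : Mini ω) (hn : Net ω N S)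
    {V W : Finset P} (hV : V ∈ good ω N) (hW : W ∈ good ω N) (hVW : V ⊆ W) {L : ℕ} (hL : 0 < L)
    (hmax : ∀ T ∈ comps ((W \ V).image N), (nwrim ω T).card ≤ L) (F G : Conv P ℤ) :
    SS ω N V W (psi ω L * F) G =
      ∑ σ ∈ (comps ((W \ V).image N)).filter (fun T => (nwrim ω T).card = L),
        (-1) ^ strc ω (nwrim ω σ) * SS ω N (V ∪ (nwrim ω σ).image S) W F G := by
  obtain ⟨-, hSk, -⟩ := hD P ω hM N S hn V hV W hW hVW
  have hVA := rp_good_sub hV
  have hWA := rp_good_sub hW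
  unfold SS
  have h1 : ∀ U ∈ (good ω N).filter (fun U => V ⊆ U ∧ U ⊆ W),
      (psi ω L * F) ((U \ V).image N) * G (W \ U) =
      ∑ σ ∈ (comps ((W \ V).image N)).filter (fun T => (nwrim ω T).card = L),
        if nwrim ω σ ⊆ (U \ V).image N then
          (-1) ^ strc ω (nwrim ω σ) * (F ((U \ (V ∪ (nwrim ω σ).image S)).image N) * G (W \ U))
        else 0 := by
    intro U hU
    obtain ⟨hUg, hVU, hUW⟩ := Finset.mem_filter.1 hU
    have hK : (U \ V).image N ∈ idl ((W \ V).image N) := rp_image_idl hn hVA hUg hVU hUW hWA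
    rw [(hS P ω hM.inj _ hSk L hL).1 hmax _ hK F, Finset.sum_mul, ← Finset.sum_filter,
      Finset.filter_filter]
    apply Finset.sum_congr rfl
    intro σ hσ
    rw [mul_assoc]
    congr 3
    -- the sets
    obtain ⟨hσc, -, hσs⟩ := Finset.mem_filter.1 hσ
    have hUA := rp_good_sub hUg
    ext z
    simp only [Finset.mem_sdiff, Finset.mem_image, Finset.mem_union]
    constructor
    · rintro ⟨⟨u, ⟨huU, huV⟩, rfl⟩, hz⟩
      refine ⟨u, ⟨huU, ?_⟩, rfl⟩
      rintro (h | ⟨y, hy, he⟩)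
      · exact huV h
      · have hyi := hσs hy
        obtain ⟨u', hu', rfl⟩ := Finset.mem_image.1 hyi
        have hu'A := hUA (Finset.mem_sdiff.1 hu').1
        rw [hn.SN u' hu'A] at he
        subst he
        exact hz hy
    · rintro ⟨u, ⟨huU, huV⟩, rfl⟩
      refine ⟨⟨u, ⟨huU, fun h => huV (Or.inl h)⟩, rfl⟩, ?_⟩
      intro hz
      exact huV (Or.inr ⟨N u, hz, hn.SN u (hUA huU)⟩)
  rw [Finset.sum_congr rfl h1, Finset.sum_comm]
  apply Finset.sum_congr rfl
  intro σ hσ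
  obtain ⟨hσc, -⟩ := Finset.mem_filter.1 hσ
  have hσs := rp_nwrim_sub (ω := ω) hσc
  rw [Finset.mul_sum, ← Finset.sum_filter, Finset.filter_filter]
  apply Finset.sum_congr _ fun _ _ => rfl
  ext U
  simp only [Finset.mem_filter]
  constructor
  · rintro ⟨hU, ⟨hVU, hUW⟩, hs⟩
    refine ⟨hU, Finset.union_subset hVU ?_, hUW⟩
    intro x hx
    obtain ⟨y, hy, rfl⟩ := Finset.mem_image.1 hx
    obtain ⟨u, hu, rfl⟩ := Finset.mem_image.1 (hs hy)
    have huU := (Finset.mem_sdiff.1 hu).1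
    rw [hn.SN u (rp_good_sub hU huU)]
    exact huU
  · rintro ⟨hU, hVU, hUW⟩
    refine ⟨hU, ⟨(Finset.subset_union_left).trans hVU, hUW⟩, ?_⟩
    intro y hy
    obtain ⟨u, hu, rfl⟩ := Finset.mem_image.1 (hσs hy)
    obtain ⟨huW, huV⟩ := Finset.mem_sdiff.1 hu
    have h2 : S (N u) ∈ U := hVU (Finset.mem_union_right _ (Finset.mem_image_of_mem S hy))
    rw [hn.SN u (hWA huW)] at h2
    exact Finset.mem_image_of_mem N (Finset.mem_sdiff.2 ⟨h2, huV⟩)

/-- RIGHT identity. -/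
theorem rp_right_id (hS : Strip) (hD : DepthStmt) (hM : Mini ω) (hn : Net ω N S)
    {V W : Finset P} (hV : V ∈ good ω N) (hW : W ∈ good ω N) (hVW : V ⊆ W) {L : ℕ} (hL : 0 < L)
    (hmax : ∀ T ∈ comps (W \ V), (serim ω T).card ≤ L) (F G : Conv P ℤ) :
    SS ω N V W F (G * psi ω L) =
      ∑ τ ∈ (comps (W \ V)).filter (fun T => (serim ω T).card = L),
        (-1) ^ strc ω (serim ω τ) * SS ω N V (W \ serim ω τ) F G := by
  obtain ⟨hSk, -, -⟩ := hD P ω hM N S hn V hV W hW hVW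
  have hVA := rp_good_sub hV
  have hWA := rp_good_sub hW
  unfold SS
  have h1 : ∀ U ∈ (good ω N).filter (fun U => V ⊆ U ∧ U ⊆ W),
      F ((U \ V).image N) * (G * psi ω L) (W \ U) =
      ∑ τ ∈ (comps (W \ V)).filter (fun T => (serim ω T).card = L),
        if serim ω τ ⊆ W \ U then
          (-1) ^ strc ω (serim ω τ) * (F ((U \ V).image N) * G ((W \ serim ω τ) \ U))
        else 0 := by
    intro U hU
    obtain ⟨hUg, hVU, hUW⟩ := Finset.mem_filter.1 hU
    have hK : (W \ V) \ (W \ U) ∈ idl (W \ V) := by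
      rw [mem_idl]
      refine ⟨Finset.sdiff_subset, ?_⟩
      intro x hx y hy hxy
      simp only [Finset.mem_sdiff] at hx hy ⊢
      refine ⟨hx, ?_⟩
      rintro ⟨-, hxU⟩
      have hyU : y ∈ U := by
        by_contra h
        exact hy.2 ⟨hy.1.1, h⟩
      exact hxU ((mem_idl.1 (mem_good.1 hUg).1).2 x (hWA hx.1) y hyU hxy)
    rw [(hS P ω hM.inj _ hSk L hL).2 hmax (W \ U) (Finset.sdiff_subset_sdiff
      (Finset.Subset.refl _) hVU) hK G, Finset.mul_sum, ← Finset.sum_filter,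
      Finset.filter_filter]
    apply Finset.sum_congr rfl
    intro τ _
    rw [mul_left_comm]
    congr 3
    ext z
    simp only [Finset.mem_sdiff]
    tauto
  rw [Finset.sum_congr rfl h1, Finset.sum_comm]
  apply Finset.sum_congr rfl
  intro τ hτ
  rw [Finset.mul_sum, ← Finset.sum_filter, Finset.filter_filter]
  apply Finset.sum_congr _ fun _ _ => rfl
  ext U
  simp only [Finset.mem_filter]
  constructor
  · rintro ⟨hU, ⟨hVU, hUW⟩, hs⟩
    refine ⟨hU, hVU, ?_⟩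
    intro x hx
    exact Finset.mem_sdiff.2 ⟨hUW hx, fun h => (Finset.mem_sdiff.1 (hs h)).2 hx⟩
  · rintro ⟨hU, hVU, hUW⟩
    refine ⟨hU, ⟨hVU, hUW.trans Finset.sdiff_subset⟩, ?_⟩
    intro x hx
    have hxQ := rp_serim_sub (ω := ω) (Finset.mem_filter.1 hτ).1 hx
    exact Finset.mem_sdiff.2 ⟨(Finset.mem_sdiff.1 hxQ).1, fun h =>
      (Finset.mem_sdiff.1 (hUW h)).2 hx⟩


theorem rp_start_id (h9 : St9) (hM : Mini ω) (hn : Net ω N S) :
    ∀ F ∈ HH ℤ ω, ∀ G ∈ HH ℤ ω, SS ω N ∅ (AA ω) F G = (F * G) (AA ω) := by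
  have h0 : ∀ F G : Conv P ℤ, SS ω N ∅ (AA ω) F G =
      ∑ U ∈ good ω N, F (U.image N) * G (AA ω \ U) := by
    intro F G
    unfold SS
    rw [Finset.filter_true_of_mem fun U hU => ⟨Finset.empty_subset _, rp_good_sub hU⟩]
    simp only [Finset.sdiff_empty]
  simp only [h0]
  refine HH_induction (p := fun (F : Conv P ℤ) => ∀ G ∈ HH ℤ ω,
    ∑ U ∈ good ω N, F (U.image N) * G (AA ω \ U) = (F * G) (AA ω)) ?_ ?_ ?_ ?_
  · intro w
    refine HH_induction (p := fun (G : Conv P ℤ) =>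
      ∑ U ∈ good ω N, (w.map (hh ℤ ω)).prod (U.image N) * G (AA ω \ U) =
        ((w.map (hh ℤ ω)).prod * G) (AA ω)) ?_ ?_ ?_ ?_
    · intro v
      rw [Conv.mul_apply]
      simp only [kap_prod]
      have := h9 P ω hM N S hn w v
      exact_mod_cast this
    · simp only [mul_zero, Conv.zero_apply, Finset.sum_const_zero]
    · intro x y hx hy
      simp only [mul_add, Conv.add_apply, Finset.sum_add_distrib]
      rw [hx, hy]
    · intro c x hx
      simp only [mul_smul_comm, Conv.smul_apply]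
      rw [← hx, Finset.mul_sum]
      apply Finset.sum_congr rfl
      intro U _
      ring
  · intro G _
    simp only [zero_mul, Conv.zero_apply, Finset.sum_const_zero]
  · intro x y hx hy G hG
    simp only [add_mul, Conv.add_apply, Finset.sum_add_distrib]
    rw [hx G hG, hy G hG]
  · intro c x hx G hG
    simp only [smul_mul_assoc, Conv.smul_apply]
    rw [← hx G hG, Finset.mul_sum]
    apply Finset.sum_congr rfl
    intro U _
    ring

/-- A family of pairs with the summed identity. -/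
structure Fam (ω : P → ℕ) (N : P → P) (l : List ℕ) (e0 : ℤ) (ι κ : Type) [Fintype ι] [Fintype κ]
    (V W : ι → Finset P) (s : ι → ℤ) (Q : κ → Finset P) (s' : κ → ℤ) : Prop where
  hgood : ∀ j, V j ∈ good ω N ∧ W j ∈ good ω N ∧ V j ⊆ W j
  lamA : ∀ j, lam ω (W j \ V j) = l
  lamC : ∀ j, lam ω ((W j \ V j).image N) = l
  heps : ∀ j, s j * eps ω (W j \ V j) = e0
  hQ : ∀ k, Skw ω (Q k) ∧ lam ω (Q k) = l ∧ s' k * eps ω (Q k) = e0
  hcard : Fintype.card ι = Fintype.card κ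
  hid : ∀ F ∈ HH ℤ ω, ∀ G ∈ HH ℤ ω,
    ∑ j, s j * SS ω N (V j) (W j) F G = ∑ k, s' k * (F * G) (Q k)
  he0 : e0 ≠ 0

theorem rp_psiW_mem (hP : PsiVal) (hω : Function.Injective ω) (l : List ℕ) :
    psiW ω l ∈ HH ℤ ω := by
  unfold psiW
  apply Subalgebra.list_prod_mem
  intro x hx
  obtain ⟨a, -, rfl⟩ := List.mem_map.1 hx
  exact (hP P ω hω a).1

theorem rp_sign_sq (n : ℕ) : ((-1 : ℤ) ^ n) * (-1) ^ n = 1 := by
  rw [← mul_pow]; norm_num

theorem rp_left (hP : PsiVal) (hS : Strip) (hL : LamStmt) (hE : EpsStmt) (hT : TopStmt)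
    (hD : DepthStmt) (hR : RimGeo) (hM : Mini ω) (hn : Net ω N S) {L : ℕ} {l : List ℕ} {e0 : ℤ}
    {ι κ : Type} [Fintype ι] [Fintype κ] {V W : ι → Finset P} {s : ι → ℤ} {Q : κ → Finset P}
    {s' : κ → ℤ} (h : Fam ω N (L :: l) e0 ι κ V W s Q s') :
    Fam ω N l e0
      (Σ j : ι, {σ // σ ∈ (comps ((W j \ V j).image N)).filter fun T => (nwrim ω T).card = L})
      (Σ k : κ, {T // T ∈ (comps (Q k)).filter fun T => (nwrim ω T).card = L})
      (fun i => V i.1 ∪ (nwrim ω i.2.1).image S) (fun i => W i.1)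
      (fun i => s i.1 * (-1) ^ strc ω (nwrim ω i.2.1))
      (fun k => Q k.1 \ nwrim ω k.2.1) (fun k => s' k.1 * (-1) ^ strc ω (nwrim ω k.2.1)) := by
  have hω := hM.inj
  -- facts for the members
  have hSkA : ∀ j, Skw ω (W j \ V j) ∧ Skw ω ((W j \ V j).image N) ∧
      Pool.Agent.ST14.eps ω ((W j \ V j).image N) = Pool.Agent.ST14.eps ω (W j \ V j) := by
    intro j
    obtain ⟨h1, h2, h3⟩ := h.hgood j
    obtain ⟨h4, h5, -, -, h6⟩ := hD P ω hM N S hn _ h1 _ h2 h3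
    exact ⟨h4, h5, h6⟩
  have hmaxC : ∀ j, ∀ T ∈ comps ((W j \ V j).image N), (nwrim ω T).card ≤ L := fun j =>
    ((hL P ω hω _ (hSkA j).2.1).2.2.2.2.2.2 L l (h.lamC j)).1
  have hmaxQ : ∀ k, ∀ T ∈ comps (Q k), (nwrim ω T).card ≤ L := fun k =>
    ((hL P ω hω _ (h.hQ k).1).2.2.2.2.2.2 L l (h.hQ k).2.1).1
  have hLpos : ∀ k : κ, 0 < L := fun k =>
    (hL P ω hω _ (h.hQ k).1).2.2.2.1 L (by rw [(h.hQ k).2.1]; exact List.mem_cons_self)
  have hLposj : ∀ j : ι, 0 < L := fun j =>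
    (hL P ω hω _ (hSkA j).1).2.2.2.1 L (by rw [h.lamA j]; exact List.mem_cons_self)
  -- sets
  have hset : ∀ j, ∀ σ ∈ (comps ((W j \ V j).image N)).filter (fun T => (nwrim ω T).card = L),
      V j ∪ (nwrim ω σ).image S ⊆ W j ∧
      (W j \ (V j ∪ (nwrim ω σ).image S)).image N = (W j \ V j).image N \ nwrim ω σ := by
    intro j σ hσ
    have hσs := rp_nwrim_sub (ω := ω) (Finset.mem_filter.1 hσ).1
    have hWA := rp_good_sub (h.hgood j).2.1
    constructor
    · refine Finset.union_subset (h.hgood j).2.2 ?_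
      intro x hx
      obtain ⟨y, hy, rfl⟩ := Finset.mem_image.1 hx
      obtain ⟨u, hu, rfl⟩ := Finset.mem_image.1 (hσs hy)
      rw [hn.SN u (hWA (Finset.mem_sdiff.1 hu).1)]
      exact (Finset.mem_sdiff.1 hu).1
    · ext z
      simp only [Finset.mem_sdiff, Finset.mem_image, Finset.mem_union]
      constructor
      · rintro ⟨u, ⟨huU, huV⟩, rfl⟩
        refine ⟨⟨u, ⟨huU, fun h => huV (Or.inl h)⟩, rfl⟩, ?_⟩
        intro hz
        exact huV (Or.inr ⟨N u, hz, hn.SN u (hWA huU)⟩)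
      · rintro ⟨⟨u, ⟨huU, huV⟩, rfl⟩, hz⟩
        refine ⟨u, ⟨huU, ?_⟩, rfl⟩
        rintro (h | ⟨y, hy, he⟩)
        · exact huV h
        · obtain ⟨u', hu', rfl⟩ := Finset.mem_image.1 (hσs hy)
          rw [hn.SN u' (hWA (Finset.mem_sdiff.1 hu').1)] at he
          subst he
          exact hz hy
  -- the new identity
  have hid : ∀ F ∈ HH ℤ ω, ∀ G ∈ HH ℤ ω,
      ∑ i : (Σ j : ι, {σ // σ ∈ (comps ((W j \ V j).image N)).filter
        fun T => (nwrim ω T).card = L}), (s i.1 * (-1) ^ strc ω (nwrim ω i.2.1)) *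
          SS ω N (V i.1 ∪ (nwrim ω i.2.1).image S) (W i.1) F G =
      ∑ k : (Σ k : κ, {T // T ∈ (comps (Q k)).filter fun T => (nwrim ω T).card = L}),
        (s' k.1 * (-1) ^ strc ω (nwrim ω k.2.1)) * (F * G) (Q k.1 \ nwrim ω k.2.1) := by
    intro F hF G hG
    have h1 := h.hid (psi ω L * F) (Subalgebra.mul_mem _ (hP P ω hω L).1 hF) G hG
    have h2 : ∀ j, s j * SS ω N (V j) (W j) (psi ω L * F) G =
        ∑ σ : {σ // σ ∈ (comps ((W j \ V j).image N)).filter fun T => (nwrim ω T).card = L},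
          (s j * (-1) ^ strc ω (nwrim ω σ.1)) *
            SS ω N (V j ∪ (nwrim ω σ.1).image S) (W j) F G := by
      intro j
      obtain ⟨g1, g2, g3⟩ := h.hgood j
      rw [rp_left_id hS hD hM hn g1 g2 g3 (hLposj j) (hmaxC j), Finset.mul_sum,
        ← Finset.sum_coe_sort]
      apply Finset.sum_congr rfl
      intro σ _
      rw [mul_assoc]
    have h3 : ∀ k, s' k * (psi ω L * F * G) (Q k) =
        ∑ T : {T // T ∈ (comps (Q k)).filter fun T => (nwrim ω T).card = L},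
          (s' k * (-1) ^ strc ω (nwrim ω T.1)) * (F * G) (Q k \ nwrim ω T.1) := by
      intro k
      rw [mul_assoc (psi ω L), (hS P ω hω _ (h.hQ k).1 L (hLpos k)).1 (hmaxQ k) _
        (self_mem_idl _), Finset.mul_sum]
      have h4 : (comps (Q k)).filter (fun T => (nwrim ω T).card = L ∧ nwrim ω T ⊆ Q k) =
          (comps (Q k)).filter fun T => (nwrim ω T).card = L := by
        apply Finset.filter_congr
        intro T hT'
        exact and_iff_left (rp_nwrim_sub hT')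
      rw [h4, ← Finset.sum_coe_sort]
      apply Finset.sum_congr rfl
      intro T _
      rw [mul_assoc]
    rw [Fintype.sum_sigma, Fintype.sum_sigma]
    rw [Finset.sum_congr rfl fun j _ => h2 j, Finset.sum_congr rfl fun k _ => h3 k] at h1
    exact h1
  -- cardinalities
  have hcard : Fintype.card (Σ j : ι, {σ // σ ∈ (comps ((W j \ V j).image N)).filter
        fun T => (nwrim ω T).card = L}) =
      Fintype.card (Σ k : κ, {T // T ∈ (comps (Q k)).filter fun T => (nwrim ω T).card = L}) := by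
    rw [Fintype.card_sigma, Fintype.card_sigma]
    have h1 : ∀ j : ι, Fintype.card {σ // σ ∈ (comps ((W j \ V j).image N)).filter
        fun T => (nwrim ω T).card = L} = (L :: l).count L := by
      intro j
      rw [Fintype.card_coe, ((hL P ω hω _ (hSkA j).2.1).2.2.2.2.2.2 L l (h.lamC j)).2.1, h.lamC j]
    have h2 : ∀ k : κ, Fintype.card {T // T ∈ (comps (Q k)).filter
        fun T => (nwrim ω T).card = L} = (L :: l).count L := by
      intro k
      rw [Fintype.card_coe, ((hL P ω hω _ (h.hQ k).1).2.2.2.2.2.2 L l (h.hQ k).2.1).2.1,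
        (h.hQ k).2.1]
    rw [Finset.sum_congr rfl fun j _ => h1 j, Finset.sum_congr rfl fun k _ => h2 k,
      Finset.sum_const, Finset.sum_const, Finset.card_univ, Finset.card_univ, h.hcard]
  -- signs
  have hsC : ∀ j, ∀ σ ∈ (comps ((W j \ V j).image N)).filter (fun T => (nwrim ω T).card = L),
      V j ∪ (nwrim ω σ).image S ∈ Pool.Agent.ST14.good ω N →
      Skw ω (W j \ (V j ∪ (nwrim ω σ).image S)) ∧
      (s j * (-1) ^ strc ω (nwrim ω σ)) *
        Pool.Agent.ST14.eps ω (W j \ (V j ∪ (nwrim ω σ).image S)) = e0 := by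
    intro j σ hσ hg
    obtain ⟨h1, h2⟩ := hset j σ hσ
    obtain ⟨h3, -, -, -, h4⟩ := hD P ω hM N S hn _ hg _ (h.hgood j).2.1 h1
    refine ⟨h3, ?_⟩
    have h5 := hE P ω hω _ (hSkA j).2.1 σ (Finset.mem_filter.1 hσ).1
    rw [← h4, h2, mul_assoc, ← h5, (hSkA j).2.2]
    exact h.heps j
  have hsQ : ∀ k, ∀ T ∈ (comps (Q k)).filter (fun T => (nwrim ω T).card = L),
      Skw ω (Q k \ nwrim ω T) ∧ lam ω (Q k \ nwrim ω T) = l ∧
      (s' k * (-1) ^ strc ω (nwrim ω T)) * Pool.Agent.ST14.eps ω (Q k \ nwrim ω T) = e0 := by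
    intro k T hT'
    obtain ⟨h1, h2⟩ := Finset.mem_filter.1 hT'
    refine ⟨(hR P ω hω _ (h.hQ k).1 T h1).2.1.2.2.2.1,
      ((hL P ω hω _ (h.hQ k).1).2.2.2.2.2.2 L l (h.hQ k).2.1).2.2 T h1 h2, ?_⟩
    rw [mul_assoc, ← hE P ω hω _ (h.hQ k).1 T h1]
    exact (h.hQ k).2.2
  -- counting
  have hcount := rp_count hcard
    (fun i => V i.1 ∪ (nwrim ω i.2.1).image S ∈ Pool.Agent.ST14.good ω N)
    (fun i μ => (s i.1 * (-1) ^ strc ω (nwrim ω i.2.1)) *
      psiW ω μ (W i.1 \ (V i.1 ∪ (nwrim ω i.2.1).image S)))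
    (fun i => lam ω (W i.1 \ (V i.1 ∪ (nwrim ω i.2.1).image S)))
    (fun k μ => (s' k.1 * (-1) ^ strc ω (nwrim ω k.2.1)) * psiW ω μ (Q k.1 \ nwrim ω k.2.1))
    l e0 h.he0 (fun μ => ∀ a ∈ μ, 0 < a) ?_ ?_ ?_
  rotate_left
  · intro i hg
    obtain ⟨h1, h2⟩ := hsC i.1 i.2.1 i.2.2 hg
    obtain ⟨h3, h4, h5⟩ := hT P ω hω _ h1
    refine ⟨(hL P ω hω _ h1).2.2.2.1, ?_, ?_, h5⟩
    · intro μ hμ hlt
      rw [h3 μ hμ hlt, mul_zero]
    · rw [h4, ← mul_assoc, h2]
  · intro k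
    obtain ⟨h1, h2, h3⟩ := hsQ k.1 k.2.1 k.2.2
    obtain ⟨h4, h5, h6⟩ := hT P ω hω _ h1
    rw [h2] at h4 h5 h6
    refine ⟨?_, ?_, ?_, h6⟩
    · have := (hL P ω hω _ h1).2.2.2.1
      rw [h2] at this
      exact this
    · intro μ hμ hlt
      rw [h4 μ hμ hlt, mul_zero]
    · rw [h5, ← mul_assoc, h3]
  · intro μ _
    have h1 := hid 1 (one_mem _) (psiW ω μ) (rp_psiW_mem hP hω μ)
    rw [one_mul] at h1
    rw [← h1, Finset.sum_filter]
    apply Finset.sum_congr rfl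
    intro i _
    rw [rp_SS_one_left _ _ (hset i.1 i.2.1 i.2.2).1]
    split_ifs <;> simp
  refine ⟨?_, ?_, ?_, ?_, ?_, hcard, hid, h.he0⟩
  · intro i
    exact ⟨(hcount i).1, (h.hgood i.1).2.1, (hset i.1 i.2.1 i.2.2).1⟩
  · intro i
    exact (hcount i).2
  · intro i
    rw [(hset i.1 i.2.1 i.2.2).2]
    obtain ⟨h1, h2⟩ := Finset.mem_filter.1 i.2.2
    exact ((hL P ω hω _ (hSkA i.1).2.1).2.2.2.2.2.2 L l (h.lamC i.1)).2.2 _ h1 h2
  · intro i
    exact (hsC i.1 i.2.1 i.2.2 (hcount i).1).2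
  · intro k
    exact hsQ k.1 k.2.1 k.2.2

theorem rp_right (hP : PsiVal) (hS : Strip) (hL : LamStmt) (hE : EpsStmt) (hT : TopStmt)
    (hSE : SEStmt) (hD : DepthStmt) (hR : RimGeo) (hM : Mini ω) (hn : Net ω N S) {L : ℕ}
    {l : List ℕ} {e0 : ℤ}
    {ι κ : Type} [Fintype ι] [Fintype κ] {V W : ι → Finset P} {s : ι → ℤ} {Q : κ → Finset P}
    {s' : κ → ℤ} (h : Fam ω N (L :: l) e0 ι κ V W s Q s') :
    Fam ω N l e0
      (Σ j : ι, {σ // σ ∈ (comps (W j \ V j)).filter fun T => (serim ω T).card = L})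
      (Σ k : κ, {T // T ∈ (comps (Q k)).filter fun T => (serim ω T).card = L})
      (fun i => V i.1) (fun i => W i.1 \ serim ω i.2.1)
      (fun i => s i.1 * (-1) ^ strc ω (serim ω i.2.1))
      (fun k => Q k.1 \ serim ω k.2.1) (fun k => s' k.1 * (-1) ^ strc ω (serim ω k.2.1)) := by
  have hω := hM.inj
  -- facts for the members
  have hSkA : ∀ j, Skw ω (W j \ V j) ∧ Skw ω ((W j \ V j).image N) ∧
      Pool.Agent.ST14.eps ω ((W j \ V j).image N) = Pool.Agent.ST14.eps ω (W j \ V j) := by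
    intro j
    obtain ⟨h1, h2, h3⟩ := h.hgood j
    obtain ⟨h4, h5, -, -, h6⟩ := hD P ω hM N S hn _ h1 _ h2 h3
    exact ⟨h4, h5, h6⟩
  have hmaxA : ∀ j, ∀ T ∈ comps (W j \ V j), (serim ω T).card ≤ L := fun j T hT' => by
    rw [(hSE P ω hω _ (hSkA j).1 T hT').1]
    exact ((hL P ω hω _ (hSkA j).1).2.2.2.2.2.2 L l (h.lamA j)).1 T hT'
  have hmaxQ : ∀ k, ∀ T ∈ comps (Q k), (serim ω T).card ≤ L := fun k T hT' => by
    rw [(hSE P ω hω _ (h.hQ k).1 T hT').1]
    exact ((hL P ω hω _ (h.hQ k).1).2.2.2.2.2.2 L l (h.hQ k).2.1).1 T hT'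
  have hLpos : ∀ k : κ, 0 < L := fun k =>
    (hL P ω hω _ (h.hQ k).1).2.2.2.1 L (by rw [(h.hQ k).2.1]; exact List.mem_cons_self)
  have hLposj : ∀ j : ι, 0 < L := fun j =>
    (hL P ω hω _ (hSkA j).1).2.2.2.1 L (by rw [h.lamA j]; exact List.mem_cons_self)
  have hfilt : ∀ R : Finset P, Skw ω R →
      (comps R).filter (fun T => (serim ω T).card = L) =
        (comps R).filter (fun T => (nwrim ω T).card = L) := by
    intro R hR'
    apply Finset.filter_congr
    intro T hT'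
    rw [(hSE P ω hω R hR' T hT').1]
  -- sets
  have hset : ∀ j, ∀ σ ∈ (comps (W j \ V j)).filter (fun T => (serim ω T).card = L),
      V j ⊆ W j \ serim ω σ ∧
      (W j \ serim ω σ) \ V j = (W j \ V j) \ serim ω σ := by
    intro j σ hσ
    have hσs := rp_serim_sub (ω := ω) (Finset.mem_filter.1 hσ).1
    constructor
    · intro x hx
      exact Finset.mem_sdiff.2 ⟨(h.hgood j).2.2 hx, fun h => (Finset.mem_sdiff.1 (hσs h)).2 hx⟩
    · ext z
      simp only [Finset.mem_sdiff]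
      tauto
  -- the new identity
  have hid : ∀ F ∈ HH ℤ ω, ∀ G ∈ HH ℤ ω,
      ∑ i : (Σ j : ι, {σ // σ ∈ (comps (W j \ V j)).filter
        fun T => (serim ω T).card = L}), (s i.1 * (-1) ^ strc ω (serim ω i.2.1)) *
          SS ω N (V i.1) (W i.1 \ serim ω i.2.1) F G =
      ∑ k : (Σ k : κ, {T // T ∈ (comps (Q k)).filter fun T => (serim ω T).card = L}),
        (s' k.1 * (-1) ^ strc ω (serim ω k.2.1)) * (F * G) (Q k.1 \ serim ω k.2.1) := by
    intro F hF G hG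
    have h1 := h.hid F hF (G * psi ω L) (Subalgebra.mul_mem _ hG (hP P ω hω L).1)
    have h2 : ∀ j, s j * SS ω N (V j) (W j) F (G * psi ω L) =
        ∑ σ : {σ // σ ∈ (comps (W j \ V j)).filter fun T => (serim ω T).card = L},
          (s j * (-1) ^ strc ω (serim ω σ.1)) *
            SS ω N (V j) (W j \ serim ω σ.1) F G := by
      intro j
      obtain ⟨g1, g2, g3⟩ := h.hgood j
      rw [rp_right_id hS hD hM hn g1 g2 g3 (hLposj j) (hmaxA j), Finset.mul_sum,
        ← Finset.sum_coe_sort]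
      apply Finset.sum_congr rfl
      intro σ _
      rw [mul_assoc]
    have h3 : ∀ k, s' k * (F * (G * psi ω L)) (Q k) =
        ∑ T : {T // T ∈ (comps (Q k)).filter fun T => (serim ω T).card = L},
          (s' k * (-1) ^ strc ω (serim ω T.1)) * (F * G) (Q k \ serim ω T.1) := by
      intro k
      have h0 : Q k \ Q k ∈ idl (Q k) := by
        rw [Finset.sdiff_self]; exact empty_mem_idl _
      rw [← mul_assoc F, (hS P ω hω _ (h.hQ k).1 L (hLpos k)).2 (hmaxQ k) _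
        (Finset.Subset.refl _) h0, Finset.mul_sum]
      have h4 : (comps (Q k)).filter (fun T => (serim ω T).card = L ∧ serim ω T ⊆ Q k) =
          (comps (Q k)).filter fun T => (serim ω T).card = L := by
        apply Finset.filter_congr
        intro T hT'
        exact and_iff_left (rp_serim_sub hT')
      rw [h4, ← Finset.sum_coe_sort]
      apply Finset.sum_congr rfl
      intro T _
      rw [mul_assoc]
    rw [Fintype.sum_sigma, Fintype.sum_sigma]
    rw [Finset.sum_congr rfl fun j _ => h2 j, Finset.sum_congr rfl fun k _ => h3 k] at h1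
    exact h1
  -- cardinalities
  have hcard : Fintype.card (Σ j : ι, {σ // σ ∈ (comps (W j \ V j)).filter
        fun T => (serim ω T).card = L}) =
      Fintype.card (Σ k : κ, {T // T ∈ (comps (Q k)).filter fun T => (serim ω T).card = L}) := by
    rw [Fintype.card_sigma, Fintype.card_sigma]
    have h1 : ∀ j : ι, Fintype.card {σ // σ ∈ (comps (W j \ V j)).filter
        fun T => (serim ω T).card = L} = (L :: l).count L := by
      intro j
      rw [Fintype.card_coe, hfilt _ (hSkA j).1,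
        ((hL P ω hω _ (hSkA j).1).2.2.2.2.2.2 L l (h.lamA j)).2.1, h.lamA j]
    have h2 : ∀ k : κ, Fintype.card {T // T ∈ (comps (Q k)).filter
        fun T => (serim ω T).card = L} = (L :: l).count L := by
      intro k
      rw [Fintype.card_coe, hfilt _ (h.hQ k).1,
        ((hL P ω hω _ (h.hQ k).1).2.2.2.2.2.2 L l (h.hQ k).2.1).2.1, (h.hQ k).2.1]
    rw [Finset.sum_congr rfl fun j _ => h1 j, Finset.sum_congr rfl fun k _ => h2 k,
      Finset.sum_const, Finset.sum_const, Finset.card_univ, Finset.card_univ, h.hcard]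
  -- lambda and signs
  have hA : ∀ R : Finset P, Skw ω R → lam ω R = L :: l →
      ∀ T ∈ (comps R).filter (fun T => (serim ω T).card = L),
      Skw ω (R \ serim ω T) ∧ lam ω (R \ serim ω T) = l ∧
      (-1) ^ strc ω (serim ω T) * Pool.Agent.ST14.eps ω (R \ serim ω T) =
        Pool.Agent.ST14.eps ω R := by
    intro R hR' hl T hT'
    obtain ⟨h1, h2⟩ := Finset.mem_filter.1 hT'
    obtain ⟨g1, g2, -, g4, g5⟩ := hSE P ω hω R hR' T h1
    refine ⟨(hR P ω hω _ hR' T h1).2.2.1.2.2.2.1, ?_, ?_⟩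
    · rw [g4]
      exact ((hL P ω hω _ hR').2.2.2.2.2.2 L l hl).2.2 T h1 (g1 ▸ h2)
    · rw [g2, g5, ← hE P ω hω _ hR' T h1]
  have hsC : ∀ j, ∀ σ ∈ (comps (W j \ V j)).filter (fun T => (serim ω T).card = L),
      W j \ serim ω σ ∈ Pool.Agent.ST14.good ω N →
      Skw ω (((W j \ serim ω σ) \ V j).image N) ∧
      (s j * (-1) ^ strc ω (serim ω σ)) *
        Pool.Agent.ST14.eps ω (((W j \ serim ω σ) \ V j).image N) = e0 := by
    intro j σ hσ hg
    obtain ⟨h1, h2⟩ := hset j σ hσ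
    obtain ⟨-, h3, -, -, h4⟩ := hD P ω hM N S hn _ (h.hgood j).1 _ hg h1
    refine ⟨h3, ?_⟩
    rw [h4, h2, mul_assoc, (hA _ (hSkA j).1 (h.lamA j) σ hσ).2.2]
    exact h.heps j
  have hsQ : ∀ k, ∀ T ∈ (comps (Q k)).filter (fun T => (serim ω T).card = L),
      Skw ω (Q k \ serim ω T) ∧ lam ω (Q k \ serim ω T) = l ∧
      (s' k * (-1) ^ strc ω (serim ω T)) * Pool.Agent.ST14.eps ω (Q k \ serim ω T) = e0 := by
    intro k T hT'
    obtain ⟨h1, h2, h3⟩ := hA _ (h.hQ k).1 (h.hQ k).2.1 T hT'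
    refine ⟨h1, h2, ?_⟩
    rw [mul_assoc, h3]
    exact (h.hQ k).2.2
  -- counting
  have hcount := rp_count hcard
    (fun i => W i.1 \ serim ω i.2.1 ∈ Pool.Agent.ST14.good ω N)
    (fun i μ => (s i.1 * (-1) ^ strc ω (serim ω i.2.1)) *
      psiW ω μ (((W i.1 \ serim ω i.2.1) \ V i.1).image N))
    (fun i => lam ω (((W i.1 \ serim ω i.2.1) \ V i.1).image N))
    (fun k μ => (s' k.1 * (-1) ^ strc ω (serim ω k.2.1)) * psiW ω μ (Q k.1 \ serim ω k.2.1))
    l e0 h.he0 (fun μ => ∀ a ∈ μ, 0 < a) ?_ ?_ ?_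
  rotate_left
  · intro i hg
    obtain ⟨h1, h2⟩ := hsC i.1 i.2.1 i.2.2 hg
    obtain ⟨h3, h4, h5⟩ := hT P ω hω _ h1
    refine ⟨(hL P ω hω _ h1).2.2.2.1, ?_, ?_, h5⟩
    · intro μ hμ hlt
      rw [h3 μ hμ hlt, mul_zero]
    · rw [h4, ← mul_assoc, h2]
  · intro k
    obtain ⟨h1, h2, h3⟩ := hsQ k.1 k.2.1 k.2.2
    obtain ⟨h4, h5, h6⟩ := hT P ω hω _ h1
    rw [h2] at h4 h5 h6
    refine ⟨?_, ?_, ?_, h6⟩
    · have := (hL P ω hω _ h1).2.2.2.1
      rw [h2] at this
      exact this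
    · intro μ hμ hlt
      rw [h4 μ hμ hlt, mul_zero]
    · rw [h5, ← mul_assoc, h3]
  · intro μ _
    have h1 := hid (psiW ω μ) (rp_psiW_mem hP hω μ) 1 (one_mem _)
    rw [mul_one] at h1
    rw [← h1, Finset.sum_filter]
    apply Finset.sum_congr rfl
    intro i _
    rw [rp_SS_one_right _ _ (hset i.1 i.2.1 i.2.2).1]
    split_ifs <;> simp
  refine ⟨?_, ?_, ?_, ?_, ?_, hcard, hid, h.he0⟩
  · intro i
    exact ⟨(h.hgood i.1).1, (hcount i).1, (hset i.1 i.2.1 i.2.2).1⟩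
  · intro i
    rw [(hset i.1 i.2.1 i.2.2).2]
    exact (hA _ (hSkA i.1).1 (h.lamA i.1) _ i.2.2).2.1
  · intro i
    exact (hcount i).2
  · intro i
    rw [(hset i.1 i.2.1 i.2.2).2, mul_assoc, (hA _ (hSkA i.1).1 (h.lamA i.1) _ i.2.2).2.2]
    exact h.heps i.1
  · intro k
    exact hsQ k.1 k.2.1 k.2.2

/-- Reachability with a word of moves (`false` = LEFT, `true` = RIGHT). -/
inductive ReachW (ω : P → ℕ) (N S : P → P) : List Bool → Finset P → Finset P → Prop
  | start : ReachW ω N S [] ∅ (AA ω)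
  | left (w : List Bool) (V W σ : Finset P) (h : ReachW ω N S w V W)
      (hσ : σ ∈ comps ((W \ V).image N))
      (hmax : ∀ σ' ∈ comps ((W \ V).image N), (nwrim ω σ').card ≤ (nwrim ω σ).card) :
      ReachW ω N S (false :: w) (V ∪ (nwrim ω σ).image S) W
  | right (w : List Bool) (V W τ : Finset P) (h : ReachW ω N S w V W) (hτ : τ ∈ comps (W \ V))
      (hmax : ∀ τ' ∈ comps (W \ V), (serim ω τ').card ≤ (serim ω τ).card) :
      ReachW ω N S (true :: w) V (W \ serim ω τ)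

theorem rp_left_inv {w : List Bool} {V0 W0 : Finset P} (h : ReachW ω N S (false :: w) V0 W0) :
    ∃ V σ, ReachW ω N S w V W0 ∧ σ ∈ comps ((W0 \ V).image N) ∧
      (∀ σ' ∈ comps ((W0 \ V).image N), (nwrim ω σ').card ≤ (nwrim ω σ).card) ∧
      V0 = V ∪ (nwrim ω σ).image S := by
  cases h
  exact ⟨_, _, by assumption, by assumption, by assumption, rfl⟩

theorem rp_right_inv {w : List Bool} {V0 W0 : Finset P} (h : ReachW ω N S (true :: w) V0 W0) :
    ∃ W τ, ReachW ω N S w V0 W ∧ τ ∈ comps (W \ V0) ∧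
      (∀ τ' ∈ comps (W \ V0), (serim ω τ').card ≤ (serim ω τ).card) ∧
      W0 = W \ serim ω τ := by
  cases h
  exact ⟨_, _, by assumption, by assumption, by assumption, rfl⟩

theorem rp_reach_word {V W : Finset P} (h : Reach ω N S V W) : ∃ w, ReachW ω N S w V W := by
  induction h with
  | start => exact ⟨[], ReachW.start⟩
  | left V W σ _ hσ hmax ih =>
    obtain ⟨w, hw⟩ := ih
    exact ⟨false :: w, ReachW.left w V W σ hw hσ hmax⟩
  | right V W τ _ hτ hmax ih =>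
    obtain ⟨w, hw⟩ := ih
    exact ⟨true :: w, ReachW.right w V W τ hw hτ hmax⟩

theorem rp_lam_top (hL : LamStmt) (hT : TopStmt) (hω : Function.Injective ω) {Q R : Finset P}
    (hQ : Skw ω Q) (hR : Skw ω R) (hQR : ∀ μ, psiW ω μ Q = psiW ω μ R) : ¬ lam ω Q < lam ω R := by
  intro h
  obtain ⟨h1, -, -⟩ := hT P ω hω Q hQ
  obtain ⟨-, h2, h3⟩ := hT P ω hω R hR
  have h4 := h1 _ (hL P ω hω R hR).2.2.2.1 h
  rw [hQR, h2] at h4
  rcases mul_eq_zero.1 h4 with h5 | h5
  · unfold eps at h5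
    exact (pow_ne_zero _ (by norm_num)) h5
  · exact h3.ne' (by exact_mod_cast h5)

theorem rp_start (hP : PsiVal) (hL : LamStmt) (hT : TopStmt) (hD : DepthStmt) (h9 : St9) (hM : Mini ω)
    (hn : Net ω N S) :
    Fam ω N (lam ω (AA ω)) (eps ω (AA ω)) Unit Unit (fun _ => ∅) (fun _ => AA ω) (fun _ => 1)
      (fun _ => AA ω) (fun _ => 1) := by
  have hω := hM.inj
  obtain ⟨h1, h2, -, -, -⟩ := hD P ω hM N S hn ∅ rp_empty_good (AA ω) (rp_AA_good hn)
    (Finset.empty_subset _)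
  have hid : ∀ F ∈ HH ℤ ω, ∀ G ∈ HH ℤ ω,
      ∑ _j : Unit, (1 : ℤ) * SS ω N ∅ (AA ω) F G = ∑ _k : Unit, (1 : ℤ) * (F * G) (AA ω) := by
    intro F hF G hG
    simp only [Finset.univ_unique, Finset.sum_singleton, one_mul]
    exact rp_start_id h9 hM hn F hF G hG
  rw [Finset.sdiff_empty] at h1 h2
  have h3 : ∀ F ∈ HH ℤ ω, F ((AA ω).image N) = F (AA ω) := by
    intro F hF
    have h4 := rp_start_id h9 hM hn F hF 1 (one_mem _)
    rw [rp_SS_one_right _ _ (Finset.empty_subset _), if_pos (rp_AA_good hn), mul_one,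
      Finset.sdiff_empty] at h4
    exact h4
  refine ⟨?_, ?_, ?_, ?_, ?_, rfl, hid, ?_⟩
  · intro _
    exact ⟨rp_empty_good, rp_AA_good hn, Finset.empty_subset _⟩
  · intro _
    rw [Finset.sdiff_empty]
  · intro _
    rw [Finset.sdiff_empty]
    have h5 : ∀ μ, psiW ω μ ((AA ω).image N) = psiW ω μ (AA ω) := fun μ =>
      h3 _ (rp_psiW_mem hP hω μ)
    exact le_antisymm (not_lt.1 (rp_lam_top hL hT hω h1 h2 fun μ => (h5 μ).symm))
      (not_lt.1 (rp_lam_top hL hT hω h2 h1 h5))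
  · intro _
    rw [Finset.sdiff_empty, one_mul]
  · intro _
    exact ⟨h1, rfl, one_mul _⟩
  · unfold eps
    exact pow_ne_zero _ (by norm_num)

theorem rp_lam_filter (hL : LamStmt) (hω : Function.Injective ω) {Q : Finset P} (hQ : Skw ω Q)
    {L : ℕ} {l : List ℕ} (h : lam ω Q = L :: l) {σ : Finset P} (hσ : σ ∈ comps Q)
    (hmax : ∀ σ' ∈ comps Q, (nwrim ω σ').card ≤ (nwrim ω σ).card) :
    (nwrim ω σ).card = L := by
  obtain ⟨h1, h2, -⟩ := (hL P ω hω Q hQ).2.2.2.2.2.2 L l h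
  have h3 : 0 < ((comps Q).filter (fun T => (nwrim ω T).card = L)).card := by
    rw [h2, h]
    exact List.count_pos_iff.2 List.mem_cons_self
  obtain ⟨T, hT⟩ := Finset.card_pos.1 h3
  obtain ⟨hT1, hT2⟩ := Finset.mem_filter.1 hT
  exact le_antisymm (h1 σ hσ) (hT2 ▸ hmax T hT1)

theorem rp_lam_nil (hL : LamStmt) (hω : Function.Injective ω) {Q : Finset P} (hQ : Skw ω Q)
    (h : lam ω Q = []) : comps Q = ∅ := by
  have h1 := (hL P ω hω Q hQ).2.2.2.2.1
  rw [h, List.sum_nil] at h1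
  have h2 : Q = ∅ := Finset.card_eq_zero.1 h1.symm
  unfold comps
  rw [h2, Finset.image_empty]

theorem rp_families (hP : PsiVal) (hS : Strip) (hL : LamStmt) (hE : EpsStmt) (hT : TopStmt)
    (hSE : SEStmt) (hD : DepthStmt) (hR : RimGeo) (h9 : St9) (hM : Mini ω) (hn : Net ω N S)
    (w : List Bool) :
    ∃ (l : List ℕ) (e0 : ℤ) (ι κ : Type) (_ : Fintype ι) (_ : Fintype κ) (V W : ι → Finset P)
      (s : ι → ℤ) (Q : κ → Finset P) (s' : κ → ℤ), Fam ω N l e0 ι κ V W s Q s' ∧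
      ∀ V0 W0, ReachW ω N S w V0 W0 → ∃ j, V j = V0 ∧ W j = W0 := by
  have hω := hM.inj
  induction w with
  | nil =>
    refine ⟨_, _, Unit, Unit, inferInstance, inferInstance, _, _, _, _, _,
      rp_start hP hL hT hD h9 hM hn, ?_⟩
    intro V0 W0 h
    cases h
    exact ⟨(), rfl, rfl⟩
  | cons b w ih =>
    obtain ⟨l, e0, ι, κ, _, _, V, W, s, Q, s', hF, hall⟩ := ih
    have hSk : ∀ j, Skw ω (W j \ V j) ∧ Skw ω ((W j \ V j).image N) := by
      intro j
      obtain ⟨h1, h2, h3⟩ := hF.hgood j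
      obtain ⟨h4, h5, -, -, h6⟩ := hD P ω hM N S hn _ h1 _ h2 h3
      exact ⟨h4, h5⟩
    cases l with
    | nil =>
      refine ⟨_, _, ι, κ, _, _, V, W, s, Q, s', hF, ?_⟩
      intro V0 W0 h
      exfalso
      cases b with
      | false =>
        obtain ⟨V1, σ, h', hσ, -, -⟩ := rp_left_inv h
        obtain ⟨j, rfl, rfl⟩ := hall _ _ h'
        rw [rp_lam_nil hL hω (hSk j).2 (hF.lamC j)] at hσ
        exact Finset.notMem_empty _ hσ
      | true =>
        obtain ⟨W1, τ, h', hτ, -, -⟩ := rp_right_inv h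
        obtain ⟨j, rfl, rfl⟩ := hall _ _ h'
        rw [rp_lam_nil hL hω (hSk j).1 (hF.lamA j)] at hτ
        exact Finset.notMem_empty _ hτ
    | cons L l =>
      cases b with
      | false =>
        refine ⟨_, _, _, _, _, _, _, _, _, _, _, rp_left hP hS hL hE hT hD hR hM hn hF, ?_⟩
        intro V0 W0 h
        obtain ⟨V1, σ, h', hσ, hmax, rfl⟩ := rp_left_inv h
        obtain ⟨j, rfl, rfl⟩ := hall _ _ h'
        exact ⟨⟨j, σ, Finset.mem_filter.2 ⟨hσ,
          rp_lam_filter hL hω (hSk j).2 (hF.lamC j) hσ hmax⟩⟩, rfl, rfl⟩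
      | true =>
        refine ⟨_, _, _, _, _, _, _, _, _, _, _,
          rp_right hP hS hL hE hT hSE hD hR hM hn hF, ?_⟩
        intro V0 W0 h
        obtain ⟨W1, τ, h', hτ, hmax, rfl⟩ := rp_right_inv h
        obtain ⟨j, rfl, rfl⟩ := hall _ _ h'
        have h1 : (serim ω τ).card = L := by
          rw [(hSE P ω hω _ (hSk j).1 τ hτ).1]
          refine rp_lam_filter hL hω (hSk j).1 (hF.lamA j) hτ ?_
          intro σ' hσ'
          rw [← (hSE P ω hω _ (hSk j).1 τ hτ).1, ← (hSE P ω hω _ (hSk j).1 σ' hσ').1]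
          exact hmax σ' hσ'
        exact ⟨⟨j, τ, Finset.mem_filter.2 ⟨hτ, h1⟩⟩, rfl, rfl⟩

end main

theorem rp (hP : PsiVal) (hS : Strip) (hL : LamStmt) (hE : EpsStmt) (hT : TopStmt)
    (hSE : SEStmt) (hD : DepthStmt) (hR : RimGeo) (h9 : St9) : RPStmt := by
  intro P _ _ ω hM N S hn V W h
  obtain ⟨w, hw⟩ := rp_reach_word h
  obtain ⟨l, e0, ι, κ, _, _, V', W', s, Q, s', hF, hall⟩ :=
    rp_families hP hS hL hE hT hSE hD hR h9 hM hn w
  obtain ⟨j, rfl, rfl⟩ := hall V W hw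
  obtain ⟨h1, h2, h3⟩ := hF.hgood j
  exact ⟨h1, h2, h3, by rw [hF.lamA j, hF.lamC j]⟩

end Pool.Agent.ST14
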