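import Pool.Agent.ST14.Final
import Pool.Agent.ST14.RP
import Pool.Agent.ST14.PsiVal
import Pool.Agent.ST14.RimGeo
import Pool.Agent.ST14.Strip
import Pool.Agent.ST14.LamEps
import Pool.Agent.ST14.Top
import Pool.Agent.ST14.SymSkw
import Pool.Agent.ST14.SE
import Pool.Agent.ST14.Depth
import Pool.Agent.ST14.ThmQ
import Pool.Agent.ST14.Free
import Pool.Agent.ST14.Fact
import Pool.Agent.ST14.St10
import Pool.Agent.ST14.EndTr
import Pool.Agent.ST14.NoComp
import Pool.Agent.Lib_helper86.SP.IfStmt

/-!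
Closed forms of the statements of sections 0 - 4.
-/

set_option autoImplicit false

namespace Pool.Agent.ST14.Glue

theorem gPsi : PsiVal := psiVal
theorem gRimGeo : RimGeo := rimGeo
theorem gStrip : Strip := strip gPsi gRimGeo
theorem gLam : LamStmt := lamStmt gRimGeo
theorem gEps : EpsStmt := epsStmt gRimGeo
theorem gTop : TopStmt := topStmt gStrip gLam gEps gRimGeo
theorem gSymSkw : SymSkw := symSkw Emb.main Pool.Agent.SP86.if_stmt
theorem gSE : SEStmt := seStmt gSymSkw gStrip gTop gRimGeo gLam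
theorem gDepth : DepthStmt := depthStmt
theorem gRP : RPStmt := rp gPsi gStrip gLam gEps gTop gSE gDepth gRimGeo st9
theorem gFree : FreeStmt := freeStmt gRP gLam gSE
theorem gQ : QStmt := qStmt gRP gDepth gRimGeo gLam gSE
theorem g5 : St5 := TQ.c5
theorem g7 : St7 := TQ.c7
theorem g8 : St8 := TQ.c8
theorem gFact : FactStmt := factStmt st2 g5 g7 g8
theorem g10 : St10 := st10 g7 st9 (st9g st1)

end Pool.Agent.ST14.Glue
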