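import Pool.Agent.ST14.Kap1

/-!
The convolution ring, the letters `e`, transposition.
-/

set_option autoImplicit false

namespace Pool.Agent.ST14

open scoped Classical

namespace Conv

variable {P R : Type} [CommRing R]

instance : AddCommGroup (Conv P R) := inferInstanceAs (AddCommGroup (Finset P → R))

instance : Module R (Conv P R) := inferInstanceAs (Module R (Finset P → R))

@[ext] theorem ext' {φ ψ : Conv P R} (h : ∀ Q, φ Q = ψ Q) : φ = ψ := funext h

theorem add_apply (φ ψ : Conv P R) (Q : Finset P) : (φ + ψ) Q = φ Q + ψ Q := rfl

theorem zero_apply (Q : Finset P) : (0 : Conv P R) Q = 0 := rfl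

theorem neg_apply (φ : Conv P R) (Q : Finset P) : (-φ) Q = -φ Q := rfl

theorem smul_apply (c : R) (φ : Conv P R) (Q : Finset P) : (c • φ) Q = c * φ Q := rfl

/-- Evaluation at `Q` as an additive homomorphism. -/
def ev (Q : Finset P) : Conv P R →+ R where
  toFun φ := φ Q
  map_zero' := rfl
  map_add' _ _ := rfl

theorem sum_apply {ι : Type} (s : Finset ι) (φ : ι → Conv P R) (Q : Finset P) :
    (∑ i ∈ s, φ i) Q = ∑ i ∈ s, φ i Q := map_sum (ev Q) φ s

section order

variable [PartialOrder P]

noncomputable instance : Mul (Conv P R) := ⟨fun φ ψ Q => ∑ I ∈ idl Q, φ I * ψ (Q \ I)⟩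

noncomputable instance : One (Conv P R) := ⟨fun Q => if Q = ∅ then 1 else 0⟩

theorem mul_apply (φ ψ : Conv P R) (Q : Finset P) :
    (φ * ψ) Q = ∑ I ∈ idl Q, φ I * ψ (Q \ I) := rfl

theorem one_apply (Q : Finset P) : (1 : Conv P R) Q = if Q = ∅ then 1 else 0 := rfl

noncomputable instance : Ring (Conv P R) :=
  { (inferInstance : AddCommGroup (Conv P R)) with
    mul := (· * ·)
    one := 1
    left_distrib := by
      intro a b c
      ext Q
      simp only [mul_apply, add_apply, mul_add, Finset.sum_add_distrib]
    right_distrib := by
      intro a b c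
      ext Q
      simp only [mul_apply, add_apply, add_mul, Finset.sum_add_distrib]
    zero_mul := by
      intro a
      ext Q
      simp only [mul_apply, zero_apply, zero_mul, Finset.sum_const_zero]
    mul_zero := by
      intro a
      ext Q
      simp only [mul_apply, zero_apply, mul_zero, Finset.sum_const_zero]
    mul_assoc := by
      intro a b c
      ext Q
      simp only [mul_apply]
      have h1 : ∀ I ∈ idl Q, a I * ∑ J ∈ idl (Q \ I), b J * c ((Q \ I) \ J) =
          ∑ J ∈ idl (Q \ I), a I * (b J * c ((Q \ I) \ J)) := fun I _ => Finset.mul_sum _ _ _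
      rw [Finset.sum_congr rfl h1, sum_assoc Q (fun I J K => a I * (b J * c K))]
      apply Finset.sum_congr rfl
      intro K _
      rw [Finset.sum_mul]
      apply Finset.sum_congr rfl
      intro I _
      rw [mul_assoc]
    one_mul := by
      intro a
      ext Q
      rw [mul_apply, Finset.sum_eq_single ∅]
      · rw [one_apply, if_pos rfl, one_mul, Finset.sdiff_empty]
      · intro I _ hI
        rw [one_apply, if_neg hI, zero_mul]
      · intro h
        exact absurd (empty_mem_idl Q) h
    mul_one := by
      intro a
      ext Q
      rw [mul_apply, Finset.sum_eq_single Q]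
      · rw [one_apply, Finset.sdiff_self, if_pos rfl, mul_one]
      · intro I hI hne
        rw [one_apply, if_neg, mul_zero]
        intro h
        apply hne
        exact Finset.Subset.antisymm (subset_of_mem_idl hI) (Finset.sdiff_eq_empty_iff_subset.1 h)
      · intro h
        exact absurd (self_mem_idl Q) h
    neg_add_cancel := fun a => neg_add_cancel a }

noncomputable instance : Algebra R (Conv P R) :=
  Algebra.ofModule (by
    intro c a b
    ext Q
    simp only [mul_apply, smul_apply, Finset.mul_sum, mul_assoc]) (by
    intro c a b
    ext Q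
    simp only [mul_apply, smul_apply, Finset.mul_sum]
    apply Finset.sum_congr rfl
    intro I _
    ring)

end order

end Conv

end Pool.Agent.ST14
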