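import Pool.Agent.ST14.Defs

/-!
The convolution ring on finite subsets of a labelled poset: definitions.

For a labelled poset `(P, ω)` (labels `ω : P → ℕ` injective) the ring `Conv P R` of functions
`Finset P → R` with product `(φ * ψ) Q = ∑ I ideal of Q, φ I * ψ (Q \ I)`; the elements `hh R ω a`
and `ee R ω a` are the indicators of weak-only and strict-only sets of size `a`. Evaluating a
product `hh a₁ * ... * hh aₖ` at `Q` counts the `(Q, ω)`-partitions of content `(a₁, ..., aₖ)`.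
-/

set_option autoImplicit false

namespace Pool.Agent.ST14

open scoped Classical

/-- The convolution ring. -/
def Conv (P R : Type) : Type := Finset P → R

section defs

variable {P : Type} [PartialOrder P]

/-- The ideals (down-sets) of the finite set `Q`. -/
noncomputable def idl (Q : Finset P) : Finset (Finset P) :=
  Q.powerset.filter fun I => ∀ x ∈ Q, ∀ y ∈ I, x ≤ y → x ∈ I

/-- No strict relation inside `I` (for convex `I`: no strict cover). -/
def WeakOnly (ω : P → ℕ) (I : Finset P) : Prop := ∀ x ∈ I, ∀ y ∈ I, x < y → ω x < ω y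

/-- No weak relation inside `I` (for convex `I`: no weak cover). -/
def StrictOnly (ω : P → ℕ) (I : Finset P) : Prop := ∀ x ∈ I, ∀ y ∈ I, x < y → ω y < ω x

/-- The letter `h a`. -/
noncomputable def hh (R : Type) [CommRing R] (ω : P → ℕ) (a : ℕ) : Conv P R :=
  fun I => if I.card = a ∧ WeakOnly ω I then 1 else 0

/-- The letter `e a`. -/
noncomputable def ee (R : Type) [CommRing R] (ω : P → ℕ) (a : ℕ) : Conv P R :=
  fun I => if I.card = a ∧ StrictOnly ω I then 1 else 0

/-- `kap ω Q w` is the number of `(Q, ω)`-partitions of content `w`: chains of ideals. -/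
noncomputable def kap (ω : P → ℕ) : Finset P → List ℕ → ℕ
  | Q, [] => if Q = ∅ then 1 else 0
  | Q, a :: w => ∑ I ∈ (idl Q).filter (fun I => I.card = a ∧ WeakOnly ω I), kap ω (Q \ I) w

/-- The subset `Q` of `(P, ω)` is symmetric. -/
def SymW (ω : P → ℕ) (Q : Finset P) : Prop :=
  ∀ w w' : List ℕ, w.Perm w' → kap ω Q w = kap ω Q w'

/-- `Q` is convex in `P`. -/
def Cvx (Q : Finset P) : Prop := ∀ x ∈ Q, ∀ z ∈ Q, ∀ y : P, x ≤ y → y ≤ z → y ∈ Q

/-- `LocSkew` for a convex subset (its covers are covers of `P`). -/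
structure LocSkewOn (ω : P → ℕ) (Q : Finset P) : Prop where
  w_lower : ∀ x ∈ Q, ∀ x' ∈ Q, ∀ y ∈ Q, WCov ω x y → WCov ω x' y → x = x'
  w_upper : ∀ x ∈ Q, ∀ y ∈ Q, ∀ y' ∈ Q, WCov ω x y → WCov ω x y' → y = y'
  s_lower : ∀ x ∈ Q, ∀ x' ∈ Q, ∀ y ∈ Q, SCov ω x y → SCov ω x' y → x = x'
  s_upper : ∀ x ∈ Q, ∀ y ∈ Q, ∀ y' ∈ Q, SCov ω x y → SCov ω x y' → y = y'
  ws : ∀ x ∈ Q, ∀ b ∈ Q, ∀ y ∈ Q, WCov ω x b → SCov ω b y → ∃ c, SCov ω x c ∧ WCov ω c y
  sw : ∀ x ∈ Q, ∀ b ∈ Q, ∀ y ∈ Q, SCov ω x b → WCov ω b y → ∃ c, WCov ω x c ∧ SCov ω c y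

/-- `x` is below `u` with a strict step in between: `x << u` in the structure note. -/
def LL (ω : P → ℕ) (x u : P) : Prop := ∃ y z : P, x ≤ y ∧ y < z ∧ z ≤ u ∧ ω z < ω y

end defs

section fin

variable {P : Type} [Fintype P] [PartialOrder P]

/-- `T(u)`. -/
noncomputable def TT (ω : P → ℕ) (u : P) : Finset P := Finset.univ.filter fun x => LL ω x u

/-- `T(U)`, the union of the `T(u)` for `u` in `U`. -/
noncomputable def TS (ω : P → ℕ) (U : Finset P) : Finset P :=
  Finset.univ.filter fun x => ∃ u ∈ U, LL ω x u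

/-- `W_1`, the largest weak-only ideal. -/
noncomputable def W1 (ω : P → ℕ) : Finset P := Finset.univ.filter fun u => ∀ x, ¬ LL ω x u

/-- `A = P \ W_1`. -/
noncomputable def AA (ω : P → ℕ) : Finset P := Finset.univ.filter fun u => ∃ x, LL ω x u

/-- `W^1`, the largest weak-only filter. -/
noncomputable def W2 (ω : P → ℕ) : Finset P := Finset.univ.filter fun x => ∀ u, ¬ LL ω x u

/-- `C = P \ W^1`. -/
noncomputable def CC (ω : P → ℕ) : Finset P := Finset.univ.filter fun x => ∃ u, LL ω x u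

/-- Transposition: weak and strict are exchanged. `B, D, S_1, S^1` are `AA, CC, W1, W2` of
`tr ω`. -/
noncomputable def tr (ω : P → ℕ) : P → ℕ := fun x => Finset.univ.sup ω - ω x

/-- Reversal: the labelling of the order dual for which weak stays weak. -/
noncomputable def rv (ω : P → ℕ) : Pᵒᵈ → ℕ := fun x => Finset.univ.sup ω - ω (OrderDual.ofDual x)

/-- The symmetry condition of the frozen statement. -/
def FrozenSym (ω : P → ℕ) : Prop := ∀ (α : ℕ → ℕ) (σ : Equiv.Perm ℕ),
  Nat.card {f : P → ℕ // IsPP ω f ∧ ∀ i : ℕ, Nat.card {x : P // f x = i} = α i} =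
    Nat.card {f : P → ℕ // IsPP ω f ∧ ∀ i : ℕ, Nat.card {x : P // f x = i} = α (σ i)}

/-- The setting of the structure theorem: a minimal symmetric poset. -/
structure Mini (ω : P → ℕ) : Prop where
  inj : Function.Injective ω
  sym : SymW ω Finset.univ
  min : ∀ Q : Finset P, Q ≠ Finset.univ → Cvx Q → SymW ω Q → LocSkewOn ω Q

end fin

end Pool.Agent.ST14
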