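import Pool.Agent.ST14.KapDefs

/-!
Module statements of the set-up for the structure theorem.
-/

set_option autoImplicit false

namespace Pool.Agent.ST14

open scoped Classical

/-- K1: deconcatenation. -/
def K1_Stmt : Prop := ∀ (P : Type) [PartialOrder P] (ω : P → ℕ) (Q : Finset P) (w w' : List ℕ),
  kap ω Q (w ++ w') = ∑ I ∈ idl Q, kap ω I w * kap ω (Q \ I) w'

/-- K3: the frozen symmetry gives `SymW`. -/
def K3_Stmt : Prop := ∀ (P : Type) [Fintype P] [PartialOrder P] (ω : P → ℕ),
  Function.Injective ω → FrozenSym ω → SymW ω Finset.univ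

/-- K4: reduction to a minimal counterexample. -/
def K4_Stmt : Prop :=
  (∀ (P : Type) [Fintype P] [PartialOrder P] (ω : P → ℕ), Mini ω → LocSkew ω) →
  ∀ (P : Type) [Fintype P] [PartialOrder P] (ω : P → ℕ), Function.Injective ω →
    SymW ω Finset.univ → LocSkew ω

/-- K5a: transposition. -/
def K5a_Stmt : Prop := ∀ (P : Type) [Fintype P] [PartialOrder P] (ω : P → ℕ),
  Function.Injective ω → ∀ Q : Finset P, SymW ω Q → SymW (tr ω) Q

/-- K5b: reversal. -/
def K5b_Stmt : Prop := ∀ (P : Type) [Fintype P] [PartialOrder P] (ω : P → ℕ) (Q : Finset P),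
  SymW ω Q → SymW (rv ω) (Q.map OrderDual.toDual.toEmbedding)

/-- K5c: `Mini` is preserved by transposition. -/
def K5c_Stmt : Prop := ∀ (P : Type) [Fintype P] [PartialOrder P] (ω : P → ℕ),
  Mini ω → Mini (tr ω)

/-- K5d: `Mini` is preserved by reversal. -/
def K5d_Stmt : Prop := ∀ (P : Type) [Fintype P] [PartialOrder P] (ω : P → ℕ),
  Mini ω → Mini (rv ω)

/-- K6: top coefficients. -/
def K6_Stmt : Prop := ∀ (P : Type) [Fintype P] [PartialOrder P] (ω : P → ℕ),
  Function.Injective ω → SymW ω Finset.univ → SymW ω (AA ω) ∧ SymW ω (CC ω) ∧ (W1 ω).card = (W2 ω).card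

/-- Symmetry for all products: words of `h`'s in all positions may be exchanged, with coefficients,
hence the same for every element of the subalgebra they generate (for example the `e`'s). The
version with words: -/
def K7_Stmt : Prop := ∀ (P : Type) [PartialOrder P] (ω : P → ℕ) (Q : Finset P),
  SymW ω Q → ∀ a f g b : List ℕ, kap ω Q (a ++ f ++ g ++ b) = kap ω Q (a ++ g ++ f ++ b)

end Pool.Agent.ST14
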