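import Pool.Agent.ST14.Fact

/-!
Local facts about `R = factR ω`: STEP0 and the description of the complement of `R`.
-/

set_option autoImplicit false

namespace Pool.Agent.ST14

open scoped Classical

section fin

variable {P : Type} [Fintype P] [PartialOrder P]

/-- A strict cover whose top is not maximal or whose bottom is not minimal is regular. -/
theorem rloc_reg {ω : P → ℕ} {N S : P → P} (hN : Net ω N S) {x u : P} (h : SCov ω x u)
    (hu : ¬ IsMax u ∨ ¬ IsMin x) : x = N u ∧ u = S x := by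
  have hA : u ∈ AA ω := mem_AA.2 ⟨x, LL_of_sCov le_rfl h le_rfl⟩
  rcases hN.extra x u h with h1 | ⟨h1, h2, _⟩
  · refine ⟨h1, ?_⟩
    rw [h1, hN.SN u hA]
  · rcases hu with hu | hu
    · exact absurd h2 hu
    · exact absurd h1 hu

omit [Fintype P] in
theorem rloc_nmax {x y : P} (h : x < y) : ¬ IsMax x := fun hh =>
  absurd (hh h.le) (not_le_of_gt h)

omit [Fintype P] in
theorem rloc_nmin {x y : P} (h : x < y) : ¬ IsMin y := fun hh =>
  absurd (hh h.le) (not_le_of_gt h)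

/-- The first strict cover above a non-minimal element. -/
theorem rloc_first {ω : P → ℕ} (h : Mini ω) {x u : P} (hx : ¬ IsMin x) (hl : LL ω x u) :
    ∃ v, SCov ω x v ∧ v ≤ u := by
  by_contra hno
  push Not at hno
  by_cases h1 : ∃ v, SCov ω x v
  · obtain ⟨v, hv⟩ := h1
    exact hno v hv ((((st1 P ω h).2 x hx).2.1 v hv u).1 hl)
  · push Not at h1
    exact ((st1 P ω h).2 x hx).2.2 h1 u hl

theorem rloc_first_tr {ω : P → ℕ} (h : Mini ω) {x g p : P} (hx : ¬ IsMin x) (hg : x ≤ g)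
    (hgp : WCov ω g p) : ∃ v, WCov ω x v ∧ v ≤ p := by
  obtain ⟨v, hv, hvp⟩ := rloc_first (k5c P ω h) hx
    (LL_of_sCov (ω := tr ω) hg ((sCov_tr ω g p).2 hgp) le_rfl)
  exact ⟨v, (sCov_tr ω x v).1 hv, hvp⟩

/-- STEP0: if `e` has no strict upper cover, its regular weak lower cover is in `R`. -/
theorem rloc_step0 (h8 : St8) {ω : P → ℕ} (h : Mini ω) {W E : P → P} (hT : Net (tr ω) W E)
    {e : P} (he : e ∈ AA (tr ω)) (hno : ∀ u, ¬ SCov ω e u) : W e ∈ factR ω := by
  rw [fact_mem_R]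
  intro g p q hg hgp hpq
  have hwe : WCov ω (W e) e := (sCov_tr ω (W e) e).1 (hT.N_cov e he)
  have hem : ¬ IsMin e := rloc_nmin hwe.1.lt
  have hpM : ¬ IsMax p := rloc_nmax hpq.1.lt
  have key : ∀ v, WCov ω (W e) v → ¬ IsMax v → v = e := by
    intro v hv hvM
    have h1 := (rloc_reg hT ((sCov_tr ω (W e) v).2 hv) (Or.inl hvM)).2
    rw [h1, hT.SN e he]
  rcases eq_or_lt_of_le hg with h1 | h1
  · rw [← h1] at hgp
    have h2 := key p hgp hpM
    rw [h2] at hpq
    exact hno q hpq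
  · obtain ⟨v, hwv, hvg⟩ := exists_upper_cov h1
    have hvM : ¬ IsMax v := rloc_nmax (lt_of_le_of_lt hvg hgp.1.lt)
    have hvm : ¬ IsMin v := rloc_nmin hwv.lt
    rcases cov_cases h.inj hwv with h2 | h2
    · have h3 := key v h2 hvM
      rw [h3] at hvg
      have h4 : LL ω e q := LL_of_sCov (hvg.trans hgp.1.le) hpq le_rfl
      exact ((st1 P ω h).2 e hem).2.2 hno q h4
    · obtain ⟨v', hv', hvp⟩ := rloc_first_tr h hvm hvg hgp
      by_cases hc : ∃ c, WCov ω (W e) c ∧ SCov ω c v'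
      · obtain ⟨c, hc1, hc2⟩ := hc
        have h3 := key c hc1 (rloc_nmax hc2.1.lt)
        rw [h3] at hc2
        exact hno v' hc2
      · have h3 := ((h8 P ω h).2 (W e) v v' h2 hv' hc).2.1
        have h4 := h3 (hvp.trans hpq.1.le)
        exact absurd hpq.1.lt (not_lt_of_ge (h4.trans hvp))

/-- The complement of `R`: the `x_b` and the elements with a south-east neighbour. -/
theorem rloc_not_mem (h7 : St7) (h8 : St8) {ω : P → ℕ} (h : Mini ω) (e : P) :
    e ∉ factR ω ↔ (∃ b y, Merger ω e b y) ∨ ∃ z, NW ω Finset.univ e z := by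
  constructor
  · intro he
    rw [fact_mem_R] at he
    push Not at he
    obtain ⟨g, p, q, hg, hgp, hpq⟩ := he
    have hw : ∃ u, WCov ω e u := by
      by_contra hno
      push Not at hno
      by_cases hem : IsMin e
      · rcases eq_or_lt_of_le hg with h1 | h1
        · rw [← h1] at hgp
          exact hno p hgp
        · obtain ⟨v, hev, hvg⟩ := exists_upper_cov h1
          have hvm : ¬ IsMin v := rloc_nmin hev.lt
          rcases cov_cases h.inj hev with h2 | h2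
          · exact hno v h2
          · obtain ⟨v', hv', hvp⟩ := rloc_first_tr h hvm hvg hgp
            have h3 := ((h8 P ω h).2 e v v' h2 hv' (fun ⟨c, hc, _⟩ => hno c hc)).2.1
            have h4 := h3 (hvp.trans hpq.1.le)
            exact absurd hpq.1.lt (not_lt_of_ge (h4.trans hvp))
      · obtain ⟨v, hv, _⟩ := rloc_first_tr h hem hg hgp
        exact hno v hv
    obtain ⟨u0, hu0⟩ := hw
    obtain ⟨W, E, hT⟩ := h7 P (tr ω) (k5c P ω h)
    have heC : e ∈ CC (tr ω) :=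
      mem_CC.2 ⟨u0, LL_of_sCov le_rfl ((sCov_tr ω e u0).2 hu0) le_rfl⟩
    have hE := hT.S_cov e heC
    have hEA : E e ∈ AA (tr ω) := mem_AA.2 ⟨e, LL_of_sCov le_rfl hE le_rfl⟩
    have hWE : W (E e) = e := hT.NS e heC
    have hs : ∃ v, SCov ω (E e) v := by
      by_contra hno
      push Not at hno
      have h1 := rloc_step0 h8 h hT hEA hno
      rw [hWE, fact_mem_R] at h1
      exact h1 g p q hg hgp hpq
    obtain ⟨v, hv⟩ := hs
    have hE' : WCov ω e (E e) := (sCov_tr ω e (E e)).1 hE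
    by_cases hc : ∃ c, SCov ω e c ∧ WCov ω c v
    · obtain ⟨c, hc1, hc2⟩ := hc
      exact Or.inr ⟨v, Finset.mem_univ _, Finset.mem_univ _,
        ⟨E e, Finset.mem_univ _, hE', hv⟩, c, Finset.mem_univ _, hc1, hc2⟩
    · exact Or.inl ⟨E e, v, hE', hv, hc⟩
  · rintro (⟨b, y, h1⟩ | ⟨z, h1⟩) hh
    · exact fact_mem_R.1 hh e b y le_rfl h1.1 h1.2.1
    · obtain ⟨_, _, ⟨g, _, hg1, hg2⟩, _⟩ := h1
      exact fact_mem_R.1 hh e g z le_rfl hg1 hg2

/-- Merger centres are in `R`. -/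
theorem rloc_b_mem (h7 : St7) (h8 : St8) {ω : P → ℕ} (h : Mini ω) {x b y : P}
    (hm : Merger ω x b y) : b ∈ factR ω := by
  by_contra hb
  have hbm : ¬ IsMin b := rloc_nmin hm.1.1.lt
  have hyM := ((h8 P ω h).1 x b y hm.1 hm.2.1 hm.2.2).2.1
  rcases (rloc_not_mem h7 h8 h b).1 hb with ⟨b', y', h1⟩ | ⟨z, _, _, _, f, _, hf1, hf2⟩
  · exact hbm ((h8 P ω h).1 b b' y' h1.1 h1.2.1 h1.2.2).1
  · have hl := ((st1 P ω h).2 b hbm).1
    have mem : ∀ t, b ≤ t → t ∈ (Finset.univ.filter fun z => b ≤ z) := fun t ht =>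
      Finset.mem_filter.2 ⟨Finset.mem_univ t, ht⟩
    have h2 := hl.s_upper b (mem b le_rfl) f (mem f hf1.1.le) y (mem y hm.2.1.1.le) hf1 hm.2.1
    rw [h2] at hf2
    exact rloc_nmax hf2.1.lt hyM

/-- Splitter centres are in `R`. -/
theorem rloc_b'_mem (h7 : St7) (h8 : St8) {ω : P → ℕ} (h : Mini ω) {x b y : P}
    (hm : Splitter ω x b y) : b ∈ factR ω := by
  by_contra hb
  have hbm : ¬ IsMin b := rloc_nmin hm.1.1.lt
  have hyM := ((h8 P ω h).2 x b y hm.1 hm.2.1 hm.2.2).2.1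
  rcases (rloc_not_mem h7 h8 h b).1 hb with ⟨b', y', h1⟩ | ⟨z, _, _, ⟨f, _, hf1, hf2⟩, _⟩
  · exact hbm ((h8 P ω h).1 b b' y' h1.1 h1.2.1 h1.2.2).1
  · have hl := ((st1 P ω h).2 b hbm).1
    have mem : ∀ t, b ≤ t → t ∈ (Finset.univ.filter fun z => b ≤ z) := fun t ht =>
      Finset.mem_filter.2 ⟨Finset.mem_univ t, ht⟩
    have h2 := hl.w_upper b (mem b le_rfl) f (mem f hf1.1.le) y (mem y hm.2.1.1.le) hf1 hm.2.1
    rw [h2] at hf2
    exact rloc_nmax hf2.1.lt hyM

/-- Maximal elements are in `R`. -/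
theorem rloc_max_mem {ω : P → ℕ} {e : P} (he : IsMax e) : e ∈ factR ω := by
  rw [fact_mem_R]
  intro g b y hg hgb _
  have h1 := he (hg.trans hgb.1.le)
  exact absurd hgb.1.lt (not_lt_of_ge (h1.trans hg))

end fin

end Pool.Agent.ST14
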