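import Pool.Agent.ST14.Star
import Pool.Agent.ST14.StrStmts2

/-!
Definitions for the second half of the proof (team store 49bc13_h58.md, sections 1 - 4): the
functionals `psi n`, components, rims, the partition `lam Q` of rim lengths, the sign `eps Q`,
reachable pairs.
-/

set_option autoImplicit false

namespace Pool.Agent.ST14

open scoped Classical

section rims

variable {P : Type} [PartialOrder P]

/-- `psi n = ∑ j, (-1)^(n-j) j e_{n-j} h_j`. -/
noncomputable def psi (ω : P → ℕ) (n : ℕ) : Conv P ℤ :=
  ∑ j ∈ Finset.range (n + 1), ((-1 : ℤ) ^ (n - j) * (j : ℤ)) • (ee ℤ ω (n - j) * hh ℤ ω j)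

/-- The product `psi a₁ * psi a₂ * ...`. -/
noncomputable def psiW (ω : P → ℕ) (l : List ℕ) : Conv P ℤ := (l.map (psi ω)).prod

/-- Adjacent elements of `Q` (a cover, in one of the two directions). -/
def Adj (Q : Finset P) (x y : P) : Prop := x ∈ Q ∧ y ∈ Q ∧ (x ⋖ y ∨ y ⋖ x)

/-- Connectedness inside `Q`. -/
def Conn (Q : Finset P) : P → P → Prop := Relation.ReflTransGen (Adj Q)

/-- The component of `x` in `Q`. -/
noncomputable def comp (Q : Finset P) (x : P) : Finset P := Q.filter fun y => Conn Q x y

/-- The components of `Q`. -/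
noncomputable def comps (Q : Finset P) : Finset (Finset P) := Q.image (comp Q)

/-- `x` is the north-west neighbour of `e` in `Q` (and `e` the south-east neighbour of `x`). -/
def NW (ω : P → ℕ) (Q : Finset P) (x e : P) : Prop :=
  x ∈ Q ∧ e ∈ Q ∧ (∃ g ∈ Q, WCov ω x g ∧ SCov ω g e) ∧ ∃ f ∈ Q, SCov ω x f ∧ WCov ω f e

/-- The north-west rim of `T`. -/
noncomputable def nwrim (ω : P → ℕ) (T : Finset P) : Finset P :=
  T.filter fun e => ∀ x, ¬ NW ω T x e

/-- The south-east rim of `T`. -/
noncomputable def serim (ω : P → ℕ) (T : Finset P) : Finset P :=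
  T.filter fun x => ∀ e, ¬ NW ω T x e

/-- Number of strict covers inside `J`. -/
noncomputable def strc (ω : P → ℕ) (J : Finset P) : ℕ :=
  ((J ×ˢ J).filter fun p => SCov ω p.1 p.2).card

/-- Depth of `e` in `Q`: number of cells weakly north-west of `e` on its diagonal. -/
noncomputable def dep (ω : P → ℕ) (Q : Finset P) (e : P) : ℕ :=
  (Q.filter fun x => Relation.ReflTransGen (NW ω Q) x e).card

/-- The sign of `Q`. -/
noncomputable def eps (ω : P → ℕ) (Q : Finset P) : ℤ :=
  (-1) ^ ((Q ×ˢ Q).filter fun p => SCov ω p.1 p.2 ∧ dep ω Q p.1 = dep ω Q p.2).card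

/-- `l` is a list of rim lengths of `Q`, obtained by stripping always a longest rim. -/
inductive IsLam (ω : P → ℕ) : Finset P → List ℕ → Prop
  | nil : IsLam ω ∅ []
  | cons (Q T : Finset P) (l : List ℕ) (hT : T ∈ comps Q)
      (hmax : ∀ T' ∈ comps Q, (nwrim ω T').card ≤ (nwrim ω T).card)
      (h : IsLam ω (Q \ nwrim ω T) l) : IsLam ω Q ((nwrim ω T).card :: l)

/-- The partition of the rim lengths of `Q` (weakly decreasing list). -/
noncomputable def lam (ω : P → ℕ) (Q : Finset P) : List ℕ :=
  if h : ∃ l, IsLam ω Q l then Classical.choose h else []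

/-- The product of the factorials of the multiplicities of a weakly decreasing list. -/
def mlt : List ℕ → ℕ
  | [] => 1
  | a :: l => (a :: l).count a * mlt l

/-- Convex and locally skew. -/
structure Skw (ω : P → ℕ) (Q : Finset P) : Prop where
  cvx : Cvx Q
  loc : LocSkewOn ω Q

end rims

section reach

variable {P : Type} [Fintype P] [PartialOrder P]

/-- Reachable pairs: `Q = W \ V`; LEFT strips the north-west rim of a longest component of `N(Q)`,
RIGHT strips the south-east rim of a longest component of `Q`. -/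
inductive Reach (ω : P → ℕ) (N S : P → P) : Finset P → Finset P → Prop
  | start : Reach ω N S ∅ (AA ω)
  | left (V W σ : Finset P) (h : Reach ω N S V W) (hσ : σ ∈ comps ((W \ V).image N))
      (hmax : ∀ σ' ∈ comps ((W \ V).image N), (nwrim ω σ').card ≤ (nwrim ω σ).card) :
      Reach ω N S (V ∪ (nwrim ω σ).image S) W
  | right (V W τ : Finset P) (h : Reach ω N S V W) (hτ : τ ∈ comps (W \ V))
      (hmax : ∀ τ' ∈ comps (W \ V), (serim ω τ').card ≤ (serim ω τ).card) :
      Reach ω N S V (W \ serim ω τ)

/-- Adjacency in `Q ⊆ A` by a cover of `A` which is not a splitter cover `b' w y'`. -/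
def E0 (ω : P → ℕ) (Q : Finset P) (e f : P) : Prop :=
  Adj Q e f ∧ (¬ ∃ x, Splitter ω x e f) ∧ ¬ ∃ x, Splitter ω x f e

/-- Connected by `E0` steps. -/
def E0c (ω : P → ℕ) (Q : Finset P) : P → P → Prop := Relation.ReflTransGen (E0 ω Q)

end reach

end Pool.Agent.ST14
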