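import Pool.Agent.ST14.Kap3

/-!
The thin identity (STAR): the letters `σ = e(tz) h(z)` and `σ' = h(z) e(tz)`.
-/

set_option autoImplicit false

namespace Pool.Agent.ST14

open scoped Classical

variable {P : Type} [PartialOrder P] {R : Type} [CommRing R]

/-- The degree `n` part of `e(tz) h(z)`. -/
noncomputable def sgm (R : Type) [CommRing R] (ω : P → ℕ) (t : R) (n : ℕ) : Conv P R :=
  ∑ i ∈ Finset.range (n + 1), t ^ i • (ee R ω i * hh R ω (n - i))

/-- The degree `n` part of `h(z) e(tz)`. -/
noncomputable def sgm' (R : Type) [CommRing R] (ω : P → ℕ) (t : R) (n : ℕ) : Conv P R :=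
  ∑ i ∈ Finset.range (n + 1), t ^ i • (hh R ω (n - i) * ee R ω i)

theorem sgm_mem {ω : P → ℕ} (hω : Function.Injective ω) (t : R) (n : ℕ) :
    sgm R ω t n ∈ HH R ω := by
  unfold sgm
  apply Subalgebra.sum_mem
  intro i _
  exact Subalgebra.smul_mem _ (Subalgebra.mul_mem _ (ee_mem hω i) (hh_mem ω _)) _

theorem sgm'_mem {ω : P → ℕ} (hω : Function.Injective ω) (t : R) (n : ℕ) :
    sgm' R ω t n ∈ HH R ω := by
  unfold sgm'
  apply Subalgebra.sum_mem
  intro i _
  exact Subalgebra.smul_mem _ (Subalgebra.mul_mem _ (hh_mem ω _) (ee_mem hω i)) _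

/-- (STAR). -/
theorem star {ω : P → ℕ} (hω : Function.Injective ω) {Q : Finset P} (h : SymW ω Q) (t : R)
    (n : ℕ) {F G : Conv P R} (hF : F ∈ HH R ω) (hG : G ∈ HH R ω) :
    (F * sgm R ω t n * G) Q = (F * sgm' R ω t n * G) Q := by
  unfold sgm sgm'
  simp only [Finset.mul_sum, Finset.sum_mul, Conv.sum_apply, mul_smul_comm, smul_mul_assoc,
    Conv.smul_apply]
  apply Finset.sum_congr rfl
  intro i _
  congr 1
  rw [← mul_assoc, ← mul_assoc]
  exact symAt h hF (ee_mem hω i) (hh_mem ω _) hG

/-- Bottoms of strict relations inside `X`. -/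
noncomputable def BS (ω : P → ℕ) (X : Finset P) : Finset P :=
  X.filter fun x => ∃ y ∈ X, SCov ω x y

/-- Tops of strict covers. -/
noncomputable def TpS (ω : P → ℕ) (X : Finset P) : Finset P :=
  X.filter fun y => ∃ x ∈ X, SCov ω x y

/-- Bottoms of weak covers. -/
noncomputable def BW (ω : P → ℕ) (X : Finset P) : Finset P :=
  X.filter fun x => ∃ y ∈ X, WCov ω x y

/-- Tops of weak covers. -/
noncomputable def TpW (ω : P → ℕ) (X : Finset P) : Finset P :=
  X.filter fun y => ∃ x ∈ X, WCov ω x y

/-- Evaluation of `σ` as a sum over the splittings. -/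
theorem sgm_apply (ω : P → ℕ) (t : R) (n : ℕ) (X : Finset P) :
    sgm R ω t n X = if X.card = n then ∑ I ∈ splits ω X, t ^ I.card else 0 := by
  unfold sgm
  rw [Conv.sum_apply]
  simp only [Conv.smul_apply, Conv.mul_apply, ee_apply, hh_apply]
  split_ifs with hX
  · rw [splits, Finset.sum_filter]
    simp only [Finset.mul_sum]
    rw [Finset.sum_comm]
    apply Finset.sum_congr rfl
    intro I hI
    have hIQ := subset_of_mem_idl hI
    have hc := Finset.card_le_card hIQ
    have hc2 := Finset.card_sdiff_of_subset hIQ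
    rw [Finset.sum_eq_single I.card]
    · have h0 : (X \ I).card = n - I.card := by omega
      by_cases h1 : StrictOnly ω I <;> by_cases h2 : WeakOnly ω (X \ I) <;> simp [h1, h2, h0]
    · intro i _ hi
      rw [if_neg (fun h => hi h.1.symm)]
      ring
    · intro h
      rw [Finset.mem_range] at h
      omega
  · apply Finset.sum_eq_zero
    intro i hi
    rw [Finset.sum_eq_zero, mul_zero]
    intro I hI
    have hIQ := subset_of_mem_idl hI
    have hc := Finset.card_le_card hIQ
    have hc2 := Finset.card_sdiff_of_subset hIQ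
    rw [Finset.mem_range] at hi
    by_cases h1 : I.card = i
    · rw [if_neg (c := (X \ I).card = n - i ∧ _) (fun h => by omega), mul_zero]
    · rw [if_neg (fun h => h1 h.1), zero_mul]

/-- The dual splittings: weak-only ideal, strict-only complement. -/
noncomputable def splits' (ω : P → ℕ) (Q : Finset P) : Finset (Finset P) :=
  (idl Q).filter fun I => WeakOnly ω I ∧ StrictOnly ω (Q \ I)

theorem sgm'_apply (ω : P → ℕ) (t : R) (n : ℕ) (X : Finset P) :
    sgm' R ω t n X = if X.card = n then ∑ I ∈ splits' ω X, t ^ (X \ I).card else 0 := by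
  unfold sgm'
  rw [Conv.sum_apply]
  simp only [Conv.smul_apply, Conv.mul_apply, ee_apply, hh_apply]
  split_ifs with hX
  · rw [splits', Finset.sum_filter]
    simp only [Finset.mul_sum]
    rw [Finset.sum_comm]
    apply Finset.sum_congr rfl
    intro I hI
    have hIQ := subset_of_mem_idl hI
    have hc := Finset.card_le_card hIQ
    have hc2 := Finset.card_sdiff_of_subset hIQ
    rw [Finset.sum_eq_single (X \ I).card]
    · have h0 : I.card = n - (X \ I).card := by omega
      by_cases h1 : WeakOnly ω I <;> by_cases h2 : StrictOnly ω (X \ I) <;> simp [h1, h2, ← h0]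
    · intro i _ hi
      rw [if_neg (c := (X \ I).card = i ∧ _) (fun h => hi h.1.symm)]
      ring
    · intro h
      rw [Finset.mem_range] at h
      omega
  · apply Finset.sum_eq_zero
    intro i hi
    rw [Finset.sum_eq_zero, mul_zero]
    intro I hI
    have hIQ := subset_of_mem_idl hI
    have hc := Finset.card_le_card hIQ
    have hc2 := Finset.card_sdiff_of_subset hIQ
    rw [Finset.mem_range] at hi
    by_cases h1 : (X \ I).card = i
    · rw [if_neg (fun h => by omega), zero_mul]
    · rw [if_neg (c := (X \ I).card = i ∧ _) (fun h => h1 h.1), mul_zero]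

theorem exists_cov_between {x y : P} (hxy : x < y) [Finite P] : ∃ z, x ⋖ z ∧ z ≤ y := by
  have := Finite.to_wellFoundedLT (α := P)
  obtain ⟨z, hz, hmin⟩ := WellFounded.has_min (wellFounded_lt (α := P)) {z | x < z ∧ z ≤ y}
    ⟨y, hxy, le_rfl⟩
  refine ⟨z, ⟨hz.1, ?_⟩, hz.2⟩
  intro c hc hcz
  exact hmin c ⟨hc, hcz.le.trans hz.2⟩ hcz

variable [Fintype P]

/-- A set convex in `P` is strict-only iff it has no weak cover. -/
theorem strictOnly_iff {ω : P → ℕ} (hω : Function.Injective ω) {I : Finset P} (hI : Cvx I) :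
    StrictOnly ω I ↔ ∀ x ∈ I, ∀ y ∈ I, ¬ WCov ω x y := by
  constructor
  · intro h x hx y hy hxy
    have := h x hx y hy hxy.1.lt
    exact absurd hxy.2 (by omega)
  · intro h
    intro x hx y hy hxy
    induction x using (wellFounded_gt (α := P)).induction with
    | _ x ih =>
      obtain ⟨z, hxz, hzy⟩ := exists_cov_between hxy
      have hz : z ∈ I := hI x hx y hy z hxz.lt.le hzy
      have h1 : ω z < ω x := by
        rcases lt_trichotomy (ω x) (ω z) with h2 | h2 | h2
        · exact absurd ⟨hxz, h2⟩ (h x hx z hz)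
        · exact absurd (hω h2) hxz.lt.ne
        · exact h2
      rcases eq_or_lt_of_le hzy with h2 | h2
      · rw [← h2]
        exact h1
      · exact (ih z hxz.lt hz h2).trans h1

/-- A set convex in `P` is weak-only iff it has no strict cover. -/
theorem weakOnly_iff {ω : P → ℕ} (hω : Function.Injective ω) {I : Finset P} (hI : Cvx I) :
    WeakOnly ω I ↔ ∀ x ∈ I, ∀ y ∈ I, ¬ SCov ω x y := by
  rw [← strictOnly_tr, strictOnly_iff (tr_injective hω) hI]
  simp only [wCov_tr]

theorem Cvx.idl {X I : Finset P} (hX : Cvx X) (hI : I ∈ idl X) : Cvx I := by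
  rw [mem_idl] at hI
  intro x hx z hz y hxy hyz
  exact hI.2 y (hX x (hI.1 hx) z (hI.1 hz) y hxy hyz) z hz hyz

theorem Cvx.sdiff {X I : Finset P} (hX : Cvx X) (hI : I ∈ Pool.Agent.ST14.idl X) :
    Cvx (X \ I) := by
  rw [mem_idl] at hI
  intro x hx z hz y hxy hyz
  rw [Finset.mem_sdiff] at *
  have hy := hX x hx.1 z hz.1 y hxy hyz
  exact ⟨hy, fun h => hx.2 (hI.2 x hx.1 y h hxy)⟩

theorem mem_splits_iff {ω : P → ℕ} (hω : Function.Injective ω) {X : Finset P} (hX : Cvx X)
    {I : Finset P} : I ∈ splits ω X ↔ I ⊆ X ∧ BS ω X ⊆ I ∧ Disjoint (TpW ω X) I := by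
  unfold splits
  rw [Finset.mem_filter]
  constructor
  · rintro ⟨hI, h1, h2⟩
    rw [strictOnly_iff hω (hX.idl hI)] at h1
    rw [weakOnly_iff hω (hX.sdiff hI)] at h2
    rw [mem_idl] at hI
    refine ⟨hI.1, ?_, ?_⟩
    · intro x hx
      unfold BS at hx
      rw [Finset.mem_filter] at hx
      obtain ⟨hxX, y, hy, hxy⟩ := hx
      by_contra hxI
      have hyI : y ∉ I := fun h => hxI (hI.2 x hxX y h hxy.1.lt.le)
      exact h2 x (Finset.mem_sdiff.2 ⟨hxX, hxI⟩) y (Finset.mem_sdiff.2 ⟨hy, hyI⟩) hxy
    · rw [Finset.disjoint_left]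
      intro y hy hyI
      unfold TpW at hy
      rw [Finset.mem_filter] at hy
      obtain ⟨hyX, x, hx, hxy⟩ := hy
      exact h1 x (hI.2 x hx y hyI hxy.1.lt.le) y hyI hxy
  · rintro ⟨h1, h2, h3⟩
    rw [Finset.disjoint_left] at h3
    have hcov : ∀ x ∈ X, ∀ y ∈ I, x ⋖ y → x ∈ I := by
      intro x hx y hy hxy
      rcases lt_trichotomy (ω x) (ω y) with h4 | h4 | h4
      · exfalso
        apply h3 _ hy
        unfold TpW
        rw [Finset.mem_filter]
        exact ⟨h1 hy, x, hx, hxy, h4⟩
      · exact absurd (hω h4) hxy.lt.ne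
      · apply h2
        unfold BS
        rw [Finset.mem_filter]
        exact ⟨hx, y, h1 hy, hxy, h4⟩
    have hI : I ∈ idl X := by
      rw [mem_idl]
      refine ⟨h1, ?_⟩
      intro x hx y hy hxy
      induction x using (wellFounded_gt (α := P)).induction with
      | _ x ih =>
        rcases eq_or_lt_of_le hxy with h4 | h4
        · rw [h4]
          exact hy
        · obtain ⟨z, hxz, hzy⟩ := exists_cov_between h4
          have hz : z ∈ X := hX x hx y (h1 hy) z hxz.lt.le hzy
          exact hcov x hx z (ih z hxz.lt hz hzy) hxz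
    refine ⟨hI, ?_, ?_⟩
    · rw [strictOnly_iff hω (hX.idl hI)]
      intro x hx y hy hxy
      apply h3 _ hy
      unfold TpW
      rw [Finset.mem_filter]
      exact ⟨h1 hy, x, h1 hx, hxy⟩
    · rw [weakOnly_iff hω (hX.sdiff hI)]
      intro x hx y hy hxy
      rw [Finset.mem_sdiff] at hx hy
      apply hx.2
      apply h2
      unfold BS
      rw [Finset.mem_filter]
      exact ⟨hx.1, y, hy.1, hxy⟩

/-- The value of `σ` on a convex set. -/
theorem sgm_value {ω : P → ℕ} (hω : Function.Injective ω) {X : Finset P} (hX : Cvx X) (t : R)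
    (n : ℕ) : sgm R ω t n X = if X.card = n ∧ Disjoint (TpW ω X) (BS ω X) then
      t ^ (BS ω X).card * (1 + t) ^ (n - (BS ω X).card - (TpW ω X).card) else 0 := by
  rw [sgm_apply]
  by_cases hn : X.card = n
  · rw [if_pos hn]
    by_cases hd : Disjoint (TpW ω X) (BS ω X)
    · rw [if_pos ⟨hn, hd⟩]
      have hBX : BS ω X ⊆ X := Finset.filter_subset _ _
      have hTX : TpW ω X ⊆ X := Finset.filter_subset _ _
      have h1 : splits ω X = ((X \ BS ω X) \ TpW ω X).powerset.image (fun J => BS ω X ∪ J) := by
        ext I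
        rw [mem_splits_iff hω hX, Finset.mem_image]
        constructor
        · rintro ⟨h1, h2, h3⟩
          refine ⟨I \ BS ω X, ?_, Finset.union_sdiff_of_subset h2⟩
          rw [Finset.mem_powerset]
          intro x hx
          rw [Finset.mem_sdiff] at hx
          rw [Finset.mem_sdiff, Finset.mem_sdiff]
          exact ⟨⟨h1 hx.1, hx.2⟩, fun h => Finset.disjoint_left.1 h3 h hx.1⟩
        · rintro ⟨J, hJ, rfl⟩
          rw [Finset.mem_powerset] at hJ
          refine ⟨?_, Finset.subset_union_left, ?_⟩
          · apply Finset.union_subset hBX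
            intro x hx
            exact (Finset.mem_sdiff.1 (Finset.mem_sdiff.1 (hJ hx)).1).1
          · rw [Finset.disjoint_union_right]
            refine ⟨hd, ?_⟩
            rw [Finset.disjoint_left]
            intro x hx hxJ
            exact (Finset.mem_sdiff.1 (hJ hxJ)).2 hx
      rw [h1, Finset.sum_image]
      · have h2 : ∀ J ∈ ((X \ BS ω X) \ TpW ω X).powerset, t ^ (BS ω X ∪ J).card =
            t ^ (BS ω X).card * t ^ J.card := by
          intro J hJ
          rw [Finset.mem_powerset] at hJ
          rw [Finset.card_union_of_disjoint, pow_add]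
          rw [Finset.disjoint_left]
          intro x hx hxJ
          exact (Finset.mem_sdiff.1 (Finset.mem_sdiff.1 (hJ hxJ)).1).2 hx
        rw [Finset.sum_congr rfl h2, ← Finset.mul_sum]
        congr 1
        have h3 := Finset.sum_pow_mul_eq_add_pow t 1 ((X \ BS ω X) \ TpW ω X)
        simp only [one_pow, mul_one] at h3
        rw [h3, add_comm t 1]
        congr 1
        rw [Finset.card_sdiff_of_subset, Finset.card_sdiff_of_subset hBX, hn]
        intro x hx
        rw [Finset.mem_sdiff]
        exact ⟨hTX hx, Finset.disjoint_left.1 hd hx⟩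
      · intro J hJ J' hJ' h
        simp only [Finset.coe_powerset, Set.mem_preimage, Set.mem_powerset_iff,
          Finset.coe_subset] at hJ hJ'
        have h4 : ∀ K : Finset P, K ⊆ (X \ BS ω X) \ TpW ω X → (BS ω X ∪ K) \ BS ω X = K := by
          intro K hK
          rw [Finset.union_sdiff_left, Finset.sdiff_eq_self_iff_disjoint, Finset.disjoint_left]
          intro x hxK hx
          exact (Finset.mem_sdiff.1 (Finset.mem_sdiff.1 (hK hxK)).1).2 hx
        have h5 : BS ω X ∪ J = BS ω X ∪ J' := h
        rw [← h4 J hJ, ← h4 J' hJ', h5]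
    · rw [if_neg (fun h => hd h.2)]
      have h1 : splits ω X = ∅ := by
        rw [Finset.eq_empty_iff_forall_notMem]
        intro I hI
        rw [mem_splits_iff hω hX] at hI
        apply hd
        exact hI.2.2.mono_right hI.2.1
      rw [h1, Finset.sum_empty]
  · rw [if_neg hn, if_neg (fun h => hn h.1)]

theorem splits'_eq (ω : P → ℕ) (X : Finset P) : splits' ω X = splits (tr ω) X := by
  unfold splits' splits
  simp only [strictOnly_tr, weakOnly_tr]

theorem BS_tr (ω : P → ℕ) (X : Finset P) : BS (tr ω) X = BW ω X := by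
  unfold BS BW
  simp only [sCov_tr]

theorem TpW_tr (ω : P → ℕ) (X : Finset P) : TpW (tr ω) X = TpS ω X := by
  unfold TpW TpS
  simp only [wCov_tr]

/-- The value of `σ'` on a convex set. -/
theorem sgm'_value {ω : P → ℕ} (hω : Function.Injective ω) {X : Finset P} (hX : Cvx X) (t : R)
    (n : ℕ) : sgm' R ω t n X = if X.card = n ∧ Disjoint (TpS ω X) (BW ω X) then
      t ^ (TpS ω X).card * (1 + t) ^ (n - (TpS ω X).card - (BW ω X).card) else 0 := by
  rw [sgm'_apply, splits'_eq]
  by_cases hn : X.card = n
  · rw [if_pos hn]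
    by_cases hd : Disjoint (TpS ω X) (BW ω X)
    · rw [if_pos ⟨hn, hd⟩]
      have hBX : BW ω X ⊆ X := Finset.filter_subset _ _
      have hTX : TpS ω X ⊆ X := Finset.filter_subset _ _
      have h1 : splits (tr ω) X =
          ((X \ TpS ω X) \ BW ω X).powerset.image (fun J => X \ (TpS ω X ∪ J)) := by
        ext I
        rw [mem_splits_iff (tr_injective hω) hX, Finset.mem_image, BS_tr, TpW_tr]
        constructor
        · rintro ⟨h1, h2, h3⟩
          rw [Finset.disjoint_left] at h3
          refine ⟨(X \ TpS ω X) \ I, ?_, ?_⟩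
          · rw [Finset.mem_powerset]
            intro x hx
            rw [Finset.mem_sdiff] at hx ⊢
            exact ⟨hx.1, fun h => hx.2 (h2 h)⟩
          · ext x
            simp only [Finset.mem_sdiff, Finset.mem_union]
            constructor
            · rintro ⟨h4, h5⟩
              by_contra h6
              by_cases h7 : x ∈ TpS ω X
              · exact h5 (Or.inl h7)
              · exact h5 (Or.inr ⟨⟨h4, h7⟩, h6⟩)
            · intro h4
              refine ⟨h1 h4, ?_⟩
              rintro (h5 | h5)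
              · exact h3 h5 h4
              · exact h5.2 h4
        · rintro ⟨J, hJ, rfl⟩
          rw [Finset.mem_powerset] at hJ
          refine ⟨Finset.sdiff_subset, ?_, ?_⟩
          · intro x hx
            rw [Finset.mem_sdiff, Finset.mem_union]
            refine ⟨hBX hx, ?_⟩
            rintro (h4 | h4)
            · exact Finset.disjoint_left.1 hd h4 hx
            · exact (Finset.mem_sdiff.1 (hJ h4)).2 hx
          · rw [Finset.disjoint_left]
            intro x hx h4
            rw [Finset.mem_sdiff, Finset.mem_union] at h4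
            exact h4.2 (Or.inl hx)
      have h6 : ∀ K : Finset P, K ⊆ (X \ TpS ω X) \ BW ω X →
          TpS ω X ∪ K ⊆ X ∧ Disjoint (TpS ω X) K := by
        intro K hK
        refine ⟨?_, ?_⟩
        · apply Finset.union_subset hTX
          intro x hx
          exact (Finset.mem_sdiff.1 (Finset.mem_sdiff.1 (hK hx)).1).1
        · rw [Finset.disjoint_left]
          intro x hx hxK
          exact (Finset.mem_sdiff.1 (Finset.mem_sdiff.1 (hK hxK)).1).2 hx
      rw [h1, Finset.sum_image]
      · have h2 : ∀ J ∈ ((X \ TpS ω X) \ BW ω X).powerset, t ^ (X \ (X \ (TpS ω X ∪ J))).card =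
            t ^ (TpS ω X).card * t ^ J.card := by
          intro J hJ
          rw [Finset.mem_powerset] at hJ
          obtain ⟨h7, h8⟩ := h6 J hJ
          rw [Finset.sdiff_sdiff_eq_self h7, Finset.card_union_of_disjoint h8, pow_add]
        rw [Finset.sum_congr rfl h2, ← Finset.mul_sum]
        congr 1
        have h3 := Finset.sum_pow_mul_eq_add_pow t 1 ((X \ TpS ω X) \ BW ω X)
        simp only [one_pow, mul_one] at h3
        rw [h3, add_comm t 1]
        congr 1
        rw [Finset.card_sdiff_of_subset, Finset.card_sdiff_of_subset hTX, hn]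
        intro x hx
        rw [Finset.mem_sdiff]
        exact ⟨hBX hx, Finset.disjoint_right.1 hd hx⟩
      · intro J hJ J' hJ' h
        simp only [Finset.coe_powerset, Set.mem_preimage, Set.mem_powerset_iff,
          Finset.coe_subset] at hJ hJ'
        obtain ⟨h7, h8⟩ := h6 J hJ
        obtain ⟨h9, h10⟩ := h6 J' hJ'
        have h5 : X \ (TpS ω X ∪ J) = X \ (TpS ω X ∪ J') := h
        have h11 : TpS ω X ∪ J = TpS ω X ∪ J' := by
          rw [← Finset.sdiff_sdiff_eq_self h7, h5, Finset.sdiff_sdiff_eq_self h9]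
        have h12 : ∀ K : Finset P, Disjoint (TpS ω X) K → (TpS ω X ∪ K) \ TpS ω X = K := by
          intro K hK
          rw [Finset.union_sdiff_left, Finset.sdiff_eq_self_iff_disjoint]
          exact hK.symm
        rw [← h12 J h8, ← h12 J' h10, h11]
    · rw [if_neg (fun h => hd h.2)]
      have h1 : splits (tr ω) X = ∅ := by
        rw [Finset.eq_empty_iff_forall_notMem]
        intro I hI
        rw [mem_splits_iff (tr_injective hω) hX, BS_tr, TpW_tr] at hI
        apply hd
        exact hI.2.2.mono_right hI.2.1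
      rw [h1, Finset.sum_empty]
  · rw [if_neg hn, if_neg (fun h => hn h.1)]

end Pool.Agent.ST14
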